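import Mathlib

/-!
# Definitions for theorem C (zeros of the de Bruijn-Newman functions)

`HH t z = ∫_0^∞ e^{t u²} Φ(u) cos(z u) du`; `HH 0 z = ξ(1/2 + i z/2) / 8`.
-/

namespace Pool.Agent.Lib.MP_ec260d_ntC

open Complex Set Filter Topology Metric MeasureTheory

noncomputable section

/-- the `n`-th term of the series of `Φ` -/
def phn (n : ℕ) (u : ℂ) : ℂ :=
  (2 * Real.pi ^ 2 * n ^ 4 * cexp (9 * u) - 3 * Real.pi * n ^ 2 * cexp (5 * u)) *
    cexp (-(Real.pi * n ^ 2 * cexp (4 * u)))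

/-- the function `Φ` of Riemann, Pólya and de Bruijn -/
def Ph (u : ℂ) : ℂ := ∑' n : ℕ, phn (n + 1) u

/-- the de Bruijn-Newman function `H_t(z)` -/
def HH (t z : ℂ) : ℂ := ∫ u in Ioi (0 : ℝ), cexp (t * (u : ℂ) ^ 2) * Ph u * Complex.cos (z * u)

/-- the derivative of `H_t(z)` with respect to `z` -/
def Hz (t z : ℂ) : ℂ := deriv (HH t) z

/-- the strip where `Φ` is analytic -/
def strip : Set ℂ := {u | |u.im| < Real.pi / 8}

/-- the zeros `z i` of `H_t` belong to analytic branches satisfying the relation `P` near `t` -/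
def Rel {n : ℕ} (P : MvPolynomial (Option (Fin n)) ℂ) (t : ℂ) (z : Fin n → ℂ) : Prop :=
  ∃ g : Fin n → ℂ → ℂ,
    (∀ i, AnalyticAt ℂ (g i) t ∧ g i t = z i ∧ ∀ᶠ s in 𝓝 t, HH s (g i s) = 0) ∧
    ∀ᶠ s in 𝓝 t, MvPolynomial.eval (fun o : Option (Fin n) => o.elim s (fun i => g i s)) P = 0

/-- a simple zero of `H_t` -/
def Smp (t z : ℂ) : Prop := HH t z = 0 ∧ Hz t z ≠ 0

end

end Pool.Agent.Lib.MP_ec260d_ntC
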