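import Mathlib
import Pool.Agent.Lib.MP_ec260d_ntC.Defs

/-!
# JOB PhiA: bounds for the series of Phi (about 250 lines)

Write `x = u.re`, `A = (cexp (4 * u)).re = exp (4 x) * cos (4 u.im)`; `A > 0` on the strip.
`phn_bound`: `‖cexp (9 u)‖ = exp (9 x)`, `‖cexp (5 u)‖ = exp (5 x) ≤ exp (9 x)` for `x ≥ 0`, `‖cexp (-(π n² cexp (4u)))‖ = exp (-(π n² A))`, and `2 π² n⁴ + 3 π n² ≤ 30 n⁴` (for `n = 0` both sides are `0`; `π² < 9.87`, `π < 3.1416`).
`Ph_diff`: on a compact subset of the strip `A ≥ c > 0` and `x ≤ X`, so `‖phn n u‖ ≤ (2 π² n⁴ + 3 π n²) exp (9 |x|) exp (-(π n² c))`, summable; use `differentiableOn_tsum_of_summable_norm` locally (on a small ball around each point: `DifferentiableOn` near the point) or `hasDerivAt`/`TendstoLocallyUniformlyOn.differentiableOn`.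
`Ph_bound`: `∑_{n ≥ 1} 30 n⁴ exp (9x - π n² A) = 30 exp (9x - π A) ∑ n⁴ exp (-(π (n² - 1) A))`, the term `n = 1` is `1`, and for `n ≥ 2`: `exp (-y) ≤ 6 / y³` for `y > 0` (`Real.pow_div_factorial_le_exp` or `Real.quadratic_le_exp_of_nonneg` style) gives `n⁴ exp (-(π (n²-1) A)) ≤ 6 n⁴ / (π (n² - 1) A)³ ≤ 6 * 8 / (n² A³)` since `n² - 1 ≥ n²/2`
and `π ≥ 1`.  So the sum is at most `1 + 48 (∑ 1/n²) A⁻³`.
`Ph_main`: `Ph u - 2 π² cexp (9u - π cexp (4u)) = -3 π cexp (5u) cexp (-(π cexp (4u))) + ∑_{n ≥ 2} phn n u`; the first is at most `10 exp (-4x) exp (9x - πA)`, the second at most `30 * 48 (∑ 1/n²) A⁻³ exp (9x - πA)`.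
-/

namespace Pool.Agent.Lib.MP_ec260d_ntC

open Complex Set Filter Topology Metric MeasureTheory

theorem strip_open : IsOpen strip := by
  exact isOpen_lt (continuous_abs.comp Complex.continuous_im) continuous_const

theorem strip_convex : Convex ℝ strip := by
  intro x hx y hy a b ha hb hab
  have h := convex_Ioo (-(Real.pi / 8)) (Real.pi / 8) (abs_lt.1 hx) (abs_lt.1 hy) ha hb hab
  show |(a • x + b • y).im| < Real.pi / 8
  have e : (a • x + b • y).im = a • x.im + b • y.im := by simp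
  rw [e]
  exact abs_lt.2 h

theorem exp4_re (u : ℂ) : (cexp (4 * u)).re = Real.exp (4 * u.re) * Real.cos (4 * u.im) := by
  rw [Complex.exp_re]
  simp

theorem exp4_re_pos (u : ℂ) (hu : u ∈ strip) : 0 < (cexp (4 * u)).re := by
  rw [exp4_re]
  refine mul_pos (Real.exp_pos _) (Real.cos_pos_of_mem_Ioo ?_)
  have h := abs_lt.1 (show |u.im| < Real.pi / 8 from hu)
  constructor
  · linarith [h.1]
  · linarith [h.2]

theorem PhiA1_bd (n : ℕ) (u : ℂ) :
    ‖phn n u‖ ≤ (2 * Real.pi ^ 2 * (n : ℝ) ^ 4 * Real.exp (9 * u.re) +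
      3 * Real.pi * (n : ℝ) ^ 2 * Real.exp (5 * u.re)) *
      Real.exp (-(Real.pi * (n : ℝ) ^ 2 * (cexp (4 * u)).re)) := by
  have hpi := Real.pi_pos
  unfold phn
  rw [norm_mul]
  have h1 : ‖cexp (-(Real.pi * n ^ 2 * cexp (4 * u)))‖ =
      Real.exp (-(Real.pi * (n : ℝ) ^ 2 * (cexp (4 * u)).re)) := by
    rw [Complex.norm_exp]
    congr 1
    have e : (-(Real.pi * n ^ 2 * cexp (4 * u)) : ℂ) =
        ((-(Real.pi * (n : ℝ) ^ 2) : ℝ) : ℂ) * cexp (4 * u) := by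
      push_cast
      ring
    rw [e, Complex.re_ofReal_mul]
    ring
  rw [h1]
  refine mul_le_mul_of_nonneg_right ?_ (Real.exp_pos _).le
  refine (norm_sub_le _ _).trans (le_of_eq ?_)
  have h2 : ‖(2 * Real.pi ^ 2 * n ^ 4 * cexp (9 * u) : ℂ)‖ =
      2 * Real.pi ^ 2 * (n : ℝ) ^ 4 * Real.exp (9 * u.re) := by
    have e : (2 * Real.pi ^ 2 * n ^ 4 * cexp (9 * u) : ℂ) =
        ((2 * Real.pi ^ 2 * (n : ℝ) ^ 4 : ℝ) : ℂ) * cexp (9 * u) := by
      push_cast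
      ring
    rw [e, norm_mul, Complex.norm_real, Complex.norm_exp, Real.norm_of_nonneg (by positivity)]
    simp
  have h3 : ‖(3 * Real.pi * n ^ 2 * cexp (5 * u) : ℂ)‖ =
      3 * Real.pi * (n : ℝ) ^ 2 * Real.exp (5 * u.re) := by
    have e : (3 * Real.pi * n ^ 2 * cexp (5 * u) : ℂ) =
        ((3 * Real.pi * (n : ℝ) ^ 2 : ℝ) : ℂ) * cexp (5 * u) := by
      push_cast
      ring
    rw [e, norm_mul, Complex.norm_real, Complex.norm_exp, Real.norm_of_nonneg (by positivity)]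
    simp
  rw [h2, h3]

theorem phn_bound (n : ℕ) (u : ℂ) (hu : 0 ≤ u.re) :
    ‖phn n u‖ ≤ 30 * (n : ℝ) ^ 4 * Real.exp (9 * u.re - Real.pi * (n : ℝ) ^ 2 * (cexp (4 * u)).re) := by
  refine (PhiA1_bd n u).trans ?_
  have hx : Real.exp (5 * u.re) ≤ Real.exp (9 * u.re) := Real.exp_le_exp.2 (by linarith)
  have hpi := Real.pi_pos
  have hpi1 : Real.pi < 3.1416 := Real.pi_lt_d4
  have hn : (n : ℝ) ^ 2 ≤ (n : ℝ) ^ 4 := by
    rcases Nat.eq_zero_or_pos n with h | h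
    · rw [h]
      norm_num
    · exact pow_le_pow_right₀ (by exact_mod_cast h) (by norm_num)
  have hn0 : (0 : ℝ) ≤ (n : ℝ) ^ 2 := by positivity
  have e1 : Real.exp (9 * u.re - Real.pi * (n : ℝ) ^ 2 * (cexp (4 * u)).re) =
      Real.exp (9 * u.re) * Real.exp (-(Real.pi * (n : ℝ) ^ 2 * (cexp (4 * u)).re)) := by
    rw [← Real.exp_add, sub_eq_add_neg]
  rw [e1, ← mul_assoc]
  refine mul_le_mul_of_nonneg_right ?_ (Real.exp_pos _).le
  have h1 : 3 * Real.pi * (n : ℝ) ^ 2 * Real.exp (5 * u.re) ≤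
      3 * Real.pi * (n : ℝ) ^ 4 * Real.exp (9 * u.re) :=
    mul_le_mul (mul_le_mul_of_nonneg_left hn (by positivity)) hx (Real.exp_pos _).le (by positivity)
  have h2 : 2 * Real.pi ^ 2 + 3 * Real.pi ≤ 30 := by nlinarith
  have h3 : 0 ≤ (n : ℝ) ^ 4 * Real.exp (9 * u.re) := by positivity
  have h4 := mul_le_mul_of_nonneg_right h2 h3
  have h5 : 2 * Real.pi ^ 2 * (n : ℝ) ^ 4 * Real.exp (9 * u.re) +
      3 * Real.pi * (n : ℝ) ^ 4 * Real.exp (9 * u.re) =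
      (2 * Real.pi ^ 2 + 3 * Real.pi) * ((n : ℝ) ^ 4 * Real.exp (9 * u.re)) := by ring
  linarith

theorem phn_summable (u : ℂ) (hu : u ∈ strip) : Summable (fun n : ℕ => phn (n + 1) u) := by
  have hA := exp4_re_pos u hu
  have hpi := Real.pi_pos
  obtain ⟨c, hc⟩ : ∃ c, c = Real.pi * (cexp (4 * u)).re := ⟨_, rfl⟩
  have hc0 : 0 < c := by
    rw [hc]
    exact mul_pos hpi hA
  obtain ⟨D, hD⟩ : ∃ D, D = 2 * Real.pi ^ 2 * Real.exp (9 * u.re) + 3 * Real.pi * Real.exp (5 * u.re) :=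
    ⟨_, rfl⟩
  have hs : Summable (fun n : ℕ => D * ((n : ℝ) ^ 4 * Real.exp (-c * n))) :=
    (Real.summable_pow_mul_exp_neg_nat_mul 4 hc0).mul_left D
  have hs1 := (summable_nat_add_iff 1).2 hs
  refine Summable.of_norm_bounded hs1 fun n => ?_
  refine (PhiA1_bd (n + 1) u).trans ?_
  have hn : (1 : ℝ) ≤ ((n + 1 : ℕ) : ℝ) := by
    push_cast
    linarith [(Nat.cast_nonneg n : (0 : ℝ) ≤ n)]
  obtain ⟨y, hy⟩ : ∃ y : ℝ, y = ((n + 1 : ℕ) : ℝ) := ⟨_, rfl⟩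
  rw [← hy] at hn ⊢
  have h1 : Real.exp (-(Real.pi * y ^ 2 * (cexp (4 * u)).re)) ≤ Real.exp (-c * y) := by
    refine Real.exp_le_exp.2 ?_
    have e : Real.pi * y ^ 2 * (cexp (4 * u)).re = c * y ^ 2 := by
      rw [hc]
      ring
    rw [e]
    have : y ≤ y ^ 2 := by nlinarith
    have := mul_le_mul_of_nonneg_left this hc0.le
    linarith
  have h2 : y ^ 2 ≤ y ^ 4 := pow_le_pow_right₀ hn (by norm_num)
  have h3 : 2 * Real.pi ^ 2 * y ^ 4 * Real.exp (9 * u.re) + 3 * Real.pi * y ^ 2 * Real.exp (5 * u.re) ≤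
      D * y ^ 4 := by
    have h4 : 3 * Real.pi * Real.exp (5 * u.re) * y ^ 2 ≤ 3 * Real.pi * Real.exp (5 * u.re) * y ^ 4 :=
      mul_le_mul_of_nonneg_left h2 (by positivity)
    rw [hD]
    linarith
  have hD0 : 0 ≤ D * y ^ 4 := by
    rw [hD]
    positivity
  calc (2 * Real.pi ^ 2 * y ^ 4 * Real.exp (9 * u.re) + 3 * Real.pi * y ^ 2 * Real.exp (5 * u.re)) *
      Real.exp (-(Real.pi * y ^ 2 * (cexp (4 * u)).re)) ≤ D * y ^ 4 * Real.exp (-c * y) :=
        mul_le_mul h3 h1 (Real.exp_pos _).le hD0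
    _ = D * (y ^ 4 * Real.exp (-c * y)) := by ring

private theorem PhiA2_bd (m : ℕ) (u : ℂ) (X c : ℝ) (h1 : u.re ≤ X) (h2 : c ≤ (cexp (4 * u)).re) :
    ‖phn m u‖ ≤ (2 * Real.pi ^ 2 * (m : ℝ) ^ 4 * Real.exp (9 * X) +
      3 * Real.pi * (m : ℝ) ^ 2 * Real.exp (5 * X)) * Real.exp (-(Real.pi * (m : ℝ) ^ 2 * c)) := by
  have hpi := Real.pi_pos
  unfold phn
  rw [norm_mul]
  have e1 : ‖(2 * Real.pi ^ 2 * m ^ 4 * cexp (9 * u) : ℂ)‖ ≤
      2 * Real.pi ^ 2 * (m : ℝ) ^ 4 * Real.exp (9 * X) := by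
    have e : (2 * Real.pi ^ 2 * m ^ 4 * cexp (9 * u) : ℂ) =
        ((2 * Real.pi ^ 2 * (m : ℝ) ^ 4 : ℝ) : ℂ) * cexp (9 * u) := by push_cast; ring
    rw [e, norm_mul, Complex.norm_real, Real.norm_eq_abs, abs_of_nonneg (by positivity),
      Complex.norm_exp]
    have e2 : (9 * u).re = 9 * u.re := by simp
    rw [e2]
    exact mul_le_mul_of_nonneg_left (Real.exp_le_exp.2 (by linarith)) (by positivity)
  have e2 : ‖(3 * Real.pi * m ^ 2 * cexp (5 * u) : ℂ)‖ ≤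
      3 * Real.pi * (m : ℝ) ^ 2 * Real.exp (5 * X) := by
    have e : (3 * Real.pi * m ^ 2 * cexp (5 * u) : ℂ) =
        ((3 * Real.pi * (m : ℝ) ^ 2 : ℝ) : ℂ) * cexp (5 * u) := by push_cast; ring
    rw [e, norm_mul, Complex.norm_real, Real.norm_eq_abs, abs_of_nonneg (by positivity),
      Complex.norm_exp]
    have e2 : (5 * u).re = 5 * u.re := by simp
    rw [e2]
    exact mul_le_mul_of_nonneg_left (Real.exp_le_exp.2 (by linarith)) (by positivity)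
  have e3 : ‖cexp (-(Real.pi * m ^ 2 * cexp (4 * u)))‖ ≤
      Real.exp (-(Real.pi * (m : ℝ) ^ 2 * c)) := by
    have e : (Real.pi * m ^ 2 * cexp (4 * u) : ℂ) =
        ((Real.pi * (m : ℝ) ^ 2 : ℝ) : ℂ) * cexp (4 * u) := by push_cast; ring
    rw [e, Complex.norm_exp, Complex.neg_re, Complex.re_ofReal_mul]
    refine Real.exp_le_exp.2 (neg_le_neg ?_)
    exact mul_le_mul_of_nonneg_left h2 (by positivity)
  exact mul_le_mul ((norm_sub_le _ _).trans (add_le_add e1 e2)) e3 (norm_nonneg _) (by positivity)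

private theorem PhiA2_sum (k : ℕ) {c : ℝ} (hc : 0 < c) :
    Summable fun n : ℕ => ((n + 1 : ℕ) : ℝ) ^ k * Real.exp (-(Real.pi * ((n + 1 : ℕ) : ℝ) ^ 2 * c)) := by
  have hr : 0 < Real.pi * c := mul_pos Real.pi_pos hc
  have h1 := (summable_nat_add_iff 1).2 (Real.summable_pow_mul_exp_neg_nat_mul k hr)
  refine Summable.of_nonneg_of_le (fun n => by positivity) (fun n => ?_) h1
  refine mul_le_mul_of_nonneg_left (Real.exp_le_exp.2 ?_) (by positivity)
  have h2 : (1 : ℝ) ≤ ((n + 1 : ℕ) : ℝ) := by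
    push_cast
    have := Nat.cast_nonneg (α := ℝ) n
    linarith
  have h3 : ((n + 1 : ℕ) : ℝ) ≤ ((n + 1 : ℕ) : ℝ) ^ 2 := by nlinarith
  have h4 : Real.pi * c * ((n + 1 : ℕ) : ℝ) ≤ Real.pi * c * ((n + 1 : ℕ) : ℝ) ^ 2 :=
    mul_le_mul_of_nonneg_left h3 hr.le
  linarith

private theorem PhiA2_phn (m : ℕ) : Differentiable ℂ (phn m) := by
  unfold phn
  fun_prop

theorem Ph_diff : DifferentiableOn ℂ Ph strip := by
  intro u0 hu0
  have hA0 := exp4_re_pos u0 hu0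
  obtain ⟨c, hc⟩ : ∃ c, c = (cexp (4 * u0)).re / 2 := ⟨_, rfl⟩
  have hc0 : 0 < c := by rw [hc]; linarith
  obtain ⟨U, hU⟩ : ∃ U : Set ℂ, U = {u | c < (cexp (4 * u)).re} ∩ {u | u.re < u0.re + 1} := ⟨_, rfl⟩
  have hUo : IsOpen U := by
    rw [hU]
    refine IsOpen.inter ?_ ?_
    · exact isOpen_lt continuous_const
        (Complex.continuous_re.comp (Complex.continuous_exp.comp (continuous_const.mul continuous_id)))
    · exact isOpen_lt Complex.continuous_re continuous_const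
  have hu0U : u0 ∈ U := by
    rw [hU]
    constructor
    · show c < (cexp (4 * u0)).re
      rw [hc]
      linarith
    · show u0.re < u0.re + 1
      linarith
  have hs : Summable fun n : ℕ => (2 * Real.pi ^ 2 * ((n + 1 : ℕ) : ℝ) ^ 4 * Real.exp (9 * (u0.re + 1)) +
      3 * Real.pi * ((n + 1 : ℕ) : ℝ) ^ 2 * Real.exp (5 * (u0.re + 1))) *
        Real.exp (-(Real.pi * ((n + 1 : ℕ) : ℝ) ^ 2 * c)) := by
    have h1 := ((PhiA2_sum 4 hc0).mul_left (2 * Real.pi ^ 2 * Real.exp (9 * (u0.re + 1)))).add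
      ((PhiA2_sum 2 hc0).mul_left (3 * Real.pi * Real.exp (5 * (u0.re + 1))))
    refine h1.congr fun n => ?_
    ring
  have hd : DifferentiableOn ℂ (fun w => ∑' n : ℕ, phn (n + 1) w) U := by
    refine differentiableOn_tsum_of_summable_norm hs (fun n => (PhiA2_phn (n + 1)).differentiableOn)
      hUo fun n w hw => ?_
    rw [hU] at hw
    exact PhiA2_bd (n + 1) w (u0.re + 1) c (le_of_lt hw.2) (le_of_lt hw.1)
  exact (hd.differentiableAt (hUo.mem_nhds hu0U)).differentiableWithinAt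

private theorem PhiA3_S : ∃ S : ℝ, 0 ≤ S ∧ HasSum (fun n : ℕ => 1 / ((n : ℝ) + 2) ^ 2) S := by
  have h1 : Summable (fun n : ℕ => 1 / ((n : ℝ)) ^ 2) := Real.summable_one_div_nat_pow.2 one_lt_two
  have h2 := (summable_nat_add_iff 2).2 h1
  have h3 : Summable (fun n : ℕ => 1 / ((n : ℝ) + 2) ^ 2) := by
    refine h2.congr fun n => ?_
    push_cast
    rfl
  exact ⟨_, tsum_nonneg fun n => by positivity, h3.hasSum⟩

private theorem PhiA3_exp {y : ℝ} (hy : 0 < y) : Real.exp (-y) ≤ 6 / y ^ 3 := by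
  have h1 := Real.pow_div_factorial_le_exp y hy.le 3
  have h2 : ((Nat.factorial 3 : ℕ) : ℝ) = 6 := by norm_num [Nat.factorial]
  rw [h2] at h1
  rw [Real.exp_neg, inv_le_comm₀ (Real.exp_pos y) (by positivity), inv_div]
  exact h1

private theorem PhiA3_term {A x : ℝ} (hA : 0 < A) (n : ℕ) :
    30 * ((n : ℝ) + 2) ^ 4 * Real.exp (9 * x - Real.pi * ((n : ℝ) + 2) ^ 2 * A) ≤
      1440 * (A ^ 3)⁻¹ * Real.exp (9 * x - Real.pi * A) * (1 / ((n : ℝ) + 2) ^ 2) := by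
  have hn : (0 : ℝ) ≤ n := Nat.cast_nonneg n
  set N : ℝ := (n : ℝ) + 2 with hN
  have hN2 : 2 ≤ N := by linarith
  have hN0 : 0 < N := by linarith
  have hpi : 1 ≤ Real.pi := by linarith [Real.pi_gt_three]
  have h1 : 9 * x - Real.pi * N ^ 2 * A = (9 * x - Real.pi * A) + -(Real.pi * (N ^ 2 - 1) * A) := by
    ring
  have hNN : N ^ 2 / 2 ≤ N ^ 2 - 1 := by nlinarith
  have hz : 0 < N ^ 2 / 2 * A := by positivity
  have hy : N ^ 2 / 2 * A ≤ Real.pi * (N ^ 2 - 1) * A := by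
    refine mul_le_mul_of_nonneg_right ?_ hA.le
    have h2 : 0 ≤ N ^ 2 - 1 := by nlinarith
    nlinarith
  have h3 : Real.exp (-(Real.pi * (N ^ 2 - 1) * A)) ≤ 48 / (N ^ 6 * A ^ 3) := by
    refine (Real.exp_le_exp.2 (neg_le_neg hy)).trans ((PhiA3_exp hz).trans (le_of_eq ?_))
    field_simp
    ring
  rw [h1, Real.exp_add]
  have h4 : 30 * N ^ 4 * (Real.exp (9 * x - Real.pi * A) *
      Real.exp (-(Real.pi * (N ^ 2 - 1) * A))) ≤
      30 * N ^ 4 * (Real.exp (9 * x - Real.pi * A) * (48 / (N ^ 6 * A ^ 3))) := by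
    gcongr
  refine h4.trans (le_of_eq ?_)
  field_simp
  ring

private theorem PhiA3_tail : ∃ S : ℝ, 0 ≤ S ∧ ∀ u ∈ strip, 0 ≤ u.re →
    ‖∑' n : ℕ, phn (n + 1 + 1) u‖ ≤
      1440 * ((cexp (4 * u)).re ^ 3)⁻¹ * Real.exp (9 * u.re - Real.pi * (cexp (4 * u)).re) * S := by
  obtain ⟨S, hS, hsum⟩ := PhiA3_S
  refine ⟨S, hS, fun u hu hx => ?_⟩
  have hA := exp4_re_pos u hu
  refine tsum_of_norm_bounded (hsum.mul_left (1440 * ((cexp (4 * u)).re ^ 3)⁻¹ *
    Real.exp (9 * u.re - Real.pi * (cexp (4 * u)).re))) fun n => ?_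
  refine (phn_bound (n + 1 + 1) u hx).trans (le_trans (le_of_eq ?_) (PhiA3_term (x := u.re) hA n))
  have h1 : (((n + 1 + 1 : ℕ)) : ℝ) = (n : ℝ) + 2 := by
    push_cast
    ring
  rw [h1]

private theorem PhiA3_split (u : ℂ) (hu : u ∈ strip) :
    Ph u = phn 1 u + ∑' n : ℕ, phn (n + 1 + 1) u := by
  unfold Ph
  rw [(phn_summable u hu).tsum_eq_zero_add]

theorem Ph_bound : ∃ C : ℝ, 0 < C ∧ ∀ u ∈ strip, 0 ≤ u.re →
    ‖Ph u‖ ≤ C * (1 + ((cexp (4 * u)).re ^ 3)⁻¹) * Real.exp (9 * u.re - Real.pi * (cexp (4 * u)).re) := by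
  obtain ⟨S, hS, htail⟩ := PhiA3_tail
  refine ⟨30 + 1440 * S, by positivity, fun u hu hx => ?_⟩
  have hA := exp4_re_pos u hu
  have h1 := htail u hu hx
  have h2 := phn_bound 1 u hx
  rw [PhiA3_split u hu]
  refine (norm_add_le _ _).trans ?_
  rw [Nat.cast_one, one_pow, one_pow, mul_one, mul_one] at h2
  have hE := Real.exp_pos (9 * u.re - Real.pi * (cexp (4 * u)).re)
  set E := Real.exp (9 * u.re - Real.pi * (cexp (4 * u)).re)
  have hB : 0 < ((cexp (4 * u)).re ^ 3)⁻¹ := by positivity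
  set B := ((cexp (4 * u)).re ^ 3)⁻¹
  have h3 : (30 + 1440 * S) * (1 + B) * E = 30 * E + 1440 * B * E * S +
      (30 * B * E + 1440 * S * E) := by ring
  rw [h3]
  have h4 : 0 ≤ 30 * B * E + 1440 * S * E := by positivity
  linarith

theorem Ph_main : ∃ C : ℝ, 0 < C ∧ ∀ u ∈ strip, 0 ≤ u.re →
    ‖Ph u - 2 * Real.pi ^ 2 * cexp (9 * u - Real.pi * cexp (4 * u))‖ ≤
      C * (Real.exp (-(4 * u.re)) + ((cexp (4 * u)).re ^ 3)⁻¹) *
        Real.exp (9 * u.re - Real.pi * (cexp (4 * u)).re) := by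
  obtain ⟨S, hS, htail⟩ := PhiA3_tail
  refine ⟨10 + 1440 * S, by positivity, fun u hu hx => ?_⟩
  have hA := exp4_re_pos u hu
  have h1 := htail u hu hx
  have h2 : phn 1 u - 2 * Real.pi ^ 2 * cexp (9 * u - Real.pi * cexp (4 * u)) =
      -(3 * Real.pi * cexp (5 * u + -(Real.pi * cexp (4 * u)))) := by
    unfold phn
    rw [Nat.cast_one, one_pow, one_pow, mul_one, mul_one, mul_one, sub_eq_add_neg (9 * u),
      Complex.exp_add, Complex.exp_add]
    ring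
  have h3 : ‖phn 1 u - 2 * Real.pi ^ 2 * cexp (9 * u - Real.pi * cexp (4 * u))‖ ≤
      10 * (Real.exp (-(4 * u.re)) * Real.exp (9 * u.re - Real.pi * (cexp (4 * u)).re)) := by
    rw [h2, norm_neg, norm_mul, norm_mul, Complex.norm_exp, Complex.norm_real,
      Real.norm_eq_abs, abs_of_pos Real.pi_pos]
    have h4 : ‖(3 : ℂ)‖ = 3 := by simp
    have h5 : (5 * u + -(Real.pi * cexp (4 * u))).re = -(4 * u.re) +
        (9 * u.re - Real.pi * (cexp (4 * u)).re) := by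
      rw [Complex.add_re, Complex.neg_re, Complex.re_ofReal_mul]
      simp
      ring
    rw [h4, h5, Real.exp_add]
    refine mul_le_mul_of_nonneg_right ?_ (by positivity)
    linarith [Real.pi_lt_d2]
  rw [PhiA3_split u hu]
  have h6 : phn 1 u + ∑' n : ℕ, phn (n + 1 + 1) u -
      2 * Real.pi ^ 2 * cexp (9 * u - Real.pi * cexp (4 * u)) =
      (phn 1 u - 2 * Real.pi ^ 2 * cexp (9 * u - Real.pi * cexp (4 * u))) +
        ∑' n : ℕ, phn (n + 1 + 1) u := by ring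
  rw [h6]
  refine (norm_add_le _ _).trans ?_
  have hE := Real.exp_pos (9 * u.re - Real.pi * (cexp (4 * u)).re)
  set E := Real.exp (9 * u.re - Real.pi * (cexp (4 * u)).re)
  have hB : 0 < ((cexp (4 * u)).re ^ 3)⁻¹ := by positivity
  set B := ((cexp (4 * u)).re ^ 3)⁻¹
  have hD := Real.exp_pos (-(4 * u.re))
  set D := Real.exp (-(4 * u.re))
  have h7 : (10 + 1440 * S) * (D + B) * E = 10 * (D * E) + 1440 * B * E * S +
      (10 * B * E + 1440 * S * D * E) := by ring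
  rw [h7]
  have h8 : 0 ≤ 10 * B * E + 1440 * S * D * E := by positivity
  linarith

end Pool.Agent.Lib.MP_ec260d_ntC
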