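import Mathlib
import Pool.Agent.Lib.MP_ec260d_ntC.Defs
import Pool.Agent.Lib.MP_ec260d_ntC.PhiA

/-!
# JOB PhiB: Phi is even, real and positive on the real line (about 250 lines)

`Ph_even`: let `K u = cexp u * jacobiTheta (I * cexp (4 * u))` for `u` in the strip (`Im (I e^{4u}) = Re e^{4u} > 0`).  `jacobiTheta τ = ∑_{n ∈ ℤ} exp (π i n² τ) = 1 + 2 ∑_{n ≥ 1} exp (π i n² τ)` (`hasSum_nat_jacobiTheta`), so `K u = cexp u + 2 ∑_{n ≥ 1} h_n u`, `h_n u = cexp (u - π n² cexp (4u))`.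
Functional equation (`jacobiTheta_S_smul`, or `jacobiTheta₂_functional_equation`): `jacobiTheta (-1/τ) = (-I τ)^(1/2) jacobiTheta τ`; with `τ = I e^{4u}`: `-1/τ = I e^{-4u}`, `-I τ = e^{4u}`, `(e^{4u})^(1/2) = e^{2u}` because `|Im (4u)| < π/2`.  So `K (-u) = e^{-u} e^{2u} jacobiTheta (I e^{4u}) = K u`.
Termwise differentiation: `h_n' = (1 - 4 π n² e^{4u}) h_n`, `h_n'' = (1 - 24 π n² e^{4u} + 16 π² n⁴ e^{8u}) h_n`, so `h_n'' - h_n = (16 π² n⁴ e^{8u} - 24 π n² e^{4u}) h_n = 8 phn n u`, hence `K'' - K = 16 Ph` on the strip (`(cexp)'' - cexp = 0`).  (Locally uniform convergence as in `Ph_diff`: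
`hasDerivAt_tsum_of_isPreconnected`, or `TendstoLocallyUniformlyOn.deriv` twice.)  `K (-u) = K u` on the open symmetric strip gives `K'' (-u) = K'' u`, so `Ph (-u) = Ph u`.
`Ph_conj`: `phn n (conj u) = conj (phn n u)` and `Complex.conj_tsum`.
`Ph_pos`: for real `x ≥ 0` and `n ≥ 1`: `phn n x = π n² e^{5x} (2 π n² e^{4x} - 3) e^{-π n² e^{4x}}` is real and positive; sum.
-/

namespace Pool.Agent.Lib.MP_ec260d_ntC

open Complex Set Filter Topology Metric MeasureTheory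

/-- the terms `h_n` of the theta series times `exp u` -/
private noncomputable def PhiB1_h (n : ℕ) (u : ℂ) : ℂ :=
  cexp (u - Real.pi * (n : ℂ) ^ 2 * cexp (4 * u))

private noncomputable def PhiB1_g (n : ℕ) (u : ℂ) : ℂ :=
  (1 - 4 * (Real.pi * (n : ℂ) ^ 2 * cexp (4 * u))) * PhiB1_h n u

private noncomputable def PhiB1_k (n : ℕ) (u : ℂ) : ℂ :=
  (1 - 24 * (Real.pi * (n : ℂ) ^ 2 * cexp (4 * u)) + 16 * (Real.pi * (n : ℂ) ^ 2 * cexp (4 * u)) ^ 2) *
    PhiB1_h n u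

private theorem PhiB1_exp4 (u : ℂ) : HasDerivAt (fun u : ℂ => cexp (4 * u)) (4 * cexp (4 * u)) u := by
  have h1 : HasDerivAt (fun u : ℂ => 4 * u) 4 u := by
    have := (hasDerivAt_id u).const_mul (4 : ℂ)
    rwa [mul_one] at this
  have h2 := h1.cexp
  rwa [mul_comm] at h2

private theorem PhiB1_dh (n : ℕ) (u : ℂ) : HasDerivAt (PhiB1_h n) (PhiB1_g n u) u := by
  have h1 := (PhiB1_exp4 u).const_mul (Real.pi * (n : ℂ) ^ 2)
  have h2 := ((hasDerivAt_id u).sub h1).cexp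
  have h3 : cexp (id u - Real.pi * (n : ℂ) ^ 2 * cexp (4 * u)) *
      (1 - Real.pi * (n : ℂ) ^ 2 * (4 * cexp (4 * u))) = PhiB1_g n u := by
    unfold PhiB1_g PhiB1_h
    rw [id]
    ring
  rw [← h3]
  exact h2

private theorem PhiB1_dg (n : ℕ) (u : ℂ) : HasDerivAt (PhiB1_g n) (PhiB1_k n u) u := by
  have h1 := (PhiB1_exp4 u).const_mul (Real.pi * (n : ℂ) ^ 2)
  have h2 := (h1.const_mul (4 : ℂ)).const_sub 1
  have h3 := h2.mul (PhiB1_dh n u)
  have h4 : -(4 * (Real.pi * (n : ℂ) ^ 2 * (4 * cexp (4 * u)))) * PhiB1_h n u +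
      (1 - 4 * (Real.pi * (n : ℂ) ^ 2 * cexp (4 * u))) * PhiB1_g n u = PhiB1_k n u := by
    unfold PhiB1_k PhiB1_g
    ring
  rw [← h4]
  exact h3

private theorem PhiB1_rel (n : ℕ) (u : ℂ) : PhiB1_k n u - PhiB1_h n u = 8 * phn n u := by
  unfold PhiB1_k PhiB1_h phn
  have h1 : cexp (u - Real.pi * (n : ℂ) ^ 2 * cexp (4 * u)) =
      cexp u * cexp (-(Real.pi * (n : ℂ) ^ 2 * cexp (4 * u))) := by
    rw [← Complex.exp_add]
    congr 1
  have h2 : cexp (9 * u) = cexp u * cexp (4 * u) ^ 2 := by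
    rw [← Complex.exp_nat_mul, ← Complex.exp_add]
    congr 1
    push_cast
    ring
  have h3 : cexp (5 * u) = cexp u * cexp (4 * u) := by
    rw [← Complex.exp_add]
    congr 1
    ring
  rw [h1, h2, h3]
  ring

/-- the neighbourhoods -/
private def PhiB1_U (b X : ℝ) : Set ℂ := {w | |w.im| < b ∧ |w.re| < X}

private theorem PhiB1_U_open (b X : ℝ) : IsOpen (PhiB1_U b X) := by
  have h1 : IsOpen {w : ℂ | |w.im| < b} :=
    isOpen_lt (continuous_abs.comp Complex.continuous_im) continuous_const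
  have h2 : IsOpen {w : ℂ | |w.re| < X} :=
    isOpen_lt (continuous_abs.comp Complex.continuous_re) continuous_const
  exact h1.inter h2

private theorem PhiB1_re (w : ℂ) : (cexp (4 * w)).re = Real.exp (4 * w.re) * Real.cos (4 * w.im) := by
  rw [Complex.exp_re]
  have h1 : (4 * w).re = 4 * w.re := by simp
  have h2 : (4 * w).im = 4 * w.im := by simp
  rw [h1, h2]

private theorem PhiB1_normh (n : ℕ) (w : ℂ) : ‖PhiB1_h n w‖ =
    Real.exp (w.re - Real.pi * (n : ℝ) ^ 2 * (Real.exp (4 * w.re) * Real.cos (4 * w.im))) := by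
  unfold PhiB1_h
  rw [Complex.norm_exp, ← PhiB1_re]
  congr 1
  have h1 : (Real.pi * (n : ℂ) ^ 2 * cexp (4 * w)).re = Real.pi * (n : ℝ) ^ 2 * (cexp (4 * w)).re := by
    have h2 : (Real.pi * (n : ℂ) ^ 2 : ℂ) = ((Real.pi * (n : ℝ) ^ 2 : ℝ) : ℂ) := by push_cast; ring
    rw [h2, Complex.re_ofReal_mul]
  rw [Complex.sub_re, h1]

/-- the bounds on the neighbourhoods -/
private theorem PhiB1_bound (b X : ℝ) (hb : b < Real.pi / 8) (hb0 : 0 < b) (hX : 0 < X) :
    ∃ (r C : ℝ), 0 ≤ r ∧ r < 1 ∧ 0 < C ∧ ∀ (n : ℕ), ∀ w ∈ PhiB1_U b X,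
      ‖PhiB1_h (n + 1) w‖ ≤ C * (((n + 1 : ℕ) : ℝ) ^ 2 * r ^ (n + 1)) ∧
      ‖PhiB1_g (n + 1) w‖ ≤ C * (((n + 1 : ℕ) : ℝ) ^ 2 * r ^ (n + 1)) := by
  have hpi := Real.pi_pos
  have hpi3 := Real.pi_gt_three
  set c : ℝ := Real.exp (-(4 * X)) * Real.cos (4 * b) with hc
  have hcos : 0 < Real.cos (4 * b) := Real.cos_pos_of_mem_Ioo ⟨by linarith, by linarith⟩
  have hc0 : 0 < c := mul_pos (Real.exp_pos _) hcos
  refine ⟨Real.exp (-c), Real.exp X * (1 + 4 * (Real.pi * Real.exp (4 * X))), (Real.exp_pos _).le, ?_,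
    by positivity, ?_⟩
  · rw [Real.exp_lt_one_iff]
    linarith
  · intro n w hw
    obtain ⟨hw1, hw2⟩ := hw
    have hre := abs_lt.1 hw2
    set N : ℝ := ((n + 1 : ℕ) : ℝ) with hN
    have hN1 : 1 ≤ N := by
      rw [hN]
      push_cast
      have : (0 : ℝ) ≤ n := Nat.cast_nonneg n
      linarith
    have hN2 : N ≤ N ^ 2 := by nlinarith
    -- the lower bound
    have hA : c ≤ Real.exp (4 * w.re) * Real.cos (4 * w.im) := by
      rw [hc]
      apply mul_le_mul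
      · apply Real.exp_le_exp.2
        linarith [hre.1]
      · rw [← Real.cos_abs (4 * w.im)]
        apply Real.cos_le_cos_of_nonneg_of_le_pi (abs_nonneg _)
        · linarith
        · rw [abs_mul, abs_of_pos (by norm_num : (0 : ℝ) < 4)]
          linarith
      · exact hcos.le
      · exact (Real.exp_pos _).le
    have hA' : N * c ≤ Real.pi * N ^ 2 * (Real.exp (4 * w.re) * Real.cos (4 * w.im)) := by
      have h1 : N * c ≤ N ^ 2 * (Real.exp (4 * w.re) * Real.cos (4 * w.im)) :=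
        mul_le_mul hN2 hA hc0.le (by positivity)
      have h2 : 0 ≤ N ^ 2 * (Real.exp (4 * w.re) * Real.cos (4 * w.im)) := le_trans (by positivity) h1
      nlinarith
    have hh : ‖PhiB1_h (n + 1) w‖ ≤ Real.exp X * Real.exp (-c) ^ (n + 1) := by
      rw [PhiB1_normh, ← Real.exp_nat_mul, ← Real.exp_add]
      apply Real.exp_le_exp.2
      rw [← hN]
      linarith [hre.2]
    have hg : ‖(1 - 4 * (Real.pi * ((n + 1 : ℕ) : ℂ) ^ 2 * cexp (4 * w)) : ℂ)‖ ≤
        (1 + 4 * (Real.pi * Real.exp (4 * X))) * N ^ 2 := by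
      have h1 : ‖(4 * (Real.pi * ((n + 1 : ℕ) : ℂ) ^ 2 * cexp (4 * w)) : ℂ)‖ ≤
          4 * (Real.pi * Real.exp (4 * X)) * N ^ 2 := by
        rw [norm_mul, norm_mul, norm_mul, norm_pow, Complex.norm_natCast, Complex.norm_exp,
          Complex.norm_real, Real.norm_of_nonneg hpi.le, ← hN]
        have h2 : (4 * w).re = 4 * w.re := by simp
        have h3 : Real.exp (4 * w.re) ≤ Real.exp (4 * X) := Real.exp_le_exp.2 (by linarith [hre.2])
        have h4 : ‖(4 : ℂ)‖ = 4 := by norm_num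
        rw [h2, h4]
        have h5 : 0 ≤ Real.pi * N ^ 2 := by positivity
        nlinarith [mul_le_mul_of_nonneg_left h3 h5]
      calc _ ≤ ‖(1 : ℂ)‖ + ‖(4 * (Real.pi * ((n + 1 : ℕ) : ℂ) ^ 2 * cexp (4 * w)) : ℂ)‖ := norm_sub_le _ _
        _ ≤ 1 + 4 * (Real.pi * Real.exp (4 * X)) * N ^ 2 := by rw [norm_one]; linarith
        _ ≤ _ := by nlinarith
    have hE : 0 ≤ Real.exp X * Real.exp (-c) ^ (n + 1) := by positivity
    constructor
    · calc ‖PhiB1_h (n + 1) w‖ ≤ Real.exp X * Real.exp (-c) ^ (n + 1) := hh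
        _ = 1 * (Real.exp X * Real.exp (-c) ^ (n + 1)) := (one_mul _).symm
        _ ≤ ((1 + 4 * (Real.pi * Real.exp (4 * X))) * N ^ 2) * (Real.exp X * Real.exp (-c) ^ (n + 1)) := by
          apply mul_le_mul_of_nonneg_right _ hE
          have h6 : 0 < 4 * (Real.pi * Real.exp (4 * X)) := by positivity
          nlinarith
        _ = _ := by ring
    · unfold PhiB1_g
      rw [norm_mul]
      calc _ ≤ ((1 + 4 * (Real.pi * Real.exp (4 * X))) * N ^ 2) * (Real.exp X * Real.exp (-c) ^ (n + 1)) :=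
            mul_le_mul hg hh (norm_nonneg _) (by positivity)
        _ = _ := by ring

private theorem PhiB1_sum (r C : ℝ) (hr0 : 0 ≤ r) (hr : r < 1) :
    Summable (fun n : ℕ => C * (((n + 1 : ℕ) : ℝ) ^ 2 * r ^ (n + 1))) := by
  have h1 : Summable (fun n : ℕ => ((n : ℝ) ^ 2 * r ^ n : ℝ)) :=
    summable_pow_mul_geometric_of_norm_lt_one 2 (by rw [Real.norm_of_nonneg hr0]; exact hr)
  exact ((summable_nat_add_iff 1).2 h1).mul_left C

/-- the derivatives of the sum -/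
private theorem PhiB1_main (u : ℂ) (hu : u ∈ strip) :
    Summable (fun n : ℕ => PhiB1_h (n + 1) u) ∧
    HasDerivAt (fun w : ℂ => ∑' n : ℕ, PhiB1_h (n + 1) w) (∑' n : ℕ, PhiB1_g (n + 1) u) u ∧
    HasDerivAt (fun w : ℂ => ∑' n : ℕ, PhiB1_g (n + 1) w) (∑' n : ℕ, PhiB1_k (n + 1) u) u ∧
    Summable (fun n : ℕ => PhiB1_k (n + 1) u) := by
  have hu' : |u.im| < Real.pi / 8 := hu
  obtain ⟨b, hb1, hb2⟩ := exists_between hu'
  have hb0 : 0 < b := lt_of_le_of_lt (abs_nonneg _) hb1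
  have hX : (0 : ℝ) < |u.re| + 1 := by positivity
  obtain ⟨r, C, hr0, hr1, hC, hbd⟩ := PhiB1_bound b (|u.re| + 1) hb2 hb0 hX
  have hs := PhiB1_sum r C hr0 hr1
  have hUo := PhiB1_U_open b (|u.re| + 1)
  have huU : u ∈ PhiB1_U b (|u.re| + 1) := ⟨hb1, by linarith⟩
  have hd1 : ∀ i : ℕ, DifferentiableOn ℂ (PhiB1_h (i + 1)) (PhiB1_U b (|u.re| + 1)) :=
    fun i w _ => (PhiB1_dh (i + 1) w).differentiableAt.differentiableWithinAt
  have hd2 : ∀ i : ℕ, DifferentiableOn ℂ (PhiB1_g (i + 1)) (PhiB1_U b (|u.re| + 1)) :=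
    fun i w _ => (PhiB1_dg (i + 1) w).differentiableAt.differentiableWithinAt
  have hD1 := differentiableOn_tsum_of_summable_norm hs hd1 hUo (fun i w hw => (hbd i w hw).1)
  have hD2 := differentiableOn_tsum_of_summable_norm hs hd2 hUo (fun i w hw => (hbd i w hw).2)
  have hS1 := hasSum_deriv_of_summable_norm hs hd1 hUo (fun i w hw => (hbd i w hw).1) huU
  have hS2 := hasSum_deriv_of_summable_norm hs hd2 hUo (fun i w hw => (hbd i w hw).2) huU
  have e1 : (fun i : ℕ => deriv (PhiB1_h (i + 1)) u) = fun i : ℕ => PhiB1_g (i + 1) u := by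
    funext i
    exact (PhiB1_dh (i + 1) u).deriv
  have e2 : (fun i : ℕ => deriv (PhiB1_g (i + 1)) u) = fun i : ℕ => PhiB1_k (i + 1) u := by
    funext i
    exact (PhiB1_dg (i + 1) u).deriv
  rw [e1] at hS1
  rw [e2] at hS2
  refine ⟨?_, ?_, ?_, hS2.summable⟩
  · exact Summable.of_norm_bounded hs (fun n => (hbd n u huU).1)
  · rw [hS1.tsum_eq]
    exact (hD1.differentiableAt (hUo.mem_nhds huU)).hasDerivAt
  · rw [hS2.tsum_eq]
    exact (hD2.differentiableAt (hUo.mem_nhds huU)).hasDerivAt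

/-- the sum and the theta function -/
private theorem PhiB1_theta (u : ℂ) (hu : u ∈ strip) :
    cexp u * jacobiTheta (I * cexp (4 * u)) = cexp u + 2 * ∑' n : ℕ, PhiB1_h (n + 1) u := by
  have hu' : |u.im| < Real.pi / 8 := hu
  have hre : 0 < (cexp (4 * u)).re := by
    rw [PhiB1_re]
    have h1 := abs_lt.1 hu'
    exact mul_pos (Real.exp_pos _) (Real.cos_pos_of_mem_Ioo ⟨by linarith, by linarith⟩)
  have him : 0 < (I * cexp (4 * u)).im := by
    rw [Complex.mul_im, Complex.I_re, Complex.I_im]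
    linarith
  rw [jacobiTheta_eq_tsum_nat him, mul_add, mul_one, mul_left_comm, ← tsum_mul_left]
  congr 2
  refine tsum_congr fun n => ?_
  unfold PhiB1_h
  rw [← Complex.exp_add]
  congr 1
  push_cast
  linear_combination (Real.pi * ((n : ℂ) + 1) ^ 2 * cexp (4 * u)) * Complex.I_mul_I

private theorem PhiB1_fe (u : ℂ) (hu : u ∈ strip) :
    cexp (-u) * jacobiTheta (I * cexp (4 * -u)) = cexp u * jacobiTheta (I * cexp (4 * u)) := by
  have hu' : |u.im| < Real.pi / 8 := hu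
  have h1 := abs_lt.1 hu'
  have hre : 0 < (cexp (4 * u)).re := by
    rw [PhiB1_re]
    exact mul_pos (Real.exp_pos _) (Real.cos_pos_of_mem_Ioo ⟨by linarith, by linarith⟩)
  have him : 0 < (I * cexp (4 * u)).im := by
    rw [Complex.mul_im, Complex.I_re, Complex.I_im]
    linarith
  obtain ⟨τ, hτ⟩ : ∃ τ : UpperHalfPlane, (τ : ℂ) = I * cexp (4 * u) := ⟨⟨_, him⟩, rfl⟩
  have h2 := jacobiTheta_S_smul τ
  have h3 : ((ModularGroup.S • τ : UpperHalfPlane) : ℂ) = I * cexp (4 * -u) := by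
    rw [UpperHalfPlane.modular_S_smul]
    show (-(τ : ℂ))⁻¹ = _
    rw [hτ, mul_neg, Complex.exp_neg, ← neg_mul, mul_inv, inv_neg, Complex.inv_I, neg_neg]
  have h4 : -I * (τ : ℂ) = cexp (4 * u) := by
    rw [hτ, ← mul_assoc, neg_mul, Complex.I_mul_I, neg_neg, one_mul]
  have h5 : (cexp (4 * u)) ^ (1 / 2 : ℂ) = cexp (2 * u) := by
    rw [Complex.cpow_def_of_ne_zero (Complex.exp_ne_zero _), Complex.log_exp]
    · congr 1
      ring
    · have : (4 * u).im = 4 * u.im := by simp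
      rw [this]
      linarith
    · have : (4 * u).im = 4 * u.im := by simp
      rw [this]
      linarith
  rw [h3, h4, h5, hτ] at h2
  rw [h2, ← mul_assoc, ← Complex.exp_add]
  congr 2
  ring

private theorem PhiB1_neg (u : ℂ) (hu : u ∈ strip) : -u ∈ strip := by
  show |(-u).im| < Real.pi / 8
  rw [Complex.neg_im, abs_neg]
  exact hu

theorem Ph_even (u : ℂ) (hu : u ∈ strip) : Ph (-u) = Ph u := by
  have hso : IsOpen strip :=
    isOpen_lt (continuous_abs.comp Complex.continuous_im) continuous_const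
  -- the identity of the sums on the strip
  have h0 : ∀ w ∈ strip, ∑' n : ℕ, PhiB1_h (n + 1) (-w) =
      (∑' n : ℕ, PhiB1_h (n + 1) w) + (cexp w - cexp (-w)) / 2 := by
    intro w hw
    have h1 := PhiB1_theta (-w) (PhiB1_neg w hw)
    rw [PhiB1_fe w hw, PhiB1_theta w hw] at h1
    linear_combination (-1 / 2 : ℂ) * h1
  have hexp : ∀ w : ℂ, HasDerivAt (fun w : ℂ => (cexp w - cexp (-w)) / 2) ((cexp w + cexp (-w)) / 2) w := by
    intro w
    have h1 := (Complex.hasDerivAt_exp w).sub ((hasDerivAt_neg w).cexp)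
    have h2 := h1.div_const 2
    have h3 : (cexp w - cexp (-w) * -1) / 2 = (cexp w + cexp (-w)) / 2 := by ring
    rw [h3] at h2
    exact h2
  have hexp2 : ∀ w : ℂ, HasDerivAt (fun w : ℂ => (cexp w + cexp (-w)) / 2) ((cexp w - cexp (-w)) / 2) w := by
    intro w
    have h1 := (Complex.hasDerivAt_exp w).add ((hasDerivAt_neg w).cexp)
    have h2 := h1.div_const 2
    have h3 : (cexp w + cexp (-w) * -1) / 2 = (cexp w - cexp (-w)) / 2 := by ring
    rw [h3] at h2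
    exact h2
  have h1 : ∀ w ∈ strip, -∑' n : ℕ, PhiB1_g (n + 1) (-w) =
      (∑' n : ℕ, PhiB1_g (n + 1) w) + (cexp w + cexp (-w)) / 2 := by
    intro w hw
    have a1 := (PhiB1_main (-w) (PhiB1_neg w hw)).2.1
    have a2 := (PhiB1_main w hw).2.1
    have a3 := a1.scomp w (hasDerivAt_neg w)
    have a4 := a2.add (hexp w)
    have a5 : (fun w : ℂ => ∑' n : ℕ, PhiB1_h (n + 1) w) ∘ (fun w : ℂ => -w) =ᶠ[𝓝 w]
        (fun w : ℂ => (∑' n : ℕ, PhiB1_h (n + 1) w) + (cexp w - cexp (-w)) / 2) := by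
      filter_upwards [hso.mem_nhds hw] with v hv
      exact h0 v hv
    have a6 := (a4.congr_of_eventuallyEq a5).unique a3
    rw [a6, smul_eq_mul]
    ring
  have h2 : ∑' n : ℕ, PhiB1_k (n + 1) (-u) =
      (∑' n : ℕ, PhiB1_k (n + 1) u) + (cexp u - cexp (-u)) / 2 := by
    have a1 := (PhiB1_main (-u) (PhiB1_neg u hu)).2.2.1
    have a2 := (PhiB1_main u hu).2.2.1
    have a3 := (a1.scomp u (hasDerivAt_neg u)).neg
    have a4 := a2.add (hexp2 u)
    have a5 : (fun w => -((fun w : ℂ => ∑' n : ℕ, PhiB1_g (n + 1) w) ∘ (fun w : ℂ => -w)) w) =ᶠ[𝓝 u]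
        (fun w : ℂ => (∑' n : ℕ, PhiB1_g (n + 1) w) + (cexp w + cexp (-w)) / 2) := by
      filter_upwards [hso.mem_nhds hu] with v hv
      exact h1 v hv
    have a6 := (a4.congr_of_eventuallyEq a5).unique a3
    rw [a6, smul_eq_mul]
    ring
  have h3 : ∀ w ∈ strip, 8 * Ph w = (∑' n : ℕ, PhiB1_k (n + 1) w) - ∑' n : ℕ, PhiB1_h (n + 1) w := by
    intro w hw
    obtain ⟨b1, -, -, b4⟩ := PhiB1_main w hw
    rw [← b4.tsum_sub b1]
    unfold Ph
    rw [← tsum_mul_left]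
    exact tsum_congr fun n => (PhiB1_rel (n + 1) w).symm
  have h4 := h3 u hu
  have h5 := h3 (-u) (PhiB1_neg u hu)
  rw [h2, h0 u hu] at h5
  have h6 : (8 : ℂ) * Ph (-u) = 8 * Ph u := by
    rw [h5, h4]
    ring
  exact mul_left_cancel₀ (by norm_num) h6

private theorem PhiB2_conj (n : ℕ) (u : ℂ) :
    phn n ((starRingEnd ℂ) u) = (starRingEnd ℂ) (phn n u) := by
  unfold phn
  simp only [map_mul, map_sub, map_neg, map_pow, ← Complex.exp_conj, map_natCast, map_ofNat,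
    Complex.conj_ofReal]

private theorem PhiB2_real (n : ℕ) (x : ℝ) : phn n (x : ℂ) =
    (((2 * Real.pi ^ 2 * (n : ℝ) ^ 4 * Real.exp (9 * x) - 3 * Real.pi * (n : ℝ) ^ 2 * Real.exp (5 * x)) *
      Real.exp (-(Real.pi * (n : ℝ) ^ 2 * Real.exp (4 * x))) : ℝ) : ℂ) := by
  unfold phn
  push_cast
  ring

private theorem PhiB2_pos (n : ℕ) {x : ℝ} (hx : 0 ≤ x) : 0 < (phn (n + 1) (x : ℂ)).re := by
  rw [PhiB2_real, Complex.ofReal_re]
  refine mul_pos ?_ (Real.exp_pos _)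
  have hN : (1 : ℝ) ≤ ((n + 1 : ℕ) : ℝ) := by
    rw [Nat.cast_add, Nat.cast_one]
    have : (0 : ℝ) ≤ n := Nat.cast_nonneg n
    linarith
  set N : ℝ := ((n + 1 : ℕ) : ℝ) with hNdef
  have he : Real.exp (9 * x) = Real.exp (5 * x) * Real.exp (4 * x) := by
    rw [← Real.exp_add]
    congr 1
    ring
  have h4 : 1 ≤ Real.exp (4 * x) := Real.one_le_exp (by linarith)
  have h5 : 0 < Real.exp (5 * x) := Real.exp_pos _
  have hpi := Real.pi_gt_three
  have hN2 : 1 ≤ N ^ 2 := one_le_pow₀ hN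
  have e : 2 * Real.pi ^ 2 * N ^ 4 * Real.exp (9 * x) - 3 * Real.pi * N ^ 2 * Real.exp (5 * x) =
      Real.pi * N ^ 2 * Real.exp (5 * x) * (2 * Real.pi * (N ^ 2 * Real.exp (4 * x)) - 3) := by
    rw [he]
    ring
  rw [e]
  refine mul_pos (by positivity) ?_
  have h6 : 1 ≤ N ^ 2 * Real.exp (4 * x) := by nlinarith
  have h7 : 2 * Real.pi * 1 ≤ 2 * Real.pi * (N ^ 2 * Real.exp (4 * x)) :=
    mul_le_mul_of_nonneg_left h6 (by positivity)
  linarith

private theorem PhiB2_strip (x : ℝ) : (x : ℂ) ∈ strip := by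
  show |(x : ℂ).im| < Real.pi / 8
  rw [Complex.ofReal_im, abs_zero]
  positivity

private theorem PhiB2_re {x : ℝ} (hx : 0 ≤ x) : 0 < (Ph x).re := by
  have hs := phn_summable (x : ℂ) (PhiB2_strip x)
  unfold Ph
  rw [Complex.re_tsum hs]
  exact ((Complex.hasSum_re hs.hasSum).summable).tsum_pos (fun n => (PhiB2_pos n hx).le) 0
    (PhiB2_pos 0 hx)

theorem Ph_conj (u : ℂ) : Ph ((starRingEnd ℂ) u) = (starRingEnd ℂ) (Ph u) := by
  unfold Ph
  rw [Complex.conj_tsum]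
  exact tsum_congr fun n => PhiB2_conj (n + 1) u

theorem Ph_pos (x : ℝ) : 0 < (Ph x).re ∧ (Ph x).im = 0 := by
  constructor
  · rcases le_total 0 x with hx | hx
    · exact PhiB2_re hx
    · have h1 := PhiB2_re (x := -x) (by linarith)
      rw [Complex.ofReal_neg, Ph_even (x : ℂ) (PhiB2_strip x)] at h1
      exact h1
  · have h1 := Ph_conj (x : ℂ)
    rw [Complex.conj_ofReal] at h1
    exact Complex.conj_eq_iff_im.1 h1.symm

/-- two-sided bound on the strip -/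
theorem Ph_bound2 : ∃ C : ℝ, 0 < C ∧ ∀ u ∈ strip,
    ‖Ph u‖ ≤ C * (1 + (Real.cos (4 * u.im) ^ 3)⁻¹) *
      Real.exp (9 * |u.re| - Real.pi * (Real.exp (4 * |u.re|) * Real.cos (4 * u.im))) := by
  obtain ⟨C, hC, hb⟩ := Ph_bound
  have key : ∀ u ∈ strip, 0 ≤ u.re → ‖Ph u‖ ≤ C * (1 + (Real.cos (4 * u.im) ^ 3)⁻¹) *
      Real.exp (9 * u.re - Real.pi * (Real.exp (4 * u.re) * Real.cos (4 * u.im))) := by
    intro u hu hre
    refine (hb u hu hre).trans ?_
    have hA := exp4_re_pos u hu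
    rw [exp4_re] at hA ⊢
    have hcos : 0 < Real.cos (4 * u.im) := by
      by_contra hcon
      have : Real.exp (4 * u.re) * Real.cos (4 * u.im) ≤ 0 :=
        mul_nonpos_of_nonneg_of_nonpos (Real.exp_pos _).le (not_lt.1 hcon)
      linarith
    have h1 : 1 ≤ Real.exp (4 * u.re) := Real.one_le_exp (by linarith)
    have h2 : Real.cos (4 * u.im) ≤ Real.exp (4 * u.re) * Real.cos (4 * u.im) := by nlinarith
    have h3 : Real.cos (4 * u.im) ^ 3 ≤ (Real.exp (4 * u.re) * Real.cos (4 * u.im)) ^ 3 :=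
      pow_le_pow_left₀ hcos.le h2 3
    have h4 : ((Real.exp (4 * u.re) * Real.cos (4 * u.im)) ^ 3)⁻¹ ≤ (Real.cos (4 * u.im) ^ 3)⁻¹ :=
      inv_anti₀ (by positivity) h3
    refine mul_le_mul_of_nonneg_right ?_ (Real.exp_pos _).le
    exact mul_le_mul_of_nonneg_left (by linarith) hC.le
  refine ⟨C, hC, fun u hu => ?_⟩
  rcases le_total 0 u.re with h0 | h0
  · rw [abs_of_nonneg h0]
    exact key u hu h0
  · have hu' : -u ∈ strip := by
      show |(-u).im| < Real.pi / 8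
      rw [Complex.neg_im, abs_neg]
      exact hu
    have h1 := key (-u) hu' (by rw [Complex.neg_re]; linarith)
    rw [Ph_even u hu, Complex.neg_re, Complex.neg_im, mul_neg 4 u.im, Real.cos_neg] at h1
    rw [abs_of_nonpos h0]
    exact h1

end Pool.Agent.Lib.MP_ec260d_ntC
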