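import Mathlib
import Pool.Agent.Lib.MP_ec260d_ntC.Defs
import Pool.Agent.Lib.MP_ec260d_ntC.PhiB

/-!
# JOB HA: H_t(z) as an analytic function of (t, z) (about 300 lines)

For real `u ≥ 0`: `‖Ph u‖ ≤ 2 C exp (9u - π e^{4u})` (`Ph_bound2` with `u.im = 0`), `Ph` is continuous on the real line (`Ph_diff`).
`HH_integrable`: `‖cexp (t u²) Ph u u^k cexp (w u)‖ ≤ C' exp (R u² + (9 + R) u - π e^{4u}) u^k`, which is integrable: `e^{4u} ≥ 1 + 4u + 8u² + (32/3) u³`, so the exponent is at most `C'' - u` for `u ≥ 0` (for suitable `C''` depending on `R, k`).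
Everything below follows from differentiation under the integral (`hasDerivAt_integral_of_dominated_loc_of_deriv_le`) with dominating functions of this type, uniform for `‖t‖ ≤ R, ‖z‖ ≤ R`.
`HH_int k`: the `k`-th `z`-derivative of `HH t` is the integral of `cexp (t u²) Ph u u^k cos (z u + k π / 2)`; state and prove first a general fact for `F_k t z = ∫ cexp (t u²) Ph u u^k cexp (I z u)` over `u > 0`: `∂_z F_k = I F_{k+1}`, `∂_t F_k = F_{k+2}`, `F_k` is jointly continuous; and `HH t z = (F_0 t z + F_0 t (-z))/2`.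
`HH_strict`: `hasStrictFDerivAt_of_hasFDerivAt_of_continuousAt` applied on `ℂ × ℂ` (the Fréchet derivative of `F_0` at `(t, z)`: `hasFDerivAt_integral_of_dominated_of_fderiv_le`), or from the derivatives in each variable (`HasFDerivAt` at a point from the derivative in one variable at the point and continuity of the other one near the point).
`HH_growth`: `‖HH t z‖ ≤ ∫ exp (R u²) ‖Ph u‖ exp (‖z‖ u) du`, `‖z‖ u ≤ e^{4u}/1 + ‖z‖ log (1 + ‖z‖)` (if `u ≤ log (1 + ‖z‖)` trivial, otherwise `‖z‖ u ≤ u e^u ≤ e^{2u}`), `‖z‖ log (1 + ‖z‖) ≤ 2 (1 + ‖z‖)^(3/2)`, and `exp (R u² + 9u + e^{4u} - π e^{4u})` is integrable.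
`heat`: `∂_t HH = F_2`-part `= - ∂_z² HH`.
-/

namespace Pool.Agent.Lib.MP_ec260d_ntC

open Complex Set Filter Topology Metric MeasureTheory

private noncomputable def HA1_f (k : ℕ) (t w : ℂ) (u : ℝ) : ℂ :=
  cexp (t * (u : ℂ) ^ 2) * Ph u * (u : ℂ) ^ k * cexp (w * u)

private noncomputable def HA1_F (k : ℕ) (t w : ℂ) : ℂ := ∫ u in Ioi (0 : ℝ), HA1_f k t w u

private theorem HA1_strip (x : ℝ) : (x : ℂ) ∈ strip := by
  show |(x : ℂ).im| < Real.pi / 8
  rw [Complex.ofReal_im, abs_zero]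
  positivity

private theorem HA1_contPh : Continuous (fun u : ℝ => Ph (u : ℂ)) :=
  Ph_diff.continuousOn.comp_continuous Complex.continuous_ofReal fun u => HA1_strip u

private theorem HA1_contf (k : ℕ) (t w : ℂ) : Continuous (HA1_f k t w) := by
  unfold HA1_f
  have h := HA1_contPh
  fun_prop

private theorem HA1_bd {A : ℝ} (hA : 0 ≤ A) : IntegrableOn
    (fun u : ℝ => Real.exp (A * u ^ 2 + A * u - Real.pi * Real.exp (4 * u))) (Ioi 0) := by
  have hdom : IntegrableOn (fun u : ℝ => Real.exp ((A + 1) * (4 * (A + 1) ^ 2 + 2 * (A + 1))) *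
      Real.exp (-u)) (Ioi 0) := (integrableOn_exp_neg_Ioi 0).const_mul _
  refine Integrable.mono' hdom ?_ ?_
  · exact (by fun_prop : Continuous fun u : ℝ =>
      Real.exp (A * u ^ 2 + A * u - Real.pi * Real.exp (4 * u))).aestronglyMeasurable
  · refine (ae_restrict_iff' measurableSet_Ioi).2 (Filter.Eventually.of_forall fun u hu => ?_)
    have hu0 : 0 < u := hu
    rw [Real.norm_eq_abs, abs_of_pos (Real.exp_pos _), ← Real.exp_add]
    refine Real.exp_le_exp.2 ?_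
    have h1 : u ^ 3 ≤ Real.pi * Real.exp (4 * u) := by
      have h2 := Real.pow_div_factorial_le_exp (4 * u) (by linarith) 3
      have h3 : (4 * u) ^ 3 / ((Nat.factorial 3 : ℕ) : ℝ) = 32 / 3 * u ^ 3 := by
        rw [show Nat.factorial 3 = 6 from rfl]
        push_cast
        ring
      rw [h3] at h2
      have h4 : 0 < u ^ 3 := by positivity
      have h5 := Real.pi_gt_three
      have h6 : 1 * (32 / 3 * u ^ 3) ≤ Real.pi * Real.exp (4 * u) :=
        mul_le_mul (by linarith) h2 (by positivity) (by positivity)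
      linarith
    have hB1 : 1 ≤ A + 1 := by linarith
    generalize hB : A + 1 = B at hB1 ⊢
    have hAB : A * u ^ 2 + A * u + u ≤ B * (u ^ 2 + u) := by
      rw [← hB]
      nlinarith [sq_nonneg u]
    rcases le_total (2 * B) u with h7 | h7
    · have h8 : B * (u ^ 2 + u) ≤ u ^ 3 := by
        have h9 : u ≤ u ^ 2 := by nlinarith
        have h10 : B * (u ^ 2 + u) ≤ B * (2 * u ^ 2) :=
          mul_le_mul_of_nonneg_left (by linarith) (by linarith)
        have h11 : 2 * B * u ^ 2 ≤ u * u ^ 2 := mul_le_mul_of_nonneg_right h7 (sq_nonneg u)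
        nlinarith
      have h12 : 0 ≤ B * (4 * B ^ 2 + 2 * B) := by positivity
      linarith
    · have h8 : B * (u ^ 2 + u) ≤ B * (4 * B ^ 2 + 2 * B) := by
        refine mul_le_mul_of_nonneg_left ?_ (by linarith)
        nlinarith
      have h12 : 0 < u ^ 3 := by positivity
      linarith

private theorem HA1_norm : ∃ C : ℝ, 0 < C ∧ ∀ (k : ℕ) (t w : ℂ) (u R : ℝ), 0 ≤ u → ‖t‖ ≤ R →
    ‖w‖ ≤ R → ‖HA1_f k t w u‖ ≤ C * Real.exp ((R + 9 + k) * u ^ 2 + (R + 9 + k) * u -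
      Real.pi * Real.exp (4 * u)) := by
  obtain ⟨C, hC, hb⟩ := Ph_bound2
  refine ⟨2 * C, by positivity, fun k t w u R hu ht hw => ?_⟩
  have hR : 0 ≤ R := (norm_nonneg t).trans ht
  have h1 := hb (u : ℂ) (HA1_strip u)
  rw [Complex.ofReal_im, Complex.ofReal_re, mul_zero, Real.cos_zero, one_pow, inv_one, mul_one,
    abs_of_nonneg hu] at h1
  have h2 : ‖cexp (t * (u : ℂ) ^ 2)‖ ≤ Real.exp (R * u ^ 2) := by
    rw [Complex.norm_exp]
    refine Real.exp_le_exp.2 ((Complex.re_le_norm _).trans ?_)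
    rw [norm_mul, norm_pow, Complex.norm_real, Real.norm_eq_abs, sq_abs]
    exact mul_le_mul_of_nonneg_right ht (sq_nonneg u)
  have h3 : ‖cexp (w * (u : ℂ))‖ ≤ Real.exp (R * u) := by
    rw [Complex.norm_exp]
    refine Real.exp_le_exp.2 ((Complex.re_le_norm _).trans ?_)
    rw [norm_mul, Complex.norm_real, Real.norm_eq_abs, abs_of_nonneg hu]
    exact mul_le_mul_of_nonneg_right hw hu
  have h4 : ‖(u : ℂ) ^ k‖ ≤ Real.exp (k * u) := by
    rw [norm_pow, Complex.norm_real, Real.norm_eq_abs, abs_of_nonneg hu, Real.exp_nat_mul]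
    refine pow_le_pow_left₀ hu ?_ k
    have := Real.add_one_le_exp u
    linarith
  unfold HA1_f
  rw [norm_mul, norm_mul, norm_mul]
  have h5 : ‖cexp (t * (u : ℂ) ^ 2)‖ * ‖Ph (u : ℂ)‖ * ‖(u : ℂ) ^ k‖ * ‖cexp (w * (u : ℂ))‖ ≤
      Real.exp (R * u ^ 2) * (C * (1 + 1) * Real.exp (9 * u - Real.pi * Real.exp (4 * u))) *
        Real.exp (k * u) * Real.exp (R * u) := by
    refine mul_le_mul (mul_le_mul (mul_le_mul h2 h1 (norm_nonneg _) (Real.exp_pos _).le) h4
      (norm_nonneg _) (by positivity)) h3 (norm_nonneg _) (by positivity)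
  refine h5.trans ?_
  have h6 : Real.exp (R * u ^ 2) * (C * (1 + 1) * Real.exp (9 * u - Real.pi * Real.exp (4 * u))) *
        Real.exp (k * u) * Real.exp (R * u) = 2 * C * Real.exp (R * u ^ 2 +
          (9 * u - Real.pi * Real.exp (4 * u)) + k * u + R * u) := by
    rw [Real.exp_add (R * u ^ 2 + (9 * u - Real.pi * Real.exp (4 * u)) + k * u),
      Real.exp_add (R * u ^ 2 + (9 * u - Real.pi * Real.exp (4 * u))), Real.exp_add (R * u ^ 2)]
    ring
  rw [h6]
  refine mul_le_mul_of_nonneg_left (Real.exp_le_exp.2 ?_) (by positivity)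
  have h7 : 0 ≤ (k : ℝ) := Nat.cast_nonneg k
  have h8 : 0 ≤ (9 + k : ℝ) * u ^ 2 := by positivity
  nlinarith

private theorem HA1_int (k : ℕ) (t w : ℂ) : IntegrableOn (HA1_f k t w) (Ioi 0) := by
  obtain ⟨C, hC, hb⟩ := HA1_norm
  have hR : 0 ≤ max ‖t‖ ‖w‖ := (norm_nonneg t).trans (le_max_left _ _)
  have hA : 0 ≤ max ‖t‖ ‖w‖ + 9 + k := by positivity
  refine Integrable.mono' ((HA1_bd hA).const_mul C) (HA1_contf k t w).aestronglyMeasurable ?_
  refine (ae_restrict_iff' measurableSet_Ioi).2 (Filter.Eventually.of_forall fun u hu => ?_)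
  exact hb k t w u _ (le_of_lt hu) (le_max_left _ _) (le_max_right _ _)

private theorem HA1_fd (k : ℕ) (p : ℂ × ℂ) : HasFDerivAt (fun q : ℂ × ℂ => HA1_F k q.1 q.2)
    (HA1_F (k + 2) p.1 p.2 • ContinuousLinearMap.fst ℂ ℂ ℂ +
      HA1_F (k + 1) p.1 p.2 • ContinuousLinearMap.snd ℂ ℂ ℂ) p := by
  obtain ⟨C, hC, hb⟩ := HA1_norm
  have hR : 0 ≤ ‖p‖ + 1 := by positivity
  have hA2 : 0 ≤ ‖p‖ + 1 + 9 + ((k + 2 : ℕ) : ℝ) := by positivity
  have hA1 : 0 ≤ ‖p‖ + 1 + 9 + ((k + 1 : ℕ) : ℝ) := by positivity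
  have key := hasFDerivAt_integral_of_dominated_of_fderiv_le (𝕜 := ℂ)
    (μ := volume.restrict (Ioi (0 : ℝ))) (F := fun q : ℂ × ℂ => HA1_f k q.1 q.2)
    (F' := fun (q : ℂ × ℂ) u => HA1_f (k + 2) q.1 q.2 u • ContinuousLinearMap.fst ℂ ℂ ℂ +
      HA1_f (k + 1) q.1 q.2 u • ContinuousLinearMap.snd ℂ ℂ ℂ) (x₀ := p)
    (bound := fun u => C * Real.exp ((‖p‖ + 1 + 9 + ((k + 2 : ℕ) : ℝ)) * u ^ 2 +
        (‖p‖ + 1 + 9 + ((k + 2 : ℕ) : ℝ)) * u - Real.pi * Real.exp (4 * u)) +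
      C * Real.exp ((‖p‖ + 1 + 9 + ((k + 1 : ℕ) : ℝ)) * u ^ 2 +
        (‖p‖ + 1 + 9 + ((k + 1 : ℕ) : ℝ)) * u - Real.pi * Real.exp (4 * u)))
    (Metric.ball_mem_nhds p one_pos)
    (Filter.Eventually.of_forall fun q => (HA1_contf k q.1 q.2).aestronglyMeasurable)
    (HA1_int k p.1 p.2) ?_ ?_ (((HA1_bd hA2).const_mul C).add ((HA1_bd hA1).const_mul C)) ?_
  · have e : ∫ u in Ioi (0 : ℝ), (HA1_f (k + 2) p.1 p.2 u • ContinuousLinearMap.fst ℂ ℂ ℂ +
        HA1_f (k + 1) p.1 p.2 u • ContinuousLinearMap.snd ℂ ℂ ℂ) =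
        HA1_F (k + 2) p.1 p.2 • ContinuousLinearMap.fst ℂ ℂ ℂ +
        HA1_F (k + 1) p.1 p.2 • ContinuousLinearMap.snd ℂ ℂ ℂ := by
      rw [integral_add ((HA1_int (k + 2) p.1 p.2).smul_const _)
        ((HA1_int (k + 1) p.1 p.2).smul_const _), integral_smul_const, integral_smul_const]
      rfl
    rw [e] at key
    exact key
  · exact (((HA1_contf (k + 2) p.1 p.2).smul continuous_const).add
      ((HA1_contf (k + 1) p.1 p.2).smul continuous_const)).aestronglyMeasurable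
  · refine (ae_restrict_iff' measurableSet_Ioi).2 (Filter.Eventually.of_forall fun u hu q hq => ?_)
    have hq1 : ‖q‖ ≤ ‖p‖ + 1 := by
      have h1 : ‖q - p‖ < 1 := by
        rw [← dist_eq_norm]
        exact hq
      have h2 : ‖q‖ ≤ ‖q - p‖ + ‖p‖ := by
        have := norm_add_le (q - p) p
        rwa [sub_add_cancel] at this
      linarith
    have hq2 : ‖q.1‖ ≤ ‖p‖ + 1 := (le_max_left _ _).trans hq1
    have hq3 : ‖q.2‖ ≤ ‖p‖ + 1 := (le_max_right _ _).trans hq1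
    refine (norm_add_le _ _).trans (add_le_add ?_ ?_)
    · rw [norm_smul]
      refine (mul_le_of_le_one_right (norm_nonneg _) (ContinuousLinearMap.norm_fst_le ..)).trans ?_
      exact hb (k + 2) q.1 q.2 u _ (le_of_lt hu) hq2 hq3
    · rw [norm_smul]
      refine (mul_le_of_le_one_right (norm_nonneg _) (ContinuousLinearMap.norm_snd_le ..)).trans ?_
      exact hb (k + 1) q.1 q.2 u _ (le_of_lt hu) hq2 hq3
  · refine Filter.Eventually.of_forall fun u q _ => ?_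
    have h1 : HasFDerivAt (fun q : ℂ × ℂ => q.1 * (u : ℂ) ^ 2 + q.2 * (u : ℂ))
        (((u : ℂ) ^ 2) • ContinuousLinearMap.fst ℂ ℂ ℂ + (u : ℂ) • ContinuousLinearMap.snd ℂ ℂ ℂ) q :=
      (hasFDerivAt_fst.mul_const _).add (hasFDerivAt_snd.mul_const _)
    have h2 := (h1.cexp).mul_const (Ph (u : ℂ) * (u : ℂ) ^ k)
    have e1 : (fun q : ℂ × ℂ => HA1_f k q.1 q.2 u) = fun q : ℂ × ℂ =>
        cexp (q.1 * (u : ℂ) ^ 2 + q.2 * (u : ℂ)) * (Ph (u : ℂ) * (u : ℂ) ^ k) := by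
      funext q
      unfold HA1_f
      rw [Complex.exp_add]
      ring
    rw [e1]
    have e2 : HA1_f (k + 2) q.1 q.2 u • ContinuousLinearMap.fst ℂ ℂ ℂ +
        HA1_f (k + 1) q.1 q.2 u • ContinuousLinearMap.snd ℂ ℂ ℂ =
        (Ph (u : ℂ) * (u : ℂ) ^ k) • (cexp (q.1 * (u : ℂ) ^ 2 + q.2 * (u : ℂ)) •
          (((u : ℂ) ^ 2) • ContinuousLinearMap.fst ℂ ℂ ℂ +
            (u : ℂ) • ContinuousLinearMap.snd ℂ ℂ ℂ)) := by
      unfold HA1_f
      rw [Complex.exp_add, smul_add, smul_add, smul_smul, smul_smul, smul_smul, smul_smul]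
      congr 2
      · ring
      · ring
    rw [e2]
    exact h2

private theorem HA1_contF (k : ℕ) : Continuous (fun q : ℂ × ℂ => HA1_F k q.1 q.2) :=
  continuous_iff_continuousAt.2 fun p => (HA1_fd k p).continuousAt

/-- the derivatives of `HH` -/
private noncomputable def HA1_K (a b : ℂ) (k : ℕ) (t z : ℂ) : ℂ :=
  a * HA1_F k t (I * z) + b * HA1_F k t (-(I * z))

private theorem HA1_contK (a b : ℂ) (k : ℕ) : Continuous (fun q : ℂ × ℂ => HA1_K a b k q.1 q.2) := by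
  unfold HA1_K
  have h1 : Continuous (fun q : ℂ × ℂ => HA1_F k q.1 (I * q.2)) :=
    (HA1_contF k).comp (by fun_prop : Continuous fun q : ℂ × ℂ => (q.1, I * q.2))
  have h2 : Continuous (fun q : ℂ × ℂ => HA1_F k q.1 (-(I * q.2))) :=
    (HA1_contF k).comp (by fun_prop : Continuous fun q : ℂ × ℂ => (q.1, -(I * q.2)))
  exact (continuous_const.mul h1).add (continuous_const.mul h2)

private theorem HA1_Kfd (a b : ℂ) (k : ℕ) (p : ℂ × ℂ) :
    HasFDerivAt (fun q : ℂ × ℂ => HA1_K a b k q.1 q.2)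
      (HA1_K a b (k + 2) p.1 p.2 • ContinuousLinearMap.fst ℂ ℂ ℂ +
        HA1_K (I * a) (-(I * b)) (k + 1) p.1 p.2 • ContinuousLinearMap.snd ℂ ℂ ℂ) p := by
  have g1 : HasFDerivAt (fun q : ℂ × ℂ => ((q.1, I * q.2) : ℂ × ℂ))
      ((ContinuousLinearMap.fst ℂ ℂ ℂ).prod (I • ContinuousLinearMap.snd ℂ ℂ ℂ)) p :=
    hasFDerivAt_fst.prodMk (hasFDerivAt_snd.const_mul I)
  have g2 : HasFDerivAt (fun q : ℂ × ℂ => ((q.1, -(I * q.2)) : ℂ × ℂ))
      ((ContinuousLinearMap.fst ℂ ℂ ℂ).prod (-(I • ContinuousLinearMap.snd ℂ ℂ ℂ))) p :=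
    hasFDerivAt_fst.prodMk (hasFDerivAt_snd.const_mul I).neg
  have f1 := (HA1_fd k (p.1, I * p.2)).comp p g1
  have f2 := (HA1_fd k (p.1, -(I * p.2))).comp p g2
  have f3 := (f1.const_mul a).add (f2.const_mul b)
  have e : HA1_K a b (k + 2) p.1 p.2 • ContinuousLinearMap.fst ℂ ℂ ℂ +
        HA1_K (I * a) (-(I * b)) (k + 1) p.1 p.2 • ContinuousLinearMap.snd ℂ ℂ ℂ =
      a • ((HA1_F (k + 2) p.1 (I * p.2) • ContinuousLinearMap.fst ℂ ℂ ℂ +
        HA1_F (k + 1) p.1 (I * p.2) • ContinuousLinearMap.snd ℂ ℂ ℂ).comp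
        ((ContinuousLinearMap.fst ℂ ℂ ℂ).prod (I • ContinuousLinearMap.snd ℂ ℂ ℂ))) +
      b • ((HA1_F (k + 2) p.1 (-(I * p.2)) • ContinuousLinearMap.fst ℂ ℂ ℂ +
        HA1_F (k + 1) p.1 (-(I * p.2)) • ContinuousLinearMap.snd ℂ ℂ ℂ).comp
        ((ContinuousLinearMap.fst ℂ ℂ ℂ).prod (-(I • ContinuousLinearMap.snd ℂ ℂ ℂ)))) := by
    apply ContinuousLinearMap.ext
    intro v
    simp only [ContinuousLinearMap.add_apply, ContinuousLinearMap.smul_apply,
      ContinuousLinearMap.comp_apply, ContinuousLinearMap.prod_apply, ContinuousLinearMap.neg_apply,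
      ContinuousLinearMap.coe_fst', ContinuousLinearMap.coe_snd', smul_eq_mul]
    unfold HA1_K
    ring
  rw [e]
  exact f3

private theorem HA1_Kz (a b : ℂ) (k : ℕ) (t z : ℂ) :
    HasDerivAt (HA1_K a b k t) (HA1_K (I * a) (-(I * b)) (k + 1) t z) z := by
  have h1 := (HA1_Kfd a b k (t, z)).comp_hasDerivAt z ((hasDerivAt_const z t).prodMk (hasDerivAt_id z))
  simp only [ContinuousLinearMap.add_apply, ContinuousLinearMap.smul_apply,
      ContinuousLinearMap.coe_fst', ContinuousLinearMap.coe_snd', smul_eq_mul, mul_zero, mul_one,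
      zero_add] at h1
  exact h1

private theorem HA1_Kt (a b : ℂ) (k : ℕ) (t z : ℂ) :
    HasDerivAt (fun s => HA1_K a b k s z) (HA1_K a b (k + 2) t z) t := by
  have h1 := (HA1_Kfd a b k (t, z)).comp_hasDerivAt t ((hasDerivAt_id t).prodMk (hasDerivAt_const t z))
  simp only [ContinuousLinearMap.add_apply, ContinuousLinearMap.smul_apply,
      ContinuousLinearMap.coe_fst', ContinuousLinearMap.coe_snd', smul_eq_mul, mul_zero, mul_one,
      add_zero] at h1
  exact h1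

private theorem HA1_HH (t z : ℂ) : HH t z = HA1_K (1 / 2) (1 / 2) 0 t z := by
  unfold HH HA1_K HA1_F
  rw [← mul_add, ← integral_add (HA1_int 0 t (I * z)) (HA1_int 0 t (-(I * z))),
    ← integral_const_mul]
  refine setIntegral_congr_fun measurableSet_Ioi fun u _ => ?_
  show cexp (t * (u : ℂ) ^ 2) * Ph u * Complex.cos (z * u) =
    1 / 2 * (HA1_f 0 t (I * z) u + HA1_f 0 t (-(I * z)) u)
  unfold HA1_f Complex.cos
  have e1 : I * z * (u : ℂ) = z * u * I := by ring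
  have e2 : -(I * z) * (u : ℂ) = -(z * u) * I := by ring
  rw [e1, e2]
  ring

private theorem HA1_iter (k : ℕ) (t : ℂ) :
    iteratedDeriv k (HH t) = HA1_K (I ^ k / 2) ((-I) ^ k / 2) k t := by
  induction k with
  | zero =>
    rw [iteratedDeriv_zero, pow_zero, pow_zero]
    funext z
    exact HA1_HH t z
  | succ k ih =>
    rw [iteratedDeriv_succ, ih]
    funext z
    rw [(HA1_Kz _ _ k t z).deriv]
    congr 1
    · ring
    · ring

theorem HH_integrable (t w : ℂ) (k : ℕ) : IntegrableOn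
    (fun u : ℝ => cexp (t * (u : ℂ) ^ 2) * Ph u * (u : ℂ) ^ k * cexp (w * u)) (Ici 0) := by
  exact Iff.mpr integrableOn_Ici_iff_integrableOn_Ioi (HA1_int k t w)

/-- joint strict differentiability; the derivative in `t` is `- H_zz` -/
theorem HH_strict (t z : ℂ) : HasStrictFDerivAt (fun p : ℂ × ℂ => HH p.1 p.2)
    ((-(deriv (Hz t) z)) • ContinuousLinearMap.fst ℂ ℂ ℂ + (Hz t z) • ContinuousLinearMap.snd ℂ ℂ ℂ)
    (t, z) := by
  have hz : ∀ p : ℂ × ℂ, Hz p.1 p.2 = HA1_K (I * (1 / 2)) (-(I * (1 / 2))) 1 p.1 p.2 := by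
    intro p
    unfold Hz
    have h1 : HH p.1 = HA1_K (1 / 2) (1 / 2) 0 p.1 := funext fun z => HA1_HH p.1 z
    rw [h1]
    exact (HA1_Kz (1 / 2) (1 / 2) 0 p.1 p.2).deriv
  have hzz : ∀ p : ℂ × ℂ, -(deriv (Hz p.1) p.2) = HA1_K (1 / 2) (1 / 2) 2 p.1 p.2 := by
    intro p
    have h1 : Hz p.1 = HA1_K (I * (1 / 2)) (-(I * (1 / 2))) 1 p.1 := funext fun z => hz (p.1, z)
    rw [h1, (HA1_Kz _ _ 1 p.1 p.2).deriv]
    unfold HA1_K
    linear_combination (-(1 / 2) * HA1_F 2 p.1 (I * p.2) - 1 / 2 * HA1_F 2 p.1 (-(I * p.2))) * I_mul_I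
  have h0 : (fun p : ℂ × ℂ => HH p.1 p.2) = fun p : ℂ × ℂ => HA1_K (1 / 2) (1 / 2) 0 p.1 p.2 :=
    funext fun p => HA1_HH p.1 p.2
  have hs := hasStrictFDerivAt_of_hasFDerivAt_of_continuousAt (𝕜 := ℂ) (x := (t, z))
    (f := fun p : ℂ × ℂ => HA1_K (1 / 2) (1 / 2) 0 p.1 p.2)
    (f' := fun p : ℂ × ℂ => HA1_K (1 / 2) (1 / 2) 2 p.1 p.2 • ContinuousLinearMap.fst ℂ ℂ ℂ +
        HA1_K (I * (1 / 2)) (-(I * (1 / 2))) 1 p.1 p.2 • ContinuousLinearMap.snd ℂ ℂ ℂ)
    (Filter.Eventually.of_forall fun p => HA1_Kfd (1 / 2) (1 / 2) 0 p)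
    (((HA1_contK _ _ 2).smul continuous_const).add
      ((HA1_contK _ _ 1).smul continuous_const)).continuousAt
  rw [h0]
  have h1 := hzz (t, z)
  have h2 := hz (t, z)
  simp only at h1 h2
  rw [h1, h2]
  exact hs

theorem HH_diff_z (t : ℂ) : Differentiable ℂ (HH t) := by
  have h1 : HH t = HA1_K (1 / 2) (1 / 2) 0 t := funext fun z => HA1_HH t z
  rw [h1]
  exact fun z => (HA1_Kz (1 / 2) (1 / 2) 0 t z).differentiableAt

theorem HH_diff_t (z : ℂ) : Differentiable ℂ (fun t => HH t z) := by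
  have h1 : (fun t => HH t z) = fun t => HA1_K (1 / 2) (1 / 2) 0 t z := funext fun t => HA1_HH t z
  rw [h1]
  exact fun t => (HA1_Kt (1 / 2) (1 / 2) 0 t z).differentiableAt

theorem HH_cont : Continuous (fun p : ℂ × ℂ => HH p.1 p.2) := by
  have h0 : (fun p : ℂ × ℂ => HH p.1 p.2) = fun p : ℂ × ℂ => HA1_K (1 / 2) (1 / 2) 0 p.1 p.2 :=
    funext fun p => HA1_HH p.1 p.2
  rw [h0]
  exact HA1_contK _ _ 0

/-- all `z`-derivatives are jointly continuous -/
theorem HH_iter_cont (k : ℕ) : Continuous (fun p : ℂ × ℂ => iteratedDeriv k (HH p.1) p.2) := by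
  have h0 : (fun p : ℂ × ℂ => iteratedDeriv k (HH p.1) p.2) =
      fun p : ℂ × ℂ => HA1_K (I ^ k / 2) ((-I) ^ k / 2) k p.1 p.2 :=
    funext fun p => by rw [HA1_iter]
  rw [h0]
  exact HA1_contK _ _ k

/-- the heat equation, also for the derivatives -/
theorem heat (k : ℕ) (t z : ℂ) : HasDerivAt (fun s => iteratedDeriv k (HH s) z)
    (-(iteratedDeriv (k + 2) (HH t) z)) t := by
  have h0 : (fun s => iteratedDeriv k (HH s) z) =
      fun s => HA1_K (I ^ k / 2) ((-I) ^ k / 2) k s z := funext fun s => by rw [HA1_iter]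
  have h1 : -(iteratedDeriv (k + 2) (HH t) z) = HA1_K (I ^ k / 2) ((-I) ^ k / 2) (k + 2) t z := by
    rw [HA1_iter]
    unfold HA1_K
    have e1 : I ^ (k + 2) = -(I ^ k) := by
      rw [pow_add, I_sq]
      ring
    have e2 : (-I) ^ (k + 2) = -((-I) ^ k) := by
      rw [pow_add, neg_sq, I_sq]
      ring
    rw [e1, e2]
    ring
  rw [h0, h1]
  exact HA1_Kt _ _ k t z

private theorem HA2_cos (w : ℂ) : ‖Complex.cos w‖ ≤ Real.exp ‖w‖ := by
  have h1 : ‖cexp (w * I)‖ ≤ Real.exp ‖w‖ := by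
    rw [Complex.norm_exp]
    apply Real.exp_le_exp.mpr
    calc (w * I).re ≤ ‖w * I‖ := Complex.re_le_norm _
      _ = ‖w‖ := by rw [norm_mul, Complex.norm_I, mul_one]
  have h2 : ‖cexp (-w * I)‖ ≤ Real.exp ‖w‖ := by
    rw [Complex.norm_exp]
    apply Real.exp_le_exp.mpr
    calc (-w * I).re ≤ ‖-w * I‖ := Complex.re_le_norm _
      _ = ‖w‖ := by rw [norm_mul, Complex.norm_I, mul_one, norm_neg]
  have h3 : Complex.cos w = (cexp (w * I) + cexp (-w * I)) / 2 := rfl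
  rw [h3, norm_div]
  have h4 := norm_add_le (cexp (w * I)) (cexp (-w * I))
  have h5 : ‖(2 : ℂ)‖ = 2 := by simp
  rw [h5, div_le_iff₀ (by norm_num)]
  linarith

private theorem HA2_zu (x u : ℝ) (hx : 0 ≤ x) (hu : 0 ≤ u) :
    x * u ≤ Real.exp (4 * u) + x * Real.log (1 + x) := by
  rcases le_total u (Real.log (1 + x)) with h | h
  · have h1 : x * u ≤ x * Real.log (1 + x) := mul_le_mul_of_nonneg_left h hx
    have := Real.exp_pos (4 * u)
    linarith
  · have h1 : 1 + x ≤ Real.exp u := by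
      rwa [Real.log_le_iff_le_exp (by linarith)] at h
    have h2 : u ≤ Real.exp u := by
      have := Real.add_one_le_exp u
      linarith
    have h3 : x * u ≤ Real.exp u * Real.exp u :=
      mul_le_mul (by linarith) h2 hu (Real.exp_pos _).le
    have h4 : Real.exp u * Real.exp u ≤ Real.exp (4 * u) := by
      rw [← Real.exp_add]
      apply Real.exp_le_exp.mpr
      linarith
    have h5 : 0 ≤ x * Real.log (1 + x) := mul_nonneg hx (Real.log_nonneg (by linarith))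
    linarith

private theorem HA2_dom (R u : ℝ) (hu : 0 ≤ u) :
    R * u ^ 2 + 10 * u ≤ R ^ 2 / 32 + 1 + 2 * Real.exp (4 * u) := by
  have h1 : 1 + 2 * u + 2 * u ^ 2 ≤ Real.exp (2 * u) := by
    have := Real.quadratic_le_exp_of_nonneg (x := 2 * u) (by linarith)
    nlinarith
  have h2 : Real.exp (4 * u) = Real.exp (2 * u) * Real.exp (2 * u) := by
    rw [← Real.exp_add]
    congr 1
    ring
  have h3 : (1 + 2 * u + 2 * u ^ 2) * (1 + 2 * u + 2 * u ^ 2) ≤ Real.exp (4 * u) := by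
    rw [h2]
    exact mul_le_mul h1 h1 (by positivity) (Real.exp_pos _).le
  have h4 : R * u ^ 2 ≤ 8 * u ^ 4 + R ^ 2 / 32 := by
    nlinarith [sq_nonneg (u ^ 2 - R / 16)]
  have h5 : 0 ≤ u ^ 3 := by positivity
  nlinarith [sq_nonneg u, sq_nonneg (4 * u - 1)]

theorem HH_growth (R : ℝ) : ∃ C : ℝ, 1 ≤ C ∧ ∀ t z : ℂ, ‖t‖ ≤ R →
    ‖HH t z‖ ≤ Real.exp (C * (1 + ‖z‖) ^ (3 / 2 : ℝ)) := by
  obtain ⟨C₁, hC₁, hPh⟩ := Ph_bound2
  set K : ℝ := |Real.log (2 * C₁) + (R ^ 2 / 32 + 1)| with hK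
  refine ⟨2 + K, by linarith [abs_nonneg (Real.log (2 * C₁) + (R ^ 2 / 32 + 1))], fun t z ht => ?_⟩
  set x : ℝ := ‖z‖ with hx
  have hx0 : 0 ≤ x := norm_nonneg z
  set M : ℝ := 2 * C₁ * Real.exp (x * Real.log (1 + x)) * Real.exp (R ^ 2 / 32 + 1) with hM
  have hM0 : 0 < M := by positivity
  have hpt : ∀ u : ℝ, u ∈ Ioi (0 : ℝ) →
      ‖cexp (t * (u : ℂ) ^ 2) * Ph u * Complex.cos (z * u)‖ ≤ M * Real.exp (-u) := by
    intro u hu
    have hu0 : 0 ≤ u := le_of_lt hu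
    have h1 : ‖cexp (t * (u : ℂ) ^ 2)‖ ≤ Real.exp (R * u ^ 2) := by
      rw [Complex.norm_exp]
      apply Real.exp_le_exp.mpr
      have h2 : (t * (u : ℂ) ^ 2).re = t.re * u ^ 2 := by
        have h3 : t * (u : ℂ) ^ 2 = t * ((u ^ 2 : ℝ) : ℂ) := by push_cast; ring
        rw [h3, Complex.re_mul_ofReal]
      rw [h2]
      exact mul_le_mul_of_nonneg_right ((Complex.re_le_norm t).trans ht) (sq_nonneg u)
    have h2 : ‖Ph u‖ ≤ 2 * C₁ * Real.exp (9 * u - Real.pi * Real.exp (4 * u)) := by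
      have hs : (u : ℂ) ∈ strip := by
        show |(u : ℂ).im| < Real.pi / 8
        rw [Complex.ofReal_im, abs_zero]
        positivity
      have h3 := hPh u hs
      rw [Complex.ofReal_im, Complex.ofReal_re, mul_zero, Real.cos_zero, abs_of_nonneg hu0] at h3
      calc ‖Ph u‖ ≤ _ := h3
        _ = 2 * C₁ * Real.exp (9 * u - Real.pi * Real.exp (4 * u)) := by
            rw [one_pow, inv_one, mul_one]
            ring
    have h3 : ‖Complex.cos (z * u)‖ ≤ Real.exp (Real.exp (4 * u) + x * Real.log (1 + x)) := by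
      refine (HA2_cos _).trans ?_
      apply Real.exp_le_exp.mpr
      rw [norm_mul, Complex.norm_real, Real.norm_of_nonneg hu0]
      exact HA2_zu x u hx0 hu0
    rw [norm_mul, norm_mul]
    have h4 : ‖cexp (t * (u : ℂ) ^ 2)‖ * ‖Ph u‖ ≤
        Real.exp (R * u ^ 2) * (2 * C₁ * Real.exp (9 * u - Real.pi * Real.exp (4 * u))) :=
      mul_le_mul h1 h2 (norm_nonneg _) (Real.exp_pos _).le
    have h5 : ‖cexp (t * (u : ℂ) ^ 2)‖ * ‖Ph u‖ * ‖Complex.cos (z * u)‖ ≤
        Real.exp (R * u ^ 2) * (2 * C₁ * Real.exp (9 * u - Real.pi * Real.exp (4 * u))) *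
          Real.exp (Real.exp (4 * u) + x * Real.log (1 + x)) :=
      mul_le_mul h4 h3 (norm_nonneg _) (by positivity)
    refine h5.trans ?_
    have h6 : Real.exp (R * u ^ 2) * (2 * C₁ * Real.exp (9 * u - Real.pi * Real.exp (4 * u))) *
          Real.exp (Real.exp (4 * u) + x * Real.log (1 + x)) =
        2 * C₁ * Real.exp (R * u ^ 2 + (9 * u - Real.pi * Real.exp (4 * u)) +
          (Real.exp (4 * u) + x * Real.log (1 + x))) := by
      rw [Real.exp_add (R * u ^ 2 + (9 * u - Real.pi * Real.exp (4 * u)))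
        (Real.exp (4 * u) + x * Real.log (1 + x)),
        Real.exp_add (R * u ^ 2) (9 * u - Real.pi * Real.exp (4 * u))]
      ring
    have h7 : M * Real.exp (-u) =
        2 * C₁ * Real.exp (x * Real.log (1 + x) + (R ^ 2 / 32 + 1) + -u) := by
      rw [hM, Real.exp_add (x * Real.log (1 + x) + (R ^ 2 / 32 + 1)) (-u),
        Real.exp_add (x * Real.log (1 + x)) (R ^ 2 / 32 + 1)]
      ring
    rw [h6, h7]
    refine mul_le_mul_of_nonneg_left ?_ (by positivity)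
    apply Real.exp_le_exp.mpr
    have h8 := HA2_dom R u hu0
    have h9 := Real.pi_gt_three
    have h10 := Real.exp_pos (4 * u)
    nlinarith
  have hint : IntegrableOn (fun u : ℝ => M * Real.exp (-u)) (Ioi 0) :=
    (integrableOn_exp_neg_Ioi 0).const_mul M
  have h1 : ‖HH t z‖ ≤ ∫ u in Ioi (0 : ℝ), M * Real.exp (-u) := by
    unfold HH
    exact norm_integral_le_of_norm_le hint ((ae_restrict_iff' measurableSet_Ioi).2
      (Filter.Eventually.of_forall hpt))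
  rw [integral_const_mul, integral_exp_neg_Ioi_zero, mul_one] at h1
  refine h1.trans ?_
  have hlog : Real.exp (Real.log (2 * C₁)) = 2 * C₁ := Real.exp_log (by positivity)
  have h2 : M = Real.exp (Real.log (2 * C₁) + (R ^ 2 / 32 + 1) + x * Real.log (1 + x)) := by
    rw [hM, Real.exp_add (Real.log (2 * C₁) + (R ^ 2 / 32 + 1)) (x * Real.log (1 + x)),
      Real.exp_add (Real.log (2 * C₁)) (R ^ 2 / 32 + 1), hlog]
    ring
  rw [h2]
  apply Real.exp_le_exp.mpr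
  have hy : 1 ≤ (1 + x) ^ (3 / 2 : ℝ) := Real.one_le_rpow (by linarith) (by norm_num)
  have h3 : x * Real.log (1 + x) ≤ 2 * (1 + x) ^ (3 / 2 : ℝ) := by
    have h4 : Real.log (1 + x) ≤ (1 + x) ^ (1 / 2 : ℝ) / (1 / 2) :=
      Real.log_le_rpow_div (by linarith) (by norm_num)
    have h5 : (1 + x) ^ (3 / 2 : ℝ) = (1 + x) * (1 + x) ^ (1 / 2 : ℝ) := by
      have h6 : (3 / 2 : ℝ) = 1 + 1 / 2 := by norm_num
      rw [h6, Real.rpow_add (by linarith), Real.rpow_one]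
    have h6 : 0 ≤ Real.log (1 + x) := Real.log_nonneg (by linarith)
    rw [h5]
    calc x * Real.log (1 + x) ≤ (1 + x) * ((1 + x) ^ (1 / 2 : ℝ) / (1 / 2)) :=
          mul_le_mul (by linarith) h4 h6 (by linarith)
      _ = 2 * ((1 + x) * (1 + x) ^ (1 / 2 : ℝ)) := by ring
  have h4 : Real.log (2 * C₁) + (R ^ 2 / 32 + 1) ≤ K := le_abs_self _
  have hK0 : 0 ≤ K := abs_nonneg _
  nlinarith

end Pool.Agent.Lib.MP_ec260d_ntC
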