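import Mathlib
import Pool.Agent.Lib.MP_ec260d_ntC.Defs
import Pool.Agent.Lib.MP_ec260d_ntC.HA

/-!
# JOB HB: elementary properties of H_t (about 250 lines)

`HH_even`: `cos` is even.  `HH_conj`: conjugate the integrand (`Ph_conj` for real `u`, `integral_conj`, `Complex.cos_conj`, `exp_conj`).
`Hz_odd`: derivative of an even function.  `HH_zero_ne`: for real `t` the integrand at `z = 0` is a positive real (`Ph_pos`), continuous, so the integral is positive.
`HH_line`: `HH t z = ∫_{u>0} e^{tu²} Ph u (e^{izu} + e^{-izu})/2`; substitute `u ↦ -u` in the second term (`Ph_even`).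
`HH_ne`: if `HH t0 z = 0` for all `z` then all `z`-derivatives vanish for `t = t0`, and by `heat` (with `iteratedDeriv` in `t`: the `j`-th `t`-derivative of `HH · z` is `(-1)^j` times the `2j`-th `z`-derivative) all the `t`-derivatives of the entire function `t ↦ HH t z` vanish at `t0`, so `HH t z = 0` for all `t, z` (Taylor series,
`Complex.hasSum_taylorSeries_on_ball` or the identity theorem with `analyticOrderAt`), contradicting `HH_zero_ne 0`.
`HH_order`: an entire function which is not identically zero has finite order everywhere (`AnalyticOnNhd.eqOn_zero_of_preconnected_of_eventuallyEq_zero` on `univ`, `analyticOrderAt_eq_top`).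
`HH_decay`: Riemann-Lebesgue lemma (`tendsto_integral_exp_smul_cocompact` or `Real.tendsto_integral_exp_smul_cocompact` / `fourierIntegral` version) applied to the integrable function `e^{tu²} Ph u` on the line.
`HH_zeros_finite`: zeros of an entire function which is not identically zero in a compact set are finite.
`HH_zero_simple_ne_zero`: `Hz t 0 = 0` (the derivative of an even function at `0`).
-/

namespace Pool.Agent.Lib.MP_ec260d_ntC

open Complex Set Filter Topology Metric MeasureTheory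

theorem HH_even (t z : ℂ) : HH t (-z) = HH t z := by
  unfold HH
  refine integral_congr_ae (Filter.Eventually.of_forall fun u => ?_)
  show cexp (t * (u : ℂ) ^ 2) * Ph u * Complex.cos (-z * u) =
    cexp (t * (u : ℂ) ^ 2) * Ph u * Complex.cos (z * u)
  rw [neg_mul, Complex.cos_neg]

theorem Hz_odd (t z : ℂ) : Hz t (-z) = -Hz t z := by
  unfold Hz
  have h1 : (fun x => HH t (-x)) = HH t := funext fun x => HH_even t x
  have h2 : deriv (fun x => HH t (-x)) z = -deriv (HH t) (-z) := deriv_comp_neg (HH t) z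
  rw [h1] at h2
  rw [h2, neg_neg]

theorem Smp_neg {t z : ℂ} (h : Smp t z) : Smp t (-z) := by
  refine ⟨?_, ?_⟩
  · rw [HH_even]
    exact h.1
  · rw [Hz_odd]
    exact neg_ne_zero.2 h.2

theorem Smp_ne_zero {t z : ℂ} (h : Smp t z) : z ≠ 0 := by
  rintro rfl
  have h1 := Hz_odd t 0
  rw [neg_zero] at h1
  exact h.2 (self_eq_neg.mp h1)

theorem HH_conj (t z : ℂ) : HH ((starRingEnd ℂ) t) ((starRingEnd ℂ) z) = (starRingEnd ℂ) (HH t z) := by
  unfold HH
  rw [← integral_conj]
  refine integral_congr_ae (Filter.Eventually.of_forall fun u => ?_)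
  show cexp ((starRingEnd ℂ) t * (u : ℂ) ^ 2) * Ph u * Complex.cos ((starRingEnd ℂ) z * u) =
    (starRingEnd ℂ) (cexp (t * (u : ℂ) ^ 2) * Ph u * Complex.cos (z * u))
  rw [map_mul, map_mul, ← Complex.exp_conj, ← Complex.cos_conj, map_mul, map_mul, map_pow,
    Complex.conj_ofReal, ← Ph_conj, Complex.conj_ofReal]

theorem Hz_conj (t z : ℂ) : Hz ((starRingEnd ℂ) t) ((starRingEnd ℂ) z) = (starRingEnd ℂ) (Hz t z) := by
  unfold Hz
  have h1 : HasDerivAt (HH t) (deriv (HH t) z) z := (HH_diff_z t z).hasDerivAt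
  have h2 := h1.conj_conj
  have h3 : (starRingEnd ℂ) ∘ (HH t) ∘ (starRingEnd ℂ) = HH ((starRingEnd ℂ) t) := by
    funext w
    show (starRingEnd ℂ) (HH t ((starRingEnd ℂ) w)) = HH ((starRingEnd ℂ) t) w
    rw [← HH_conj, Complex.conj_conj]
  rw [h3] at h2
  exact h2.deriv

theorem line_integrable (t w : ℂ) (k : ℕ) : Integrable
    (fun u : ℝ => cexp (t * (u : ℂ) ^ 2) * Ph u * (u : ℂ) ^ k * cexp (w * u)) := by
  have h1 := HH_integrable t w k
  have h2 : IntegrableOn
      (fun u : ℝ => cexp (t * (u : ℂ) ^ 2) * Ph u * (u : ℂ) ^ k * cexp (w * u)) (Iic 0) := by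
    have h3 : IntegrableOn
        (fun u : ℝ => cexp (t * (u : ℂ) ^ 2) * Ph u * (u : ℂ) ^ k * cexp (-w * u))
        (Ici (-(0 : ℝ))) := by
      rw [neg_zero]
      exact HH_integrable t (-w) k
    have h4 := h3.comp_neg_Iic.const_mul ((-1 : ℂ) ^ k)
    refine IntegrableOn.congr_fun h4 (fun u _ => ?_) measurableSet_Iic
    show (-1 : ℂ) ^ k * (cexp (t * ((-u : ℝ) : ℂ) ^ 2) * Ph ((-u : ℝ) : ℂ) * ((-u : ℝ) : ℂ) ^ k *
      cexp (-w * ((-u : ℝ) : ℂ))) = cexp (t * (u : ℂ) ^ 2) * Ph u * (u : ℂ) ^ k * cexp (w * u)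
    have hs : (u : ℂ) ∈ strip := by
      show |(u : ℂ).im| < Real.pi / 8
      rw [Complex.ofReal_im, abs_zero]
      positivity
    have e1 : (-w : ℂ) * (-(u : ℂ)) = w * u := by ring
    rw [Complex.ofReal_neg, Ph_even (u : ℂ) hs, neg_sq, e1, neg_pow (u : ℂ) k]
    have e2 : (-1 : ℂ) ^ k * (-1 : ℂ) ^ k = 1 := by
      rw [← mul_pow]
      simp
    calc (-1 : ℂ) ^ k * (cexp (t * (u : ℂ) ^ 2) * Ph u * ((-1 : ℂ) ^ k * (u : ℂ) ^ k) * cexp (w * u))
        = ((-1 : ℂ) ^ k * (-1 : ℂ) ^ k) *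
          (cexp (t * (u : ℂ) ^ 2) * Ph u * (u : ℂ) ^ k * cexp (w * u)) := by ring
      _ = cexp (t * (u : ℂ) ^ 2) * Ph u * (u : ℂ) ^ k * cexp (w * u) := by rw [e2, one_mul]
  rw [← integrableOn_univ, ← Iic_union_Ici (a := (0 : ℝ))]
  exact h2.union h1

theorem HH_line (t z : ℂ) : HH t z = 1 / 2 * ∫ u : ℝ, cexp (t * (u : ℂ) ^ 2) * Ph u * cexp (I * z * u) := by
  have hI : ∀ w : ℂ, Integrable (fun u : ℝ => cexp (t * (u : ℂ) ^ 2) * Ph u * cexp (w * u)) := by
    intro w
    have h1 := line_integrable t w 0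
    simpa only [pow_zero, mul_one] using h1
  set g : ℝ → ℂ := fun u => cexp (t * (u : ℂ) ^ 2) * Ph u * cexp (I * z * u) with hg
  have h1 : (∫ u in Iic (0 : ℝ), g u) + (∫ u in Ioi (0 : ℝ), g u) = ∫ u : ℝ, g u :=
    intervalIntegral.integral_Iic_add_Ioi (hI _).integrableOn (hI _).integrableOn
  have h2 : ∫ u in Iic (0 : ℝ), g u =
      ∫ u in Ioi (0 : ℝ), cexp (t * (u : ℂ) ^ 2) * Ph u * cexp (-(I * z) * u) := by
    have h3 := integral_comp_neg_Ioi (0 : ℝ) g
    rw [neg_zero] at h3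
    rw [← h3]
    refine setIntegral_congr_fun measurableSet_Ioi fun u _ => ?_
    show cexp (t * ((-u : ℝ) : ℂ) ^ 2) * Ph ((-u : ℝ) : ℂ) * cexp (I * z * ((-u : ℝ) : ℂ)) =
      cexp (t * (u : ℂ) ^ 2) * Ph u * cexp (-(I * z) * u)
    have hs : (u : ℂ) ∈ strip := by
      show |(u : ℂ).im| < Real.pi / 8
      rw [Complex.ofReal_im, abs_zero]
      positivity
    have e1 : I * z * (-(u : ℂ)) = -(I * z) * u := by ring
    rw [Complex.ofReal_neg, Ph_even (u : ℂ) hs, neg_sq, e1]
  rw [← h1, h2, ← integral_add (hI _).integrableOn (hI _).integrableOn, ← integral_const_mul]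
  unfold HH
  refine setIntegral_congr_fun measurableSet_Ioi fun u _ => ?_
  show cexp (t * (u : ℂ) ^ 2) * Ph u * Complex.cos (z * u) =
    1 / 2 * (cexp (t * (u : ℂ) ^ 2) * Ph u * cexp (-(I * z) * u) +
      cexp (t * (u : ℂ) ^ 2) * Ph u * cexp (I * z * u))
  have h3 : Complex.cos (z * u) = (cexp (z * u * I) + cexp (-(z * u) * I)) / 2 := rfl
  have e1 : z * u * I = I * z * u := by ring
  have e2 : -(z * u) * I = -(I * z) * u := by ring
  rw [h3, e1, e2]
  ring

theorem HH_zero_ne (t : ℝ) : HH t 0 ≠ 0 := by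
  have hI : IntegrableOn (fun u : ℝ => cexp ((t : ℂ) * (u : ℂ) ^ 2) * Ph u * Complex.cos (0 * u))
      (Ioi 0) := by
    have h1 := (line_integrable t 0 0).integrableOn (s := Ioi (0 : ℝ))
    refine IntegrableOn.congr_fun h1 (fun u _ => ?_) measurableSet_Ioi
    show cexp ((t : ℂ) * (u : ℂ) ^ 2) * Ph u * (u : ℂ) ^ 0 * cexp (0 * u) =
      cexp ((t : ℂ) * (u : ℂ) ^ 2) * Ph u * Complex.cos (0 * u)
    rw [pow_zero, mul_one, zero_mul, Complex.exp_zero, Complex.cos_zero]
  have hre : ∀ u : ℝ, (cexp ((t : ℂ) * (u : ℂ) ^ 2) * Ph u * Complex.cos (0 * u)).re =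
      Real.exp (t * u ^ 2) * (Ph u).re := by
    intro u
    have h1 : cexp ((t : ℂ) * (u : ℂ) ^ 2) = ((Real.exp (t * u ^ 2) : ℝ) : ℂ) := by
      push_cast
      rfl
    rw [zero_mul, Complex.cos_zero, mul_one, h1, Complex.re_ofReal_mul]
  have hpos : 0 < ∫ u in Ioi (0 : ℝ), Real.exp (t * u ^ 2) * (Ph u).re := by
    have hI' : IntegrableOn (fun u : ℝ => Real.exp (t * u ^ 2) * (Ph u).re) (Ioi 0) := by
      have h1 := hI.re
      refine IntegrableOn.congr_fun h1 (fun u _ => ?_) measurableSet_Ioi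
      exact hre u
    rw [setIntegral_pos_iff_support_of_nonneg_ae]
    · have h1 : Function.support (fun u : ℝ => Real.exp (t * u ^ 2) * (Ph u).re) ∩ Ioi 0 = Ioi 0 := by
        refine Set.inter_eq_right.2 fun u _ => ?_
        rw [Function.mem_support]
        exact (mul_pos (Real.exp_pos _) (Ph_pos u).1).ne'
      rw [h1, Real.volume_Ioi]
      exact ENNReal.zero_lt_top
    · exact Filter.Eventually.of_forall fun u => (mul_pos (Real.exp_pos _) (Ph_pos u).1).le
    · exact hI'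
  intro h0
  have h1 : (HH t 0).re = ∫ u in Ioi (0 : ℝ), Real.exp (t * u ^ 2) * (Ph u).re := by
    unfold HH
    have h2 := integral_re (𝕜 := ℂ) hI
    have h3 : (∫ u in Ioi (0 : ℝ), cexp ((t : ℂ) * (u : ℂ) ^ 2) * Ph u * Complex.cos (0 * u)).re =
        ∫ u in Ioi (0 : ℝ), (cexp ((t : ℂ) * (u : ℂ) ^ 2) * Ph u * Complex.cos (0 * u)).re :=
      h2.symm
    rw [h3]
    exact integral_congr_ae (Filter.Eventually.of_forall hre)
  rw [h0, Complex.zero_re] at h1
  linarith

private theorem hb2_an (t : ℂ) : AnalyticOnNhd ℂ (HH t) univ :=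
  fun z _ => (HH_diff_z t).analyticAt z

theorem HH_ne (t : ℂ) : ∃ z, HH t z ≠ 0 := by
  by_contra hcon
  push Not at hcon
  have hz0 : HH t = fun _ => 0 := funext hcon
  have hiter : ∀ j : ℕ, iteratedDeriv j (fun s => HH s 0) =
      fun s => (-1 : ℂ) ^ j * iteratedDeriv (2 * j) (HH s) 0 := by
    intro j
    induction j with
    | zero =>
      funext s
      simp
    | succ j ih =>
      rw [iteratedDeriv_succ, ih]
      funext s
      have h := (heat (2 * j) s 0).const_mul ((-1 : ℂ) ^ j)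
      rw [h.deriv, show 2 * (j + 1) = 2 * j + 2 by ring, pow_succ]
      ring
  have hvan : ∀ j : ℕ, iteratedDeriv j (fun s => HH s 0) t = 0 := by
    intro j
    rw [hiter j]
    simp only
    rw [hz0, iteratedDeriv_const]
    rcases Nat.eq_zero_or_pos (2 * j) with h | h
    · rw [if_pos h, mul_zero]
    · rw [if_neg h.ne', mul_zero]
  have hT := Complex.taylorSeries_eq_of_entire' t ((0 : ℝ) : ℂ) (HH_diff_t 0)
  have hT0 : HH ((0 : ℝ) : ℂ) 0 = 0 := by
    rw [← hT]
    simp only [hvan, mul_zero, zero_mul, tsum_zero]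
  exact HH_zero_ne 0 hT0

theorem HH_order (t z : ℂ) : analyticOrderAt (HH t) z ≠ ⊤ := by
  intro htop
  rw [analyticOrderAt_eq_top] at htop
  obtain ⟨w, hw⟩ := HH_ne t
  exact hw ((hb2_an t).eqOn_zero_of_preconnected_of_eventuallyEq_zero isPreconnected_univ
    (mem_univ z) htop (mem_univ w))

theorem HH_zeros_finite (t : ℂ) (K : Set ℂ) (hK : IsCompact K) : {z | z ∈ K ∧ HH t z = 0}.Finite := by
  by_contra hinf
  have hinf' : {z | z ∈ K ∧ HH t z = 0}.Infinite := hinf
  obtain ⟨x, -, hx⟩ := hinf'.exists_accPt_of_subset_isCompact hK (fun z hz => hz.1)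
  rw [accPt_iff_frequently_nhdsNE] at hx
  have hf : ∃ᶠ z in 𝓝[≠] x, HH t z = 0 := hx.mono (fun z hz => hz.2)
  obtain ⟨w, hw⟩ := HH_ne t
  exact hw ((hb2_an t).eqOn_zero_of_preconnected_of_frequently_eq_zero isPreconnected_univ
    (mem_univ x) hf (mem_univ w))

theorem HH_decay (t : ℂ) : Tendsto (fun x : ℝ => HH t x) atTop (𝓝 0) := by
  have hRL := Real.tendsto_integral_exp_smul_cocompact
    (fun u : ℝ => cexp (t * (u : ℂ) ^ 2) * Ph u)
  have hlim : Tendsto (fun x : ℝ => -(x / (2 * Real.pi))) atTop (cocompact ℝ) := by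
    have h1 : Tendsto (fun x : ℝ => x / (2 * Real.pi)) atTop atTop :=
      tendsto_id.atTop_div_const (by positivity)
    exact (tendsto_neg_atTop_atBot.comp h1).mono_right atBot_le_cocompact
  have h2 := (hRL.comp hlim).const_mul (1 / 2 : ℂ)
  rw [mul_zero] at h2
  refine h2.congr (fun x => ?_)
  rw [HH_line]
  simp only [Function.comp_apply]
  congr 1
  apply integral_congr_ae
  filter_upwards with u
  rw [Circle.smul_def, Real.fourierChar_apply, smul_eq_mul, mul_comm]
  congr 1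
  congr 1
  have hpi : (Real.pi : ℂ) ≠ 0 := by exact_mod_cast Real.pi_ne_zero
  push_cast
  field_simp

end Pool.Agent.Lib.MP_ec260d_ntC
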