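import Mathlib
import Pool.Agent.Lib.MP_ec260d_ntC.Defs
import Pool.Agent.Lib.MP_ec260d_ntC.HB

/-!
# JOB Dich: a path of zeros converges or tends to infinity (about 150 lines)

Suppose `‖w x‖` does not tend to infinity as `x → X-`: there is `M` such that `‖w x‖ ≤ M` for `x` arbitrarily close to `X`.  The zeros of `HH (c X)` in `closedBall 0 (M + 1)` are finitely many (`HH_zeros_finite`), call this set `Z`.  Choose `M' ∈ (M, M + 1)` such that no element of `Z` has modulus `M'`.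
Let `ε > 0` be small (smaller than half of the distances of the elements of `Z`, and smaller than the distances of their moduli to `M'`).  The compact set `K_ε = {v : ‖v‖ ≤ M', ‖v - z‖ ≥ ε for all z ∈ Z} ∪ {‖v‖ = M'}` contains no zero of `HH (c X)`, so `‖HH (c X) v‖ ≥ μ > 0` on it and by uniform continuity of `HH` on compact sets
(`HH_cont`) and continuity of `c` at `X`: `HH (c x) v ≠ 0` for `v ∈ K_ε` and `x` close to `X`.  Since `HH (c x) (w x) = 0`, `w x ∉ K_ε` for `x ∈ (x_ε, X)`; in particular `‖w x‖ ≠ M'`, so by the intermediate value theorem and `‖w x‖ ≤ M` for some such `x`: `‖w x‖ < M'` on `(x_ε, X)`.  Hence `w x` is in the union of the disjoint open balls `ball z ε`, `z ∈ Z`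
(in particular `Z` is not empty), and by connectedness (`IsPreconnected.subset_or_subset`/`isPreconnected_Ioo` image) in one of them for all `x ∈ (x_ε, X)`.  For smaller `ε` the point `z` must be the same (the intervals overlap and the balls are disjoint).  So `w x → z`, and `HH (c X) z = 0`.
-/

namespace Pool.Agent.Lib.MP_ec260d_ntC

open Complex Set Filter Topology Metric MeasureTheory

private lemma dich_cluster {X : ℝ} (hX : 0 < X) {c w : ℝ → ℂ} (hc : ContinuousOn c (Icc 0 X))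
    (h : ∀ x ∈ Ico 0 X, HH (c x) (w x) = 0) {K : Set ℂ} (hK : IsCompact K)
    (hf : ∃ᶠ x in 𝓝[<] X, w x ∈ K) :
    ∃ z ∈ K, MapClusterPt z (𝓝[<] X) w ∧ HH (c X) z = 0 := by
  obtain ⟨z, hzK, hz⟩ := hK.exists_mapClusterPt_of_frequently hf
  refine ⟨z, hzK, hz, ?_⟩
  by_contra hne
  have h1 : ∀ᶠ p : ℂ × ℂ in 𝓝 (c X, z), HH p.1 p.2 ≠ 0 :=
    (HH_cont.continuousAt (x := (c X, z))).eventually_ne hne
  rw [nhds_prod_eq, Filter.eventually_prod_iff] at h1
  obtain ⟨pa, ha, pb, hb, hab⟩ := h1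
  have h2 : Tendsto c (𝓝[<] X) (𝓝 (c X)) := by
    have h3 : Tendsto c (𝓝[Icc 0 X] X) (𝓝 (c X)) := hc X ⟨hX.le, le_rfl⟩
    refine h3.mono_left ?_
    have h4 : 𝓝[<] X = 𝓝[Ico 0 X] X := (nhdsWithin_Ico_eq_nhdsLT hX).symm
    rw [h4]
    exact nhdsWithin_mono X Ico_subset_Icc_self
  have h5 : ∀ᶠ x in 𝓝[<] X, pa (c x) := h2.eventually ha
  have h6 : ∃ᶠ x in 𝓝[<] X, pb (w x) := by
    rw [mapClusterPt_iff_frequently] at hz
    exact hz {v | pb v} hb
  have h7 : ∀ᶠ x in 𝓝[<] X, x ∈ Ico 0 X := Ico_mem_nhdsLT hX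
  obtain ⟨x, hx1, hx2, hx3⟩ := (h6.and_eventually (h5.and h7)).exists
  exact hab hx2 hx1 (h x hx3)

theorem dich (X : ℝ) (hX : 0 < X) (c w : ℝ → ℂ) (hc : ContinuousOn c (Icc 0 X))
    (hw : ContinuousOn w (Ico 0 X)) (h : ∀ x ∈ Ico 0 X, HH (c x) (w x) = 0) :
    Tendsto (fun x => ‖w x‖) (𝓝[<] X) atTop ∨
      ∃ z : ℂ, HH (c X) z = 0 ∧ Tendsto w (𝓝[<] X) (𝓝 z) := by
  by_cases hT : Tendsto (fun x => ‖w x‖) (𝓝[<] X) atTop
  · exact Or.inl hT
  right
  rw [Filter.tendsto_atTop] at hT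
  push Not at hT
  obtain ⟨M, hM⟩ := hT
  have hM' : ∃ᶠ x in 𝓝[<] X, w x ∈ closedBall (0 : ℂ) M := by
    refine hM.mono fun x hx => ?_
    rw [mem_closedBall_zero_iff]
    exact hx.le
  obtain ⟨z0, -, hz0, hH0⟩ := dich_cluster hX hc h (isCompact_closedBall (0 : ℂ) M) hM'
  refine ⟨z0, hH0, ?_⟩
  have hfin := HH_zeros_finite (c X) (closedBall z0 1) (isCompact_closedBall z0 1)
  have hcl : IsClosed ({z | z ∈ closedBall z0 1 ∧ HH (c X) z = 0} \ {z0}) :=
    (hfin.subset sdiff_subset).isClosed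
  have hnh : ({z | z ∈ closedBall z0 1 ∧ HH (c X) z = 0} \ {z0})ᶜ ∈ 𝓝 z0 :=
    hcl.isOpen_compl.mem_nhds (fun hz => hz.2 rfl)
  obtain ⟨r, hr, hrs⟩ := Metric.mem_nhds_iff.mp hnh
  have hiso : ∀ z, dist z z0 < r → dist z z0 ≤ 1 → HH (c X) z = 0 → z = z0 := by
    intro z h1 h2 h3
    by_contra hne
    exact hrs (mem_ball.mpr h1) ⟨⟨mem_closedBall.mpr h2, h3⟩, hne⟩
  rw [Metric.tendsto_nhds]
  intro ε hε
  by_contra hcon
  have hcon' : ∃ᶠ x in 𝓝[<] X, ¬ dist (w x) z0 < ε := Filter.not_eventually.mp hcon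
  obtain ⟨e, he0, heε, her, he1⟩ : ∃ e : ℝ, 0 < e ∧ e ≤ ε ∧ e < r ∧ e ≤ 1 :=
    ⟨min ε (min (r / 2) 1), lt_min hε (lt_min (by linarith) one_pos), min_le_left _ _,
      lt_of_le_of_lt ((min_le_right _ _).trans (min_le_left _ _)) (by linarith),
      (min_le_right _ _).trans (min_le_right _ _)⟩
  have hlow : ∃ᶠ x in 𝓝[<] X, w x ∈ ball z0 e := by
    rw [mapClusterPt_iff_frequently] at hz0
    exact hz0 _ (ball_mem_nhds z0 he0)
  have hsph : ∃ᶠ x in 𝓝[<] X, w x ∈ sphere z0 e := by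
    intro hev
    have hev2 := hev.and (Ico_mem_nhdsLT hX : ∀ᶠ x in 𝓝[<] X, x ∈ Ico 0 X)
    obtain ⟨l, hl, hls⟩ := mem_nhdsLT_iff_exists_Ioo_subset.mp hev2
    have hI : Ioo l X ∈ 𝓝[<] X := Ioo_mem_nhdsLT hl
    obtain ⟨x1, hx1, hx1I⟩ := (hlow.and_eventually hI).exists
    obtain ⟨x2, hx2, hx2I⟩ := (hcon'.and_eventually hI).exists
    have hcw : ContinuousOn (fun x => dist (w x) z0) (Ioo l X) := by
      have hcw0 : ContinuousOn w (Ioo l X) := hw.mono fun x hx => (hls hx).2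
      exact fun x hx => (hcw0 x hx).dist tendsto_const_nhds
    have hiv := isPreconnected_Ioo.intermediate_value hx1I hx2I hcw
    obtain ⟨x3, hx3, hx3e⟩ := hiv (show e ∈ Icc (dist (w x1) z0) (dist (w x2) z0) from
      ⟨(mem_ball.mp hx1).le, heε.trans (not_lt.mp hx2)⟩)
    exact (hls hx3).1 (mem_sphere.mpr hx3e)
  obtain ⟨z1, hz1, -, hH1⟩ := dich_cluster hX hc h (isCompact_sphere z0 e) hsph
  have hd : dist z1 z0 = e := mem_sphere.mp hz1
  have hz10 := hiso z1 (by rw [hd]; exact her) (by rw [hd]; exact he1) hH1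
  rw [hz10, dist_self] at hd
  linarith

end Pool.Agent.Lib.MP_ec260d_ntC
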