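import Mathlib
import Pool.Agent.Lib.MP_ec260d_ntC.Defs
import Pool.Agent.Lib.MP_ec260d_ntC.HB

/-!
# JOB HG: the heat flow as a Gaussian average (about 200 lines)

Let `c² = 2 τ`, `κ ∈ ℂ`.  For every `u ∈ ℝ`: `∫_ℝ cexp (I (z + I c (ξ + κ)) u) cexp (-(ξ + κ)²/2) dξ = cexp (I z u) ∫ cexp (-c u (ξ + κ) - (ξ + κ)²/2) dξ = sqrt (2π) cexp (I z u) cexp (c² u²/2)` (`integral_cexp_quadratic`; or `fourierIntegral_gaussian`; the shift `κ` is complex, so use the formula for `∫ cexp (b ξ² + c' ξ + d)` with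
`b = -1/2`, `c' = -κ - c u`, `d = -κ²/2 - c u κ`, which gives `sqrt(2π) exp (d - c'²/(4b)) = sqrt(2π) exp (-κ²/2 - c u κ + (κ + c u)²/2) = sqrt (2π) exp (c² u²/2)`).
Insert `HH_line` for `HH t (z + I c (ξ + κ))` and exchange the integrals (Fubini: the double integral of the norm is at most
`∫∫ exp (‖t‖ u² + (‖z‖ + ‖c‖ (|ξ| + ‖κ‖)) |u|) ‖Ph u‖ exp (-ξ²/2 + ‖κ‖ |ξ| + ‖κ‖²/2) dξ du`, and `∫ exp (‖c‖ |ξ| |u| + ‖κ‖ |ξ| - ξ²/2) dξ ≤ 2 sqrt (2π) exp ((‖c‖ |u| + ‖κ‖)²/2)`, which times `‖Ph u‖ exp (...)` is integrable because `‖Ph u‖ ≤ C exp (9|u| - π e^{4|u|})` on the line).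
Result: `∫ HH t (z + I c (ξ + κ)) cexp (-(ξ+κ)²/2) dξ = 1/2 ∫_ℝ cexp (t u²) Ph u cexp (I z u) sqrt (2π) cexp (τ u²) du = sqrt (2π) HH (t + τ) z`.
`gauss_int`: the integrand is integrable in `ξ` (from the same Fubini statement, or from `HH_growth`: `‖HH t (z + I c (ξ + κ))‖ ≤ exp (C (1 + ‖z‖ + ‖c‖ (|ξ| + ‖κ‖))^(3/2))` and continuity).
-/

namespace Pool.Agent.Lib.MP_ec260d_ntC

open Complex Set Filter Topology Metric MeasureTheory

/-- the integrand of the double integral -/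
private noncomputable def hgF (t z c κ : ℂ) (ξ u : ℝ) : ℂ :=
  cexp (t * (u : ℂ) ^ 2) * Ph u * cexp (I * (z + I * c * (ξ + κ)) * u) *
    cexp (-((ξ : ℂ) + κ) ^ 2 / 2)

private lemma hg_strip (u : ℝ) : (u : ℂ) ∈ strip := by
  show |(u : ℂ).im| < Real.pi / 8
  simp only [Complex.ofReal_im, abs_zero]
  positivity

private lemma hg_Ph_cont : Continuous (fun u : ℝ => Ph u) := by
  rw [continuous_iff_continuousAt]
  intro u
  have h1 : ContinuousAt Ph (u : ℂ) :=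
    (Ph_diff.continuousOn).continuousAt (strip_open.mem_nhds (hg_strip u))
  exact ContinuousAt.comp (f := fun u : ℝ => (u : ℂ)) h1 Complex.continuous_ofReal.continuousAt

private lemma hg_cont (t z c κ : ℂ) : Continuous (Function.uncurry (hgF t z c κ)) := by
  unfold hgF Function.uncurry
  have h1 : Continuous (fun p : ℝ × ℝ => Ph p.2) := hg_Ph_cont.comp continuous_snd
  fun_prop

private lemma hg_norm (t z c κ : ℂ) (ξ u : ℝ) : ‖hgF t z c κ ξ u‖ =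
    (‖cexp (((t.re + c.re ^ 2 / 2 : ℝ) : ℂ) * (u : ℂ) ^ 2) * Ph u * (u : ℂ) ^ 0 *
      cexp (((-z.im + c.re * κ.re - (c * κ).re : ℝ) : ℂ) * u)‖ *
      Real.exp (κ.re ^ 2 / 2 - (κ ^ 2).re / 2)) *
      Real.exp (-(1 / 2) * (ξ + (c.re * u + κ.re)) ^ 2) := by
  unfold hgF
  have e1 : ‖cexp (t * (u : ℂ) ^ 2)‖ = Real.exp (t.re * u ^ 2) := by
    rw [Complex.norm_exp]
    congr 1
    rw [← Complex.ofReal_pow, Complex.re_mul_ofReal]
  have e2 : ‖cexp (I * (z + I * c * (ξ + κ)) * u)‖ =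
      Real.exp ((-z.im - (c * κ).re - c.re * ξ) * u) := by
    rw [Complex.norm_exp]
    congr 1
    rw [Complex.re_mul_ofReal]
    congr 1
    simp [Complex.mul_re, Complex.mul_im]
    ring
  have e3 : ‖cexp (-((ξ : ℂ) + κ) ^ 2 / 2)‖ =
      Real.exp (-(ξ ^ 2 + 2 * ξ * κ.re + (κ ^ 2).re) / 2) := by
    rw [Complex.norm_exp]
    congr 1
    simp [Complex.mul_re, pow_two]
    ring
  have e4 : ‖cexp (((t.re + c.re ^ 2 / 2 : ℝ) : ℂ) * (u : ℂ) ^ 2)‖ =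
      Real.exp ((t.re + c.re ^ 2 / 2) * u ^ 2) := by
    rw [Complex.norm_exp]
    congr 1
    rw [← Complex.ofReal_pow, Complex.re_mul_ofReal, Complex.ofReal_re]
  have e5 : ‖cexp (((-z.im + c.re * κ.re - (c * κ).re : ℝ) : ℂ) * u)‖ =
      Real.exp ((-z.im + c.re * κ.re - (c * κ).re) * u) := by
    rw [Complex.norm_exp]
    congr 1
    rw [Complex.re_mul_ofReal, Complex.ofReal_re]
  simp only [norm_mul, pow_zero, mul_one]
  rw [e1, e2, e3, e4, e5]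
  have e6 : Real.exp (t.re * u ^ 2) * ‖Ph u‖ * Real.exp ((-z.im - (c * κ).re - c.re * ξ) * u) *
      Real.exp (-(ξ ^ 2 + 2 * ξ * κ.re + (κ ^ 2).re) / 2) = ‖Ph u‖ * (Real.exp (t.re * u ^ 2) *
      Real.exp ((-z.im - (c * κ).re - c.re * ξ) * u) *
      Real.exp (-(ξ ^ 2 + 2 * ξ * κ.re + (κ ^ 2).re) / 2)) := by ring
  have e7 : Real.exp ((t.re + c.re ^ 2 / 2) * u ^ 2) * ‖Ph u‖ *
      Real.exp ((-z.im + c.re * κ.re - (c * κ).re) * u) *
      Real.exp (κ.re ^ 2 / 2 - (κ ^ 2).re / 2) *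
      Real.exp (-(1 / 2) * (ξ + (c.re * u + κ.re)) ^ 2) = ‖Ph u‖ *
      (Real.exp ((t.re + c.re ^ 2 / 2) * u ^ 2) *
      Real.exp ((-z.im + c.re * κ.re - (c * κ).re) * u) *
      Real.exp (κ.re ^ 2 / 2 - (κ ^ 2).re / 2) *
      Real.exp (-(1 / 2) * (ξ + (c.re * u + κ.re)) ^ 2)) := by ring
  rw [e6, e7]
  congr 1
  simp only [← Real.exp_add]
  congr 1
  ring

private lemma hg_gauss_int (m : ℝ) :
    Integrable (fun ξ : ℝ => Real.exp (-(1 / 2) * (ξ + m) ^ 2)) :=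
  (integrable_exp_neg_mul_sq (b := 1 / 2) (by norm_num)).comp_add_right m

private lemma hg_int_prod (t z c κ : ℂ) :
    Integrable (Function.uncurry (hgF t z c κ)) (volume.prod volume) := by
  rw [integrable_prod_iff' (hg_cont t z c κ).aestronglyMeasurable]
  constructor
  · refine Eventually.of_forall (fun u => ?_)
    have h1 : Integrable (fun ξ : ℝ => ‖hgF t z c κ ξ u‖) := by
      simp_rw [hg_norm]
      exact (hg_gauss_int _).const_mul _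
    refine (integrable_norm_iff ?_).1 h1
    apply Continuous.aestronglyMeasurable
    have h2 : Continuous (fun ξ : ℝ => Function.uncurry (hgF t z c κ) (ξ, u)) :=
      (hg_cont t z c κ).comp (by fun_prop)
    exact h2
  · have h1 : ∀ u : ℝ, ∫ ξ : ℝ, ‖Function.uncurry (hgF t z c κ) (ξ, u)‖ =
        (‖cexp (((t.re + c.re ^ 2 / 2 : ℝ) : ℂ) * (u : ℂ) ^ 2) * Ph u * (u : ℂ) ^ 0 *
        cexp (((-z.im + c.re * κ.re - (c * κ).re : ℝ) : ℂ) * u)‖ *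
        Real.exp (κ.re ^ 2 / 2 - (κ ^ 2).re / 2)) *
        ∫ ξ : ℝ, Real.exp (-(1 / 2) * ξ ^ 2) := by
      intro u
      simp only [Function.uncurry]
      simp_rw [hg_norm]
      rw [integral_const_mul]
      congr 1
      exact integral_add_right_eq_self (fun ξ : ℝ => Real.exp (-(1 / 2) * ξ ^ 2)) _
    simp_rw [h1]
    exact ((line_integrable _ _ 0).norm.mul_const _).mul_const _

private lemma hg_inner (t z c κ : ℂ) (ξ : ℝ) :
    HH t (z + I * c * (ξ + κ)) * cexp (-((ξ : ℂ) + κ) ^ 2 / 2) =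
      1 / 2 * ∫ u : ℝ, hgF t z c κ ξ u := by
  rw [HH_line, mul_assoc, ← integral_mul_const]
  rfl

private lemma hg_outer (t τ z c κ : ℂ) (hc : c ^ 2 = 2 * τ) (u : ℝ) :
    ∫ ξ : ℝ, hgF t z c κ ξ u = (Real.sqrt (2 * Real.pi) : ℂ) *
      (cexp ((t + τ) * (u : ℂ) ^ 2) * Ph u * cexp (I * z * u)) := by
  have h1 : ∀ ξ : ℝ, hgF t z c κ ξ u = (cexp (t * (u : ℂ) ^ 2) * Ph u * cexp (I * z * u)) *
      cexp (-(1 / 2) * (ξ : ℂ) ^ 2 + (-κ - c * u) * ξ + (-κ ^ 2 / 2 - c * u * κ)) := by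
    intro ξ
    unfold hgF
    have e1 : cexp (I * (z + I * c * (ξ + κ)) * u) * cexp (-((ξ : ℂ) + κ) ^ 2 / 2) =
        cexp (I * z * u) *
        cexp (-(1 / 2) * (ξ : ℂ) ^ 2 + (-κ - c * u) * ξ + (-κ ^ 2 / 2 - c * u * κ)) := by
      rw [← Complex.exp_add, ← Complex.exp_add]
      congr 1
      have : I * (z + I * c * (ξ + κ)) * u = I * z * u + (I * I) * c * (ξ + κ) * u := by ring
      rw [this, Complex.I_mul_I]
      ring
    rw [mul_assoc (cexp (t * (u : ℂ) ^ 2) * Ph u), e1]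
    ring
  simp_rw [h1]
  rw [integral_const_mul, integral_cexp_quadratic (by simp)]
  have h2 : ((Real.pi : ℂ) / -(-(1 / 2))) ^ (1 / 2 : ℂ) = (Real.sqrt (2 * Real.pi) : ℂ) := by
    have h3 : ((Real.pi : ℂ) / -(-(1 / 2))) = ((2 * Real.pi : ℝ) : ℂ) := by
      push_cast
      ring
    have h4 : (1 / 2 : ℂ) = ((1 / 2 : ℝ) : ℂ) := by push_cast; rfl
    rw [h3, h4, ← Complex.ofReal_cpow (by positivity), ← Real.sqrt_eq_rpow]
  rw [h2]
  have h5 : cexp ((t + τ) * (u : ℂ) ^ 2) = cexp (t * (u : ℂ) ^ 2) *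
      cexp (-κ ^ 2 / 2 - c * u * κ - (-κ - c * u) ^ 2 / (4 * -(1 / 2))) := by
    rw [← Complex.exp_add]
    congr 1
    have h6 : τ = c ^ 2 / 2 := by rw [hc]; ring
    rw [h6]
    ring
  rw [h5]
  ring

theorem gauss_int (t z c κ : ℂ) : Integrable
    (fun ξ : ℝ => HH t (z + I * c * (ξ + κ)) * cexp (-((ξ : ℂ) + κ) ^ 2 / 2)) := by
  simp_rw [hg_inner]
  exact ((hg_int_prod t z c κ).integral_prod_left).const_mul _

theorem gauss (t τ z c κ : ℂ) (hc : c ^ 2 = 2 * τ) :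
    HH (t + τ) z = (Real.sqrt (2 * Real.pi) : ℂ)⁻¹ *
      ∫ ξ : ℝ, HH t (z + I * c * (ξ + κ)) * cexp (-((ξ : ℂ) + κ) ^ 2 / 2) := by
  simp_rw [hg_inner]
  rw [integral_const_mul, integral_integral_swap (hg_int_prod t z c κ)]
  simp_rw [hg_outer t τ z c κ hc]
  rw [integral_const_mul, HH_line]
  have h1 : (Real.sqrt (2 * Real.pi) : ℂ) ≠ 0 := by
    have : 0 < Real.sqrt (2 * Real.pi) := by positivity
    exact_mod_cast this.ne'
  generalize (∫ u : ℝ, cexp ((t + τ) * (u : ℂ) ^ 2) * Ph u * cexp (I * z * u)) = J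
  field_simp

end Pool.Agent.Lib.MP_ec260d_ntC
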