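import Mathlib

/-!
# JOB HPol: the heat polynomials (scaled Hermite polynomials) (about 200 lines)

`HPol 0 = 1`, `HPol (m+1) = X * HPol m - 2 (HPol m)'`.
`HPol_deriv`: induction: `(HPol (m+1))' = HPol m + X (HPol m)' - 2 (HPol m)''`; for `m = 0` it is `1`; for `m = k+1` the hypothesis gives `(HPol (k+1))' = (k+1) HPol k`, so the sum is `HPol (k+1) + (k+1) (X HPol k - 2 (HPol k)') = (k+2) HPol (k+1)`.
`HPol_natDegree`, monic: leading term of `X * HPol m`.
`HPol_simple`: if `HPol m` and its derivative `m HPol (m-1)` vanish at `w` (`m ≥ 1` since `HPol 0 = 1`), then `HPol (k+1) (w) = w HPol k (w) - 2 k HPol (k-1) (w)` shows by descending induction that all `HPol k` vanish at `w`, but `HPol 0 = 1`.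
`HPol_gauss`: let `E m w` be the right side.  `E 0 w = 1` (`integral_gaussian`).  `E (m+1) w = w E m w + I √2 (2π)^(-1/2) ∫ ξ (w + I √2 ξ)^m e^{-ξ²/2} dξ`, and integration by parts (`ξ e^{-ξ²/2} = -(e^{-ξ²/2})'`, `integral_mul_deriv_eq_deriv_mul_of_integrable` or similar) turns the last integral into
`∫ m I √2 (w + I√2ξ)^(m-1) e^{-ξ²/2}`, so `E (m+1) w = w E m w - 2 m E (m-1) w`, the same recursion as `HPol` (with `HPol_deriv`).
`HPol_re` (`m ≥ 2`): for `w = I y`, `y` real: `E m (I y) = I^m (2π)^(-1/2) ∫ (y + √2 ξ)^m e^{-ξ²/2}`.  For even `m` this is not zero (integrand `≥ 0`, not a.e. zero), so every root (there is one, `ℂ` is algebraically closed) has nonzero real part.  For odd `m ≥ 3`: `g(y) = ∫ (y + √2 ξ)^m e^{-ξ²/2}` is odd with `g' = m ∫ (..)^(m-1) > 0`, so `g` vanishes at `0` only;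
`0` is a simple root (`HPol_simple`), the degree is `≥ 3`, so there is another root, and it has nonzero real part.
-/

namespace Pool.Agent.Lib.MP_ec260d_ntC

open Complex Set Filter Topology Metric MeasureTheory Polynomial

/-- the heat polynomials -/
noncomputable def HPol : ℕ → Polynomial ℂ
  | 0 => 1
  | (m + 1) => X * HPol m - C 2 * derivative (HPol m)

private theorem HPolA_succ (m : ℕ) : HPol (m + 1) = X * HPol m - C 2 * derivative (HPol m) := rfl

theorem HPol_deriv (m : ℕ) : derivative (HPol (m + 1)) = C ((m : ℂ) + 1) * HPol m := by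
  induction m with
  | zero =>
    rw [HPolA_succ]
    simp [HPol]
  | succ k ih =>
    rw [HPolA_succ (k + 1)]
    have e1 : derivative (X * HPol (k + 1) - C 2 * derivative (HPol (k + 1))) =
        HPol (k + 1) + X * derivative (HPol (k + 1)) -
          C 2 * derivative (derivative (HPol (k + 1))) := by
      rw [derivative_sub, derivative_mul, derivative_C_mul, derivative_X]
      ring
    rw [e1, ih, derivative_C_mul]
    have e2 : HPol (k + 1) + X * (C ((k : ℂ) + 1) * HPol k) -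
        C 2 * (C ((k : ℂ) + 1) * derivative (HPol k)) =
          HPol (k + 1) + C ((k : ℂ) + 1) * (X * HPol k - C 2 * derivative (HPol k)) := by
      ring
    rw [e2, ← HPolA_succ k]
    push_cast
    simp only [C_add, C_1]
    ring

theorem HPol_monic (m : ℕ) : (HPol m).Monic ∧ (HPol m).natDegree = m := by
  induction m with
  | zero => exact ⟨monic_one, natDegree_one⟩
  | succ k ih =>
    obtain ⟨h1, h2⟩ := ih
    have hX : (X * HPol k).Monic := monic_X.mul h1
    have hXd : (X * HPol k).natDegree = k + 1 := by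
      rw [monic_X.natDegree_mul h1, natDegree_X, h2, add_comm]
    have hlt : (C 2 * derivative (HPol k)).degree < (X * HPol k).degree := by
      rw [degree_eq_natDegree hX.ne_zero, hXd]
      rw [degree_C_mul two_ne_zero]
      refine lt_of_le_of_lt (degree_le_natDegree) ?_
      have h3 : (derivative (HPol k)).natDegree ≤ k := by
        refine (natDegree_derivative_le _).trans ?_
        rw [h2]
        exact Nat.sub_le _ _
      exact_mod_cast Nat.lt_succ_of_le h3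
    rw [HPolA_succ]
    refine ⟨hX.sub_of_left hlt, ?_⟩
    rw [natDegree_sub_eq_left_of_natDegree_lt, hXd]
    rw [hXd]
    refine lt_of_le_of_lt (natDegree_C_mul_le 2 _) ?_
    have h3 : (derivative (HPol k)).natDegree ≤ k := by
      refine (natDegree_derivative_le _).trans ?_
      rw [h2]
      exact Nat.sub_le _ _
    omega

private theorem HPolA_desc (w : ℂ) : ∀ m : ℕ, (HPol (m + 1)).eval w = 0 → (HPol m).eval w = 0 → False := by
  intro m
  induction m with
  | zero =>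
    intro _ h0
    simp [HPol] at h0
  | succ k ih =>
    intro h1 h0
    refine ih h0 ?_
    rw [HPolA_succ, HPol_deriv] at h1
    simp only [eval_sub, eval_mul, eval_X, eval_C, h0, mul_zero, zero_sub, neg_eq_zero] at h1
    have hk : ((k : ℂ) + 1) ≠ 0 := by exact_mod_cast Nat.succ_ne_zero k
    rcases mul_eq_zero.1 h1 with h2 | h2
    · norm_num at h2
    · exact (mul_eq_zero.1 h2).resolve_left hk

theorem HPol_simple (m : ℕ) (w : ℂ) (h : (HPol m).eval w = 0) : (derivative (HPol m)).eval w ≠ 0 := by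
  cases m with
  | zero => simp [HPol] at h
  | succ k =>
    intro h1
    rw [HPol_deriv] at h1
    simp only [eval_mul, eval_C] at h1
    have hk : ((k : ℂ) + 1) ≠ 0 := by exact_mod_cast Nat.succ_ne_zero k
    exact HPolA_desc w k h ((mul_eq_zero.1 h1).resolve_left hk)

private theorem hpolb_mono (n : ℕ) : Integrable (fun ξ : ℝ => ξ ^ n * Real.exp (-ξ ^ 2 / 2)) := by
  have h := integrable_rpow_mul_exp_neg_mul_sq (b := 1 / 2) (by norm_num) (s := n)
    (by have : (0 : ℝ) ≤ n := Nat.cast_nonneg n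
        linarith)
  refine h.congr (Filter.Eventually.of_forall fun ξ => ?_)
  simp only [Real.rpow_natCast]
  congr 2
  ring

private theorem hpolb_intR (p : Polynomial ℝ) :
    Integrable (fun ξ : ℝ => p.eval ξ * Real.exp (-ξ ^ 2 / 2)) := by
  induction p using Polynomial.induction_on' with
  | add p q hp hq =>
    refine (hp.add hq).congr (Filter.Eventually.of_forall fun ξ => ?_)
    simp only [Pi.add_apply, eval_add]
    ring
  | monomial n a =>
    refine ((hpolb_mono n).const_mul a).congr (Filter.Eventually.of_forall fun ξ => ?_)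
    simp only [eval_monomial]
    ring

private theorem hpolb_intC (p : Polynomial ℂ) :
    Integrable (fun ξ : ℝ => p.eval (ξ : ℂ) * cexp (-(ξ : ℂ) ^ 2 / 2)) := by
  induction p using Polynomial.induction_on' with
  | add p q hp hq =>
    refine (hp.add hq).congr (Filter.Eventually.of_forall fun ξ => ?_)
    simp only [Pi.add_apply, eval_add]
    ring
  | monomial n a =>
    have h := (Complex.ofRealCLM.integrable_comp (hpolb_mono n)).const_mul a
    refine h.congr (Filter.Eventually.of_forall fun ξ => ?_)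
    show a * ((ξ ^ n * Real.exp (-ξ ^ 2 / 2) : ℝ) : ℂ) =
      eval (ξ : ℂ) (monomial n a) * cexp (-(ξ : ℂ) ^ 2 / 2)
    rw [eval_monomial]
    push_cast
    ring

private theorem hpolb_int (m : ℕ) (w c : ℂ) :
    Integrable (fun ξ : ℝ => (w + c * ξ) ^ m * cexp (-(ξ : ℂ) ^ 2 / 2)) := by
  refine (hpolb_intC ((C w + C c * X) ^ m)).congr (Filter.Eventually.of_forall fun ξ => ?_)
  simp

private theorem hpolb_int2 (m : ℕ) (w c : ℂ) :
    Integrable (fun ξ : ℝ => (ξ : ℂ) * (w + c * ξ) ^ m * cexp (-(ξ : ℂ) ^ 2 / 2)) := by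
  refine (hpolb_intC (X * (C w + C c * X) ^ m)).congr (Filter.Eventually.of_forall fun ξ => ?_)
  simp

private theorem hpolb_zero : ∫ ξ : ℝ, cexp (-(ξ : ℂ) ^ 2 / 2) = (Real.sqrt (2 * Real.pi) : ℂ) := by
  have h := integral_gaussian (1 / 2)
  have h2 : (∫ ξ : ℝ, cexp (-(ξ : ℂ) ^ 2 / 2)) =
      ((∫ ξ : ℝ, Real.exp (-(1 / 2) * ξ ^ 2) : ℝ) : ℂ) := by
    rw [← integral_complex_ofReal]
    refine integral_congr_ae (Filter.Eventually.of_forall fun ξ => ?_)
    show cexp (-(ξ : ℂ) ^ 2 / 2) = ((Real.exp (-(1 / 2) * ξ ^ 2) : ℝ) : ℂ)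
    push_cast
    congr 1
    ring
  rw [h2, h]
  congr 2
  ring

private theorem hpolb_parts (m : ℕ) (w c : ℂ) :
    ∫ ξ : ℝ, (ξ : ℂ) * (w + c * ξ) ^ m * cexp (-(ξ : ℂ) ^ 2 / 2) =
      m * c * ∫ ξ : ℝ, (w + c * ξ) ^ (m - 1) * cexp (-(ξ : ℂ) ^ 2 / 2) := by
  have hd : ∀ ξ : ℝ, HasDerivAt (fun ξ : ℝ => (w + c * ξ) ^ m * cexp (-(ξ : ℂ) ^ 2 / 2))
      (m * c * ((w + c * ξ) ^ (m - 1) * cexp (-(ξ : ℂ) ^ 2 / 2)) -
        (ξ : ℂ) * (w + c * ξ) ^ m * cexp (-(ξ : ℂ) ^ 2 / 2)) ξ := by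
    intro ξ
    have h0 : HasDerivAt (fun z : ℂ => (w + c * z) ^ m * cexp (-z ^ 2 / 2))
        (m * c * ((w + c * ξ) ^ (m - 1) * cexp (-(ξ : ℂ) ^ 2 / 2)) -
        (ξ : ℂ) * (w + c * ξ) ^ m * cexp (-(ξ : ℂ) ^ 2 / 2)) (ξ : ℂ) := by
      have h1 : HasDerivAt (fun z : ℂ => w + c * z) c (ξ : ℂ) := by
        have := ((hasDerivAt_id (ξ : ℂ)).const_mul c).const_add w
        simpa using this
      have h2 := h1.pow m
      have h3 : HasDerivAt (fun z : ℂ => -z ^ 2 / 2) (-(ξ : ℂ)) (ξ : ℂ) := by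
        have := ((hasDerivAt_pow 2 (ξ : ℂ)).neg).div_const 2
        refine this.congr_deriv ?_
        simp
        ring
      have h4 := h3.cexp
      refine (h2.mul h4).congr_deriv ?_
      simp only [Pi.pow_apply]
      ring
    exact h0.comp_ofReal
  have h5 := integral_eq_zero_of_hasDerivAt_of_integrable hd
    (((hpolb_int (m - 1) w c).const_mul _).sub (hpolb_int2 m w c)) (hpolb_int m w c)
  rw [integral_sub ((hpolb_int (m - 1) w c).const_mul _) (hpolb_int2 m w c),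
    integral_const_mul] at h5
  exact (sub_eq_zero.1 h5).symm

private theorem hpolb_rec (m : ℕ) (w c : ℂ) :
    ∫ ξ : ℝ, (w + c * ξ) ^ (m + 1) * cexp (-(ξ : ℂ) ^ 2 / 2) =
      w * (∫ ξ : ℝ, (w + c * ξ) ^ m * cexp (-(ξ : ℂ) ^ 2 / 2)) +
      c ^ 2 * m * ∫ ξ : ℝ, (w + c * ξ) ^ (m - 1) * cexp (-(ξ : ℂ) ^ 2 / 2) := by
  have h1 : ∫ ξ : ℝ, (w + c * ξ) ^ (m + 1) * cexp (-(ξ : ℂ) ^ 2 / 2) =
      ∫ ξ : ℝ, (w * ((w + c * ξ) ^ m * cexp (-(ξ : ℂ) ^ 2 / 2)) +
        c * ((ξ : ℂ) * (w + c * ξ) ^ m * cexp (-(ξ : ℂ) ^ 2 / 2))) := by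
    refine integral_congr_ae (Filter.Eventually.of_forall fun ξ => ?_)
    show (w + c * ξ) ^ (m + 1) * cexp (-(ξ : ℂ) ^ 2 / 2) =
      w * ((w + c * ξ) ^ m * cexp (-(ξ : ℂ) ^ 2 / 2)) +
        c * ((ξ : ℂ) * (w + c * ξ) ^ m * cexp (-(ξ : ℂ) ^ 2 / 2))
    ring
  rw [h1, integral_add ((hpolb_int m w c).const_mul _) ((hpolb_int2 m w c).const_mul _),
    integral_const_mul, integral_const_mul, hpolb_parts]
  ring

private theorem hpolb_c2 : (I * (Real.sqrt 2 : ℂ)) ^ 2 = -2 := by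
  rw [mul_pow, I_sq, ← ofReal_pow, Real.sq_sqrt (by norm_num)]
  simp

private theorem hpolb_sq : (Real.sqrt (2 * Real.pi) : ℂ) ≠ 0 := by
  rw [ofReal_ne_zero]
  exact (Real.sqrt_pos.2 (by positivity)).ne'

private theorem hpolb_gauss_two (m : ℕ) (w : ℂ) :
    (HPol m).eval w = (Real.sqrt (2 * Real.pi) : ℂ)⁻¹ *
      (∫ ξ : ℝ, (w + I * (Real.sqrt 2 : ℂ) * ξ) ^ m * cexp (-(ξ : ℂ) ^ 2 / 2)) ∧
    (HPol (m + 1)).eval w = (Real.sqrt (2 * Real.pi) : ℂ)⁻¹ *
      (∫ ξ : ℝ, (w + I * (Real.sqrt 2 : ℂ) * ξ) ^ (m + 1) * cexp (-(ξ : ℂ) ^ 2 / 2)) := by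
  induction m with
  | zero =>
    have h0 : (HPol 0).eval w = (Real.sqrt (2 * Real.pi) : ℂ)⁻¹ *
      (∫ ξ : ℝ, (w + I * (Real.sqrt 2 : ℂ) * ξ) ^ 0 * cexp (-(ξ : ℂ) ^ 2 / 2)) := by
      simp only [pow_zero, one_mul]
      rw [hpolb_zero, inv_mul_cancel₀ hpolb_sq]
      simp [HPol]
    refine ⟨h0, ?_⟩
    rw [hpolb_rec]
    have h1 : (HPol (0 + 1)).eval w = w := by simp [HPol]
    have h2 : (HPol 0).eval w = 1 := by simp [HPol]
    rw [h2] at h0
    rw [h1, mul_add, mul_left_comm, ← h0]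
    simp
  | succ m ih =>
    refine ⟨ih.2, ?_⟩
    rw [hpolb_rec, hpolb_c2]
    have h1 : (HPol (m + 1 + 1)).eval w =
        w * (HPol (m + 1)).eval w - 2 * (((m : ℂ) + 1) * (HPol m).eval w) := by
      have : HPol (m + 1 + 1) = X * HPol (m + 1) - C 2 * derivative (HPol (m + 1)) := rfl
      rw [this, HPol_deriv]
      simp
    rw [h1, ih.2, ih.1, Nat.add_sub_cancel]
    push_cast
    ring

theorem HPol_gauss (m : ℕ) (w : ℂ) : (HPol m).eval w = (Real.sqrt (2 * Real.pi) : ℂ)⁻¹ *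
    ∫ ξ : ℝ, (w + I * (Real.sqrt 2 : ℂ) * ξ) ^ m * cexp (-(ξ : ℂ) ^ 2 / 2) := by
  exact (hpolb_gauss_two m w).1

private theorem hpolb_intg (m : ℕ) (y c : ℝ) :
    Integrable (fun ξ : ℝ => (y + c * ξ) ^ m * Real.exp (-ξ ^ 2 / 2)) := by
  refine (hpolb_intR ((C y + C c * X) ^ m)).congr (Filter.Eventually.of_forall fun ξ => ?_)
  simp

private theorem hpolb_pos {f : ℝ → ℝ} (hf : Integrable f) (h : ∀ x, 0 < f x) : 0 < ∫ x, f x := by
  rw [integral_pos_iff_support_of_nonneg (fun x => (h x).le) hf]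
  have : Function.support f = Set.univ := by
    ext x
    simp [(h x).ne']
  rw [this]
  simp

private theorem hpolb_imag (m : ℕ) (y : ℝ) :
    (HPol m).eval (I * y) = (Real.sqrt (2 * Real.pi) : ℂ)⁻¹ * (I ^ m *
      ((∫ ξ : ℝ, (y + Real.sqrt 2 * ξ) ^ m * Real.exp (-ξ ^ 2 / 2) : ℝ) : ℂ)) := by
  rw [HPol_gauss]
  congr 1
  rw [← integral_complex_ofReal, ← MeasureTheory.integral_const_mul (I ^ m)]
  refine integral_congr_ae (Filter.Eventually.of_forall fun ξ => ?_)
  show (I * y + I * (Real.sqrt 2 : ℂ) * ξ) ^ m * cexp (-(ξ : ℂ) ^ 2 / 2) =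
    I ^ m * (((y + Real.sqrt 2 * ξ) ^ m * Real.exp (-ξ ^ 2 / 2) : ℝ) : ℂ)
  push_cast
  rw [← mul_assoc, ← mul_pow]
  congr 2
  ring

private theorem hpolb_double (m : ℕ) (y : ℝ) :
    2 * (∫ ξ : ℝ, (y + Real.sqrt 2 * ξ) ^ m * Real.exp (-ξ ^ 2 / 2)) =
      ∫ ξ : ℝ, ((y + Real.sqrt 2 * ξ) ^ m + (y + -Real.sqrt 2 * ξ) ^ m) *
        Real.exp (-ξ ^ 2 / 2) := by
  have h1 : ∫ ξ : ℝ, (y + -Real.sqrt 2 * ξ) ^ m * Real.exp (-ξ ^ 2 / 2) =
      ∫ ξ : ℝ, (y + Real.sqrt 2 * ξ) ^ m * Real.exp (-ξ ^ 2 / 2) := by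
    rw [← integral_neg_eq_self (fun ξ : ℝ => (y + Real.sqrt 2 * ξ) ^ m * Real.exp (-ξ ^ 2 / 2))]
    refine integral_congr_ae (Filter.Eventually.of_forall fun ξ => ?_)
    show (y + -Real.sqrt 2 * ξ) ^ m * Real.exp (-ξ ^ 2 / 2) =
      (y + Real.sqrt 2 * -ξ) ^ m * Real.exp (-(-ξ) ^ 2 / 2)
    rw [neg_sq, mul_neg, neg_mul]
  have h2 := integral_add (hpolb_intg m y (Real.sqrt 2)) (hpolb_intg m y (-Real.sqrt 2))
  rw [h1] at h2
  rw [two_mul, ← h2]
  refine integral_congr_ae (Filter.Eventually.of_forall fun ξ => ?_)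
  show (y + Real.sqrt 2 * ξ) ^ m * Real.exp (-ξ ^ 2 / 2) +
    (y + -Real.sqrt 2 * ξ) ^ m * Real.exp (-ξ ^ 2 / 2) = _
  ring

private theorem hpolb_ne (m : ℕ) {y : ℝ} (hy : y ≠ 0) :
    (∫ ξ : ℝ, (y + Real.sqrt 2 * ξ) ^ m * Real.exp (-ξ ^ 2 / 2)) ≠ 0 := by
  intro h0
  have h1 := hpolb_double m y
  rw [h0, mul_zero] at h1
  have hint : Integrable (fun ξ : ℝ => ((y + Real.sqrt 2 * ξ) ^ m + (y + -Real.sqrt 2 * ξ) ^ m) *
        Real.exp (-ξ ^ 2 / 2)) := by
    refine ((hpolb_intg m y (Real.sqrt 2)).add (hpolb_intg m y (-Real.sqrt 2))).congr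
      (Filter.Eventually.of_forall fun ξ => ?_)
    show (y + Real.sqrt 2 * ξ) ^ m * Real.exp (-ξ ^ 2 / 2) +
      (y + -Real.sqrt 2 * ξ) ^ m * Real.exp (-ξ ^ 2 / 2) = _
    ring
  rcases Nat.even_or_odd m with hm | hm
  · have h2 := hpolb_pos hint (fun ξ => by
      refine mul_pos ?_ (Real.exp_pos _)
      rcases eq_or_ne (y + Real.sqrt 2 * ξ) 0 with h | h
      · have h3 : y + -Real.sqrt 2 * ξ ≠ 0 := by
          intro h4
          apply hy
          linarith
        have := hm.pow_pos h3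
        have := hm.pow_nonneg (y + Real.sqrt 2 * ξ)
        linarith
      · have := hm.pow_pos h
        have := hm.pow_nonneg (y + -Real.sqrt 2 * ξ)
        linarith)
    linarith
  · have key : ∀ a : ℝ, (y + a) ^ m + (y - a) ^ m = (a + y) ^ m - (a - y) ^ m := by
      intro a
      have : (y - a) ^ m = -(a - y) ^ m := by
        rw [← neg_sub, hm.neg_pow]
      rw [this, add_comm y a]
      ring
    rcases lt_or_gt_of_ne hy with hlt | hgt
    · have h2 := hpolb_pos hint.neg (fun ξ => by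
        show 0 < -(((y + Real.sqrt 2 * ξ) ^ m + (y + -Real.sqrt 2 * ξ) ^ m) *
          Real.exp (-ξ ^ 2 / 2))
        have h3 : y + -Real.sqrt 2 * ξ = y - Real.sqrt 2 * ξ := by ring
        rw [h3, key, ← neg_mul]
        refine mul_pos ?_ (Real.exp_pos _)
        have := hm.strictMono_pow (show Real.sqrt 2 * ξ + y < Real.sqrt 2 * ξ - y by linarith)
        simp only at this
        linarith)
      have h4 : ∫ ξ : ℝ, (-fun ξ : ℝ => ((y + Real.sqrt 2 * ξ) ^ m +
          (y + -Real.sqrt 2 * ξ) ^ m) * Real.exp (-ξ ^ 2 / 2)) ξ = -∫ ξ : ℝ,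
          ((y + Real.sqrt 2 * ξ) ^ m + (y + -Real.sqrt 2 * ξ) ^ m) * Real.exp (-ξ ^ 2 / 2) := by
        rw [← integral_neg]
        rfl
      rw [h4] at h2
      linarith
    · have h2 := hpolb_pos hint (fun ξ => by
        have h3 : y + -Real.sqrt 2 * ξ = y - Real.sqrt 2 * ξ := by ring
        rw [h3, key]
        refine mul_pos ?_ (Real.exp_pos _)
        have := hm.strictMono_pow (show Real.sqrt 2 * ξ - y < Real.sqrt 2 * ξ + y by linarith)
        simp only at this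
        linarith)
      linarith

private theorem hpolb_root (m : ℕ) (hm : 2 ≤ m) : ∃ w : ℂ, w ≠ 0 ∧ (HPol m).eval w = 0 := by
  obtain ⟨hmon, hdeg⟩ := HPol_monic m
  by_cases h0 : (HPol m).eval 0 = 0
  · have h1 : X ∣ HPol m := by
      rw [X_dvd_iff, coeff_zero_eq_eval_zero]
      exact h0
    obtain ⟨q, hq⟩ := h1
    have hs := HPol_simple m 0 h0
    rw [hq] at hs
    have h2 : q.eval 0 ≠ 0 := by
      simpa using hs
    have hq0 : q ≠ 0 := by
      rintro rfl
      simp at h2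
    have h3 : q.natDegree = m - 1 := by
      have := congrArg natDegree hq
      rw [natDegree_X_mul hq0, hdeg] at this
      omega
    have h4 : q.degree ≠ 0 := by
      rw [degree_eq_natDegree hq0, h3]
      have : (m - 1 : ℕ) ≠ 0 := by omega
      exact_mod_cast this
    obtain ⟨w, hw⟩ := IsAlgClosed.exists_root q h4
    refine ⟨w, ?_, ?_⟩
    · rintro rfl
      exact h2 hw
    · rw [hq, eval_mul, hw.eq_zero, mul_zero]
  · have h4 : (HPol m).degree ≠ 0 := by
      rw [degree_eq_natDegree hmon.ne_zero, hdeg]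
      have : m ≠ 0 := by omega
      exact_mod_cast this
    obtain ⟨w, hw⟩ := IsAlgClosed.exists_root (HPol m) h4
    refine ⟨w, ?_, hw⟩
    rintro rfl
    exact h0 hw

theorem HPol_re (m : ℕ) (hm : 2 ≤ m) : ∃ w : ℂ, (HPol m).eval w = 0 ∧ w.re ≠ 0 := by
  obtain ⟨w, hw0, hw⟩ := hpolb_root m hm
  refine ⟨w, hw, fun hre => ?_⟩
  have h1 : w = I * (w.im : ℂ) := by
    apply Complex.ext
    · simp [hre]
    · simp
  have h2 : w.im ≠ 0 := by
    intro h
    apply hw0
    rw [h1, h]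
    simp
  rw [h1, hpolb_imag] at hw
  rcases mul_eq_zero.1 hw with h | h
  · exact hpolb_sq (inv_eq_zero.1 h)
  · rcases mul_eq_zero.1 h with h | h
    · exact I_ne_zero (pow_eq_zero_iff (by omega) |>.1 h)
    · exact hpolb_ne m h2 (ofReal_eq_zero.1 h)

end Pool.Agent.Lib.MP_ec260d_ntC
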