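import Mathlib
import Pool.Agent.Lib.MP_ec260d_ntC.Defs
import Pool.Agent.Lib.MP_ec260d_ntC.HPol
import Pool.Agent.Lib.MP_ec260d_ntC.HG
import Pool.Agent.Lib.MP_00e05b_nt.Factor

/-!
# JOB IsoA: zeros near a multiple zero, scaling (about 250 lines)

Let `m ≥ 1` be the order of the zero `z0` of `HH t0` (finite: `HH_order`), so `HH t0 (z0 + v) = v^m q(v)` with `q` entire, `q 0 = c ≠ 0` (define `q` by `dslope`/division and removable singularity, or by `exists_factor_one` of `MP_00e05b_nt/Factor.lean`; only at one point).  Growth: `‖q v‖ ≤ K exp (K (1 + ‖v‖)^(3/2))` (for `‖v‖ ≥ 1` from `HH_growth`,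
on the unit disc by continuity).  `m ≥ 2` if `Hz t0 z0 = 0`.
For `s ≠ 0` apply `gauss` with base `t0`, `τ = s²`, `c = √2 s`, `κ = 0`, at the point `z0 + v`: `HH (t0 + s²) (z0 + v) = (2π)^(-1/2) ∫ (v + I √2 s ξ)^m q (v + I √2 s ξ) e^{-ξ²/2} dξ`.
`iso_scale`: `v = s w`: `HH (t0 + s²)(z0 + s w)/s^m = (2π)^(-1/2) ∫ (w + I√2ξ)^m q (s (w + I√2ξ)) e^{-ξ²/2} dξ`, which tends to `c HPol m (w)` as `s → 0`, uniformly for `‖w‖ ≤ R`: for `‖s‖ ≤ 1` the integrand is dominated by `(R + 2|ξ|)^m K exp (K (1 + R + 2|ξ|)^(3/2)) e^{-ξ²/2}`, and `q (s (w + I√2ξ)) → c` uniformly for `‖w‖ ≤ R`, `|ξ| ≤ A`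
(split the integral at `|ξ| = A`).
`iso_far`: for `‖v‖ = ρ`-small and `s/v` small: `HH (t0 + s²)(z0 + v)/v^m = (2π)^(-1/2) ∫ (1 + I√2 (s/v) ξ)^m q (v + I √2 s ξ) e^{-ξ²/2}`, which tends to `c ≠ 0` as `v → 0`, `s/v → 0` (same domination with `‖v‖ ≤ 1`, `‖s‖ ≤ ‖v‖`).  So there are `ρ, A > 0` such that it is nonzero for `0 < ‖v‖ ≤ ρ`, `A ‖s‖ ≤ ‖v‖`.
-/

namespace Pool.Agent.Lib.MP_ec260d_ntC

open Complex Set Filter Topology Metric MeasureTheory Polynomial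

private theorem IsoA_rpow {y δ : ℝ} (hy : 0 ≤ y) (hδ : 0 < δ) :
    y ^ (3 / 2 : ℝ) ≤ y * (δ * y + 1 / (4 * δ)) := by
  have h1 : y ^ (3 / 2 : ℝ) = y * Real.sqrt y := by
    rcases hy.eq_or_lt with h | h
    · rw [← h, Real.zero_rpow (by norm_num), zero_mul]
    · rw [Real.sqrt_eq_rpow, show (3 / 2 : ℝ) = 1 + 1 / 2 by norm_num, Real.rpow_add h, Real.rpow_one]
  rw [h1]
  refine mul_le_mul_of_nonneg_left ?_ hy
  have h2 := Real.sq_sqrt hy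
  have h3 : δ * y + 1 / (4 * δ) - Real.sqrt y = δ * (Real.sqrt y - 1 / (2 * δ)) ^ 2 := by
    rw [← h2, Real.sqrt_sq (Real.sqrt_nonneg y)]
    field_simp
    ring
  have h4 : 0 ≤ δ * (Real.sqrt y - 1 / (2 * δ)) ^ 2 := by positivity
  linarith

private theorem IsoA_dom (K R : ℝ) (hK : 0 ≤ K) (hR : 0 ≤ R) (m : ℕ) : ∃ B : ℝ, 0 < B ∧ ∀ x : ℝ, 0 ≤ x →
    (R + 2 * x) ^ m * Real.exp (K * (1 + R + 2 * x) ^ (3 / 2 : ℝ)) ≤ B * Real.exp (x ^ 2 / 4) := by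
  set δ : ℝ := 1 / (64 * (K + 1)) with hδ
  have hδ0 : 0 < δ := by positivity
  have hKδ : K * δ ≤ 1 / 64 := by
    rw [hδ, mul_one_div, div_le_div_iff₀ (by positivity) (by norm_num)]
    linarith
  have hKδ0 : 0 ≤ K * δ := by positivity
  set D : ℝ := m + K / (4 * δ) with hD
  have hD0 : 0 ≤ D := by positivity
  refine ⟨Real.exp (D * (1 + R) + 8 * D ^ 2 + 2 * (K * δ) * (1 + R) ^ 2), Real.exp_pos _, fun x hx => ?_⟩
  have hy : 0 ≤ 1 + R + 2 * x := by linarith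
  have h1 : (R + 2 * x) ^ m ≤ Real.exp (m * (1 + R + 2 * x)) := by
    rw [Real.exp_nat_mul]
    refine pow_le_pow_left₀ (by linarith) ?_ m
    have := Real.add_one_le_exp (1 + R + 2 * x)
    linarith
  have h2 := IsoA_rpow hy hδ0
  have h3 : K * (1 + R + 2 * x) ^ (3 / 2 : ℝ) ≤ K * ((1 + R + 2 * x) * (δ * (1 + R + 2 * x) + 1 / (4 * δ))) :=
    mul_le_mul_of_nonneg_left h2 hK
  have h4 : K * ((1 + R + 2 * x) * (δ * (1 + R + 2 * x) + 1 / (4 * δ))) + m * (1 + R + 2 * x) =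
      D * (1 + R + 2 * x) + (K * δ) * (1 + R + 2 * x) ^ 2 := by
    rw [hD]
    field_simp
    ring
  have h5 : (1 + R + 2 * x) ^ 2 ≤ 2 * (1 + R) ^ 2 + 8 * x ^ 2 := by
    nlinarith [sq_nonneg (1 + R - 2 * x)]
  have h6 : (K * δ) * (1 + R + 2 * x) ^ 2 ≤ (K * δ) * (2 * (1 + R) ^ 2) + x ^ 2 / 8 := by
    calc (K * δ) * (1 + R + 2 * x) ^ 2 ≤ (K * δ) * (2 * (1 + R) ^ 2 + 8 * x ^ 2) :=
          mul_le_mul_of_nonneg_left h5 hKδ0
      _ = (K * δ) * (2 * (1 + R) ^ 2) + (K * δ) * (8 * x ^ 2) := by ring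
      _ ≤ (K * δ) * (2 * (1 + R) ^ 2) + 1 / 64 * (8 * x ^ 2) := by gcongr
      _ = _ := by ring
  have h7 : 2 * D * x ≤ 8 * D ^ 2 + x ^ 2 / 8 := by nlinarith [sq_nonneg (x - 8 * D)]
  calc (R + 2 * x) ^ m * Real.exp (K * (1 + R + 2 * x) ^ (3 / 2 : ℝ))
      ≤ Real.exp (m * (1 + R + 2 * x)) * Real.exp (K * (1 + R + 2 * x) ^ (3 / 2 : ℝ)) := by gcongr
    _ = Real.exp (m * (1 + R + 2 * x) + K * (1 + R + 2 * x) ^ (3 / 2 : ℝ)) := (Real.exp_add _ _).symm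
    _ ≤ Real.exp (D * (1 + R) + 8 * D ^ 2 + 2 * (K * δ) * (1 + R) ^ 2 + x ^ 2 / 4) := by
      refine Real.exp_le_exp.2 ?_
      nlinarith
    _ = _ := Real.exp_add _ _

private theorem IsoA_growth {q : ℂ → ℂ} (hq : Differentiable ℂ q) {t0 z0 : ℂ} {m : ℕ}
    (hHq : ∀ v, HH t0 (z0 + v) = v ^ m * q v) : ∃ K : ℝ, 0 ≤ K ∧
    (∀ v, ‖q v‖ ≤ Real.exp (K * (1 + ‖v‖) ^ (3 / 2 : ℝ))) ∧
    (∀ v, ‖q v - q 0‖ ≤ ‖v‖ * Real.exp (K * (1 + ‖v‖) ^ (3 / 2 : ℝ))) := by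
  obtain ⟨C, hC1, hC⟩ := HH_growth ‖t0‖
  obtain ⟨B, hB⟩ := (isCompact_closedBall (0 : ℂ) 1).exists_bound_of_continuousOn hq.continuous.continuousOn
  have hdc : Continuous (deriv q) := (hq.contDiff (n := 1)).continuous_deriv (by norm_num)
  obtain ⟨L, hL⟩ := (isCompact_closedBall (0 : ℂ) 1).exists_bound_of_continuousOn hdc.continuousOn
  have h0 : (0 : ℂ) ∈ closedBall (0 : ℂ) 1 := mem_closedBall_self (by norm_num)
  have hB0 : 0 ≤ B := (norm_nonneg _).trans (hB 0 h0)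
  have hL0 : 0 ≤ L := (norm_nonneg _).trans (hL 0 h0)
  set Z : ℝ := C * (1 + ‖z0‖) ^ (3 / 2 : ℝ) with hZ
  have hZ0 : 0 ≤ Z := by positivity
  have hy : ∀ v : ℂ, 1 ≤ (1 + ‖v‖) ^ (3 / 2 : ℝ) := fun v =>
    Real.one_le_rpow (by linarith [norm_nonneg v]) (by norm_num)
  have hmono : ∀ (a : ℝ) (v : ℂ), 0 ≤ a → a ≤ Z + B + L + ‖q 0‖ →
      Real.exp (a * (1 + ‖v‖) ^ (3 / 2 : ℝ)) ≤ Real.exp ((Z + B + L + ‖q 0‖) * (1 + ‖v‖) ^ (3 / 2 : ℝ)) := by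
    intro a v _ h
    refine Real.exp_le_exp.2 (mul_le_mul_of_nonneg_right h ?_)
    linarith [hy v]
  have hone : ∀ (a : ℝ) (v : ℂ), 0 ≤ a → a ≤ Real.exp (a * (1 + ‖v‖) ^ (3 / 2 : ℝ)) := by
    intro a v ha
    have h1 := Real.add_one_le_exp (a * (1 + ‖v‖) ^ (3 / 2 : ℝ))
    have h2 : a ≤ a * (1 + ‖v‖) ^ (3 / 2 : ℝ) := le_mul_of_one_le_right ha (hy v)
    linarith
  have hbig : ∀ v : ℂ, 1 ≤ ‖v‖ → ‖q v‖ ≤ Real.exp (Z * (1 + ‖v‖) ^ (3 / 2 : ℝ)) := by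
    intro v hv
    have h1 : ‖HH t0 (z0 + v)‖ = ‖v‖ ^ m * ‖q v‖ := by rw [hHq, norm_mul, norm_pow]
    have h2 : 1 ≤ ‖v‖ ^ m := one_le_pow₀ hv
    have h3 : ‖q v‖ ≤ ‖HH t0 (z0 + v)‖ := by
      rw [h1]
      exact le_mul_of_one_le_left (norm_nonneg _) h2
    refine h3.trans ((hC t0 (z0 + v) le_rfl).trans ?_)
    refine Real.exp_le_exp.2 ?_
    rw [hZ, mul_assoc, ← Real.mul_rpow (by positivity) (by positivity)]
    have h4 : 1 + ‖z0 + v‖ ≤ (1 + ‖z0‖) * (1 + ‖v‖) := by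
      have := norm_add_le z0 v
      nlinarith [norm_nonneg z0, norm_nonneg v]
    exact mul_le_mul_of_nonneg_left (Real.rpow_le_rpow (by positivity) h4 (by norm_num)) (by linarith)
  refine ⟨Z + B + L + ‖q 0‖, by positivity, fun v => ?_, fun v => ?_⟩
  · rcases le_total 1 ‖v‖ with hv | hv
    · exact (hbig v hv).trans (hmono Z v hZ0 (by linarith [norm_nonneg (q 0)]))
    · have h1 : v ∈ closedBall (0 : ℂ) 1 := by simpa using hv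
      exact (hB v h1).trans ((hone B v hB0).trans (hmono B v hB0 (by linarith [norm_nonneg (q 0)])))
  · rcases le_total 1 ‖v‖ with hv | hv
    · have h1 : ‖q v - q 0‖ ≤ ‖q v‖ + ‖q 0‖ := norm_sub_le _ _
      have h2 := hbig v hv
      have h3 : (1 : ℝ) ≤ Real.exp (Z * (1 + ‖v‖) ^ (3 / 2 : ℝ)) := Real.one_le_exp (by positivity)
      have h4 := hone ‖q 0‖ v (norm_nonneg _)
      have h4' : 1 + ‖q 0‖ ≤ Real.exp (‖q 0‖ * (1 + ‖v‖) ^ (3 / 2 : ℝ)) := by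
        have h5 := Real.add_one_le_exp (‖q 0‖ * (1 + ‖v‖) ^ (3 / 2 : ℝ))
        have h6 : ‖q 0‖ ≤ ‖q 0‖ * (1 + ‖v‖) ^ (3 / 2 : ℝ) := le_mul_of_one_le_right (norm_nonneg _) (hy v)
        linarith
      have h5 : ‖q v‖ + ‖q 0‖ ≤ Real.exp (Z * (1 + ‖v‖) ^ (3 / 2 : ℝ)) * (1 + ‖q 0‖) := by
        nlinarith [norm_nonneg (q 0)]
      have h6 : Real.exp (Z * (1 + ‖v‖) ^ (3 / 2 : ℝ)) * (1 + ‖q 0‖) ≤
          Real.exp ((Z + ‖q 0‖) * (1 + ‖v‖) ^ (3 / 2 : ℝ)) := by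
        rw [add_mul, Real.exp_add]
        gcongr
      have h7 := hmono (Z + ‖q 0‖) v (by positivity) (by linarith)
      have h8 : Real.exp ((Z + B + L + ‖q 0‖) * (1 + ‖v‖) ^ (3 / 2 : ℝ)) ≤
          ‖v‖ * Real.exp ((Z + B + L + ‖q 0‖) * (1 + ‖v‖) ^ (3 / 2 : ℝ)) :=
        le_mul_of_one_le_left (Real.exp_pos _).le hv
      linarith
    · have h1 : v ∈ closedBall (0 : ℂ) 1 := by simpa using hv
      have h2 := Convex.norm_image_sub_le_of_norm_deriv_le (f := q) (s := closedBall (0 : ℂ) 1) (C := L)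
        (fun x _ => hq x) hL (convex_closedBall _ _) h0 h1
      rw [sub_zero] at h2
      have h3 := (hone L v hL0).trans (hmono L v hL0 (by linarith [norm_nonneg (q 0)]))
      calc ‖q v - q 0‖ ≤ L * ‖v‖ := h2
        _ ≤ Real.exp ((Z + B + L + ‖q 0‖) * (1 + ‖v‖) ^ (3 / 2 : ℝ)) * ‖v‖ := by gcongr
        _ = _ := mul_comm _ _

private theorem IsoA_gint : Integrable (fun ξ : ℝ => Real.exp (-(1 / 4) * ξ ^ 2)) :=
  integrable_exp_neg_mul_sq (by norm_num)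

private theorem IsoA_nexp (ξ : ℝ) : ‖cexp (-(ξ : ℂ) ^ 2 / 2)‖ = Real.exp (-(ξ ^ 2) / 2) := by
  have h : -(ξ : ℂ) ^ 2 / 2 = ((-(ξ ^ 2) / 2 : ℝ) : ℂ) := by push_cast; ring
  rw [h, Complex.norm_exp, Complex.ofReal_re]

private theorem IsoA_pt {Φ : ℝ → ℂ} {N : ℝ} (h : ∀ ξ, ‖Φ ξ‖ ≤ N * Real.exp (|ξ| ^ 2 / 4)) (ξ : ℝ) :
    ‖Φ ξ * cexp (-(ξ : ℂ) ^ 2 / 2)‖ ≤ N * Real.exp (-(1 / 4) * ξ ^ 2) := by
  rw [norm_mul, IsoA_nexp]
  calc ‖Φ ξ‖ * Real.exp (-(ξ ^ 2) / 2) ≤ N * Real.exp (|ξ| ^ 2 / 4) * Real.exp (-(ξ ^ 2) / 2) := by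
        gcongr
        exact h ξ
    _ = N * Real.exp (-(1 / 4) * ξ ^ 2) := by
        rw [mul_assoc, ← Real.exp_add, sq_abs]
        congr 2
        ring

private theorem IsoA_bound {Φ : ℝ → ℂ} {N : ℝ} (h : ∀ ξ, ‖Φ ξ‖ ≤ N * Real.exp (|ξ| ^ 2 / 4)) :
    ‖∫ ξ : ℝ, Φ ξ * cexp (-(ξ : ℂ) ^ 2 / 2)‖ ≤ N * ∫ ξ : ℝ, Real.exp (-(1 / 4) * ξ ^ 2) := by
  rw [← integral_const_mul]
  exact norm_integral_le_of_norm_le (IsoA_gint.const_mul N) (Eventually.of_forall fun ξ => IsoA_pt h ξ)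

private theorem IsoA_integrable {Φ : ℝ → ℂ} (hc : Continuous Φ) {N : ℝ}
    (h : ∀ ξ, ‖Φ ξ‖ ≤ N * Real.exp (|ξ| ^ 2 / 4)) :
    Integrable (fun ξ : ℝ => Φ ξ * cexp (-(ξ : ℂ) ^ 2 / 2)) :=
  (IsoA_gint.const_mul N).mono' (by
    have : Continuous (fun ξ : ℝ => Φ ξ * cexp (-(ξ : ℂ) ^ 2 / 2)) := by fun_prop
    exact this.aestronglyMeasurable) (Eventually.of_forall fun ξ => IsoA_pt h ξ)

private theorem IsoA_rep {q : ℂ → ℂ} {t0 z0 : ℂ} {m : ℕ} (hHq : ∀ v, HH t0 (z0 + v) = v ^ m * q v) (s v : ℂ) :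
    HH (t0 + s ^ 2) (z0 + v) = (Real.sqrt (2 * Real.pi) : ℂ)⁻¹ *
      ∫ ξ : ℝ, ((v + I * (Real.sqrt 2 : ℂ) * s * ξ) ^ m * q (v + I * (Real.sqrt 2 : ℂ) * s * ξ)) *
        cexp (-(ξ : ℂ) ^ 2 / 2) := by
  have h2 : (Real.sqrt 2 : ℂ) ^ 2 = 2 := by
    rw [← Complex.ofReal_pow, Real.sq_sqrt (by norm_num)]
    norm_num
  rw [gauss t0 (s ^ 2) (z0 + v) ((Real.sqrt 2 : ℂ) * s) 0 (by rw [mul_pow, h2])]
  congr 1
  refine integral_congr_ae (Eventually.of_forall fun ξ => ?_)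
  simp only
  rw [add_zero, ← hHq]
  congr 2
  ring

private theorem IsoA_sqrt2 : ‖(Real.sqrt 2 : ℂ)‖ ≤ 2 := by
  rw [Complex.norm_real, Real.norm_eq_abs, abs_of_nonneg (Real.sqrt_nonneg 2)]
  rw [Real.sqrt_le_left (by norm_num)]
  norm_num

private theorem IsoA_fac (t0 z0 : ℂ) : ∃ (m : ℕ) (q : ℂ → ℂ), Differentiable ℂ q ∧ q 0 ≠ 0 ∧
    ∀ v, HH t0 (z0 + v) = v ^ m * q v := by
  obtain ⟨z1, hz1⟩ := HH_ne t0
  obtain ⟨g, hg, hfg, hne⟩ := Pool.Agent.Lib.MP_00e05b_nt.exists_factor_one (HH_diff_z t0) hz1 z0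
  refine ⟨analyticOrderNatAt (HH t0) z0, fun v => g (z0 + v), ?_, ?_, fun v => ?_⟩
  · exact hg.comp (differentiable_id.const_add z0)
  · simpa using hne
  · rw [hfg, add_sub_cancel_left]

private theorem IsoA_pow1 (m : ℕ) (z : ℂ) : ‖(1 + z) ^ m - 1‖ ≤ m * ‖z‖ * (1 + ‖z‖) ^ m := by
  induction m with
  | zero => simp
  | succ m ih =>
    have h1 : (1 + z) ^ (m + 1) - 1 = ((1 + z) ^ m - 1) * (1 + z) + z := by ring
    have h2 : ‖1 + z‖ ≤ 1 + ‖z‖ := by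
      have := norm_add_le 1 z
      rwa [norm_one] at this
    have h3 : (1 : ℝ) ≤ (1 + ‖z‖) ^ (m + 1) := one_le_pow₀ (by linarith [norm_nonneg z])
    rw [h1]
    calc ‖((1 + z) ^ m - 1) * (1 + z) + z‖ ≤ ‖((1 + z) ^ m - 1)‖ * ‖1 + z‖ + ‖z‖ := by
          refine (norm_add_le _ _).trans ?_
          rw [norm_mul]
      _ ≤ (m * ‖z‖ * (1 + ‖z‖) ^ m) * (1 + ‖z‖) + ‖z‖ * (1 + ‖z‖) ^ (m + 1) := by
          gcongr
          exact le_mul_of_one_le_right (norm_nonneg _) h3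
      _ = _ := by push_cast; ring

theorem iso_scale (t0 z0 : ℂ) (h : HH t0 z0 = 0) : ∃ (m : ℕ) (c : ℂ), 1 ≤ m ∧ c ≠ 0 ∧
    (Hz t0 z0 = 0 → 2 ≤ m) ∧
    (∀ R : ℝ, TendstoUniformlyOn (fun (s : ℂ) (w : ℂ) => HH (t0 + s ^ 2) (z0 + s * w) / s ^ m)
      (fun w => c * (HPol m).eval w) (𝓝[≠] 0) (closedBall 0 R)) ∧
    ∃ ρ A : ℝ, 0 < ρ ∧ 0 < A ∧ ∀ s v : ℂ, v ≠ 0 → ‖v‖ ≤ ρ → A * ‖s‖ ≤ ‖v‖ →
      HH (t0 + s ^ 2) (z0 + v) ≠ 0 := by
  obtain ⟨m, q, hq, hq0, hHq⟩ := IsoA_fac t0 z0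
  obtain ⟨K, hK0, hK1, hK2⟩ := IsoA_growth hq hHq
  set J : ℝ := ∫ ξ : ℝ, Real.exp (-(1 / 4) * ξ ^ 2) with hJ
  have hJ0 : 0 ≤ J := integral_nonneg fun ξ => (Real.exp_pos _).le
  set P : ℂ := (Real.sqrt (2 * Real.pi) : ℂ)⁻¹ with hP
  have hm : 1 ≤ m := by
    by_contra hlt
    have h1 : m = 0 := by omega
    have h2 := hHq 0
    rw [add_zero, h, h1, pow_zero, one_mul] at h2
    exact hq0 h2.symm
  refine ⟨m, q 0, hm, hq0, ?_, ?_, ?_⟩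
  · intro hz
    by_contra hlt
    have h1 : m = 1 := by omega
    have h2 : ∀ z, HH t0 z = (z - z0) * q (z - z0) := by
      intro z
      have h3 := hHq (z - z0)
      rw [add_sub_cancel, h1, pow_one] at h3
      exact h3
    have h4 : HasDerivAt (HH t0) (1 * q (z0 - z0) + (z0 - z0) * deriv q (z0 - z0)) z0 := by
      have h5 : HH t0 = fun z => (z - z0) * q (z - z0) := funext h2
      rw [h5]
      have h6 : HasDerivAt (fun z : ℂ => z - z0) 1 z0 := (hasDerivAt_id z0).sub_const z0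
      have h7 : HasDerivAt (fun z : ℂ => q (z - z0)) (deriv q (z0 - z0)) z0 := by
        have h8 := HasDerivAt.comp (h := fun z : ℂ => z - z0) z0 (hq (z0 - z0)).hasDerivAt h6
        rw [mul_one] at h8
        exact h8
      exact h6.mul h7
    have h9 := h4.deriv
    unfold Hz at hz
    rw [hz, sub_self, one_mul, zero_mul, add_zero] at h9
    exact hq0 h9.symm
  · intro R
    -- uniform convergence
    set R' : ℝ := max R 0 with hR'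
    have hR'0 : 0 ≤ R' := le_max_right _ _
    obtain ⟨B, hB0, hB⟩ := IsoA_dom K R' hK0 hR'0 (m + 1)
    obtain ⟨B2, hB20, hB2⟩ := IsoA_dom K R' hK0 hR'0 m
    have hkey : ∀ s w : ℂ, s ≠ 0 → ‖s‖ ≤ 1 → ‖w‖ ≤ R' →
        ‖HH (t0 + s ^ 2) (z0 + s * w) / s ^ m - q 0 * (HPol m).eval w‖ ≤ ‖P‖ * (‖s‖ * B * J) := by
      intro s w hs hs1 hw
      have hnw : ∀ ξ : ℝ, ‖w + I * (Real.sqrt 2 : ℂ) * ξ‖ ≤ R' + 2 * |ξ| := by
        intro ξ
        refine (norm_add_le _ _).trans (add_le_add hw ?_)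
        rw [norm_mul, norm_mul, Complex.norm_I, one_mul, Complex.norm_real ξ, Real.norm_eq_abs]
        exact mul_le_mul_of_nonneg_right IsoA_sqrt2 (abs_nonneg ξ)
      have hnu : ∀ ξ : ℝ, ‖s * (w + I * (Real.sqrt 2 : ℂ) * ξ)‖ ≤ ‖s‖ * (R' + 2 * |ξ|) := by
        intro ξ
        rw [norm_mul]
        exact mul_le_mul_of_nonneg_left (hnw ξ) (norm_nonneg s)
      have hnu1 : ∀ ξ : ℝ, 1 + ‖s * (w + I * (Real.sqrt 2 : ℂ) * ξ)‖ ≤ 1 + R' + 2 * |ξ| := by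
        intro ξ
        have h1 := hnu ξ
        have h2 : ‖s‖ * (R' + 2 * |ξ|) ≤ 1 * (R' + 2 * |ξ|) :=
          mul_le_mul_of_nonneg_right hs1 (by positivity)
        linarith
      have hexp : ∀ ξ : ℝ, Real.exp (K * (1 + ‖s * (w + I * (Real.sqrt 2 : ℂ) * ξ)‖) ^ (3 / 2 : ℝ)) ≤
          Real.exp (K * (1 + R' + 2 * |ξ|) ^ (3 / 2 : ℝ)) := by
        intro ξ
        refine Real.exp_le_exp.2 (mul_le_mul_of_nonneg_left ?_ hK0)
        exact Real.rpow_le_rpow (by positivity) (hnu1 ξ) (by norm_num)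
      have hqc := hq.continuous
      -- the two integrands
      set Φ1 : ℝ → ℂ := fun ξ => (w + I * (Real.sqrt 2 : ℂ) * ξ) ^ m * q (s * (w + I * (Real.sqrt 2 : ℂ) * ξ)) with hΦ1
      set Φ2 : ℝ → ℂ := fun ξ => q 0 * (w + I * (Real.sqrt 2 : ℂ) * ξ) ^ m with hΦ2
      have hΦ1c : Continuous Φ1 := by fun_prop
      have hΦ2c : Continuous Φ2 := by fun_prop
      have hΦ1b : ∀ ξ, ‖Φ1 ξ‖ ≤ B2 * Real.exp (|ξ| ^ 2 / 4) := by
        intro ξ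
        refine le_trans ?_ (hB2 |ξ| (abs_nonneg ξ))
        rw [hΦ1, norm_mul, norm_pow]
        refine mul_le_mul (pow_le_pow_left₀ (norm_nonneg _) (hnw ξ) m) ((hK1 _).trans (hexp ξ)) (norm_nonneg _)
          (by positivity)
      have hΦ2b : ∀ ξ, ‖Φ2 ξ‖ ≤ (‖q 0‖ * B2) * Real.exp (|ξ| ^ 2 / 4) := by
        intro ξ
        rw [hΦ2, norm_mul, norm_pow, mul_assoc (‖q 0‖)]
        refine mul_le_mul_of_nonneg_left ?_ (norm_nonneg _)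
        refine le_trans ?_ (hB2 |ξ| (abs_nonneg ξ))
        refine le_trans (pow_le_pow_left₀ (norm_nonneg _) (hnw ξ) m) ?_
        refine le_mul_of_one_le_right (by positivity) (Real.one_le_exp (by positivity))
      have hI1 := IsoA_integrable hΦ1c hΦ1b
      have hI2 := IsoA_integrable hΦ2c hΦ2b
      have hrep : HH (t0 + s ^ 2) (z0 + s * w) / s ^ m = P * ∫ ξ : ℝ, Φ1 ξ * cexp (-(ξ : ℂ) ^ 2 / 2) := by
        rw [IsoA_rep hHq s (s * w)]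
        have h1 : ∫ ξ : ℝ, ((s * w + I * (Real.sqrt 2 : ℂ) * s * ξ) ^ m * q (s * w + I * (Real.sqrt 2 : ℂ) * s * ξ)) *
            cexp (-(ξ : ℂ) ^ 2 / 2) = s ^ m * ∫ ξ : ℝ, Φ1 ξ * cexp (-(ξ : ℂ) ^ 2 / 2) := by
          rw [← integral_const_mul]
          refine integral_congr_ae (Eventually.of_forall fun ξ => ?_)
          simp only [hΦ1]
          have h2 : s * w + I * (Real.sqrt 2 : ℂ) * s * ξ = s * (w + I * (Real.sqrt 2 : ℂ) * ξ) := by ring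
          rw [h2, mul_pow]
          ring
        rw [h1]
        have h3 : s ^ m ≠ 0 := pow_ne_zero m hs
        rw [← mul_assoc, mul_comm _ (s ^ m), mul_assoc, mul_div_cancel_left₀ _ h3]
      have hpol : q 0 * (HPol m).eval w = P * ∫ ξ : ℝ, Φ2 ξ * cexp (-(ξ : ℂ) ^ 2 / 2) := by
        rw [HPol_gauss, ← mul_assoc, mul_comm (q 0), mul_assoc, ← integral_const_mul]
        congr 1
        refine integral_congr_ae (Eventually.of_forall fun ξ => ?_)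
        simp only [hΦ2]
        ring
      rw [hrep, hpol, ← mul_sub, ← integral_sub hI1 hI2, norm_mul]
      refine mul_le_mul_of_nonneg_left ?_ (norm_nonneg P)
      have h5 : ∫ ξ : ℝ, (Φ1 ξ * cexp (-(ξ : ℂ) ^ 2 / 2) - Φ2 ξ * cexp (-(ξ : ℂ) ^ 2 / 2)) =
          ∫ ξ : ℝ, (Φ1 ξ - Φ2 ξ) * cexp (-(ξ : ℂ) ^ 2 / 2) := by
        refine integral_congr_ae (Eventually.of_forall fun ξ => ?_)
        simp only
        ring
      rw [h5]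
      refine IsoA_bound (N := ‖s‖ * B) fun ξ => ?_
      have h6 : Φ1 ξ - Φ2 ξ = (w + I * (Real.sqrt 2 : ℂ) * ξ) ^ m *
          (q (s * (w + I * (Real.sqrt 2 : ℂ) * ξ)) - q 0) := by
        simp only [hΦ1, hΦ2]
        ring
      rw [h6, norm_mul, norm_pow]
      calc ‖w + I * (Real.sqrt 2 : ℂ) * ξ‖ ^ m * ‖q (s * (w + I * (Real.sqrt 2 : ℂ) * ξ)) - q 0‖
          ≤ (R' + 2 * |ξ|) ^ m * ((‖s‖ * (R' + 2 * |ξ|)) * Real.exp (K * (1 + R' + 2 * |ξ|) ^ (3 / 2 : ℝ))) := by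
            refine mul_le_mul (pow_le_pow_left₀ (norm_nonneg _) (hnw ξ) m) ?_ (norm_nonneg _) (by positivity)
            refine (hK2 _).trans ?_
            exact mul_le_mul (hnu ξ) (hexp ξ) (Real.exp_pos _).le (by positivity)
        _ = ‖s‖ * ((R' + 2 * |ξ|) ^ (m + 1) * Real.exp (K * (1 + R' + 2 * |ξ|) ^ (3 / 2 : ℝ))) := by ring
        _ ≤ ‖s‖ * (B * Real.exp (|ξ| ^ 2 / 4)) := mul_le_mul_of_nonneg_left (hB |ξ| (abs_nonneg ξ)) (norm_nonneg s)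
        _ = _ := by ring
    rw [Metric.tendstoUniformlyOn_iff]
    intro ε hε
    set N : ℝ := ‖P‖ * B * J with hN
    have hN0 : 0 ≤ N := by positivity
    have hball : ball (0 : ℂ) (min 1 (ε / (N + 1))) ∈ 𝓝 (0 : ℂ) := ball_mem_nhds _ (lt_min one_pos (by positivity))
    filter_upwards [mem_nhdsWithin_of_mem_nhds hball, self_mem_nhdsWithin] with s hs hs0 w hw
    rw [mem_ball, dist_zero_right, lt_min_iff] at hs
    rw [mem_closedBall, dist_zero_right] at hw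
    rw [dist_comm, dist_eq_norm]
    refine lt_of_le_of_lt (hkey s w hs0 hs.1.le (hw.trans (le_max_left _ _))) ?_
    have h1 : ‖P‖ * (‖s‖ * B * J) = ‖s‖ * N := by rw [hN]; ring
    rw [h1]
    have h2 := (lt_div_iff₀ (by positivity : (0 : ℝ) < N + 1)).1 hs.2
    nlinarith [norm_nonneg s]
  · -- the far region
    obtain ⟨B, hB0, hB⟩ := IsoA_dom K 1 hK0 zero_le_one (m + 1)
    obtain ⟨B2, hB20, hB2⟩ := IsoA_dom K 1 hK0 zero_le_one 1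
    have hq0n : 0 < ‖q 0‖ := norm_pos_iff.2 hq0
    have hone : P * ∫ ξ : ℝ, cexp (-(ξ : ℂ) ^ 2 / 2) = 1 := by
      have h1 := HPol_gauss 0 0
      simp only [HPol, Polynomial.eval_one, pow_zero, one_mul] at h1
      exact h1.symm
    set N : ℝ := ‖P‖ * J * (2 * m * B + B2) with hN
    have hN0 : 0 ≤ N := by positivity
    refine ⟨min 1 (‖q 0‖ / (2 * (N + 1))), max 1 (2 * (N + 1) / ‖q 0‖), lt_min one_pos (by positivity),
      lt_max_of_lt_left one_pos, fun s v hv0 hvρ hsv hzero => ?_⟩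
    have hv1 : ‖v‖ ≤ 1 := hvρ.trans (min_le_left _ _)
    have hv2 : ‖v‖ ≤ ‖q 0‖ / (2 * (N + 1)) := hvρ.trans (min_le_right _ _)
    have hvn : 0 < ‖v‖ := norm_pos_iff.2 hv0
    have hs1 : ‖s‖ ≤ ‖v‖ := by
      refine le_trans ?_ hsv
      exact le_mul_of_one_le_left (norm_nonneg s) (le_max_left _ _)
    have hs2 : 2 * (N + 1) / ‖q 0‖ * ‖s‖ ≤ ‖v‖ := by
      refine le_trans ?_ hsv
      exact mul_le_mul_of_nonneg_right (le_max_right _ _) (norm_nonneg s)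
    set η : ℂ := I * (Real.sqrt 2 : ℂ) * (s / v) with hη
    set e : ℝ := ‖s‖ / ‖v‖ with he
    have he0 : 0 ≤ e := by positivity
    have he1 : e ≤ 1 := (div_le_one hvn).2 hs1
    have he2 : e ≤ ‖q 0‖ / (2 * (N + 1)) := by
      rw [he, div_le_div_iff₀ hvn (by positivity)]
      rw [div_mul_eq_mul_div, div_le_iff₀ hq0n] at hs2
      linarith
    have hηn : ‖η‖ ≤ 2 * e := by
      rw [hη, norm_mul, norm_mul, Complex.norm_I, one_mul, norm_div]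
      exact mul_le_mul_of_nonneg_right IsoA_sqrt2 he0
    have hqc := hq.continuous
    have hnu : ∀ ξ : ℝ, ‖v + I * (Real.sqrt 2 : ℂ) * s * ξ‖ ≤ ‖v‖ * (1 + 2 * |ξ|) := by
      intro ξ
      have h1 : ‖I * (Real.sqrt 2 : ℂ) * s * ξ‖ ≤ 2 * ‖v‖ * |ξ| := by
        rw [norm_mul, norm_mul, norm_mul, Complex.norm_I, one_mul, Complex.norm_real ξ, Real.norm_eq_abs]
        exact mul_le_mul_of_nonneg_right (mul_le_mul IsoA_sqrt2 hs1 (norm_nonneg s) (by norm_num)) (abs_nonneg ξ)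
      have h2 := norm_add_le v (I * (Real.sqrt 2 : ℂ) * s * ξ)
      linarith
    have hexp : ∀ ξ : ℝ, Real.exp (K * (1 + ‖v + I * (Real.sqrt 2 : ℂ) * s * ξ‖) ^ (3 / 2 : ℝ)) ≤
        Real.exp (K * (1 + 1 + 2 * |ξ|) ^ (3 / 2 : ℝ)) := by
      intro ξ
      refine Real.exp_le_exp.2 (mul_le_mul_of_nonneg_left ?_ hK0)
      refine Real.rpow_le_rpow (by positivity) ?_ (by norm_num)
      have h1 := hnu ξ
      have h2 : ‖v‖ * (1 + 2 * |ξ|) ≤ 1 * (1 + 2 * |ξ|) := mul_le_mul_of_nonneg_right hv1 (by positivity)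
      linarith
    set Φ1 : ℝ → ℂ := fun ξ => (1 + η * ξ) ^ m * q (v + I * (Real.sqrt 2 : ℂ) * s * ξ) with hΦ1
    have hΦ1c : Continuous Φ1 := by fun_prop
    have hηξ : ∀ ξ : ℝ, ‖η * ξ‖ ≤ 2 * e * |ξ| := by
      intro ξ
      rw [norm_mul, Complex.norm_real, Real.norm_eq_abs]
      exact mul_le_mul_of_nonneg_right hηn (abs_nonneg ξ)
    have hηξ1 : ∀ ξ : ℝ, 1 + ‖η * ξ‖ ≤ 1 + 2 * |ξ| := by
      intro ξ
      have h1 := hηξ ξ
      have h2 : 2 * e * |ξ| ≤ 2 * 1 * |ξ| := by gcongr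
      linarith
    have hdiff : ∀ ξ : ℝ, ‖Φ1 ξ - q 0‖ ≤ (2 * m * e * B + ‖v‖ * B2) * Real.exp (|ξ| ^ 2 / 4) := by
      intro ξ
      have h1 : Φ1 ξ - q 0 = ((1 + η * ξ) ^ m - 1) * q (v + I * (Real.sqrt 2 : ℂ) * s * ξ) +
          (q (v + I * (Real.sqrt 2 : ℂ) * s * ξ) - q 0) := by
        simp only [hΦ1]
        ring
      have h2 : ‖(1 + η * ξ) ^ m - 1‖ ≤ 2 * m * e * (1 + 2 * |ξ|) ^ (m + 1) := by
        refine (IsoA_pow1 m (η * ξ)).trans ?_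
        calc m * ‖η * ξ‖ * (1 + ‖η * ξ‖) ^ m ≤ m * (2 * e * |ξ|) * (1 + 2 * |ξ|) ^ m := by
              gcongr
              · exact hηξ ξ
              · linarith [hηξ1 ξ]
          _ = 2 * m * e * ((1 + 2 * |ξ|) ^ m * |ξ|) := by ring
          _ ≤ 2 * m * e * ((1 + 2 * |ξ|) ^ m * (1 + 2 * |ξ|)) := by
              gcongr
              linarith [abs_nonneg ξ]
          _ = _ := by ring
      have h3 := (hK1 (v + I * (Real.sqrt 2 : ℂ) * s * ξ)).trans (hexp ξ)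
      have h4 : ‖q (v + I * (Real.sqrt 2 : ℂ) * s * ξ) - q 0‖ ≤
          (‖v‖ * (1 + 2 * |ξ|)) * Real.exp (K * (1 + 1 + 2 * |ξ|) ^ (3 / 2 : ℝ)) :=
        (hK2 _).trans (mul_le_mul (hnu ξ) (hexp ξ) (Real.exp_pos _).le (by positivity))
      have h5 := hB |ξ| (abs_nonneg ξ)
      have h6 := hB2 |ξ| (abs_nonneg ξ)
      rw [pow_one] at h6
      rw [h1]
      calc ‖((1 + η * ξ) ^ m - 1) * q (v + I * (Real.sqrt 2 : ℂ) * s * ξ) +
            (q (v + I * (Real.sqrt 2 : ℂ) * s * ξ) - q 0)‖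
          ≤ ‖(1 + η * ξ) ^ m - 1‖ * ‖q (v + I * (Real.sqrt 2 : ℂ) * s * ξ)‖ +
            ‖q (v + I * (Real.sqrt 2 : ℂ) * s * ξ) - q 0‖ := by
            refine (norm_add_le _ _).trans ?_
            rw [norm_mul]
        _ ≤ (2 * m * e * (1 + 2 * |ξ|) ^ (m + 1)) * Real.exp (K * (1 + 1 + 2 * |ξ|) ^ (3 / 2 : ℝ)) +
            (‖v‖ * (1 + 2 * |ξ|)) * Real.exp (K * (1 + 1 + 2 * |ξ|) ^ (3 / 2 : ℝ)) :=
            add_le_add (mul_le_mul h2 h3 (norm_nonneg _) (by positivity)) h4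
        _ = 2 * m * e * ((1 + 2 * |ξ|) ^ (m + 1) * Real.exp (K * (1 + 1 + 2 * |ξ|) ^ (3 / 2 : ℝ))) +
            ‖v‖ * ((1 + 2 * |ξ|) * Real.exp (K * (1 + 1 + 2 * |ξ|) ^ (3 / 2 : ℝ))) := by ring
        _ ≤ 2 * m * e * (B * Real.exp (|ξ| ^ 2 / 4)) + ‖v‖ * (B2 * Real.exp (|ξ| ^ 2 / 4)) :=
            add_le_add (mul_le_mul_of_nonneg_left h5 (by positivity)) (mul_le_mul_of_nonneg_left h6 (norm_nonneg v))
        _ = _ := by ring
    have hcb : ∀ ξ : ℝ, ‖(fun _ : ℝ => q 0) ξ‖ ≤ ‖q 0‖ * Real.exp (|ξ| ^ 2 / 4) := fun ξ =>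
      le_mul_of_one_le_right (norm_nonneg _) (Real.one_le_exp (by positivity))
    have hI2 := IsoA_integrable (Φ := fun _ : ℝ => q 0) continuous_const hcb
    have hI1 : Integrable (fun ξ : ℝ => Φ1 ξ * cexp (-(ξ : ℂ) ^ 2 / 2)) := by
      refine IsoA_integrable hΦ1c (N := (2 * m * e * B + ‖v‖ * B2) + ‖q 0‖) fun ξ => ?_
      have h1 : ‖Φ1 ξ‖ ≤ ‖Φ1 ξ - q 0‖ + ‖q 0‖ := by
        have := norm_add_le (Φ1 ξ - q 0) (q 0)
        rwa [sub_add_cancel] at this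
      have h2 := hdiff ξ
      have h3 := hcb ξ
      simp only at h3
      linarith
    have hrep : HH (t0 + s ^ 2) (z0 + v) = v ^ m * (P * ∫ ξ : ℝ, Φ1 ξ * cexp (-(ξ : ℂ) ^ 2 / 2)) := by
      rw [IsoA_rep hHq s v]
      have h1 : ∫ ξ : ℝ, ((v + I * (Real.sqrt 2 : ℂ) * s * ξ) ^ m * q (v + I * (Real.sqrt 2 : ℂ) * s * ξ)) *
          cexp (-(ξ : ℂ) ^ 2 / 2) = v ^ m * ∫ ξ : ℝ, Φ1 ξ * cexp (-(ξ : ℂ) ^ 2 / 2) := by
        rw [← integral_const_mul]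
        refine integral_congr_ae (Eventually.of_forall fun ξ => ?_)
        simp only [hΦ1]
        have h2 : (v + I * (Real.sqrt 2 : ℂ) * s * ξ) ^ m = v ^ m * (1 + η * ξ) ^ m := by
          rw [← mul_pow, hη]
          congr 1
          field_simp
        rw [h2]
        ring
      rw [h1]
      ring
    have hP0 : P * ∫ ξ : ℝ, Φ1 ξ * cexp (-(ξ : ℂ) ^ 2 / 2) = 0 := by
      rw [hrep] at hzero
      exact (mul_eq_zero.1 hzero).resolve_left (pow_ne_zero m hv0)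
    have hq0eq : q 0 = P * ∫ ξ : ℝ, (fun _ : ℝ => q 0) ξ * cexp (-(ξ : ℂ) ^ 2 / 2) := by
      simp only
      rw [integral_const_mul, ← mul_assoc, mul_comm P, mul_assoc, hone, mul_one]
    have hfin : ‖q 0‖ ≤ ‖P‖ * ((2 * m * e * B + ‖v‖ * B2) * J) := by
      have h1 : -q 0 = P * ∫ ξ : ℝ, (Φ1 ξ - q 0) * cexp (-(ξ : ℂ) ^ 2 / 2) := by
        have h2 : ∫ ξ : ℝ, (Φ1 ξ - q 0) * cexp (-(ξ : ℂ) ^ 2 / 2) =
            (∫ ξ : ℝ, Φ1 ξ * cexp (-(ξ : ℂ) ^ 2 / 2)) - ∫ ξ : ℝ, (fun _ : ℝ => q 0) ξ * cexp (-(ξ : ℂ) ^ 2 / 2) := by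
          rw [← integral_sub hI1 hI2]
          refine integral_congr_ae (Eventually.of_forall fun ξ => ?_)
          simp only
          ring
        rw [h2, mul_sub, hP0, ← hq0eq, zero_sub]
      rw [← norm_neg, h1, norm_mul]
      exact mul_le_mul_of_nonneg_left (IsoA_bound hdiff) (norm_nonneg P)
    have hμ : 2 * m * e * B + ‖v‖ * B2 ≤ (2 * m * B + B2) * (‖q 0‖ / (2 * (N + 1))) := by
      have h1 : 2 * m * e * B ≤ 2 * m * (‖q 0‖ / (2 * (N + 1))) * B := by gcongr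
      have h2 : ‖v‖ * B2 ≤ (‖q 0‖ / (2 * (N + 1))) * B2 := by gcongr
      linarith
    have hlast : ‖P‖ * ((2 * m * e * B + ‖v‖ * B2) * J) ≤ N * (‖q 0‖ / (2 * (N + 1))) := by
      calc ‖P‖ * ((2 * m * e * B + ‖v‖ * B2) * J)
          ≤ ‖P‖ * (((2 * m * B + B2) * (‖q 0‖ / (2 * (N + 1)))) * J) := by gcongr
        _ = _ := by rw [hN]; ring
    have hN1 : N * (‖q 0‖ / (2 * (N + 1))) < ‖q 0‖ := by
      rw [mul_div_assoc', div_lt_iff₀ (by positivity)]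
      nlinarith
    linarith

end Pool.Agent.Lib.MP_ec260d_ntC
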