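import Mathlib
import Pool.Agent.Lib.MP_ec260d_ntC.Defs
import Pool.Agent.Lib.MP_ec260d_ntC.IsoA

/-!
# JOB IsoB: multiple zeros are isolated (about 250 lines)

`m, c, ρ, A` from `iso_scale`.
`iso`: suppose not: there are `t_n → t0`, `t_n ≠ t0`, `z_n → z0` with `HH t_n z_n = 0 = Hz t_n z_n`.  Let `s_n² = t_n - t0`, `s_n ≠ 0`, `s_n → 0`, `v_n = z_n - z0`, `a_n = v_n/s_n`.  By the last part of `iso_scale`, `‖a_n‖ < A` (for `‖v_n‖ ≤ ρ`; if `v_n = 0` trivially).  Put `F_s(w) = HH (t0 + s²)(z0 + s w)/s^m`, entire in `w`; `F_s → c HPol m` uniformly on `closedBall 0 (A+1)`,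
so also the derivatives converge uniformly on `closedBall 0 A` (`TendstoLocallyUniformlyOn.deriv`, or Cauchy estimates).  `F_{s_n}(a_n) = 0`, `F_{s_n}'(a_n) = s_n Hz(t_n, z_n)/s_n^m = 0`.  Take a subsequence `a_n → a`, `‖a‖ ≤ A`: `HPol m (a) = 0` and `(HPol m)'(a) = 0`, contradicting `HPol_simple`.
`double_countable`: let `D` be the set.  For `(t0, z0) ∈ D` there is a neighbourhood which contains no other point of `D`: by `iso` for points with `t ≠ t0`, and for `t = t0` because the zeros of `HH t0` are isolated (`HH_order`).  A set all of whose points are isolated (discrete subspace) in a second countable space is countable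
(`Set.Countable` from `DiscreteTopology` and `SecondCountableTopology`: `TopologicalSpace.SecondCountableTopology` on the subtype, `countable_of_...`).
`real_split`: `m ≥ 2`; `a` a root of `HPol m` with `a.re ≠ 0` (`HPol_re`).  Choose `r > 0` with `r < |a.re|` and `HPol m ≠ 0` on the circle `‖w - a‖ = r`, `μ = min ‖c HPol m‖` on the circle.  For real `δ > 0` small and `s = I δ`: `‖F_s - c HPol m‖ < μ/2` on the closed disc, `F_s(a)` has modulus `< μ/2`, and `‖F_s‖ ≥ μ/2` on the circle, so `F_s` has a zero `w` in the disc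
(otherwise the maximum principle for `1/F_s` gives `‖F_s(a)‖ ≥ μ/2`).  `t = t0 - δ²`, `z = z0 + I δ w`, `z.im = δ w.re ≠ 0` (`z0` real).
-/

namespace Pool.Agent.Lib.MP_ec260d_ntC

open Complex Set Filter Topology Metric MeasureTheory Polynomial

theorem iso (t0 z0 : ℂ) (h : HH t0 z0 = 0) : ∃ ε : ℝ, 0 < ε ∧ ∀ t z : ℂ, t ≠ t0 → ‖t - t0‖ < ε →
    ‖z - z0‖ < ε → HH t z = 0 → Hz t z ≠ 0 := by
  obtain ⟨m, c, hm, hc, -, hU, ρ, A, hρ, hA, hfar⟩ := iso_scale t0 z0 h
  set F : ℂ → ℂ → ℂ := fun s w => HH (t0 + s ^ 2) (z0 + s * w) / s ^ m with hF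
  set g : ℂ → ℂ := fun w => c * (HPol m).eval w with hg
  have hgd : Differentiable ℂ g := by
    rw [hg]
    exact (Polynomial.differentiable (HPol m)).const_mul c
  have hFd : ∀ s, Differentiable ℂ (F s) := by
    intro s
    have h1 : Differentiable ℂ (fun w : ℂ => z0 + s * w) := by fun_prop
    have h2 : Differentiable ℂ (fun w : ℂ => HH (t0 + s ^ 2) (z0 + s * w)) :=
      (HH_diff_z (t0 + s ^ 2)).comp h1
    exact h2.div_const _
  have hFder : ∀ s w, deriv (F s) w = s * Hz (t0 + s ^ 2) (z0 + s * w) / s ^ m := by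
    intro s w
    have h1 : HasDerivAt (fun w : ℂ => z0 + s * w) (s * 1) w :=
      ((hasDerivAt_id w).const_mul s).const_add z0
    have h2 : HasDerivAt (HH (t0 + s ^ 2)) (Hz (t0 + s ^ 2) (z0 + s * w)) (z0 + s * w) :=
      ((HH_diff_z (t0 + s ^ 2)) _).hasDerivAt
    have h3 := (h2.comp w h1).div_const (s ^ m)
    rw [mul_one] at h3
    rw [show F s = fun w => (HH (t0 + s ^ 2) ∘ fun w => z0 + s * w) w / s ^ m from rfl, h3.deriv]
    ring
  have hl1 : TendstoLocallyUniformlyOn F g (𝓝[≠] 0) (ball 0 (A + 1)) :=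
    ((hU (A + 1)).mono ball_subset_closedBall).tendstoLocallyUniformlyOn
  have hl2 : TendstoLocallyUniformlyOn (deriv ∘ F) (deriv g) (𝓝[≠] 0) (ball 0 (A + 1)) :=
    hl1.deriv (Filter.Eventually.of_forall (fun s => (hFd s).differentiableOn)) isOpen_ball
  have hK : closedBall (0 : ℂ) A ⊆ ball 0 (A + 1) := closedBall_subset_ball (by linarith)
  have hu1 : TendstoUniformlyOn F g (𝓝[≠] 0) (closedBall 0 A) :=
    (tendstoLocallyUniformlyOn_iff_forall_isCompact isOpen_ball).mp hl1 _ hK (isCompact_closedBall 0 A)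
  have hu2 : TendstoUniformlyOn (deriv ∘ F) (deriv g) (𝓝[≠] 0) (closedBall 0 A) :=
    (tendstoLocallyUniformlyOn_iff_forall_isCompact isOpen_ball).mp hl2 _ hK (isCompact_closedBall 0 A)
  have hgder : ∀ w, deriv g w = c * (derivative (HPol m)).eval w := by
    intro w
    rw [hg]
    exact (((HPol m).hasDerivAt w).const_mul c).deriv
  have hcont : Continuous (fun w => ‖g w‖ + ‖deriv g w‖) := by
    have h1 : Continuous g := hgd.continuous
    have h2 : Continuous (deriv g) := by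
      rw [show deriv g = fun w => c * (derivative (HPol m)).eval w from funext hgder]
      exact ((derivative (HPol m)).continuous).const_mul c
    exact h1.norm.add h2.norm
  obtain ⟨w0, hw0, hmin⟩ := (isCompact_closedBall (0 : ℂ) A).exists_isMinOn
    ⟨0, mem_closedBall_self hA.le⟩ hcont.continuousOn
  set μ : ℝ := ‖g w0‖ + ‖deriv g w0‖ with hμ
  have hμ0 : 0 < μ := by
    rcases eq_or_ne (g w0) 0 with h1 | h1
    · have h2 : (HPol m).eval w0 = 0 := by
        rcases mul_eq_zero.mp h1 with h3 | h3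
        · exact absurd h3 hc
        · exact h3
      have h3 : deriv g w0 ≠ 0 := by
        rw [hgder]
        exact mul_ne_zero hc (HPol_simple m w0 h2)
      have h4 : 0 < ‖deriv g w0‖ := norm_pos_iff.mpr h3
      have h5 : 0 ≤ ‖g w0‖ := norm_nonneg _
      linarith
    · have h4 : 0 < ‖g w0‖ := norm_pos_iff.mpr h1
      have h5 : 0 ≤ ‖deriv g w0‖ := norm_nonneg _
      linarith
  have hev1 := Metric.tendstoUniformlyOn_iff.mp hu1 (μ / 2) (by linarith)
  have hev2 := Metric.tendstoUniformlyOn_iff.mp hu2 (μ / 2) (by linarith)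
  have hev := hev1.and hev2
  rw [eventually_nhdsWithin_iff, Metric.eventually_nhds_iff] at hev
  obtain ⟨δ, hδ, hδ2⟩ := hev
  refine ⟨min ρ (δ ^ 2), lt_min hρ (by positivity), fun t z htne ht hz hzero hzz => ?_⟩
  obtain ⟨s, hs⟩ := IsAlgClosed.exists_pow_nat_eq (t - t0) (n := 2) (by norm_num)
  have hs0 : s ≠ 0 := by
    rintro rfl
    apply htne
    have : t - t0 = 0 := by
      rw [← hs]
      ring
    exact sub_eq_zero.mp this
  have hsn : ‖s‖ < δ := by
    have h1 : ‖s‖ ^ 2 < δ ^ 2 := by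
      rw [← norm_pow, hs]
      exact lt_of_lt_of_le ht (min_le_right _ _)
    exact lt_of_pow_lt_pow_left₀ 2 hδ.le h1
  have htt : t0 + s ^ 2 = t := by
    rw [hs]
    ring
  have hwA : ‖(z - z0) / s‖ ≤ A := by
    rw [norm_div, div_le_iff₀ (norm_pos_iff.mpr hs0)]
    by_contra hcon
    push Not at hcon
    have hvne : z - z0 ≠ 0 := by
      intro h0
      rw [h0, norm_zero] at hcon
      have : 0 ≤ A * ‖s‖ := by positivity
      linarith
    have h1 := hfar s (z - z0) hvne (lt_of_lt_of_le hz (min_le_left _ _)).le hcon.le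
    rw [htt] at h1
    apply h1
    rw [show z0 + (z - z0) = z by ring]
    exact hzero
  have hmem : (z - z0) / s ∈ closedBall (0 : ℂ) A := by
    rw [mem_closedBall_zero_iff]
    exact hwA
  obtain ⟨e1, e2⟩ := hδ2 (by rw [dist_zero_right]; exact hsn) hs0
  have e1' := e1 _ hmem
  have e2' := e2 _ hmem
  have hzw : z0 + s * ((z - z0) / s) = z := by
    rw [mul_div_cancel₀ _ hs0]
    ring
  have hF0 : F s ((z - z0) / s) = 0 := by
    rw [hF]
    simp only
    rw [hzw, htt, hzero, zero_div]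
  have hF1 : (deriv ∘ F) s ((z - z0) / s) = 0 := by
    rw [Function.comp_apply, hFder, hzw, htt, hzz, mul_zero, zero_div]
  rw [hF0, dist_zero_right] at e1'
  rw [hF1, dist_zero_right] at e2'
  have hmw := isMinOn_iff.mp hmin _ hmem
  linarith

theorem double_countable : {p : ℂ × ℂ | HH p.1 p.2 = 0 ∧ Hz p.1 p.2 = 0}.Countable := by
  set D : Set (ℂ × ℂ) := {p : ℂ × ℂ | HH p.1 p.2 = 0 ∧ Hz p.1 p.2 = 0} with hD
  have hdisc : DiscreteTopology D := by
    rw [discreteTopology_subtype_iff]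
    rintro ⟨t0, z0⟩ ⟨h1, -⟩
    rw [Filter.inf_principal_eq_bot]
    obtain ⟨ε, hε, hiso⟩ := iso t0 z0 h1
    have han : AnalyticAt ℂ (HH t0) z0 := (HH_diff_z t0).analyticAt z0
    have hne : ∀ᶠ z in 𝓝[≠] z0, HH t0 z ≠ 0 := by
      rcases han.eventually_eq_zero_or_eventually_ne_zero with h2 | h2
      · exact absurd (analyticOrderAt_eq_top.mpr h2) (HH_order t0 z0)
      · exact h2
    rw [eventually_nhdsWithin_iff, Metric.eventually_nhds_iff] at hne
    obtain ⟨δ, hδ, hne2⟩ := hne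
    have hev : ∀ᶠ p : ℂ × ℂ in 𝓝[≠] (t0, z0), p ∈ Dᶜ := by
      rw [eventually_nhdsWithin_iff, Metric.eventually_nhds_iff]
      refine ⟨min ε δ, lt_min hε hδ, fun p hp hpne hpD => ?_⟩
      have hp1 : dist p.1 t0 < min ε δ := lt_of_le_of_lt (le_max_left _ _) hp
      have hp2 : dist p.2 z0 < min ε δ := lt_of_le_of_lt (le_max_right _ _) hp
      by_cases ht : p.1 = t0
      · have hz : p.2 ≠ z0 := by
          intro hz
          exact hpne (Prod.ext ht hz)
        have h3 := hne2 (lt_of_lt_of_le hp2 (min_le_right _ _)) hz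
        apply h3
        rw [← ht]
        exact hpD.1
      · exact hiso p.1 p.2 ht (by rw [← dist_eq_norm]; exact lt_of_lt_of_le hp1 (min_le_left _ _))
          (by rw [← dist_eq_norm]; exact lt_of_lt_of_le hp2 (min_le_left _ _)) hpD.1 hpD.2
    exact hev
  have hc : Countable D := countable_of_Lindelof_of_discrete
  exact hc.to_set

theorem real_split (t0 x0 : ℝ) (h : HH t0 x0 = 0) (h' : Hz t0 x0 = 0) (ε : ℝ) (hε : 0 < ε) :
    ∃ t : ℝ, t0 - ε < t ∧ t < t0 ∧ ∃ z : ℂ, z.im ≠ 0 ∧ HH t z = 0 := by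
  obtain ⟨m, c, -, hc, hm, hU, -⟩ := iso_scale (t0 : ℂ) (x0 : ℂ) h
  obtain ⟨a, ha, har⟩ := HPol_re m (hm h')
  have hP : HPol m ≠ 0 := (HPol_monic m).1.ne_zero
  obtain ⟨r, hr, hrn⟩ := (Set.Ioo_infinite (abs_pos.2 har)).exists_notMem_finset
    ((HPol m).roots.toFinset.image fun w => dist w a)
  have hr0 : 0 < r := hr.1
  have hsph : ∀ w ∈ sphere a r, c * (HPol m).eval w ≠ 0 := by
    intro w hw hw0
    rcases mul_eq_zero.1 hw0 with h1 | h1
    · exact hc h1
    · refine hrn (Finset.mem_image.2 ⟨w, ?_, hw⟩)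
      rw [Multiset.mem_toFinset, Polynomial.mem_roots hP]
      exact h1
  obtain ⟨w0, hw0, hmin⟩ := (isCompact_sphere a r).exists_isMinOn
    (NormedSpace.sphere_nonempty.2 hr0.le)
    ((continuous_const.mul (HPol m).continuous).norm.continuousOn :
      ContinuousOn (fun w => ‖c * (HPol m).eval w‖) (sphere a r))
  obtain ⟨μ, hμ⟩ : ∃ μ, μ = ‖c * (HPol m).eval w0‖ := ⟨_, rfl⟩
  have hμ0 : 0 < μ := by
    rw [hμ]
    exact norm_pos_iff.2 (hsph w0 hw0)
  have hmin' : ∀ w ∈ sphere a r, μ ≤ ‖c * (HPol m).eval w‖ := by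
    intro w hw
    rw [hμ]
    exact hmin hw
  have hev := Metric.tendstoUniformlyOn_iff.1 (hU (‖a‖ + r)) (μ / 2) (by linarith)
  rw [eventually_nhdsWithin_iff, Metric.eventually_nhds_iff] at hev
  obtain ⟨η, hη, hev⟩ := hev
  obtain ⟨δ, hδ⟩ : ∃ δ : ℝ, δ = min (η / 2) (min (ε / 2) 1) := ⟨_, rfl⟩
  have hδ0 : 0 < δ := by
    rw [hδ]
    exact lt_min (by linarith) (lt_min (by linarith) one_pos)
  have hδ1 : δ ≤ η / 2 := by
    rw [hδ]
    exact min_le_left _ _
  have hδ2 : δ ≤ ε / 2 := by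
    rw [hδ]
    exact (min_le_right _ _).trans (min_le_left _ _)
  have hδ3 : δ ≤ 1 := by
    rw [hδ]
    exact (min_le_right _ _).trans (min_le_right _ _)
  obtain ⟨s, hs⟩ : ∃ s : ℂ, s = I * δ := ⟨_, rfl⟩
  have hs0 : s ≠ 0 := by
    rw [hs]
    exact mul_ne_zero I_ne_zero (by exact_mod_cast hδ0.ne')
  have hsn : dist s 0 < η := by
    rw [dist_zero_right, hs, norm_mul, Complex.norm_I, one_mul, Complex.norm_real,
      Real.norm_of_nonneg hδ0.le]
    linarith
  have h1 := hev hsn hs0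
  have hss : s ^ 2 = ((-δ ^ 2 : ℝ) : ℂ) := by
    rw [hs, mul_pow, I_sq]
    push_cast
    ring
  have hball : ∀ w ∈ closedBall a r, w ∈ closedBall (0 : ℂ) (‖a‖ + r) := by
    intro w hw
    rw [mem_closedBall, dist_eq_norm] at hw
    rw [mem_closedBall, dist_zero_right]
    have e : w = a + (w - a) := by ring
    calc ‖w‖ = ‖a + (w - a)‖ := by rw [← e]
      _ ≤ ‖a‖ + ‖w - a‖ := norm_add_le _ _
      _ ≤ ‖a‖ + r := by linarith
  have hF : Differentiable ℂ (fun w : ℂ => HH (t0 + s ^ 2) (x0 + s * w) / s ^ m) := by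
    refine Differentiable.div_const ?_ _
    exact (HH_diff_z _).comp ((differentiable_const _).add ((differentiable_const _).mul differentiable_id))
  have hex : ∃ w ∈ closedBall a r, HH (t0 + s ^ 2) (x0 + s * w) / s ^ m = 0 := by
    by_contra hne
    push Not at hne
    have hd : DiffContOnCl ℂ (fun w : ℂ => (HH (t0 + s ^ 2) (x0 + s * w) / s ^ m)⁻¹) (ball a r) := by
      refine DifferentiableOn.diffContOnCl ?_
      rw [closure_ball a hr0.ne']
      exact hF.differentiableOn.inv hne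
    have h2 := Complex.norm_le_of_forall_mem_frontier_norm_le (C := 2 / μ) isBounded_ball hd (by
      intro w hw
      rw [frontier_ball a hr0.ne'] at hw
      have h3 := h1 w (hball w (sphere_subset_closedBall hw))
      rw [dist_eq_norm] at h3
      have h4 := hmin' w hw
      have h5 : μ / 2 ≤ ‖HH (t0 + s ^ 2) (x0 + s * w) / s ^ m‖ := by
        have h6 := norm_sub_norm_le (c * (HPol m).eval w) (HH (t0 + s ^ 2) (x0 + s * w) / s ^ m)
        linarith
      rw [norm_inv]
      calc ‖HH (t0 + s ^ 2) (x0 + s * w) / s ^ m‖⁻¹ ≤ (μ / 2)⁻¹ := inv_anti₀ (by linarith) h5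
        _ = 2 / μ := by rw [inv_div]) (subset_closure (mem_ball_self hr0) : a ∈ closure (ball a r))
    have h3 := h1 a (hball a (mem_closedBall_self hr0.le))
    rw [ha, mul_zero, dist_zero_left] at h3
    have h4 := hne a (mem_closedBall_self hr0.le)
    rw [norm_inv] at h2
    have h5 : 0 < ‖HH (t0 + s ^ 2) (x0 + s * a) / s ^ m‖ := norm_pos_iff.2 h4
    rw [inv_le_comm₀ h5 (by positivity), inv_div] at h2
    linarith
  obtain ⟨w, hw, hwz⟩ := hex
  refine ⟨t0 - δ ^ 2, by nlinarith, by nlinarith, x0 + s * w, ?_, ?_⟩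
  · have h2 : (x0 + s * w : ℂ).im = δ * w.re := by
      rw [hs]
      simp
    rw [h2]
    refine mul_ne_zero hδ0.ne' fun h3 => ?_
    rw [mem_closedBall, dist_eq_norm] at hw
    have h4 := Complex.abs_re_le_norm (w - a)
    rw [Complex.sub_re, h3, zero_sub, abs_neg] at h4
    linarith [hr.2]
  · have h3 : ((t0 - δ ^ 2 : ℝ) : ℂ) = t0 + s ^ 2 := by
      rw [hss]
      push_cast
      ring
    rw [h3]
    rcases div_eq_zero_iff.1 hwz with h4 | h4
    · exact h4
    · exact absurd h4 (pow_ne_zero _ hs0)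

end Pool.Agent.Lib.MP_ec260d_ntC
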