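import Mathlib
import Pool.Agent.Lib.MP_ec260d_ntA.AreaF

/-!
# JOB ArG: area formula with multiplicities (about 200 lines)

`area_mult`: let `W1 = {ξ ∈ W : deriv G ξ ≠ 0}`, open (`deriv G` is continuous on `W`: `DifferentiableOn.analyticOn`); on `W \ W1` the integrand vanishes (`ofReal 0 * _ = 0`).  Every `ξ ∈ W1` has an open ball `B ⊆ W1` on which `G` is injective (inverse function theorem, `HasStrictDerivAt...`/`AnalyticAt` with nonzero derivative is locally injective); by Lindelöf (`TopologicalSpace.isOpen_iUnion_countable` or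
`TopologicalSpace.countable_cover_nhds`-type lemmas) `W1 = ⋃ n, B n` for a sequence of such open sets.  Put `D n = B n \ ⋃_{k<n} B k` (`disjointed`), measurable, pairwise disjoint, union `W1`, `G` injective on `D n`.
`MeasureTheory.lintegral_image_eq_lintegral_abs_det_fderiv_mul` (for a measurable set on which `G` is injective and has a derivative within the set; see the proof of `area_f` in `Pool/Agent/Lib/MP_ec260d_ntA/AreaF.lean` for the determinant `‖deriv G ξ‖²`) gives `∫⁻_{D n} ofReal (‖G'‖²) h(G) = ∫⁻_{G '' D n} h`.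
Sum over `n`: `∫⁻_W = ∑ ∫⁻ 1_{G '' D n} h = ∫⁻ (∑ 1_{G '' D n}) h` (`lintegral_tsum`; `G '' D n` is measurable: `MeasureTheory.measurable_image_of_fderivWithin`), and `∑_n 1_{G '' D n} (w) ≤ N w`: for every finite set of `n` with `w ∈ G '' D n` the preimages are distinct points of `W` over `w`, so the number of these `n` is `≤ N w` by `hN`; take the supremum over finite sets.
-/

namespace Pool.Agent.Lib.MP_ec260d_ntC

open Complex Set Filter Topology Metric MeasureTheory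

/-- a holomorphic function with nonzero derivative is locally injective -/
private lemma arg_inj {G : ℂ → ℂ} {W : Set ℂ} (hW : IsOpen W) (hG : ∀ ξ ∈ W, DifferentiableAt ℂ G ξ) {ξ : ℂ}
    (hξ : ξ ∈ W) (hd : deriv G ξ ≠ 0) : ∃ B : Set ℂ, IsOpen B ∧ ξ ∈ B ∧ InjOn G B := by
  have hA : AnalyticAt ℂ G ξ :=
    DifferentiableOn.analyticAt (fun z hz => (hG z hz).differentiableWithinAt) (hW.mem_nhds hξ)
  have hs : HasStrictDerivAt G (deriv G ξ) ξ := hA.hasStrictDerivAt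
  obtain ⟨B, hB, hBo, hBξ⟩ := _root_.eventually_nhds_iff.mp (hs.eventually_left_inverse hd)
  refine ⟨B, hBo, hBξ, fun x hx y hy hxy => ?_⟩
  rw [← hB x hx, ← hB y hy, hxy]

/-- a sequence of open sets on which the function is injective -/
private lemma arg_seq {G : ℂ → ℂ} {W : Set ℂ} (hW : IsOpen W) (hG : ∀ ξ ∈ W, DifferentiableAt ℂ G ξ) :
    ∃ B : ℕ → Set ℂ, (∀ n, IsOpen (B n)) ∧ (∀ n, InjOn G (B n)) ∧ (∀ n, B n ⊆ W) ∧
      ∀ ξ ∈ W, deriv G ξ ≠ 0 → ξ ∈ ⋃ n, B n := by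
  have hch : ∀ ξ : {ξ : ℂ // ξ ∈ W ∧ deriv G ξ ≠ 0}, ∃ B : Set ℂ, IsOpen B ∧ (ξ : ℂ) ∈ B ∧ InjOn G B :=
    fun ξ => arg_inj hW hG ξ.2.1 ξ.2.2
  choose B hBo hBξ hBi using hch
  have key : ∀ o : Option {ξ : ℂ // ξ ∈ W ∧ deriv G ξ ≠ 0}, IsOpen (o.elim ∅ (fun ξ => B ξ ∩ W)) ∧
      InjOn G (o.elim ∅ (fun ξ => B ξ ∩ W)) ∧ o.elim ∅ (fun ξ => B ξ ∩ W) ⊆ W := by
    rintro (_ | ξ)
    · exact ⟨isOpen_empty, Set.injOn_empty _, empty_subset _⟩
    · exact ⟨(hBo ξ).inter hW, (hBi ξ).mono inter_subset_left, inter_subset_right⟩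
  obtain ⟨T, hTc, hT⟩ := TopologicalSpace.isOpen_iUnion_countable
    (fun o : Option {ξ : ℂ // ξ ∈ W ∧ deriv G ξ ≠ 0} => o.elim ∅ (fun ξ => B ξ ∩ W)) (fun o => (key o).1)
  obtain ⟨f, hf⟩ := (hTc.insert none).exists_eq_range (Set.insert_nonempty _ _)
  refine ⟨fun n => (f n).elim ∅ (fun ξ => B ξ ∩ W), fun n => (key (f n)).1, fun n => (key (f n)).2.1,
    fun n => (key (f n)).2.2, fun ξ hξ hd => ?_⟩
  · have h1 : ξ ∈ ⋃ o : Option {ξ : ℂ // ξ ∈ W ∧ deriv G ξ ≠ 0}, o.elim ∅ (fun ξ => B ξ ∩ W) :=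
      mem_iUnion.mpr ⟨some ⟨ξ, hξ, hd⟩, hBξ ⟨ξ, hξ, hd⟩, hξ⟩
    rw [← hT] at h1
    obtain ⟨o, ho, hξo⟩ := mem_iUnion₂.mp h1
    have h2 : o ∈ insert none T := Or.inr ho
    rw [hf] at h2
    obtain ⟨n, hn⟩ := h2
    refine mem_iUnion.mpr ⟨n, ?_⟩
    rw [← hn] at hξo
    exact hξo

private lemma arg_det (z : ℂ) :
    |((ContinuousLinearMap.toSpanSingleton ℂ z : ℂ →L[ℂ] ℂ).restrictScalars ℝ).det| = ‖z‖ ^ 2 := by
  have h1 : ((ContinuousLinearMap.toSpanSingleton ℂ z : ℂ →L[ℂ] ℂ).restrictScalars ℝ).det =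
      Algebra.norm ℝ z := by
    rw [Algebra.norm_apply]
    unfold ContinuousLinearMap.det
    congr 1
    ext x
    simp [mul_comm]
  rw [h1, Algebra.norm_complex_apply, Complex.normSq_eq_norm_sq, abs_of_nonneg (sq_nonneg _)]

private lemma arg_piece {G : ℂ → ℂ} {D : Set ℂ} (hD : MeasurableSet D) (hG : ∀ ξ ∈ D, DifferentiableAt ℂ G ξ)
    (hinj : InjOn G D) (h : ℂ → ENNReal) :
    MeasurableSet (G '' D) ∧ ∫⁻ w in G '' D, h w = ∫⁻ ξ in D, ENNReal.ofReal (‖deriv G ξ‖ ^ 2) * h (G ξ) := by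
  have h1 : ∀ ξ ∈ D, HasFDerivWithinAt G
      ((ContinuousLinearMap.toSpanSingleton ℂ (deriv G ξ) : ℂ →L[ℂ] ℂ).restrictScalars ℝ) D ξ := by
    intro ξ hξ
    have h2 := (hG ξ hξ).hasDerivAt.hasFDerivAt
    exact (h2.restrictScalars ℝ).hasFDerivWithinAt
  refine ⟨measurable_image_of_fderivWithin hD h1 hinj, ?_⟩
  rw [lintegral_image_eq_lintegral_abs_det_fderiv_mul volume hD h1 hinj h]
  refine lintegral_congr fun ξ => ?_
  rw [arg_det]

theorem area_mult (W : Set ℂ) (hW : IsOpen W) (G : ℂ → ℂ) (hG : ∀ ξ ∈ W, DifferentiableAt ℂ G ξ)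
    (N : ℂ → ENNReal) (hNm : Measurable N)
    (hN : ∀ w, ∀ S : Finset ℂ, (∀ ξ ∈ S, ξ ∈ W ∧ G ξ = w) → (S.card : ENNReal) ≤ N w)
    (h : ℂ → ENNReal) (hm : Measurable h) :
    ∫⁻ ξ in W, ENNReal.ofReal (‖deriv G ξ‖ ^ 2) * h (G ξ) ≤ ∫⁻ w, N w * h w := by
  obtain ⟨B, hBo, hBi, hBW, hBc⟩ := arg_seq hW hG
  have hDm : ∀ n, MeasurableSet (disjointed B n) := MeasurableSet.disjointed fun n => (hBo n).measurableSet
  have hDd : Pairwise (Function.onFun Disjoint (disjointed B)) := disjoint_disjointed B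
  have hDB : ∀ n, disjointed B n ⊆ B n := fun n => disjointed_subset B n
  have hDi : ∀ n, InjOn G (disjointed B n) := fun n => (hBi n).mono (hDB n)
  have hDG : ∀ n, ∀ ξ ∈ disjointed B n, DifferentiableAt ℂ G ξ := fun n ξ hξ => hG ξ (hBW n (hDB n hξ))
  have hU : ⋃ n, disjointed B n = ⋃ n, B n := iUnion_disjointed
  generalize disjointed B = D at hDm hDd hDB hDi hDG hU
  have hp := fun n => arg_piece (hDm n) (hDG n) (hDi n) h
  have hsub : (⋃ n, D n) ⊆ W := by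
    rw [hU]
    exact iUnion_subset hBW
  have h1 : ∫⁻ ξ in W, ENNReal.ofReal (‖deriv G ξ‖ ^ 2) * h (G ξ) =
      ∫⁻ ξ in ⋃ n, D n, ENNReal.ofReal (‖deriv G ξ‖ ^ 2) * h (G ξ) := by
    rw [← lintegral_indicator hW.measurableSet, ← lintegral_indicator (MeasurableSet.iUnion hDm)]
    refine lintegral_congr fun ξ => ?_
    by_cases hξU : ξ ∈ ⋃ n, D n
    · rw [indicator_of_mem hξU, indicator_of_mem (hsub hξU)]
    · rw [indicator_of_notMem hξU]
      by_cases hξW : ξ ∈ W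
      · rw [indicator_of_mem hξW]
        have h2 : deriv G ξ = 0 := by
          by_contra hne
          have h3 := hBc ξ hξW hne
          rw [← hU] at h3
          exact hξU h3
        rw [h2, norm_zero]
        simp
      · rw [indicator_of_notMem hξW]
  rw [h1, lintegral_iUnion hDm hDd]
  have h2 : ∀ n, ∫⁻ ξ in D n, ENNReal.ofReal (‖deriv G ξ‖ ^ 2) * h (G ξ) =
      ∫⁻ w, (G '' D n).indicator h w := by
    intro n
    rw [← (hp n).2, lintegral_indicator (hp n).1]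
  rw [tsum_congr h2, ← lintegral_tsum fun n => (hm.indicator (hp n).1).aemeasurable]
  refine lintegral_mono fun w => ?_
  have h3 : ∀ n, (G '' D n).indicator h w = (G '' D n).indicator (fun _ => (1 : ENNReal)) w * h w := by
    intro n
    by_cases hw : w ∈ G '' D n
    · rw [indicator_of_mem hw, indicator_of_mem hw, one_mul]
    · rw [indicator_of_notMem hw, indicator_of_notMem hw, zero_mul]
  rw [tsum_congr h3, ENNReal.tsum_mul_right]
  refine mul_le_mul_left ?_ (h w)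
  rw [ENNReal.tsum_eq_iSup_sum]
  refine iSup_le fun s => ?_
  classical
  have h4 : ∑ n ∈ s, (G '' D n).indicator (fun _ => (1 : ENNReal)) w =
      ((s.filter (fun n => w ∈ G '' D n)).card : ENNReal) := by
    rw [Finset.card_filter, Nat.cast_sum]
    refine Finset.sum_congr rfl fun n _ => ?_
    by_cases hw : w ∈ G '' D n
    · rw [indicator_of_mem hw, if_pos hw, Nat.cast_one]
    · rw [indicator_of_notMem hw, if_neg hw, Nat.cast_zero]
  rw [h4]
  have h5 : ∀ n, ∃ ξ : ℂ, w ∈ G '' D n → ξ ∈ D n ∧ G ξ = w := by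
    intro n
    by_cases hw : w ∈ G '' D n
    · obtain ⟨ξ, hξ⟩ := hw
      exact ⟨ξ, fun _ => hξ⟩
    · exact ⟨0, fun h => absurd h hw⟩
  choose ξ hξ using h5
  have h6 : ((s.filter (fun n => w ∈ G '' D n)).image ξ).card = (s.filter (fun n => w ∈ G '' D n)).card := by
    refine Finset.card_image_of_injOn fun m hm n hn hmn => ?_
    by_contra hne
    have hm' := (hξ m (Finset.mem_filter.mp (Finset.mem_coe.mp hm)).2).1
    have hn' := (hξ n (Finset.mem_filter.mp (Finset.mem_coe.mp hn)).2).1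
    have hmn' : ξ m = ξ n := hmn
    rw [hmn'] at hm'
    exact Set.disjoint_left.mp (hDd hne) hm' hn'
  rw [← h6]
  refine hN w _ fun z hz => ?_
  obtain ⟨n, hn, rfl⟩ := Finset.mem_image.mp hz
  have h7 := hξ n (Finset.mem_filter.mp hn).2
  exact ⟨hsub (mem_iUnion.mpr ⟨n, h7.1⟩), h7.2⟩

end Pool.Agent.Lib.MP_ec260d_ntC
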