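import Mathlib
import Pool.Agent.Lib.MP_ec260d_ntC.Defs

/-!
# The comparison function for the growth of H_0
-/

namespace Pool.Agent.Lib.MP_ec260d_ntC

open Complex

/-- the modulus of `H_0` at the point with the same real part and imaginary part `- max |Im z| 3` -/
noncomputable def GG (z : ℂ) : ℝ := ‖HH 0 ((z.re : ℂ) - I * ((max |z.im| 3 : ℝ) : ℂ))‖

end Pool.Agent.Lib.MP_ec260d_ntC
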