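import Mathlib
import Pool.Agent.Lib.MP_ec260d_ntC.Defs
import Pool.Agent.Lib.MP_ec260d_ntC.HB
import Pool.Agent.Lib.MP_00e05b_nt.Xi
import Pool.Agent.Lib.MP_00e05b_nt.Star

/-!
# JOB HX: H_0 is Riemann's xi function (about 250 lines)

`xi s = s (1 - s) Λ(s)` (`Pool.Agent.Lib.MP_00e05b_nt.xi`, `xi_eq`), `s = 1/2 + i z / 2`.  Both sides are entire in `z` (`HH_diff_z`, `differentiable_xi`), so by the identity theorem it suffices to prove `HX` for `z = -i y` with real `y > 5` (an accumulating set), i.e. `s = (1 + y)/2 > 3` real (or for all `z` with `Re s > 3`).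
By `HH_line` at `t = 0`: `HH 0 z = 1/2 ∫_ℝ Ph u e^{(2s-1)u} du` (`I z = 2 s - 1`).  Termwise: with `x = π n² e^{4u}` (`∫_ℝ f(e^{4u}) ...`: substitution, `MeasureTheory.integral_comp_exp` style or `Complex.Gamma` as a Mellin transform: `∫_0^∞ x^{a-1} e^{-x} dx = Γ(a)`, `u = (log (x/(π n²)))/4`)
`∫_ℝ e^{(a)(4u)} e^{-π n² e^{4u}} du = (1/4) (π n²)^{-a} Γ(a)` for `Re a > 0`.  So
`∫_ℝ phn n u e^{(2s-1)u} du = 2π²n⁴ (1/4)(πn²)^{-(2+s/2)} Γ(2 + s/2) - 3πn² (1/4) (πn²)^{-(1+s/2)} Γ(1 + s/2) = (πn²)^{-s/2} Γ(1+s/2) [ (1 + s/2)/2 - 3/4 ] = (πn²)^{-s/2} Γ(s/2) s (s-1)/8`.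
Sum over `n ≥ 1` (Fubini: `MeasureTheory.hasSum_integral_of_summable_integral_norm`; the integral of the norm of the `n`-th term is `≤ C n^{-2}` for `Re s > 3`, same computation with `|s|` replaced by `Re s` and a plus sign): `HH 0 z = (s(s-1)/16) π^{-s/2} Γ(s/2) ζ(s) = (s(s-1)/16) Λ(s) = -(1/16) xi s`
(`riemannZeta_def_of_ne_zero`/`completedRiemannZeta` and `zeta_eq_tsum_one_div_nat_add_one_cpow`).
`HX_zero_iff`: `xi s = 0` implies `0 < Re s < 1` (`xi_zero_re`) and then `xi_eq_zeta`-like: `xi s = s (1-s) Gammaℝ(s) ζ(s)` with `Gammaℝ(s) ≠ 0` for `Re s > 0`; conversely in the strip `ζ s = 0` gives `xi s = 0`.  `Re (1/2 + i z/2) = 1/2 - Im z/2`.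
-/

namespace Pool.Agent.Lib.MP_ec260d_ntC

open Complex Set Filter Topology Metric MeasureTheory

/-- the substitution `t = exp (4 u)` -/
private lemma hx_image : (fun u : ℝ => Real.exp (4 * u)) '' (univ : Set ℝ) = Ioi 0 := by
  ext t
  simp only [mem_image, mem_univ, true_and, mem_Ioi]
  constructor
  · rintro ⟨u, rfl⟩
    exact Real.exp_pos _
  · intro ht
    refine ⟨Real.log t / 4, ?_⟩
    have : 4 * (Real.log t / 4) = Real.log t := by ring
    rw [this, Real.exp_log ht]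

private lemma hx_deriv (u : ℝ) :
    HasDerivWithinAt (fun u : ℝ => Real.exp (4 * u)) (4 * Real.exp (4 * u)) univ u := by
  have h1 : HasDerivAt (fun u : ℝ => 4 * u) (4 * 1) u := (hasDerivAt_id u).const_mul 4
  have h2 := h1.exp
  simp only [mul_one] at h2
  rw [mul_comm]
  exact h2.hasDerivWithinAt

private lemma hx_inj : InjOn (fun u : ℝ => Real.exp (4 * u)) univ := by
  intro a _ b _ h
  have := Real.exp_injective h
  linarith

private lemma hx_gamma (a : ℂ) (ha : 0 < a.re) (c : ℝ) (hc : 0 < c) :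
    ∫ u : ℝ, cexp (4 * a * u) * cexp (-(c * cexp (4 * u))) =
      1 / 4 * ((1 / (c : ℂ)) ^ a * Complex.Gamma a) := by
  have h1 := Complex.integral_cpow_mul_exp_neg_mul_Ioi ha hc
  rw [← hx_image, integral_image_eq_integral_abs_deriv_smul MeasurableSet.univ
    (fun x _ => hx_deriv x) hx_inj, setIntegral_univ] at h1
  rw [← h1, ← integral_const_mul]
  congr 1
  funext u
  have e1 : |4 * Real.exp (4 * u)| = 4 * Real.exp (4 * u) := abs_of_pos (by positivity)
  rw [e1, Complex.real_smul]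
  have e2 : ((Real.exp (4 * u) : ℝ) : ℂ) = cexp (4 * u) := by push_cast; rfl
  have e3 : ((Real.exp (4 * u) : ℝ) : ℂ) ^ (a - 1) = cexp (4 * u * (a - 1)) := by
    rw [Complex.cpow_def_of_ne_zero (by exact_mod_cast (Real.exp_pos _).ne'),
      ← Complex.ofReal_log (Real.exp_pos _).le, Real.log_exp]
    push_cast
    rfl
  rw [e3]
  push_cast
  have e4 : cexp (4 * a * u) = cexp (4 * u) * cexp (4 * u * (a - 1)) := by
    rw [← Complex.exp_add]
    congr 1
    ring
  rw [e4]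
  ring

private lemma hx_gamma_real (a : ℝ) (ha : 0 < a) (c : ℝ) (hc : 0 < c) :
    ∫ u : ℝ, Real.exp (4 * a * u) * Real.exp (-(c * Real.exp (4 * u))) =
      1 / 4 * ((1 / c) ^ a * Real.Gamma a) := by
  have h1 := Real.integral_rpow_mul_exp_neg_mul_Ioi ha hc
  rw [← hx_image, integral_image_eq_integral_abs_deriv_smul MeasurableSet.univ
    (fun x _ => hx_deriv x) hx_inj, setIntegral_univ] at h1
  rw [← h1, ← integral_const_mul]
  congr 1
  funext u
  have e1 : |4 * Real.exp (4 * u)| = 4 * Real.exp (4 * u) := abs_of_pos (by positivity)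
  rw [e1, smul_eq_mul]
  have e3 : (Real.exp (4 * u)) ^ (a - 1) = Real.exp (4 * u * (a - 1)) := by
    rw [← Real.exp_mul]
  rw [e3]
  have e4 : Real.exp (4 * a * u) = Real.exp (4 * u) * Real.exp (4 * u * (a - 1)) := by
    rw [← Real.exp_add]
    congr 1
    ring
  rw [e4]
  ring

private lemma hx_int_real (a : ℝ) (ha : 0 < a) (c : ℝ) (hc : 0 < c) :
    Integrable (fun u : ℝ => Real.exp (4 * a * u) * Real.exp (-(c * Real.exp (4 * u)))) := by
  have h0 : IntegrableOn (fun x : ℝ => x ^ (a - 1) * Real.exp (-c * x ^ (1 : ℝ))) (Ioi 0) :=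
    integrableOn_rpow_mul_exp_neg_mul_rpow (by linarith) (by norm_num) hc
  rw [← hx_image, integrableOn_image_iff_integrableOn_abs_deriv_smul MeasurableSet.univ
    (fun x _ => hx_deriv x) hx_inj, integrableOn_univ] at h0
  refine (h0.const_mul (1 / 4)).congr ?_
  filter_upwards with u
  have e1 : |4 * Real.exp (4 * u)| = 4 * Real.exp (4 * u) := abs_of_pos (by positivity)
  rw [e1, smul_eq_mul]
  have e3 : (Real.exp (4 * u)) ^ (a - 1) = Real.exp (4 * u * (a - 1)) := by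
    rw [← Real.exp_mul]
  rw [e3, Real.rpow_one]
  have e4 : Real.exp (4 * a * u) = Real.exp (4 * u) * Real.exp (4 * u * (a - 1)) := by
    rw [← Real.exp_add]
    congr 1
    ring
  rw [e4, neg_mul]
  ring

private lemma hx_norm (a : ℂ) (c u : ℝ) : ‖cexp (4 * a * u) * cexp (-(c * cexp (4 * u)))‖ =
    Real.exp (4 * a.re * u) * Real.exp (-(c * Real.exp (4 * u))) := by
  rw [norm_mul, Complex.norm_exp, Complex.norm_exp]
  have e2 : cexp (4 * u) = ((Real.exp (4 * u) : ℝ) : ℂ) := by push_cast; rfl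
  have e3 : (4 * a * (u : ℂ)).re = 4 * a.re * u := by
    simp [Complex.mul_re]
  have e4 : (-((c : ℂ) * cexp (4 * u))).re = -(c * Real.exp (4 * u)) := by
    rw [e2, ← Complex.ofReal_mul, ← Complex.ofReal_neg, Complex.ofReal_re]
  rw [e3, e4]

private lemma hx_int (a : ℂ) (ha : 0 < a.re) (c : ℝ) (hc : 0 < c) :
    Integrable (fun u : ℝ => cexp (4 * a * u) * cexp (-(c * cexp (4 * u)))) := by
  refine (hx_int_real a.re ha c hc).mono ?_ ?_
  · apply Continuous.aestronglyMeasurable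
    fun_prop
  · filter_upwards with u
    rw [hx_norm, Real.norm_eq_abs, abs_of_pos (by positivity)]

/-- the `n`-th integrand as a combination of two exponentials -/
private lemma hx_term (n : ℕ) (s : ℂ) (u : ℝ) : phn n u * cexp ((2 * s - 1) * u) =
    2 * Real.pi ^ 2 * n ^ 4 * (cexp (4 * (s / 2 + 2) * u) *
      cexp (-((Real.pi * n ^ 2 : ℝ) * cexp (4 * u)))) -
    3 * Real.pi * n ^ 2 * (cexp (4 * (s / 2 + 1) * u) *
      cexp (-((Real.pi * n ^ 2 : ℝ) * cexp (4 * u)))) := by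
  unfold phn
  have e1 : cexp (4 * (s / 2 + 2) * u) = cexp (9 * u) * cexp ((2 * s - 1) * u) := by
    rw [← Complex.exp_add]
    congr 1
    ring
  have e2 : cexp (4 * (s / 2 + 1) * u) = cexp (5 * u) * cexp ((2 * s - 1) * u) := by
    rw [← Complex.exp_add]
    congr 1
    ring
  rw [e1, e2]
  push_cast
  ring

private lemma hx_term_int (n : ℕ) (hn : 0 < n) (s : ℂ) (hs : 0 < s.re) :
    Integrable (fun u : ℝ => phn n u * cexp ((2 * s - 1) * u)) := by
  have hc : 0 < Real.pi * (n : ℝ) ^ 2 := by positivity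
  simp_rw [hx_term]
  apply Integrable.sub
  · apply Integrable.const_mul
    apply hx_int _ _ _ hc
    simp only [Complex.add_re, Complex.div_ofNat_re, Complex.re_ofNat]
    linarith
  · apply Integrable.const_mul
    apply hx_int _ _ _ hc
    simp only [Complex.add_re, Complex.div_ofNat_re, Complex.one_re]
    linarith

private lemma hx_term_val (n : ℕ) (hn : 0 < n) (s : ℂ) (hs : 0 < s.re) :
    ∫ u : ℝ, phn n u * cexp ((2 * s - 1) * u) =
      s * (s - 1) / 8 * (Real.pi : ℂ) ^ (-s / 2) * Complex.Gamma (s / 2) * (1 / (n : ℂ) ^ s) := by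
  have hc : 0 < Real.pi * (n : ℝ) ^ 2 := by positivity
  have hn' : (n : ℂ) ≠ 0 := by exact_mod_cast hn.ne'
  have hpi : (Real.pi : ℂ) ≠ 0 := by exact_mod_cast Real.pi_ne_zero
  have hs0 : s ≠ 0 := by rintro rfl; simp at hs
  have r2 : 0 < (s / 2 + 2).re := by
    simp only [Complex.add_re, Complex.div_ofNat_re, Complex.re_ofNat]
    linarith
  have r1 : 0 < (s / 2 + 1).re := by
    simp only [Complex.add_re, Complex.div_ofNat_re, Complex.one_re]
    linarith
  simp_rw [hx_term]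
  rw [integral_sub, integral_const_mul, integral_const_mul, hx_gamma _ r2 _ hc,
    hx_gamma _ r1 _ hc]
  rotate_left
  · exact (hx_int _ r2 _ hc).const_mul _
  · exact (hx_int _ r1 _ hc).const_mul _
  have hC : (1 / ((Real.pi * n ^ 2 : ℝ) : ℂ)) ≠ 0 := by
    rw [one_div]
    apply inv_ne_zero
    exact_mod_cast hc.ne'
  have g1 : Complex.Gamma (s / 2 + 1) = s / 2 * Complex.Gamma (s / 2) :=
    Complex.Gamma_add_one _ (div_ne_zero hs0 two_ne_zero)
  have g2 : Complex.Gamma (s / 2 + 2) = (s / 2 + 1) * (s / 2 * Complex.Gamma (s / 2)) := by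
    have : s / 2 + 2 = (s / 2 + 1) + 1 := by ring
    rw [this, Complex.Gamma_add_one, g1]
    intro h
    rw [h] at r1
    simp at r1
  have p1 : (1 / ((Real.pi * n ^ 2 : ℝ) : ℂ)) ^ (s / 2 + 1) =
      (1 / ((Real.pi * n ^ 2 : ℝ) : ℂ)) ^ (s / 2) * (1 / ((Real.pi * n ^ 2 : ℝ) : ℂ)) := by
    rw [Complex.cpow_add _ _ hC, Complex.cpow_one]
  have p2 : (1 / ((Real.pi * n ^ 2 : ℝ) : ℂ)) ^ (s / 2 + 2) =
      (1 / ((Real.pi * n ^ 2 : ℝ) : ℂ)) ^ (s / 2) * (1 / ((Real.pi * n ^ 2 : ℝ) : ℂ)) ^ 2 := by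
    rw [Complex.cpow_add _ _ hC]
    congr 1
    exact_mod_cast Complex.cpow_natCast (1 / ((Real.pi * n ^ 2 : ℝ) : ℂ)) 2
  have p0 : (1 / ((Real.pi * n ^ 2 : ℝ) : ℂ)) ^ (s / 2) =
      (Real.pi : ℂ) ^ (-s / 2) * (1 / (n : ℂ) ^ s) := by
    have q1 : (1 / ((Real.pi * n ^ 2 : ℝ) : ℂ)) = ((1 / (Real.pi * n ^ 2) : ℝ) : ℂ) := by
      push_cast
      rfl
    have q2 : (0 : ℝ) < 1 / (Real.pi * n ^ 2) := by positivity
    rw [q1, Complex.cpow_def_of_ne_zero (by exact_mod_cast q2.ne'), ← Complex.ofReal_log q2.le,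
      Complex.cpow_def_of_ne_zero hpi, Complex.cpow_def_of_ne_zero hn', one_div,
      one_div, ← Complex.exp_neg, ← Complex.exp_add, ← Complex.ofReal_log Real.pi_pos.le,
      ← Complex.natCast_log]
    congr 1
    have q3 : Real.log (Real.pi * (n : ℝ) ^ 2)⁻¹ = -(Real.log Real.pi + 2 * Real.log n) := by
      rw [Real.log_inv, Real.log_mul Real.pi_ne_zero (by positivity), Real.log_pow]
      push_cast
      ring
    rw [q3]
    push_cast
    ring
  rw [p1, p2, p0, g1, g2]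
  push_cast
  field_simp
  ring

private lemma hx_norm_bound (s : ℂ) (hs : 0 < s.re) : ∃ C : ℝ, 0 ≤ C ∧ ∀ n : ℕ, 0 < n →
    ∫ u : ℝ, ‖phn n u * cexp ((2 * s - 1) * u)‖ ≤ C * (1 / (n : ℝ) ^ s.re) := by
  refine ⟨(1 / 2 * Real.Gamma (s.re / 2 + 2) + 3 / 4 * Real.Gamma (s.re / 2 + 1)) *
    Real.pi ^ (-s.re / 2), ?_, ?_⟩
  · have h1 : 0 < Real.Gamma (s.re / 2 + 2) := Real.Gamma_pos_of_pos (by linarith)
    have h2 : 0 < Real.Gamma (s.re / 2 + 1) := Real.Gamma_pos_of_pos (by linarith)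
    positivity
  intro n hn
  have hn' : (0 : ℝ) < n := by exact_mod_cast hn
  have hc : 0 < Real.pi * (n : ℝ) ^ 2 := by positivity
  have r2 : 0 < s.re / 2 + 2 := by linarith
  have r1 : 0 < s.re / 2 + 1 := by linarith
  have e2 : (s / 2 + 2).re = s.re / 2 + 2 := by
    simp only [Complex.add_re, Complex.div_ofNat_re, Complex.re_ofNat]
  have e1 : (s / 2 + 1).re = s.re / 2 + 1 := by
    simp only [Complex.add_re, Complex.div_ofNat_re, Complex.one_re]
  have hle : ∀ u : ℝ, ‖phn n u * cexp ((2 * s - 1) * u)‖ ≤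
      2 * Real.pi ^ 2 * (n : ℝ) ^ 4 * (Real.exp (4 * (s.re / 2 + 2) * u) *
        Real.exp (-((Real.pi * (n : ℝ) ^ 2) * Real.exp (4 * u)))) +
      3 * Real.pi * (n : ℝ) ^ 2 * (Real.exp (4 * (s.re / 2 + 1) * u) *
        Real.exp (-((Real.pi * (n : ℝ) ^ 2) * Real.exp (4 * u)))) := by
    intro u
    rw [hx_term]
    refine (norm_sub_le _ _).trans ?_
    rw [norm_mul, norm_mul _ (cexp (4 * (s / 2 + 1) * u) * _), hx_norm, hx_norm, e1, e2]
    apply le_of_eq
    congr 2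
    · simp [abs_of_pos Real.pi_pos]
    · simp [abs_of_pos Real.pi_pos]
  refine (integral_mono (hx_term_int n hn s hs).norm ?_ hle).trans ?_
  · apply Integrable.add
    · exact (hx_int_real _ r2 _ hc).const_mul _
    · exact (hx_int_real _ r1 _ hc).const_mul _
  rw [integral_add, integral_const_mul, integral_const_mul, hx_gamma_real _ r2 _ hc,
    hx_gamma_real _ r1 _ hc]
  rotate_left
  · exact (hx_int_real _ r2 _ hc).const_mul _
  · exact (hx_int_real _ r1 _ hc).const_mul _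
  have hC : 0 < 1 / (Real.pi * (n : ℝ) ^ 2) := by positivity
  have p1 : (1 / (Real.pi * (n : ℝ) ^ 2)) ^ (s.re / 2 + 1) =
      (1 / (Real.pi * (n : ℝ) ^ 2)) ^ (s.re / 2) * (1 / (Real.pi * (n : ℝ) ^ 2)) := by
    rw [Real.rpow_add hC, Real.rpow_one]
  have p2 : (1 / (Real.pi * (n : ℝ) ^ 2)) ^ (s.re / 2 + 2) =
      (1 / (Real.pi * (n : ℝ) ^ 2)) ^ (s.re / 2) * (1 / (Real.pi * (n : ℝ) ^ 2)) ^ 2 := by
    rw [Real.rpow_add hC, Real.rpow_two]
  have p0 : (1 / (Real.pi * (n : ℝ) ^ 2)) ^ (s.re / 2) =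
      Real.pi ^ (-s.re / 2) * (1 / (n : ℝ) ^ s.re) := by
    rw [Real.rpow_def_of_pos hC, Real.rpow_def_of_pos Real.pi_pos, Real.rpow_def_of_pos hn',
      one_div (Real.exp _), ← Real.exp_neg, ← Real.exp_add]
    congr 1
    rw [one_div, Real.log_inv, Real.log_mul Real.pi_ne_zero (by positivity), Real.log_pow]
    push_cast
    ring
  rw [p1, p2, p0]
  apply le_of_eq
  field_simp
  ring

private lemma hx_sum (s : ℂ) (hs : 1 < s.re) : ∫ u : ℝ, Ph u * cexp ((2 * s - 1) * u) =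
    s * (s - 1) / 8 * (Real.pi : ℂ) ^ (-s / 2) * Complex.Gamma (s / 2) * riemannZeta s := by
  have hs0 : 0 < s.re := by linarith
  obtain ⟨C, hC, hb⟩ := hx_norm_bound s hs0
  have h1 : ∀ n : ℕ, Integrable (fun u : ℝ => phn (n + 1) u * cexp ((2 * s - 1) * u)) :=
    fun n => hx_term_int (n + 1) (by omega) s hs0
  have h2 : Summable fun n : ℕ => ∫ u : ℝ, ‖phn (n + 1) u * cexp ((2 * s - 1) * u)‖ := by
    have h3 : Summable (fun n : ℕ => C * (1 / ((n + 1 : ℕ) : ℝ) ^ s.re)) := by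
      apply Summable.mul_left
      exact (summable_nat_add_iff 1).2 (Real.summable_one_div_nat_rpow.2 hs)
    refine Summable.of_nonneg_of_le (fun n => ?_) (fun n => hb (n + 1) (by omega)) h3
    exact integral_nonneg (fun u => norm_nonneg _)
  have h4 := hasSum_integral_of_summable_integral_norm h1 h2
  have h5 : ∀ u : ℝ, ∑' n : ℕ, phn (n + 1) u * cexp ((2 * s - 1) * u) =
      Ph u * cexp ((2 * s - 1) * u) := by
    intro u
    rw [tsum_mul_right]
    rfl
  simp_rw [h5] at h4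
  rw [← h4.tsum_eq]
  have h6 : ∀ n : ℕ, ∫ u : ℝ, phn (n + 1) u * cexp ((2 * s - 1) * u) =
      s * (s - 1) / 8 * (Real.pi : ℂ) ^ (-s / 2) * Complex.Gamma (s / 2) *
        (1 / ((n : ℂ) + 1) ^ s) := by
    intro n
    rw [hx_term_val (n + 1) (by omega) s hs0]
    push_cast
    rfl
  simp_rw [h6]
  rw [tsum_mul_left, zeta_eq_tsum_one_div_nat_add_one_cpow hs]

private lemma hx_right (z : ℂ) (hz : z.im < -1) :
    HH 0 z = -(1 / 16) * Pool.Agent.Lib.MP_00e05b_nt.xi (1 / 2 + I * z / 2) := by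
  set s : ℂ := 1 / 2 + I * z / 2 with hs
  have hre : s.re = 1 / 2 - z.im / 2 := by
    rw [hs]
    simp [Complex.add_re, Complex.mul_re]
    ring
  have hs1 : 1 < s.re := by rw [hre]; linarith
  have h1 : I * z = 2 * s - 1 := by rw [hs]; ring
  have hs1' : s ≠ 1 := by
    intro h
    rw [h] at hs1
    simp at hs1
  rw [HH_line, h1]
  have h2 : ∀ u : ℝ, cexp (0 * (u : ℂ) ^ 2) * Ph u * cexp ((2 * s - 1) * u) =
      Ph u * cexp ((2 * s - 1) * u) := by
    intro u
    simp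
  simp_rw [h2]
  rw [hx_sum s hs1, Pool.Agent.Lib.MP_00e05b_nt.xi_eq_zeta (by linarith) hs1', Complex.Gammaℝ_def]
  ring

theorem HX (z : ℂ) : HH 0 z = -(1 / 16) * Pool.Agent.Lib.MP_00e05b_nt.xi (1 / 2 + I * z / 2) := by
  have h1 : AnalyticOnNhd ℂ (HH 0) univ := (HH_diff_z 0).differentiableOn.analyticOnNhd isOpen_univ
  have h2 : AnalyticOnNhd ℂ
      (fun z => -(1 / 16) * Pool.Agent.Lib.MP_00e05b_nt.xi (1 / 2 + I * z / 2)) univ := by
    apply DifferentiableOn.analyticOnNhd _ isOpen_univ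
    have := Pool.Agent.Lib.MP_00e05b_nt.differentiable_xi
    have h3 : Differentiable ℂ (fun z : ℂ => (1 / 2 + I * z / 2 : ℂ)) := by fun_prop
    exact ((this.comp h3).const_mul _).differentiableOn
  have h3 : HH 0 =ᶠ[𝓝 (-(2 * I))]
      (fun z => -(1 / 16) * Pool.Agent.Lib.MP_00e05b_nt.xi (1 / 2 + I * z / 2)) := by
    have h4 : {z : ℂ | z.im < -1} ∈ 𝓝 (-(2 * I)) := by
      apply (isOpen_lt Complex.continuous_im continuous_const).mem_nhds
      simp
    filter_upwards [h4] with z hz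
    exact hx_right z hz
  have h5 := h1.eq_of_eventuallyEq h2 h3
  exact congrFun h5 z

theorem HX_zero_iff (z : ℂ) : HH 0 z = 0 ↔
    riemannZeta (1 / 2 + I * z / 2) = 0 ∧ 0 < (1 / 2 + I * z / 2).re ∧ (1 / 2 + I * z / 2).re < 1 := by
  rw [HX]
  set s : ℂ := 1 / 2 + I * z / 2 with hs
  constructor
  · intro h
    have h1 : Pool.Agent.Lib.MP_00e05b_nt.xi s = 0 := by
      rcases mul_eq_zero.1 h with h | h
      · norm_num at h
      · exact h
    obtain ⟨h2, h3⟩ := Pool.Agent.Lib.MP_00e05b_nt.xi_zero_re h1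
    refine ⟨?_, h2, h3⟩
    have hs1 : s ≠ 1 := by
      intro h
      rw [h] at h3
      simp at h3
    have hs0 : s ≠ 0 := by
      intro h
      rw [h] at h2
      simp at h2
    rw [Pool.Agent.Lib.MP_00e05b_nt.xi_eq_zeta h2 hs1] at h1
    have h4 := Gammaℝ_ne_zero_of_re_pos h2
    rcases mul_eq_zero.1 h1 with h5 | h5
    · exfalso
      rcases mul_eq_zero.1 h5 with h6 | h6
      · rcases mul_eq_zero.1 h6 with h7 | h7
        · exact hs0 h7
        · exact hs1 (sub_eq_zero.1 h7).symm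
      · exact h4 h6
    · exact h5
  · rintro ⟨h1, h2, h3⟩
    have hs1 : s ≠ 1 := by
      intro h
      rw [h] at h3
      simp at h3
    rw [Pool.Agent.Lib.MP_00e05b_nt.xi_eq_zeta h2 hs1, h1]
    simp

theorem HX_completed (z : ℂ) (h0 : 1 / 2 + I * z / 2 ≠ 0) (h1 : 1 / 2 + I * z / 2 ≠ 1) :
    HH 0 z = (1 / 2 + I * z / 2) * ((1 / 2 + I * z / 2) - 1) / 16 *
      completedRiemannZeta (1 / 2 + I * z / 2) := by
  rw [HX, Pool.Agent.Lib.MP_00e05b_nt.xi_eq h0 h1]
  ring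

end Pool.Agent.Lib.MP_ec260d_ntC
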