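import Mathlib
import Pool.Agent.Lib.MP_ec260d_ntC.DefsG
import Pool.Agent.Lib.MP_ec260d_ntC.HX
import Pool.Agent.Lib.MP_ec260d_nt.LogDerivXi
import Pool.Agent.Lib.MP_ec260d_nt.DigammaC
import Pool.Agent.Lib.MP_ec260d_nt.ZetaInt

/-!
# JOB LDx: the logarithmic derivative of H_0 outside of the strip (about 150 lines)

`HX`: `HH 0 z = -(1/16) xi (1/2 + I z/2)`, so `Hz 0 z = -(1/16) (I/2) xi' (s)`, `s = 1/2 + I z / 2`.
First `z.im ≤ -2`: `Re s = 1/2 - z.im/2 ≥ 3/2`.  `HH 0 z ≠ 0` (`xi_ne_zero` for `1 ≤ Re s`, file `MP_00e05b_nt/Star.lean`).  `logDeriv_xi_formula`: `xi'/xi(s) = 1/s + 1/(s-1) - log π/2 + digamma (s/2)/2 + ζ'/ζ (s)`.  `‖1/s‖ ≤ 1`, `‖1/(s-1)‖ ≤ 2`.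
`‖ζ'/ζ (s)‖ ≤ ∑ Λ(n) n^{-3/2} < ∞` (`ArithmeticFunction.LSeries_vonMangoldt_eq_deriv_riemannZeta_div` for `1 < Re s`; norm of the LSeries `≤ ∑ Λ(n) n^{-3/2}`, `LSeriesSummable`).
`digamma`: for `Re w ≥ 3/4`, `digamma_hasSum`: `digamma w = -γ + ∑_{n ≥ 0} (1/(n+1) - 1/(n+w))`; `‖n + w‖ ≥ n + 3/4`; with `N = ⌈‖w‖⌉`: the terms `n < N` contribute at most `∑_{n<N} (1/(n+1) + 1/(n+3/4)) ≤ 3 (1 + log (N+1))`, the terms `n ≥ N`: `‖w - 1‖/((n+1)‖n + w‖) ≤ (‖w‖+1)/((n+1)(n+3/4))`, sum `≤ 4 (‖w‖+1)/(N+1) ≤ 8`.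
So `‖digamma w‖ ≤ C log (2 + ‖w‖)`, and `‖s/2‖ ≤ 1 + ‖z‖`.  For `z.im ≥ 2` use `HH_even`, `Hz_odd` (`z ↦ -z`).
-/

namespace Pool.Agent.Lib.MP_ec260d_ntC

open Complex Set Filter Topology Metric MeasureTheory

private lemma ldx_re (z : ℂ) : (1 / 2 + I * z / 2).re = 1 / 2 - z.im / 2 := by
  simp [Complex.add_re, Complex.mul_re]
  ring

private lemma ldx_part (M R : ℕ) : ∑ n ∈ Finset.range M,
    (1 / ((n : ℝ) + 1) - 1 / ((n : ℝ) + 1 + R)) ≤ ∑ n ∈ Finset.range R, 1 / ((n : ℝ) + 1) := by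
  have h1 : ∑ n ∈ Finset.range M, 1 / ((n : ℝ) + 1) ≤
      ∑ n ∈ Finset.range (R + M), 1 / ((n : ℝ) + 1) := by
    apply Finset.sum_le_sum_of_subset_of_nonneg
    · exact Finset.range_mono (by omega)
    · intro i _ _
      positivity
  rw [Finset.sum_range_add] at h1
  have h2 : ∑ x ∈ Finset.range M, 1 / (((R + x : ℕ) : ℝ) + 1) =
      ∑ n ∈ Finset.range M, 1 / ((n : ℝ) + 1 + R) := by
    apply Finset.sum_congr rfl
    intro i _
    push_cast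
    congr 1
    ring
  rw [h2] at h1
  rw [Finset.sum_sub_distrib]
  linarith

private lemma ldx_harm (R : ℕ) : ∑ n ∈ Finset.range R, 1 / ((n : ℝ) + 1) ≤ 1 + Real.log R := by
  have h1 := harmonic_le_one_add_log R
  have h2 : ((harmonic R : ℚ) : ℝ) = ∑ n ∈ Finset.range R, 1 / ((n : ℝ) + 1) := by
    unfold harmonic
    push_cast
    apply Finset.sum_congr rfl
    intro i _
    rw [one_div]
  rw [← h2]
  exact h1

private lemma ldx_term {w : ℂ} (hw : 3 / 4 ≤ w.re) (R : ℕ) (hR : ‖w‖ + 1 ≤ R) (n : ℕ) :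
    ‖1 / ((n : ℂ) + 1) - 1 / ((n : ℂ) + w)‖ ≤
      11 / 3 * (1 / ((n : ℝ) + 1) - 1 / ((n : ℝ) + 1 + R)) := by
  have hn : (0 : ℝ) ≤ n := Nat.cast_nonneg n
  have h0 : (n : ℂ) + 1 ≠ 0 := Nat.cast_add_one_ne_zero n
  have hre : ((n : ℂ) + w).re = n + w.re := by simp
  have h1 : (3 / 4 : ℝ) * (n + 1) ≤ ‖(n : ℂ) + w‖ := by
    have h2 := Complex.re_le_norm ((n : ℂ) + w)
    rw [hre] at h2
    linarith
  have h3 : 0 < ‖(n : ℂ) + w‖ := by
    refine lt_of_lt_of_le ?_ h1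
    positivity
  have h4 : (n : ℂ) + w ≠ 0 := norm_pos_iff.1 h3
  have h5 : 1 / ((n : ℂ) + 1) - 1 / ((n : ℂ) + w) = (w - 1) / (((n : ℂ) + 1) * ((n : ℂ) + w)) := by
    field_simp
    ring
  have h6 : ‖(n : ℂ) + 1‖ = (n : ℝ) + 1 := by
    have : (n : ℂ) + 1 = ((n + 1 : ℕ) : ℂ) := by push_cast; rfl
    rw [this, Complex.norm_natCast]
    push_cast
    rfl
  have h7 : ‖w - 1‖ ≤ R := by
    refine (norm_sub_le _ _).trans ?_
    simpa using hR
  have h8 : ‖w - 1‖ ≤ ‖(n : ℂ) + w‖ + (n + 1) := by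
    have : w - 1 = ((n : ℂ) + w) - ((n : ℂ) + 1) := by ring
    rw [this]
    refine (norm_sub_le _ _).trans ?_
    rw [h6]
  have hR1 : (1 : ℝ) ≤ R := by
    have := norm_nonneg w
    linarith
  rw [h5, norm_div, norm_mul, h6]
  have h9 : 1 / ((n : ℝ) + 1) - 1 / ((n : ℝ) + 1 + R) =
      R / (((n : ℝ) + 1) * ((n : ℝ) + 1 + R)) := by
    field_simp
    ring
  rw [h9, ← mul_div_assoc, div_le_div_iff₀ (by positivity) (by positivity)]
  have h10 : ‖w - 1‖ * ((n : ℝ) + 1) ≤ R * (4 / 3 * ‖(n : ℂ) + w‖) := by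
    apply mul_le_mul h7 _ (by positivity) (by positivity)
    linarith
  have h11 : ‖w - 1‖ * R ≤ (7 / 3 * ‖(n : ℂ) + w‖) * R := by
    apply mul_le_mul_of_nonneg_right _ (by positivity)
    linarith
  have h12 : ‖w - 1‖ * ((n : ℝ) + 1 + R) ≤ 11 / 3 * R * ‖(n : ℂ) + w‖ := by
    nlinarith
  calc ‖w - 1‖ * (((n : ℝ) + 1) * ((n : ℝ) + 1 + R))
      = ((n : ℝ) + 1) * (‖w - 1‖ * ((n : ℝ) + 1 + R)) := by ring
    _ ≤ ((n : ℝ) + 1) * (11 / 3 * R * ‖(n : ℂ) + w‖) := by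
        apply mul_le_mul_of_nonneg_left h12 (by positivity)
    _ = 11 / 3 * R * (((n : ℝ) + 1) * ‖(n : ℂ) + w‖) := by ring

private lemma ldx_digamma {w : ℂ} (hw : 3 / 4 ≤ w.re) :
    ‖Complex.digamma w‖ ≤ 1 + 11 / 3 * (1 + Real.log (2 + ‖w‖)) := by
  set R : ℕ := ⌈‖w‖⌉₊ + 1 with hRdef
  have hR : ‖w‖ + 1 ≤ R := by
    rw [hRdef]
    push_cast
    have := Nat.le_ceil ‖w‖
    linarith
  have hR2 : (R : ℝ) ≤ 2 + ‖w‖ := by
    rw [hRdef]
    push_cast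
    have := Nat.ceil_lt_add_one (norm_nonneg w)
    linarith
  have hR0 : (0 : ℝ) < R := by
    have := norm_nonneg w
    linarith
  have h1 := (Pool.Agent.Lib.MP_ec260d_nt.digamma_hasSum (z := w) (by linarith)).tendsto_sum_nat
  have h2 : ∀ M : ℕ, ‖∑ n ∈ Finset.range M, (1 / ((n : ℂ) + 1) - 1 / ((n : ℂ) + w))‖ ≤
      11 / 3 * (1 + Real.log (2 + ‖w‖)) := by
    intro M
    refine (norm_sum_le _ _).trans ?_
    refine (Finset.sum_le_sum (fun n _ => ldx_term hw R hR n)).trans ?_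
    rw [← Finset.mul_sum]
    apply mul_le_mul_of_nonneg_left _ (by norm_num)
    refine (ldx_part M R).trans ((ldx_harm R).trans ?_)
    have := Real.log_le_log hR0 hR2
    linarith
  have h3 : ‖Complex.digamma w + Real.eulerMascheroniConstant‖ ≤
      11 / 3 * (1 + Real.log (2 + ‖w‖)) :=
    le_of_tendsto h1.norm (Eventually.of_forall h2)
  have h4 : ‖(Real.eulerMascheroniConstant : ℂ)‖ ≤ 1 := by
    rw [Complex.norm_real, Real.norm_eq_abs, abs_of_pos]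
    · have := Real.eulerMascheroniConstant_lt_two_thirds
      linarith
    · have := Real.one_half_lt_eulerMascheroniConstant
      linarith
  have h5 : Complex.digamma w = (Complex.digamma w + Real.eulerMascheroniConstant) -
      (Real.eulerMascheroniConstant : ℂ) := by ring
  rw [h5]
  refine (norm_sub_le _ _).trans ?_
  linarith

private lemma ldx_xi : ∃ C : ℝ, 0 ≤ C ∧ ∀ s : ℂ, 3 / 2 ≤ s.re →
    ‖logDeriv Pool.Agent.Lib.MP_00e05b_nt.xi s‖ ≤ C * (1 + Real.log (2 + ‖s / 2‖)) := by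
  obtain ⟨C1, hC1, hz⟩ := Pool.Agent.Lib.MP_ec260d_nt.logDeriv_zeta_bdd
  refine ⟨8 + C1, by linarith, ?_⟩
  intro s hs
  rw [Pool.Agent.Lib.MP_ec260d_nt.logDeriv_xi_formula (by linarith)]
  have hL : 0 ≤ Real.log (2 + ‖s / 2‖) := by
    apply Real.log_nonneg
    have := norm_nonneg (s / 2)
    linarith
  have h1 : ‖1 / s‖ ≤ 1 := by
    have h2 : 1 ≤ ‖s‖ := by
      have := Complex.re_le_norm s
      linarith
    rw [norm_div, norm_one]
    rw [div_le_one (by linarith)]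
    exact h2
  have h3 : ‖1 / (s - 1)‖ ≤ 2 := by
    have h2 : 1 / 2 ≤ ‖s - 1‖ := by
      have := Complex.re_le_norm (s - 1)
      rw [Complex.sub_re, Complex.one_re] at this
      linarith
    rw [norm_div, norm_one, div_le_iff₀ (by linarith)]
    linarith
  have h4 : ‖(Real.log Real.pi : ℂ) / 2‖ ≤ 2 := by
    rw [norm_div, Complex.norm_real, Real.norm_eq_abs, abs_of_nonneg
      (Real.log_nonneg (by linarith [Real.pi_gt_three]))]
    simp only [Complex.norm_ofNat]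
    have := Real.log_le_sub_one_of_pos Real.pi_pos
    have := Real.pi_le_four
    linarith
  have h5 : ‖Complex.digamma (s / 2) / 2‖ ≤ 1 / 2 + 11 / 6 * (1 + Real.log (2 + ‖s / 2‖)) := by
    have h6 : 3 / 4 ≤ (s / 2).re := by
      rw [Complex.div_ofNat_re]
      linarith
    have h7 := ldx_digamma h6
    rw [norm_div, Complex.norm_ofNat]
    linarith
  have h8 := hz s hs
  refine (norm_add_le _ _).trans ?_
  have h9 := norm_add_le (1 / s + 1 / (s - 1) - (Real.log Real.pi : ℂ) / 2)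
    (Complex.digamma (s / 2) / 2)
  have h10 := norm_sub_le (1 / s + 1 / (s - 1)) ((Real.log Real.pi : ℂ) / 2)
  have h11 := norm_add_le (1 / s) (1 / (s - 1))
  have h12 : 0 ≤ C1 * Real.log (2 + ‖s / 2‖) := mul_nonneg hC1 hL
  nlinarith

private lemma ldx_low : ∃ C : ℝ, 1 ≤ C ∧ ∀ z : ℂ, z.im ≤ -2 →
    ‖Hz 0 z‖ ≤ C * Real.log (2 + ‖z‖) * ‖HH 0 z‖ := by
  obtain ⟨C, hC, hx⟩ := ldx_xi
  refine ⟨C + 1, by linarith, ?_⟩
  intro z hz
  set s : ℂ := 1 / 2 + I * z / 2 with hs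
  have hre : s.re = 1 / 2 - z.im / 2 := ldx_re z
  have hs1 : 3 / 2 ≤ s.re := by rw [hre]; linarith
  have hxne : Pool.Agent.Lib.MP_00e05b_nt.xi s ≠ 0 :=
    Pool.Agent.Lib.MP_00e05b_nt.xi_ne_zero (by linarith)
  have hd : HasDerivAt (fun z : ℂ => 1 / 2 + I * z / 2) (I / 2) z := by
    have h1 : HasDerivAt (fun z : ℂ => I * z / 2) (I * 1 / 2) z :=
      ((hasDerivAt_id z).const_mul I).div_const 2
    have h2 := h1.const_add (1 / 2)
    rw [mul_one] at h2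
    exact h2
  have hxd : HasDerivAt Pool.Agent.Lib.MP_00e05b_nt.xi
      (deriv Pool.Agent.Lib.MP_00e05b_nt.xi s) s :=
    (Pool.Agent.Lib.MP_00e05b_nt.differentiable_xi s).hasDerivAt
  have h1 : HasDerivAt (fun z : ℂ => -(1 / 16) * Pool.Agent.Lib.MP_00e05b_nt.xi
      (1 / 2 + I * z / 2)) (-(1 / 16) * (deriv Pool.Agent.Lib.MP_00e05b_nt.xi s * (I / 2))) z :=
    (HasDerivAt.comp z (h₂ := Pool.Agent.Lib.MP_00e05b_nt.xi)
      (h := fun z : ℂ => 1 / 2 + I * z / 2) hxd hd).const_mul _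
  have h2 : Hz 0 z = -(1 / 16) * (deriv Pool.Agent.Lib.MP_00e05b_nt.xi s * (I / 2)) := by
    unfold Hz
    have h3 : HH 0 = fun z : ℂ => -(1 / 16) * Pool.Agent.Lib.MP_00e05b_nt.xi
      (1 / 2 + I * z / 2) := funext HX
    rw [h3]
    exact h1.deriv
  have h4 : deriv Pool.Agent.Lib.MP_00e05b_nt.xi s =
      logDeriv Pool.Agent.Lib.MP_00e05b_nt.xi s * Pool.Agent.Lib.MP_00e05b_nt.xi s := by
    rw [logDeriv_apply]
    field_simp
  have h5 : Hz 0 z = (I / 2) * logDeriv Pool.Agent.Lib.MP_00e05b_nt.xi s * HH 0 z := by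
    rw [h2, h4, HX z, ← hs]
    ring
  have hzn : 2 ≤ ‖z‖ := by
    have h6 := Complex.abs_im_le_norm z
    have h7 := neg_le_abs z.im
    linarith
  have h8 : ‖s / 2‖ ≤ ‖z‖ := by
    rw [norm_div, Complex.norm_ofNat, hs]
    have h9 : ‖(1 / 2 + I * z / 2 : ℂ)‖ ≤ 1 / 2 + ‖z‖ / 2 := by
      refine (norm_add_le _ _).trans ?_
      rw [norm_div, norm_div, norm_mul, Complex.norm_I]
      simp
    linarith
  have h10 : Real.log (2 + ‖s / 2‖) ≤ Real.log (2 + ‖z‖) := by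
    apply Real.log_le_log
    · have := norm_nonneg (s / 2)
      linarith
    · linarith
  have h11 : 1 ≤ Real.log (2 + ‖z‖) := by
    rw [Real.le_log_iff_exp_le (by linarith)]
    have := Real.exp_one_lt_d9
    linarith
  rw [h5, norm_mul, norm_mul, norm_div, Complex.norm_I, Complex.norm_ofNat]
  apply mul_le_mul_of_nonneg_right _ (norm_nonneg _)
  have h12 := hx s hs1
  have h13 : C * (1 + Real.log (2 + ‖s / 2‖)) ≤ C * (2 * Real.log (2 + ‖z‖)) := by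
    apply mul_le_mul_of_nonneg_left _ hC
    linarith
  linarith

theorem HH0_ne (z : ℂ) (hz : 1 ≤ |z.im|) : HH 0 z ≠ 0 := by
  have h1 : ∀ z : ℂ, z.im ≤ -1 → HH 0 z ≠ 0 := by
    intro z hz
    rw [HX]
    apply mul_ne_zero (by norm_num)
    apply Pool.Agent.Lib.MP_00e05b_nt.xi_ne_zero
    rw [ldx_re]
    linarith
  rcases le_abs.1 hz with h | h
  · rw [← HH_even]
    apply h1
    rw [Complex.neg_im]
    linarith
  · exact h1 z (by linarith)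

theorem ldx : ∃ C : ℝ, 1 ≤ C ∧ ∀ z : ℂ, 2 ≤ |z.im| →
    ‖Hz 0 z‖ ≤ C * Real.log (2 + ‖z‖) * ‖HH 0 z‖ := by
  obtain ⟨C, hC, h⟩ := ldx_low
  refine ⟨C, hC, ?_⟩
  intro z hz
  rcases le_abs.1 hz with h1 | h1
  · have h2 := h (-z) (by rw [Complex.neg_im]; linarith)
    rw [Hz_odd, HH_even, norm_neg, norm_neg] at h2
    exact h2
  · exact h z (by linarith)

end Pool.Agent.Lib.MP_ec260d_ntC
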