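import Mathlib
import Pool.Agent.Lib.MP_ec260d_ntC.DefsG
import Pool.Agent.Lib.MP_ec260d_ntC.LDx

/-!
# JOB GLip: the comparison function is log-Lipschitz (about 150 lines)

`seg`: let `a, b` be points with imaginary parts `≤ -2`; `h(x) = HH 0 (a + x (b - a))`, `x ∈ [0, 1]`, has no zero (`HH0_ne`), `‖h'(x)‖ = ‖b - a‖ ‖Hz 0 (..)‖ ≤ K ‖b - a‖ ‖h x‖` with `K = C log (2 + ‖a‖ + ‖b - a‖)` (`ldx`, the norm of the point is at most `‖a‖ + ‖b - a‖`).  Gronwall (`norm_le_gronwallBound_of_norm_deriv_right_le`) or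
differentiate `log ‖h‖` (or `‖h x‖² exp (-2 K ‖b-a‖ x)` is antitone) gives `‖h 1‖ ≤ ‖h 0‖ exp (K ‖b - a‖)`.
`glip`: `a = z.re - I max |z.im| 3`, `b = w.re - I max |w.im| 3`, `‖b - a‖ ≤ |Re (w - z)| + |Im (w - z)| ≤ 2 ‖w - z‖` (`max` and `abs` are 1-Lipschitz), `‖a‖ ≤ ‖z‖ + 3 + ...`: `2 + ‖a‖ + ‖b - a‖ ≤ 5 + 2 ‖z‖ + 2 ‖w - z‖ ≤ (2 + ‖z‖ + ‖w - z‖)^3`, so the constant becomes `6 C`.
`GG_pos`: `HH0_ne`.  `GG_lower`: `glip` with `w` the given point and `z = 0`: apply with the roles exchanged: `GG 0 ≤ GG z exp (C log (2 + ‖z‖ + ‖z‖) ‖z‖)`, so `GG z ≥ GG 0 exp (-...)`.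
`GG_eq`: for `3 ≤ |z.im|`: `GG z = ‖HH 0 z‖`: if `z.im < 0` it is the same point; if `z.im > 0` the point is the conjugate of `z` (`HH_conj` with `t = 0`).
-/

namespace Pool.Agent.Lib.MP_ec260d_ntC

open Complex Set Filter Topology Metric MeasureTheory

private theorem GLip_log {x y : ℝ} (hx : 0 < x) (h : x ≤ y) : Real.log x ≤ Real.log y :=
  Real.log_le_log hx h

private theorem GLip_im (x y : ℝ) : ((x : ℂ) - I * (y : ℂ)).im = -y := by
  simp

private theorem GLip_re (x y : ℝ) : ((x : ℂ) - I * (y : ℂ)).re = x := by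
  simp

private theorem GLip_pt_im (z : ℂ) :
    (((z.re : ℂ) - I * ((max |z.im| 3 : ℝ) : ℂ))).im = -max |z.im| 3 := GLip_im _ _

private theorem GLip_pt_re (z : ℂ) :
    (((z.re : ℂ) - I * ((max |z.im| 3 : ℝ) : ℂ))).re = z.re := GLip_re _ _

private theorem GLip_norm_le (z : ℂ) : ‖z‖ ≤ |z.re| + |z.im| := Complex.norm_le_abs_re_add_abs_im z

theorem seg : ∃ C : ℝ, 1 ≤ C ∧ ∀ a b : ℂ, a.im ≤ -2 → b.im ≤ -2 →
    ‖HH 0 b‖ ≤ ‖HH 0 a‖ * Real.exp (C * Real.log (2 + ‖a‖ + ‖b - a‖) * ‖b - a‖) := by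
  obtain ⟨C, hC, H⟩ := ldx
  refine ⟨C, hC, fun a b ha hb => ?_⟩
  set d := b - a with hd
  set K := C * Real.log (2 + ‖a‖ + ‖d‖) * ‖d‖ with hK
  have hpt : ∀ x : ℝ, 0 ≤ x → x ≤ 1 → (a + (x : ℂ) * d).im ≤ -2 := by
    intro x h0 h1
    have h2 : (a + (x : ℂ) * d).im = (1 - x) * a.im + x * b.im := by
      rw [hd]
      simp
      ring
    rw [h2]
    nlinarith
  have hder : ∀ x : ℝ, HasDerivAt (fun y : ℝ => HH 0 (a + (y : ℂ) * d)) (Hz 0 (a + (x : ℂ) * d) * d) x := by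
    intro x
    have h1 : HasDerivAt (HH 0) (Hz 0 (a + (x : ℂ) * d)) (a + (x : ℂ) * d) :=
      (HH_diff_z 0 _).hasDerivAt
    have h2 : HasDerivAt (fun y : ℝ => a + (y : ℂ) * d) d x := by
      have h3 : HasDerivAt (fun y : ℝ => (y : ℂ)) 1 x := Complex.ofRealCLM.hasDerivAt
      have h4 := (h3.mul_const d).const_add a
      rwa [one_mul] at h4
    exact h1.comp x h2
  have hg := norm_le_gronwallBound_of_norm_deriv_right_le
    (f := fun y : ℝ => HH 0 (a + (y : ℂ) * d)) (f' := fun x : ℝ => Hz 0 (a + (x : ℂ) * d) * d)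
    (δ := ‖HH 0 a‖) (K := K) (ε := 0) (a := 0) (b := 1)
    (fun x _ => (hder x).continuousAt.continuousWithinAt)
    (fun x _ => (hder x).hasDerivWithinAt)
    (by simp)
    (by
      intro x hx
      have h1 := hpt x hx.1 hx.2.le
      have h2 := H (a + (x : ℂ) * d) (by rw [abs_of_neg (by linarith)]; linarith)
      have h3 : ‖a + (x : ℂ) * d‖ ≤ ‖a‖ + ‖d‖ := by
        refine (norm_add_le _ _).trans ?_
        rw [norm_mul, Complex.norm_real, Real.norm_eq_abs, abs_of_nonneg hx.1]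
        have : x * ‖d‖ ≤ 1 * ‖d‖ := mul_le_mul_of_nonneg_right hx.2.le (norm_nonneg _)
        linarith
      have h4 : Real.log (2 + ‖a + (x : ℂ) * d‖) ≤ Real.log (2 + ‖a‖ + ‖d‖) :=
        GLip_log (by positivity) (by linarith)
      have h5 : ‖Hz 0 (a + (x : ℂ) * d)‖ ≤ C * Real.log (2 + ‖a‖ + ‖d‖) * ‖HH 0 (a + (x : ℂ) * d)‖ :=
        h2.trans (mul_le_mul_of_nonneg_right (mul_le_mul_of_nonneg_left h4 (by linarith))
          (norm_nonneg _))
      show ‖Hz 0 (a + (x : ℂ) * d) * d‖ ≤ K * ‖HH 0 (a + (x : ℂ) * d)‖ + 0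
      rw [norm_mul, add_zero, hK]
      refine (mul_le_mul_of_nonneg_right h5 (norm_nonneg _)).trans (le_of_eq ?_)
      ring)
    1 (by constructor <;> norm_num)
  rw [gronwallBound_ε0] at hg
  have h1 : a + ((1 : ℝ) : ℂ) * d = b := by
    rw [hd]
    push_cast
    ring
  simp only [h1, sub_zero, mul_one] at hg
  exact hg

theorem glip : ∃ C : ℝ, 1 ≤ C ∧ ∀ z w : ℂ,
    GG w ≤ GG z * Real.exp (C * Real.log (2 + ‖z‖ + ‖w - z‖) * ‖w - z‖) := by
  obtain ⟨C, hC, H⟩ := seg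
  refine ⟨6 * C, by linarith, fun z w => ?_⟩
  set a : ℂ := (z.re : ℂ) - I * ((max |z.im| 3 : ℝ) : ℂ) with ha
  set b : ℂ := (w.re : ℂ) - I * ((max |w.im| 3 : ℝ) : ℂ) with hb
  have hGz : GG z = ‖HH 0 a‖ := rfl
  have hGw : GG w = ‖HH 0 b‖ := rfl
  have aim : a.im = -max |z.im| 3 := GLip_pt_im z
  have bim : b.im = -max |w.im| 3 := GLip_pt_im w
  have are : a.re = z.re := GLip_pt_re z
  have bre : b.re = w.re := GLip_pt_re w
  have h3z : 3 ≤ max |z.im| 3 := le_max_right _ _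
  have h3w : 3 ≤ max |w.im| 3 := le_max_right _ _
  have h1 := H a b (by rw [aim]; linarith) (by rw [bim]; linarith)
  have hzn : |z.im| ≤ ‖z‖ := Complex.abs_im_le_norm z
  have hzr : |z.re| ≤ ‖z‖ := Complex.abs_re_le_norm z
  have hdi : |w.im - z.im| ≤ ‖w - z‖ := by
    rw [← Complex.sub_im]
    exact Complex.abs_im_le_norm _
  have hdr : |w.re - z.re| ≤ ‖w - z‖ := by
    rw [← Complex.sub_re]
    exact Complex.abs_re_le_norm _
  have hn0 : 0 ≤ ‖w - z‖ := norm_nonneg _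
  have hz0 : 0 ≤ ‖z‖ := norm_nonneg _
  have hba : ‖b - a‖ ≤ 2 * ‖w - z‖ := by
    refine (GLip_norm_le _).trans ?_
    rw [Complex.sub_re, Complex.sub_im, are, bre, aim, bim]
    have h2 : |-max |w.im| 3 - -max |z.im| 3| ≤ |w.im - z.im| := by
      have h3 : -max |w.im| 3 - -max |z.im| 3 = max |z.im| 3 - max |w.im| 3 := by ring
      rw [h3]
      refine (abs_max_sub_max_le_abs _ _ _).trans ?_
      rw [abs_sub_comm w.im z.im]
      exact abs_abs_sub_abs_le_abs_sub _ _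
    linarith
  have hna : ‖a‖ ≤ 2 * ‖z‖ + 3 := by
    refine (GLip_norm_le _).trans ?_
    rw [are, aim, abs_neg, abs_of_nonneg (by linarith : (0 : ℝ) ≤ max |z.im| 3)]
    have h2 : max |z.im| 3 ≤ ‖z‖ + 3 := max_le (by linarith) (by linarith)
    linarith
  set u := 2 + ‖z‖ + ‖w - z‖ with hu
  have hu2 : 2 ≤ u := by linarith
  have hlog : Real.log (2 + ‖a‖ + ‖b - a‖) ≤ 3 * Real.log u := by
    have h2 : (3 : ℝ) * Real.log u = Real.log (u ^ 3) := by
      rw [Real.log_pow]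
      norm_num
    rw [h2]
    apply GLip_log (by positivity)
    have h3 : 2 + ‖a‖ + ‖b - a‖ ≤ 2 * u + 1 := by linarith
    refine h3.trans ?_
    nlinarith [mul_nonneg (by linarith : (0 : ℝ) ≤ u - 2) (by linarith : (0 : ℝ) ≤ u),
      sq_nonneg u, mul_nonneg (mul_nonneg (by linarith : (0 : ℝ) ≤ u - 2) (by linarith : (0 : ℝ) ≤ u))
        (by linarith : (0 : ℝ) ≤ u)]
  have hlu : 0 ≤ Real.log u := Real.log_nonneg (by linarith)
  have hl0 : 0 ≤ Real.log (2 + ‖a‖ + ‖b - a‖) := Real.log_nonneg (by linarith [norm_nonneg a, norm_nonneg (b - a)])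
  rw [hGz, hGw]
  refine h1.trans (mul_le_mul_of_nonneg_left (Real.exp_le_exp.2 ?_) (norm_nonneg _))
  calc C * Real.log (2 + ‖a‖ + ‖b - a‖) * ‖b - a‖
      ≤ C * (3 * Real.log u) * (2 * ‖w - z‖) := by
        apply mul_le_mul (mul_le_mul_of_nonneg_left hlog (by linarith)) hba (norm_nonneg _)
        positivity
    _ = 6 * C * Real.log u * ‖w - z‖ := by ring

theorem GG_pos (z : ℂ) : 0 < GG z := by
  unfold GG
  apply norm_pos_iff.2
  apply HH0_ne
  rw [GLip_pt_im, abs_neg]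
  have h := le_max_right |z.im| 3
  rw [abs_of_nonneg (by linarith)]
  linarith

theorem GG_cont : Continuous GG := by
  unfold GG
  apply Continuous.norm
  exact (HH_diff_z 0).continuous.comp (by fun_prop)

theorem GG_eq (z : ℂ) (hz : 3 ≤ |z.im|) : GG z = ‖HH 0 z‖ := by
  unfold GG
  rw [max_eq_left hz]
  rcases le_total z.im 0 with h | h
  · have h1 : (z.re : ℂ) - I * ((|z.im| : ℝ) : ℂ) = z := by
      apply Complex.ext
      · simp
      · simp [abs_of_nonpos h]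
    rw [h1]
  · have h1 : (z.re : ℂ) - I * ((|z.im| : ℝ) : ℂ) = (starRingEnd ℂ) z := by
      apply Complex.ext
      · simp
      · simp [abs_of_nonneg h]
    rw [h1]
    have h2 := HH_conj 0 z
    rw [map_zero] at h2
    rw [h2, RCLike.norm_conj]

theorem GG_lower : ∃ C : ℝ, 1 ≤ C ∧ ∀ z : ℂ,
    Real.exp (-(C * Real.log (2 + ‖z‖) * (1 + ‖z‖))) ≤ GG z := by
  obtain ⟨C, hC, H⟩ := glip
  have hl2 : 0 < Real.log 2 := Real.log_pos (by norm_num)
  refine ⟨2 * C + |Real.log (GG 0)| / Real.log 2, ?_, fun z => ?_⟩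
  · have : 0 ≤ |Real.log (GG 0)| / Real.log 2 := by positivity
    linarith
  · have h1 := H z 0
    have hz0 : 0 ≤ ‖z‖ := norm_nonneg z
    rw [zero_sub, norm_neg] at h1
    have h2 : Real.log (2 + ‖z‖ + ‖z‖) ≤ 2 * Real.log (2 + ‖z‖) := by
      have h3 : (2 : ℝ) * Real.log (2 + ‖z‖) = Real.log ((2 + ‖z‖) ^ 2) := by
        rw [Real.log_pow]
        norm_num
      rw [h3]
      apply GLip_log (by positivity)
      nlinarith
    have hlz : Real.log 2 ≤ Real.log (2 + ‖z‖) := GLip_log (by norm_num) (by linarith)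
    have h4 : C * Real.log (2 + ‖z‖ + ‖z‖) * ‖z‖ ≤ 2 * C * Real.log (2 + ‖z‖) * ‖z‖ := by
      apply mul_le_mul_of_nonneg_right _ hz0
      nlinarith
    have h5 : GG 0 ≤ GG z * Real.exp (2 * C * Real.log (2 + ‖z‖) * ‖z‖) :=
      h1.trans (mul_le_mul_of_nonneg_left (Real.exp_le_exp.2 h4) (GG_pos z).le)
    have h6 : GG 0 * Real.exp (-(2 * C * Real.log (2 + ‖z‖) * ‖z‖)) ≤ GG z := by
      have h7 := mul_le_mul_of_nonneg_right h5
        (Real.exp_pos (-(2 * C * Real.log (2 + ‖z‖) * ‖z‖))).le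
      rwa [mul_assoc (GG z), ← Real.exp_add, add_neg_cancel, Real.exp_zero, mul_one] at h7
    refine le_trans ?_ h6
    have h8 : Real.exp (Real.log (GG 0)) = GG 0 := Real.exp_log (GG_pos 0)
    have h8' : GG 0 * Real.exp (-(2 * C * Real.log (2 + ‖z‖) * ‖z‖)) =
        Real.exp (Real.log (GG 0) + -(2 * C * Real.log (2 + ‖z‖) * ‖z‖)) := by
      rw [Real.exp_add, h8]
    rw [h8']
    apply Real.exp_le_exp.2
    have h9 := neg_abs_le (Real.log (GG 0))
    have h10 : |Real.log (GG 0)| ≤ |Real.log (GG 0)| / Real.log 2 * (Real.log (2 + ‖z‖) * (1 + ‖z‖)) := by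
      have h11 : Real.log 2 ≤ Real.log (2 + ‖z‖) * (1 + ‖z‖) := by nlinarith
      calc |Real.log (GG 0)| = |Real.log (GG 0)| / Real.log 2 * Real.log 2 := by
            field_simp
        _ ≤ _ := mul_le_mul_of_nonneg_left h11 (by positivity)
    have h12 : 0 ≤ 2 * C * Real.log (2 + ‖z‖) := by
      have : 0 ≤ Real.log (2 + ‖z‖) := by linarith
      positivity
    have h13 : (2 * C + |Real.log (GG 0)| / Real.log 2) * Real.log (2 + ‖z‖) * (1 + ‖z‖) =
        2 * C * Real.log (2 + ‖z‖) + 2 * C * Real.log (2 + ‖z‖) * ‖z‖ +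
          |Real.log (GG 0)| / Real.log 2 * (Real.log (2 + ‖z‖) * (1 + ‖z‖)) := by ring
    rw [h13]
    linarith

end Pool.Agent.Lib.MP_ec260d_ntC
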