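import Mathlib
import Pool.Agent.Lib.MP_ec260d_ntC.DefsG
import Pool.Agent.Lib.MP_ec260d_ntC.GLip
import Pool.Agent.Lib.MP_ec260d_ntA.Growth
import Pool.Agent.Lib.MP_ec260d_ntA.GamB

/-!
# JOB Wbd: H_0 in the strip against the comparison function (about 200 lines)

For `3 ≤ |w.im|`: equality (`GG_eq`).  Let `|w.im| < 3`; by `HH_conj` (`t = 0`; `GG (conj w) = GG w`) assume `w.im ≤ 0`.
(1) `|w.re| ≥ 4`.  `s = 1/2 + I w/2`, `Re s = 1/2 - w.im/2 ∈ [1/2, 2)`, `τ = Im s = w.re/2`, `|τ| ≥ 2`; the comparison point is `s' = 2 + I w.re/2`.  `xi s = s (1-s) Gammaℝ(s) ζ(s)` (`xi_eq_zeta`), `Gammaℝ s = π^(-s/2) Γ(s/2)` and `Γ(s/2 + 1) = (s/2) Γ(s/2)`: `xi s = 2 (1-s) π^(-s/2) Γ(s/2 + 1) ζ(s)`.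
`gam_bounds` (`1/2 ≤ Re ≤ 4`, `|Im| = |τ|/2 ≥ 1`): `‖Γ(s/2+1)‖ ≤ C (|τ|/2)^(Re s/2 + 1/2) exp (-π|τ|/4) ≤ C (|τ|/2)^(3/2) exp (-π|τ|/4)` and `‖Γ(s'/2+1)‖ ≥ c (|τ|/2)^(3/2) exp (-π|τ|/4)`.  `‖ζ(s)‖ ≤ C |τ|^8` (`growth`), `‖ζ(s')‖ ≥ 2 - ζ(2) > 0` (`Re s' = 2`: `‖ζ(s') - 1‖ ≤ ∑_{n≥2} n^{-2} = π²/6 - 1 < 1`).
`‖1 - s‖ ≤ 1 + ‖w‖ + 1`, `‖1 - s'‖ ≥ 1`, `‖π^(-s/2)‖ ≤ 1`, `‖π^(-s'/2)‖ = 1/π`.  So `‖HH 0 w‖ ≤ C' (2 + ‖w‖)^9 GG w`.
(2) `|w.re| ≤ 4`: `w` in a compact set, `HH 0` is bounded there and `GG` is continuous and positive.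
-/

namespace Pool.Agent.Lib.MP_ec260d_ntC

open Complex Set Filter Topology Metric MeasureTheory

private theorem Wbd_zeta_low (s : ℂ) (hs : 2 ≤ s.re) : 1 / 4 ≤ ‖riemannZeta s‖ := by
  have hz := zeta_eq_tsum_one_div_nat_add_one_cpow (s := s) (by linarith)
  have hn : ∀ n : ℕ, ‖1 / ((n : ℂ) + 1) ^ s‖ ≤ 1 / (((n + 1 : ℕ) : ℝ)) ^ 2 := by
    intro n
    have e : ((n : ℂ) + 1) = (((n + 1 : ℕ) : ℝ) : ℂ) := by push_cast; ring
    rw [norm_div, norm_one, e, Complex.norm_cpow_eq_rpow_re_of_pos (by positivity)]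
    apply one_div_le_one_div_of_le (by positivity)
    rw [← Real.rpow_two]
    exact Real.rpow_le_rpow_of_exponent_le (by push_cast; linarith [Nat.cast_nonneg (α := ℝ) n]) hs
  have hs2 := hasSum_zeta_two
  have hsh : HasSum (fun n : ℕ => 1 / (((n + 1 : ℕ) : ℝ)) ^ 2) (Real.pi ^ 2 / 6) := by
    have := (hasSum_nat_add_iff' (f := fun n : ℕ => 1 / ((n : ℕ) : ℝ) ^ 2) 1).2 hs2
    simpa using this
  have hsh2 : HasSum (fun n : ℕ => 1 / (((n + 1 + 1 : ℕ) : ℝ)) ^ 2) (Real.pi ^ 2 / 6 - 1) := by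
    have := (hasSum_nat_add_iff' (f := fun n : ℕ => 1 / (((n + 1 : ℕ) : ℝ)) ^ 2) 1).2 hsh
    simpa using this
  have hsum : Summable (fun n : ℕ => 1 / ((n : ℂ) + 1) ^ s) :=
    Summable.of_norm_bounded hsh.summable hn
  rw [hsum.tsum_eq_zero_add] at hz
  have h0 : 1 / (((0 : ℕ) : ℂ) + 1) ^ s = 1 := by simp
  rw [h0] at hz
  have htail : ‖∑' n : ℕ, 1 / (((n + 1 : ℕ) : ℂ) + 1) ^ s‖ ≤ Real.pi ^ 2 / 6 - 1 :=
    tsum_of_norm_bounded hsh2 (fun n => hn (n + 1))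
  have hpi : Real.pi ^ 2 ≤ 10 := by
    have := Real.pi_lt_d2
    nlinarith [Real.pi_pos]
  rw [hz]
  have h3 := norm_sub_le (1 + ∑' n : ℕ, 1 / (((n + 1 : ℕ) : ℂ) + 1) ^ s)
    (∑' n : ℕ, 1 / (((n + 1 : ℕ) : ℂ) + 1) ^ s)
  rw [add_sub_cancel_right, norm_one] at h3
  linarith

private theorem Wbd_xi {s : ℂ} (h0 : 0 < s.re) (h1 : s ≠ 1) :
    ‖Pool.Agent.Lib.MP_00e05b_nt.xi s‖ =
      2 * ‖1 - s‖ * Real.pi ^ (-(s.re / 2)) * ‖Complex.Gamma (s / 2 + 1)‖ * ‖riemannZeta s‖ := by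
  have hs : s ≠ 0 := by
    rintro rfl
    simp at h0
  have hs2 : s / 2 ≠ 0 := div_ne_zero hs two_ne_zero
  have h2 : Pool.Agent.Lib.MP_00e05b_nt.xi s =
      2 * (1 - s) * (Real.pi : ℂ) ^ (-s / 2) * Complex.Gamma (s / 2 + 1) * riemannZeta s := by
    rw [Pool.Agent.Lib.MP_00e05b_nt.xi_eq_zeta h0 h1, Gammaℝ_def, Complex.Gamma_add_one _ hs2]
    ring
  have h3 : (-s / 2).re = -(s.re / 2) := by
    have h4 : -s / 2 = ((-(1 / 2) : ℝ) : ℂ) * s := by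
      push_cast
      ring
    rw [h4, Complex.re_ofReal_mul]
    ring
  rw [h2, norm_mul, norm_mul, norm_mul, norm_mul, Complex.norm_cpow_eq_rpow_re_of_pos Real.pi_pos,
    h3]
  have h5 : ‖(2 : ℂ)‖ = 2 := by simp
  rw [h5]

private theorem Wbd_far : ∃ C : ℝ, 0 ≤ C ∧ ∀ w : ℂ, 4 ≤ |w.re| → -3 ≤ w.im → w.im ≤ 0 →
    ‖HH 0 w‖ ≤ C * (2 + ‖w‖) ^ 9 * GG w := by
  obtain ⟨c, C1, hc, hC1, hG⟩ := Pool.Agent.Lib.MP_ec260d_ntA.gam_bounds
  obtain ⟨C2, hC2, hZ⟩ := Pool.Agent.Lib.MP_ec260d_ntA.growth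
  have hpi := Real.pi_pos
  refine ⟨2 * C1 * C2 * (2 * Real.pi / c), by positivity, fun w hw hw1 hw2 => ?_⟩
  set s : ℂ := 1 / 2 + I * w / 2 with hs
  set s' : ℂ := 1 / 2 + I * ((w.re : ℂ) - I * ((max |w.im| 3 : ℝ) : ℂ)) / 2 with hs'
  have hmax : max |w.im| 3 = 3 := by
    refine max_eq_right ?_
    rw [abs_le]
    constructor <;> linarith
  have hsre : s.re = 1 / 2 - w.im / 2 := by
    have h1 : s = ((1 / 2 : ℝ) : ℂ) + ((1 / 2 : ℝ) : ℂ) * (I * w) := by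
      rw [hs]
      push_cast
      ring
    rw [h1, Complex.add_re, Complex.re_ofReal_mul, Complex.ofReal_re, Complex.I_mul_re]
    ring
  have hsim : s.im = w.re / 2 := by
    have h1 : s = ((1 / 2 : ℝ) : ℂ) + ((1 / 2 : ℝ) : ℂ) * (I * w) := by
      rw [hs]
      push_cast
      ring
    rw [h1, Complex.add_im, Complex.im_ofReal_mul, Complex.ofReal_im, Complex.I_mul_im]
    ring
  have hs'eq : s' = ((2 : ℝ) : ℂ) + ((w.re / 2 : ℝ) : ℂ) * I := by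
    rw [hs', hmax]
    have h1 : I * ((w.re : ℂ) - I * ((3 : ℝ) : ℂ)) = I * w.re - (I * I) * 3 := by
      push_cast
      ring
    rw [h1, Complex.I_mul_I]
    push_cast
    ring
  have hs're : s'.re = 2 := by
    rw [hs'eq, Complex.add_re, Complex.re_ofReal_mul]
    simp
  have hs'im : s'.im = w.re / 2 := by
    rw [hs'eq, Complex.add_im, Complex.im_ofReal_mul]
    simp
  have hHs : ‖HH 0 w‖ = 1 / 16 * ‖Pool.Agent.Lib.MP_00e05b_nt.xi s‖ := by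
    rw [HX w, norm_mul, norm_neg]
    have h1 : ‖(1 / 16 : ℂ)‖ = 1 / 16 := by simp
    rw [h1]
  have hHs' : GG w = 1 / 16 * ‖Pool.Agent.Lib.MP_00e05b_nt.xi s'‖ := by
    unfold GG
    rw [HX, norm_mul, norm_neg]
    have h1 : ‖(1 / 16 : ℂ)‖ = 1 / 16 := by simp
    rw [h1]
  have hre0 : w.re ≠ 0 := by
    intro h
    rw [h, abs_zero] at hw
    linarith
  have hne : s ≠ 1 := by
    intro h
    have h1 := congrArg Complex.im h
    rw [hsim, Complex.one_im] at h1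
    exact hre0 (by linarith)
  have hne' : s' ≠ 1 := by
    intro h
    have h1 := congrArg Complex.im h
    rw [hs'im, Complex.one_im] at h1
    exact hre0 (by linarith)
  have hx := Wbd_xi (s := s) (by rw [hsre]; linarith) hne
  have hx' := Wbd_xi (s := s') (by rw [hs're]; norm_num) hne'
  set t : ℝ := |w.re| / 4 with ht
  have ht1 : 1 ≤ t := by rw [ht]; linarith
  have hre1 : (s / 2 + 1).re = 5 / 4 - w.im / 4 := by
    have h1 : s / 2 + 1 = ((1 / 2 : ℝ) : ℂ) * s + ((1 : ℝ) : ℂ) := by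
      push_cast
      ring
    rw [h1, Complex.add_re, Complex.re_ofReal_mul, Complex.ofReal_re, hsre]
    ring
  have him1 : |(s / 2 + 1).im| = t := by
    have h1 : s / 2 + 1 = ((1 / 2 : ℝ) : ℂ) * s + ((1 : ℝ) : ℂ) := by
      push_cast
      ring
    rw [h1, Complex.add_im, Complex.im_ofReal_mul, Complex.ofReal_im, hsim, ht]
    have h2 : 1 / 2 * (w.re / 2) + 0 = w.re / 4 := by ring
    rw [h2, abs_div]
    norm_num
  have hre1' : (s' / 2 + 1).re = 2 := by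
    have h1 : s' / 2 + 1 = ((1 / 2 : ℝ) : ℂ) * s' + ((1 : ℝ) : ℂ) := by
      push_cast
      ring
    rw [h1, Complex.add_re, Complex.re_ofReal_mul, Complex.ofReal_re, hs're]
    norm_num
  have him1' : |(s' / 2 + 1).im| = t := by
    have h1 : s' / 2 + 1 = ((1 / 2 : ℝ) : ℂ) * s' + ((1 : ℝ) : ℂ) := by
      push_cast
      ring
    rw [h1, Complex.add_im, Complex.im_ofReal_mul, Complex.ofReal_im, hs'im, ht]
    have h2 : 1 / 2 * (w.re / 2) + 0 = w.re / 4 := by ring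
    rw [h2, abs_div]
    norm_num
  have hGu := (hG (s / 2 + 1) (by rw [hre1]; linarith) (by rw [hre1]; linarith)
    (by rw [him1]; exact ht1)).2
  have hGl := (hG (s' / 2 + 1) (by rw [hre1']; norm_num) (by rw [hre1']; norm_num)
    (by rw [him1']; exact ht1)).1
  rw [him1, hre1] at hGu
  rw [him1', hre1'] at hGl
  have hZu := hZ s (by rw [hsre]; linarith) (by rw [hsre]; linarith)
    (by rw [hsim, abs_div]; norm_num; linarith)
  have hZl := Wbd_zeta_low s' (by rw [hs're])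
  have hwn : |w.re| ≤ ‖w‖ := Complex.abs_re_le_norm w
  have hsimn : |s.im| ≤ 2 + ‖w‖ := by
    rw [hsim, abs_div]
    norm_num
    linarith [norm_nonneg w]
  have hZu' : ‖riemannZeta s‖ ≤ C2 * (2 + ‖w‖) ^ 8 := by
    refine hZu.trans (mul_le_mul_of_nonneg_left ?_ (by linarith))
    exact pow_le_pow_left₀ (abs_nonneg _) hsimn 8
  have hexp : t ^ (5 / 4 - w.im / 4 - 1 / 2 : ℝ) ≤ t ^ (2 - 1 / 2 : ℝ) :=
    Real.rpow_le_rpow_of_exponent_le ht1 (by linarith)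
  set E : ℝ := t ^ (2 - 1 / 2 : ℝ) * Real.exp (-(Real.pi * t / 2)) with hE
  have hE0 : 0 < E := by positivity
  have hGu' : ‖Complex.Gamma (s / 2 + 1)‖ ≤ C1 * E := by
    refine hGu.trans ?_
    rw [hE, ← mul_assoc]
    refine mul_le_mul_of_nonneg_right ?_ (Real.exp_pos _).le
    exact mul_le_mul_of_nonneg_left hexp hC1.le
  have hGl' : c * E ≤ ‖Complex.Gamma (s' / 2 + 1)‖ := by
    rw [hE, ← mul_assoc]
    exact hGl
  have h1s : ‖1 - s‖ ≤ 2 + ‖w‖ := by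
    have h1 : 1 - s = ((1 / 2 : ℝ) : ℂ) - ((1 / 2 : ℝ) : ℂ) * (I * w) := by
      rw [hs]
      push_cast
      ring
    rw [h1]
    refine (norm_sub_le _ _).trans ?_
    rw [norm_mul, norm_mul, Complex.norm_I, Complex.norm_real]
    norm_num
    linarith [norm_nonneg w]
  have h1s' : 1 ≤ ‖1 - s'‖ := by
    have h1 := Complex.abs_re_le_norm (1 - s')
    rw [Complex.sub_re, Complex.one_re, hs're] at h1
    norm_num at h1
    exact h1
  have hpiu : Real.pi ^ (-(s.re / 2)) ≤ 1 := by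
    refine Real.rpow_le_one_of_one_le_of_nonpos (by linarith [Real.pi_gt_three]) ?_
    rw [hsre]
    linarith
  have hpil : Real.pi ^ (-(s'.re / 2)) = Real.pi⁻¹ := by
    rw [hs're]
    norm_num
    rw [Real.rpow_neg_one]
  have hpiu0 : 0 < Real.pi ^ (-(s.re / 2)) := Real.rpow_pos_of_pos hpi _
  have hw0 : 0 ≤ ‖w‖ := norm_nonneg w
  have hup : ‖Pool.Agent.Lib.MP_00e05b_nt.xi s‖ ≤
      2 * (2 + ‖w‖) * 1 * (C1 * E) * (C2 * (2 + ‖w‖) ^ 8) := by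
    rw [hx]
    gcongr
  have hlo : 2 * 1 * Real.pi⁻¹ * (c * E) * (1 / 4) ≤ ‖Pool.Agent.Lib.MP_00e05b_nt.xi s'‖ := by
    rw [hx', hpil]
    gcongr
  rw [hHs, hHs']
  have hmul := mul_le_mul_of_nonneg_left hlo
    (by positivity : 0 ≤ 2 * C1 * C2 * (2 * Real.pi / c) * (2 + ‖w‖) ^ 9 * (1 / 16))
  have heq : 2 * C1 * C2 * (2 * Real.pi / c) * (2 + ‖w‖) ^ 9 * (1 / 16) *
      (2 * 1 * Real.pi⁻¹ * (c * E) * (1 / 4)) =
      1 / 16 * (2 * (2 + ‖w‖) * 1 * (C1 * E) * (C2 * (2 + ‖w‖) ^ 8)) := by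
    field_simp
    ring
  rw [heq] at hmul
  have h9 := mul_le_mul_of_nonneg_left hup (by norm_num : (0 : ℝ) ≤ 1 / 16)
  linarith

private theorem Wbd_near : ∃ C : ℝ, 0 ≤ C ∧ ∀ w : ℂ, ‖w‖ ≤ 7 →
    ‖HH 0 w‖ ≤ C * (2 + ‖w‖) ^ 9 * GG w := by
  have hcpt : IsCompact (closedBall (0 : ℂ) 7) := isCompact_closedBall 0 7
  have hne : (closedBall (0 : ℂ) 7).Nonempty := ⟨0, mem_closedBall_self (by norm_num)⟩
  obtain ⟨w0, _, hmin⟩ := hcpt.exists_isMinOn hne GG_cont.continuousOn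
  obtain ⟨M, hM⟩ := hcpt.exists_bound_of_continuousOn (HH_diff_z 0).continuous.continuousOn
  have hM0 : 0 ≤ M := (norm_nonneg _).trans (hM 0 (mem_closedBall_self (by norm_num)))
  have hm := GG_pos w0
  refine ⟨M / GG w0, by positivity, fun w hw => ?_⟩
  have hw' : w ∈ closedBall (0 : ℂ) 7 := by
    rw [mem_closedBall, dist_zero_right]
    exact hw
  have h1 := hM w hw'
  have h2 : GG w0 ≤ GG w := hmin hw'
  have h3 : 1 ≤ (2 + ‖w‖) ^ 9 := one_le_pow₀ (by linarith [norm_nonneg w])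
  have h4 : M = M / GG w0 * 1 * GG w0 := by
    field_simp
  rw [h4] at h1
  refine h1.trans ?_
  gcongr

theorem wbd : ∃ C : ℝ, 1 ≤ C ∧ ∀ w : ℂ, ‖HH 0 w‖ ≤ C * (2 + ‖w‖) ^ 9 * GG w := by
  obtain ⟨C1, hC1, hfar⟩ := Wbd_far
  obtain ⟨C2, hC2, hnear⟩ := Wbd_near
  refine ⟨1 + C1 + C2, by linarith, ?_⟩
  have hlow : ∀ w : ℂ, w.im ≤ 0 → ‖HH 0 w‖ ≤ (1 + C1 + C2) * (2 + ‖w‖) ^ 9 * GG w := by
    intro w hw0
    have hG := GG_pos w
    have hp : 1 ≤ (2 + ‖w‖) ^ 9 := one_le_pow₀ (by linarith [norm_nonneg w])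
    have hpG : 0 < (2 + ‖w‖) ^ 9 * GG w := by positivity
    rcases le_or_gt 3 |w.im| with h3 | h3
    · rw [← GG_eq w h3]
      have h4 : GG w ≤ (2 + ‖w‖) ^ 9 * GG w := le_mul_of_one_le_left hG.le hp
      have h5 : 0 ≤ (C1 + C2) * ((2 + ‖w‖) ^ 9 * GG w) := by positivity
      have h6 : (1 + C1 + C2) * (2 + ‖w‖) ^ 9 * GG w =
          (2 + ‖w‖) ^ 9 * GG w + (C1 + C2) * ((2 + ‖w‖) ^ 9 * GG w) := by ring
      rw [h6]
      linarith
    · rcases le_or_gt 4 |w.re| with h4 | h4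
      · have h5 := hfar w h4 (by linarith [(abs_lt.1 h3).1]) hw0
        have h7 : 0 ≤ (1 + C2) * ((2 + ‖w‖) ^ 9 * GG w) := by positivity
        have h6 : (1 + C1 + C2) * (2 + ‖w‖) ^ 9 * GG w =
            C1 * (2 + ‖w‖) ^ 9 * GG w + (1 + C2) * ((2 + ‖w‖) ^ 9 * GG w) := by ring
        rw [h6]
        linarith
      · have h5 := hnear w (by
          have h8 := Complex.norm_le_abs_re_add_abs_im w
          linarith)
        have h7 : 0 ≤ (1 + C1) * ((2 + ‖w‖) ^ 9 * GG w) := by positivity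
        have h6 : (1 + C1 + C2) * (2 + ‖w‖) ^ 9 * GG w =
            C2 * (2 + ‖w‖) ^ 9 * GG w + (1 + C1) * ((2 + ‖w‖) ^ 9 * GG w) := by ring
        rw [h6]
        linarith
  intro w
  rcases le_total w.im 0 with h | h
  · exact hlow w h
  · have h1 := hlow ((starRingEnd ℂ) w) (by rw [Complex.conj_im]; linarith)
    have h2 := HH_conj 0 w
    rw [map_zero] at h2
    have h3 : GG ((starRingEnd ℂ) w) = GG w := by
      unfold GG
      rw [Complex.conj_re, Complex.conj_im, abs_neg]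
    rw [h2, RCLike.norm_conj, RCLike.norm_conj, h3] at h1
    exact h1

end Pool.Agent.Lib.MP_ec260d_ntC
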