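import Mathlib
import Pool.Agent.Lib.MP_ec260d_ntC.DefsG
import Pool.Agent.Lib.MP_ec260d_ntC.GLip
import Pool.Agent.Lib.MP_ec260d_ntC.Wbd
import Pool.Agent.Lib.MP_ec260d_ntC.HG

/-!
# JOB Upp: upper bound for H_t in terms of H_0 (about 150 lines)

`gauss` with base `0`, `τ = t`, `κ = 0`, `c` a square root of `2 t` (`‖c‖ ≤ sqrt (2R)`): `‖HH t z‖ ≤ (2π)^(-1/2) ∫ ‖HH 0 (z + I c ξ)‖ exp (-ξ²/2) dξ`.
`wbd` and `glip`: `‖HH 0 (z + ζ)‖ ≤ C (2 + ‖z‖ + ‖ζ‖)^9 GG z exp (C log (2 + ‖z‖ + ‖ζ‖) ‖ζ‖)`, `‖ζ‖ = ‖c‖ |ξ| ≤ K |ξ|`.  With `L = log (2 + ‖z‖) ≥ log 2`: `log (2 + ‖z‖ + K|ξ|) ≤ L + K |ξ|` (as `log (a + b) ≤ log a + b` for `a ≥ 1`) — the product `K|ξ| * C K |ξ|` would give a quadratic term, so use instead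
`log (2 + ‖z‖ + K|ξ|) ≤ L + log (1 + K|ξ|) ≤ L + 2 (K |ξ|)^(1/2)` (`(2 + ‖z‖ + x) ≤ (2 + ‖z‖)(1 + x)`; `log (1+x) ≤ 2 sqrt x`), and `x^(3/2) ≤ ε x² + C_ε`.  Hence the integrand is at most `GG z * C' exp (C' L (1 + |ξ|) + C' (1 + |ξ|)^(3/2) - ξ²/2)` and, since `C' L |ξ| ≤ ξ²/8 + 2 C'² L²` and `C' (1+|ξ|)^(3/2) ≤ ξ²/8 + C''`,
the integral is at most `GG z exp (C''' (1 + L²)) ≤ GG z exp (C L²)` (`L ≥ log 2 > 1/2`).
-/

namespace Pool.Agent.Lib.MP_ec260d_ntC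

open Complex Set Filter Topology Metric MeasureTheory

private theorem upp_log (ε x : ℝ) (hε : 0 < ε) (hx : 0 ≤ x) :
    Real.log (1 + x) ≤ ε * x + (ε - 1 - Real.log ε) := by
  have h1 : (0 : ℝ) < 1 + x := by linarith
  have h2 := Real.log_le_sub_one_of_pos (mul_pos hε h1)
  rw [Real.log_mul hε.ne' h1.ne'] at h2
  linarith

private theorem upp_exp (K C₂ ε M L ξ l : ℝ) (hK : 0 ≤ K) (hC : 1 ≤ C₂)
    (hε : C₂ * ε * (K ^ 2 + 1) = 1 / 8) (hε0 : 0 < ε) (hM : 0 ≤ M) (hL : 1 / 2 ≤ L)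
    (hl1 : l ≤ K * |ξ|) (hl2 : l ≤ ε * (K * |ξ|) + M) :
    9 * (L + l) + C₂ * (L + l) * (K * |ξ|) - ξ ^ 2 / 2 ≤
      (18 + 2 * (2 * ((9 + C₂ * M) * K) + C₂ * K) ^ 2) * L ^ 2 - ξ ^ 2 / 4 := by
  have hx : 0 ≤ |ξ| := abs_nonneg ξ
  have hsq : |ξ| ^ 2 = ξ ^ 2 := sq_abs ξ
  set y := |ξ| with hy
  have hKy : 0 ≤ K * y := mul_nonneg hK hx
  have hC0 : 0 ≤ C₂ := by linarith
  have h1 : C₂ * l * (K * y) ≤ C₂ * (ε * (K * y) + M) * (K * y) :=
    mul_le_mul_of_nonneg_right (mul_le_mul_of_nonneg_left hl2 hC0) hKy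
  have h2 : C₂ * ε * K ^ 2 * y ^ 2 ≤ 1 / 8 * y ^ 2 := by
    refine mul_le_mul_of_nonneg_right ?_ (sq_nonneg y)
    have : 0 ≤ C₂ * ε := mul_nonneg hC0 hε0.le
    nlinarith
  set A := (9 + C₂ * M) * K with hA
  have hA0 : 0 ≤ A := mul_nonneg (by nlinarith [mul_nonneg hC0 hM]) hK
  have hB0 : 0 ≤ C₂ * K := mul_nonneg hC0 hK
  have h3 : A + C₂ * K * L ≤ (2 * A + C₂ * K) * L := by nlinarith
  have h4 : 0 ≤ A + C₂ * K * L := by
    have := mul_nonneg hB0 (by linarith : (0 : ℝ) ≤ L)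
    linarith
  have h5 : (A + C₂ * K * L) ^ 2 ≤ (2 * A + C₂ * K) ^ 2 * L ^ 2 := by
    rw [← mul_pow]
    exact pow_le_pow_left₀ h4 h3 2
  have h6 : (A + C₂ * K * L) * y ≤ 2 * (A + C₂ * K * L) ^ 2 + y ^ 2 / 8 := by
    nlinarith [sq_nonneg (A + C₂ * K * L - y / 4)]
  have h7 : 9 * L ≤ 18 * L ^ 2 := by nlinarith
  have h8 : (A + C₂ * K * L) * y = 9 * (K * y) + C₂ * M * (K * y) + C₂ * L * (K * y) := by
    rw [hA]
    ring
  have h9 : C₂ * (ε * (K * y) + M) * (K * y) = C₂ * ε * K ^ 2 * y ^ 2 + C₂ * M * (K * y) := by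
    ring
  have h10 : 9 * l ≤ 9 * (K * y) := by linarith
  have h11 : C₂ * (L + l) * (K * y) = C₂ * L * (K * y) + C₂ * l * (K * y) := by ring
  rw [h11]
  nlinarith

theorem upp (R : ℝ) : ∃ C : ℝ, 1 ≤ C ∧ ∀ t z : ℂ, ‖t‖ ≤ R →
    ‖HH t z‖ ≤ GG z * Real.exp (C * Real.log (2 + ‖z‖) ^ 2) := by
  obtain ⟨C₁, hC₁, hw⟩ := wbd
  obtain ⟨C₂, hC₂, hg⟩ := glip
  set K : ℝ := Real.sqrt (2 * R) with hKdef
  have hK : 0 ≤ K := Real.sqrt_nonneg _
  set ε : ℝ := 1 / (8 * C₂ * (K ^ 2 + 1)) with hεdef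
  have hC20 : 0 < C₂ := by linarith
  have hε0 : 0 < ε := by positivity
  have hε : C₂ * ε * (K ^ 2 + 1) = 1 / 8 := by
    rw [hεdef]
    field_simp
  set M : ℝ := |ε - 1 - Real.log ε| with hMdef
  have hM : 0 ≤ M := abs_nonneg _
  set P : ℝ := 18 + 2 * (2 * ((9 + C₂ * M) * K) + C₂ * K) ^ 2 with hP
  have hlog2 : 1 / 2 ≤ Real.log 2 := by
    have := Real.log_two_gt_d9
    linarith
  have hlC : 0 ≤ Real.log (2 * C₁) := Real.log_nonneg (by linarith)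
  refine ⟨P + 4 * Real.log (2 * C₁), by nlinarith [sq_nonneg (2 * ((9 + C₂ * M) * K) + C₂ * K)],
    fun t z ht => ?_⟩
  obtain ⟨c, hc⟩ := IsAlgClosed.exists_pow_nat_eq (2 * t) (n := 2) (by norm_num)
  have hcK : ‖c‖ ≤ K := by
    rw [hKdef]
    refine Real.le_sqrt_of_sq_le ?_
    rw [← norm_pow, hc, norm_mul, Complex.norm_ofNat]
    linarith
  set L : ℝ := Real.log (2 + ‖z‖) with hLdef
  have hz0 : 0 ≤ ‖z‖ := norm_nonneg z
  have hL : 1 / 2 ≤ L := hlog2.trans (Real.log_le_log (by norm_num) (by linarith))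
  have hGG := GG_pos z
  have hgauss := gauss 0 t z c 0 hc
  rw [zero_add] at hgauss
  have hpt : ∀ ξ : ℝ, ‖HH 0 (z + I * c * ((ξ : ℂ) + 0)) * cexp (-((ξ : ℂ) + 0) ^ 2 / 2)‖ ≤
      (C₁ * GG z * Real.exp (P * L ^ 2)) * Real.exp (-(1 / 4) * ξ ^ 2) := by
    intro ξ
    rw [add_zero, norm_mul, Complex.norm_exp]
    have e1 : (-(ξ : ℂ) ^ 2 / 2).re = -ξ ^ 2 / 2 := by
      have : (-(ξ : ℂ) ^ 2 / 2) = ((-ξ ^ 2 / 2 : ℝ) : ℂ) := by push_cast; ring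
      rw [this, Complex.ofReal_re]
    rw [e1]
    set w : ℂ := z + I * c * (ξ : ℂ) with hwdef
    have hwz : w - z = I * c * (ξ : ℂ) := by rw [hwdef]; ring
    have hn : ‖w - z‖ ≤ K * |ξ| := by
      rw [hwz, norm_mul, norm_mul, Complex.norm_I, one_mul, Complex.norm_real, Real.norm_eq_abs]
      exact mul_le_mul_of_nonneg_right hcK (abs_nonneg ξ)
    set x : ℝ := K * |ξ| with hxdef
    have hx : 0 ≤ x := mul_nonneg hK (abs_nonneg ξ)
    set l : ℝ := Real.log (1 + x) with hl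
    have hl0 : 0 ≤ l := Real.log_nonneg (by linarith)
    have hl1 : l ≤ x := by
      have := Real.log_le_sub_one_of_pos (by linarith : (0 : ℝ) < 1 + x)
      linarith
    have hl2 : l ≤ ε * x + M := by
      have h := upp_log ε x hε0 hx
      have h' := le_abs_self (ε - 1 - Real.log ε)
      linarith
    have hb : 2 + ‖z‖ + x ≤ Real.exp (L + l) := by
      rw [Real.exp_add, hLdef, hl, Real.exp_log (by linarith), Real.exp_log (by linarith)]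
      nlinarith
    have hwn : ‖w‖ ≤ ‖z‖ + x := by
      have h1 : ‖w‖ ≤ ‖z‖ + ‖w - z‖ := by
        have := norm_add_le z (w - z)
        rwa [add_sub_cancel] at this
      linarith
    have h1 : (2 + ‖w‖) ^ 9 ≤ Real.exp (9 * (L + l)) := by
      have : Real.exp (9 * (L + l)) = Real.exp (L + l) ^ 9 := by
        rw [← Real.exp_nat_mul]
        norm_num
      rw [this]
      exact pow_le_pow_left₀ (by positivity) (by linarith) 9
    have hlog : Real.log (2 + ‖z‖ + ‖w - z‖) ≤ L + l := by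
      rw [← Real.log_exp (L + l)]
      refine Real.log_le_log (by positivity) ?_
      linarith
    have h2 : GG w ≤ GG z * Real.exp (C₂ * (L + l) * x) := by
      refine (hg z w).trans (mul_le_mul_of_nonneg_left (Real.exp_le_exp.2 ?_) hGG.le)
      refine mul_le_mul (mul_le_mul_of_nonneg_left hlog hC20.le) hn (norm_nonneg _) ?_
      exact mul_nonneg hC20.le (by linarith)
    have h3 : ‖HH 0 w‖ ≤ C₁ * Real.exp (9 * (L + l)) * (GG z * Real.exp (C₂ * (L + l) * x)) := by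
      refine (hw w).trans ?_
      refine mul_le_mul (mul_le_mul_of_nonneg_left h1 (by linarith)) h2 (GG_pos w).le ?_
      positivity
    have h4 := upp_exp K C₂ ε M L ξ l hK hC₂ hε hε0 hM hL hl1 hl2
    calc ‖HH 0 w‖ * Real.exp (-ξ ^ 2 / 2) ≤
        (C₁ * Real.exp (9 * (L + l)) * (GG z * Real.exp (C₂ * (L + l) * x))) *
          Real.exp (-ξ ^ 2 / 2) := mul_le_mul_of_nonneg_right h3 (Real.exp_pos _).le
      _ = (C₁ * GG z) * Real.exp (9 * (L + l) + C₂ * (L + l) * x - ξ ^ 2 / 2) := by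
        rw [show 9 * (L + l) + C₂ * (L + l) * x - ξ ^ 2 / 2 =
          9 * (L + l) + C₂ * (L + l) * x + -ξ ^ 2 / 2 by ring, Real.exp_add, Real.exp_add]
        ring
      _ ≤ (C₁ * GG z) * Real.exp (P * L ^ 2 - ξ ^ 2 / 4) := by
        refine mul_le_mul_of_nonneg_left (Real.exp_le_exp.2 h4) ?_
        positivity
      _ = (C₁ * GG z * Real.exp (P * L ^ 2)) * Real.exp (-(1 / 4) * ξ ^ 2) := by
        rw [show P * L ^ 2 - ξ ^ 2 / 4 = P * L ^ 2 + -(1 / 4) * ξ ^ 2 by ring, Real.exp_add]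
        ring
  have hint : Integrable fun ξ : ℝ =>
      (C₁ * GG z * Real.exp (P * L ^ 2)) * Real.exp (-(1 / 4) * ξ ^ 2) :=
    (integrable_exp_neg_mul_sq (by norm_num)).const_mul _
  have hI := norm_integral_le_of_norm_le hint (Filter.Eventually.of_forall hpt)
  rw [integral_const_mul, integral_gaussian] at hI
  rw [hgauss, norm_mul, norm_inv, Complex.norm_real, Real.norm_of_nonneg (Real.sqrt_nonneg _)]
  have hs : (Real.sqrt (2 * Real.pi))⁻¹ * Real.sqrt (Real.pi / (1 / 4)) ≤ 2 := by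
    have hp : 0 < Real.sqrt (2 * Real.pi) := Real.sqrt_pos.2 (by positivity)
    rw [inv_mul_le_iff₀ hp, show (2 : ℝ) = Real.sqrt 4 by
      rw [show (4 : ℝ) = 2 ^ 2 by norm_num, Real.sqrt_sq (by norm_num)], ← Real.sqrt_mul (by
        positivity)]
    have e4 : Real.sqrt 4 = 2 := by
      rw [show (4 : ℝ) = 2 ^ 2 by norm_num, Real.sqrt_sq (by norm_num)]
    rw [e4]
    refine Real.sqrt_le_sqrt ?_
    have := Real.pi_pos
    nlinarith
  have hfin : 2 * C₁ ≤ Real.exp (4 * Real.log (2 * C₁) * L ^ 2) := by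
    have h1 : Real.log (2 * C₁) ≤ 4 * Real.log (2 * C₁) * L ^ 2 := by
      have : 1 ≤ 4 * L ^ 2 := by nlinarith
      nlinarith
    calc 2 * C₁ = Real.exp (Real.log (2 * C₁)) := (Real.exp_log (by linarith)).symm
      _ ≤ _ := Real.exp_le_exp.2 h1
  have hsp : 0 ≤ (Real.sqrt (2 * Real.pi))⁻¹ := inv_nonneg.2 (Real.sqrt_nonneg _)
  calc (Real.sqrt (2 * Real.pi))⁻¹ *
        ‖∫ ξ : ℝ, HH 0 (z + I * c * ((ξ : ℂ) + 0)) * cexp (-((ξ : ℂ) + 0) ^ 2 / 2)‖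
      ≤ (Real.sqrt (2 * Real.pi))⁻¹ *
        (C₁ * GG z * Real.exp (P * L ^ 2) * Real.sqrt (Real.pi / (1 / 4))) :=
        mul_le_mul_of_nonneg_left hI hsp
    _ = ((Real.sqrt (2 * Real.pi))⁻¹ * Real.sqrt (Real.pi / (1 / 4))) *
        (C₁ * (GG z * Real.exp (P * L ^ 2))) := by ring
    _ ≤ 2 * (C₁ * (GG z * Real.exp (P * L ^ 2))) := by
        refine mul_le_mul_of_nonneg_right hs ?_
        positivity
    _ = (2 * C₁) * (GG z * Real.exp (P * L ^ 2)) := by ring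
    _ ≤ Real.exp (4 * Real.log (2 * C₁) * L ^ 2) * (GG z * Real.exp (P * L ^ 2)) := by
        refine mul_le_mul_of_nonneg_right hfin ?_
        positivity
    _ = GG z * Real.exp ((P + 4 * Real.log (2 * C₁)) * L ^ 2) := by
        rw [show (P + 4 * Real.log (2 * C₁)) * L ^ 2 =
          P * L ^ 2 + 4 * Real.log (2 * C₁) * L ^ 2 from add_mul _ _ _,
          Real.exp_add (P * L ^ 2) (4 * Real.log (2 * C₁) * L ^ 2)]
        generalize Real.exp (P * L ^ 2) = e₁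
        generalize Real.exp (4 * Real.log (2 * C₁) * L ^ 2) = e₂
        ring

end Pool.Agent.Lib.MP_ec260d_ntC
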