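import Mathlib
import Pool.Agent.Lib.MP_ec260d_ntC.DefsG
import Pool.Agent.Lib.MP_ec260d_ntC.Upp
import Pool.Agent.Lib.MP_ec260d_nt.DiscCount
import Pool.Agent.Lib.MP_00e05b_nt.Factor

/-!
# JOB CntT: the number of t with H_t(z) = 0 (about 100 lines)

`disc_count` (file `MP_ec260d_nt/DiscCount.lean`) for `f t = HH t z` (entire in `t`, `HH_diff_t`), `z0 = 0`, `r = R`, `R' = 2R`, `M = GG z exp (C log(2+‖z‖)²)` (`upp (2R)`): `(∑_{a ∈ S} order) log 2 ≤ log M - log ‖HH 0 z‖`; the order at a zero is at least `1` (it is finite since `f 0 ≠ 0`; `f` is not identically zero).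
`D = log GG z - log ‖HH 0 z‖ ≥ -C' log (2 + ‖z‖)` by `wbd`.  `S.card ≤ (C log² + D)/log 2`; `1/log 2 ≤ 3/2 ≤ 2`, and `(2 - 1/log 2) (-D) ≤ C'' log²` when `D < 0`.
-/

namespace Pool.Agent.Lib.MP_ec260d_ntC

open Complex Set Filter Topology Metric MeasureTheory

theorem cntT (R : ℝ) (hR : 0 < R) : ∃ C : ℝ, 1 ≤ C ∧ ∀ z : ℂ, HH 0 z ≠ 0 → ∀ S : Finset ℂ,
    (∀ t ∈ S, ‖t‖ ≤ R ∧ HH t z = 0) →
      (S.card : ℝ) ≤ C * Real.log (2 + ‖z‖) ^ 2 + 2 * (Real.log (GG z) - Real.log ‖HH 0 z‖) := by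
  obtain ⟨C0, hC0, hw⟩ := wbd
  obtain ⟨C1, hC1, hu⟩ := upp (2 * R)
  have hlC0 : 0 ≤ Real.log C0 := Real.log_nonneg hC0
  refine ⟨2 * C1 + 8 * Real.log C0 + 36, by linarith, ?_⟩
  intro z hz S hS
  have hG : 0 < GG z := GG_pos z
  have hH : 0 < ‖HH 0 z‖ := norm_pos_iff.2 hz
  have hz0 : 0 ≤ ‖z‖ := norm_nonneg z
  set L : ℝ := Real.log (2 + ‖z‖) with hL
  have hl2 : (1 / 2 : ℝ) ≤ Real.log 2 := by
    have := Real.log_two_gt_d9
    linarith
  have hL2 : (1 / 2 : ℝ) ≤ L := by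
    refine hl2.trans ?_
    exact Real.log_le_log (by norm_num) (by linarith)
  have hLsq : L ≤ 2 * L ^ 2 := by nlinarith
  have hLsq1 : 1 ≤ 4 * L ^ 2 := by nlinarith
  -- the lower bound for the difference
  have hD : Real.log ‖HH 0 z‖ ≤ Real.log C0 + 9 * L + Real.log (GG z) := by
    have h1 := Real.log_le_log hH (hw z)
    rw [Real.log_mul (by positivity) hG.ne', Real.log_mul (by positivity) (by positivity),
      Real.log_pow] at h1
    push_cast at h1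
    exact h1
  -- Jensen
  have hM : ∀ t : ℂ, ‖t - 0‖ ≤ 2 * R → ‖HH t z‖ ≤ GG z * Real.exp (C1 * L ^ 2) := by
    intro t ht
    rw [sub_zero] at ht
    exact hu t z ht
  have hJ := Pool.Agent.Lib.MP_ec260d_nt.disc_count (f := fun t => HH t z) (HH_diff_t z) 0 R (2 * R)
    (GG z * Real.exp (C1 * L ^ 2)) hR (by linarith) hz hM S
    (fun a ha => ⟨(hS a ha).2, by rw [sub_zero]; exact (hS a ha).1⟩)
  rw [mul_div_assoc, div_self hR.ne', mul_one, Real.log_mul hG.ne' (Real.exp_pos _).ne',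
    Real.log_exp] at hJ
  have hcard : (S.card : ℝ) ≤ ∑ a ∈ S, (analyticOrderNatAt (fun t => HH t z) a : ℝ) := by
    have h1 : ∑ a ∈ S, (1 : ℝ) ≤ ∑ a ∈ S, (analyticOrderNatAt (fun t => HH t z) a : ℝ) := by
      refine Finset.sum_le_sum fun a ha => ?_
      have h2 := Pool.Agent.Lib.MP_00e05b_nt.order_pos (f := fun t => HH t z) (HH_diff_t z)
        (z₀ := 0) hz (a := a) (hS a ha).2
      exact_mod_cast h2
    rw [Finset.sum_const, nsmul_eq_mul, mul_one] at h1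
    exact h1
  have hc0 : (0 : ℝ) ≤ S.card := Nat.cast_nonneg _
  have hsum : (S.card : ℝ) * Real.log 2 ≤
      Real.log (GG z) + C1 * L ^ 2 - Real.log ‖HH 0 z‖ :=
    (mul_le_mul_of_nonneg_right hcard (by linarith)).trans hJ
  have h3 : (S.card : ℝ) * (1 / 2) ≤ (S.card : ℝ) * Real.log 2 :=
    mul_le_mul_of_nonneg_left hl2 hc0
  have h4 : Real.log C0 * 1 ≤ Real.log C0 * (4 * L ^ 2) := mul_le_mul_of_nonneg_left hLsq1 hlC0
  nlinarith

end Pool.Agent.Lib.MP_ec260d_ntC
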