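import Mathlib
import Pool.Agent.Lib.MP_ec260d_ntC.DefsG
import Pool.Agent.Lib.MP_ec260d_ntC.GLip
import Pool.Agent.Lib.MP_ec260d_ntC.Wbd
import Pool.Agent.Lib.MP_ec260d_ntC.HG

/-!
# JOB Conf: for bounded t the zeros of H_t are near the real axis (about 300 lines)

By `HH_even` assume `z.im < 0`; `y = -z.im ≥ ‖z‖^(2/3)`, `‖z‖ ≥ Z0` large, `‖t‖ ≤ R`.  On the half plane `{im ≤ -2}`, `HH 0` has no zeros; put `λ(w) = Hz 0 w / HH 0 w`, `‖λ w‖ ≤ C log (2 + ‖w‖)` (`ldx`), analytic on `{im < -1}`.  Let `l = λ(z)`, `Lg = log (2 + ‖z‖)`.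
(1) Local expansion.  For `‖ζ‖ ≤ y/4`: the points `z + x ζ` have imaginary part `≤ -3y/4`.  `λ` is Lipschitz on `ball z (y/2)` with constant `≤ 4 (sup_{ball z (3y/4)} ‖λ‖)/y ≤ C Lg / y` (Cauchy estimate, `y/4 ≥ ` distance to the boundary; `3y/4 ≤ y - 2`).  Hence, with `g(x) = HH 0 (z + x ζ) exp (- x l ζ)`, `g' = (λ(z + xζ) - l) ζ g`, so
`HH 0 (z + ζ) = HH 0 z * exp (l ζ + r)`, `‖r‖ ≤ C Lg ‖ζ‖²/y` (e.g. `log g` along the segment: `r = ∫_0^1 (λ(z + xζ) - l) ζ dx`; verify by differentiating `g(x) exp (-∫_0^x ...)`).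
(2) Gauss formula with base `0`, `τ = t`, `c² = 2t`, shift `κ = I l c`: `I c κ = - c² l = -2 t l`.  So with `ζ(ξ) = I c ξ - 2 t l`: `sqrt (2π) HH t z = ∫ HH 0 (z + ζ(ξ)) exp (-(ξ + κ)²/2) dξ`, and `l ζ - (ξ+κ)²/2 = I l c ξ - 2 t l² - ξ²/2 - I l c ξ + l² c²/2 = - t l² - ξ²/2`.
(3) Inner part `|ξ| ≤ Ξ`, `Ξ = c1 y` with `c1 > 0` so small (depending on `R`) that `‖c‖ Ξ ≤ y/8`; also `‖2 t l‖ ≤ 2 R C Lg ≤ y/8` for `Z0` large.  There the integrand is `HH 0 z exp (-t l²) exp (-ξ²/2) exp (r)`, `‖r‖ ≤ C' Lg (Lg² + ξ²)/y ≤ C' (1 + ξ²) ‖z‖^(-1/2)` (as `y ≥ ‖z‖^(2/3)` and `Lg³ ≤ C ‖z‖^(1/6)`).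
So `‖exp r - 1‖ ≤ ‖r‖ exp ‖r‖`, and `∫_{|ξ| ≤ Ξ} exp (-ξ²/2) ‖exp r - 1‖ ≤ 1/4` for `Z0` large, while `∫_{|ξ| ≤ Ξ} exp (-ξ²/2) ≥ 2`.
(4) Outer part `|ξ| > Ξ`: `‖HH 0 (z + ζ)‖ ≤ exp (C (1 + ‖z‖ + |ξ|)^(5/4))` (`wbd` and `glip` from the point `0`, or `HH_growth` in the weaker form with exponent `3/2` is NOT enough; use `‖HH 0 w‖ ≤ C (2+‖w‖)^9 GG 0 exp (C log (2 + ‖w‖) ‖w‖)`), `‖exp (-(ξ+κ)²/2)‖ ≤ exp (-ξ²/2 + ‖κ‖ |ξ| + ‖κ‖²)`, `‖κ‖ ≤ C Lg`, and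
`‖HH 0 z exp (-t l²)‖ ≥ exp (-C (1 + ‖z‖) Lg - C Lg²)` (`GG_eq`, `GG_lower`).  Since `ξ² ≥ c1² ‖z‖^(4/3)` and also `ξ²` dominates `(1 + |ξ|)^(5/4)`: the quotient of the outer integral by `‖HH 0 z exp (-t l²)‖` is at most `∫_{|ξ|>Ξ} exp (-ξ²/4) ≤ 1/4` for `Z0` large.
Total: `‖sqrt (2π) HH t z / (HH 0 z exp (-t l²)) ‖ ≥ 2 - 1/4 - 1/4 > 0`.
-/

namespace Pool.Agent.Lib.MP_ec260d_ntC

open Complex Set Filter Topology Metric MeasureTheory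

private theorem conf_local {F : ℂ → ℂ} (hF : Differentiable ℂ F) {z : ℂ} {ρ B : ℝ} (hρ : 0 < ρ)
    (hne : ∀ w ∈ ball z (2 * ρ), F w ≠ 0) (hB : ∀ w ∈ ball z (2 * ρ), ‖deriv F w‖ ≤ B * ‖F w‖)
    {ζ : ℂ} (hζ : ‖ζ‖ < ρ) :
    ∃ r, F (z + ζ) = F z * cexp (deriv F z / F z * ζ + r) ∧ ‖r‖ ≤ 2 * B / ρ * ‖ζ‖ ^ 2 := by
  set lam : ℂ → ℂ := fun w => deriv F w / F w with hlam
  have hlamd : DifferentiableOn ℂ lam (ball z (2 * ρ)) :=
    (hF.differentiableOn.deriv isOpen_ball).div hF.differentiableOn hne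
  have hlamB : ∀ w ∈ ball z (2 * ρ), ‖lam w‖ ≤ B := by
    intro w hw
    rw [hlam]
    simp only
    rw [norm_div, div_le_iff₀ (norm_pos_iff.2 (hne w hw))]
    exact hB w hw
  have hsub : ball z ρ ⊆ ball z (2 * ρ) := ball_subset_ball (by linarith)
  have hl' : ∀ w ∈ ball z ρ, ‖deriv lam w‖ ≤ B / (ρ / 2) := by
    intro w hw
    have hcl : closedBall w (ρ / 2) ⊆ ball z (2 * ρ) := by
      intro v hv
      rw [mem_closedBall] at hv
      rw [mem_ball] at hw ⊢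
      calc dist v z ≤ dist v w + dist w z := dist_triangle _ _ _
        _ < 2 * ρ := by linarith
    refine Complex.norm_deriv_le_of_forall_mem_sphere_norm_le (by linarith)
      (hlamd.diffContOnCl_ball hcl) ?_
    intro v hv
    exact hlamB v (hcl (sphere_subset_closedBall hv))
  have hz : z ∈ ball z ρ := mem_ball_self hρ
  have hLip : ∀ w ∈ ball z ρ, ‖lam w - lam z‖ ≤ B / (ρ / 2) * ‖w - z‖ := by
    intro w hw
    refine Convex.norm_image_sub_le_of_norm_deriv_le (s := ball z ρ) ?_ hl' (convex_ball z ρ) hz hw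
    intro v hv
    exact hlamd.differentiableAt (isOpen_ball.mem_nhds (hsub hv))
  have hB0 : 0 ≤ B := le_trans (norm_nonneg _) (hlamB z (hsub hz))
  have hd2 : DifferentiableOn ℂ (fun w => lam w - lam z) (ball z ρ) :=
    (hlamd.mono hsub).sub_const _
  obtain ⟨g, hg⟩ := hd2.isExactOn_ball
  have hζb : z + ζ ∈ ball z ρ := by
    rw [mem_ball, dist_eq_norm, add_sub_cancel_left]
    exact hζ
  refine ⟨g (z + ζ) - g z, ?_, ?_⟩
  · have hder : ∀ w ∈ ball z ρ, HasDerivWithinAt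
        (fun w => F w * cexp (-(lam z * (w - z) + (g w - g z)))) ((fun _ => (0 : ℂ)) w)
        (ball z ρ) w := by
      intro w hw
      have h1 : HasDerivAt F (deriv F w) w := (hF w).hasDerivAt
      have h2 : HasDerivAt (fun w => -(lam z * (w - z) + (g w - g z)))
          (-(lam z * 1 + (lam w - lam z))) w := by
        refine HasDerivAt.neg (HasDerivAt.add ?_ ((hg w hw).sub_const _))
        exact ((hasDerivAt_id w).sub_const z).const_mul (lam z)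
      have h3 := h1.mul h2.cexp
      have h4 : deriv F w * cexp (-(lam z * (w - z) + (g w - g z))) +
          F w * (cexp (-(lam z * (w - z) + (g w - g z))) * -(lam z * 1 + (lam w - lam z))) = 0 := by
        have h5 : F w * lam w = deriv F w := by
          rw [hlam]
          simp only
          rw [mul_div_cancel₀ _ (hne w (hsub hw))]
        rw [← h5]
        ring
      exact (h3.congr_deriv h4).hasDerivWithinAt
    have h6 := Convex.norm_image_sub_le_of_norm_hasDerivWithin_le (C := 0) hder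
      (fun w _ => by simp) (convex_ball z ρ) hz hζb
    rw [zero_mul] at h6
    have h7 := sub_eq_zero.1 (norm_le_zero_iff.1 h6)
    simp only [sub_self, mul_zero, add_zero, neg_zero, Complex.exp_zero, mul_one,
      add_sub_cancel_left] at h7
    have hq : F (z + ζ) = F z * cexp (lam z * ζ + (g (z + ζ) - g z)) := by
      rw [← h7, mul_assoc, ← Complex.exp_add, neg_add_cancel, Complex.exp_zero, mul_one]
    exact hq
  · have hclb : closedBall z ‖ζ‖ ⊆ ball z ρ := closedBall_subset_ball hζ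
    have h8 : ∀ w ∈ closedBall z ‖ζ‖, ‖lam w - lam z‖ ≤ B / (ρ / 2) * ‖ζ‖ := by
      intro w hw
      refine le_trans (hLip w (hclb hw)) ?_
      refine mul_le_mul_of_nonneg_left ?_ (by positivity)
      rw [mem_closedBall, dist_eq_norm] at hw
      exact hw
    have h9 := Convex.norm_image_sub_le_of_norm_hasDerivWithin_le (f := g)
      (f' := fun w => lam w - lam z) (s := closedBall z ‖ζ‖) (x := z) (y := z + ζ)
      (fun w hw => (hg w (hclb hw)).hasDerivWithinAt) h8 (convex_closedBall z _)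
      (mem_closedBall_self (norm_nonneg _)) (by
        rw [mem_closedBall, dist_eq_norm, add_sub_cancel_left])
    rw [add_sub_cancel_left] at h9
    refine le_trans h9 (le_of_eq ?_)
    field_simp

private theorem conf_int {G : ℝ → ℂ} (hG : Integrable G)
    (h : ∀ ξ : ℝ, ‖G ξ - cexp (-((ξ : ℂ) ^ 2) / 2)‖ ≤ 1 / 4 * Real.exp (-(1 / 8) * ξ ^ 2)) :
    ∫ ξ, G ξ ≠ 0 := by
  intro h0
  have hE : ∀ ξ : ℝ, cexp (-((ξ : ℂ) ^ 2) / 2) = ((Real.exp (-(1 / 2) * ξ ^ 2) : ℝ) : ℂ) := by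
    intro ξ
    push_cast
    congr 1
    ring
  have hI : Integrable (fun ξ : ℝ => cexp (-((ξ : ℂ) ^ 2) / 2)) := by
    have h1 := (integrable_exp_neg_mul_sq (b := 1 / 2) (by norm_num)).ofReal (𝕜 := ℂ)
    refine h1.congr (Filter.Eventually.of_forall fun ξ => ?_)
    exact (hE ξ).symm
  have h2 : ∫ ξ : ℝ, cexp (-((ξ : ℂ) ^ 2) / 2) = ((Real.sqrt (Real.pi / (1 / 2)) : ℝ) : ℂ) := by
    rw [← integral_gaussian, ← integral_complex_ofReal]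
    exact integral_congr_ae (Filter.Eventually.of_forall hE)
  have h3 : ‖∫ ξ : ℝ, (G ξ - cexp (-((ξ : ℂ) ^ 2) / 2))‖ ≤
      1 / 4 * Real.sqrt (Real.pi / (1 / 8)) := by
    rw [← integral_gaussian, ← integral_const_mul]
    refine norm_integral_le_of_norm_le ?_ (Filter.Eventually.of_forall h)
    exact (integrable_exp_neg_mul_sq (by norm_num)).const_mul _
  rw [integral_sub hG hI, h0, zero_sub, norm_neg, h2, Complex.norm_real,
    Real.norm_of_nonneg (Real.sqrt_nonneg _)] at h3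
  have h4 : Real.sqrt (Real.pi / (1 / 8)) = 2 * Real.sqrt (Real.pi / (1 / 2)) := by
    rw [show Real.pi / (1 / 8) = 2 ^ 2 * (Real.pi / (1 / 2)) by ring,
      Real.sqrt_mul (by norm_num), Real.sqrt_sq (by norm_num)]
  rw [h4] at h3
  have h5 : 0 < Real.sqrt (Real.pi / (1 / 2)) := Real.sqrt_pos.2 (by positivity)
  linarith

private theorem conf_log (M : ℝ) : ∃ Z0 : ℝ, 1 ≤ Z0 ∧ ∀ Z, Z0 ≤ Z →
    M * Real.log (2 + Z) ^ 3 ≤ Z ^ (2 / 3 : ℝ) := by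
  have hM1 : 1 ≤ max M 1 := le_max_right _ _
  set K : ℝ := max M 1 with hK
  have h1 := (isLittleO_log_rpow_atTop (r := 2 / 9) (by norm_num)).def
    (show (0 : ℝ) < 1 / (2 * K) by positivity)
  obtain ⟨A, hA⟩ := Filter.eventually_atTop.1 h1
  refine ⟨max A 2, le_trans (by norm_num) (le_max_right _ _), fun Z hZ => ?_⟩
  have hZ2 : 2 ≤ Z := le_trans (le_max_right _ _) hZ
  have h2 := hA Z (le_trans (le_max_left _ _) hZ)
  have hl0 : 0 ≤ Real.log Z := Real.log_nonneg (by linarith)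
  have hp0 : 0 ≤ Z ^ (2 / 9 : ℝ) := Real.rpow_nonneg (by linarith) _
  rw [Real.norm_of_nonneg hl0, Real.norm_of_nonneg hp0] at h2
  have h3 : Real.log (2 + Z) ≤ 2 * Real.log Z := by
    rw [← Real.log_rpow (by linarith) (2 : ℝ)]
    refine Real.log_le_log (by linarith) ?_
    rw [Real.rpow_two]
    nlinarith
  have h4 : 0 ≤ Real.log (2 + Z) := Real.log_nonneg (by linarith)
  have h5 : Real.log (2 + Z) ≤ 1 / K * Z ^ (2 / 9 : ℝ) := by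
    refine le_trans h3 (le_trans (mul_le_mul_of_nonneg_left h2 (by norm_num)) (le_of_eq ?_))
    field_simp
  have h6 : (Z ^ (2 / 9 : ℝ)) ^ 3 = Z ^ (2 / 3 : ℝ) := by
    rw [← Real.rpow_natCast, ← Real.rpow_mul (by linarith)]
    congr 1
    norm_num
  have h7 : Real.log (2 + Z) ^ 3 ≤ (1 / K * Z ^ (2 / 9 : ℝ)) ^ 3 := pow_le_pow_left₀ h4 h5 3
  rw [mul_pow, h6] at h7
  have h8 : (1 / K) ^ 3 ≤ 1 / K := by
    have h9 : 1 / K ≤ 1 := by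
      rw [div_le_one (by linarith)]
      exact hM1
    have h10 : 0 ≤ 1 / K := by positivity
    nlinarith [mul_nonneg h10 h10, mul_nonneg h10 (sub_nonneg.2 h9), mul_nonneg (mul_nonneg h10 h10) (sub_nonneg.2 h9)]
  have h11 : 0 ≤ Z ^ (2 / 3 : ℝ) := Real.rpow_nonneg (by linarith) _
  calc M * Real.log (2 + Z) ^ 3 ≤ K * Real.log (2 + Z) ^ 3 :=
        mul_le_mul_of_nonneg_right (le_max_left _ _) (by positivity)
    _ ≤ K * (1 / K * Z ^ (2 / 3 : ℝ)) := by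
        refine mul_le_mul_of_nonneg_left ?_ (by linarith)
        exact le_trans h7 (mul_le_mul_of_nonneg_right h8 h11)
    _ = Z ^ (2 / 3 : ℝ) := by
        field_simp

private theorem conf_X {C : ℝ} (hC : 1 ≤ C) : ∃ X0 : ℝ, 3 ≤ X0 ∧ ∀ X, X0 ≤ X →
    2 * Real.log (3 * C * X) ≤ 1 / (152 * C ^ 4) * X := by
  have h1 := (Real.isLittleO_log_id_atTop).def
    (show (0 : ℝ) < 1 / (152 * C ^ 4) / (6 * C) by positivity)
  obtain ⟨A, hA⟩ := Filter.eventually_atTop.1 h1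
  refine ⟨max A 3, le_max_right _ _, fun X hX => ?_⟩
  have hX3 : 3 ≤ X := le_trans (le_max_right _ _) hX
  have hXX : X ≤ 3 * C * X := by nlinarith
  have h2 := hA (3 * C * X) (le_trans (le_trans (le_max_left _ _) hX) hXX)
  have hl0 : 0 ≤ Real.log (3 * C * X) := Real.log_nonneg (by linarith)
  rw [Real.norm_of_nonneg hl0, id, Real.norm_of_nonneg (by positivity)] at h2
  refine le_trans (mul_le_mul_of_nonneg_left h2 (by norm_num)) (le_of_eq ?_)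
  field_simp
  norm_num

private theorem conf_alg {t l c κ r : ℂ} (hc : c ^ 2 = 2 * t) (hκ : κ = I * l * c) (ξ : ℂ) :
    l * (I * c * (ξ + κ)) + r + -(ξ + κ) ^ 2 / 2 = -(t * l ^ 2) + (-(ξ ^ 2) / 2 + r) := by
  have hI : I ^ 2 = -1 := Complex.I_sq
  rw [hκ]
  linear_combination (l ^ 2 * c ^ 2 / 2) * hI + (-(l ^ 2) / 2) * hc

private theorem conf_zeta {t l c κ : ℂ} (hc : c ^ 2 = 2 * t) (hκ : κ = I * l * c) (ξ : ℂ) :
    I * c * (ξ + κ) = I * c * ξ - 2 * t * l := by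
  have hI : I ^ 2 = -1 := Complex.I_sq
  rw [hκ]
  linear_combination (l * c ^ 2) * hI + (-l) * hc

private theorem conf_inner {r : ℂ} {δ ξ : ℝ} (hδ1 : δ ≤ 1 / 100)
    (hr : ‖r‖ ≤ δ * (1 + ξ ^ 2)) :
    ‖cexp (-((ξ : ℂ) ^ 2) / 2 + r) - cexp (-((ξ : ℂ) ^ 2) / 2)‖ ≤
      1 / 4 * Real.exp (-(1 / 8) * ξ ^ 2) := by
  have hx : 0 ≤ ξ ^ 2 := sq_nonneg ξ
  have h1 : cexp (-((ξ : ℂ) ^ 2) / 2 + r) - cexp (-((ξ : ℂ) ^ 2) / 2) =
      cexp (-((ξ : ℂ) ^ 2) / 2) * (cexp r - 1) := by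
    rw [Complex.exp_add]
    ring
  have h2 : ‖cexp (-((ξ : ℂ) ^ 2) / 2)‖ = Real.exp (-(1 / 2) * ξ ^ 2) := by
    rw [show -((ξ : ℂ) ^ 2) / 2 = ((-(1 / 2) * ξ ^ 2 : ℝ) : ℂ) by push_cast; ring,
      Complex.norm_exp, Complex.ofReal_re]
  have h3 : ‖cexp r - 1‖ ≤ ‖r‖ * Real.exp ‖r‖ := by
    have h := Complex.norm_exp_sub_sum_le_norm_mul_exp r 1
    rw [Finset.sum_range_one, pow_zero, Nat.factorial_zero, Nat.cast_one, div_one, pow_one] at h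
    exact h
  have h4 : 1 + ξ ^ 2 ≤ 8 * Real.exp (1 / 8 * ξ ^ 2) := by
    have := Real.add_one_le_exp (1 / 8 * ξ ^ 2)
    linarith
  have h5 : ‖r‖ ≤ 8 / 100 * Real.exp (1 / 8 * ξ ^ 2) := by
    calc ‖r‖ ≤ δ * (1 + ξ ^ 2) := hr
      _ ≤ 1 / 100 * (1 + ξ ^ 2) := mul_le_mul_of_nonneg_right hδ1 (by positivity)
      _ ≤ 1 / 100 * (8 * Real.exp (1 / 8 * ξ ^ 2)) := mul_le_mul_of_nonneg_left h4 (by norm_num)
      _ = 8 / 100 * Real.exp (1 / 8 * ξ ^ 2) := by ring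
  have h6 : ‖r‖ ≤ 1 / 100 + 1 / 100 * ξ ^ 2 := by
    refine le_trans hr (le_trans (mul_le_mul_of_nonneg_right hδ1 (by positivity)) (le_of_eq ?_))
    ring
  have h7 : Real.exp ‖r‖ ≤ Real.exp (1 / 100 + 1 / 100 * ξ ^ 2) := Real.exp_le_exp.2 h6
  rw [h1, norm_mul, h2]
  calc Real.exp (-(1 / 2) * ξ ^ 2) * ‖cexp r - 1‖
      ≤ Real.exp (-(1 / 2) * ξ ^ 2) * (8 / 100 * Real.exp (1 / 8 * ξ ^ 2) *
        Real.exp (1 / 100 + 1 / 100 * ξ ^ 2)) := by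
        refine mul_le_mul_of_nonneg_left (le_trans h3 ?_) (Real.exp_pos _).le
        exact mul_le_mul h5 h7 (Real.exp_pos _).le (by positivity)
    _ = 8 / 100 * Real.exp (1 / 100) * Real.exp (-(73 / 200) * ξ ^ 2) := by
        rw [show -(73 / 200) * ξ ^ 2 = -(1 / 2) * ξ ^ 2 + 1 / 8 * ξ ^ 2 + 1 / 100 * ξ ^ 2 by ring,
          Real.exp_add, Real.exp_add, Real.exp_add]
        ring
    _ ≤ 1 / 4 * Real.exp (-(1 / 8) * ξ ^ 2) := by
        refine mul_le_mul ?_ ?_ (Real.exp_pos _).le (by norm_num)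
        · have h8 : Real.exp (1 / 100) ≤ Real.exp 1 := Real.exp_le_exp.2 (by norm_num)
          linarith [Real.exp_one_lt_three]
        · exact Real.exp_le_exp.2 (by linarith)

private theorem conf_outer {g : ℂ} {ξ : ℝ} (hξ : 3 ≤ |ξ|) (hg : ‖g‖ ≤ Real.exp (-(3 / 8) * ξ ^ 2)) :
    ‖g - cexp (-((ξ : ℂ) ^ 2) / 2)‖ ≤ 1 / 4 * Real.exp (-(1 / 8) * ξ ^ 2) := by
  have hx : 9 ≤ ξ ^ 2 := by
    rw [← sq_abs]
    nlinarith
  have h2 : ‖cexp (-((ξ : ℂ) ^ 2) / 2)‖ = Real.exp (-(1 / 2) * ξ ^ 2) := by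
    rw [show -((ξ : ℂ) ^ 2) / 2 = ((-(1 / 2) * ξ ^ 2 : ℝ) : ℂ) by push_cast; ring,
      Complex.norm_exp, Complex.ofReal_re]
  have h3 : Real.exp (-(1 / 2) * ξ ^ 2) ≤ Real.exp (-(3 / 8) * ξ ^ 2) :=
    Real.exp_le_exp.2 (by linarith)
  have h4 : Real.exp (-(3 / 8) * ξ ^ 2) =
      Real.exp (-(1 / 4) * ξ ^ 2) * Real.exp (-(1 / 8) * ξ ^ 2) := by
    rw [← Real.exp_add]
    congr 1
    ring
  have h5 : Real.exp (-(1 / 4) * ξ ^ 2) ≤ 1 / 8 := by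
    have h6 : Real.exp (-(1 / 4) * ξ ^ 2) ≤ Real.exp (-(9 / 4)) := Real.exp_le_exp.2 (by linarith)
    refine le_trans h6 ?_
    rw [Real.exp_neg, ← one_div]
    refine one_div_le_one_div_of_le (by norm_num) ?_
    have h7 : Real.exp (9 / 4) = Real.exp 1 * Real.exp 1 * Real.exp (1 / 4) := by
      rw [← Real.exp_add, ← Real.exp_add]
      congr 1
      norm_num
    have h8 : (27 / 10 : ℝ) ≤ Real.exp 1 := by linarith [Real.exp_one_gt_d9]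
    have h9 : (5 / 4 : ℝ) ≤ Real.exp (1 / 4) := by linarith [Real.add_one_le_exp (1 / 4 : ℝ)]
    rw [h7]
    have h10 : (27 / 10 : ℝ) * (27 / 10) ≤ Real.exp 1 * Real.exp 1 :=
      mul_le_mul h8 h8 (by norm_num) (by linarith)
    calc (8 : ℝ) ≤ (27 / 10) * (27 / 10) * (5 / 4) := by norm_num
      _ ≤ _ := mul_le_mul h10 h9 (by norm_num) (by positivity)
  have h11 := Real.exp_pos (-(1 / 8) * ξ ^ 2)
  have h12 := norm_sub_le g (cexp (-((ξ : ℂ) ^ 2) / 2))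
  rw [h2] at h12
  rw [h4] at hg h3
  nlinarith

private theorem conf_num {C A X : ℝ} (hC : 1 ≤ C) (hA : 1 ≤ A) (hX : 3 ≤ X)
    (hAX : A ≤ 1 / (152 * C ^ 4) * X) :
    C + 9 * A + C * A * (2 * C * X + 2 * C ^ 2 * A) + X * (2 * C ^ 2 * A) +
      (2 * C ^ 2 * A) ^ 2 / 2 + C * (C * A) ^ 2 ≤ X ^ 2 / 8 := by
  have hC4 : 1 ≤ C ^ 4 := one_le_pow₀ hC
  have hAX1 : 152 * (C ^ 4 * (A * X)) ≤ X ^ 2 := by
    have h : A * (152 * C ^ 4) ≤ X := by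
      calc A * (152 * C ^ 4) ≤ 1 / (152 * C ^ 4) * X * (152 * C ^ 4) :=
            mul_le_mul_of_nonneg_right hAX (by positivity)
        _ = X := by field_simp
    nlinarith
  have hAleX : A ≤ X := by
    have h : 1 / (152 * C ^ 4) ≤ 1 := by
      rw [div_le_one (by positivity)]
      linarith
    nlinarith
  have hAX0 : 1 ≤ A * X := by nlinarith
  have hAA : A * A ≤ A * X := mul_le_mul_of_nonneg_left hAleX (by linarith)
  have hA1 : A ≤ A * X := by nlinarith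
  have e1 : C ≤ C ^ 4 := le_self_pow₀ hC (by norm_num)
  have e2 : C ^ 2 ≤ C ^ 4 := pow_le_pow_right₀ hC (by norm_num)
  have e3 : C ^ 3 ≤ C ^ 4 := pow_le_pow_right₀ hC (by norm_num)
  have hAA0 : 0 ≤ A * A := by positivity
  have u1 : C ≤ C ^ 4 * (A * X) := by nlinarith
  have u2 : 9 * A ≤ 9 * (C ^ 4 * (A * X)) := by nlinarith
  have u3 : C ^ 2 * (A * X) ≤ C ^ 4 * (A * X) := mul_le_mul_of_nonneg_right e2 (by linarith)
  have u4 : C ^ 3 * (A * A) ≤ C ^ 4 * (A * X) :=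
    mul_le_mul e3 hAA hAA0 (by linarith)
  have u5 : C ^ 4 * (A * A) ≤ C ^ 4 * (A * X) := mul_le_mul_of_nonneg_left hAA (by linarith)
  have hsum : C + 9 * A + C * A * (2 * C * X + 2 * C ^ 2 * A) + X * (2 * C ^ 2 * A) +
      (2 * C ^ 2 * A) ^ 2 / 2 + C * (C * A) ^ 2 = C + 9 * A + 2 * (C ^ 2 * (A * X)) +
      2 * (C ^ 3 * (A * A)) + 2 * (C ^ 2 * (A * X)) + 2 * (C ^ 4 * (A * A)) +
      C ^ 3 * (A * A) := by ring
  rw [hsum]
  linarith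

private theorem conf_sq {C X Z L n : ℝ} (hC : 1 ≤ C) (hX3 : 3 ≤ X) (hzX : Z ≤ X ^ 2)
    (hLz : L ≤ 1 + Z) (hn : n ≤ 2 * C * X + 2 * C ^ 2 * L) : 2 + Z + n ≤ (3 * C * X) ^ 2 := by
  have hX0' : 0 ≤ X := by linarith
  have hC2 : 1 ≤ C ^ 2 := one_le_pow₀ hC
  have h4 : 2 * C ^ 2 * L ≤ 2 * C ^ 2 * (1 + X ^ 2) :=
    mul_le_mul_of_nonneg_left (by linarith) (by positivity)
  have h5 : 9 ≤ X ^ 2 := by nlinarith
  have h6 : C ≤ C ^ 2 := le_self_pow₀ hC (by norm_num)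
  have h7 : X ^ 2 ≤ C ^ 2 * X ^ 2 := le_mul_of_one_le_left (by positivity) hC2
  have h8 : 9 * C ^ 2 ≤ C ^ 2 * X ^ 2 := by
    have := mul_le_mul_of_nonneg_left h5 (show 0 ≤ C ^ 2 by positivity)
    linarith
  have h9 : C * X ≤ C ^ 2 * X := mul_le_mul_of_nonneg_right h6 hX0'
  have h10 : 3 * (C ^ 2 * X) ≤ C ^ 2 * X ^ 2 := by
    have : 3 * X ≤ X ^ 2 := by nlinarith
    calc 3 * (C ^ 2 * X) = C ^ 2 * (3 * X) := by ring
      _ ≤ C ^ 2 * X ^ 2 := mul_le_mul_of_nonneg_left this (by positivity)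
  have h11 : (3 * C * X) ^ 2 = 9 * (C ^ 2 * X ^ 2) := by ring
  rw [h11]
  linarith

private theorem conf_ratio {C : ℝ}
    (h2 : ∀ z w : ℂ, GG w ≤ GG z * Real.exp (C * Real.log (2 + ‖z‖ + ‖w - z‖) * ‖w - z‖))
    (h3 : ∀ w : ℂ, ‖HH 0 w‖ ≤ C * (2 + ‖w‖) ^ 9 * GG w) {z : ℂ} (hz : 3 ≤ |z.im|) (ζ : ℂ) :
    ‖HH 0 (z + ζ)‖ ≤ ‖HH 0 z‖ * Real.exp (C + 9 * Real.log (2 + ‖z‖ + ‖ζ‖) +
      C * Real.log (2 + ‖z‖ + ‖ζ‖) * ‖ζ‖) := by
  have hpos : 0 < 2 + ‖z‖ + ‖ζ‖ := by positivity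
  have hG := h2 z (z + ζ)
  rw [add_sub_cancel_left, GG_eq z hz] at hG
  have hn : 2 + ‖z + ζ‖ ≤ 2 + ‖z‖ + ‖ζ‖ := by linarith [norm_add_le z ζ]
  have h9 : (2 + ‖z + ζ‖) ^ 9 ≤ (2 + ‖z‖ + ‖ζ‖) ^ 9 := pow_le_pow_left₀ (by positivity) hn 9
  have h9e : (2 + ‖z‖ + ‖ζ‖) ^ 9 = Real.exp (9 * Real.log (2 + ‖z‖ + ‖ζ‖)) := by
    rw [show (9 : ℝ) * Real.log (2 + ‖z‖ + ‖ζ‖) = ((9 : ℕ) : ℝ) * Real.log (2 + ‖z‖ + ‖ζ‖) by
      norm_num, Real.exp_nat_mul, Real.exp_log hpos]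
  have hCe : C ≤ Real.exp C := by linarith [Real.add_one_le_exp C]
  calc ‖HH 0 (z + ζ)‖ ≤ C * (2 + ‖z + ζ‖) ^ 9 * GG (z + ζ) := h3 _
    _ ≤ Real.exp C * Real.exp (9 * Real.log (2 + ‖z‖ + ‖ζ‖)) *
        (‖HH 0 z‖ * Real.exp (C * Real.log (2 + ‖z‖ + ‖ζ‖) * ‖ζ‖)) := by
        refine mul_le_mul ?_ hG (GG_pos _).le (by positivity)
        rw [← h9e]
        exact mul_le_mul hCe h9 (by positivity) (by positivity)
    _ = ‖HH 0 z‖ * Real.exp (C + 9 * Real.log (2 + ‖z‖ + ‖ζ‖) +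
      C * Real.log (2 + ‖z‖ + ‖ζ‖) * ‖ζ‖) := by
        rw [Real.exp_add, Real.exp_add]
        ring

private theorem conf_main {C : ℝ} (hC : 1 ≤ C)
    (h1 : ∀ z : ℂ, 2 ≤ |z.im| → ‖Hz 0 z‖ ≤ C * Real.log (2 + ‖z‖) * ‖HH 0 z‖)
    (h2 : ∀ z w : ℂ, GG w ≤ GG z * Real.exp (C * Real.log (2 + ‖z‖ + ‖w - z‖) * ‖w - z‖))
    (h3 : ∀ w : ℂ, ‖HH 0 w‖ ≤ C * (2 + ‖w‖) ^ 9 * GG w)
    {X0 : ℝ} (hX0 : 3 ≤ X0)
    (hX : ∀ X, X0 ≤ X → 2 * Real.log (3 * C * X) ≤ 1 / (152 * C ^ 4) * X)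
    {M : ℝ} (hM : 12800 * C ^ 5 + 32 * C * X0 + 1048576 * C ^ 4 ≤ M)
    {t z : ℂ} (ht : ‖t‖ ≤ C) {y q : ℝ} (hy : z.im = -y) (hq0 : 0 ≤ q) (hq3 : ‖z‖ = q ^ 3)
    (hqy : q ^ 2 ≤ y) (hMq : M * Real.log (2 + ‖z‖) ^ 3 ≤ q ^ 2) (hZ1 : 1 ≤ ‖z‖) :
    HH t z ≠ 0 := by
  set L : ℝ := Real.log (2 + ‖z‖) with hL
  have hL1 : 1 ≤ L := by
    rw [hL, Real.le_log_iff_exp_le (by linarith)]
    linarith [Real.exp_one_lt_three]
  have hL3 : L ≤ L ^ 3 := le_self_pow₀ hL1 (by norm_num)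
  have hL31 : 1 ≤ L ^ 3 := one_le_pow₀ hL1
  have hC2 : 1 ≤ C ^ 2 := one_le_pow₀ hC
  have hC4 : 1 ≤ C ^ 4 := one_le_pow₀ hC
  have hC5 : 1 ≤ C ^ 5 := one_le_pow₀ hC
  have hC25 : C ^ 2 ≤ C ^ 5 := pow_le_pow_right₀ hC (by norm_num)
  have hCX0 : 0 ≤ C * X0 := by positivity
  have hMy : M * L ^ 3 ≤ y := le_trans hMq hqy
  have hM0 : 0 ≤ M := by linarith
  have hMyM : M ≤ y := le_trans (le_mul_of_one_le_right hM0 hL31) hMy
  have hy8 : 8 ≤ y := by linarith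
  have hy12800 : 12800 * C ^ 5 * L ^ 3 ≤ y := by
    refine le_trans (mul_le_mul_of_nonneg_right ?_ (by positivity)) hMy
    linarith
  have hyL : 32 * C ^ 2 * L ≤ y := by
    refine le_trans ?_ hy12800
    have : 32 * C ^ 2 ≤ 12800 * C ^ 5 := by linarith
    exact mul_le_mul this hL3 (by linarith) (by positivity)
  have hyz : y ≤ ‖z‖ := by
    have h := Complex.abs_im_le_norm z
    rw [hy, abs_neg, abs_of_nonneg (by linarith)] at h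
    exact h
  have him : |z.im| = y := by rw [hy, abs_neg, abs_of_nonneg (by linarith)]
  have hne : HH 0 z ≠ 0 := HH0_ne z (by rw [him]; linarith)
  have hHz0 : 0 < ‖HH 0 z‖ := norm_pos_iff.2 hne
  set l : ℂ := Hz 0 z / HH 0 z with hl
  have hlC : ‖l‖ ≤ C * L := by
    rw [hl, norm_div, div_le_iff₀ hHz0]
    exact h1 z (by rw [him]; linarith)
  obtain ⟨c, hc⟩ := IsAlgClosed.exists_pow_nat_eq (2 * t) (n := 2) (by norm_num)
  have hc2 : ‖c‖ ^ 2 ≤ 2 * C := by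
    rw [← norm_pow, hc, norm_mul, Complex.norm_ofNat]
    linarith
  have hcC : ‖c‖ ≤ 2 * C := by
    have hCC : C ≤ C ^ 2 := le_self_pow₀ hC (by norm_num)
    refine le_of_sq_le_sq ?_ (by linarith)
    have hCC2 : (2 * C) ^ 2 = 4 * C ^ 2 := by ring
    rw [hCC2]
    linarith
  set κ : ℂ := I * l * c with hκ
  have hκC : ‖κ‖ ≤ 2 * C ^ 2 * L := by
    rw [hκ, norm_mul, norm_mul, Complex.norm_I, one_mul]
    calc ‖l‖ * ‖c‖ ≤ (C * L) * (2 * C) := mul_le_mul hlC hcC (norm_nonneg _) (by positivity)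
      _ = 2 * C ^ 2 * L := by ring
  have hzeta : ∀ ξ : ℝ, ‖I * c * ((ξ : ℂ) + κ)‖ ≤ ‖c‖ * |ξ| + 2 * C ^ 2 * L := by
    intro ξ
    rw [conf_zeta hc hκ]
    refine le_trans (norm_sub_le _ _) ?_
    rw [norm_mul, norm_mul, norm_mul, norm_mul, Complex.norm_I, one_mul, Complex.norm_real,
      Real.norm_eq_abs, Complex.norm_ofNat]
    have h4 : 2 * ‖t‖ * ‖l‖ ≤ 2 * C * (C * L) :=
      mul_le_mul (by linarith) hlC (norm_nonneg _) (by positivity)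
    have h5 : 2 * C * (C * L) = 2 * C ^ 2 * L := by ring
    linarith
  have hg := gauss 0 t z c κ hc
  rw [zero_add] at hg
  set P : ℂ := HH 0 z * cexp (-(t * l ^ 2)) with hP
  have hP0 : P ≠ 0 := mul_ne_zero hne (Complex.exp_ne_zero _)
  have hInt : Integrable (fun ξ : ℝ => HH 0 (z + I * c * (ξ + κ)) *
      cexp (-((ξ : ℂ) + κ) ^ 2 / 2) / P) := (gauss_int 0 z c κ).div_const P
  intro hH
  rw [hH] at hg
  have hs : (Real.sqrt (2 * Real.pi) : ℂ)⁻¹ ≠ 0 := by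
    refine inv_ne_zero ?_
    exact_mod_cast (Real.sqrt_pos.2 (by positivity)).ne'
  have hI0 := (mul_eq_zero.1 hg.symm).resolve_left hs
  refine conf_int hInt ?_ (by rw [integral_div, hI0, zero_div])
  intro ξ
  have hre : ∀ r : ℂ, HH 0 (z + I * c * (ξ + κ)) =
      HH 0 z * cexp (l * (I * c * (ξ + κ)) + r) →
      HH 0 (z + I * c * (ξ + κ)) * cexp (-((ξ : ℂ) + κ) ^ 2 / 2) / P =
        cexp (-((ξ : ℂ) ^ 2) / 2 + r) := by
    intro r hr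
    rw [hr, hP, div_eq_iff (mul_ne_zero hne (Complex.exp_ne_zero _)), mul_assoc,
      ← Complex.exp_add, conf_alg hc hκ, Complex.exp_add]
    ring
  by_cases hin : |ξ| ≤ y / (32 * C)
  · -- inner part
    have hcx : ‖c‖ * |ξ| ≤ y / 16 := by
      calc ‖c‖ * |ξ| ≤ 2 * C * (y / (32 * C)) :=
            mul_le_mul hcC hin (abs_nonneg _) (by positivity)
        _ = y / 16 := by
            field_simp
            norm_num
    have hζ := hzeta ξ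
    have hζ4 : ‖I * c * ((ξ : ℂ) + κ)‖ < y / 4 := by linarith
    have him2 : ∀ w ∈ ball z (2 * (y / 4)), 2 ≤ |w.im| := by
      intro w hw
      rw [mem_ball, dist_eq_norm] at hw
      have h4 := Complex.abs_im_le_norm (w - z)
      rw [Complex.sub_im, hy] at h4
      have h5 := (abs_le.1 (le_trans h4 hw.le)).2
      rw [abs_of_nonpos (by linarith)]
      linarith
    obtain ⟨r, hr, hrn⟩ := conf_local (F := HH 0) (HH_diff_z 0) (z := z) (ρ := y / 4)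
      (B := 2 * C * L) (by linarith)
      (fun w hw => HH0_ne w (by linarith [him2 w hw]))
      (fun w hw => by
        refine le_trans (h1 w (him2 w hw)) ?_
        refine mul_le_mul_of_nonneg_right ?_ (norm_nonneg _)
        have hwz : ‖w‖ ≤ 2 * ‖z‖ := by
          rw [mem_ball, dist_eq_norm] at hw
          have h4 : ‖w‖ ≤ ‖z‖ + ‖w - z‖ := by
            have := norm_add_le z (w - z)
            rwa [add_sub_cancel] at this
          linarith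
        have h6 : Real.log (2 + ‖w‖) ≤ 2 * L := by
          rw [hL, ← Real.log_rpow (by linarith) (2 : ℝ)]
          refine Real.log_le_log (by positivity) ?_
          rw [Real.rpow_two]
          have h12 : (2 + ‖z‖) ^ 2 = 4 + 4 * ‖z‖ + ‖z‖ ^ 2 := by ring
          have h13 : 0 ≤ ‖z‖ ^ 2 := sq_nonneg _
          rw [h12]
          linarith [norm_nonneg z]
        calc C * Real.log (2 + ‖w‖) ≤ C * (2 * L) := mul_le_mul_of_nonneg_left h6 (by linarith)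
          _ = 2 * C * L := by ring) hζ4
    rw [hre r hr]
    refine conf_inner (δ := 128 * C ^ 5 * L ^ 3 / y) ?_ ?_
    · rw [div_le_iff₀ (by linarith)]
      linarith
    · refine le_trans hrn ?_
      have h7 : ‖I * c * ((ξ : ℂ) + κ)‖ ^ 2 ≤ 4 * C * ξ ^ 2 + 8 * C ^ 4 * L ^ 2 := by
        have h8 : ‖I * c * ((ξ : ℂ) + κ)‖ ^ 2 ≤ (‖c‖ * |ξ| + 2 * C ^ 2 * L) ^ 2 :=
          pow_le_pow_left₀ (norm_nonneg _) hζ 2
        have h9 : (‖c‖ * |ξ|) ^ 2 ≤ 2 * C * ξ ^ 2 := by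
          rw [mul_pow, sq_abs]
          exact mul_le_mul_of_nonneg_right hc2 (sq_nonneg _)
        have h15 := sq_nonneg (‖c‖ * |ξ| - 2 * C ^ 2 * L)
        have h16 : (‖c‖ * |ξ| + 2 * C ^ 2 * L) ^ 2 = 2 * (‖c‖ * |ξ|) ^ 2 + 8 * C ^ 4 * L ^ 2 -
          (‖c‖ * |ξ| - 2 * C ^ 2 * L) ^ 2 := by ring
        linarith
      have hy0 : 0 < y := by linarith
      have h10 : 2 * (2 * C * L) / (y / 4) = 16 * C * L / y := by
        field_simp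
        norm_num
      rw [h10]
      have h11 : 16 * C * L * (4 * C * ξ ^ 2 + 8 * C ^ 4 * L ^ 2) ≤
          128 * C ^ 5 * L ^ 3 * (1 + ξ ^ 2) := by
        have h12 : C ^ 2 * L ≤ C ^ 5 * L ^ 3 := mul_le_mul hC25 hL3 (by linarith) (by positivity)
        have h13 : C ^ 2 * L * ξ ^ 2 ≤ C ^ 5 * L ^ 3 * ξ ^ 2 :=
          mul_le_mul_of_nonneg_right h12 (sq_nonneg _)
        have h14 : 0 ≤ C ^ 5 * L ^ 3 * ξ ^ 2 := by positivity
        have h17 : 16 * C * L * (4 * C * ξ ^ 2 + 8 * C ^ 4 * L ^ 2) =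
          64 * (C ^ 2 * L * ξ ^ 2) + 128 * (C ^ 5 * L ^ 3) := by ring
        have h18 : 128 * C ^ 5 * L ^ 3 * (1 + ξ ^ 2) =
          128 * (C ^ 5 * L ^ 3) + 128 * (C ^ 5 * L ^ 3 * ξ ^ 2) := by ring
        rw [h17, h18]
        linarith
      calc 16 * C * L / y * ‖I * c * ((ξ : ℂ) + κ)‖ ^ 2
          ≤ 16 * C * L / y * (4 * C * ξ ^ 2 + 8 * C ^ 4 * L ^ 2) :=
            mul_le_mul_of_nonneg_left h7 (by positivity)
        _ = 16 * C * L * (4 * C * ξ ^ 2 + 8 * C ^ 4 * L ^ 2) / y := by ring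
        _ ≤ 128 * C ^ 5 * L ^ 3 * (1 + ξ ^ 2) / y :=
            div_le_div_of_nonneg_right h11 hy0.le
        _ = 128 * C ^ 5 * L ^ 3 / y * (1 + ξ ^ 2) := by ring
  · -- outer part
    rw [not_le] at hin
    set X : ℝ := |ξ| with hXd
    have hX0' : 0 ≤ X := abs_nonneg _
    have hyX : y < 32 * C * X := by
      rw [div_lt_iff₀ (by positivity)] at hin
      linarith
    have hXX0 : X0 ≤ X := by
      have h4 : 32 * C * X0 ≤ 32 * C * X := by linarith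
      exact le_of_mul_le_mul_left h4 (by positivity)
    have hX3 : 3 ≤ X := le_trans hX0 hXX0
    have hq1024 : 1024 * C ^ 2 ≤ q := by
      have h4 : (1024 * C ^ 2) ^ 2 ≤ q ^ 2 := by
        calc (1024 * C ^ 2) ^ 2 = 1048576 * C ^ 4 := by ring
          _ ≤ M := by linarith
          _ ≤ M * L ^ 3 := le_mul_of_one_le_right hM0 hL31
          _ ≤ q ^ 2 := hMq
      exact le_of_sq_le_sq h4 hq0
    have hzX : ‖z‖ ≤ X ^ 2 := by
      rw [hq3]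
      have h5 : (q ^ 2) ^ 2 ≤ (32 * C * X) ^ 2 :=
        pow_le_pow_left₀ (by positivity) (by linarith) 2
      have h6 : q ^ 3 * (1024 * C ^ 2) ≤ q ^ 3 * q :=
        mul_le_mul_of_nonneg_left hq1024 (by positivity)
      have h7 : q ^ 3 * (1024 * C ^ 2) ≤ X ^ 2 * (1024 * C ^ 2) := by
        calc q ^ 3 * (1024 * C ^ 2) ≤ q ^ 3 * q := h6
          _ = (q ^ 2) ^ 2 := by ring
          _ ≤ (32 * C * X) ^ 2 := h5
          _ = X ^ 2 * (1024 * C ^ 2) := by ring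
      exact le_of_mul_le_mul_right h7 (by positivity)
    have hζ : ‖I * c * ((ξ : ℂ) + κ)‖ ≤ 2 * C * X + 2 * C ^ 2 * L :=
      le_trans (hzeta ξ) (by linarith [mul_le_mul_of_nonneg_right hcC hX0'])
    set A : ℝ := Real.log (2 + ‖z‖ + ‖I * c * ((ξ : ℂ) + κ)‖) with hA
    have hLA : L ≤ A := Real.log_le_log (by positivity) (by linarith [norm_nonneg (I * c * ((ξ : ℂ) + κ))])
    have hLz : L ≤ 1 + ‖z‖ := by
      have := Real.log_le_sub_one_of_pos (show 0 < 2 + ‖z‖ by positivity)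
      linarith
    have hAX : A ≤ 1 / (152 * C ^ 4) * X := by
      refine le_trans ?_ (hX X hXX0)
      rw [hA, ← Real.log_rpow (by positivity) (2 : ℝ)]
      refine Real.log_le_log (by positivity) ?_
      rw [Real.rpow_two]
      exact conf_sq hC hX3 hzX hLz hζ
    have hnum := conf_num hC (le_trans hL1 hLA) hX3 hAX
    refine conf_outer hX3 ?_
    have hA0 : 0 ≤ A := by linarith
    have hζA : ‖I * c * ((ξ : ℂ) + κ)‖ ≤ 2 * C * X + 2 * C ^ 2 * A :=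
      le_trans hζ (by linarith [mul_le_mul_of_nonneg_left hLA (show 0 ≤ 2 * C ^ 2 by positivity)])
    have hκA : ‖κ‖ ≤ 2 * C ^ 2 * A :=
      le_trans hκC (mul_le_mul_of_nonneg_left hLA (by positivity))
    have hlA : ‖l‖ ≤ C * A := le_trans hlC (mul_le_mul_of_nonneg_left hLA (by linarith))
    have hr1 := conf_ratio h2 h3 (z := z) (by rw [him]; linarith) (I * c * ((ξ : ℂ) + κ))
    have hr2 : ‖cexp (-((ξ : ℂ) + κ) ^ 2 / 2)‖ ≤
        Real.exp (-(ξ ^ 2) / 2 + X * ‖κ‖ + ‖κ‖ ^ 2 / 2) := by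
      rw [Complex.norm_exp]
      refine Real.exp_le_exp.2 ?_
      have h4 : -((ξ : ℂ) + κ) ^ 2 / 2 = ((-(ξ ^ 2) / 2 : ℝ) : ℂ) + (-((ξ : ℂ) * κ) - κ ^ 2 / 2) := by
        push_cast
        ring
      rw [h4, Complex.add_re, Complex.ofReal_re]
      have h5 : (-((ξ : ℂ) * κ) - κ ^ 2 / 2).re ≤ ‖-((ξ : ℂ) * κ) - κ ^ 2 / 2‖ :=
        Complex.re_le_norm _
      have h6 : ‖-((ξ : ℂ) * κ) - κ ^ 2 / 2‖ ≤ X * ‖κ‖ + ‖κ‖ ^ 2 / 2 := by
        refine le_trans (norm_sub_le _ _) (le_of_eq ?_)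
        rw [norm_neg, norm_mul, norm_div, norm_pow, Complex.norm_real, Real.norm_eq_abs,
          Complex.norm_ofNat]
      linarith
    have hr3 : Real.exp (-(‖t‖ * ‖l‖ ^ 2)) ≤ ‖cexp (-(t * l ^ 2))‖ := by
      rw [Complex.norm_exp]
      refine Real.exp_le_exp.2 ?_
      rw [Complex.neg_re]
      have h5 : (t * l ^ 2).re ≤ ‖t * l ^ 2‖ := Complex.re_le_norm _
      rw [norm_mul, norm_pow] at h5
      linarith
    have ht2 : ‖t‖ * ‖l‖ ^ 2 ≤ C * (C * A) ^ 2 :=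
      mul_le_mul ht (pow_le_pow_left₀ (norm_nonneg _) hlA 2) (by positivity) (by linarith)
    have hE : C + 9 * A + C * A * ‖I * c * ((ξ : ℂ) + κ)‖ +
        (-(ξ ^ 2) / 2 + X * ‖κ‖ + ‖κ‖ ^ 2 / 2) + ‖t‖ * ‖l‖ ^ 2 ≤ -(3 / 8) * ξ ^ 2 := by
      have h4 : C * A * ‖I * c * ((ξ : ℂ) + κ)‖ ≤ C * A * (2 * C * X + 2 * C ^ 2 * A) :=
        mul_le_mul_of_nonneg_left hζA (by positivity)
      have h5 : X * ‖κ‖ ≤ X * (2 * C ^ 2 * A) := mul_le_mul_of_nonneg_left hκA hX0'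
      have h6 : ‖κ‖ ^ 2 ≤ (2 * C ^ 2 * A) ^ 2 := pow_le_pow_left₀ (norm_nonneg _) hκA 2
      have h7 : ξ ^ 2 = X ^ 2 := by rw [hXd, sq_abs]
      rw [h7]
      linarith
    have hP1 : ‖HH 0 z‖ * Real.exp (-(‖t‖ * ‖l‖ ^ 2)) ≤ ‖P‖ := by
      rw [hP, norm_mul]
      exact mul_le_mul_of_nonneg_left hr3 hHz0.le
    rw [norm_div, norm_mul, div_le_iff₀ (norm_pos_iff.2 hP0)]
    calc ‖HH 0 (z + I * c * ((ξ : ℂ) + κ))‖ * ‖cexp (-((ξ : ℂ) + κ) ^ 2 / 2)‖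
        ≤ (‖HH 0 z‖ * Real.exp (C + 9 * A + C * A * ‖I * c * ((ξ : ℂ) + κ)‖)) *
          Real.exp (-(ξ ^ 2) / 2 + X * ‖κ‖ + ‖κ‖ ^ 2 / 2) :=
          mul_le_mul hr1 hr2 (norm_nonneg _) (by positivity)
      _ = Real.exp (C + 9 * A + C * A * ‖I * c * ((ξ : ℂ) + κ)‖ +
        (-(ξ ^ 2) / 2 + X * ‖κ‖ + ‖κ‖ ^ 2 / 2) + ‖t‖ * ‖l‖ ^ 2) *
          (‖HH 0 z‖ * Real.exp (-(‖t‖ * ‖l‖ ^ 2))) := by
          rw [Real.exp_neg]
          rw [Real.exp_add _ (‖t‖ * ‖l‖ ^ 2), Real.exp_add (C + 9 * A + C * A * ‖I * c * ((ξ : ℂ) + κ)‖)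
            (-(ξ ^ 2) / 2 + X * ‖κ‖ + ‖κ‖ ^ 2 / 2)]
          have h8 := (Real.exp_pos (‖t‖ * ‖l‖ ^ 2)).ne'
          field_simp
      _ ≤ Real.exp (-(3 / 8) * ξ ^ 2) * ‖P‖ :=
          mul_le_mul (Real.exp_le_exp.2 hE) hP1 (by positivity) (Real.exp_pos _).le

private theorem conf_q {Z y : ℝ} (hZ : 0 ≤ Z) (h : Z ^ (2 / 3 : ℝ) ≤ y) :
    0 ≤ Z ^ (1 / 3 : ℝ) ∧ Z = (Z ^ (1 / 3 : ℝ)) ^ 3 ∧ (Z ^ (1 / 3 : ℝ)) ^ 2 ≤ y ∧
      (Z ^ (1 / 3 : ℝ)) ^ 2 = Z ^ (2 / 3 : ℝ) := by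
  have h2 : (Z ^ (1 / 3 : ℝ)) ^ 2 = Z ^ (2 / 3 : ℝ) := by
    rw [← Real.rpow_natCast, ← Real.rpow_mul hZ]
    congr 1
    norm_num
  refine ⟨Real.rpow_nonneg hZ _, ?_, by rw [h2]; exact h, h2⟩
  rw [← Real.rpow_natCast, ← Real.rpow_mul hZ]
  rw [show (1 / 3 : ℝ) * ((3 : ℕ) : ℝ) = 1 by norm_num, Real.rpow_one]

theorem conf (R : ℝ) : ∃ Z0 : ℝ, 1 ≤ Z0 ∧ ∀ t z : ℂ, ‖t‖ ≤ R → Z0 ≤ ‖z‖ →
    ‖z‖ ^ (2 / 3 : ℝ) ≤ |z.im| → HH t z ≠ 0 := by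
  obtain ⟨C1, hC1, h1⟩ := ldx
  obtain ⟨C2, hC2, h2⟩ := glip
  obtain ⟨C3, hC3, h3⟩ := wbd
  set C : ℝ := C1 + C2 + C3 + |R| with hCd
  have hR : R ≤ C := by linarith [le_abs_self R]
  have hR0 : 0 ≤ |R| := abs_nonneg R
  have hC : 1 ≤ C := by linarith
  have h1' : ∀ z : ℂ, 2 ≤ |z.im| → ‖Hz 0 z‖ ≤ C * Real.log (2 + ‖z‖) * ‖HH 0 z‖ := by
    intro z hz
    refine le_trans (h1 z hz) ?_
    refine mul_le_mul_of_nonneg_right ?_ (norm_nonneg _)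
    refine mul_le_mul_of_nonneg_right (by linarith) (Real.log_nonneg ?_)
    linarith [norm_nonneg z]
  have h2' : ∀ z w : ℂ, GG w ≤ GG z * Real.exp (C * Real.log (2 + ‖z‖ + ‖w - z‖) * ‖w - z‖) := by
    intro z w
    refine le_trans (h2 z w) ?_
    refine mul_le_mul_of_nonneg_left (Real.exp_le_exp.2 ?_) (GG_pos z).le
    refine mul_le_mul_of_nonneg_right ?_ (norm_nonneg _)
    refine mul_le_mul_of_nonneg_right (by linarith) (Real.log_nonneg ?_)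
    linarith [norm_nonneg z, norm_nonneg (w - z)]
  have h3' : ∀ w : ℂ, ‖HH 0 w‖ ≤ C * (2 + ‖w‖) ^ 9 * GG w := by
    intro w
    refine le_trans (h3 w) ?_
    refine mul_le_mul_of_nonneg_right ?_ (GG_pos w).le
    exact mul_le_mul_of_nonneg_right (by linarith) (by positivity)
  obtain ⟨X0, hX0, hX⟩ := conf_X hC
  obtain ⟨Z0, hZ0, hZ⟩ := conf_log (12800 * C ^ 5 + 32 * C * X0 + 1048576 * C ^ 4)
  have key : ∀ t z : ℂ, ‖t‖ ≤ R → Z0 ≤ ‖z‖ → ‖z‖ ^ (2 / 3 : ℝ) ≤ -z.im → HH t z ≠ 0 := by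
    intro t z ht hz hy
    obtain ⟨hq0, hq3, hqy, hq2⟩ := conf_q (norm_nonneg z) hy
    refine conf_main hC h1' h2' h3' hX0 hX le_rfl (le_trans ht hR) (y := -z.im)
      (q := ‖z‖ ^ (1 / 3 : ℝ)) (by ring) hq0 hq3 hqy ?_ (le_trans hZ0 hz)
    rw [hq2]
    exact hZ ‖z‖ hz
  refine ⟨Z0, hZ0, fun t z ht hz hy => ?_⟩
  rcases le_total z.im 0 with h | h
  · rw [abs_of_nonpos h] at hy
    exact key t z ht hz hy
  · rw [← HH_even]
    refine key t (-z) ht (by rw [norm_neg]; exact hz) ?_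
    rw [norm_neg, Complex.neg_im, neg_neg]
    rw [abs_of_nonneg h] at hy
    exact hy

end Pool.Agent.Lib.MP_ec260d_ntC
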