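import Mathlib

/-!
# JOB SubM: area mean value inequality for log |f| (about 150 lines)

For `0 < ρ ≤ r`: `AnalyticOnNhd.circleAverage_log_norm` (Jensen's formula, `f c ≠ 0`) gives `Real.log ‖f c‖ ≤ circleAverage (fun w => Real.log ‖f w‖) c ρ` (the sum over the zeros is nonnegative), and `log ‖f‖` is circle integrable.  So `∫_0^{2π} (M - log ‖f (c + ρ e^{iθ})‖) dθ ≤ 2π (M - log ‖f c‖)`, where the integrand is nonnegative
except where `f = 0` (finitely many `θ`; there `Real.log 0 = 0` and the integrand is `M`, whose `ofReal` is harmless on a null set).  Polar coordinates around `c` (`Complex.lintegral_comp_polarCoord_symm` after translation): `∫⁻_{ball c r} ofReal (M - log ‖f w‖) = ∫⁻_{0<ρ<r} ∫⁻_θ ρ ofReal (...) ≤ ∫_0^r 2π ρ (M - log ‖f c‖) dρ = π r² (M - log ‖f c‖)`.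
Measurability: `f` is continuous, `Real.log` measurable.
-/

namespace Pool.Agent.Lib.MP_ec260d_ntC

open Complex Set Filter Topology Metric MeasureTheory

private theorem SubM_jensen {f : ℂ → ℂ} (hf : Differentiable ℂ f) (c : ℂ) (ρ : ℝ) (hρ : 0 < ρ) (hc : f c ≠ 0) :
    Real.log ‖f c‖ ≤ Real.circleAverage (fun w => Real.log ‖f w‖) c ρ := by
  have h1f : AnalyticOnNhd ℂ f (closedBall c |ρ|) := fun z _ => hf.analyticAt z
  rw [AnalyticOnNhd.circleAverage_log_norm hρ.ne' h1f hc]
  have h2 : 0 ≤ ∑ᶠ u, MeromorphicOn.divisor f (closedBall c |ρ|) u * Real.log (ρ * ‖c - u‖⁻¹) := by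
    refine finsum_nonneg fun u => ?_
    by_cases hu : u ∈ closedBall c |ρ|
    · by_cases huc : u = c
      · rw [huc, MeromorphicOn.AnalyticOnNhd.divisor_apply h1f (by simp), (h1f c (by simp)).analyticOrderAt_eq_zero.mpr hc]
        simp
      · refine mul_nonneg (mod_cast MeromorphicOn.AnalyticOnNhd.divisor_nonneg h1f ..) (Real.log_nonneg ?_)
        rw [mem_closedBall, abs_of_pos hρ, dist_eq_norm, norm_sub_rev] at hu
        have h3 : 0 < ‖c - u‖ := norm_pos_iff.2 (sub_ne_zero.2 (Ne.symm huc))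
        rw [← div_eq_mul_inv, le_div_iff₀ h3, one_mul]
        exact hu
    · rw [Function.locallyFinsuppWithin.apply_eq_zero_of_notMem _ hu]
      simp
  linarith

private theorem SubM_circ {f : ℂ → ℂ} (hf : Differentiable ℂ f) (c : ℂ) (r M : ℝ) (hc : f c ≠ 0)
    (hM : ∀ w, ‖w - c‖ ≤ r → Real.log ‖f w‖ ≤ M) (ρ : ℝ) (hρ : 0 < ρ) (hρr : ρ ≤ r) :
    ∫⁻ θ in Ioo (-Real.pi) Real.pi, ENNReal.ofReal (M - Real.log ‖f (circleMap c ρ θ)‖) ≤
      ENNReal.ofReal (2 * Real.pi * (M - Real.log ‖f c‖)) := by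
  have hnorm : ∀ θ : ℝ, ‖circleMap c ρ θ - c‖ = ρ := by
    intro θ
    rw [circleMap_sub_center, norm_circleMap_zero, abs_of_pos hρ]
  have hnn : ∀ θ : ℝ, 0 ≤ M - Real.log ‖f (circleMap c ρ θ)‖ := by
    intro θ
    have := hM (circleMap c ρ θ) ((hnorm θ).le.trans hρr)
    linarith
  have hper : Function.Periodic (fun θ => M - Real.log ‖f (circleMap c ρ θ)‖) (2 * Real.pi) := by
    intro θ
    simp only [periodic_circleMap c ρ θ]
  have hlog : CircleIntegrable (fun w => Real.log ‖f w‖) c ρ :=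
    MeromorphicOn.circleIntegrable_log_norm (fun z _ => (hf.analyticAt z).meromorphicAt)
  have hint0 : IntervalIntegrable (fun θ => M - Real.log ‖f (circleMap c ρ θ)‖) volume 0 (2 * Real.pi) :=
    intervalIntegrable_const.sub hlog
  have h2pi : (2 * Real.pi) ≠ 0 := by positivity
  have hint : IntervalIntegrable (fun θ => M - Real.log ‖f (circleMap c ρ θ)‖) volume (-Real.pi) Real.pi :=
    hper.intervalIntegrable₀ h2pi hint0 _ _
  have hle : -Real.pi ≤ Real.pi := by linarith [Real.pi_pos]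
  have hval : ∫ θ in (-Real.pi)..Real.pi, (M - Real.log ‖f (circleMap c ρ θ)‖) =
      ∫ θ in (0 : ℝ)..(2 * Real.pi), (M - Real.log ‖f (circleMap c ρ θ)‖) := by
    have h := hper.intervalIntegral_add_eq (-Real.pi) 0
    rw [zero_add, show -Real.pi + 2 * Real.pi = Real.pi by ring] at h
    exact h
  have hval2 : ∫ θ in (0 : ℝ)..(2 * Real.pi), (M - Real.log ‖f (circleMap c ρ θ)‖) =
      2 * Real.pi * (M - Real.circleAverage (fun w => Real.log ‖f w‖) c ρ) := by
    rw [intervalIntegral.integral_sub intervalIntegrable_const hlog, intervalIntegral.integral_const,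
      Real.circleAverage_def, smul_eq_mul, smul_eq_mul, sub_zero, mul_sub, ← mul_assoc,
      mul_inv_cancel₀ h2pi, one_mul]
  have hJ := SubM_jensen hf c ρ hρ hc
  have hI : IntegrableOn (fun θ => M - Real.log ‖f (circleMap c ρ θ)‖) (Ioo (-Real.pi) Real.pi) volume :=
    ((intervalIntegrable_iff_integrableOn_Ioc_of_le hle).1 hint).mono_set Ioo_subset_Ioc_self
  rw [← ofReal_integral_eq_lintegral_ofReal hI (Eventually.of_forall hnn)]
  refine ENNReal.ofReal_le_ofReal ?_
  rw [← integral_Ioc_eq_integral_Ioo, ← intervalIntegral.integral_of_le hle, hval, hval2]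
  have : 0 < 2 * Real.pi := by positivity
  nlinarith

theorem sub_mean {f : ℂ → ℂ} (hf : Differentiable ℂ f) (c : ℂ) (r M : ℝ) (hr : 0 < r) (hc : f c ≠ 0)
    (hM : ∀ w, ‖w - c‖ ≤ r → Real.log ‖f w‖ ≤ M) :
    ∫⁻ w in ball c r, ENNReal.ofReal (M - Real.log ‖f w‖) ≤
      ENNReal.ofReal (Real.pi * r ^ 2 * (M - Real.log ‖f c‖)) := by
  have hcont : Continuous f := hf.continuous
  have hA0 : 0 ≤ M - Real.log ‖f c‖ := by
    have := hM c (by rw [sub_self, norm_zero]; exact hr.le)
    linarith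
  set g : ℂ → ENNReal := fun w => ENNReal.ofReal (M - Real.log ‖f w‖) with hg
  have h1 : ∫⁻ w in ball c r, g w = ∫⁻ z : ℂ, (ball c r).indicator g (z + c) := by
    rw [← lintegral_indicator measurableSet_ball, lintegral_add_right_eq_self]
  rw [h1, ← Complex.lintegral_comp_polarCoord_symm]
  have h2 : ∀ p ∈ Complex.polarCoord.target, ENNReal.ofReal p.1 • (ball c r).indicator g (Complex.polarCoord.symm p + c) ≤
      (Ioo 0 r).indicator (fun ρ => ENNReal.ofReal ρ) p.1 * g (circleMap c p.1 p.2) := by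
    intro p hp
    rw [Complex.polarCoord_target] at hp
    have hp1 : 0 < p.1 := hp.1
    have h3 : Complex.polarCoord.symm p + c = circleMap c p.1 p.2 := by
      rw [Complex.polarCoord_symm_apply]
      unfold circleMap
      rw [Complex.exp_mul_I]
      push_cast
      ring
    rw [h3, smul_eq_mul]
    by_cases h4 : p.1 < r
    · rw [indicator_of_mem (show p.1 ∈ Ioo 0 r from ⟨hp1, h4⟩)]
      refine mul_le_mul_right ?_ _
      exact indicator_le_self' (fun _ _ => zero_le) _
    · have h5 : circleMap c p.1 p.2 ∉ ball c r := by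
        rw [mem_ball, dist_eq_norm, circleMap_sub_center, norm_circleMap_zero, abs_of_pos hp1]
        exact h4
      rw [indicator_of_notMem h5, mul_zero]
      exact zero_le
  have hmt : MeasurableSet Complex.polarCoord.target := by
    rw [Complex.polarCoord_target]
    exact measurableSet_Ioi.prod measurableSet_Ioo
  refine (setLIntegral_mono' hmt h2).trans ?_
  rw [Complex.polarCoord_target, Measure.volume_eq_prod, ← Measure.prod_restrict]
  refine (lintegral_prod_le _).trans ?_
  have h6 : ∀ ρ ∈ Ioi (0 : ℝ), ∫⁻ θ in Ioo (-Real.pi) Real.pi,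
      (Ioo 0 r).indicator (fun ρ => ENNReal.ofReal ρ) ρ * g (circleMap c ρ θ) ≤
      (Ioo 0 r).indicator (fun ρ => ENNReal.ofReal (ρ * (2 * Real.pi * (M - Real.log ‖f c‖)))) ρ := by
    intro ρ hρ
    by_cases h7 : ρ < r
    · rw [indicator_of_mem (show ρ ∈ Ioo 0 r from ⟨hρ, h7⟩), indicator_of_mem (show ρ ∈ Ioo 0 r from ⟨hρ, h7⟩),
        lintegral_const_mul' _ _ ENNReal.ofReal_ne_top, ENNReal.ofReal_mul (le_of_lt hρ)]
      exact mul_le_mul_right (SubM_circ hf c r M hc hM ρ hρ h7.le) _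
    · have h8 : ρ ∉ Ioo 0 r := fun h => h7 h.2
      rw [indicator_of_notMem h8]
      simp
  refine (setLIntegral_mono' measurableSet_Ioi h6).trans ?_
  rw [setLIntegral_indicator measurableSet_Ioo]
  have h9 : Ioo 0 r ∩ Ioi 0 = Ioo 0 r := inter_eq_left.2 fun x hx => hx.1
  rw [h9]
  have hI : IntegrableOn (fun ρ : ℝ => ρ * (2 * Real.pi * (M - Real.log ‖f c‖))) (Ioo 0 r) volume :=
    (Continuous.integrableOn_Icc (by fun_prop)).mono_set Ioo_subset_Icc_self
  rw [← ofReal_integral_eq_lintegral_ofReal hI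
    ((ae_restrict_iff' measurableSet_Ioo).2 (Eventually.of_forall fun ρ hρ => mul_nonneg hρ.1.le (by positivity)))]
  refine ENNReal.ofReal_le_ofReal (le_of_eq ?_)
  rw [← integral_Ioc_eq_integral_Ioo, ← intervalIntegral.integral_of_le hr.le, intervalIntegral.integral_mul_const,
    integral_id]
  ring

end Pool.Agent.Lib.MP_ec260d_ntC
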