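import Mathlib
import Pool.Agent.Lib.MP_ec260d_ntC.DefsG
import Pool.Agent.Lib.MP_ec260d_ntC.Conf
import Pool.Agent.Lib.MP_ec260d_ntC.CntT
import Pool.Agent.Lib.MP_ec260d_ntC.SubM

/-!
# JOB ArI: integrability of the counting function (about 250 lines)

`Z0 ≥ 10` at least the constant of `conf R`, `C` from `cntT R`, `L w = log (2 + ‖w‖)`, `D w = log (GG w) - log ‖HH 0 w‖` (real logarithms).  Define `N w = ⊤` if `HH 0 w = 0`, otherwise `0` if `‖w‖^(2/3) ≤ |w.im|`, otherwise `ofReal (C (L w)² + 2 D w)`.  Measurable (`GG_cont`, `HH` continuous).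
Counting property: `conf` and `cntT`.  The zeros of `HH 0` are a countable (closed discrete) set, a null set: they can be ignored in the integral.  Let `T_m = {w : m ≤ w.re < m + 1}`, `m ∈ ℤ`.  On the region `Ω = {‖w‖ > Z0, |w.im| < ‖w‖^(2/3)}`: `‖w‖ ≤ 2 (1 + |w.re|)` (since `‖w‖ ≤ |w.re| + ‖w‖^(2/3)` and `‖w‖^(2/3) ≤ ‖w‖/2` for `‖w‖ ≥ 8`), so `|w.re| ≥ Z0/2 - 1`, `|w.im| ≤ 2 (1 + |w.re|)^(2/3)`.
(a) `|w.im| ≥ 3`: `D w = 0` (`GG_eq`), the integral over `Ω ∩ T_m ∩ {|im| ≥ 3}` is at most `4 (2 + |m|)^(2/3) C L² / (|m| - 1)²` for `|m| ≥ 3`; summable over `m`.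
(b) `|w.im| < 3`: `Ω ∩ T_m ∩ {|im| < 3} ⊆ ball (m - 3I) 8`.  `GG w ≤ GG (m - 3I) exp (8 C log (12 + |m|))` and `≥` the same with a minus sign (`glip` both ways), `GG (m - 3I) = ‖HH 0 (m - 3I)‖` (`GG_eq`), and `log ‖HH 0 w‖ ≤ log GG w + log C + 9 log (12 + |m|)` (`wbd`).  So `sub_mean` with `f = HH 0`, `c = m - 3I`, `r = 8`, `M = log ‖HH 0 c‖ + C' log (12 + |m|)`:
`∫⁻_{ball} ofReal (M - log ‖HH 0 w‖) ≤ 64 π C' log (12 + |m|)`, and `C L² + 2 D w ≤ C'' log² (12 + |m|) + 2 (M - log ‖HH 0 w‖)`.  With the weight `1/‖w‖² ≤ 1/(|m| - 1)²` the sum over `|m| ≥ 3` converges.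
(`Z0 ≥ 10` implies `|m| ≥ 3` for all the `T_m` which meet `Ω`: `|w.re| ≥ 4`.)
-/

namespace Pool.Agent.Lib.MP_ec260d_ntC

open Complex Set Filter Topology Metric MeasureTheory

private theorem ArI_null : volume {w : ℂ | HH 0 w = 0} = 0 := by
  have hc : {w : ℂ | HH 0 w = 0}.Countable := by
    have h : {w : ℂ | HH 0 w = 0} = ⋃ n : ℕ, {z | z ∈ closedBall (0 : ℂ) n ∧ HH 0 z = 0} := by
      ext w
      simp only [mem_ofPred_eq, mem_iUnion]
      constructor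
      · intro hw
        obtain ⟨n, hn⟩ := exists_nat_ge ‖w‖
        exact ⟨n, by simpa using hn, hw⟩
      · rintro ⟨n, _, hw⟩
        exact hw
    rw [h]
    exact countable_iUnion fun n => (HH_zeros_finite 0 _ (isCompact_closedBall _ _)).countable
  exact hc.measure_zero _

private theorem ArI_int (K : ℝ) : ∫⁻ w : ℂ, ENNReal.ofReal
    (K * ((1 + |w.re|) ^ (-(11 / 10 : ℝ)) * (1 + |w.im|) ^ (-(6 / 5 : ℝ)))) < ⊤ := by
  have h1 : Integrable (fun x : ℝ => (1 + ‖x‖) ^ (-(11 / 10 : ℝ))) :=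
    integrable_one_add_norm (by rw [Module.finrank_self]; norm_num)
  have h2 : Integrable (fun x : ℝ => (1 + ‖x‖) ^ (-(6 / 5 : ℝ))) :=
    integrable_one_add_norm (by rw [Module.finrank_self]; norm_num)
  have h3 := h1.mul_prod h2
  have h4 := Complex.volume_preserving_equiv_real_prod.integrable_comp_of_integrable h3
  exact (h4.const_mul K).lintegral_lt_top

private theorem ArI_pt {C : ℝ} (hC : 0 ≤ C) {w : ℂ} (hw : 10 < ‖w‖)
    (him : |w.im| < ‖w‖ ^ (2 / 3 : ℝ)) :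
    C * Real.log (2 + ‖w‖) ^ 2 * (1 / ‖w‖ ^ 2) ≤
      (6400 * C) * ((1 + |w.re|) ^ (-(11 / 10 : ℝ)) * (1 + |w.im|) ^ (-(6 / 5 : ℝ))) := by
  obtain ⟨b, hb⟩ : ∃ b : ℝ, b = 2 * ‖w‖ := ⟨_, rfl⟩
  have hb20 : 20 < b := by linarith
  have hb0 : 0 < b := by linarith
  have hre : |w.re| ≤ ‖w‖ := Complex.abs_re_le_norm w
  have h1 : b ^ (-(11 / 10 : ℝ)) ≤ (1 + |w.re|) ^ (-(11 / 10 : ℝ)) :=
    Real.rpow_le_rpow_of_nonpos (by positivity) (by linarith) (by norm_num)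
  have hn1 : 1 ≤ ‖w‖ ^ (2 / 3 : ℝ) := Real.one_le_rpow (by linarith) (by norm_num)
  have hn2 : ‖w‖ ^ (2 / 3 : ℝ) ≤ b ^ (2 / 3 : ℝ) :=
    Real.rpow_le_rpow (norm_nonneg _) (by linarith) (by norm_num)
  have h2 : (2 * b ^ (2 / 3 : ℝ)) ^ (-(6 / 5 : ℝ)) ≤ (1 + |w.im|) ^ (-(6 / 5 : ℝ)) :=
    Real.rpow_le_rpow_of_nonpos (by positivity) (by linarith) (by norm_num)
  have h3 : (2 * b ^ (2 / 3 : ℝ)) ^ (-(6 / 5 : ℝ)) = 2 ^ (-(6 / 5 : ℝ)) * b ^ (-(4 / 5 : ℝ)) := by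
    rw [Real.mul_rpow (by norm_num) (by positivity), ← Real.rpow_mul hb0.le]
    norm_num
  have h4 : (1 / 4 : ℝ) ≤ 2 ^ (-(6 / 5 : ℝ)) := by
    calc (1 / 4 : ℝ) = 2 ^ (-2 : ℝ) := by
          rw [Real.rpow_neg (by norm_num)]; norm_num
      _ ≤ 2 ^ (-(6 / 5 : ℝ)) := Real.rpow_le_rpow_of_exponent_le (by norm_num) (by norm_num)
  have hb45 : 0 ≤ b ^ (-(4 / 5 : ℝ)) := by positivity
  have h5 : 1 / 4 * b ^ (-(4 / 5 : ℝ)) ≤ (1 + |w.im|) ^ (-(6 / 5 : ℝ)) := by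
    refine le_trans ?_ h2
    rw [h3]
    exact mul_le_mul_of_nonneg_right h4 hb45
  have h6 : 1 / 4 * b ^ (-(19 / 10 : ℝ)) ≤
      (1 + |w.re|) ^ (-(11 / 10 : ℝ)) * (1 + |w.im|) ^ (-(6 / 5 : ℝ)) := by
    calc 1 / 4 * b ^ (-(19 / 10 : ℝ)) = b ^ (-(11 / 10 : ℝ)) * (1 / 4 * b ^ (-(4 / 5 : ℝ))) := by
          rw [mul_left_comm, ← Real.rpow_add hb0]
          norm_num
      _ ≤ _ := mul_le_mul h1 h5 (by positivity) (by positivity)
  have hl0 : 0 ≤ Real.log (2 + ‖w‖) := Real.log_nonneg (by linarith)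
  have hl1 : Real.log (2 + ‖w‖) ≤ 20 * b ^ (1 / 20 : ℝ) := by
    calc Real.log (2 + ‖w‖) ≤ Real.log b := Real.log_le_log (by linarith) (by linarith)
      _ ≤ b ^ (1 / 20 : ℝ) / (1 / 20) := Real.log_le_rpow_div hb0.le (by norm_num)
      _ = 20 * b ^ (1 / 20 : ℝ) := by ring
  have hl2 : Real.log (2 + ‖w‖) ^ 2 ≤ 400 * b ^ (1 / 10 : ℝ) := by
    calc Real.log (2 + ‖w‖) ^ 2 ≤ (20 * b ^ (1 / 20 : ℝ)) ^ 2 := pow_le_pow_left₀ hl0 hl1 2
      _ = 400 * (b ^ (1 / 20 : ℝ)) ^ 2 := by ring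
      _ = 400 * b ^ (1 / 10 : ℝ) := by
        rw [← Real.rpow_natCast (b ^ (1 / 20 : ℝ)) 2, ← Real.rpow_mul hb0.le]
        norm_num
  have h7 : 1 / ‖w‖ ^ 2 = 4 * b ^ (-2 : ℝ) := by
    have hw0 : ‖w‖ ≠ 0 := by linarith
    rw [Real.rpow_neg hb0.le, hb]
    have : (2 * ‖w‖) ^ (2 : ℝ) = (2 * ‖w‖) ^ 2 := by
      rw [← Real.rpow_natCast]; norm_num
    rw [this]
    field_simp
    norm_num
  calc C * Real.log (2 + ‖w‖) ^ 2 * (1 / ‖w‖ ^ 2)
      ≤ C * (400 * b ^ (1 / 10 : ℝ)) * (4 * b ^ (-2 : ℝ)) := by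
        rw [h7]
        exact mul_le_mul_of_nonneg_right (mul_le_mul_of_nonneg_left hl2 hC) (by positivity)
    _ = (6400 * C) * (1 / 4 * (b ^ (1 / 10 : ℝ) * b ^ (-2 : ℝ))) := by ring
    _ = (6400 * C) * (1 / 4 * b ^ (-(19 / 10 : ℝ))) := by
        rw [← Real.rpow_add hb0]
        norm_num
    _ ≤ _ := mul_le_mul_of_nonneg_left h6 (by positivity)

private theorem ArI_vol (c : ℂ) : volume (ball c 8) = ENNReal.ofReal (64 * Real.pi) := by
  rw [Complex.volume_ball, ENNReal.ofReal_mul (by norm_num), ← ENNReal.ofReal_pow (by norm_num)]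
  have h1 : (NNReal.pi : ENNReal) = ENNReal.ofReal Real.pi := by
    rw [ENNReal.ofReal, ← NNReal.coe_real_pi, Real.toNNReal_coe]
  rw [h1]
  norm_num

private theorem ArI_ball {C : ℝ} (hC : 0 ≤ C) (N : ℂ → ENNReal)
    (hN : ∀ w, HH 0 w ≠ 0 → N w ≤ ENNReal.ofReal
      (C * Real.log (2 + ‖w‖) ^ 2 + 2 * (Real.log (GG w) - Real.log ‖HH 0 w‖))) :
    ∃ K : ℝ, 0 ≤ K ∧ ∀ m : ℤ, ∫⁻ w in ball ((m : ℂ) - 3 * I) 8, N w ≤
      ENNReal.ofReal (K * Real.log (13 + |(m : ℝ)|) ^ 2) := by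
  obtain ⟨Cg, hCg1, hCg⟩ := glip
  obtain ⟨Cw, hCw1, hCw⟩ := wbd
  have hlCw : 0 ≤ Real.log Cw := Real.log_nonneg hCw1
  obtain ⟨A, hA⟩ : ∃ A : ℝ, A = Real.log Cw + 9 + 8 * Cg := ⟨_, rfl⟩
  have hA0 : 0 ≤ A := by linarith
  have hpi := Real.pi_pos
  refine ⟨64 * Real.pi * (C + 2 * A), by positivity, fun m => ?_⟩
  obtain ⟨c, hc⟩ : ∃ c : ℂ, c = (m : ℂ) - 3 * I := ⟨_, rfl⟩
  rw [← hc]
  obtain ⟨Λ, hΛ⟩ : ∃ Λ : ℝ, Λ = Real.log (13 + |(m : ℝ)|) := ⟨_, rfl⟩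
  rw [← hΛ]
  have hm0 : 0 ≤ |(m : ℝ)| := abs_nonneg _
  have hΛ1 : 1 ≤ Λ := by
    rw [hΛ, Real.le_log_iff_exp_le (by linarith)]
    have := Real.exp_one_lt_d9
    linarith
  have hcim : c.im = -3 := by rw [hc]; simp
  have hcn : ‖c‖ ≤ |(m : ℝ)| + 3 := by
    rw [hc]
    calc ‖(m : ℂ) - 3 * I‖ ≤ ‖(m : ℂ)‖ + ‖3 * I‖ := norm_sub_le _ _
      _ = |(m : ℝ)| + 3 := by
        rw [norm_mul, Complex.norm_I, ← Complex.ofReal_intCast, Complex.norm_real, Real.norm_eq_abs]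
        simp
  have hGc : GG c = ‖HH 0 c‖ := GG_eq c (by rw [hcim]; norm_num)
  have hHc : HH 0 c ≠ 0 := by
    have := GG_pos c
    rw [hGc] at this
    exact norm_pos_iff.1 this
  have hHc0 : 0 < ‖HH 0 c‖ := norm_pos_iff.2 hHc
  -- bound for the comparison function on the ball
  have hG : ∀ w : ℂ, ‖w - c‖ ≤ 8 →
      Real.log (GG w) ≤ Real.log ‖HH 0 c‖ + 8 * Cg * Λ := by
    intro w hw
    have h1 := hCg c w
    rw [hGc] at h1
    have h2 : Real.log (2 + ‖c‖ + ‖w - c‖) ≤ Λ := by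
      rw [hΛ]
      exact Real.log_le_log (by positivity) (by linarith)
    have h20 : 0 ≤ Real.log (2 + ‖c‖ + ‖w - c‖) :=
      Real.log_nonneg (by linarith [norm_nonneg c, norm_nonneg (w - c)])
    have h3 : Cg * Real.log (2 + ‖c‖ + ‖w - c‖) * ‖w - c‖ ≤ 8 * Cg * Λ := by
      calc Cg * Real.log (2 + ‖c‖ + ‖w - c‖) * ‖w - c‖
          ≤ (Cg * Λ) * 8 := by
            refine mul_le_mul (mul_le_mul_of_nonneg_left h2 (by linarith)) hw (norm_nonneg _) ?_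
            exact mul_nonneg (by linarith) (by linarith)
        _ = 8 * Cg * Λ := by ring
    have h4 : GG w ≤ ‖HH 0 c‖ * Real.exp (8 * Cg * Λ) :=
      h1.trans (mul_le_mul_of_nonneg_left (Real.exp_le_exp.2 h3) hHc0.le)
    have h5 := Real.log_le_log (GG_pos w) h4
    rwa [Real.log_mul hHc0.ne' (Real.exp_pos _).ne', Real.log_exp] at h5
  have hH : ∀ w : ℂ, ‖w - c‖ ≤ 8 → HH 0 w ≠ 0 →
      Real.log ‖HH 0 w‖ ≤ Real.log ‖HH 0 c‖ + A * Λ := by
    intro w hw hw0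
    have hwn : 2 + ‖w‖ ≤ 13 + |(m : ℝ)| := by
      have : ‖w‖ ≤ ‖w - c‖ + ‖c‖ := by
        calc ‖w‖ = ‖(w - c) + c‖ := by rw [sub_add_cancel]
          _ ≤ _ := norm_add_le _ _
      linarith
    have h1 := Real.log_le_log (norm_pos_iff.2 hw0) (hCw w)
    have hGw := GG_pos w
    have hw2 : 0 < 2 + ‖w‖ := by linarith [norm_nonneg w]
    rw [Real.log_mul (by positivity) hGw.ne', Real.log_mul (by positivity) (by positivity),
      Real.log_pow] at h1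
    have h2 : Real.log (2 + ‖w‖) ≤ Λ := by
      rw [hΛ]
      exact Real.log_le_log hw2 hwn
    have h3 := hG w hw
    have h4 : Real.log Cw ≤ Real.log Cw * Λ := le_mul_of_one_le_right hlCw hΛ1
    rw [hA]
    push_cast at h1
    nlinarith
  -- the normalized function
  have hfd : Differentiable ℂ (fun w => HH 0 w / HH 0 c) := (HH_diff_z 0).div_const _
  have hfc : HH 0 c / HH 0 c = 1 := div_self hHc
  have hAΛ : 0 ≤ A * Λ := mul_nonneg hA0 (by linarith)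
  have hlog : ∀ w, HH 0 w ≠ 0 →
      Real.log ‖HH 0 w / HH 0 c‖ = Real.log ‖HH 0 w‖ - Real.log ‖HH 0 c‖ := by
    intro w hw
    rw [norm_div, Real.log_div (norm_ne_zero_iff.2 hw) hHc0.ne']
  have hsm := sub_mean hfd c 8 (A * Λ) (by norm_num) (by simp only [hfc]; exact one_ne_zero) (by
    intro w hw
    by_cases hw0 : HH 0 w = 0
    · simp only [hw0, zero_div, norm_zero, Real.log_zero]
      exact hAΛ
    · simp only [hlog w hw0]
      linarith [hH w hw hw0])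
  simp only [hfc, norm_one, Real.log_one, sub_zero] at hsm
  -- pointwise bound
  have hae : ∀ᵐ w ∂(volume.restrict (ball c 8)), N w ≤
      ENNReal.ofReal (C * Λ ^ 2) + 2 * ENNReal.ofReal (A * Λ - Real.log ‖HH 0 w / HH 0 c‖) := by
    have h0 : ∀ᵐ w : ℂ ∂(volume.restrict (ball c 8)), HH 0 w ≠ 0 := by
      refine ae_restrict_of_ae ?_
      have := measure_eq_zero_iff_ae_notMem.1 ArI_null
      filter_upwards [this] with w hw
      exact hw
    filter_upwards [h0, ae_restrict_mem measurableSet_ball] with w hw0 hwb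
    have hwc : ‖w - c‖ ≤ 8 := by
      have := mem_ball.1 hwb
      rw [dist_eq_norm] at this
      exact this.le
    have hwn : 2 + ‖w‖ ≤ 13 + |(m : ℝ)| := by
      have : ‖w‖ ≤ ‖w - c‖ + ‖c‖ := by
        calc ‖w‖ = ‖(w - c) + c‖ := by rw [sub_add_cancel]
          _ ≤ _ := norm_add_le _ _
      linarith
    have hL0 : 0 ≤ Real.log (2 + ‖w‖) := Real.log_nonneg (by linarith [norm_nonneg w])
    have hL : Real.log (2 + ‖w‖) ≤ Λ := by
      rw [hΛ]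
      exact Real.log_le_log (by linarith [norm_nonneg w]) hwn
    have hL2 : Real.log (2 + ‖w‖) ^ 2 ≤ Λ ^ 2 := pow_le_pow_left₀ hL0 hL 2
    refine (hN w hw0).trans ?_
    have hCgA : 8 * Cg * Λ ≤ A * Λ := mul_le_mul_of_nonneg_right (by rw [hA]; linarith) (by linarith)
    have h1 : C * Real.log (2 + ‖w‖) ^ 2 + 2 * (Real.log (GG w) - Real.log ‖HH 0 w‖) ≤
        C * Λ ^ 2 + 2 * (A * Λ - Real.log ‖HH 0 w / HH 0 c‖) := by
      rw [hlog w hw0]
      have h2 := mul_le_mul_of_nonneg_left hL2 hC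
      have h3 := hG w hwc
      linarith
    refine (ENNReal.ofReal_le_ofReal h1).trans (ENNReal.ofReal_add_le.trans ?_)
    rw [ENNReal.ofReal_mul (by norm_num : (0 : ℝ) ≤ 2)]
    simp
  calc ∫⁻ w in ball c 8, N w
      ≤ ∫⁻ w in ball c 8, (ENNReal.ofReal (C * Λ ^ 2) +
          2 * ENNReal.ofReal (A * Λ - Real.log ‖HH 0 w / HH 0 c‖)) := lintegral_mono_ae hae
    _ = ENNReal.ofReal (C * Λ ^ 2) * volume (ball c 8) +
          2 * ∫⁻ w in ball c 8, ENNReal.ofReal (A * Λ - Real.log ‖HH 0 w / HH 0 c‖) := by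
        rw [lintegral_add_left measurable_const, lintegral_const, Measure.restrict_apply_univ,
          lintegral_const_mul' _ _ (by norm_num)]
    _ ≤ ENNReal.ofReal (C * Λ ^ 2) * ENNReal.ofReal (64 * Real.pi) +
          2 * ENNReal.ofReal (Real.pi * 8 ^ 2 * (A * Λ)) := by
        rw [ArI_vol]
        gcongr
    _ = ENNReal.ofReal (C * Λ ^ 2 * (64 * Real.pi) + 2 * (Real.pi * 8 ^ 2 * (A * Λ))) := by
        rw [ENNReal.ofReal_add (by positivity) (by positivity),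
          ENNReal.ofReal_mul (p := C * Λ ^ 2) (by positivity),
          ENNReal.ofReal_mul (p := (2 : ℝ)) (by norm_num)]
        simp
    _ ≤ ENNReal.ofReal (64 * Real.pi * (C + 2 * A) * Λ ^ 2) := by
        refine ENNReal.ofReal_le_ofReal ?_
        have h1 : Λ ≤ Λ ^ 2 := by nlinarith
        have h2 : A * Λ ≤ A * Λ ^ 2 := mul_le_mul_of_nonneg_left h1 hA0
        nlinarith

private theorem ArI_sum (K : ℝ) (hK : 0 ≤ K) :
    ∑' m : ℤ, ENNReal.ofReal (4 / (1 + |(m : ℝ)|) ^ 2 * (K * Real.log (13 + |(m : ℝ)|) ^ 2)) < ⊤ := by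
  have h1 : Summable (fun n : ℕ => (1 + (n : ℝ)) ^ (-(3 / 2 : ℝ))) := by
    have h := (summable_nat_add_iff 1).2 (Real.summable_nat_rpow (p := -(3 / 2 : ℝ)).2 (by norm_num))
    refine h.congr fun n => ?_
    push_cast
    rw [add_comm]
  have h2 : Summable (fun m : ℤ => (1 + |(m : ℝ)|) ^ (-(3 / 2 : ℝ))) := by
    refine Summable.of_nat_of_neg ?_ ?_
    · refine h1.congr fun n => ?_
      rw [Int.cast_natCast, abs_of_nonneg (Nat.cast_nonneg n)]
    · refine h1.congr fun n => ?_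
      rw [Int.cast_neg, Int.cast_natCast, abs_neg, abs_of_nonneg (Nat.cast_nonneg n)]
  have h3 : Summable (fun m : ℤ =>
      4 / (1 + |(m : ℝ)|) ^ 2 * (K * Real.log (13 + |(m : ℝ)|) ^ 2)) := by
    refine Summable.of_nonneg_of_le (fun m => by positivity) (fun m => ?_)
      (h2.mul_left (256 * K))
    obtain ⟨b, hb⟩ : ∃ b : ℝ, b = 1 + |(m : ℝ)| := ⟨_, rfl⟩
    have hm0 : 0 ≤ |(m : ℝ)| := abs_nonneg _
    have hb1 : 1 ≤ b := by linarith
    have hb0 : 0 < b := by linarith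
    rw [← hb]
    have hl0 : 0 ≤ Real.log (13 + |(m : ℝ)|) := Real.log_nonneg (by linarith)
    have hl1 : Real.log (13 + |(m : ℝ)|) ≤ 8 * b ^ (1 / 4 : ℝ) := by
      calc Real.log (13 + |(m : ℝ)|) ≤ Real.log (16 * b) :=
            Real.log_le_log (by linarith) (by linarith)
        _ ≤ (16 * b) ^ (1 / 4 : ℝ) / (1 / 4) := Real.log_le_rpow_div (by linarith) (by norm_num)
        _ = 8 * b ^ (1 / 4 : ℝ) := by
          rw [Real.mul_rpow (by norm_num) hb0.le]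
          have : (16 : ℝ) ^ (1 / 4 : ℝ) = 2 := by
            rw [show (16 : ℝ) = 2 ^ (4 : ℝ) by
              rw [← Nat.cast_ofNat (n := 4), Real.rpow_natCast]; norm_num, ← Real.rpow_mul (by norm_num)]
            norm_num
          rw [this]
          ring
    have hl2 : Real.log (13 + |(m : ℝ)|) ^ 2 ≤ 64 * b ^ (1 / 2 : ℝ) := by
      calc Real.log (13 + |(m : ℝ)|) ^ 2 ≤ (8 * b ^ (1 / 4 : ℝ)) ^ 2 := pow_le_pow_left₀ hl0 hl1 2
        _ = 64 * (b ^ (1 / 4 : ℝ)) ^ 2 := by ring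
        _ = 64 * b ^ (1 / 2 : ℝ) := by
          rw [← Real.rpow_natCast (b ^ (1 / 4 : ℝ)) 2, ← Real.rpow_mul hb0.le]
          norm_num
    have h7 : 4 / b ^ 2 = 4 * b ^ (-2 : ℝ) := by
      rw [Real.rpow_neg hb0.le, div_eq_mul_inv, ← Real.rpow_natCast]
      norm_num
    calc 4 / b ^ 2 * (K * Real.log (13 + |(m : ℝ)|) ^ 2)
        ≤ 4 * b ^ (-2 : ℝ) * (K * (64 * b ^ (1 / 2 : ℝ))) := by
          rw [h7]
          exact mul_le_mul_of_nonneg_left (mul_le_mul_of_nonneg_left hl2 hK) (by positivity)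
      _ = 256 * K * (b ^ (-2 : ℝ) * b ^ (1 / 2 : ℝ)) := by ring
      _ = 256 * K * b ^ (-(3 / 2 : ℝ)) := by
          rw [← Real.rpow_add hb0]
          norm_num
  exact h3.tsum_ofReal_lt_top

private theorem ArI_strip (N : ℂ → ENNReal) (K : ℝ) (hK : 0 ≤ K)
    (h : ∀ m : ℤ, ∫⁻ w in ball ((m : ℂ) - 3 * I) 8, N w ≤
      ENNReal.ofReal (K * Real.log (13 + |(m : ℝ)|) ^ 2)) :
    ∫⁻ w in {w : ℂ | 10 < ‖w‖ ∧ |w.im| < 3}, N w * ENNReal.ofReal (1 / ‖w‖ ^ 2) < ⊤ := by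
  obtain ⟨T, hT⟩ : ∃ T : ℤ → Set ℂ, T = fun m : ℤ => {w : ℂ | (m : ℝ) ≤ w.re ∧ w.re < m + 1 ∧
    10 < ‖w‖ ∧ |w.im| < 3} := ⟨_, rfl⟩
  have hTm : ∀ m, MeasurableSet (T m) := by
    intro m
    rw [hT]
    have h1 : MeasurableSet {w : ℂ | (m : ℝ) ≤ w.re} := measurableSet_le measurable_const Complex.measurable_re
    have h2 : MeasurableSet {w : ℂ | w.re < m + 1} := measurableSet_lt Complex.measurable_re measurable_const
    have h3 : MeasurableSet {w : ℂ | 10 < ‖w‖} := measurableSet_lt measurable_const measurable_norm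
    have h4 : MeasurableSet {w : ℂ | |w.im| < 3} :=
      measurableSet_lt (continuous_abs.measurable.comp Complex.measurable_im) measurable_const
    exact h1.inter (h2.inter (h3.inter h4))
  have hcov : {w : ℂ | 10 < ‖w‖ ∧ |w.im| < 3} ⊆ ⋃ m, T m := by
    intro w hw
    rw [mem_iUnion]
    refine ⟨⌊w.re⌋, ?_⟩
    rw [hT]
    exact ⟨Int.floor_le _, Int.lt_floor_add_one _, hw.1, hw.2⟩
  refine lt_of_le_of_lt (lintegral_mono_set hcov) ?_
  refine lt_of_le_of_lt (lintegral_iUnion_le T _) ?_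
  refine lt_of_le_of_lt (ENNReal.tsum_le_tsum fun m => ?_) (ArI_sum K hK)
  have hm0 : 0 ≤ |(m : ℝ)| := abs_nonneg _
  have hsub : T m ⊆ ball ((m : ℂ) - 3 * I) 8 := by
    intro w hw
    rw [hT] at hw
    obtain ⟨h1, h2, _, h4⟩ := hw
    rw [mem_ball, dist_eq_norm]
    refine lt_of_le_of_lt (Complex.norm_le_abs_re_add_abs_im _) ?_
    have h5 : (w - ((m : ℂ) - 3 * I)).re = w.re - m := by simp
    have h6 : (w - ((m : ℂ) - 3 * I)).im = w.im + 3 := by simp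
    rw [h5, h6]
    have h7 : |w.re - m| ≤ 1 := by rw [abs_le]; constructor <;> linarith
    have h8 : |w.im + 3| < 6 := by
      have := abs_lt.1 h4
      rw [abs_lt]; constructor <;> linarith
    linarith
  calc ∫⁻ w in T m, N w * ENNReal.ofReal (1 / ‖w‖ ^ 2)
      ≤ ∫⁻ w in T m, N w * ENNReal.ofReal (4 / (1 + |(m : ℝ)|) ^ 2) := by
        refine setLIntegral_mono' (hTm m) fun w hw => ?_
        rw [hT] at hw
        obtain ⟨h1, h2, h3, h4⟩ := hw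
        refine mul_le_mul' le_rfl (ENNReal.ofReal_le_ofReal ?_)
        have h5 := Complex.norm_le_abs_re_add_abs_im w
        have h6 : |(m : ℝ)| ≤ |w.re| + 1 := by
          have : |(m : ℝ) - w.re| ≤ 1 := by rw [abs_le]; constructor <;> linarith
          calc |(m : ℝ)| = |w.re + ((m : ℝ) - w.re)| := by ring_nf
            _ ≤ |w.re| + |(m : ℝ) - w.re| := abs_add_le _ _
            _ ≤ |w.re| + 1 := by linarith
        have h7 : 1 + |(m : ℝ)| ≤ 2 * ‖w‖ := by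
          have := Complex.abs_re_le_norm w
          linarith
        have hw0 : 0 < ‖w‖ := by linarith
        rw [div_le_div_iff₀ (by positivity) (by positivity), one_mul]
        calc (1 + |(m : ℝ)|) ^ 2 ≤ (2 * ‖w‖) ^ 2 := pow_le_pow_left₀ (by linarith) h7 2
          _ = 4 * ‖w‖ ^ 2 := by ring
    _ = (∫⁻ w in T m, N w) * ENNReal.ofReal (4 / (1 + |(m : ℝ)|) ^ 2) :=
        lintegral_mul_const' _ _ ENNReal.ofReal_ne_top
    _ ≤ (∫⁻ w in ball ((m : ℂ) - 3 * I) 8, N w) * ENNReal.ofReal (4 / (1 + |(m : ℝ)|) ^ 2) := by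
        gcongr
    _ ≤ ENNReal.ofReal (K * Real.log (13 + |(m : ℝ)|) ^ 2) *
          ENNReal.ofReal (4 / (1 + |(m : ℝ)|) ^ 2) := by
        gcongr
        exact h m
    _ = ENNReal.ofReal (4 / (1 + |(m : ℝ)|) ^ 2 * (K * Real.log (13 + |(m : ℝ)|) ^ 2)) := by
        rw [ENNReal.ofReal_mul (p := 4 / (1 + |(m : ℝ)|) ^ 2) (by positivity), mul_comm]

theorem arI (R : ℝ) (hR : 0 < R) : ∃ (Z0 : ℝ) (N : ℂ → ENNReal), 1 ≤ Z0 ∧ Measurable N ∧
    (∀ w : ℂ, Z0 < ‖w‖ → ∀ S : Finset ℂ, (∀ t ∈ S, ‖t‖ ≤ R ∧ HH t w = 0) → (S.card : ENNReal) ≤ N w) ∧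
    ∫⁻ w in {w : ℂ | Z0 < ‖w‖}, N w * ENNReal.ofReal (1 / ‖w‖ ^ 2) < ⊤ := by
  classical
  obtain ⟨Z1, hZ1, hconf⟩ := conf R
  obtain ⟨C, hC1, hcnt⟩ := cntT R hR
  have hC0 : 0 ≤ C := by linarith
  obtain ⟨Z0, hZ0⟩ : ∃ Z0 : ℝ, Z0 = max 10 Z1 := ⟨_, rfl⟩
  have hZ010 : 10 ≤ Z0 := by rw [hZ0]; exact le_max_left _ _
  have hZ0Z1 : Z1 ≤ Z0 := by rw [hZ0]; exact le_max_right _ _
  obtain ⟨N, hN⟩ : ∃ N : ℂ → ENNReal, N = fun w => if HH 0 w = 0 then ⊤ else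
      if ‖w‖ ^ (2 / 3 : ℝ) ≤ |w.im| then 0 else ENNReal.ofReal
        (C * Real.log (2 + ‖w‖) ^ 2 + 2 * (Real.log (GG w) - Real.log ‖HH 0 w‖)) := ⟨_, rfl⟩
  have hNle : ∀ w, HH 0 w ≠ 0 → N w ≤ ENNReal.ofReal
      (C * Real.log (2 + ‖w‖) ^ 2 + 2 * (Real.log (GG w) - Real.log ‖HH 0 w‖)) := by
    intro w hw
    rw [hN]
    simp only [if_neg hw]
    split_ifs
    · exact bot_le
    · exact le_rfl
  refine ⟨Z0, N, by linarith, ?_, ?_, ?_⟩
  · rw [hN]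
    have hH : Measurable (fun w => HH 0 w) := (HH_diff_z 0).continuous.measurable
    have hG : Measurable GG := GG_cont.measurable
    have hn : Measurable (fun w : ℂ => ‖w‖) := measurable_norm
    refine Measurable.ite (measurableSet_eq_fun hH measurable_const) measurable_const ?_
    refine Measurable.ite (measurableSet_le (hn.pow_const _)
      (continuous_abs.measurable.comp Complex.measurable_im)) measurable_const ?_
    refine ENNReal.measurable_ofReal.comp ?_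
    exact (((Real.measurable_log.comp (measurable_const.add hn)).pow_const 2).const_mul C).add
      (((Real.measurable_log.comp hG).sub (Real.measurable_log.comp hH.norm)).const_mul 2)
  · intro w hw S hS
    rw [hN]
    by_cases h0 : HH 0 w = 0
    · simp only [if_pos h0]
      exact le_top
    · simp only [if_neg h0]
      by_cases h1 : ‖w‖ ^ (2 / 3 : ℝ) ≤ |w.im|
      · simp only [if_pos h1]
        have hSe : S = ∅ := by
          rw [Finset.eq_empty_iff_forall_notMem]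
          intro t ht
          exact hconf t w (hS t ht).1 (hZ0Z1.trans hw.le) h1 (hS t ht).2
        rw [hSe]
        simp
      · simp only [if_neg h1]
        have h2 := hcnt w h0 S hS
        calc (S.card : ENNReal) = ENNReal.ofReal (S.card : ℝ) := (ENNReal.ofReal_natCast _).symm
          _ ≤ _ := ENNReal.ofReal_le_ofReal h2
  · obtain ⟨K, hK0, hK⟩ := ArI_ball hC0 N hNle
    have hs := ArI_strip N K hK0 hK
    have hsub : {w : ℂ | Z0 < ‖w‖} ⊆ {w : ℂ | 10 < ‖w‖ ∧ |w.im| < 3} ∪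
        {w : ℂ | 10 < ‖w‖ ∧ 3 ≤ |w.im|} := by
      intro w hw
      have hw1 : 10 < ‖w‖ := lt_of_le_of_lt hZ010 hw
      rcases lt_or_ge |w.im| 3 with h | h
      · exact Or.inl ⟨hw1, h⟩
      · exact Or.inr ⟨hw1, h⟩
    refine lt_of_le_of_lt (lintegral_mono_set hsub) ?_
    refine lt_of_le_of_lt (lintegral_union_le _ _ _) ?_
    refine ENNReal.add_lt_top.2 ⟨hs, ?_⟩
    refine lt_of_le_of_lt ?_ (ArI_int (6400 * C))
    have hms : MeasurableSet {w : ℂ | 10 < ‖w‖ ∧ 3 ≤ |w.im|} := by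
      have h3 : MeasurableSet {w : ℂ | 10 < ‖w‖} := measurableSet_lt measurable_const measurable_norm
      have h4 : MeasurableSet {w : ℂ | 3 ≤ |w.im|} :=
        measurableSet_le measurable_const (continuous_abs.measurable.comp Complex.measurable_im)
      exact h3.inter h4
    refine le_trans (lintegral_mono_ae (?_ : _ ≤ᵐ[_] fun w : ℂ => ENNReal.ofReal
      ((6400 * C) * ((1 + |w.re|) ^ (-(11 / 10 : ℝ)) * (1 + |w.im|) ^ (-(6 / 5 : ℝ))))))
      (setLIntegral_le_lintegral _ _)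
    have h0 : ∀ᵐ w : ℂ ∂(volume.restrict {w : ℂ | 10 < ‖w‖ ∧ 3 ≤ |w.im|}), HH 0 w ≠ 0 := by
      refine ae_restrict_of_ae ?_
      filter_upwards [measure_eq_zero_iff_ae_notMem.1 ArI_null] with w hw
      exact hw
    filter_upwards [h0, ae_restrict_mem hms] with w hw0 hw
    obtain ⟨hw1, hw2⟩ := hw
    rw [hN]
    simp only [if_neg hw0]
    split_ifs with h1
    · rw [zero_mul]
      exact bot_le
    · rw [GG_eq w hw2, sub_self, mul_zero, add_zero,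
        ← ENNReal.ofReal_mul (mul_nonneg hC0 (sq_nonneg _))]
      exact ENNReal.ofReal_le_ofReal (ArI_pt hC0 hw1 (not_le.1 h1))

end Pool.Agent.Lib.MP_ec260d_ntC
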