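import Mathlib
import Pool.Agent.Lib.MP_ec260d_ntC.Defs
import Pool.Agent.Lib.MP_ec260d_ntC.HB

/-!
# JOB GermH: local branches of the zeros of H_t (about 200 lines)

`Smp t z` means `HH t z = 0`, `Hz t z ≠ 0`.
`germ_exists`: implicit function theorem for `F (s, w) = HH s w` at `(t, z)` (`HH_strict`; `HasStrictFDerivAt.implicitFunction...` / `ImplicitFunctionData`, or the inverse function theorem for `Ψ (s, w) = (s, F (s, w))`, whose strict derivative at `(t, z)` is invertible because `Hz t z ≠ 0`: `HasStrictFDerivAt.toOpenPartialHomeomorph`).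
From the inverse function theorem: `Ψ` is injective near `(t, z)` and `(s, 0) ↦ Ψ⁻¹ (s, 0) = (s, g s)`; `g` is continuous near `t`, `g t = z`, `F (s, g s) = 0`, and if `F (s, w) = 0` with `(s, w)` near `(t, z)` then `w = g s`.  `g` is differentiable at every `s` near `t` (apply the same at the point `(s, g s)`, where `Hz s (g s) ≠ 0` by continuity
(`HH_iter_cont 1`), and local uniqueness; or the derivative formula of the implicit function), so `g` is analytic at `t` (`DifferentiableOn.analyticAt`).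
`germ_unique`: both `(s, g s)` and `(s, g' s)` tend to `(t, g t)` and the local uniqueness of `germ_exists` gives `g s = G s = g' s`.
`smp_near`: `Hz` is continuous, so `Smp s (g s)` for `s` near `t`.
`lift_ne`: the set of `x ∈ [0, X]` with `w x = w' x` is closed; it is also open in `[0, X]` by the local uniqueness at `(c x, w x)`; `0` is not in it, and `[0, X]` is connected.
`lift_germ`: if `w` is continuous at `x` (within a set), `w x = g (c x)`... for `x'` near `x`: `w x' = g (c x')`.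
-/

namespace Pool.Agent.Lib.MP_ec260d_ntC

open Complex Set Filter Topology Metric MeasureTheory

private theorem GermH1_inv (a b : ℂ) (hb : b ≠ 0) :
    ((a • ContinuousLinearMap.fst ℂ ℂ ℂ + b • ContinuousLinearMap.snd ℂ ℂ ℂ) ∘L
      ContinuousLinearMap.inr ℂ ℂ ℂ).IsInvertible := by
  refine ⟨ContinuousLinearEquiv.unitsEquivAut ℂ (Units.mk0 b hb), ?_⟩
  ext
  simp

private theorem GermH1_cont : Continuous (fun p : ℂ × ℂ => Hz p.1 p.2) := by
  have h := HH_iter_cont 1
  have h1 : (fun p : ℂ × ℂ => iteratedDeriv 1 (HH p.1) p.2) = fun p : ℂ × ℂ => Hz p.1 p.2 := by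
    funext p
    rw [iteratedDeriv_one]
    rfl
  rwa [h1] at h

theorem germ_exists (t z : ℂ) (h : Smp t z) : ∃ g : ℂ → ℂ, AnalyticAt ℂ g t ∧ g t = z ∧
    (∀ᶠ s in 𝓝 t, HH s (g s) = 0) ∧ ∀ᶠ p : ℂ × ℂ in 𝓝 (t, z), HH p.1 p.2 = 0 → p.2 = g p.1 := by
  obtain ⟨h0, hne⟩ := h
  have hF := HH_strict t z
  have hinv := GermH1_inv (-(deriv (Hz t) z)) (Hz t z) hne
  set g : ℂ → ℂ := hF.implicitFunctionOfProdDomain hinv with hg
  have hiff := hF.eventually_apply_eq_iff_implicitFunctionOfProdDomain hinv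
  have hzero := hF.eventually_apply_implicitFunctionOfProdDomain hinv
  have htend := hF.tendsto_implicitFunctionOfProdDomain hinv
  rw [← hg] at hiff hzero htend
  have hgt : g t = z := hiff.self_of_nhds.mp rfl
  have htend' : Tendsto g (𝓝 t) (𝓝 z) := htend
  have hiff' : ∀ᶠ p : ℂ × ℂ in 𝓝 (t, z), HH p.1 p.2 = 0 → p.2 = g p.1 := by
    filter_upwards [hiff] with p hp hp0
    have h1 : HH p.1 p.2 = HH (t, z).1 (t, z).2 := by
      rw [hp0]
      exact h0.symm
    exact (hp.mp h1).symm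
  have hzero' : ∀ᶠ s in 𝓝 t, HH s (g s) = 0 := by
    have h1 : ∀ᶠ s in 𝓝 t, HH s (g s) = HH t z := hzero
    filter_upwards [h1] with s hs
    rw [hs, h0]
  refine ⟨g, ?_, hgt, hzero', hiff'⟩
  rw [Complex.analyticAt_iff_eventually_differentiableAt]
  have hpair : Tendsto (fun s : ℂ => (s, g s)) (𝓝 t) (𝓝 (t, z)) :=
    Tendsto.prodMk_nhds tendsto_id htend'
  have hloc : ∀ᶠ s in 𝓝 t, ∀ᶠ p : ℂ × ℂ in 𝓝 (s, g s), HH p.1 p.2 = 0 → p.2 = g p.1 :=
    hpair.eventually hiff'.eventually_nhds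
  have hHz : ∀ᶠ s in 𝓝 t, Hz s (g s) ≠ 0 := by
    have h1 : Tendsto (fun p : ℂ × ℂ => Hz p.1 p.2) (𝓝 (t, z)) (𝓝 (Hz t z)) :=
      GermH1_cont.tendsto (t, z)
    exact (h1.comp hpair).eventually_ne hne
  filter_upwards [hloc, hHz, hzero'] with s hs1 hs2 hs3
  have hFs := HH_strict s (g s)
  have hinvs := GermH1_inv (-(deriv (Hz s) (g s))) (Hz s (g s)) hs2
  have hzs := hFs.eventually_apply_implicitFunctionOfProdDomain hinvs
  have hts := hFs.tendsto_implicitFunctionOfProdDomain hinvs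
  have hds := hFs.hasStrictFDerivAt_implicitFunctionOfProdDomain hinvs
  set f : ℂ → ℂ := hFs.implicitFunctionOfProdDomain hinvs with hf
  have hts' : Tendsto (fun x : ℂ => (x, f x)) (𝓝 s) (𝓝 (s, g s)) :=
    Tendsto.prodMk_nhds tendsto_id hts
  have hzs' : ∀ᶠ x in 𝓝 s, HH x (f x) = HH s (g s) := hzs
  have heq : g =ᶠ[𝓝 s] f := by
    filter_upwards [hts'.eventually hs1, hzs'] with x hx1 hx2
    rw [hs3] at hx2
    exact (hx1 hx2).symm
  have hd : DifferentiableAt ℂ f s := hds.hasFDerivAt.differentiableAt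
  exact hd.congr_of_eventuallyEq heq

theorem germ_unique (g g' : ℂ → ℂ) (t : ℂ) (hg : ContinuousAt g t) (hg' : ContinuousAt g' t)
    (hz : Smp t (g t)) (he : g t = g' t) (h : ∀ᶠ s in 𝓝 t, HH s (g s) = 0)
    (h' : ∀ᶠ s in 𝓝 t, HH s (g' s) = 0) : ∀ᶠ s in 𝓝 t, g s = g' s := by
  obtain ⟨G, -, -, -, hG⟩ := germ_exists t (g t) hz
  have h1 : Tendsto (fun s => (s, g s)) (𝓝 t) (𝓝 (t, g t)) :=
    (continuousAt_id.prodMk hg).tendsto
  have h2 : Tendsto (fun s => (s, g' s)) (𝓝 t) (𝓝 (t, g t)) := by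
    rw [he]
    exact (continuousAt_id.prodMk hg').tendsto
  filter_upwards [h1.eventually hG, h2.eventually hG, h, h'] with s a1 a2 a3 a4
  have b1 : g s = G s := a1 a3
  have b2 : g' s = G s := a2 a4
  rw [b1, b2]

theorem smp_near (g : ℂ → ℂ) (t : ℂ) (hg : ContinuousAt g t) (hz : Smp t (g t))
    (h : ∀ᶠ s in 𝓝 t, HH s (g s) = 0) : ∀ᶠ s in 𝓝 t, Smp s (g s) := by
  have h0 := HH_iter_cont 1
  simp only [iteratedDeriv_one] at h0
  have h1 : ContinuousAt (fun s => (s, g s)) t := continuousAt_id.prodMk hg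
  have h2 : ContinuousAt (fun s => Hz s (g s)) t :=
    ContinuousAt.comp (g := fun p : ℂ × ℂ => deriv (HH p.1) p.2) (f := fun s => (s, g s))
      (x := t) h0.continuousAt h1
  filter_upwards [h2.eventually_ne hz.2, h] with s a1 a2
  exact ⟨a2, a1⟩

/-- every zero near a simple zero lies on the germ -/
theorem germ_local (g : ℂ → ℂ) (t : ℂ) (hg : ContinuousAt g t) (hz : Smp t (g t))
    (h : ∀ᶠ s in 𝓝 t, HH s (g s) = 0) :
    ∀ᶠ p : ℂ × ℂ in 𝓝 (t, g t), HH p.1 p.2 = 0 → p.2 = g p.1 := by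
  obtain ⟨G, hG1, hG2, hG3, hG4⟩ := germ_exists t (g t) hz
  have h1 : ∀ᶠ s in 𝓝 t, g s = G s :=
    germ_unique g G t hg hG1.continuousAt hz hG2.symm h hG3
  have h2 : Tendsto (fun p : ℂ × ℂ => p.1) (𝓝 (t, g t)) (𝓝 t) := continuous_fst.tendsto (t, g t)
  filter_upwards [hG4, h2.eventually h1] with p a1 a2 a3
  rw [a1 a3, a2]

/-- two continuous lifts of the same path which are different at the start stay different -/
theorem lift_ne (X : ℝ) (hX : 0 ≤ X) (c w w' : ℝ → ℂ) (hc : ContinuousOn c (Icc 0 X))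
    (hw : ContinuousOn w (Icc 0 X)) (hw' : ContinuousOn w' (Icc 0 X))
    (hE : ∀ x ∈ Icc 0 X, Smp (c x) (w x)) (hE' : ∀ x ∈ Icc 0 X, HH (c x) (w' x) = 0)
    (h : w 0 ≠ w' 0) : w X ≠ w' X := by
  intro hXX
  have c0 : Continuous ((Icc (0 : ℝ) X).restrict c) := continuousOn_iff_continuous_restrict.mp hc
  have c1 : Continuous ((Icc (0 : ℝ) X).restrict w) := continuousOn_iff_continuous_restrict.mp hw
  have c2 : Continuous ((Icc (0 : ℝ) X).restrict w') := continuousOn_iff_continuous_restrict.mp hw'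
  have hcl : IsClosed {x : Icc (0 : ℝ) X | w x = w' x} := isClosed_eq c1 c2
  have hop : IsOpen {x : Icc (0 : ℝ) X | w x = w' x} := by
    rw [isOpen_iff_mem_nhds]
    intro x hx
    obtain ⟨G, -, -, -, hG⟩ := germ_exists (c x) (w x) (hE x x.2)
    have h1 : Tendsto (fun y : Icc (0 : ℝ) X => (c y, w y)) (𝓝 x) (𝓝 (c x, w x)) :=
      (c0.prodMk c1).tendsto x
    have h2 : Tendsto (fun y : Icc (0 : ℝ) X => (c y, w' y)) (𝓝 x) (𝓝 (c x, w x)) := by
      have hx' : w x = w' x := hx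
      rw [hx']
      exact (c0.prodMk c2).tendsto x
    filter_upwards [h1.eventually hG, h2.eventually hG] with y a1 a2
    have b1 : w y = G (c y) := a1 (hE y y.2).1
    have b2 : w' y = G (c y) := a2 (hE' y y.2)
    change w y = w' y
    rw [b1, b2]
  have : PreconnectedSpace (Icc (0 : ℝ) X) := isPreconnected_iff_preconnectedSpace.mp isPreconnected_Icc
  have huniv := IsClopen.eq_univ ⟨hcl, hop⟩ ⟨(⟨X, hX, le_rfl⟩ : Icc (0 : ℝ) X), hXX⟩
  have h0 : (⟨0, le_rfl, hX⟩ : Icc (0 : ℝ) X) ∈ {x : Icc (0 : ℝ) X | w x = w' x} := by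
    rw [huniv]
    exact mem_univ _
  exact h h0

end Pool.Agent.Lib.MP_ec260d_ntC
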