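import Mathlib
import Pool.Agent.Lib.MP_ec260d_ntC.Defs
import Pool.Agent.Lib.MP_ec260d_ntC.GermH

/-!
# JOB LiftD: the maximal lift of a family of parallel paths (about 300 lines)

The complete Lean proof of the analogous theorem for the inverse of zeta is `Pool/Agent/Lib/MP_ec260d_ntA/LiftDom.lean` (and `LiftHol.lean`): adapt it.  Here `τ ξ = s0 + b ξ` replaces `ζ (z0 + ξ)`, the condition `G ξ ∈ EE ∧ ζ (G ξ) = ζ (z0 + ξ)` is replaced by `Smp (τ ξ) (G ξ)`, and the local inverse of zeta is replaced by the germ of `germ_exists`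
(with its local uniqueness: if `HH s w = 0` and `(s, w)` is near `(t, z)` then `w = g s`).
Proof.  `J = Ioo y0 y1`.  For `y ∈ J`, `X ≥ 0` a lift on `[0, X]` at `y` is `γ`, `ContinuousOn γ (Icc 0 X)`, `γ 0 = w0 y`, `Smp (τ (x + i y)) (γ x)` for `x ∈ [0, X]`.  Two lifts on `[0, X]` at the same `y` agree (`lift_ne` on every `[0, x]` contrapositive, or connectedness).  `Om = {x + i y : y ∈ J, x ≥ 0, there is a lift on [0, x] at y}`, `G (x + i y) = γ x`.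
LOCAL CLAIM: if `t1 + i y1 ∈ Om` there is `δ > 0` such that `R_δ = {x + i y : 0 ≤ x < t1 + δ, |y - y1| < δ}` is contained in `Om` and `G` is continuous on it: the set `T` of `t ∈ [0, t1]` for which this holds with `t` instead of `t1` contains `0` (germ at `(τ (i y1), w0 y1)`, composed with `τ`; its value at `x = 0` is `w0 y` by the local uniqueness), is relatively open, and is closed: at a limit point `t`
take the germ `g` at `(τ (t + i y1), γ t)`, defined near; for `t' < t` close, `G (t' + i y) ` for `y` near `y1` is near `γ t'`, which is near `γ t`, so it equals `g (τ (t' + i y))`, and gluing with `g (τ (x + i y))` for `x ≥ t'` extends the lifts to `[0, t + η)`.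
`max`: if `G (x + i y) → w` with `Smp (τ (X + i y)) w`, extend the lift by the value `w` at `X`.
`lift_hol`: near `ξ ∈ Om` with `Re ξ > 0`, `Om` is a neighbourhood of `ξ`, `G` is continuous there and `G η = g (τ η)` for `η` near `ξ` (`g` the germ at `(τ ξ, G ξ)`, local uniqueness).
-/

namespace Pool.Agent.Lib.MP_ec260d_ntC

open Complex Set Filter Topology Metric MeasureTheory

/-- `G` is the maximal lift to `Om` (a subset of a half strip, star-shaped to the left) of the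
family of paths `x ↦ s0 + b (x + i y)` -/
structure LD (s0 b : ℂ) (y0 y1 : ℝ) (Om : Set ℂ) (G : ℂ → ℂ) : Prop where
  sub : ∀ ξ ∈ Om, 0 ≤ ξ.re ∧ ξ.im ∈ Ioo y0 y1
  opn : ∀ ξ ∈ Om, ∃ ε : ℝ, 0 < ε ∧ ∀ η : ℂ, ‖η - ξ‖ < ε → 0 ≤ η.re → η ∈ Om
  st : ∀ y ∈ Ioo y0 y1, ((y : ℂ) * I) ∈ Om
  star : ∀ ξ ∈ Om, ∀ x : ℝ, 0 ≤ x → x ≤ ξ.re → ((x : ℂ) + ξ.im * I) ∈ Om
  val : ∀ ξ ∈ Om, Smp (s0 + b * ξ) (G ξ)
  cont : ContinuousOn G Om
  max : ∀ y ∈ Ioo y0 y1, ∀ X : ℝ, 0 < X → (∀ x : ℝ, 0 ≤ x → x < X → ((x : ℂ) + y * I) ∈ Om) →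
    ∀ w : ℂ, Smp (s0 + b * ((X : ℂ) + y * I)) w →
      Tendsto (fun x : ℝ => G ((x : ℂ) + y * I)) (𝓝[<] X) (𝓝 w) → ((X : ℂ) + y * I) ∈ Om

/-- a lift of the path at height `y` on `[0, X]` -/
private def LiftD_L (s0 b : ℂ) (w0 : ℝ → ℂ) (y X : ℝ) (γ : ℝ → ℂ) : Prop :=
  ContinuousOn γ (Icc 0 X) ∧ γ 0 = w0 y ∧
    ∀ x ∈ Icc 0 X, Smp (s0 + b * ((x : ℂ) + y * I)) (γ x)

private theorem LiftD_mono {s0 b : ℂ} {w0 : ℝ → ℂ} {y X x : ℝ} {γ : ℝ → ℂ}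
    (h : LiftD_L s0 b w0 y X γ) (hx : x ≤ X) : LiftD_L s0 b w0 y x γ :=
  ⟨h.1.mono (Icc_subset_Icc_right hx), h.2.1, fun t ht => h.2.2 t ⟨ht.1, ht.2.trans hx⟩⟩

private theorem LiftD_uniq {s0 b : ℂ} {w0 : ℝ → ℂ} {y X : ℝ} {γ γ' : ℝ → ℂ} (hX : 0 ≤ X)
    (h : LiftD_L s0 b w0 y X γ) (h' : LiftD_L s0 b w0 y X γ') : γ X = γ' X := by
  by_contra hne
  have hm : MapsTo (fun x : ℝ => X - x) (Icc 0 X) (Icc 0 X) := fun x hx =>
    ⟨by linarith [hx.2], by linarith [hx.1]⟩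
  have hc : ContinuousOn (fun x : ℝ => X - x) (Icc 0 X) := by fun_prop
  have h1 := lift_ne X hX (fun x => s0 + b * (((X - x : ℝ) : ℂ) + y * I))
    (fun x => γ (X - x)) (fun x => γ' (X - x)) (by fun_prop) (h.1.comp hc hm)
    (h'.1.comp hc hm) (fun x hx => h.2.2 _ (hm hx))
    (fun x hx => (h'.2.2 _ (hm hx)).1)
    (by simpa using hne)
  apply h1
  show γ (X - X) = γ' (X - X)
  rw [sub_self, h.2.1, h'.2.1]

private theorem LiftD_inv (t w : ℂ) (hw : Smp t w) : ∃ (g : ℂ → ℂ) (r : ℝ), 0 < r ∧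
    ContinuousOn g (ball t r) ∧ (∀ s ∈ ball t r, Smp s (g s)) ∧
    ∀ᶠ p : ℂ × ℂ in 𝓝 (t, w), HH p.1 p.2 = 0 → p.2 = g p.1 := by
  obtain ⟨g, hg, hg1, hg2, hg3⟩ := germ_exists t w hw
  have h1 : ∀ᶠ s in 𝓝 t, AnalyticAt ℂ g s := hg.eventually_analyticAt
  have h2 : ∀ᶠ s in 𝓝 t, Smp s (g s) := smp_near g t hg.continuousAt (by rw [hg1]; exact hw) hg2
  obtain ⟨r, hr, hb⟩ := Metric.eventually_nhds_iff_ball.1 (h1.and h2)
  exact ⟨g, r, hr, fun s hs => (hb s hs).1.continuousAt.continuousWithinAt,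
    fun s hs => (hb s hs).2, hg3⟩

/-- a jointly continuous lift near `[0, t]` -/
private def LiftD_S (s0 b : ℂ) (w0 : ℝ → ℂ) (y1 t : ℝ) : Prop :=
  ∃ δ : ℝ, 0 < δ ∧ ∃ F : ℂ → ℂ,
    ContinuousOn F {ξ : ℂ | 0 ≤ ξ.re ∧ ξ.re < t + δ ∧ |ξ.im - y1| < δ} ∧
    (∀ ξ : ℂ, 0 ≤ ξ.re → ξ.re < t + δ → |ξ.im - y1| < δ → Smp (s0 + b * ξ) (F ξ)) ∧
    ∀ y : ℝ, |y - y1| < δ → F (y * I) = w0 y

private theorem LiftD_re (x y : ℝ) : ((x : ℂ) + y * I).re = x := by simp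

private theorem LiftD_im (x y : ℝ) : ((x : ℂ) + y * I).im = y := by simp

private theorem LiftD_path {s0 b : ℂ} {w0 : ℝ → ℂ} {y1 t δ : ℝ} {F : ℂ → ℂ}
    (h1 : ContinuousOn F {ξ : ℂ | 0 ≤ ξ.re ∧ ξ.re < t + δ ∧ |ξ.im - y1| < δ})
    (h2 : ∀ ξ : ℂ, 0 ≤ ξ.re → ξ.re < t + δ → |ξ.im - y1| < δ → Smp (s0 + b * ξ) (F ξ))
    (h3 : ∀ y : ℝ, |y - y1| < δ → F (y * I) = w0 y) {y x : ℝ} (hy : |y - y1| < δ)
    (hx : x < t + δ) : LiftD_L s0 b w0 y x (fun s => F ((s : ℂ) + y * I)) := by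
  refine ⟨?_, ?_, fun s hs => ?_⟩
  · refine h1.comp (by fun_prop) fun s hs => ?_
    refine ⟨?_, ?_, ?_⟩
    · rw [LiftD_re]; exact hs.1
    · rw [LiftD_re]; exact hs.2.trans_lt hx
    · rw [LiftD_im]; exact hy
  · show F (((0 : ℝ) : ℂ) + y * I) = w0 y
    rw [Complex.ofReal_zero, zero_add]
    exact h3 y hy
  · apply h2
    · rw [LiftD_re]; exact hs.1
    · rw [LiftD_re]; exact hs.2.trans_lt hx
    · rw [LiftD_im]; exact hy

private theorem LiftD_norm {ξ : ℂ} {x y η : ℝ} (h1 : |ξ.re - x| < η / 2)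
    (h2 : |ξ.im - y| < η / 2) : ‖ξ - ((x : ℂ) + y * I)‖ < η := by
  have h3 := Complex.norm_le_abs_re_add_abs_im (ξ - ((x : ℂ) + y * I))
  rw [Complex.sub_re, Complex.sub_im, LiftD_re, LiftD_im] at h3
  linarith

private theorem LiftD_tau (s0 b : ℂ) : Continuous (fun ξ : ℂ => s0 + b * ξ) := by fun_prop

private theorem LiftD_base {s0 b : ℂ} {y0 y1 : ℝ}
    {w0 : ℝ → ℂ} (hw : ContinuousOn w0 (Ioo y0 y1))
    (hE : ∀ y ∈ Ioo y0 y1, Smp (s0 + b * (y * I)) (w0 y))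
    {u : ℝ} (hu : u ∈ Ioo y0 y1) : LiftD_S s0 b w0 u 0 := by
  obtain ⟨h, r, hr, hc, hb, hv⟩ := LiftD_inv _ _ (hE u hu)
  have hJ : Ioo y0 y1 ∈ 𝓝 u := isOpen_Ioo.mem_nhds hu
  have hcw : ContinuousAt w0 u := hw.continuousAt hJ
  have hct : ContinuousAt (fun y : ℝ => s0 + b * ((y : ℂ) * I)) u := by fun_prop
  have hcp : ContinuousAt (fun y : ℝ => ((s0 + b * ((y : ℂ) * I), w0 y) : ℂ × ℂ)) u :=
    hct.prodMk hcw
  have e1 : ∀ᶠ y : ℝ in 𝓝 u, HH (s0 + b * ((y : ℂ) * I)) (w0 y) = 0 →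
      w0 y = h (s0 + b * ((y : ℂ) * I)) := hcp.eventually hv
  obtain ⟨a, ha, ha'⟩ := Metric.eventually_nhds_iff.1 (e1.and hJ)
  have hτ : ContinuousAt (fun ξ : ℂ => s0 + b * ξ) (((0 : ℝ) : ℂ) + u * I) :=
    (LiftD_tau s0 b).continuousAt
  have e2 : ∀ᶠ ξ in 𝓝 (((0 : ℝ) : ℂ) + u * I), s0 + b * ξ ∈ ball (s0 + b * (u * I)) r := by
    apply hτ.eventually_mem
    apply isOpen_ball.mem_nhds
    rw [Complex.ofReal_zero, zero_add]
    exact mem_ball_self hr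
  obtain ⟨d, hd0, hd'⟩ := Metric.eventually_nhds_iff.1 e2
  refine ⟨min a (d / 2), lt_min ha (half_pos hd0), fun ξ => h (s0 + b * ξ), ?_, ?_, ?_⟩
  · intro ξ hξ
    have hn : ‖ξ - (((0 : ℝ) : ℂ) + u * I)‖ < d := by
      apply LiftD_norm
      · rw [sub_zero, abs_of_nonneg hξ.1]
        have := hξ.2.1
        rw [zero_add] at this
        exact this.trans_le (min_le_right _ _)
      · exact hξ.2.2.trans_le (min_le_right _ _)
    have hin := hd' (by rwa [dist_eq_norm])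
    have hc1 : ContinuousAt h (s0 + b * ξ) := hc.continuousAt (isOpen_ball.mem_nhds hin)
    exact (ContinuousAt.comp (f := fun η : ℂ => s0 + b * η) hc1
      (LiftD_tau s0 b).continuousAt).continuousWithinAt
  · intro ξ h1 h2 h3
    have hn : ‖ξ - (((0 : ℝ) : ℂ) + u * I)‖ < d := by
      apply LiftD_norm
      · rw [sub_zero, abs_of_nonneg h1]
        rw [zero_add] at h2
        exact h2.trans_le (min_le_right _ _)
      · exact h3.trans_le (min_le_right _ _)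
    exact hb _ (hd' (by rwa [dist_eq_norm]))
  · intro y h1
    have h2 := ha' (y := y) (by
      rw [Real.dist_eq]
      exact h1.trans_le (min_le_left _ _))
    show h (s0 + b * (y * I)) = w0 y
    exact (h2.1 (hE y h2.2).1).symm

private theorem LiftD_step {s0 b : ℂ}
    {w0 : ℝ → ℂ} {u : ℝ} {t : ℝ} (ht : 0 ≤ t) {γ : ℝ → ℂ}
    (hγ : LiftD_L s0 b w0 u t γ) :
    ∃ η : ℝ, 0 < η ∧ ∀ t' : ℝ, 0 ≤ t' → t' ≤ t → t - t' < η → LiftD_S s0 b w0 u t' →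
      LiftD_S s0 b w0 u t := by
  have htt : t ∈ Icc 0 t := ⟨ht, le_rfl⟩
  obtain ⟨h, r, hr, hc, hb, hv⟩ := LiftD_inv _ _ (hγ.2.2 t htt)
  have hτ : ContinuousAt (fun ξ : ℂ => s0 + b * ξ) ((t : ℂ) + u * I) :=
    (LiftD_tau s0 b).continuousAt
  have e2 : ∀ᶠ ξ in 𝓝 ((t : ℂ) + u * I),
      s0 + b * ξ ∈ ball (s0 + b * ((t : ℂ) + u * I)) r := by
    apply hτ.eventually_mem
    apply isOpen_ball.mem_nhds
    exact mem_ball_self hr
  obtain ⟨d, hd0, hd'⟩ := Metric.eventually_nhds_iff.1 e2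
  have hcx : ContinuousWithinAt (fun x : ℝ => s0 + b * ((x : ℂ) + u * I)) (Icc 0 t) t := by
    fun_prop
  have hcp : ContinuousWithinAt (fun x : ℝ => ((s0 + b * ((x : ℂ) + u * I), γ x) : ℂ × ℂ))
      (Icc 0 t) t := hcx.prodMk (hγ.1 t htt)
  have e3 : ∀ᶠ x : ℝ in 𝓝[Icc 0 t] t, ∀ᶠ p : ℂ × ℂ in 𝓝 (s0 + b * ((x : ℂ) + u * I), γ x),
      HH p.1 p.2 = 0 → p.2 = h p.1 :=
    hcp.eventually (eventually_eventually_nhds.2 hv)
  obtain ⟨a, ha0, ha'⟩ := Metric.eventually_nhds_iff.1 (eventually_nhdsWithin_iff.1 e3)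
  refine ⟨min a (d / 2), lt_min ha0 (half_pos hd0), fun t' h0 h1 h2 hS => ?_⟩
  obtain ⟨δ', hδ', F', k1, k2, k3⟩ := hS
  have hF : F' ((t' : ℂ) + u * I) = γ t' := by
    have l1 := LiftD_path k1 k2 k3 (y := u) (x := t') (by rw [sub_self, abs_zero]; exact hδ')
      (by linarith)
    exact LiftD_uniq h0 l1 (LiftD_mono hγ h1)
  have hva : ∀ᶠ p : ℂ × ℂ in 𝓝 (s0 + b * ((t' : ℂ) + u * I), γ t'),
      HH p.1 p.2 = 0 → p.2 = h p.1 := ha' (y := t') (by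
    rw [Real.dist_eq, abs_sub_comm, abs_of_nonneg (by linarith)]
    exact h2.trans_le (min_le_left _ _)) ⟨h0, h1⟩
  -- the values on the vertical segment over `t'`
  have hcv : ContinuousOn (fun y : ℝ => F' ((t' : ℂ) + y * I)) {y : ℝ | |y - u| < δ'} := by
    refine k1.comp (by fun_prop) fun y hyy => ⟨?_, ?_, ?_⟩
    · rw [LiftD_re]; exact h0
    · rw [LiftD_re]; linarith
    · rw [LiftD_im]; exact hyy
  have hopen : {y : ℝ | |y - u| < δ'} ∈ 𝓝 u := by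
    have : {y : ℝ | |y - u| < δ'} = ball u δ' := by
      ext y
      rw [mem_ball, Real.dist_eq]
      rfl
    rw [this]
    exact ball_mem_nhds u hδ'
  have hcu : ContinuousAt (fun y : ℝ => F' ((t' : ℂ) + y * I)) u := hcv.continuousAt hopen
  have hcs : ContinuousAt (fun y : ℝ => s0 + b * ((t' : ℂ) + y * I)) u := by fun_prop
  have hcq : ContinuousAt (fun y : ℝ =>
      ((s0 + b * ((t' : ℂ) + y * I), F' ((t' : ℂ) + y * I)) : ℂ × ℂ)) u := hcs.prodMk hcu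
  have e4 : ∀ᶠ y : ℝ in 𝓝 u, HH (s0 + b * ((t' : ℂ) + y * I)) (F' ((t' : ℂ) + y * I)) = 0 →
      F' ((t' : ℂ) + y * I) = h (s0 + b * ((t' : ℂ) + y * I)) := by
    have hq : ∀ᶠ p : ℂ × ℂ in 𝓝 (s0 + b * ((t' : ℂ) + u * I), F' ((t' : ℂ) + u * I)),
        HH p.1 p.2 = 0 → p.2 = h p.1 := by
      rw [hF]
      exact hva
    exact hcq.eventually (p := fun p : ℂ × ℂ => HH p.1 p.2 = 0 → p.2 = h p.1) hq
  obtain ⟨c, hc0, hc'⟩ := Metric.eventually_nhds_iff.1 e4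
  obtain ⟨δ, hδ⟩ : ∃ δ, δ = min (min δ' c) (d / 2) := ⟨_, rfl⟩
  have hδ0 : 0 < δ := by
    rw [hδ]
    exact lt_min (lt_min hδ' hc0) (half_pos hd0)
  have hδ1 : δ ≤ δ' := by rw [hδ]; exact (min_le_left _ _).trans (min_le_left _ _)
  have hδ2 : δ ≤ c := by rw [hδ]; exact (min_le_left _ _).trans (min_le_right _ _)
  have hδ3 : δ ≤ d / 2 := by rw [hδ]; exact min_le_right _ _
  have hR : ∀ ξ : ℂ, t' ≤ ξ.re → ξ.re < t + δ → |ξ.im - u| < δ →
      s0 + b * ξ ∈ ball (s0 + b * ((t : ℂ) + u * I)) r := by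
    intro ξ g1 g2 g3
    apply hd'
    rw [dist_eq_norm]
    apply LiftD_norm
    · rw [abs_lt]
      have := h2.trans_le (min_le_right _ _)
      constructor <;> linarith
    · exact g3.trans_le hδ3
  classical
  refine ⟨δ, hδ0, fun ξ => if ξ.re ≤ t' then F' ξ else h (s0 + b * ξ), ?_, ?_, ?_⟩
  · refine ContinuousOn.if ?_ ?_ ?_
    · rintro ξ ⟨⟨g1, g2, g3⟩, g4⟩
      have g5 : ξ.re = t' := frontier_le_subset_eq Complex.continuous_re continuous_const g4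
      have g6 : ((t' : ℂ) + ξ.im * I) = ξ := by
        rw [← g5]
        exact Complex.re_add_im ξ
      have g7 := hc' (y := ξ.im) (by rw [Real.dist_eq]; exact g3.trans_le hδ2)
      rw [g6] at g7
      exact g7 (k2 ξ g1 (by linarith) (g3.trans_le hδ1)).1
    · refine k1.mono ?_
      rintro ξ ⟨⟨g1, g2, g3⟩, g4⟩
      have g5 : ξ.re ≤ t' := by
        rw [closure_le_eq Complex.continuous_re continuous_const] at g4
        exact g4
      exact ⟨g1, by linarith, g3.trans_le hδ1⟩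
    · rintro ξ ⟨⟨g1, g2, g3⟩, g4⟩
      have g5 : t' ≤ ξ.re := by
        simp only [not_le] at g4
        exact closure_lt_subset_le continuous_const Complex.continuous_re g4
      have hin := hR ξ g5 g2 g3
      have hc1 : ContinuousAt h (s0 + b * ξ) := hc.continuousAt (isOpen_ball.mem_nhds hin)
      exact (ContinuousAt.comp (f := fun η : ℂ => s0 + b * η) hc1
        (LiftD_tau s0 b).continuousAt).continuousWithinAt
  · intro ξ g1 g2 g3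
    show Smp (s0 + b * ξ) (if ξ.re ≤ t' then F' ξ else h (s0 + b * ξ))
    by_cases g4 : ξ.re ≤ t'
    · simp only [if_pos g4]
      exact k2 ξ g1 (by linarith) (g3.trans_le hδ1)
    · simp only [if_neg g4]
      exact hb _ (hR ξ (not_le.1 g4).le g2 g3)
  · intro y g1
    have g2 : ((y : ℂ) * I).re ≤ t' := by simpa using h0
    show (if ((y : ℂ) * I).re ≤ t' then F' (y * I) else h (s0 + b * (y * I))) = w0 y
    rw [if_pos g2]
    exact k3 y (g1.trans_le hδ1)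

private theorem LiftD_all {s0 b : ℂ} {y0 y1 : ℝ}
    {w0 : ℝ → ℂ} (hw : ContinuousOn w0 (Ioo y0 y1))
    (hE : ∀ y ∈ Ioo y0 y1, Smp (s0 + b * (y * I)) (w0 y))
    {u : ℝ} (hu : u ∈ Ioo y0 y1) {X : ℝ} (hX : 0 ≤ X) {γ : ℝ → ℂ}
    (hγ : LiftD_L s0 b w0 u X γ) : LiftD_S s0 b w0 u X := by
  obtain ⟨s, hs⟩ : ∃ s : Set ℝ, s = {t | t ∈ Icc 0 X ∧ LiftD_S s0 b w0 u t} := ⟨_, rfl⟩
  have h0 : (0 : ℝ) ∈ s := by
    rw [hs]
    exact ⟨⟨le_rfl, hX⟩, LiftD_base hw hE hu⟩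
  have hbd : BddAbove s := ⟨X, fun t ht => by
    rw [hs] at ht
    exact ht.1.2⟩
  have hτ1 : sSup s ≤ X := csSup_le ⟨0, h0⟩ fun t ht => by
    rw [hs] at ht
    exact ht.1.2
  have hτ0 : 0 ≤ sSup s := le_csSup hbd h0
  obtain ⟨η, hη, hstep⟩ := LiftD_step hτ0 (LiftD_mono hγ hτ1)
  obtain ⟨t', ht', ht''⟩ := exists_lt_of_lt_csSup ⟨0, h0⟩ (show sSup s - η < sSup s by linarith)
  have ht3 : t' ≤ sSup s := le_csSup hbd ht'
  have ht4 : t' ∈ Icc 0 X ∧ LiftD_S s0 b w0 u t' := by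
    rw [hs] at ht'
    exact ht'
  have hS := hstep t' ht4.1.1 ht3 (by linarith) ht4.2
  rcases hτ1.lt_or_eq with h | h
  · exfalso
    obtain ⟨δ, hδ, F, k1, k2, k3⟩ := hS
    obtain ⟨v, hv⟩ : ∃ v, v = min (sSup s + δ / 2) X := ⟨_, rfl⟩
    have hv1 : v ≤ sSup s + δ / 2 := by rw [hv]; exact min_le_left _ _
    have hv2 : v ≤ X := by rw [hv]; exact min_le_right _ _
    have hv3 : sSup s < v := by rw [hv]; exact lt_min (by linarith) h
    have hvs : v ∈ s := by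
      rw [hs]
      refine ⟨⟨by linarith, hv2⟩, δ / 2, half_pos hδ, F, k1.mono ?_, ?_, ?_⟩
      · rintro ξ ⟨g1, g2, g3⟩
        exact ⟨g1, by linarith, by linarith⟩
      · intro ξ g1 g2 g3
        exact k2 ξ g1 (by linarith) (by linarith)
      · intro y g1
        exact k3 y (by linarith)
    linarith [le_csSup hbd hvs]
  · rw [← h]
    exact hS

theorem lift_dom (s0 b : ℂ) (y0 y1 : ℝ) (w0 : ℝ → ℂ) (hw : ContinuousOn w0 (Ioo y0 y1))
    (hE : ∀ y ∈ Ioo y0 y1, Smp (s0 + b * (y * I)) (w0 y)) :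
    ∃ (Om : Set ℂ) (G : ℂ → ℂ), LD s0 b y0 y1 Om G ∧ ∀ y ∈ Ioo y0 y1, G ((y : ℂ) * I) = w0 y := by
  classical
  obtain ⟨G, hG⟩ : ∃ G : ℂ → ℂ, ∀ (y X : ℝ) (γ : ℝ → ℂ), 0 ≤ X → LiftD_L s0 b w0 y X γ →
      G ((X : ℂ) + y * I) = γ X := by
    refine ⟨fun ξ => if h : ∃ γ, LiftD_L s0 b w0 ξ.im ξ.re γ then h.choose ξ.re else 0,
      fun y X γ hX hγ => ?_⟩
    have hex : ∃ γ, LiftD_L s0 b w0 ((X : ℂ) + y * I).im ((X : ℂ) + y * I).re γ := by
      rw [LiftD_im, LiftD_re]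
      exact ⟨γ, hγ⟩
    show (if h : ∃ γ, LiftD_L s0 b w0 ((X : ℂ) + y * I).im ((X : ℂ) + y * I).re γ
      then h.choose ((X : ℂ) + y * I).re else 0) = γ X
    rw [dif_pos hex]
    have h1 := hex.choose_spec
    have h2 : LiftD_L s0 b w0 ((X : ℂ) + y * I).im ((X : ℂ) + y * I).re γ := by
      rw [LiftD_im, LiftD_re]
      exact hγ
    have h3 := LiftD_uniq (by rw [LiftD_re]; exact hX) h1 h2
    rw [h3, LiftD_re]
  obtain ⟨Om, hOm⟩ : ∃ Om : Set ℂ, Om = {ξ | ξ.im ∈ Ioo y0 y1 ∧ 0 ≤ ξ.re ∧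
      ∃ γ, LiftD_L s0 b w0 ξ.im ξ.re γ} := ⟨_, rfl⟩
  have hmem : ∀ ξ : ℂ, ξ ∈ Om ↔ ξ.im ∈ Ioo y0 y1 ∧ 0 ≤ ξ.re ∧
      ∃ γ, LiftD_L s0 b w0 ξ.im ξ.re γ := by
    intro ξ
    rw [hOm]
    rfl
  have hmem' : ∀ x y : ℝ, ((x : ℂ) + y * I) ∈ Om ↔
      y ∈ Ioo y0 y1 ∧ 0 ≤ x ∧ ∃ γ, LiftD_L s0 b w0 y x γ := by
    intro x y
    rw [hmem, LiftD_im, LiftD_re]
  -- the local description
  have hloc : ∀ ξ ∈ Om, ∃ (δ : ℝ) (F : ℂ → ℂ), 0 < δ ∧
      ContinuousOn F {η : ℂ | 0 ≤ η.re ∧ η.re < ξ.re + δ ∧ |η.im - ξ.im| < δ} ∧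
      ∀ η : ℂ, 0 ≤ η.re → η.re < ξ.re + δ → |η.im - ξ.im| < δ → η ∈ Om ∧ G η = F η := by
    intro ξ hξ
    obtain ⟨hu, hX, γ, hγ⟩ := (hmem ξ).1 hξ
    obtain ⟨δ, hδ, F, k1, k2, k3⟩ := LiftD_all hw hE hu hX hγ
    obtain ⟨j, hj0, hj'⟩ := Metric.eventually_nhds_iff.1
      (isOpen_Ioo.mem_nhds hu : ∀ᶠ y in 𝓝 ξ.im, y ∈ Ioo y0 y1)
    refine ⟨min δ j, F, lt_min hδ hj0, k1.mono ?_, ?_⟩
    · rintro η ⟨g1, g2, g3⟩
      exact ⟨g1, g2.trans_le (by linarith [min_le_left δ j]), g3.trans_le (min_le_left _ _)⟩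
    · intro η g1 g2 g3
      have g4 : |η.im - ξ.im| < δ := g3.trans_le (min_le_left _ _)
      have g5 : η.re < ξ.re + δ := g2.trans_le (by linarith [min_le_left δ j])
      have l1 := LiftD_path k1 k2 k3 g4 g5
      refine ⟨(hmem η).2 ⟨hj' (by rw [Real.dist_eq]; exact g3.trans_le (min_le_right _ _)), g1,
        _, l1⟩, ?_⟩
      have h5 := hG η.im η.re _ g1 l1
      rw [Complex.re_add_im] at h5
      exact h5
  have hcont : ContinuousOn G Om := by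
    intro ξ hξ
    obtain ⟨δ, F, hδ, k1, k2⟩ := hloc ξ hξ
    have h0 := ((hmem ξ).1 hξ).2.1
    have hR : ξ ∈ {η : ℂ | 0 ≤ η.re ∧ η.re < ξ.re + δ ∧ |η.im - ξ.im| < δ} :=
      ⟨h0, by linarith, by rw [sub_self, abs_zero]; exact hδ⟩
    have hc1 : ContinuousWithinAt G {η : ℂ | 0 ≤ η.re ∧ η.re < ξ.re + δ ∧ |η.im - ξ.im| < δ} ξ :=
      (k1 ξ hR).congr (fun η hη => (k2 η hη.1 hη.2.1 hη.2.2).2) (k2 ξ hR.1 hR.2.1 hR.2.2).2
    refine hc1.mono_of_mem_nhdsWithin ?_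
    rw [mem_nhdsWithin]
    refine ⟨{η : ℂ | η.re < ξ.re + δ} ∩ {η : ℂ | |η.im - ξ.im| < δ}, ?_, ⟨hR.2.1, hR.2.2⟩, ?_⟩
    · exact (isOpen_lt Complex.continuous_re continuous_const).inter
        (isOpen_lt (by fun_prop) continuous_const)
    · rintro η ⟨⟨g1, g2⟩, g3⟩
      exact ⟨((hmem η).1 g3).2.1, g1, g2⟩
  have hw0 : ∀ y ∈ Ioo y0 y1, LiftD_L s0 b w0 y 0 (fun _ => w0 y) := by
    intro y hyy
    refine ⟨continuousOn_const, rfl, fun x hx => ?_⟩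
    have hx0 : x = 0 := le_antisymm hx.2 hx.1
    rw [hx0, Complex.ofReal_zero, zero_add]
    exact hE y hyy
  have hG0 : ∀ y ∈ Ioo y0 y1, G ((y : ℂ) * I) = w0 y := by
    intro y hyy
    have h5 := hG y 0 _ le_rfl (hw0 y hyy)
    rw [Complex.ofReal_zero, zero_add] at h5
    exact h5
  have hval : ∀ ξ ∈ Om, Smp (s0 + b * ξ) (G ξ) := by
    intro ξ hξ
    obtain ⟨hu, hX, γ, hγ⟩ := (hmem ξ).1 hξ
    have h5 := hG ξ.im ξ.re γ hX hγ
    have h6 := hγ.2.2 ξ.re ⟨hX, le_rfl⟩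
    rw [Complex.re_add_im] at h5 h6
    rw [h5]
    exact h6
  refine ⟨Om, G, ⟨?_, ?_, ?_, ?_, hval, hcont, ?_⟩, hG0⟩
  · intro ξ hξ
    exact ⟨((hmem ξ).1 hξ).2.1, ((hmem ξ).1 hξ).1⟩
  · intro ξ hξ
    obtain ⟨δ, F, hδ, k1, k2⟩ := hloc ξ hξ
    refine ⟨δ, hδ, fun η h1 h2 => (k2 η h2 ?_ ?_).1⟩
    · have h3 := (Complex.abs_re_le_norm (η - ξ)).trans_lt h1
      rw [Complex.sub_re] at h3
      linarith [(abs_lt.1 h3).2]
    · have h3 := (Complex.abs_im_le_norm (η - ξ)).trans_lt h1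
      rw [Complex.sub_im] at h3
      exact h3
  · intro y hyy
    have h5 := (hmem' 0 y).2 ⟨hyy, le_rfl, _, hw0 y hyy⟩
    rw [Complex.ofReal_zero, zero_add] at h5
    exact h5
  · intro ξ hξ x h1 h2
    obtain ⟨hu, hX, γ, hγ⟩ := (hmem ξ).1 hξ
    exact (hmem' x ξ.im).2 ⟨hu, h1, γ, LiftD_mono hγ h2⟩
  · intro y hyy X hX hx w hw' hlim
    have hpath : ContinuousOn (fun x : ℝ => G ((x : ℂ) + y * I)) (Ico 0 X) := by
      refine hcont.comp (by fun_prop) fun x hxx => hx x hxx.1 hxx.2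
    refine (hmem' X y).2 ⟨hyy, hX.le, fun x => if x < X then G ((x : ℂ) + y * I) else w, ?_, ?_, ?_⟩
    · intro x hxx
      rcases hxx.2.lt_or_eq with hlt | heq
      · have h1 : ContinuousWithinAt (fun x : ℝ => G ((x : ℂ) + y * I)) (Icc 0 X) x := by
          refine (hpath x ⟨hxx.1, hlt⟩).mono_of_mem_nhdsWithin ?_
          rw [mem_nhdsWithin]
          exact ⟨Iio X, isOpen_Iio, hlt, fun z hz => ⟨hz.2.1, hz.1⟩⟩
        refine h1.congr_of_eventuallyEq ?_ ?_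
        · have h2 : ∀ᶠ z in 𝓝[Icc 0 X] x, z ∈ Iio X :=
            mem_nhdsWithin_of_mem_nhds (isOpen_Iio.mem_nhds hlt)
          filter_upwards [h2] with z hz
          exact if_pos hz
        · exact if_pos hlt
      · subst heq
        have h1 : ContinuousWithinAt (fun z : ℝ => if z < x then G ((z : ℂ) + y * I) else w)
            (Iio x) x := by
          show Tendsto _ _ (𝓝 (if x < x then _ else w))
          rw [if_neg (lt_irrefl x)]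
          refine hlim.congr' ?_
          filter_upwards [self_mem_nhdsWithin] with z hz
          exact (if_pos hz).symm
        have h2 : ContinuousWithinAt (fun z : ℝ => if z < x then G ((z : ℂ) + y * I) else w)
            (Iic x) x := by
          rw [← Iio_insert]
          exact continuousWithinAt_insert_self.2 h1
        exact h2.mono fun z hz => hz.2
    · show (if (0 : ℝ) < X then G (((0 : ℝ) : ℂ) + y * I) else w) = w0 y
      rw [if_pos hX, Complex.ofReal_zero, zero_add]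
      exact hG0 y hyy
    · intro x hxx
      show Smp (s0 + b * ((x : ℂ) + y * I)) (if x < X then G ((x : ℂ) + y * I) else w)
      rcases hxx.2.lt_or_eq with hlt | heq
      · rw [if_pos hlt]
        exact hval _ (hx x hxx.1 hlt)
      · subst heq
        rw [if_neg (lt_irrefl x)]
        exact hw'

theorem lift_hol {s0 b : ℂ} {y0 y1 : ℝ} {Om : Set ℂ} {G : ℂ → ℂ} (h : LD s0 b y0 y1 Om G) (ξ : ℂ)
    (hξ : ξ ∈ Om) (hr : 0 < ξ.re) : DifferentiableAt ℂ G ξ := by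
  obtain ⟨ε, hε, hO⟩ := h.opn ξ hξ
  have hOm : Om ∈ 𝓝 ξ := by
    rw [Metric.mem_nhds_iff]
    refine ⟨min ε ξ.re, lt_min hε hr, fun η hη => ?_⟩
    rw [Metric.mem_ball, dist_eq_norm] at hη
    have h1 : ‖η - ξ‖ < ε := lt_of_lt_of_le hη (min_le_left _ _)
    have h2 : ‖η - ξ‖ < ξ.re := lt_of_lt_of_le hη (min_le_right _ _)
    have h3 : |(η - ξ).re| ≤ ‖η - ξ‖ := Complex.abs_re_le_norm _
    have h4 : -‖η - ξ‖ ≤ (η - ξ).re := (abs_le.mp h3).1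
    rw [Complex.sub_re] at h4
    exact hO η h1 (by linarith)
  have hGc : ContinuousAt G ξ := h.cont.continuousAt hOm
  have hv := h.val ξ hξ
  obtain ⟨g, hg1, -, -, hg4⟩ := germ_exists _ _ hv
  have hτ : ContinuousAt (fun η : ℂ => s0 + b * η) ξ := by fun_prop
  have hcp : ContinuousAt (fun η : ℂ => ((s0 + b * η, G η) : ℂ × ℂ)) ξ := hτ.prodMk hGc
  have hev1 : ∀ᶠ η in 𝓝 ξ, HH (s0 + b * η) (G η) = 0 → G η = g (s0 + b * η) :=
    hcp.eventually hg4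
  have hd : DifferentiableAt ℂ (fun η : ℂ => s0 + b * η) ξ := by fun_prop
  have hcomp : DifferentiableAt ℂ (fun η : ℂ => g (s0 + b * η)) ξ :=
    DifferentiableAt.comp (f := fun η : ℂ => s0 + b * η) ξ hg1.differentiableAt hd
  refine hcomp.congr_of_eventuallyEq ?_
  filter_upwards [hev1, hOm] with η h1 h2
  exact h1 (h.val η h2).1

end Pool.Agent.Lib.MP_ec260d_ntC
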