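import Mathlib
import Pool.Agent.Lib.MP_ec260d_ntC.Defs
import Pool.Agent.Lib.MP_ec260d_ntC.LiftD
import Pool.Agent.Lib.MP_ec260d_ntC.ArG
import Pool.Agent.Lib.MP_ec260d_ntC.ArI
import Pool.Agent.Lib.MP_ec260d_ntA.AreaF

/-!
# JOB NoEsc: almost every lift does not escape to infinity in finite time (about 200 lines)

(The case `y0 ≥ y1` is trivial.)  Let `R > 0` with `‖s0 + b ξ‖ ≤ R` for `0 ≤ ξ.re ≤ X`, `ξ.im ∈ [y0, y1]`; `Z0, N` from `arI R`.  `W = {ξ ∈ Om : 0 < ξ.re < X, Z0 < ‖G ξ‖}`: open (`opn`, `cont`), `G` differentiable on it (`lift_hol`).  Put `h w = ofReal (1/‖w‖²)` if `Z0 < ‖w‖`, else `0`; and `N' w = N w` if `Z0 < ‖w‖`, else `0`.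
Counting: if `S` is a finite set of `ξ ∈ W` with `G ξ = w` then `Z0 < ‖w‖` (or `S` is empty), and the points `s0 + b ξ` are distinct (`b ≠ 0`), of modulus `≤ R` and zeros of `HH · w` (`val`): `S.card ≤ N w`.  `area_mult`: `∫⁻_W ofReal (‖G'‖²) h(G) ≤ ∫⁻ N' h < ∞`.
Fubini (`fubini_c` of `MP_ec260d_ntA/AreaF.lean` applied to the indicator of `W` times the integrand): for a.e. `y`: `∫⁻_{W_y} ofReal (‖G'‖²/‖G‖²) dx < ∞`, `W_y = {x : x + i y ∈ W} ⊆ (0, X)`, and `cs_line` (Cauchy-Schwarz, finite measure): `∫⁻_{W_y} ofReal (‖G'‖/‖G‖) dx < ∞`.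
For such `y ∈ (y0, y1)` let `0 < X' ≤ X`, `x + i y ∈ Om` for `0 ≤ x < X'`, and suppose `‖G (x + i y)‖ → ∞` as `x → X'-`.  There is `x1 ∈ (0, X')` with `Z0 + 1 < ‖G (x + i y)‖` for `x1 ≤ x < X'`, so `(x1, X') ⊆ W_y`; `L x = log ‖G (x + i y)‖` has `|L'| ≤ ‖G'‖/‖G‖`, so `L x ≤ L x1 + ∫_{x1}^{X'} ‖G'‖/‖G‖` is bounded: contradiction.
(To avoid the derivative of `‖·‖`: use `L = (1/2) log (G conj G)`, or apply the fundamental theorem of calculus to a continuous logarithm of `G`: `G (x) = G(x1) exp (∫_{x1}^x G'/G)`, whose norm is `≤ ‖G(x1)‖ exp (∫ ‖G'‖/‖G‖)`.)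
-/

namespace Pool.Agent.Lib.MP_ec260d_ntC

open Complex Set Filter Topology Metric MeasureTheory

private theorem NoEsc_bound (x1 X' : ℝ) (g g' : ℝ → ℂ)
    (hg : ∀ x ∈ Ico x1 X', HasDerivAt g (g' x) x) (hg' : ContinuousOn g' (Ico x1 X'))
    (hne : ∀ x ∈ Ico x1 X', g x ≠ 0)
    (hfin : ∫⁻ x in Ico x1 X', ENNReal.ofReal (‖g' x‖ / ‖g x‖) < ⊤) :
    ∃ M : ℝ, ∀ x ∈ Ico x1 X', ‖g x‖ ≤ M := by
  set A : ℝ := (∫⁻ x in Ico x1 X', ENNReal.ofReal (‖g' x‖ / ‖g x‖)).toReal with hA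
  have hgc : ContinuousOn g (Ico x1 X') := fun x hx => (hg x hx).continuousAt.continuousWithinAt
  refine ⟨‖g x1‖ ^ 2 * Real.exp (2 * A) + 1, fun x hx => ?_⟩
  have hsub : Icc x1 x ⊆ Ico x1 X' := fun t ht => ⟨ht.1, lt_of_le_of_lt ht.2 hx.2⟩
  have hx1 : x1 ∈ Ico x1 X' := hsub ⟨le_rfl, hx.1⟩
  have hpos : ∀ t ∈ Ico x1 X', 0 < ‖g t‖ := fun t ht => norm_pos_iff.2 (hne t ht)
  have hd : ∀ t ∈ uIcc x1 x, HasDerivAt (fun t => Real.log (‖g t‖ ^ 2))
      (2 * inner ℝ (g t) (g' t) / ‖g t‖ ^ 2) t := by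
    intro t ht
    rw [uIcc_of_le hx.1] at ht
    have h1 := (hg t (hsub ht)).norm_sq
    exact h1.log (pow_pos (hpos t (hsub ht)) 2).ne'
  have hc1 : ContinuousOn (fun t => 2 * inner ℝ (g t) (g' t) / ‖g t‖ ^ 2) (uIcc x1 x) := by
    rw [uIcc_of_le hx.1]
    have hgc' := hgc.mono hsub
    have hgc'' := hg'.mono hsub
    refine ContinuousOn.div (continuousOn_const.mul (hgc'.inner hgc'')) (hgc'.norm.pow 2) ?_
    intro t ht
    exact (pow_pos (hpos t (hsub ht)) 2).ne'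
  have hc2 : ContinuousOn (fun t => ‖g' t‖ / ‖g t‖) (uIcc x1 x) := by
    rw [uIcc_of_le hx.1]
    exact (hg'.mono hsub).norm.div (hgc.mono hsub).norm fun t ht => (hpos t (hsub ht)).ne'
  have hftc := intervalIntegral.integral_eq_sub_of_hasDerivAt hd hc1.intervalIntegrable
  have hle : ∫ t in x1..x, 2 * inner ℝ (g t) (g' t) / ‖g t‖ ^ 2 ≤
      ∫ t in x1..x, 2 * (‖g' t‖ / ‖g t‖) := by
    refine intervalIntegral.integral_mono_on hx.1 hc1.intervalIntegrable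
      (hc2.intervalIntegrable.const_mul 2) fun t ht => ?_
    have h1 := hpos t (hsub ht)
    have h2 : inner ℝ (g t) (g' t) ≤ ‖g t‖ * ‖g' t‖ := real_inner_le_norm _ _
    rw [div_le_iff₀ (pow_pos h1 2)]
    have h3 : 2 * (‖g' t‖ / ‖g t‖) * ‖g t‖ ^ 2 = 2 * (‖g t‖ * ‖g' t‖) := by
      field_simp
    rw [h3]
    linarith
  have hint : ∫ t in x1..x, 2 * (‖g' t‖ / ‖g t‖) ≤ 2 * A := by
    rw [intervalIntegral.integral_const_mul]
    refine mul_le_mul_of_nonneg_left ?_ (by norm_num)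
    rw [intervalIntegral.integral_of_le hx.1]
    rw [integral_eq_lintegral_of_nonneg_ae (Eventually.of_forall fun t => by positivity)]
    · refine ENNReal.toReal_mono hfin.ne (lintegral_mono_set fun t ht => ?_)
      exact hsub ⟨ht.1.le, ht.2⟩
    · have h1 : ContinuousOn (fun t => ‖g' t‖ / ‖g t‖) (Ioc x1 x) := by
        rw [uIcc_of_le hx.1] at hc2
        exact hc2.mono Ioc_subset_Icc_self
      exact h1.aestronglyMeasurable measurableSet_Ioc
  have hlog : Real.log (‖g x‖ ^ 2) ≤ Real.log (‖g x1‖ ^ 2) + 2 * A := by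
    linarith
  have h4 : ‖g x‖ ^ 2 ≤ ‖g x1‖ ^ 2 * Real.exp (2 * A) := by
    have h5 := Real.exp_le_exp.2 hlog
    rw [Real.exp_log (pow_pos (hpos x hx) 2), Real.exp_add,
      Real.exp_log (pow_pos (hpos x1 hx1) 2)] at h5
    exact h5
  nlinarith [sq_nonneg (‖g x‖ - 1)]

theorem no_escape {s0 b : ℂ} {y0 y1 : ℝ} {Om : Set ℂ} {G : ℂ → ℂ} (h : LD s0 b y0 y1 Om G)
    (hb : b ≠ 0) (X : ℝ) (hX : 0 < X) :
    ∀ᵐ y : ℝ, y ∈ Ioo y0 y1 → ∀ X' : ℝ, 0 < X' → X' ≤ X →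
      (∀ x : ℝ, 0 ≤ x → x < X' → ((x : ℂ) + y * I) ∈ Om) →
      ¬ Tendsto (fun x : ℝ => ‖G ((x : ℂ) + y * I)‖) (𝓝[<] X') atTop := by
  set R : ℝ := ‖s0‖ + ‖b‖ * (X + (|y0| + |y1|)) + 1 with hR
  have hR0 : 0 < R := by positivity
  have hRb : ∀ ξ : ℂ, 0 ≤ ξ.re → ξ.re ≤ X → ξ.im ∈ Ioo y0 y1 → ‖s0 + b * ξ‖ ≤ R := by
    intro ξ h1 h2 h3
    have h4 : ‖ξ‖ ≤ |ξ.re| + |ξ.im| := norm_le_abs_re_add_abs_im ξ
    have h5 : |ξ.re| ≤ X := by rwa [abs_of_nonneg h1]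
    have h6 : |ξ.im| ≤ |y0| + |y1| := by
      rw [abs_le]
      constructor
      · have := neg_abs_le y0
        have := abs_nonneg y1
        linarith [h3.1]
      · have := le_abs_self y1
        have := abs_nonneg y0
        linarith [h3.2]
    calc ‖s0 + b * ξ‖ ≤ ‖s0‖ + ‖b * ξ‖ := norm_add_le _ _
      _ = ‖s0‖ + ‖b‖ * ‖ξ‖ := by rw [norm_mul]
      _ ≤ ‖s0‖ + ‖b‖ * (X + (|y0| + |y1|)) := by
          have := mul_le_mul_of_nonneg_left (show ‖ξ‖ ≤ X + (|y0| + |y1|) by linarith)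
            (norm_nonneg b)
          linarith
      _ ≤ R := by rw [hR]; linarith
  obtain ⟨Z0, N, hZ0, hNm, hNc, hNi⟩ := arI R hR0
  -- the open part of the domain
  have hOmn : ∀ ξ ∈ Om, 0 < ξ.re → Om ∩ {ξ | 0 < ξ.re} ∈ 𝓝 ξ := by
    intro ξ hξ hr
    obtain ⟨ε, hε, hε'⟩ := h.opn ξ hξ
    refine Filter.inter_mem ?_ ((isOpen_lt continuous_const continuous_re).mem_nhds hr)
    filter_upwards [Metric.ball_mem_nhds ξ hε,
      (isOpen_lt continuous_const continuous_re).mem_nhds hr] with η h1 h2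
    have h3 : 0 < η.re := h2
    exact hε' η (by rwa [mem_ball, dist_eq_norm] at h1) h3.le
  have hOmo : IsOpen (Om ∩ {ξ : ℂ | 0 < ξ.re}) :=
    isOpen_iff_mem_nhds.2 fun ξ hξ => hOmn ξ hξ.1 hξ.2
  have hGd : DifferentiableOn ℂ G (Om ∩ {ξ : ℂ | 0 < ξ.re}) := fun ξ hξ =>
    (lift_hol h ξ hξ.1 hξ.2).differentiableWithinAt
  have hGan : ∀ ξ ∈ Om ∩ {ξ : ℂ | 0 < ξ.re}, AnalyticAt ℂ G ξ := fun ξ hξ =>
    hGd.analyticAt (hOmo.mem_nhds hξ)
  set W : Set ℂ := (Om ∩ {ξ : ℂ | 0 < ξ.re}) ∩ ({ξ : ℂ | ξ.re < X} ∩ {ξ : ℂ | Z0 < ‖G ξ‖}) with hWdef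
  have hWo : IsOpen W := by
    rw [isOpen_iff_mem_nhds]
    intro ξ hξ
    refine Filter.inter_mem (hOmo.mem_nhds hξ.1) (Filter.inter_mem
      ((isOpen_lt continuous_re continuous_const).mem_nhds hξ.2.1) ?_)
    have h1 : ContinuousAt (fun ξ => ‖G ξ‖) ξ := (hGan ξ hξ.1).continuousAt.norm
    exact h1.eventually_const_lt hξ.2.2
  have hGa : ∀ ξ ∈ W, AnalyticAt ℂ G ξ := fun ξ hξ => hGan ξ hξ.1
  have hGc : ContinuousOn G W := fun ξ hξ => (hGa ξ hξ).continuousAt.continuousWithinAt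
  have hDc : ContinuousOn (deriv G) W := fun ξ hξ =>
    (hGa ξ hξ).deriv.continuousAt.continuousWithinAt
  have hGpos : ∀ ξ ∈ W, 0 < ‖G ξ‖ := fun ξ hξ => by
    have h1 : Z0 < ‖G ξ‖ := hξ.2.2
    linarith
  -- area formula
  have hZm : MeasurableSet {w : ℂ | Z0 < ‖w‖} := (isOpen_lt continuous_const continuous_norm).measurableSet
  set N' : ℂ → ENNReal := {w : ℂ | Z0 < ‖w‖}.indicator N with hN'
  set hh : ℂ → ENNReal := {w : ℂ | Z0 < ‖w‖}.indicator (fun w => ENNReal.ofReal (1 / ‖w‖ ^ 2)) with hhh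
  have hhm : Measurable hh := by
    refine Measurable.indicator ?_ hZm
    exact ENNReal.measurable_ofReal.comp (measurable_const.div (measurable_norm.pow_const 2))
  have harea := area_mult W hWo G (fun ξ hξ => (hGa ξ hξ).differentiableAt) N'
    (hNm.indicator hZm) (by
      intro w S hS
      rcases S.eq_empty_or_nonempty with rfl | ⟨ξ0, hξ0⟩
      · simp
      · have hw : Z0 < ‖w‖ := by
          obtain ⟨h1, h2⟩ := hS ξ0 hξ0
          rw [← h2]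
          exact h1.2.2
        have hinj : Function.Injective (fun ξ : ℂ => s0 + b * ξ) := by
          intro ξ ξ' he
          exact mul_left_cancel₀ hb (add_left_cancel he)
        have h3 := hNc w hw (S.image (fun ξ : ℂ => s0 + b * ξ)) (by
          intro t ht
          obtain ⟨ξ, hξ, rfl⟩ := Finset.mem_image.1 ht
          obtain ⟨h1, h2⟩ := hS ξ hξ
          have h4 := h.sub ξ h1.1.1
          have h5 : ξ.re < X := h1.2.1
          refine ⟨hRb ξ h4.1 h5.le h4.2, ?_⟩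
          rw [← h2]
          exact (h.val ξ h1.1.1).1)
        rw [Finset.card_image_of_injective _ hinj] at h3
        rw [hN', indicator_of_mem (show w ∈ {w : ℂ | Z0 < ‖w‖} from hw)]
        exact h3) hh hhm
  have hfinr : ∫⁻ w, N' w * hh w < ⊤ := by
    refine lt_of_le_of_lt (le_of_eq ?_) hNi
    rw [← lintegral_indicator hZm]
    refine lintegral_congr fun w => ?_
    by_cases hw : w ∈ {w : ℂ | Z0 < ‖w‖}
    · rw [hN', hhh, indicator_of_mem hw, indicator_of_mem hw, indicator_of_mem hw]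
    · rw [hN', hhh, indicator_of_notMem hw, indicator_of_notMem hw, indicator_of_notMem hw, mul_zero]
  set F : ℂ → ENNReal := fun ξ => ENNReal.ofReal (‖deriv G ξ‖ ^ 2 * (1 / ‖G ξ‖ ^ 2)) with hF
  have hFc : ContinuousOn F W := by
    refine ENNReal.continuous_ofReal.comp_continuousOn ?_
    refine (hDc.norm.pow 2).mul (continuousOn_const.div (hGc.norm.pow 2) fun ξ hξ => ?_)
    exact (pow_pos (hGpos ξ hξ) 2).ne'
  have hFm : Measurable (W.indicator F) := by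
    classical
    rw [← Set.piecewise_eq_indicator]
    exact hFc.measurable_piecewise continuousOn_const hWo.measurableSet
  have hfin2 : ∫⁻ ξ, W.indicator F ξ < ⊤ := by
    rw [lintegral_indicator hWo.measurableSet]
    refine lt_of_le_of_lt (le_of_eq ?_) (lt_of_le_of_lt harea hfinr)
    refine setLIntegral_congr_fun hWo.measurableSet fun ξ hξ => ?_
    show F ξ = ENNReal.ofReal (‖deriv G ξ‖ ^ 2) * hh (G ξ)
    have h1 : G ξ ∈ {w : ℂ | Z0 < ‖w‖} := hξ.2.2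
    rw [hhh, indicator_of_mem h1, hF]
    exact ENNReal.ofReal_mul (by positivity)
  rw [MP_ec260d_ntA.fubini_c _ hFm.aemeasurable] at hfin2
  have hmap : Continuous (fun p : ℝ × ℝ => ((p.2 : ℂ) + p.1 * I)) := by fun_prop
  have hmeas : Measurable (fun y : ℝ => ∫⁻ x : ℝ, W.indicator F ((x : ℂ) + y * I)) :=
    Measurable.lintegral_prod_right' (f := fun p : ℝ × ℝ => W.indicator F ((p.2 : ℂ) + p.1 * I))
      (hFm.comp hmap.measurable)
  filter_upwards [ae_lt_top hmeas hfin2.ne] with y hyy hyJ X' hX'0 hX'X hOm htop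
  have hline : Continuous (fun x : ℝ => ((x : ℂ) + y * I)) := by fun_prop
  set S : Set ℝ := {x : ℝ | ((x : ℂ) + y * I) ∈ W} with hS
  have hSo : IsOpen S := hWo.preimage hline
  have h3 : ∫⁻ x in S, F ((x : ℂ) + y * I) < ⊤ := by
    rw [← lintegral_indicator hSo.measurableSet]
    refine lt_of_le_of_lt (le_of_eq ?_) hyy
    refine lintegral_congr fun x => ?_
    by_cases hx : x ∈ S
    · rw [indicator_of_mem hx, indicator_of_mem (show ((x : ℂ) + y * I) ∈ W from hx)]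
    · rw [indicator_of_notMem hx, indicator_of_notMem (show ((x : ℂ) + y * I) ∉ W from hx)]
  have hm : MapsTo (fun x : ℝ => ((x : ℂ) + y * I)) S W := fun x hx => hx
  have hfc : ContinuousOn (fun x : ℝ => ENNReal.ofReal (‖deriv G ((x : ℂ) + y * I)‖ /
      ‖G ((x : ℂ) + y * I)‖)) S := by
    refine ENNReal.continuous_ofReal.comp_continuousOn ?_
    exact (hDc.norm.comp hline.continuousOn hm).div (hGc.norm.comp hline.continuousOn hm)
      fun x hx => (hGpos _ hx).ne'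
  have h4 := MP_ec260d_ntA.cs_line S hSo.measurableSet _ (hfc.aemeasurable hSo.measurableSet)
  have h5 : ∫⁻ x in S, (ENNReal.ofReal (‖deriv G ((x : ℂ) + y * I)‖ /
      ‖G ((x : ℂ) + y * I)‖)) ^ 2 = ∫⁻ x in S, F ((x : ℂ) + y * I) := by
    refine lintegral_congr fun x => ?_
    rw [← ENNReal.ofReal_pow (by positivity), div_pow, div_eq_mul_one_div]
  rw [h5] at h4
  have hre : ∀ x : ℝ, ((x : ℂ) + y * I).re = x := fun x => by simp
  have hvol : volume S < ⊤ := by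
    have h6 : S ⊆ Ioo 0 X := by
      intro x hx
      have h7 : 0 < ((x : ℂ) + y * I).re := hx.1.2
      have h8 : ((x : ℂ) + y * I).re < X := hx.2.1
      rw [hre] at h7 h8
      exact ⟨h7, h8⟩
    refine lt_of_le_of_lt (measure_mono h6) ?_
    rw [Real.volume_Ioo]
    exact ENNReal.ofReal_lt_top
  have h10 : ∫⁻ x in S, ENNReal.ofReal (‖deriv G ((x : ℂ) + y * I)‖ / ‖G ((x : ℂ) + y * I)‖) < ⊤ := by
    have h11 : (∫⁻ x in S, ENNReal.ofReal (‖deriv G ((x : ℂ) + y * I)‖ /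
        ‖G ((x : ℂ) + y * I)‖)) ^ 2 < ⊤ := lt_of_le_of_lt h4 (ENNReal.mul_lt_top hvol h3)
    by_contra hcon
    rw [not_lt, top_le_iff] at hcon
    rw [hcon] at h11
    simp at h11
  -- a left neighbourhood of `X'`
  have hev : ∀ᶠ x : ℝ in 𝓝[<] X', Z0 < ‖G ((x : ℂ) + y * I)‖ := htop.eventually_gt_atTop Z0
  obtain ⟨x0, hx0, hx0'⟩ := (mem_nhdsLT_iff_exists_Ioo_subset).1 hev
  have hx0X : x0 < X' := hx0
  set x1 : ℝ := (max x0 0 + X') / 2 with hx1
  have hmax : max x0 0 < X' := max_lt hx0X hX'0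
  have hx1a : max x0 0 < x1 := by rw [hx1]; linarith
  have hx1b : x1 < X' := by rw [hx1]; linarith
  have hx1x0 : x0 < x1 := lt_of_le_of_lt (le_max_left _ _) hx1a
  have hx10 : 0 < x1 := lt_of_le_of_lt (le_max_right _ _) hx1a
  have hIS : Ico x1 X' ⊆ S := by
    intro x hx
    have h12 : Z0 < ‖G ((x : ℂ) + y * I)‖ := hx0' ⟨by linarith [hx.1], hx.2⟩
    have hx0 : 0 < x := by linarith [hx.1]
    refine ⟨⟨hOm x hx0.le hx.2, ?_⟩, ?_, h12⟩
    · show 0 < ((x : ℂ) + y * I).re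
      rwa [hre]
    · show ((x : ℂ) + y * I).re < X
      rw [hre]
      linarith [hx.2]
  obtain ⟨M, hM⟩ := NoEsc_bound x1 X' (fun x : ℝ => G ((x : ℂ) + y * I))
    (fun x : ℝ => deriv G ((x : ℂ) + y * I)) (by
      intro x hx
      have h12 : HasDerivAt G (deriv G ((x : ℂ) + y * I)) ((x : ℂ) + y * I) :=
        (hGa _ (hIS hx)).differentiableAt.hasDerivAt
      exact (h12.comp_add_const (x : ℂ) (y * I)).comp_ofReal)
    (hDc.comp hline.continuousOn (fun x hx => hIS hx : MapsTo (fun x : ℝ => ((x : ℂ) + y * I)) (Ico x1 X') W))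
    (fun x hx => norm_pos_iff.1 (hGpos _ (hIS hx)))
    (lt_of_le_of_lt (lintegral_mono_set hIS) h10)
  have hev2 : ∀ᶠ x : ℝ in 𝓝[<] X', M < ‖G ((x : ℂ) + y * I)‖ := htop.eventually_gt_atTop M
  have hev3 : ∀ᶠ x : ℝ in 𝓝[<] X', x ∈ Ico x1 X' := by
    have h12 : Ioo x1 X' ∈ 𝓝[<] X' := Ioo_mem_nhdsLT hx1b
    filter_upwards [h12] with x hx
    exact ⟨hx.1.le, hx.2⟩
  obtain ⟨x, hxa, hxb⟩ := (hev2.and hev3).exists
  exact absurd (hM x hxb) (not_le.2 hxa)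

end Pool.Agent.Lib.MP_ec260d_ntC
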