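import Mathlib
import Pool.Agent.Lib.MP_ec260d_ntC.Defs
import Pool.Agent.Lib.MP_ec260d_ntC.NoEsc
import Pool.Agent.Lib.MP_ec260d_ntC.Dich
import Pool.Agent.Lib.MP_ec260d_ntC.IsoB

/-!
# JOB AllXH: for almost every y the lift exists on the whole interval (about 120 lines)

(If `X ≤ 0` use `st`; assume `X > 0`.)  The set `bad = {y : ∃ x : ℝ, ∃ w, HH (s0 + b (x + i y)) w = 0 ∧ Hz (s0 + b (x + i y)) w = 0}` is countable: it is the image of a countable set (`double_countable`) under `(t, w) ↦ Im ((t - s0)/b)`.  Let `y ∈ (y0, y1)` be outside of `bad` and of the null set of `no_escape h hb X`.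
`T = {x ∈ [0, X] : x + i y ∈ Om}` contains `0` (`st`), is an initial interval (`star`), relatively open (`opn`).  Suppose `T ≠ [0, X]`; then `T = [0, X')` with `0 < X' ≤ X` (openness at `0` gives `X' > 0`, openness at the supremum shows that the supremum is not in `T`).  `dich` for `c x = s0 + b (x + i y)`, `w x = G (x + i y)` on `[0, X')` (`cont`, `val`): the first alternative is excluded by `no_escape`.
So `G (x + i y) → z` with `HH (c X') z = 0`; as `y ∉ bad`, `Hz (c X') z ≠ 0`, so `Smp (c X') z` and `max` gives `X' + i y ∈ Om`: contradiction.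
-/

namespace Pool.Agent.Lib.MP_ec260d_ntC

open Complex Set Filter Topology Metric MeasureTheory

theorem all_x {s0 b : ℂ} {y0 y1 : ℝ} {Om : Set ℂ} {G : ℂ → ℂ} (h : LD s0 b y0 y1 Om G)
    (hb : b ≠ 0) (X : ℝ) :
    ∀ᵐ y : ℝ, y ∈ Ioo y0 y1 → ∀ x : ℝ, 0 ≤ x → x ≤ X → ((x : ℂ) + y * I) ∈ Om := by
  rcases le_or_gt X 0 with hX0 | hX0
  · refine ae_of_all _ (fun y hy x hx hxX => ?_)
    have : x = 0 := le_antisymm (hxX.trans hX0) hx
    rw [this, Complex.ofReal_zero, zero_add]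
    exact h.st y hy
  set B : Set ℝ := (fun p : ℂ × ℂ => ((p.1 - s0) / b).im) '' {p : ℂ × ℂ | HH p.1 p.2 = 0 ∧ Hz p.1 p.2 = 0}
    with hB
  have hBc : B.Countable := double_countable.image _
  filter_upwards [no_escape h hb X hX0, hBc.ae_notMem volume] with y hne hbad hyI
  by_contra hcon
  push Not at hcon
  obtain ⟨x0, hx0, hx0X, hx0'⟩ := hcon
  set T : Set ℝ := {x : ℝ | 0 ≤ x ∧ ((x : ℂ) + y * I) ∉ Om} with hT
  have hTne : T.Nonempty := ⟨x0, hx0, hx0'⟩
  have hTbd : BddBelow T := ⟨0, fun x hx => hx.1⟩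
  set X' : ℝ := sInf T with hX'
  have hX'0 : 0 ≤ X' := le_csInf hTne fun x hx => hx.1
  have hX'X : X' ≤ X := (csInf_le hTbd (show x0 ∈ T from ⟨hx0, hx0'⟩)).trans hx0X
  have hlt : ∀ x : ℝ, 0 ≤ x → x < X' → ((x : ℂ) + y * I) ∈ Om := by
    intro x hx hxX
    by_contra hno
    exact absurd (csInf_le hTbd (show x ∈ T from ⟨hx, hno⟩)) (not_le.2 hxX)
  have hXnot : ((X' : ℂ) + y * I) ∉ Om := by
    intro hmem
    obtain ⟨ε, hε, hball⟩ := h.opn _ hmem
    obtain ⟨x, hxT, hxlt⟩ := exists_lt_of_csInf_lt hTne (show sInf T < X' + ε by linarith)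
    have hxX : X' ≤ x := csInf_le hTbd hxT
    refine hxT.2 (hball _ ?_ ?_)
    · have h1 : ((x : ℂ) + y * I) - ((X' : ℂ) + y * I) = ((x - X' : ℝ) : ℂ) := by
        push_cast
        ring
      rw [h1, Complex.norm_real, Real.norm_eq_abs, abs_of_nonneg (by linarith)]
      linarith
    · have h2 : ((x : ℂ) + y * I).re = x := by simp
      rw [h2]
      exact hxT.1
  have hXpos : 0 < X' := by
    rcases hX'0.lt_or_eq with h1 | h1
    · exact h1
    · exfalso
      apply hXnot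
      rw [← h1, Complex.ofReal_zero, zero_add]
      exact h.st y hyI
  have hesc := hne hyI X' hXpos hX'X hlt
  have hcc : Continuous (fun x : ℝ => s0 + b * ((x : ℂ) + y * I)) := by fun_prop
  have hwc : ContinuousOn (fun x : ℝ => G ((x : ℂ) + y * I)) (Ico 0 X') := by
    have h1 : Continuous (fun x : ℝ => (x : ℂ) + y * I) := by fun_prop
    exact h.cont.comp h1.continuousOn (fun x hx => hlt x hx.1 hx.2)
  rcases dich X' hXpos (fun x : ℝ => s0 + b * ((x : ℂ) + y * I)) (fun x : ℝ => G ((x : ℂ) + y * I))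
    hcc.continuousOn hwc (fun x hx => (h.val _ (hlt x hx.1 hx.2)).1) with h1 | ⟨z, hz, hzt⟩
  · exact hesc h1
  · by_cases hd : Hz (s0 + b * ((X' : ℂ) + y * I)) z = 0
    · refine hbad ⟨(s0 + b * ((X' : ℂ) + y * I), z), ⟨hz, hd⟩, ?_⟩
      simp only
      rw [add_sub_cancel_left, mul_div_cancel_left₀ _ hb]
      simp
    · exact hXnot (h.max y hyI X' hXpos hlt z ⟨hz, hd⟩ hzt)

end Pool.Agent.Lib.MP_ec260d_ntC
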