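import Mathlib
import Pool.Agent.Lib.MP_ec260d_ntC.Defs

/-!
# Definitions for the asymptotics of H_t on the critical curve

`t = tp p = 2 π e^{4p} / p`, the saddle point of `t u² - π e^{4u}` is `u = p`, the critical value is `SS p = π e^{4p} (2p - 1)`.
-/

namespace Pool.Agent.Lib.MP_ec260d_ntC

open Complex Set Filter Topology Metric MeasureTheory

noncomputable section

/-- the parameter `t` with saddle point `p` -/
def tp (p : ℂ) : ℂ := 2 * Real.pi * cexp (4 * p) / p

/-- the critical value -/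
def SS (p : ℂ) : ℂ := Real.pi * cexp (4 * p) * (2 * p - 1)

/-- the size of the contribution of the saddle point -/
def NN (p : ℂ) : ℂ := (Real.pi : ℂ) ^ 2 / (2 * (Real.sqrt 2 : ℂ)) * cexp (7 * p + SS p)

/-- the ratio of the contribution of `0` and of the saddle point -/
def WW (p : ℂ) : ℂ := I * Ph 0 / (Real.pi : ℂ) ^ 2 * cexp (Complex.log p / 2 - 9 * p - SS p)

/-- the normalized function `H_t` -/
def hh (p ζ : ℂ) : ℂ := HH (tp p) (ζ / p) / NN p

/-- the modulus of `π e^{4p}` -/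
def EE (p : ℂ) : ℝ := Real.pi * Real.exp (4 * p.re)

/-- the radius of the saddle point segment -/
def rr (p : ℂ) : ℝ := 1 / (20 * p.re)

/-- the direction of steepest descent at the saddle point -/
def dd (p : ℂ) : ℂ := cexp (-(2 * p.im * I))

/-- the region of the asymptotics -/
def Reg (V : ℝ) : Set ℂ := {p | V ≤ p.re ∧ 0 ≤ p.im ∧ p.im < Real.pi / 8 ∧ ‖WW p‖ ≤ 20}

/-- the integrand -/
def gg (t z u : ℂ) : ℂ := cexp (t * u ^ 2) * Ph u * cexp (I * z * u)

/-- the integral over a horizontal ray starting at `a` -/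
def RR (t z a : ℂ) : ℂ := ∫ x in Ioi (0 : ℝ), gg t z (a + x)

/-- the integral over the segment from `a` to `b` -/
def SG (t z a b : ℂ) : ℂ := (b - a) * ∫ s in (0 : ℝ)..1, gg t z (a + s * (b - a))

/-- the part of `H_t` which comes from a neighbourhood of `0` -/
def BB (t z : ℂ) : ℂ := I / 2 * ∫ y in (-(1 / 4) : ℝ)..(1 / 4), cexp (-(t * (y : ℂ) ^ 2)) * Ph (I * y) * cexp (-(z * y))

/-- an open rectangle -/
def box (a b : ℝ) : Set ℂ := {ζ | Real.pi * a < ζ.re ∧ ζ.re < Real.pi * b ∧ |ζ.im| < 3}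

/-- the `j`-th positive zero of `H_t` for real `t` -/
def nz (t : ℝ) : ℕ → ℝ
  | 0 => sInf {x | 0 < x ∧ HH t x = 0}
  | (j + 1) => sInf {x | nz t j < x ∧ HH t x = 0}

end

end Pool.Agent.Lib.MP_ec260d_ntC
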