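import Mathlib
import Pool.Agent.Lib.MP_ec260d_ntC.DefsW
import Pool.Agent.Lib.MP_ec260d_ntC.HB

/-!
# JOB ContR: contour shifts (about 250 lines)

`gg_bound`: let `c > 0`, `R > 0`.  For `|u.im| < π/8` with `c ≤ cos (4 u.im)` and `‖t‖, ‖z‖ ≤ R`: `Ph_bound2` gives `‖gg t z u‖ ≤ C (1 + c^(-3)) exp (R ‖u‖² + R ‖u‖ + 9 |u.re| - π c exp (4 |u.re|))`, `‖u‖ ≤ |u.re| + 1`, and `exp (4x) ≥ 1 + 4x + 8x² + (32/3) x³`, so the exponent is at most `C' - |u.re|`.
`ray_int`: `x ↦ gg t z (a + x)` is continuous on `[0, ∞)` (`Ph_diff`, `a + x ∈ strip`) and bounded by `C e^{-x + |a.re|}` with `c = cos (4 a.im) > 0`.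
`ray_deriv`: for `a` near `a0` (`‖a - a0‖ ≤ 2 r`, `closedBall a0 (2r) ⊆ strip`; `cos (4 u.im) ≥ c > 0` on the corresponding rays) `‖gg t z (a + x)‖ ≤ C e^{-x}`, so the derivative of `gg t z` at `a + x` for `‖a - a0‖ < r` is at most `C e^{-x}/r` (Cauchy estimate, `Complex.norm_deriv_le_of_forall_mem_sphere_norm_le`).
`hasDerivAt_integral_of_dominated_loc_of_deriv_le`: the derivative of `RR t z` at `a0` is `∫_{x > 0} (gg t z)' (a0 + x) dx = - gg t z a0` (`integral_Ioi_of_hasDerivAt_of_tendsto`; `gg t z (a0 + x) → 0`).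
`ray_shift`: `s ↦ RR t z (a + s (b - a))` has derivative `-(b - a) gg t z (a + s (b - a))` on `[0, 1]` (`strip_convex`): fundamental theorem of calculus.
`HH_split`: `cos (z u) = (e^{izu} + e^{-izu})/2`: `HH t z = (RR t z 0 + RR t (-z) 0)/2`; `RR t (±z) 0 = SG t (±z) 0 (I/4) + RR t (±z) (I/4)` (`ray_shift`); with `u = I s/4 = I y`: `SG t z 0 (I/4) = I ∫_0^{1/4} e^{-ty²} Ph (I y) e^{-z y} dy` (substitution `y = s/4`), and the sum of the two (`Ph (I y)` even in `y`: `Ph_even`)
is `I ∫_{-1/4}^{1/4} e^{-ty²} Ph (I y) e^{-zy} dy = 2 BB t z`.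
`RR_diff_z` etc.: differentiate under the integral sign in `z`: the derivative of the integrand in `z` is `I (a + x) gg t z (a + x)`, dominated as in `gg_bound`.
-/

namespace Pool.Agent.Lib.MP_ec260d_ntC

open Complex Set Filter Topology Metric MeasureTheory

theorem gg_diff (t z : ℂ) : DifferentiableOn ℂ (gg t z) strip := by
  have h1 : Differentiable ℂ (fun u : ℂ => cexp (t * u ^ 2)) := by fun_prop
  have h2 : Differentiable ℂ (fun u : ℂ => cexp (I * z * u)) := by fun_prop
  exact (h1.differentiableOn.mul Ph_diff).mul h2.differentiableOn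

private theorem contR1_exponent {c R y : ℝ} (hc : 0 < c) (hR : 0 ≤ R) (hy : 0 ≤ y) :
    R * (y + 1) ^ 2 + R * (y + 1) + 9 * y - Real.pi * (Real.exp (4 * y) * c) ≤
      (2 * R + 10) ^ 3 / c ^ 2 - y := by
  have h1 : (y + 1) ^ 3 ≤ Real.exp (4 * y) := by
    have h2 : y + 1 ≤ Real.exp y := Real.add_one_le_exp y
    have h3 : Real.exp (4 * y) = Real.exp y ^ 4 := by
      rw [← Real.exp_nat_mul]; norm_num
    rw [h3]
    have h4 : (y + 1) ^ 3 ≤ Real.exp y ^ 3 := pow_le_pow_left₀ (by linarith) h2 3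
    have h5 : Real.exp y ^ 3 ≤ Real.exp y ^ 4 :=
      pow_le_pow_right₀ (by linarith) (by norm_num)
    linarith
  have h6 : c * (y + 1) ^ 3 ≤ Real.pi * (Real.exp (4 * y) * c) := by
    have h7 : c * (y + 1) ^ 3 ≤ Real.exp (4 * y) * c := by
      rw [mul_comm c]
      exact mul_le_mul_of_nonneg_right h1 hc.le
    have h8 : (1 : ℝ) ≤ Real.pi := by linarith [Real.pi_gt_three]
    have h9 : 0 ≤ Real.exp (4 * y) * c := by positivity
    nlinarith
  set A : ℝ := 2 * R + 10 with hA
  have hA0 : 0 ≤ A := by rw [hA]; linarith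
  have h10 : A * (y + 1) ^ 2 ≤ c * (y + 1) ^ 3 + A ^ 3 / c ^ 2 := by
    rcases le_total (c * (y + 1)) A with h | h
    · have h11 : y + 1 ≤ A / c := by
        rw [le_div_iff₀ hc]; linarith
      have h12 : (y + 1) ^ 2 ≤ (A / c) ^ 2 := pow_le_pow_left₀ (by linarith) h11 2
      have h13 : A * (y + 1) ^ 2 ≤ A * (A / c) ^ 2 := mul_le_mul_of_nonneg_left h12 hA0
      have h14 : A * (A / c) ^ 2 = A ^ 3 / c ^ 2 := by rw [div_pow]; ring
      have h15 : 0 ≤ c * (y + 1) ^ 3 := by positivity
      linarith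
    · have h11 : A * (y + 1) ^ 2 ≤ c * (y + 1) * (y + 1) ^ 2 :=
        mul_le_mul_of_nonneg_right h (by positivity)
      have h12 : 0 ≤ A ^ 3 / c ^ 2 := by positivity
      have h13 : c * (y + 1) * (y + 1) ^ 2 = c * (y + 1) ^ 3 := by ring
      linarith
  have h16 : R * (y + 1) ^ 2 + R * (y + 1) + 10 * y ≤ A * (y + 1) ^ 2 := by
    rw [hA]
    nlinarith [mul_nonneg hR hy, mul_nonneg hR (mul_nonneg hy hy), mul_nonneg hy hy]
  linarith

theorem gg_bound (c R : ℝ) (hc : 0 < c) : ∃ C : ℝ, 0 < C ∧ ∀ t z u : ℂ, ‖t‖ ≤ R → ‖z‖ ≤ R →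
    u ∈ strip → c ≤ Real.cos (4 * u.im) → ‖gg t z u‖ ≤ C * Real.exp (-|u.re|) := by
  obtain ⟨C, hC, hb⟩ := Ph_bound2
  refine ⟨C * (1 + (c ^ 3)⁻¹) * Real.exp ((2 * |R| + 10) ^ 3 / c ^ 2), by positivity, ?_⟩
  intro t z u ht hz hu hcu
  have hu' : |u.im| < Real.pi / 8 := hu
  have him : |u.im| ≤ 1 := by
    have := Real.pi_lt_four
    linarith
  have hn : ‖u‖ ≤ |u.re| + 1 := le_trans (Complex.norm_le_abs_re_add_abs_im u) (by linarith)
  have hR : R ≤ |R| := le_abs_self R
  have e1 : ‖cexp (t * u ^ 2)‖ ≤ Real.exp (|R| * (|u.re| + 1) ^ 2) := by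
    rw [Complex.norm_exp]
    refine Real.exp_le_exp.2 (le_trans (Complex.re_le_norm _) ?_)
    rw [norm_mul, norm_pow]
    exact mul_le_mul (ht.trans hR) (pow_le_pow_left₀ (norm_nonneg _) hn 2) (by positivity) (abs_nonneg R)
  have e2 : ‖cexp (I * z * u)‖ ≤ Real.exp (|R| * (|u.re| + 1)) := by
    rw [Complex.norm_exp]
    refine Real.exp_le_exp.2 (le_trans (Complex.re_le_norm _) ?_)
    rw [norm_mul, norm_mul, Complex.norm_I, one_mul]
    exact mul_le_mul (hz.trans hR) hn (norm_nonneg _) (abs_nonneg R)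
  have e3 : ‖Ph u‖ ≤ C * (1 + (c ^ 3)⁻¹) *
      Real.exp (9 * |u.re| - Real.pi * (Real.exp (4 * |u.re|) * c)) := by
    refine (hb u hu).trans ?_
    have h1 : (Real.cos (4 * u.im) ^ 3)⁻¹ ≤ (c ^ 3)⁻¹ :=
      inv_anti₀ (by positivity) (pow_le_pow_left₀ hc.le hcu 3)
    have h2 : Real.exp (4 * |u.re|) * c ≤ Real.exp (4 * |u.re|) * Real.cos (4 * u.im) :=
      mul_le_mul_of_nonneg_left hcu (Real.exp_pos _).le
    have h3 : Real.pi * (Real.exp (4 * |u.re|) * c) ≤
        Real.pi * (Real.exp (4 * |u.re|) * Real.cos (4 * u.im)) :=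
      mul_le_mul_of_nonneg_left h2 Real.pi_pos.le
    refine mul_le_mul (mul_le_mul_of_nonneg_left (by linarith) hC.le) (Real.exp_le_exp.2 (by linarith))
      (Real.exp_pos _).le (by positivity)
  have e4 : ‖gg t z u‖ ≤ Real.exp (|R| * (|u.re| + 1) ^ 2) * (C * (1 + (c ^ 3)⁻¹) *
      Real.exp (9 * |u.re| - Real.pi * (Real.exp (4 * |u.re|) * c))) * Real.exp (|R| * (|u.re| + 1)) := by
    unfold gg
    rw [norm_mul, norm_mul]
    exact mul_le_mul (mul_le_mul e1 e3 (norm_nonneg _) (Real.exp_pos _).le) e2 (norm_nonneg _) (by positivity)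
  refine e4.trans ?_
  have e5 : Real.exp (|R| * (|u.re| + 1) ^ 2) * (C * (1 + (c ^ 3)⁻¹) *
      Real.exp (9 * |u.re| - Real.pi * (Real.exp (4 * |u.re|) * c))) * Real.exp (|R| * (|u.re| + 1)) =
      C * (1 + (c ^ 3)⁻¹) * Real.exp (|R| * (|u.re| + 1) ^ 2 + |R| * (|u.re| + 1) + 9 * |u.re| -
        Real.pi * (Real.exp (4 * |u.re|) * c)) := by
    rw [show |R| * (|u.re| + 1) ^ 2 + |R| * (|u.re| + 1) + 9 * |u.re| -
        Real.pi * (Real.exp (4 * |u.re|) * c) = |R| * (|u.re| + 1) ^ 2 + (9 * |u.re| -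
        Real.pi * (Real.exp (4 * |u.re|) * c)) + |R| * (|u.re| + 1) by ring, Real.exp_add, Real.exp_add]
    ring
  rw [e5, mul_assoc (C * (1 + (c ^ 3)⁻¹)), ← Real.exp_add]
  refine mul_le_mul_of_nonneg_left (Real.exp_le_exp.2 ?_) (by positivity)
  have := contR1_exponent (y := |u.re|) hc (abs_nonneg R) (abs_nonneg _)
  linarith

private theorem contR1_cos {h y : ℝ} (hh : h < Real.pi / 8) (hy : |y| ≤ h) :
    Real.cos (4 * h) ≤ Real.cos (4 * y) := by
  have h0 : 0 ≤ h := le_trans (abs_nonneg y) hy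
  rw [← Real.cos_abs (4 * y)]
  have e : |4 * y| = 4 * |y| := by rw [abs_mul]; norm_num
  rw [e]
  exact Real.cos_le_cos_of_nonneg_of_le_pi (by positivity) (by linarith [Real.pi_pos]) (by linarith)

private theorem contR1_cos_pos {h : ℝ} (h0 : 0 ≤ h) (hh : h < Real.pi / 8) : 0 < Real.cos (4 * h) :=
  Real.cos_pos_of_mem_Ioo ⟨by linarith [Real.pi_pos], by linarith⟩

private theorem contR1_mem {a : ℂ} (ha : a ∈ strip) (x : ℝ) : a + x ∈ strip := by
  show |(a + x).im| < Real.pi / 8
  have : (a + x).im = a.im := by simp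
  rw [this]
  exact ha

private theorem contR1_cont (t z : ℂ) {a : ℂ} (ha : a ∈ strip) : Continuous (fun x : ℝ => gg t z (a + x)) := by
  rw [← continuousOn_univ]
  refine (gg_diff t z).continuousOn.comp (by fun_prop : Continuous (fun x : ℝ => a + (x : ℂ))).continuousOn ?_
  intro x _
  exact contR1_mem ha x

/-- a uniform bound on the strip `|im| ≤ h` -/
private theorem contR1_unif (t z : ℂ) {h : ℝ} (h0 : 0 ≤ h) (hh : h < Real.pi / 8) : ∃ C : ℝ, 0 < C ∧
    ∀ u : ℂ, |u.im| ≤ h → ‖gg t z u‖ ≤ C * Real.exp (-|u.re|) := by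
  obtain ⟨C, hC, hb⟩ := gg_bound (Real.cos (4 * h)) (max ‖t‖ ‖z‖) (contR1_cos_pos h0 hh)
  refine ⟨C, hC, fun u hu => hb t z u (le_max_left _ _) (le_max_right _ _) ?_ (contR1_cos hh hu)⟩
  exact lt_of_le_of_lt hu hh

private theorem contR1_exp_int (K : ℝ) : IntegrableOn (fun x : ℝ => K * Real.exp (-x)) (Ioi 0) := by
  have h := exp_neg_integrableOn_Ioi 0 (b := 1) one_pos
  simp only [neg_mul, one_mul] at h
  exact h.const_mul K

theorem ray_int (t z a : ℂ) (ha : a ∈ strip) : IntegrableOn (fun x : ℝ => gg t z (a + x)) (Ioi 0) := by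
  have ha' : |a.im| < Real.pi / 8 := ha
  obtain ⟨C, hC, hb⟩ := contR1_unif t z (abs_nonneg a.im) ha'
  refine Integrable.mono' (contR1_exp_int (C * Real.exp |a.re|)) (contR1_cont t z ha).aestronglyMeasurable ?_
  refine (ae_restrict_iff' measurableSet_Ioi).2 (Eventually.of_forall (fun x hx => ?_))
  have h1 : (a + (x : ℂ)).im = a.im := by simp
  have h2 : (a + (x : ℂ)).re = a.re + x := by simp
  refine (hb (a + x) (by rw [h1])).trans ?_
  rw [h2, mul_assoc, ← Real.exp_add]
  refine mul_le_mul_of_nonneg_left (Real.exp_le_exp.2 ?_) hC.le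
  have h3 : a.re + x ≤ |a.re + x| := le_abs_self _
  have h4 : -a.re ≤ |a.re| := neg_le_abs _
  linarith

theorem ray_deriv (t z a : ℂ) (ha : a ∈ strip) : HasDerivAt (RR t z) (-gg t z a) a := by
  have ha' : |a.im| < Real.pi / 8 := ha
  obtain ⟨r, hr, hrr⟩ : ∃ r : ℝ, 0 < r ∧ |a.im| + 2 * r < Real.pi / 8 :=
    ⟨(Real.pi / 8 - |a.im|) / 4, by linarith, by linarith⟩
  obtain ⟨C, hC, hb⟩ := contR1_unif t z (h := |a.im| + 2 * r) (by positivity) hrr
  have hopen := strip_open
  have hmemr : ∀ u : ℂ, ‖u - a‖ < r → u ∈ strip := by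
    intro u hu
    show |u.im| < Real.pi / 8
    have h1 : |u.im - a.im| ≤ ‖u - a‖ := by
      have := Complex.abs_im_le_norm (u - a)
      rwa [Complex.sub_im] at this
    have h2 : |u.im| ≤ |u.im - a.im| + |a.im| := by
      have := abs_add_le (u.im - a.im) a.im
      rwa [sub_add_cancel] at this
    linarith
  have hder : ∀ u ∈ strip, HasDerivAt (gg t z) (deriv (gg t z) u) u := fun u hu =>
    ((gg_diff t z).differentiableAt (hopen.mem_nhds hu)).hasDerivAt
  have hderc : Continuous (fun x : ℝ => deriv (gg t z) (a + x)) := by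
    rw [← continuousOn_univ]
    refine ((gg_diff t z).deriv hopen).continuousOn.comp
      (by fun_prop : Continuous (fun x : ℝ => a + (x : ℂ))).continuousOn ?_
    intro x _
    exact contR1_mem ha x
  have hbd : ∀ x : ℝ, ∀ u ∈ ball a r, ‖deriv (gg t z) (u + x)‖ ≤
      C * Real.exp (|a.re| + 2 * r) / r * Real.exp (-x) := by
    intro x u hu
    rw [mem_ball, dist_eq_norm] at hu
    have hu1 : |u.im - a.im| ≤ ‖u - a‖ := by
      have := Complex.abs_im_le_norm (u - a)
      rwa [Complex.sub_im] at this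
    have hu2 : |u.re - a.re| ≤ ‖u - a‖ := by
      have := Complex.abs_re_le_norm (u - a)
      rwa [Complex.sub_re] at this
    have key : ∀ v : ℂ, ‖v - (u + x)‖ ≤ r → |v.im| ≤ |a.im| + 2 * r ∧ x - (|a.re| + 2 * r) ≤ v.re := by
      intro v hv
      have hv1 : |v.im - u.im| ≤ ‖v - (u + x)‖ := by
        have := Complex.abs_im_le_norm (v - (u + x))
        simpa using this
      have hv2 : |v.re - (u.re + x)| ≤ ‖v - (u + x)‖ := by
        have := Complex.abs_re_le_norm (v - (u + x))
        simpa using this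
      constructor
      · have h1 : |v.im| ≤ |v.im - u.im| + |u.im - a.im| + |a.im| := by
          have h2 : v.im = (v.im - u.im) + (u.im - a.im) + a.im := by ring
          have h3 := abs_add_le ((v.im - u.im) + (u.im - a.im)) a.im
          have h4 := abs_add_le (v.im - u.im) (u.im - a.im)
          rw [← h2] at h3
          linarith
        linarith
      · have h1 := neg_abs_le (v.re - (u.re + x))
        have h2 := neg_abs_le (u.re - a.re)
        have h3 := neg_abs_le a.re
        linarith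
    have hsub : ∀ v ∈ closedBall (u + (x : ℂ)) r, v ∈ strip := by
      intro v hv
      rw [mem_closedBall, dist_eq_norm] at hv
      exact lt_of_le_of_lt (key v hv).1 hrr
    have hdc : DiffContOnCl ℂ (gg t z) (ball (u + (x : ℂ)) r) := by
      refine DifferentiableOn.diffContOnCl ?_
      refine (gg_diff t z).mono ?_
      intro v hv
      exact hsub v (closure_ball_subset_closedBall hv)
    have h1 := Complex.norm_deriv_le_of_forall_mem_sphere_norm_le hr hdc
      (C := C * Real.exp (|a.re| + 2 * r) * Real.exp (-x)) (by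
        intro v hv
        rw [mem_sphere, dist_eq_norm] at hv
        obtain ⟨k1, k2⟩ := key v hv.le
        refine (hb v k1).trans ?_
        rw [mul_assoc, ← Real.exp_add]
        refine mul_le_mul_of_nonneg_left (Real.exp_le_exp.2 ?_) hC.le
        have := le_abs_self v.re
        linarith)
    refine h1.trans (le_of_eq ?_)
    ring
  have hmain := hasDerivAt_integral_of_dominated_loc_of_deriv_le (μ := volume.restrict (Ioi (0 : ℝ)))
    (F := fun (u : ℂ) (x : ℝ) => gg t z (u + x)) (F' := fun (u : ℂ) (x : ℝ) => deriv (gg t z) (u + x))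
    (x₀ := a) (bound := fun x : ℝ => C * Real.exp (|a.re| + 2 * r) / r * Real.exp (-x))
    (ball_mem_nhds a hr)
    (by
      filter_upwards [ball_mem_nhds a hr] with u hu
      rw [mem_ball, dist_eq_norm] at hu
      exact (contR1_cont t z (hmemr u hu)).aestronglyMeasurable)
    (ray_int t z a ha)
    hderc.aestronglyMeasurable
    (Eventually.of_forall (fun x u hu => hbd x u hu))
    (contR1_exp_int _)
    (Eventually.of_forall (fun x u hu => by
      rw [mem_ball, dist_eq_norm] at hu
      exact (hder (u + x) (contR1_mem (hmemr u hu) x)).comp_add_const u (x : ℂ)))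
  have hint : IntegrableOn (fun x : ℝ => deriv (gg t z) (a + x)) (Ioi 0) := hmain.1
  have hval : ∫ x in Ioi (0 : ℝ), deriv (gg t z) (a + x) = 0 - gg t z (a + (0 : ℝ)) := by
    refine integral_Ioi_of_hasDerivAt_of_tendsto (f := fun x : ℝ => gg t z (a + x))
      (contR1_cont t z ha).continuousWithinAt ?_ hint ?_
    · intro x _
      have h1 : HasDerivAt (fun w : ℂ => gg t z (a + w)) (deriv (gg t z) (a + x)) (x : ℂ) :=
        (hder (a + x) (contR1_mem ha x)).comp_const_add a (x : ℂ)
      exact h1.comp_ofReal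
    · refine squeeze_zero_norm' (a := fun x : ℝ => C * Real.exp |a.re| * Real.exp (-x)) ?_ ?_
      · filter_upwards [eventually_gt_atTop (0 : ℝ)] with x _
        have h1 : (a + (x : ℂ)).im = a.im := by simp
        have h2 : (a + (x : ℂ)).re = a.re + x := by simp
        refine (hb (a + x) (by rw [h1]; linarith)).trans ?_
        rw [h2, mul_assoc, ← Real.exp_add]
        refine mul_le_mul_of_nonneg_left (Real.exp_le_exp.2 ?_) hC.le
        have h3 : a.re + x ≤ |a.re + x| := le_abs_self _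
        have h4 : -a.re ≤ |a.re| := neg_le_abs _
        linarith
      · have h1 := Real.tendsto_exp_neg_atTop_nhds_zero.const_mul (C * Real.exp |a.re|)
        rwa [mul_zero] at h1
  have h2 : ∫ x in Ioi (0 : ℝ), deriv (gg t z) (a + x) = -gg t z a := by
    rw [hval]
    simp
  have h3 := hmain.2
  rw [h2] at h3
  exact h3

theorem ray_shift (t z a b : ℂ) (ha : a ∈ strip) (hb : b ∈ strip) :
    RR t z a = SG t z a b + RR t z b := by
  have hmem : ∀ s ∈ Set.uIcc (0 : ℝ) 1, a + (s : ℂ) * (b - a) ∈ strip := by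
    intro s hs
    rw [Set.uIcc_of_le zero_le_one] at hs
    have h1 := strip_convex ha hb (a := 1 - s) (b := s) (by linarith [hs.2]) hs.1 (by ring)
    have h2 : (1 - s) • a + s • b = a + (s : ℂ) * (b - a) := by
      rw [Complex.real_smul, Complex.real_smul]
      push_cast
      ring
    rwa [h2] at h1
  have hd : ∀ s ∈ Set.uIcc (0 : ℝ) 1, HasDerivAt (fun s : ℝ => RR t z (a + (s : ℂ) * (b - a)))
      (-gg t z (a + (s : ℂ) * (b - a)) * (b - a)) s := by
    intro s hs
    have h1 := ray_deriv t z (a + (s : ℂ) * (b - a)) (hmem s hs)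
    have h2 : HasDerivAt (fun w : ℂ => a + w * (b - a)) (b - a) (s : ℂ) := by
      have := ((hasDerivAt_id (s : ℂ)).mul_const (b - a)).const_add a
      simpa using this
    exact (h1.comp (s : ℂ) h2).comp_ofReal
  have hc : ContinuousOn (fun s : ℝ => -gg t z (a + (s : ℂ) * (b - a)) * (b - a)) (Set.uIcc (0 : ℝ) 1) := by
    refine ContinuousOn.mul (ContinuousOn.neg ?_) continuousOn_const
    exact (gg_diff t z).continuousOn.comp
      (by fun_prop : Continuous (fun s : ℝ => a + (s : ℂ) * (b - a))).continuousOn hmem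
  have h := intervalIntegral.integral_eq_sub_of_hasDerivAt hd hc.intervalIntegrable
  have h1 : ∫ s in (0 : ℝ)..1, -gg t z (a + (s : ℂ) * (b - a)) * (b - a) = -SG t z a b := by
    unfold SG
    rw [intervalIntegral.integral_mul_const, intervalIntegral.integral_neg]
    ring
  rw [h1] at h
  simp only [Complex.ofReal_one, one_mul, Complex.ofReal_zero, zero_mul, add_zero, add_sub_cancel] at h
  linear_combination h

private theorem ContR2_quarter : (I / 4 : ℂ) ∈ strip := by
  have h : (I / 4 : ℂ).im = 1 / 4 := by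
    simp
  change |(I / 4 : ℂ).im| < Real.pi / 8
  rw [h, abs_of_pos (by norm_num)]
  have := Real.pi_gt_three
  linarith

private theorem ContR2_zero : (0 : ℂ) ∈ strip := by
  change |(0 : ℂ).im| < Real.pi / 8
  simp [Real.pi_pos]

/-- a differentiation lemma for integrals over intervals -/
private theorem ContR2_par (a b : ℝ) (G w : ℝ → ℂ) (hG : ContinuousOn G (uIcc a b))
    (hw : ContinuousOn w (uIcc a b)) :
    Differentiable ℂ (fun z : ℂ => ∫ s in a..b, G s * cexp (z * w s)) := by
  intro z0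
  obtain ⟨M, hM⟩ := isCompact_uIcc.exists_bound_of_continuousOn hG
  obtain ⟨L, hL⟩ := isCompact_uIcc.exists_bound_of_continuousOn hw
  have hsub : uIoc a b ⊆ uIcc a b := uIoc_subset_uIcc
  have hcF : ∀ z : ℂ, ContinuousOn (fun s => G s * cexp (z * w s)) (uIcc a b) := by
    intro z
    exact hG.mul (Complex.continuous_exp.comp_continuousOn (continuousOn_const.mul hw))
  have hcF' : ContinuousOn (fun s => G s * (cexp (z0 * w s) * w s)) (uIcc a b) := by
    exact hG.mul ((Complex.continuous_exp.comp_continuousOn (continuousOn_const.mul hw)).mul hw)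
  have key := intervalIntegral.hasDerivAt_integral_of_dominated_loc_of_deriv_le
    (μ := volume) (a := a) (b := b)
    (F := fun (z : ℂ) (s : ℝ) => G s * cexp (z * w s))
    (F' := fun (z : ℂ) (s : ℝ) => G s * (cexp (z * w s) * w s)) (x₀ := z0) (s := ball z0 1)
    (bound := fun _ => M * (Real.exp ((‖z0‖ + 1) * L) * L)) (ball_mem_nhds z0 one_pos)
    (Eventually.of_forall fun z => ((hcF z).mono hsub).aestronglyMeasurable measurableSet_uIoc)
    ((hcF z0).intervalIntegrable)
    ((hcF'.mono hsub).aestronglyMeasurable measurableSet_uIoc)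
    (Eventually.of_forall fun s hs z hz => by
      have h1 := hM s (hsub hs)
      have h2 := hL s (hsub hs)
      have hM0 : 0 ≤ M := (norm_nonneg _).trans h1
      have hL0 : 0 ≤ L := (norm_nonneg _).trans h2
      have hz' : ‖z‖ ≤ ‖z0‖ + 1 := by
        have h3 : ‖z - z0‖ < 1 := by simpa [dist_eq_norm] using hz
        have h4 : ‖z‖ ≤ ‖z - z0‖ + ‖z0‖ := by
          calc ‖z‖ = ‖(z - z0) + z0‖ := by rw [sub_add_cancel]
            _ ≤ _ := norm_add_le _ _
        linarith
      have h5 : ‖cexp (z * w s)‖ ≤ Real.exp ((‖z0‖ + 1) * L) := by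
        rw [Complex.norm_exp]
        apply Real.exp_le_exp.mpr
        calc (z * w s).re ≤ ‖z * w s‖ := Complex.re_le_norm _
          _ = ‖z‖ * ‖w s‖ := norm_mul _ _
          _ ≤ (‖z0‖ + 1) * L := mul_le_mul hz' h2 (norm_nonneg _) (by positivity)
      rw [norm_mul, norm_mul]
      exact mul_le_mul h1 (mul_le_mul h5 h2 (norm_nonneg _) (Real.exp_pos _).le)
        (by positivity) hM0)
    (continuous_const.intervalIntegrable _ _)
    (Eventually.of_forall fun s _ z _ => by
      have h1 : HasDerivAt (fun z : ℂ => z * w s) (w s) z := by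
        simpa using (hasDerivAt_id z).mul_const (w s)
      exact (h1.cexp).const_mul (G s))
  exact key.2.differentiableAt

theorem HH_split (t z : ℂ) : HH t z = 1 / 2 * RR t z (I / 4) + 1 / 2 * RR t (-z) (I / 4) + BB t z := by
  have h0 := ContR2_zero
  have h4 := ContR2_quarter
  have i1 := ray_int t z 0 h0
  have i2 := ray_int t (-z) 0 h0
  have e1 : HH t z = 1 / 2 * RR t z 0 + 1 / 2 * RR t (-z) 0 := by
    unfold HH RR
    rw [← MeasureTheory.integral_const_mul, ← MeasureTheory.integral_const_mul,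
      ← MeasureTheory.integral_add (i1.const_mul _) (i2.const_mul _)]
    refine integral_congr_ae (Eventually.of_forall fun x => ?_)
    change cexp (t * (x : ℂ) ^ 2) * Ph x * Complex.cos (z * x) =
      1 / 2 * gg t z (0 + x) + 1 / 2 * gg t (-z) (0 + x)
    unfold gg
    rw [zero_add, Complex.cos]
    have e2 : z * (x : ℂ) * I = I * z * x := by ring
    have e3 : -(z * (x : ℂ)) * I = I * -z * x := by ring
    rw [e2, e3]
    ring
  have s1 := ray_shift t z 0 (I / 4) h0 h4
  have s2 := ray_shift t (-z) 0 (I / 4) h0 h4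
  set F : ℝ → ℂ := fun y => cexp (-(t * (y : ℂ) ^ 2)) * Ph (I * y) * cexp (-(z * y)) with hF
  have hcF : ContinuousOn F (Icc (-(1 / 4)) (1 / 4)) := by
    have hP : ContinuousOn (fun y : ℝ => Ph (I * y)) (Icc (-(1 / 4)) (1 / 4)) := by
      refine Ph_diff.continuousOn.comp (by fun_prop) ?_
      intro y hy
      have him : (I * (y : ℂ)).im = y := by simp
      change |(I * (y : ℂ)).im| < Real.pi / 8
      rw [him, abs_lt]
      have := Real.pi_gt_three
      constructor
      · linarith [hy.1]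
      · linarith [hy.2]
    have hA : Continuous (fun y : ℝ => cexp (-(t * (y : ℂ) ^ 2))) := by fun_prop
    have hB : Continuous (fun y : ℝ => cexp (-(z * (y : ℂ)))) := by fun_prop
    exact (hA.continuousOn.mul hP).mul hB.continuousOn
  have i3 : IntervalIntegrable F volume (-(1 / 4)) 0 := by
    apply ContinuousOn.intervalIntegrable
    rw [uIcc_of_le (by norm_num)]
    exact hcF.mono (Icc_subset_Icc le_rfl (by norm_num))
  have i4 : IntervalIntegrable F volume 0 (1 / 4) := by
    apply ContinuousOn.intervalIntegrable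
    rw [uIcc_of_le (by norm_num)]
    exact hcF.mono (Icc_subset_Icc (by norm_num) le_rfl)
  have g1 : SG t z 0 (I / 4) = I * ∫ y in (0 : ℝ)..(1 / 4), F y := by
    unfold SG
    have e4 : (∫ s in (0 : ℝ)..1, gg t z (0 + s * (I / 4 - 0))) = ∫ s in (0 : ℝ)..1, F (s / 4) := by
      refine intervalIntegral.integral_congr fun s _ => ?_
      change gg t z (0 + s * (I / 4 - 0)) = F (s / 4)
      rw [hF]
      unfold gg
      change _ = cexp (-(t * ((s / 4 : ℝ) : ℂ) ^ 2)) * Ph (I * ((s / 4 : ℝ) : ℂ)) * cexp (-(z * ((s / 4 : ℝ) : ℂ)))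
      push_cast
      have e5 : (0 : ℂ) + s * (I / 4 - 0) = I * (s / 4) := by ring
      rw [e5]
      have e6 : t * (I * ((s : ℂ) / 4)) ^ 2 = -(t * ((s : ℂ) / 4) ^ 2) := by
        rw [mul_pow, Complex.I_sq]; ring
      have e7 : I * z * (I * ((s : ℂ) / 4)) = -(z * ((s : ℂ) / 4)) := by
        have : I * z * (I * ((s : ℂ) / 4)) = (I * I) * (z * ((s : ℂ) / 4)) := by ring
        rw [this, Complex.I_mul_I]; ring
      rw [e6, e7]
    rw [e4, intervalIntegral.integral_comp_div (f := F) (by norm_num : (4 : ℝ) ≠ 0)]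
    rw [zero_div, Complex.real_smul]
    push_cast
    ring
  have g2 : SG t (-z) 0 (I / 4) = I * ∫ y in (-(1 / 4) : ℝ)..0, F y := by
    unfold SG
    have e4 : (∫ s in (0 : ℝ)..1, gg t (-z) (0 + s * (I / 4 - 0))) =
        ∫ s in (0 : ℝ)..1, (fun y => F (-y)) (s / 4) := by
      refine intervalIntegral.integral_congr fun s hs => ?_
      rw [uIcc_of_le (by norm_num)] at hs
      change gg t (-z) (0 + s * (I / 4 - 0)) = F (-(s / 4))
      rw [hF]
      unfold gg
      change _ = cexp (-(t * ((-(s / 4) : ℝ) : ℂ) ^ 2)) * Ph (I * ((-(s / 4) : ℝ) : ℂ)) *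
        cexp (-(z * ((-(s / 4) : ℝ) : ℂ)))
      push_cast
      have e5 : (0 : ℂ) + s * (I / 4 - 0) = I * (s / 4) := by ring
      rw [e5]
      have e6 : t * (I * ((s : ℂ) / 4)) ^ 2 = -(t * (-((s : ℂ) / 4)) ^ 2) := by
        rw [mul_pow, Complex.I_sq]; ring
      have e7 : I * -z * (I * ((s : ℂ) / 4)) = -(z * (-((s : ℂ) / 4))) := by
        have : I * -z * (I * ((s : ℂ) / 4)) = (I * I) * (z * (-((s : ℂ) / 4))) := by ring
        rw [this, Complex.I_mul_I]; ring
      have e8 : I * (-((s : ℂ) / 4)) = -(I * ((s : ℂ) / 4)) := by ring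
      have hst : I * ((s : ℂ) / 4) ∈ strip := by
        have him : (I * ((s : ℂ) / 4)).im = s / 4 := by
          have : I * ((s : ℂ) / 4) = ((s / 4 : ℝ) : ℂ) * I := by push_cast; ring
          rw [this]
          simp
        change |(I * ((s : ℂ) / 4)).im| < Real.pi / 8
        rw [him, abs_lt]
        have := Real.pi_gt_three
        constructor
        · linarith [hs.1]
        · linarith [hs.2]
      rw [e6, e7, e8, Ph_even _ hst]
    rw [e4, intervalIntegral.integral_comp_div (f := fun y => F (-y)) (by norm_num : (4 : ℝ) ≠ 0)]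
    rw [intervalIntegral.integral_comp_neg (f := F)]
    rw [zero_div, neg_zero, Complex.real_smul]
    push_cast
    ring
  have g3 : BB t z = I / 2 * ((∫ y in (-(1 / 4) : ℝ)..0, F y) + ∫ y in (0 : ℝ)..(1 / 4), F y) := by
    rw [intervalIntegral.integral_add_adjacent_intervals i3 i4]
    rfl
  rw [e1, s1, s2, g1, g2, g3]
  ring

theorem RR_diff_z (t a : ℂ) (ha : a ∈ strip) : Differentiable ℂ (fun z => RR t z a) := by
  intro z0
  have hcos : 0 < Real.cos (4 * a.im) := by
    have h1 : |a.im| < Real.pi / 8 := ha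
    rw [abs_lt] at h1
    apply Real.cos_pos_of_mem_Ioo
    constructor
    · linarith [h1.1]
    · linarith [h1.2]
  obtain ⟨C, hC, hb⟩ := gg_bound (Real.cos (4 * a.im)) (‖t‖ + ‖z0‖ + 1) hcos
  have hmem : ∀ x : ℝ, a + x ∈ strip := by
    intro x
    have him : (a + (x : ℂ)).im = a.im := by simp
    change |(a + (x : ℂ)).im| < Real.pi / 8
    rw [him]
    exact ha
  have hcm : ∀ x : ℝ, Real.cos (4 * a.im) ≤ Real.cos (4 * (a + (x : ℂ)).im) := by
    intro x
    have him : (a + (x : ℂ)).im = a.im := by simp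
    rw [him]
  have hmeas : ∀ z : ℂ, AEStronglyMeasurable (fun x : ℝ => gg t z (a + x)) (volume.restrict (Ioi 0)) :=
    fun z => (ray_int t z a ha).aestronglyMeasurable
  have key := hasDerivAt_integral_of_dominated_loc_of_deriv_le
    (μ := volume.restrict (Ioi (0 : ℝ)))
    (F := fun (z : ℂ) (x : ℝ) => gg t z (a + x))
    (F' := fun (z : ℂ) (x : ℝ) => I * (a + x) * gg t z (a + x)) (x₀ := z0) (s := ball z0 1)
    (bound := fun x => (‖a‖ + 2) * (C * Real.exp |a.re|) * Real.exp (-(1 / 2) * x))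
    (ball_mem_nhds z0 one_pos)
    (Eventually.of_forall hmeas)
    (ray_int t z0 a ha)
    (AEStronglyMeasurable.mul (by
      have : Continuous (fun x : ℝ => I * (a + (x : ℂ))) := by fun_prop
      exact this.aestronglyMeasurable) (hmeas z0))
    ((ae_restrict_iff' measurableSet_Ioi).mpr (Eventually.of_forall fun x hx z hz => by
      have hx0 : 0 < x := hx
      have hz' : ‖z‖ ≤ ‖t‖ + ‖z0‖ + 1 := by
        have h3 : ‖z - z0‖ < 1 := by simpa [dist_eq_norm] using hz
        have h4 : ‖z‖ ≤ ‖z - z0‖ + ‖z0‖ := by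
          calc ‖z‖ = ‖(z - z0) + z0‖ := by rw [sub_add_cancel]
            _ ≤ _ := norm_add_le _ _
        linarith [norm_nonneg t]
      have ht' : ‖t‖ ≤ ‖t‖ + ‖z0‖ + 1 := by linarith [norm_nonneg z0]
      have h5 := hb t z (a + x) ht' hz' (hmem x) (hcm x)
      have hre : (a + (x : ℂ)).re = a.re + x := by simp
      rw [hre] at h5
      have h6 : Real.exp (-|a.re + x|) ≤ Real.exp |a.re| * Real.exp (-x) := by
        rw [← Real.exp_add]
        apply Real.exp_le_exp.mpr
        have h7 : x - |a.re| ≤ |a.re + x| := by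
          have h8 := neg_abs_le a.re
          have h9 := le_abs_self (a.re + x)
          linarith
        linarith
      have h10 : ‖gg t z (a + x)‖ ≤ C * Real.exp |a.re| * Real.exp (-x) := by
        calc ‖gg t z (a + x)‖ ≤ C * Real.exp (-|a.re + x|) := h5
          _ ≤ C * (Real.exp |a.re| * Real.exp (-x)) := mul_le_mul_of_nonneg_left h6 hC.le
          _ = _ := by ring
      have h11 : ‖I * (a + (x : ℂ))‖ ≤ ‖a‖ + x := by
        rw [norm_mul, Complex.norm_I, one_mul]
        calc ‖a + (x : ℂ)‖ ≤ ‖a‖ + ‖(x : ℂ)‖ := norm_add_le _ _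
          _ = ‖a‖ + x := by rw [Complex.norm_real, Real.norm_of_nonneg hx0.le]
      have h12 : (‖a‖ + x) * Real.exp (-x) ≤ (‖a‖ + 2) * Real.exp (-(1 / 2) * x) := by
        have h13 : Real.exp (-x) = Real.exp (-(1 / 2) * x) * Real.exp (-(1 / 2) * x) := by
          rw [← Real.exp_add]; congr 1; ring
        have h14 : (‖a‖ + x) * Real.exp (-(1 / 2) * x) ≤ ‖a‖ + 2 := by
          have h15 : 1 + (1 / 2) * x ≤ Real.exp ((1 / 2) * x) := by
            have := Real.add_one_le_exp ((1 / 2) * x)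
            linarith
          have h16 : ‖a‖ + x ≤ (‖a‖ + 2) * Real.exp ((1 / 2) * x) := by
            have h17 : (‖a‖ + 2) * (1 + (1 / 2) * x) ≤ (‖a‖ + 2) * Real.exp ((1 / 2) * x) :=
              mul_le_mul_of_nonneg_left h15 (by positivity)
            have h18 : 0 ≤ ‖a‖ * x := by positivity
            nlinarith
          have h19 : Real.exp (-(1 / 2) * x) = (Real.exp ((1 / 2) * x))⁻¹ := by
            rw [← Real.exp_neg]; congr 1; ring
          rw [h19, ← div_eq_mul_inv, div_le_iff₀ (Real.exp_pos _)]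
          exact h16
        rw [h13, ← mul_assoc]
        exact mul_le_mul_of_nonneg_right h14 (Real.exp_pos _).le
      rw [norm_mul]
      calc ‖I * (a + (x : ℂ))‖ * ‖gg t z (a + x)‖
          ≤ (‖a‖ + x) * (C * Real.exp |a.re| * Real.exp (-x)) :=
            mul_le_mul h11 h10 (norm_nonneg _) (by positivity)
        _ = (C * Real.exp |a.re|) * ((‖a‖ + x) * Real.exp (-x)) := by ring
        _ ≤ (C * Real.exp |a.re|) * ((‖a‖ + 2) * Real.exp (-(1 / 2) * x)) :=
            mul_le_mul_of_nonneg_left h12 (by positivity)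
        _ = _ := by ring))
    ((exp_neg_integrableOn_Ioi 0 (by norm_num : (0 : ℝ) < 1 / 2)).const_mul _)
    (Eventually.of_forall fun x z _ => by
      have h1 : HasDerivAt (fun z : ℂ => I * z * (a + (x : ℂ))) (I * (a + x)) z := by
        have h2 := ((hasDerivAt_id z).const_mul I).mul_const (a + (x : ℂ))
        simpa using h2
      have h3 := (h1.cexp).const_mul (cexp (t * (a + (x : ℂ)) ^ 2) * Ph (a + x))
      have h4 : I * (a + (x : ℂ)) * gg t z (a + x) =
          cexp (t * (a + (x : ℂ)) ^ 2) * Ph (a + x) * (cexp (I * z * (a + x)) * (I * (a + x))) := by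
        unfold gg
        ring
      rw [h4]
      exact h3)
  exact key.2.differentiableAt

theorem SG_diff_z (t a b : ℂ) (ha : a ∈ strip) (hb : b ∈ strip) : Differentiable ℂ (fun z => SG t z a b) := by
  have hmem : ∀ s ∈ uIcc (0 : ℝ) 1, a + s * (b - a) ∈ strip := by
    intro s hs
    rw [uIcc_of_le zero_le_one] at hs
    have h1 := strip_convex ha hb (sub_nonneg.mpr hs.2) hs.1 (by ring)
    have h2 : (1 - s) • a + s • b = a + s * (b - a) := by
      rw [Complex.real_smul, Complex.real_smul]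
      push_cast
      ring
    rw [h2] at h1
    exact h1
  have hu : Continuous (fun s : ℝ => a + s * (b - a)) := by fun_prop
  have hP : ContinuousOn (fun s : ℝ => Ph (a + s * (b - a))) (uIcc 0 1) :=
    Ph_diff.continuousOn.comp hu.continuousOn hmem
  have hG : ContinuousOn (fun s : ℝ => cexp (t * (a + s * (b - a)) ^ 2) * Ph (a + s * (b - a))) (uIcc 0 1) := by
    have hA : Continuous (fun s : ℝ => cexp (t * (a + s * (b - a)) ^ 2)) := by fun_prop
    exact hA.continuousOn.mul hP
  have hw : ContinuousOn (fun s : ℝ => I * (a + s * (b - a))) (uIcc 0 1) := by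
    have : Continuous (fun s : ℝ => I * (a + s * (b - a))) := by fun_prop
    exact this.continuousOn
  have key := ContR2_par 0 1 _ _ hG hw
  have e : (fun z => SG t z a b) = fun z => (b - a) * ∫ s in (0 : ℝ)..1,
      (cexp (t * (a + s * (b - a)) ^ 2) * Ph (a + s * (b - a))) * cexp (z * (I * (a + s * (b - a)))) := by
    funext z
    unfold SG gg
    congr 1
    refine intervalIntegral.integral_congr fun s _ => ?_
    change cexp (t * (a + s * (b - a)) ^ 2) * Ph (a + s * (b - a)) * cexp (I * z * (a + s * (b - a))) =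
      (cexp (t * (a + s * (b - a)) ^ 2) * Ph (a + s * (b - a))) * cexp (z * (I * (a + s * (b - a))))
    congr 2
    ring
  rw [e]
  exact key.const_mul (b - a)

theorem BB_diff_z (t : ℂ) : Differentiable ℂ (BB t) := by
  have hP : ContinuousOn (fun y : ℝ => Ph (I * y)) (uIcc (-(1 / 4)) (1 / 4)) := by
    refine Ph_diff.continuousOn.comp (by fun_prop) ?_
    intro y hy
    rw [uIcc_of_le (by norm_num)] at hy
    have him : (I * (y : ℂ)).im = y := by simp
    change |(I * (y : ℂ)).im| < Real.pi / 8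
    rw [him, abs_lt]
    have := Real.pi_gt_three
    constructor
    · linarith [hy.1]
    · linarith [hy.2]
  have hG : ContinuousOn (fun y : ℝ => cexp (-(t * (y : ℂ) ^ 2)) * Ph (I * y)) (uIcc (-(1 / 4)) (1 / 4)) := by
    have hA : Continuous (fun y : ℝ => cexp (-(t * (y : ℂ) ^ 2))) := by fun_prop
    exact hA.continuousOn.mul hP
  have hw : ContinuousOn (fun y : ℝ => -(y : ℂ)) (uIcc (-(1 / 4)) (1 / 4)) := by
    have : Continuous (fun y : ℝ => -(y : ℂ)) := by fun_prop
    exact this.continuousOn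
  have key := ContR2_par (-(1 / 4)) (1 / 4) _ _ hG hw
  have e : BB t = fun z => I / 2 * ∫ y in (-(1 / 4) : ℝ)..(1 / 4),
      (cexp (-(t * (y : ℂ) ^ 2)) * Ph (I * y)) * cexp (z * -(y : ℂ)) := by
    funext z
    unfold BB
    congr 1
    refine intervalIntegral.integral_congr fun y _ => ?_
    change cexp (-(t * (y : ℂ) ^ 2)) * Ph (I * y) * cexp (-(z * y)) =
      (cexp (-(t * (y : ℂ) ^ 2)) * Ph (I * y)) * cexp (z * -(y : ℂ))
    congr 2
    ring
  rw [e]
  exact key.const_mul (I / 2)

end Pool.Agent.Lib.MP_ec260d_ntC
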