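import Mathlib
import Pool.Agent.Lib.MP_ec260d_ntC.DefsW
import Pool.Agent.Lib.MP_ec260d_ntC.PhiB

/-!
# JOB RegP: elementary facts about the region (about 250 lines)

Write `p = v + i η`, `N = EE p = π e^{4v}`, `0 ≤ η < π/8`, so `0 ≤ 4η < π/2`.  `Re SS p = N (cos 4η (2v - 1) - 2 η sin 4η)` (`reg_SS`).  `‖WW p‖ = (‖Ph 0‖/π²) exp ((log ‖p‖)/2 - 9v - Re SS p)` (`reg_WW`; `Re (log p) = log ‖p‖`, `p ≠ 0`), `‖Ph 0‖ > 0` (`Ph_pos 0`).
`reg_all`: let `v ≥ V` with `V` large, `‖WW p‖ ≤ 20`.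
(1) `Re SS p = (log ‖p‖)/2 - 9v + log (‖Ph 0‖/π²) - log ‖WW p‖ ≥ -9v + log (‖Ph 0‖/π²) - log 20 ≥ -10 v` (`‖p‖ ≥ 1`).
(2) `0.38/v ≤ cos 4η`: suppose `cos 4η < 0.38/v` (`v ≥ 100`).  With `δ = π/2 - 4η ∈ (0, π/2]`: `sin δ = cos 4η`, `δ ≤ (π/2) sin δ ≤ 0.6/v`, `sin 4η = cos δ ≥ 1 - δ²/2 ≥ 0.999`, `2η = π/4 - δ/2 ≥ 0.785 - 0.003`, so `2 η sin 4η ≥ 0.78` and `Re SS p < N (0.76 - 0.78) = -0.02 N`, contradicting (1) for large `v`.
(3) `Y = η + ρ sin 2η`, `ρ = rr p = 1/(20v)`: `cos 4Y = cos (4η + 4ρ sin 2η) ≥ cos 4η - 4ρ sin 2η ≥ 0.38/v - 0.2 * 0.7072/v ≥ 0.23/v` (`cos` is 1-Lipschitz; `sin 2η ≤ sin (π/4) = √2/2`).  `Y < π/8`: `4Y ≤ 4η + 0.15/v` and `π/2 - 4η ≥ sin (π/2 - 4η) = cos 4η ≥ 0.38/v`.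
(4) `t = tp p = 2 N e^{4iη}/p`: `Re t = 2N (v cos 4η + η sin 4η)/‖p‖²`.  `‖p‖² ≤ v² + 1 ≤ 1.01 v²`.  If `η ≥ 1/4` then `sin 4η ≥ sin 1 ≥ 0.84` and `v cos 4η + η sin 4η ≥ 0.38 + 0.21`; if `η < 1/4` then `v cos 4η ≥ v cos 1 ≥ 0.5 v`.  So `Re t ≥ 0.7 N/v²`.
(5) if `η < 1/4`: `Re SS p ≥ N (0.54 (2v - 1) - 1/2) ≥ N v` for `v ≥ 20` (`cos 1 ≥ 0.54`).
`reg_mono`: for fixed `v ≥ 1`, `cos 4η` decreases and `η sin 4η` increases on `[0, π/8]`, so `Re SS` decreases, and `‖p‖` increases.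
`reg_strip`: the points are in the strip.
-/

namespace Pool.Agent.Lib.MP_ec260d_ntC

open Complex Set Filter Topology Metric MeasureTheory

theorem reg_SS (p : ℂ) : (SS p).re = EE p * (Real.cos (4 * p.im) * (2 * p.re - 1) - 2 * p.im * Real.sin (4 * p.im)) := by
  have h4 : cexp (4 * p) = ((Real.exp (4 * p.re) * Real.cos (4 * p.im) : ℝ) : ℂ) +
      ((Real.exp (4 * p.re) * Real.sin (4 * p.im) : ℝ) : ℂ) * I := by
    have e : (4 * p : ℂ) = ((4 * p.re : ℝ) : ℂ) + ((4 * p.im : ℝ) : ℂ) * I := by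
      apply Complex.ext
      · simp
      · simp
    rw [e, Complex.exp_add, Complex.exp_mul_I, ← Complex.ofReal_exp, ← Complex.ofReal_cos,
      ← Complex.ofReal_sin]
    push_cast
    ring
  have h2 : (2 * p - 1 : ℂ) = ((2 * p.re - 1 : ℝ) : ℂ) + ((2 * p.im : ℝ) : ℂ) * I := by
    apply Complex.ext
    · simp
    · simp
  have h5 : SS p = ((Real.pi * (Real.exp (4 * p.re) * Real.cos (4 * p.im)) * (2 * p.re - 1) -
      Real.pi * (Real.exp (4 * p.re) * Real.sin (4 * p.im)) * (2 * p.im) : ℝ) : ℂ) +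
      ((Real.pi * (Real.exp (4 * p.re) * Real.cos (4 * p.im)) * (2 * p.im) +
      Real.pi * (Real.exp (4 * p.re) * Real.sin (4 * p.im)) * (2 * p.re - 1) : ℝ) : ℂ) * I := by
    unfold SS
    rw [h4, h2]
    push_cast
    ring_nf
    rw [Complex.I_sq]
    ring
  rw [h5]
  simp only [Complex.add_re, Complex.mul_re, Complex.ofReal_re, Complex.ofReal_im, Complex.I_re,
    Complex.I_im]
  unfold EE
  ring

theorem reg_WW (p : ℂ) (hp : p ≠ 0) :
    ‖WW p‖ = ‖Ph 0‖ / Real.pi ^ 2 * Real.exp (Real.log ‖p‖ / 2 - 9 * p.re - (SS p).re) := by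
  have hpi : ‖(Real.pi : ℂ) ^ 2‖ = Real.pi ^ 2 := by
    rw [norm_pow, Complex.norm_real, Real.norm_of_nonneg Real.pi_pos.le]
  have hre : (Complex.log p / 2 - 9 * p - SS p).re = Real.log ‖p‖ / 2 - 9 * p.re - (SS p).re := by
    have e1 : (Complex.log p / 2).re = Real.log ‖p‖ / 2 := by
      have : (Complex.log p / 2 : ℂ) = Complex.log p / ((2 : ℝ) : ℂ) := by norm_num
      rw [this, Complex.div_ofReal_re, Complex.log_re]
    have e2 : (9 * p : ℂ).re = 9 * p.re := by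
      simp
    rw [Complex.sub_re, Complex.sub_re, e1, e2]
  unfold WW
  rw [norm_mul, norm_div, norm_mul, Complex.norm_I, one_mul, hpi, Complex.norm_exp, hre]

private theorem RegP2_cos_one : 51 / 100 ≤ Real.cos 1 := by
  have h := Real.cos_bound (x := 1 / 2) (by rw [abs_of_pos (by norm_num)]; norm_num)
  rw [abs_of_pos (by norm_num : (0 : ℝ) < 1 / 2)] at h
  have h1 := (abs_le.mp h).1
  have h2 : (0.871 : ℝ) ≤ Real.cos (1 / 2) := by
    norm_num at h1 ⊢
    linarith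
  have h3 : Real.cos 1 = 2 * Real.cos (1 / 2) ^ 2 - 1 := by
    have := Real.cos_two_mul (1 / 2)
    norm_num at this ⊢
    exact this
  rw [h3]
  nlinarith

private theorem RegP2_EE (v : ℝ) (hv : 100 ≤ v) : 2400 * v ≤ Real.pi * Real.exp (4 * v) := by
  have h1 : (4 * v) ^ 2 / 2 ≤ Real.exp (4 * v) := by
    have := Real.quadratic_le_exp_of_nonneg (by linarith : (0 : ℝ) ≤ 4 * v)
    nlinarith
  have h2 := Real.pi_gt_three
  nlinarith

/-- the lower bound for the real part of `SS` -/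
private theorem RegP2_one : ∃ V : ℝ, 100 ≤ V ∧ ∀ p ∈ Reg V, -(10 * p.re) ≤ (SS p).re := by
  have hP : 0 < ‖Ph 0‖ := by
    have h := (Ph_pos 0).1
    rw [Complex.ofReal_zero] at h
    rw [norm_pos_iff]
    intro h0
    rw [h0] at h
    simp at h
  set K : ℝ := ‖Ph 0‖ / Real.pi ^ 2 with hK
  have hKp : 0 < K := by
    rw [hK]
    positivity
  refine ⟨max 100 (Real.log (20 / K)), le_max_left _ _, ?_⟩
  intro p hp
  obtain ⟨h1, h2, h3, h4⟩ := hp
  have hv : 100 ≤ p.re := le_trans (le_max_left _ _) h1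
  have hv2 : Real.log (20 / K) ≤ p.re := le_trans (le_max_right _ _) h1
  have hp0 : p ≠ 0 := by
    intro h0
    rw [h0] at hv
    simp at hv
    linarith
  rw [reg_WW p hp0, ← hK] at h4
  have h5 : Real.exp (Real.log ‖p‖ / 2 - 9 * p.re - (SS p).re) ≤ 20 / K := by
    rw [le_div_iff₀ hKp]
    linarith [mul_comm K (Real.exp (Real.log ‖p‖ / 2 - 9 * p.re - (SS p).re))]
  have h6 : Real.log ‖p‖ / 2 - 9 * p.re - (SS p).re ≤ Real.log (20 / K) := by
    rw [← Real.log_exp (Real.log ‖p‖ / 2 - 9 * p.re - (SS p).re)]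
    exact Real.log_le_log (Real.exp_pos _) h5
  have h7 : 0 ≤ Real.log ‖p‖ := by
    apply Real.log_nonneg
    have := Complex.re_le_norm p
    linarith
  linarith

/-- the lower bound for the cosine -/
private theorem RegP2_two (v y c s : ℝ) (hv : 100 ≤ v) (h0 : 0 ≤ y) (h1 : y < Real.pi / 8)
    (hc : c = Real.cos (4 * y)) (hs : s = Real.sin (4 * y))
    (h : -(10 * v) ≤ Real.pi * Real.exp (4 * v) * (c * (2 * v - 1) - 2 * y * s)) :
    38 / 100 / v ≤ c := by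
  by_contra hcon
  push Not at hcon
  have hpi1 := Real.pi_gt_d2
  have hpi2 := Real.pi_lt_d2
  have hv0 : 0 < v := by linarith
  have hc0 : 0 < c := by
    rw [hc]
    apply Real.cos_pos_of_mem_Ioo
    constructor <;> linarith
  have hs0 : 0 ≤ s := by
    rw [hs]
    apply Real.sin_nonneg_of_nonneg_of_le_pi <;> linarith
  have hcv : c * v < 38 / 100 := by
    rwa [lt_div_iff₀ hv0] at hcon
  have hc1 : c < 0.0038 := by
    have : c * 100 ≤ c * v := by nlinarith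
    linarith
  have hcs : s ^ 2 + c ^ 2 = 1 := by
    rw [hc, hs]
    exact Real.sin_sq_add_cos_sq _
  have hs1 : s ≤ 1 := by
    rw [hs]
    exact Real.sin_le_one _
  have hs2 : 0.9999 ≤ s := by
    have h2 : s ^ 2 ≤ s := by nlinarith
    have h3 : c ^ 2 ≤ 0.0001 := by nlinarith
    linarith
  have hj : 2 / Real.pi * (Real.pi / 2 - 4 * y) ≤ Real.sin (Real.pi / 2 - 4 * y) := by
    apply Real.mul_le_sin <;> linarith
  rw [Real.sin_pi_div_two_sub, ← hc] at hj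
  have hj2 : Real.pi / 2 - 4 * y ≤ c * (Real.pi / 2) := by
    have h2 : 2 / Real.pi * (Real.pi / 2 - 4 * y) * (Real.pi / 2) ≤ c * (Real.pi / 2) := by
      apply mul_le_mul_of_nonneg_right hj
      linarith
    have h3 : 2 / Real.pi * (Real.pi / 2 - 4 * y) * (Real.pi / 2) = Real.pi / 2 - 4 * y := by
      field_simp
    linarith
  have hy : 0.391 ≤ y := by
    have : c * (Real.pi / 2) ≤ 0.006 := by nlinarith
    linarith
  have hys : 0.781 ≤ 2 * y * s := by nlinarith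
  have hE := RegP2_EE v hv
  have h5 : c * (2 * v - 1) - 2 * y * s ≤ -0.021 := by nlinarith
  have h6 : Real.pi * Real.exp (4 * v) * (c * (2 * v - 1) - 2 * y * s) ≤
      Real.pi * Real.exp (4 * v) * (-0.021) := by
    apply mul_le_mul_of_nonneg_left h5
    positivity
  nlinarith

private theorem RegP2_sin (y : ℝ) (h0 : 0 ≤ y) (h1 : y < Real.pi / 8) :
    0 ≤ Real.sin (2 * y) ∧ Real.sin (2 * y) ≤ 0.7072 := by
  have hpi1 := Real.pi_pos
  constructor
  · apply Real.sin_nonneg_of_nonneg_of_le_pi <;> linarith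
  · have h2 : Real.sin (2 * y) ≤ Real.sin (Real.pi / 4) := by
      apply Real.sin_le_sin_of_le_of_le_pi_div_two <;> linarith
    rw [Real.sin_pi_div_four] at h2
    have h3 : Real.sqrt 2 ≤ 1.4144 := by
      rw [show (1.4144 : ℝ) = Real.sqrt (1.4144 ^ 2) by
        rw [Real.sqrt_sq]; norm_num]
      apply Real.sqrt_le_sqrt
      norm_num
    linarith

private theorem RegP2_three (v y : ℝ) (hv : 100 ≤ v) (h0 : 0 ≤ y) (h1 : y < Real.pi / 8)
    (hc : 38 / 100 / v ≤ Real.cos (4 * y)) :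
    23 / 100 / v ≤ Real.cos (4 * (y + 1 / (20 * v) * Real.sin (2 * y))) ∧
    y + 1 / (20 * v) * Real.sin (2 * y) < Real.pi / 8 := by
  have hpi1 := Real.pi_pos
  have hv0 : 0 < v := by linarith
  obtain ⟨hs0, hs1⟩ := RegP2_sin y h0 h1
  have hr : 1 / (20 * v) * Real.sin (2 * y) = Real.sin (2 * y) / 20 / v := by
    field_simp
  have hr2 : Real.sin (2 * y) / 20 / v ≤ 0.03536 / v := by
    apply div_le_div_of_nonneg_right _ hv0.le
    linarith
  have hr0 : 0 ≤ Real.sin (2 * y) / 20 / v := by positivity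
  constructor
  · have h2 := Real.abs_cos_sub_cos_le (4 * y) (4 * (y + 1 / (20 * v) * Real.sin (2 * y)))
    rw [hr] at h2 ⊢
    have h2' : |4 * y - 4 * (y + Real.sin (2 * y) / 20 / v)| = 4 * (Real.sin (2 * y) / 20 / v) := by
      rw [show 4 * y - 4 * (y + Real.sin (2 * y) / 20 / v) = -(4 * (Real.sin (2 * y) / 20 / v)) by ring,
        abs_neg, abs_of_nonneg (by positivity)]
    rw [h2'] at h2
    have h3 := (abs_le.mp h2).2
    have h4 : 23 / 100 / v + 4 * (0.03536 / v) ≤ 38 / 100 / v := by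
      rw [show 23 / 100 / v + 4 * (0.03536 / v) = (23 / 100 + 4 * 0.03536) / v by ring]
      apply div_le_div_of_nonneg_right _ hv0.le
      norm_num
    linarith
  · rw [hr]
    have h2 : Real.cos (4 * y) ≤ Real.pi / 2 - 4 * y := by
      rw [← Real.sin_pi_div_two_sub]
      apply Real.sin_le
      linarith
    have h4 : 4 * (0.03536 / v) < 38 / 100 / v := by
      rw [show 4 * (0.03536 / v) = (4 * 0.03536) / v by ring]
      apply div_lt_div_of_pos_right _ hv0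
      norm_num
    linarith

private theorem RegP2_norm (p : ℂ) (hv : 100 ≤ p.re) (h0 : 0 ≤ p.im) (h1 : p.im < Real.pi / 8) :
    ‖p‖ ^ 2 = p.re ^ 2 + p.im ^ 2 ∧ p.re ≤ ‖p‖ ∧ ‖p‖ ≤ 2 * p.re := by
  have hpi2 := Real.pi_lt_d2
  refine ⟨?_, Complex.re_le_norm p, ?_⟩
  · rw [Complex.sq_norm, Complex.normSq_apply]
    ring
  · have h := Complex.norm_le_abs_re_add_abs_im p
    rw [abs_of_nonneg (by linarith : 0 ≤ p.re), abs_of_nonneg h0] at h
    linarith

private theorem RegP2_tp (p : ℂ) (hv : 100 ≤ p.re) :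
    (tp p).re = 2 * EE p * (p.re * Real.cos (4 * p.im) + p.im * Real.sin (4 * p.im)) / ‖p‖ ^ 2 := by
  have hp0 : 0 < ‖p‖ := by
    have := Complex.re_le_norm p
    linarith
  have h1 : (2 * (Real.pi : ℂ) * cexp (4 * p)).re = 2 * Real.pi * (Real.exp (4 * p.re) * Real.cos (4 * p.im)) := by
    rw [show (2 * (Real.pi : ℂ)) = ((2 * Real.pi : ℝ) : ℂ) by push_cast; ring, Complex.re_ofReal_mul,
      Complex.exp_re]
    simp
  have h2 : (2 * (Real.pi : ℂ) * cexp (4 * p)).im = 2 * Real.pi * (Real.exp (4 * p.re) * Real.sin (4 * p.im)) := by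
    rw [show (2 * (Real.pi : ℂ)) = ((2 * Real.pi : ℝ) : ℂ) by push_cast; ring, Complex.im_ofReal_mul,
      Complex.exp_im]
    simp
  unfold tp EE
  rw [Complex.div_re, h1, h2, Complex.sq_norm]
  have h3 : Complex.normSq p ≠ 0 := by
    rw [← Complex.sq_norm]
    positivity
  field_simp

private theorem RegP2_four (p : ℂ) (hv : 100 ≤ p.re) (h0 : 0 ≤ p.im) (h1 : p.im < Real.pi / 8)
    (hc : 38 / 100 / p.re ≤ Real.cos (4 * p.im)) :
    7 / 10 * EE p / p.re ^ 2 ≤ (tp p).re := by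
  have hpi2 := Real.pi_lt_d2
  have hpi0 := Real.pi_pos
  have hv0 : 0 < p.re := by linarith
  rw [RegP2_tp p hv]
  obtain ⟨hn, hn1, hn2⟩ := RegP2_norm p hv h0 h1
  have hE : 0 < EE p := by
    unfold EE
    positivity
  have hs0 : 0 ≤ Real.sin (4 * p.im) := by
    apply Real.sin_nonneg_of_nonneg_of_le_pi <;> linarith
  have hc2 : 38 / 100 ≤ p.re * Real.cos (4 * p.im) := by
    rw [div_le_iff₀ hv0] at hc
    linarith
  have h3 : 38 / 100 ≤ p.re * Real.cos (4 * p.im) + p.im * Real.sin (4 * p.im) := by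
    have := mul_nonneg h0 hs0
    linarith
  have hn3 : ‖p‖ ^ 2 ≤ 1.01 * p.re ^ 2 := by
    rw [hn]
    nlinarith
  have hn0 : 0 < ‖p‖ ^ 2 := by
    have : 0 < ‖p‖ := by linarith
    positivity
  rw [div_le_div_iff₀ (by positivity) hn0]
  have h4 : 7 / 10 * EE p * ‖p‖ ^ 2 ≤ 7 / 10 * EE p * (1.01 * p.re ^ 2) := by
    apply mul_le_mul_of_nonneg_left hn3
    positivity
  have h5 : 2 * EE p * (38 / 100) * p.re ^ 2 ≤
      2 * EE p * (p.re * Real.cos (4 * p.im) + p.im * Real.sin (4 * p.im)) * p.re ^ 2 := by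
    apply mul_le_mul_of_nonneg_right _ (by positivity)
    apply mul_le_mul_of_nonneg_left h3
    positivity
  have h6 : 0 ≤ EE p * p.re ^ 2 := by positivity
  nlinarith

private theorem RegP2_five (p : ℂ) (hv : 100 ≤ p.re) (h0 : 0 ≤ p.im) (h1 : p.im < 1 / 4) :
    EE p * p.re ≤ (SS p).re := by
  have hE : 0 < EE p := by
    unfold EE
    have := Real.pi_pos
    positivity
  rw [reg_SS]
  apply mul_le_mul_of_nonneg_left _ hE.le
  have hpi := Real.pi_gt_three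
  have hc : 51 / 100 ≤ Real.cos (4 * p.im) := by
    refine le_trans RegP2_cos_one ?_
    apply Real.cos_le_cos_of_nonneg_of_le_pi <;> linarith
  have hs := Real.sin_le_one (4 * p.im)
  have h2 : 2 * p.im * Real.sin (4 * p.im) ≤ 1 / 2 := by
    have h3 : 2 * p.im * Real.sin (4 * p.im) ≤ 2 * p.im * 1 := by
      apply mul_le_mul_of_nonneg_left hs
      linarith
    linarith
  have h3 : 51 / 100 * (2 * p.re - 1) ≤ Real.cos (4 * p.im) * (2 * p.re - 1) := by
    apply mul_le_mul_of_nonneg_right hc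
    linarith
  linarith

theorem reg_all : ∃ V : ℝ, 100 ≤ V ∧ ∀ p ∈ Reg V,
    -(10 * p.re) ≤ (SS p).re ∧
    38 / 100 / p.re ≤ Real.cos (4 * p.im) ∧
    23 / 100 / p.re ≤ Real.cos (4 * (p.im + rr p * Real.sin (2 * p.im))) ∧
    p.im + rr p * Real.sin (2 * p.im) < Real.pi / 8 ∧
    7 / 10 * EE p / p.re ^ 2 ≤ (tp p).re ∧
    (p.im < 1 / 4 → EE p * p.re ≤ (SS p).re) ∧
    p.re ≤ ‖p‖ ∧ ‖p‖ ≤ 2 * p.re := by
  obtain ⟨V, hV, hV1⟩ := RegP2_one
  refine ⟨V, hV, ?_⟩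
  intro p hp
  have h1 := hV1 p hp
  obtain ⟨hp1, hp2, hp3, hp4⟩ := hp
  have hv : 100 ≤ p.re := le_trans hV hp1
  have h2 : 38 / 100 / p.re ≤ Real.cos (4 * p.im) := by
    apply RegP2_two p.re p.im _ _ hv hp2 hp3 rfl rfl
    have h := h1
    rw [reg_SS] at h
    exact h
  obtain ⟨h3, h4⟩ := RegP2_three p.re p.im hv hp2 hp3 h2
  obtain ⟨_, h5, h6⟩ := RegP2_norm p hv hp2 hp3
  exact ⟨h1, h2, h3, h4, RegP2_four p hv hp2 hp3 h2, fun h => RegP2_five p hv hp2 h, h5, h6⟩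

/-- the modulus of `WW` increases along vertical lines -/
theorem reg_mono (v y y' : ℝ) (hv : 1 ≤ v) (h0 : 0 ≤ y) (h1 : y ≤ y') (h2 : y' ≤ Real.pi / 8) :
    ‖WW ((v : ℂ) + y * I)‖ ≤ ‖WW ((v : ℂ) + y' * I)‖ := by
  have hpi := Real.pi_pos
  have re1 : ∀ z : ℝ, ((v : ℂ) + z * I).re = v := by
    intro z
    simp
  have im1 : ∀ z : ℝ, ((v : ℂ) + z * I).im = z := by
    intro z
    simp
  have hne : ∀ z : ℝ, ((v : ℂ) + z * I) ≠ 0 := by
    intro z hz
    have h := congrArg Complex.re hz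
    rw [re1] at h
    simp at h
    linarith
  have hnorm : ‖(v : ℂ) + y * I‖ ≤ ‖(v : ℂ) + y' * I‖ := by
    rw [Complex.norm_add_mul_I, Complex.norm_add_mul_I]
    apply Real.sqrt_le_sqrt
    nlinarith
  have hpos : 0 < ‖(v : ℂ) + y * I‖ := norm_pos_iff.2 (hne y)
  have hlog := Real.log_le_log hpos hnorm
  have hcos : Real.cos (4 * y') ≤ Real.cos (4 * y) := by
    apply Real.cos_le_cos_of_nonneg_of_le_pi
    · linarith
    · linarith
    · linarith
  have hsin : Real.sin (4 * y) ≤ Real.sin (4 * y') := by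
    apply Real.sin_le_sin_of_le_of_le_pi_div_two
    · linarith
    · linarith
    · linarith
  have hsin0 : 0 ≤ Real.sin (4 * y) := by
    apply Real.sin_nonneg_of_nonneg_of_le_pi
    · linarith
    · linarith
  have hSS : (SS ((v : ℂ) + y' * I)).re ≤ (SS ((v : ℂ) + y * I)).re := by
    rw [reg_SS, reg_SS]
    unfold EE
    rw [re1, re1, im1, im1]
    apply mul_le_mul_of_nonneg_left _ (by positivity)
    have a1 : Real.cos (4 * y') * (2 * v - 1) ≤ Real.cos (4 * y) * (2 * v - 1) :=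
      mul_le_mul_of_nonneg_right hcos (by linarith)
    have a2 : 2 * y * Real.sin (4 * y) ≤ 2 * y' * Real.sin (4 * y') :=
      mul_le_mul (by linarith) hsin hsin0 (by linarith)
    linarith
  rw [reg_WW _ (hne y), reg_WW _ (hne y')]
  apply mul_le_mul_of_nonneg_left _ (by positivity)
  apply Real.exp_le_exp.2
  rw [re1, re1]
  linarith

theorem reg_sub {V V' : ℝ} (h : V ≤ V') : Reg V' ⊆ Reg V := by
  intro p hp
  exact ⟨h.trans hp.1, hp.2.1, hp.2.2.1, hp.2.2.2⟩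

end Pool.Agent.Lib.MP_ec260d_ntC
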