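import Mathlib
import Pool.Agent.Lib.MP_ec260d_ntC.DefsW
import Pool.Agent.Lib.MP_ec260d_ntC.ContR
import Pool.Agent.Lib.MP_ec260d_ntC.RegP

/-!
# JOB BBb: the contribution of the point 0 (about 300 lines)

`bb_asym`: `h_z(y) = Ph (I y) e^{-zy}` for real `|y| ≤ 1/4`, `‖z‖ ≤ 1`; `h_z` extends to an analytic function of `y` for `|y| < π/8` (`Ph_diff`: `I y` in the strip iff `|Re y| < π/8`), bounded by a constant `K` on `|y| ≤ 0.3` (`0.3 < π/8`), uniformly for `‖z‖ ≤ 1`.  Taylor (Cauchy estimates): `h_z(y) = h_z(0) + h_z'(0) y + h_z''(0) y²/2 + h_z'''(0) y³/6 + R`, `‖R‖ ≤ C y⁴` for real `|y| ≤ 1/4`.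
`h_z(0) = Ph 0`, `h_z''(0) = -Ph''(0) + z² Ph 0` (`Ph` even: `Ph'(0) = 0`).  Odd terms integrate to `0` over `[-1/4, 1/4]`.  For `Re t ≥ 1`: `∫_ℝ e^{-ty²} dy = (π/t)^{1/2}` (`integral_gaussian_complex`), `∫_ℝ y² e^{-ty²} dy = (1/2) √π t^{-3/2} = (π/t)^{1/2}/(2t)` (e.g. integrate by parts, or differentiate in `t`),
tails `|y| ≥ 1/4`: at most `e^{-Re t/32} ∫ (1 + y²) e^{-y²/2...} ≤ C (Re t)^(-5/2)`, and `∫ y⁴ e^{-y² Re t} ≤ C (Re t)^(-5/2)`.  With `c2 = -Ph''(0)`: `‖BB t z - (I/2) (π/t)^{1/2} (Ph 0 + (z² Ph 0 + c2)/(4t))‖ ≤ C (Re t)^(-5/2)`.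
`bb_norm`: `p ∈ Reg V`, `t = tp p`; `NN p * WW p = (I/2) Ph 0 (π/t)^{1/2}`: `(π/t)^{1/2} = exp ((log (π/t))/2)`, `log (π/t) = log p - log 2 - 4p` (the imaginary part of the right side is `arg p - 4η ∈ (-π, π)`, and `exp` of it is `p e^{-4p}/2 = π/t`), so `(π/t)^{1/2} = exp (log p/2 - 2p)/√2` and
`NN p * WW p = (π²/(2√2)) (I Ph 0/π²) exp (7p + SS p + log p/2 - 9p - SS p) = (I Ph 0/(2√2)) exp (log p/2 - 2p)`.
`bb_bound`: `bb p ζ = BB (tp p) (ζ/p)/(NN p * WW p)`, entire in `ζ` (`BB_diff_z`).  For `‖ζ‖ ≤ M + 2`, `v ≥ M + 2`: `‖ζ/p‖ ≤ 1`, `(ζ/p)²/(4t) = ζ²/(8 π e^{4p} p)`; `Re t ≥ 0.7 N/v²`, `‖t‖ ≤ 2N/v`, `‖(t/π)^{1/2}‖ ≤ C (N/v)^{1/2}`: `bb p ζ = 1 + β + ζ²/(8πe^{4p}p) + err`, `β = c2/(4 t Ph 0)`, `‖err‖ ≤ C (N/v)^{1/2} (v²/N)^{5/2} ≤ C v⁵/N²`.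
So `‖bb p ζ - 1‖ ≤ C v²/N ≤ C/v`, `‖bb p ζ - bb p ζ' - (ζ² - ζ'²)/(8πe^{4p}p)‖ ≤ C v⁵/N² ≤ C/(v² N)`, and by Cauchy's estimate (radius 1) `‖deriv (bb p) ζ‖ ≤ C v²/N ≤ C/(v sqrt N)`.  (`v^k ≤ C N^{1/4}` for all the needed `k`.)
-/

namespace Pool.Agent.Lib.MP_ec260d_ntC

open Complex Set Filter Topology Metric MeasureTheory

private theorem BBb1_poly : ∃ (a2 : ℂ) (K : ℝ), 0 ≤ K ∧ ∀ y : ℝ, |y| ≤ 1 / 4 →
    ‖Ph (I * y) - (Ph 0 + a2 * (y : ℂ) ^ 2)‖ ≤ K * y ^ 4 := by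
  set F : ℂ → ℂ := fun w => Ph (I * w) with hF
  have hstrip : ∀ w : ℂ, ‖w‖ ≤ 3 / 10 → I * w ∈ strip := by
    intro w hw
    show |(I * w).im| < Real.pi / 8
    have h1 : (I * w).im = w.re := by simp
    rw [h1]
    have h2 := Complex.abs_re_le_norm w
    have h3 := Real.pi_gt_three
    linarith
  have hFd : DifferentiableOn ℂ F (closedBall 0 ((3 / 10 : NNReal) : ℝ)) := by
    refine Ph_diff.comp (by fun_prop) fun w hw => hstrip w ?_
    rw [mem_closedBall_zero_iff] at hw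
    have e : ((3 / 10 : NNReal) : ℝ) = 3 / 10 := by norm_num
    rwa [e] at hw
  have hps := hFd.hasFPowerSeriesOnBall (by norm_num : (0 : NNReal) < 3 / 10)
  obtain ⟨a, ha, C, hC, hbd⟩ := hps.uniform_geometric_approx' (r' := 28 / 100) (by
    rw [ENNReal.coe_lt_coe, ← NNReal.coe_lt_coe]
    norm_num)
  set P := cauchyPowerSeries F 0 ((3 / 10 : NNReal) : ℝ) with hP
  have hS : ∀ w : ℂ, P.partialSum 4 w =
      P.coeff 0 + w * P.coeff 1 + w ^ 2 * P.coeff 2 + w ^ 3 * P.coeff 3 := by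
    intro w
    rw [FormalMultilinearSeries.partialSum]
    simp only [Finset.sum_range_succ, Finset.sum_range_zero,
      FormalMultilinearSeries.apply_eq_pow_smul_coeff, smul_eq_mul]
    ring
  have hr : (((28 / 100 : NNReal) : NNReal) : ℝ) = 28 / 100 := by norm_num
  set B : ℝ := C * (a / (28 / 100)) ^ 4 with hB
  have hB0 : 0 ≤ B := by
    have := ha.1
    positivity
  have hbd2 : ∀ y : ℝ, |y| ≤ 1 / 4 → ‖F y - P.partialSum 4 (y : ℂ)‖ ≤ B * y ^ 4 := by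
    intro y hy
    have h1 := hbd (y : ℂ) (by
      rw [mem_ball_zero_iff, Complex.norm_real, Real.norm_eq_abs, hr]
      linarith) 4
    rw [zero_add, hr, Complex.norm_real, Real.norm_eq_abs] at h1
    have e : C * (a * (|y| / (28 / 100))) ^ 4 = B * y ^ 4 := by
      have h4 : |y| ^ 4 = y ^ 4 := by
        have : |y| ^ 4 = (|y| ^ 2) ^ 2 := by ring
        rw [this, sq_abs]
        ring
      rw [hB, mul_pow, div_pow, h4, div_pow]
      ring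
    rwa [e] at h1
  have hc0 : P.coeff 0 = Ph 0 := by
    have h1 := hbd2 0 (by norm_num)
    rw [hS] at h1
    have h2 : F ((0 : ℝ) : ℂ) = Ph 0 := by
      rw [hF]
      simp
    rw [h2] at h1
    have h3 : ‖Ph 0 - P.coeff 0‖ ≤ 0 := by simpa using h1
    have h4 := norm_le_zero_iff.1 h3
    exact (sub_eq_zero.1 h4).symm
  refine ⟨P.coeff 2, B, hB0, fun y hy => ?_⟩
  have h1 := hbd2 y hy
  have h2 := hbd2 (-y) (by rwa [abs_neg])
  have he : F ((-y : ℝ) : ℂ) = F y := by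
    have h3 : I * ((-y : ℝ) : ℂ) = -(I * (y : ℂ)) := by
      push_cast
      ring
    show Ph (I * ((-y : ℝ) : ℂ)) = Ph (I * (y : ℂ))
    rw [h3]
    refine Ph_even _ (hstrip _ ?_)
    rw [Complex.norm_real, Real.norm_eq_abs]
    linarith
  rw [he] at h2
  have h4 : (-y) ^ 4 = y ^ 4 := by ring
  rw [h4] at h2
  have e4 : Ph (I * y) - (Ph 0 + P.coeff 2 * (y : ℂ) ^ 2) =
      (1 / 2 : ℂ) * ((F y - P.partialSum 4 (y : ℂ)) +
        (F y - P.partialSum 4 ((-y : ℝ) : ℂ))) := by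
    rw [hS, hS, hc0]
    show Ph (I * y) - (Ph 0 + P.coeff 2 * (y : ℂ) ^ 2) =
      (1 / 2 : ℂ) * ((Ph (I * y) - _) + (Ph (I * y) - _))
    push_cast
    ring
  rw [e4, norm_mul]
  have e5 : ‖(1 / 2 : ℂ)‖ = 1 / 2 := by norm_num
  rw [e5]
  have h5 := norm_add_le (F y - P.partialSum 4 (y : ℂ)) (F y - P.partialSum 4 ((-y : ℝ) : ℂ))
  linarith

private theorem BBb1_cosh (w : ℂ) (hw : ‖w‖ ≤ 1) :
    ‖(cexp w + cexp (-w)) / 2 - (1 + w ^ 2 / 2)‖ ≤ ‖w‖ ^ 4 := by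
  have h1 := Complex.exp_bound hw (n := 4) (by norm_num)
  have h2 := Complex.exp_bound (x := -w) (by rwa [norm_neg]) (n := 4) (by norm_num)
  rw [norm_neg] at h2
  have e1 : ∑ m ∈ Finset.range 4, w ^ m / (m.factorial : ℂ) = 1 + w + w ^ 2 / 2 + w ^ 3 / 6 := by
    simp only [Finset.sum_range_succ, Finset.sum_range_zero]
    norm_num [Nat.factorial]
  have e2 : ∑ m ∈ Finset.range 4, (-w) ^ m / (m.factorial : ℂ) =
      1 - w + w ^ 2 / 2 - w ^ 3 / 6 := by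
    simp only [Finset.sum_range_succ, Finset.sum_range_zero]
    norm_num [Nat.factorial]
    ring
  have e3 : (((4 : ℕ).succ : ℝ) * (((4 : ℕ).factorial : ℝ) * ((4 : ℕ) : ℝ))⁻¹) ≤ 1 := by
    norm_num [Nat.factorial]
  rw [e1] at h1
  rw [e2] at h2
  have h4 : 0 ≤ ‖w‖ ^ 4 := by positivity
  have h1' := h1.trans (mul_le_of_le_one_right h4 e3)
  have h2' := h2.trans (mul_le_of_le_one_right h4 e3)
  have e4 : (cexp w + cexp (-w)) / 2 - (1 + w ^ 2 / 2) =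
      (1 / 2 : ℂ) * ((cexp w - (1 + w + w ^ 2 / 2 + w ^ 3 / 6)) +
        (cexp (-w) - (1 - w + w ^ 2 / 2 - w ^ 3 / 6))) := by ring
  rw [e4, norm_mul]
  have e5 : ‖(1 / 2 : ℂ)‖ = 1 / 2 := by norm_num
  rw [e5]
  have h5 := norm_add_le (cexp w - (1 + w + w ^ 2 / 2 + w ^ 3 / 6))
    (cexp (-w) - (1 - w + w ^ 2 / 2 - w ^ 3 / 6))
  linarith

private theorem BBb1_int4 {b : ℝ} (hb : 0 < b) :
    Integrable (fun y : ℝ => y ^ 4 * Real.exp (-b * y ^ 2)) := by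
  have h := integrable_rpow_mul_exp_neg_mul_sq hb (s := ((4 : ℕ) : ℝ)) (by norm_num)
  simpa only [Real.rpow_natCast] using h

private theorem BBb1_int2 {b : ℝ} (hb : 0 < b) :
    Integrable (fun y : ℝ => y ^ 2 * Real.exp (-b * y ^ 2)) := by
  have h := integrable_rpow_mul_exp_neg_mul_sq hb (s := ((2 : ℕ) : ℝ)) (by norm_num)
  simpa only [Real.rpow_natCast] using h

private theorem BBb1_scale {b : ℝ} (hb : 0 < b) :
    ∫ y : ℝ, y ^ 4 * Real.exp (-b * y ^ 2) =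
      b ^ (-(5 / 2) : ℝ) * ∫ y : ℝ, y ^ 4 * Real.exp (-1 * y ^ 2) := by
  have hs : 0 < Real.sqrt b := Real.sqrt_pos.2 hb
  have h := Measure.integral_comp_mul_left (fun y : ℝ => y ^ 4 * Real.exp (-1 * y ^ 2)) (Real.sqrt b)
  have e : (fun x : ℝ => (Real.sqrt b * x) ^ 4 * Real.exp (-1 * (Real.sqrt b * x) ^ 2)) =
      fun x : ℝ => b ^ 2 * (x ^ 4 * Real.exp (-b * x ^ 2)) := by
    funext x
    have h2 : (Real.sqrt b * x) ^ 2 = b * x ^ 2 := by rw [mul_pow, Real.sq_sqrt hb.le]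
    have h4 : (Real.sqrt b * x) ^ 4 = b ^ 2 * x ^ 4 := by
      have : (Real.sqrt b * x) ^ 4 = ((Real.sqrt b * x) ^ 2) ^ 2 := by ring
      rw [this, h2]
      ring
    rw [h2, h4]
    ring_nf
  rw [e, integral_const_mul, abs_of_pos (inv_pos.2 hs), smul_eq_mul] at h
  have e2 : b ^ (-(5 / 2) : ℝ) = (b ^ 2)⁻¹ * (Real.sqrt b)⁻¹ := by
    have h1 : (-(5 / 2) : ℝ) = -((2 : ℕ) : ℝ) + -(1 / 2) := by norm_num
    rw [h1, Real.rpow_add hb, Real.rpow_neg hb.le, Real.rpow_neg hb.le, Real.rpow_natCast,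
      Real.sqrt_eq_rpow]
  have hb2 : b ^ 2 ≠ 0 := pow_ne_zero 2 hb.ne'
  rw [e2, mul_assoc, ← h, ← mul_assoc, inv_mul_cancel₀ hb2, one_mul]

private theorem BBb1_norm (t : ℂ) (y : ℝ) :
    ‖cexp (-t * (y : ℂ) ^ 2)‖ = Real.exp (-t.re * y ^ 2) := by
  rw [Complex.norm_exp]
  congr 1
  rw [← Complex.ofReal_pow, Complex.re_mul_ofReal, Complex.neg_re]

private theorem BBb1_cint2 {t : ℂ} (ht : 0 < t.re) :
    Integrable (fun y : ℝ => (y : ℂ) ^ 2 * cexp (-t * (y : ℂ) ^ 2)) := by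
  refine Integrable.mono' (BBb1_int2 ht) (by fun_prop) (Filter.Eventually.of_forall fun y => ?_)
  rw [norm_mul, BBb1_norm, norm_pow, Complex.norm_real, Real.norm_eq_abs, sq_abs]

private theorem BBb1_gauss {t : ℂ} (ht : 0 < t.re) :
    ∫ y : ℝ, (y : ℂ) ^ 2 * cexp (-t * (y : ℂ) ^ 2) =
      ((Real.pi : ℂ) / t) ^ (1 / 2 : ℂ) / (2 * t) := by
  have ht0 : t ≠ 0 := by
    rintro rfl
    simp at ht
  have hd : ∀ y : ℝ, HasDerivAt (fun y : ℝ => (y : ℂ) * cexp (-t * (y : ℂ) ^ 2))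
      (cexp (-t * (y : ℂ) ^ 2) - 2 * t * ((y : ℂ) ^ 2 * cexp (-t * (y : ℂ) ^ 2))) y := by
    intro y
    have h1 : HasDerivAt (fun w : ℂ => w * cexp (-t * w ^ 2))
        (cexp (-t * (y : ℂ) ^ 2) - 2 * t * ((y : ℂ) ^ 2 * cexp (-t * (y : ℂ) ^ 2))) (y : ℂ) := by
      have h2 : HasDerivAt (fun w : ℂ => -t * w ^ 2) (-t * (2 * (y : ℂ))) (y : ℂ) := by
        have h3 := (hasDerivAt_pow 2 (y : ℂ)).const_mul (-t)
        simpa using h3
      have h4 := (hasDerivAt_id (y : ℂ)).mul h2.cexp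
      refine h4.congr_deriv ?_
      simp only [id]
      ring
    exact h1.comp_ofReal
  have hi := integrable_cexp_neg_mul_sq ht
  have h0 := integral_eq_zero_of_hasDerivAt_of_integrable hd
    (hi.sub ((BBb1_cint2 ht).const_mul (2 * t))) (integrable_mul_cexp_neg_mul_sq ht)
  rw [integral_sub hi ((BBb1_cint2 ht).const_mul (2 * t)), integral_const_mul,
    integral_gaussian_complex ht] at h0
  have h2t : 2 * t ≠ 0 := mul_ne_zero two_ne_zero ht0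
  rw [eq_div_iff h2t]
  linear_combination -h0

private theorem BBb1_pt {A a2 z : ℂ} {K : ℝ} (hK : 0 ≤ K) (hz : ‖z‖ ≤ 1) {y : ℝ}
    (hy : |y| ≤ 1 / 4) {P : ℂ} (hP : ‖P - (A + a2 * (y : ℂ) ^ 2)‖ ≤ K * y ^ 4) :
    ‖P * ((cexp (z * y) + cexp (-(z * y))) / 2) -
        (A + (a2 + z ^ 2 * A / 2) * (y : ℂ) ^ 2)‖ ≤
      (3 * K + 300 * ‖A‖ + 18 * ‖a2‖) * y ^ 4 := by
  set w : ℂ := z * y with hw
  have hyn : ‖(y : ℂ)‖ = |y| := by rw [Complex.norm_real, Real.norm_eq_abs]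
  have hy1 : |y| ≤ 1 := by linarith
  have hwn : ‖w‖ ≤ |y| := by
    rw [hw, norm_mul, hyn]
    exact mul_le_of_le_one_left (abs_nonneg y) hz
  have hw1 : ‖w‖ ≤ 1 := hwn.trans hy1
  have h4 : |y| ^ 4 = y ^ 4 := by
    have : |y| ^ 4 = (|y| ^ 2) ^ 2 := by ring
    rw [this, sq_abs]
    ring
  have hy40 : 0 ≤ y ^ 4 := by positivity
  have hw4 : ‖w‖ ^ 4 ≤ y ^ 4 := by
    rw [← h4]
    exact pow_le_pow_left₀ (norm_nonneg _) hwn 4
  set c : ℂ := (cexp w + cexp (-w)) / 2 with hc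
  set e1 : ℂ := P - (A + a2 * (y : ℂ) ^ 2) with he1
  set e2 : ℂ := c - (1 + w ^ 2 / 2) with he2
  have hcosh : ‖e2‖ ≤ ‖w‖ ^ 4 := BBb1_cosh w hw1
  have he2n : ‖e2‖ ≤ y ^ 4 := hcosh.trans hw4
  have hy41 : y ^ 4 ≤ 1 := by
    rw [← h4]
    exact pow_le_one₀ (abs_nonneg _) hy1
  have hcn : ‖c‖ ≤ 3 := by
    have h1 : c = e2 + (1 + w ^ 2 / 2) := by rw [he2]; ring
    have h2 : ‖(1 + w ^ 2 / 2 : ℂ)‖ ≤ 1 + 1 / 2 := by
      refine (norm_add_le _ _).trans ?_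
      rw [norm_one, norm_div, norm_pow, Complex.norm_ofNat]
      have : ‖w‖ ^ 2 ≤ 1 := pow_le_one₀ (norm_nonneg _) hw1
      linarith
    rw [h1]
    have := norm_add_le e2 (1 + w ^ 2 / 2)
    linarith
  have hid : P * c - (A + (a2 + z ^ 2 * A / 2) * (y : ℂ) ^ 2) =
      e1 * c + (A + a2 * (y : ℂ) ^ 2) * e2 + a2 * z ^ 2 / 2 * (y : ℂ) ^ 4 := by
    rw [he1, he2, hw]
    ring
  rw [hid]
  have n1 : ‖e1 * c‖ ≤ (K * y ^ 4) * 3 := by
    rw [norm_mul]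
    exact mul_le_mul hP hcn (norm_nonneg _) (mul_nonneg hK hy40)
  have n2 : ‖(A + a2 * (y : ℂ) ^ 2) * e2‖ ≤ (‖A‖ + ‖a2‖) * y ^ 4 := by
    rw [norm_mul]
    refine mul_le_mul ?_ he2n (norm_nonneg _) (by positivity)
    refine (norm_add_le _ _).trans ?_
    rw [norm_mul, norm_pow, hyn]
    have : ‖a2‖ * |y| ^ 2 ≤ ‖a2‖ :=
      mul_le_of_le_one_right (norm_nonneg _) (pow_le_one₀ (abs_nonneg _) hy1)
    linarith
  have n3 : ‖a2 * z ^ 2 / 2 * (y : ℂ) ^ 4‖ ≤ ‖a2‖ * y ^ 4 := by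
    rw [norm_mul, norm_div, norm_mul, norm_pow, norm_pow, hyn, h4, Complex.norm_ofNat]
    refine mul_le_mul_of_nonneg_right ?_ hy40
    have : ‖a2‖ * ‖z‖ ^ 2 ≤ ‖a2‖ :=
      mul_le_of_le_one_right (norm_nonneg _) (pow_le_one₀ (norm_nonneg _) hz)
    have h0 := norm_nonneg a2
    linarith
  have s1 := norm_add_le (e1 * c + (A + a2 * (y : ℂ) ^ 2) * e2) (a2 * z ^ 2 / 2 * (y : ℂ) ^ 4)
  have s2 := norm_add_le (e1 * c) ((A + a2 * (y : ℂ) ^ 2) * e2)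
  have hA := mul_nonneg (norm_nonneg A) hy40
  have ha := mul_nonneg (norm_nonneg a2) hy40
  have e : (3 * K + 300 * ‖A‖ + 18 * ‖a2‖) * y ^ 4 =
      (K * y ^ 4) * 3 + (‖A‖ + ‖a2‖) * y ^ 4 + ‖a2‖ * y ^ 4 + 299 * (‖A‖ * y ^ 4) +
        16 * (‖a2‖ * y ^ 4) := by ring
  rw [e]
  linarith

private theorem BBb1_far {A a2 z : ℂ} {K : ℝ} (hK : 0 ≤ K) (hz : ‖z‖ ≤ 1) {y : ℝ}
    (hy : 1 / 16 ≤ y ^ 2) :
    ‖A + (a2 + z ^ 2 * A / 2) * (y : ℂ) ^ 2‖ ≤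
      (3 * K + 300 * ‖A‖ + 18 * ‖a2‖) * y ^ 4 := by
  have hyn : ‖(y : ℂ) ^ 2‖ = y ^ 2 := by
    rw [norm_pow, Complex.norm_real, Real.norm_eq_abs, sq_abs]
  have hz2 : ‖z‖ ^ 2 ≤ 1 := pow_le_one₀ (norm_nonneg _) hz
  have hB : ‖a2 + z ^ 2 * A / 2‖ ≤ ‖a2‖ + ‖A‖ := by
    refine (norm_add_le _ _).trans ?_
    rw [norm_div, norm_mul, norm_pow, Complex.norm_ofNat]
    have : ‖z‖ ^ 2 * ‖A‖ ≤ ‖A‖ := mul_le_of_le_one_left (norm_nonneg _) hz2
    have h0 := norm_nonneg A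
    linarith
  have h1 : ‖A + (a2 + z ^ 2 * A / 2) * (y : ℂ) ^ 2‖ ≤ ‖A‖ + (‖a2‖ + ‖A‖) * y ^ 2 := by
    refine (norm_add_le _ _).trans ?_
    rw [norm_mul, hyn]
    have := mul_le_mul_of_nonneg_right hB (sq_nonneg y)
    linarith
  have h2 : y ^ 2 ≤ 16 * y ^ 4 := by
    have : 0 ≤ y ^ 2 * (16 * y ^ 2 - 1) := mul_nonneg (sq_nonneg y) (by linarith)
    have e : y ^ 2 * (16 * y ^ 2 - 1) = 16 * y ^ 4 - y ^ 2 := by ring
    rw [e] at this
    linarith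
  have h3 : 1 ≤ 256 * y ^ 4 := by linarith
  have a1 : ‖A‖ ≤ ‖A‖ * (256 * y ^ 4) := le_mul_of_one_le_right (norm_nonneg _) h3
  have a2' : (‖a2‖ + ‖A‖) * y ^ 2 ≤ (‖a2‖ + ‖A‖) * (16 * y ^ 4) :=
    mul_le_mul_of_nonneg_left h2 (by positivity)
  have hy40 : 0 ≤ y ^ 4 := by positivity
  have hA := mul_nonneg (norm_nonneg A) hy40
  have ha := mul_nonneg (norm_nonneg a2) hy40
  have hk := mul_nonneg hK hy40
  have e : (3 * K + 300 * ‖A‖ + 18 * ‖a2‖) * y ^ 4 =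
      ‖A‖ * (256 * y ^ 4) + (‖a2‖ + ‖A‖) * (16 * y ^ 4) + 3 * (K * y ^ 4) +
        28 * (‖A‖ * y ^ 4) + 2 * (‖a2‖ * y ^ 4) := by ring
  rw [e]
  linarith

private theorem BBb1_sym {t z : ℂ} :
    ∫ y in (-(1 / 4) : ℝ)..(1 / 4), cexp (-(t * (y : ℂ) ^ 2)) * Ph (I * y) * cexp (-(z * y)) =
      ∫ y in (-(1 / 4) : ℝ)..(1 / 4), cexp (-t * (y : ℂ) ^ 2) *
        (Ph (I * y) * ((cexp (z * y) + cexp (-(z * y))) / 2)) := by
  have hstrip : ∀ y ∈ Icc (-(1 / 4) : ℝ) (1 / 4), I * (y : ℂ) ∈ strip := by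
    intro y hy
    show |(I * (y : ℂ)).im| < Real.pi / 8
    have h1 : (I * (y : ℂ)).im = y := by simp
    rw [h1]
    have h2 : |y| ≤ 1 / 4 := abs_le.2 hy
    have h3 := Real.pi_gt_three
    linarith
  set g : ℝ → ℂ := fun y => cexp (-(t * (y : ℂ) ^ 2)) * Ph (I * y) * cexp (-(z * y)) with hg
  have hgc : ContinuousOn g (Icc (-(1 / 4) : ℝ) (1 / 4)) := by
    have h1 : ContinuousOn (fun y : ℝ => Ph (I * y)) (Icc (-(1 / 4) : ℝ) (1 / 4)) :=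
      Ph_diff.continuousOn.comp (by fun_prop) hstrip
    exact (ContinuousOn.mul (by fun_prop) h1).mul (by fun_prop)
  have hle : (-(1 / 4) : ℝ) ≤ 1 / 4 := by norm_num
  have hgi : IntervalIntegrable g volume (-(1 / 4)) (1 / 4) := by
    refine ContinuousOn.intervalIntegrable ?_
    rwa [uIcc_of_le hle]
  have hgc2 : ContinuousOn (fun y => g (-y)) (Icc (-(1 / 4) : ℝ) (1 / 4)) := by
    refine hgc.comp continuous_neg.continuousOn fun y hy => ?_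
    exact ⟨by linarith [hy.2], by linarith [hy.1]⟩
  have hgi2 : IntervalIntegrable (fun y => g (-y)) volume (-(1 / 4)) (1 / 4) := by
    refine ContinuousOn.intervalIntegrable ?_
    rwa [uIcc_of_le hle]
  have hneg : ∫ y in (-(1 / 4) : ℝ)..(1 / 4), g (-y) = ∫ y in (-(1 / 4) : ℝ)..(1 / 4), g y := by
    rw [intervalIntegral.integral_comp_neg, neg_neg]
  have h1 : ∫ y in (-(1 / 4) : ℝ)..(1 / 4), g y =
      ∫ y in (-(1 / 4) : ℝ)..(1 / 4), (1 / 2 : ℂ) * (g y + g (-y)) := by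
    rw [intervalIntegral.integral_const_mul, intervalIntegral.integral_add hgi hgi2, hneg]
    ring
  rw [h1]
  refine intervalIntegral.integral_congr fun y hy => ?_
  rw [uIcc_of_le hle] at hy
  have he : Ph (I * ((-y : ℝ) : ℂ)) = Ph (I * (y : ℂ)) := by
    have h3 : I * ((-y : ℝ) : ℂ) = -(I * (y : ℂ)) := by
      push_cast
      ring
    rw [h3]
    exact Ph_even _ (hstrip y hy)
  have e1 : cexp (-(t * (((-y : ℝ) : ℂ)) ^ 2)) = cexp (-(t * (y : ℂ) ^ 2)) := by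
    congr 1
    push_cast
    ring
  have e2 : cexp (-(z * ((-y : ℝ) : ℂ))) = cexp (z * y) := by
    congr 1
    push_cast
    ring
  show (1 / 2 : ℂ) * (cexp (-(t * (y : ℂ) ^ 2)) * Ph (I * y) * cexp (-(z * y)) +
    cexp (-(t * (((-y : ℝ) : ℂ)) ^ 2)) * Ph (I * ((-y : ℝ) : ℂ)) *
      cexp (-(z * ((-y : ℝ) : ℂ)))) = _
  rw [he, e1, e2, neg_mul]
  ring

theorem bb_asym : ∃ (C : ℝ) (c2 : ℂ), 0 < C ∧ ∀ t z : ℂ, 1 ≤ t.re → ‖z‖ ≤ 1 →
    ‖BB t z - I / 2 * ((Real.pi : ℂ) / t) ^ (1 / 2 : ℂ) * (Ph 0 + (z ^ 2 * Ph 0 + c2) / (4 * t))‖ ≤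
      C * t.re ^ (-(5 / 2) : ℝ) := by
  obtain ⟨a2, K, hK, hpoly⟩ := BBb1_poly
  set A : ℂ := Ph 0 with hA
  set K3 : ℝ := 3 * K + 300 * ‖A‖ + 18 * ‖a2‖ with hK3
  have hK30 : 0 ≤ K3 := by positivity
  set M4 : ℝ := ∫ y : ℝ, y ^ 4 * Real.exp (-1 * y ^ 2) with hM4
  have hM40 : 0 ≤ M4 := integral_nonneg fun y => by positivity
  refine ⟨K3 * M4 + 1, 2 * a2, by positivity, fun t z ht hz => ?_⟩
  have ht0 : 0 < t.re := by linarith
  have htne : t ≠ 0 := by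
    rintro rfl
    simp at ht0
  set B : ℂ := a2 + z ^ 2 * A / 2 with hB
  set G : ℝ → ℂ := fun y => cexp (-t * (y : ℂ) ^ 2) *
    (Ph (I * y) * ((cexp (z * y) + cexp (-(z * y))) / 2)) with hG
  set E : ℝ → ℂ := fun y => A * cexp (-t * (y : ℂ) ^ 2) +
    B * ((y : ℂ) ^ 2 * cexp (-t * (y : ℂ) ^ 2)) with hE
  have hEi : Integrable E :=
    ((integrable_cexp_neg_mul_sq ht0).const_mul A).add ((BBb1_cint2 ht0).const_mul B)
  have hEint : ∫ y : ℝ, E y = ((Real.pi : ℂ) / t) ^ (1 / 2 : ℂ) * (A + B / (2 * t)) := by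
    rw [hE, integral_add ((integrable_cexp_neg_mul_sq ht0).const_mul A)
      ((BBb1_cint2 ht0).const_mul B), integral_const_mul, integral_const_mul,
      integral_gaussian_complex ht0, BBb1_gauss ht0]
    ring
  have hstrip : ∀ y ∈ Icc (-(1 / 4) : ℝ) (1 / 4), I * (y : ℂ) ∈ strip := by
    intro y hy
    show |(I * (y : ℂ)).im| < Real.pi / 8
    have h1 : (I * (y : ℂ)).im = y := by simp
    rw [h1]
    have h2 : |y| ≤ 1 / 4 := abs_le.2 hy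
    have h3 := Real.pi_gt_three
    linarith
  have hGc : ContinuousOn G (Icc (-(1 / 4) : ℝ) (1 / 4)) := by
    have h1 : ContinuousOn (fun y : ℝ => Ph (I * y)) (Icc (-(1 / 4) : ℝ) (1 / 4)) :=
      Ph_diff.continuousOn.comp (by fun_prop) hstrip
    exact ContinuousOn.mul (by fun_prop) (h1.mul (by fun_prop))
  have hGi : IntegrableOn G (Ioc (-(1 / 4) : ℝ) (1 / 4)) :=
    (hGc.integrableOn_compact isCompact_Icc).mono_set Ioc_subset_Icc_self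
  have hGi2 : Integrable ((Ioc (-(1 / 4) : ℝ) (1 / 4)).indicator G) :=
    hGi.integrable_indicator measurableSet_Ioc
  have hJ : ∫ y in (-(1 / 4) : ℝ)..(1 / 4), cexp (-(t * (y : ℂ) ^ 2)) * Ph (I * y) *
      cexp (-(z * y)) = ∫ y : ℝ, (Ioc (-(1 / 4) : ℝ) (1 / 4)).indicator G y := by
    rw [BBb1_sym, intervalIntegral.integral_of_le (by norm_num),
      integral_indicator measurableSet_Ioc]
  have hpt : ∀ y : ℝ, ‖(Ioc (-(1 / 4) : ℝ) (1 / 4)).indicator G y - E y‖ ≤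
      K3 * (y ^ 4 * Real.exp (-t.re * y ^ 2)) := by
    intro y
    have hEe : E y = cexp (-t * (y : ℂ) ^ 2) * (A + B * (y : ℂ) ^ 2) := by
      rw [hE]
      ring
    by_cases hy : y ∈ Ioc (-(1 / 4) : ℝ) (1 / 4)
    · rw [indicator_of_mem hy, hEe]
      have hy2 : |y| ≤ 1 / 4 := abs_le.2 ⟨hy.1.le, hy.2⟩
      have h1 := BBb1_pt hK hz hy2 (hpoly y hy2)
      have e : G y - cexp (-t * (y : ℂ) ^ 2) * (A + B * (y : ℂ) ^ 2) =
          cexp (-t * (y : ℂ) ^ 2) * (Ph (I * y) * ((cexp (z * y) + cexp (-(z * y))) / 2) -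
            (A + B * (y : ℂ) ^ 2)) := by
        rw [hG]
        ring
      rw [e, norm_mul, BBb1_norm]
      calc Real.exp (-t.re * y ^ 2) * ‖Ph (I * y) * ((cexp (z * y) + cexp (-(z * y))) / 2) -
            (A + B * (y : ℂ) ^ 2)‖ ≤ Real.exp (-t.re * y ^ 2) * (K3 * y ^ 4) :=
            mul_le_mul_of_nonneg_left h1 (Real.exp_pos _).le
        _ = K3 * (y ^ 4 * Real.exp (-t.re * y ^ 2)) := by ring
    · rw [indicator_of_notMem hy, zero_sub, norm_neg, hEe, norm_mul, BBb1_norm]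
      have hy2 : 1 / 16 ≤ y ^ 2 := by
        have h1 : (1 / 4 : ℝ) ≤ |y| := by
          by_contra hc
          have := abs_lt.1 (not_le.1 hc)
          exact hy ⟨this.1, this.2.le⟩
        have h2 := pow_le_pow_left₀ (by norm_num : (0 : ℝ) ≤ 1 / 4) h1 2
        rw [sq_abs] at h2
        linarith
      have h1 := BBb1_far (A := A) (a2 := a2) hK hz hy2
      calc Real.exp (-t.re * y ^ 2) * ‖A + B * (y : ℂ) ^ 2‖
            ≤ Real.exp (-t.re * y ^ 2) * (K3 * y ^ 4) :=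
            mul_le_mul_of_nonneg_left h1 (Real.exp_pos _).le
        _ = K3 * (y ^ 4 * Real.exp (-t.re * y ^ 2)) := by ring
  have hdiff : ‖(∫ y : ℝ, (Ioc (-(1 / 4) : ℝ) (1 / 4)).indicator G y) - ∫ y : ℝ, E y‖ ≤
      K3 * (t.re ^ (-(5 / 2) : ℝ) * M4) := by
    rw [← integral_sub hGi2 hEi, ← BBb1_scale ht0, ← integral_const_mul]
    exact norm_integral_le_of_norm_le ((BBb1_int4 ht0).const_mul K3)
      (Filter.Eventually.of_forall hpt)
  have hfin : BB t z - I / 2 * ((Real.pi : ℂ) / t) ^ (1 / 2 : ℂ) *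
      (A + (z ^ 2 * A + 2 * a2) / (4 * t)) =
      I / 2 * ((∫ y : ℝ, (Ioc (-(1 / 4) : ℝ) (1 / 4)).indicator G y) - ∫ y : ℝ, E y) := by
    rw [hEint, BB, hJ, hB]
    field_simp
    ring
  rw [hfin, norm_mul]
  have e5 : ‖(I / 2 : ℂ)‖ = 1 / 2 := by
    rw [norm_div, Complex.norm_I, Complex.norm_ofNat]
  rw [e5]
  have hr0 : 0 ≤ t.re ^ (-(5 / 2) : ℝ) := Real.rpow_nonneg ht0.le _
  have h6 : 0 ≤ K3 * (t.re ^ (-(5 / 2) : ℝ) * M4) := by positivity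
  have e6 : (K3 * M4 + 1) * t.re ^ (-(5 / 2) : ℝ) =
      K3 * (t.re ^ (-(5 / 2) : ℝ) * M4) + t.re ^ (-(5 / 2) : ℝ) := by ring
  rw [e6]
  linarith

private theorem BBb3_even (t z : ℂ) : BB t (-z) = BB t z := by
  rw [BB, BB, BBb1_sym, BBb1_sym]
  congr 1
  refine intervalIntegral.integral_congr fun y _ => ?_
  simp only [neg_mul, neg_neg]
  ring

private theorem BBb3_sqrt {a T v N : ℝ} (hv : 1 ≤ v) (hN : 0 < N) (hT0 : 0 ≤ T)
    (hT : T ≤ 2 * N / v) (ha : 7 / 10 * N / v ^ 2 ≤ a) :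
    a ^ (-(5 / 2) : ℝ) * Real.sqrt T ≤ 4 * v ^ 5 / N ^ 2 := by
  have hv0 : 0 < v := by linarith
  have ha1 : 0 < 7 / 10 * N / v ^ 2 := by positivity
  have ha0 : 0 < a := ha1.trans_le ha
  have h1 : (a ^ (-(5 / 2) : ℝ) * Real.sqrt T) ^ 2 = T / a ^ 5 := by
    rw [mul_pow, Real.sq_sqrt hT0]
    have h2 : (a ^ (-(5 / 2) : ℝ)) ^ 2 = (a ^ 5)⁻¹ := by
      rw [← Real.rpow_mul_natCast ha0.le]
      have e : (-(5 / 2) : ℝ) * ((2 : ℕ) : ℝ) = -((5 : ℕ) : ℝ) := by norm_num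
      rw [e, Real.rpow_neg ha0.le, Real.rpow_natCast]
    rw [h2, div_eq_mul_inv, mul_comm]
  have h5 : (7 / 10 * N / v ^ 2) ^ 5 ≤ a ^ 5 := pow_le_pow_left₀ ha1.le ha 5
  have h6 : T / a ^ 5 ≤ (4 * v ^ 5 / N ^ 2) ^ 2 := by
    calc T / a ^ 5 ≤ (2 * N / v) / (7 / 10 * N / v ^ 2) ^ 5 :=
          div_le_div₀ (by positivity) hT (by positivity) h5
      _ = 2 / (7 / 10) ^ 5 * v ^ 9 / N ^ 4 := by
          field_simp
      _ ≤ 16 * v ^ 10 / N ^ 4 := by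
          refine div_le_div_of_nonneg_right ?_ (by positivity)
          have h7 : v ^ 9 ≤ v ^ 10 := pow_le_pow_right₀ hv (by norm_num)
          have h8 : (2 / (7 / 10) ^ 5 : ℝ) ≤ 16 := by norm_num
          exact mul_le_mul h8 h7 (by positivity) (by norm_num)
      _ = (4 * v ^ 5 / N ^ 2) ^ 2 := by
          rw [div_pow, mul_pow]
          ring
  rw [← h1] at h6
  exact (pow_le_pow_iff_left₀ (by positivity) (by positivity) two_ne_zero).1 h6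

private theorem BBb3_pow {v N : ℝ} (hv : 1 ≤ v) (hN : N = Real.pi * Real.exp (4 * v)) :
    v ^ 7 ≤ N ∧ v ^ 12 ≤ 36 * N := by
  have hE : 0 < Real.exp (4 * v) := Real.exp_pos _
  have hNE : Real.exp (4 * v) ≤ N := by
    rw [hN]
    exact le_mul_of_one_le_left hE.le (by linarith [Real.pi_gt_three])
  have h4v : 0 ≤ 4 * v := by linarith
  constructor
  · have h := Real.pow_div_factorial_le_exp (4 * v) h4v 7
    have e : ((Nat.factorial 7 : ℕ) : ℝ) = 5040 := by norm_num [Nat.factorial]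
    rw [e, mul_pow] at h
    have h7 : 0 ≤ v ^ 7 := by positivity
    norm_num at h
    linarith
  · have h := Real.pow_div_factorial_le_exp (4 * v) h4v 12
    have e : ((Nat.factorial 12 : ℕ) : ℝ) = 479001600 := by norm_num [Nat.factorial]
    rw [e, mul_pow] at h
    have h7 : 0 ≤ v ^ 12 := by positivity
    norm_num at h
    linarith

theorem bb_norm (p : ℂ) (h1 : 1 ≤ p.re) (h2 : 0 ≤ p.im) (h3 : p.im < Real.pi / 8) :
    NN p * WW p = I / 2 * Ph 0 * ((Real.pi : ℂ) / tp p) ^ (1 / 2 : ℂ) := by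
  have hp0 : p ≠ 0 := by
    intro h
    rw [h, Complex.zero_re] at h1
    linarith
  have hpre : 0 < p.re := by linarith
  have harg : |Complex.arg p| < Real.pi / 2 := Complex.abs_arg_lt_pi_div_two_iff.mpr (Or.inl hpre)
  have harg0 : 0 ≤ Complex.arg p := Complex.arg_nonneg_iff.mpr h2
  have hpi := Real.pi_pos
  have hw : (Real.pi : ℂ) / tp p = cexp (Complex.log p - 4 * p - (Real.log 2 : ℝ)) := by
    rw [tp, Complex.exp_sub, Complex.exp_sub, Complex.exp_log hp0, ← Complex.ofReal_exp, Real.exp_log (by norm_num)]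
    have h3 : cexp (4 * p) ≠ 0 := Complex.exp_ne_zero _
    have h4 : (Real.pi : ℂ) ≠ 0 := Complex.ofReal_ne_zero.mpr Real.pi_ne_zero
    push_cast
    field_simp
  have him : (Complex.log p - 4 * p - ((Real.log 2 : ℝ) : ℂ)).im = Complex.arg p - 4 * p.im := by
    simp [Complex.log_im]
  have hlog : Complex.log ((Real.pi : ℂ) / tp p) = Complex.log p - 4 * p - (Real.log 2 : ℝ) := by
    rw [hw]
    have h5 := (abs_lt.mp harg).2
    refine Complex.log_exp ?_ ?_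
    · rw [him]
      linarith
    · rw [him]
      linarith
  have hne : (Real.pi : ℂ) / tp p ≠ 0 := by
    rw [hw]
    exact Complex.exp_ne_zero _
  have h2r : cexp (-((Real.log 2 : ℝ) : ℂ) / 2) = ((Real.sqrt 2 : ℝ) : ℂ)⁻¹ := by
    have h6 : Real.exp (-(Real.log 2) / 2) = (Real.sqrt 2)⁻¹ := by
      rw [neg_div, Real.exp_neg, Real.exp_half, Real.exp_log (by norm_num)]
    rw [← Complex.ofReal_inv, ← h6, Complex.ofReal_exp]
    push_cast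
    rfl
  have hpow : ((Real.pi : ℂ) / tp p) ^ (1 / 2 : ℂ) =
      cexp (Complex.log p / 2 - 2 * p) * ((Real.sqrt 2 : ℝ) : ℂ)⁻¹ := by
    rw [Complex.cpow_def_of_ne_zero hne, hlog, ← h2r, ← Complex.exp_add]
    congr 1
    ring
  rw [hpow, NN, WW]
  have hE : cexp (7 * p + SS p) * cexp (Complex.log p / 2 - 9 * p - SS p) = cexp (Complex.log p / 2 - 2 * p) := by
    rw [← Complex.exp_add]
    congr 1
    ring
  rw [← hE]
  have h4 : (Real.pi : ℂ) ≠ 0 := Complex.ofReal_ne_zero.mpr Real.pi_ne_zero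
  have h7 : ((Real.sqrt 2 : ℝ) : ℂ) ≠ 0 := Complex.ofReal_ne_zero.mpr (by positivity)
  field_simp

/-- the normalized contribution of `0` -/
noncomputable def bb (p ζ : ℂ) : ℂ := BB (tp p) (ζ / p) / (NN p * WW p)

private theorem BBb3_main {C0 : ℝ} {c2 : ℂ} (hasym : ∀ t z : ℂ, 1 ≤ t.re → ‖z‖ ≤ 1 →
    ‖BB t z - I / 2 * ((Real.pi : ℂ) / t) ^ (1 / 2 : ℂ) * (Ph 0 + (z ^ 2 * Ph 0 + c2) / (4 * t))‖ ≤
      C0 * t.re ^ (-(5 / 2) : ℝ)) (hC0 : 0 < C0) {p : ℂ} (hv : 100 ≤ p.re) (h2 : 0 ≤ p.im)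
    (h3 : p.im < Real.pi / 8) (hre : 7 / 10 * EE p / p.re ^ 2 ≤ (tp p).re) (hpn : p.re ≤ ‖p‖) :
    NN p * WW p ≠ 0 ∧ ∀ ζ : ℂ, ‖ζ‖ ≤ p.re →
      ‖bb p ζ - (1 + c2 / (4 * tp p * Ph 0) + ζ ^ 2 / (8 * Real.pi * cexp (4 * p) * p))‖ ≤
        8 * C0 / ‖Ph 0‖ * (p.re ^ 5 / EE p ^ 2) := by
  set v : ℝ := p.re with hvdef
  set N : ℝ := EE p with hN
  have hNv : N = Real.pi * Real.exp (4 * v) := rfl
  have hN0 : 0 < N := by rw [hNv]; positivity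
  have hv0 : 0 < v := by linarith
  have hpn0 : 0 < ‖p‖ := hv0.trans_le hpn
  have hp0 : p ≠ 0 := norm_pos_iff.1 hpn0
  set t : ℂ := tp p with ht
  have htp : t * p = 2 * Real.pi * cexp (4 * p) := by
    rw [ht, tp, div_mul_cancel₀ _ hp0]
  have hEn : ‖(Real.pi : ℂ) * cexp (4 * p)‖ = N := by
    rw [norm_mul, Complex.norm_real, Real.norm_eq_abs, abs_of_pos Real.pi_pos, Complex.norm_exp,
      hNv]
    congr 2
    simp [hvdef]
  have htn : ‖t‖ * ‖p‖ = 2 * N := by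
    rw [← norm_mul, htp, mul_assoc, norm_mul, hEn, Complex.norm_ofNat]
  have htle : ‖t‖ ≤ 2 * N / v := by
    rw [le_div_iff₀ hv0, ← htn]
    exact mul_le_mul_of_nonneg_left hpn (norm_nonneg _)
  obtain ⟨hp7, -⟩ := BBb3_pow (by linarith : (1 : ℝ) ≤ v) hNv
  have hre1 : 1 ≤ t.re := by
    refine le_trans ?_ hre
    rw [le_div_iff₀ (by positivity)]
    have h4 : v ^ 7 = v ^ 2 * v ^ 5 := by ring
    have h5 : (100 : ℝ) ^ 5 ≤ v ^ 5 := pow_le_pow_left₀ (by norm_num) hv 5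
    have h6 : v ^ 2 * 2 ≤ v ^ 2 * v ^ 5 :=
      mul_le_mul_of_nonneg_left (le_trans (by norm_num) h5) (by positivity)
    have h7 : 0 ≤ v ^ 2 := by positivity
    linarith
  have ht0 : 0 < t.re := by linarith
  have htne : t ≠ 0 := by
    intro h
    rw [h] at ht0
    simp at ht0
  have htn0 : 0 < ‖t‖ := norm_pos_iff.2 htne
  have hPh : Ph 0 ≠ 0 := by
    intro h
    have h4 := (Ph_pos 0).1
    rw [Complex.ofReal_zero, h, Complex.zero_re] at h4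
    exact lt_irrefl _ h4
  have hPhn : 0 < ‖Ph 0‖ := norm_pos_iff.2 hPh
  set Q : ℂ := I / 2 * ((Real.pi : ℂ) / t) ^ (1 / 2 : ℂ) with hQ
  have hpit : (Real.pi : ℂ) / t ≠ 0 :=
    div_ne_zero (by exact_mod_cast Real.pi_ne_zero) htne
  have hQn : ‖Q‖ = 1 / 2 * Real.sqrt (Real.pi / ‖t‖) := by
    have e : (1 / 2 : ℂ) = (((1 / 2 : ℝ) : ℝ) : ℂ) := by push_cast; rfl
    rw [hQ, norm_mul, norm_div, Complex.norm_I, Complex.norm_ofNat, e, Complex.norm_cpow_real,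
      norm_div, Complex.norm_real, Real.norm_eq_abs, abs_of_pos Real.pi_pos, Real.sqrt_eq_rpow]
  have hQ0 : Q ≠ 0 := by
    rw [← norm_pos_iff, hQn]
    positivity
  have hnorm : NN p * WW p = Q * Ph 0 := by
    rw [bb_norm p (by linarith) h2 h3, hQ]
    ring
  have hne : NN p * WW p ≠ 0 := by
    rw [hnorm]
    exact mul_ne_zero hQ0 hPh
  refine ⟨hne, fun ζ hζ => ?_⟩
  have hz1 : ‖ζ / p‖ ≤ 1 := by
    rw [norm_div, div_le_one hpn0]
    exact hζ.trans hpn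
  have h4 := hasym t (ζ / p) hre1 hz1
  rw [← hQ] at h4
  have hid : bb p ζ - (1 + c2 / (4 * t * Ph 0) + ζ ^ 2 / (8 * Real.pi * cexp (4 * p) * p)) =
      (BB t (ζ / p) - Q * (Ph 0 + ((ζ / p) ^ 2 * Ph 0 + c2) / (4 * t))) / (Q * Ph 0) := by
    have e1 : (8 : ℂ) * Real.pi * cexp (4 * p) * p = 4 * (t * p) * p := by
      rw [htp]
      ring
    rw [bb, ← ht, hnorm, e1]
    field_simp
    ring
  rw [hid, norm_div, norm_mul, hQn]
  have hsq : Real.sqrt ‖t‖ * Real.sqrt (Real.pi / ‖t‖) = Real.sqrt Real.pi := by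
    rw [← Real.sqrt_mul (norm_nonneg t), mul_div_cancel₀ _ htn0.ne']
  have hsp : 1 ≤ Real.sqrt Real.pi := by
    rw [Real.one_le_sqrt]
    linarith [Real.pi_gt_three]
  have hs0 : 0 < Real.sqrt (Real.pi / ‖t‖) := Real.sqrt_pos.2 (div_pos Real.pi_pos htn0)
  have hkey := BBb3_sqrt (by linarith : (1 : ℝ) ≤ v) hN0 (norm_nonneg t) htle hre
  rw [div_le_iff₀ (by positivity)]
  calc ‖BB t (ζ / p) - Q * (Ph 0 + ((ζ / p) ^ 2 * Ph 0 + c2) / (4 * t))‖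
      ≤ C0 * t.re ^ (-(5 / 2) : ℝ) := h4
    _ ≤ C0 * t.re ^ (-(5 / 2) : ℝ) * Real.sqrt Real.pi :=
        le_mul_of_one_le_right (mul_nonneg hC0.le (Real.rpow_nonneg ht0.le _)) hsp
    _ = C0 * (t.re ^ (-(5 / 2) : ℝ) * Real.sqrt ‖t‖) * Real.sqrt (Real.pi / ‖t‖) := by
        rw [← hsq]
        ring
    _ ≤ C0 * (4 * v ^ 5 / N ^ 2) * Real.sqrt (Real.pi / ‖t‖) := by
        refine mul_le_mul_of_nonneg_right ?_ hs0.le
        exact mul_le_mul_of_nonneg_left hkey hC0.le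
    _ = 8 * C0 / ‖Ph 0‖ * (v ^ 5 / N ^ 2) *
          (1 / 2 * Real.sqrt (Real.pi / ‖t‖) * ‖Ph 0‖) := by
        field_simp
        ring

theorem bb_bound (M : ℝ) : ∃ C V : ℝ, 100 ≤ V ∧ ∀ p ∈ Reg V, NN p * WW p ≠ 0 ∧
    Differentiable ℂ (bb p) ∧ (∀ ζ : ℂ, bb p (-ζ) = bb p ζ) ∧
    (∀ ζ : ℂ, ‖ζ‖ ≤ M → ‖bb p ζ - 1‖ ≤ C / p.re ∧ ‖deriv (bb p) ζ‖ ≤ C / (p.re * Real.sqrt (EE p))) ∧
    (∀ ζ ζ' : ℂ, ‖ζ‖ ≤ M → ‖ζ'‖ ≤ M →
      ‖bb p ζ - bb p ζ' - (ζ ^ 2 - ζ' ^ 2) / (8 * Real.pi * cexp (4 * p) * p)‖ ≤ C / (p.re ^ 2 * EE p)) := by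
  obtain ⟨C0, c2, hC0, hasym⟩ := bb_asym
  obtain ⟨V0, hV0, hreg⟩ := reg_all
  set C1 : ℝ := 8 * C0 / ‖Ph 0‖ with hC1
  have hC10 : 0 ≤ C1 := by positivity
  set M1 : ℝ := |M| + 1 with hM1
  have hM10 : 0 ≤ M1 := by positivity
  set D : ℝ := ‖c2‖ / ‖Ph 0‖ + M1 ^ 2 + C1 with hD
  have hD0 : 0 ≤ D := by positivity
  refine ⟨6 * D + 2 * C1, max V0 M1, hV0.trans (le_max_left _ _), fun p hp => ?_⟩
  have hp0 : p ∈ Reg V0 := reg_sub (le_max_left _ _) hp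
  obtain ⟨-, -, -, -, hr5, -, hr7, -⟩ := hreg p hp0
  have hv100 : 100 ≤ p.re := hV0.trans hp0.1
  have hvM : M1 ≤ p.re := (le_max_right _ _).trans hp.1
  obtain ⟨hne, hmain⟩ := BBb3_main hasym hC0 hv100 hp.2.1 hp.2.2.1 hr5 hr7
  set v : ℝ := p.re with hvdef
  set N : ℝ := EE p with hN
  have hNv : N = Real.pi * Real.exp (4 * v) := rfl
  have hv1 : (1 : ℝ) ≤ v := by linarith
  have hv0 : 0 < v := by linarith
  obtain ⟨hp7, hp12⟩ := BBb3_pow hv1 hNv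
  have hN1 : 1 ≤ N := (one_le_pow₀ hv1).trans hp7
  have hN0 : 0 < N := by linarith
  have hpn0 : 0 < ‖p‖ := hv0.trans_le hr7
  have hPh : Ph 0 ≠ 0 := by
    intro h
    have h4 := (Ph_pos 0).1
    rw [Complex.ofReal_zero, h, Complex.zero_re] at h4
    exact lt_irrefl _ h4
  have hPhn : 0 < ‖Ph 0‖ := norm_pos_iff.2 hPh
  have hEn : ‖(Real.pi : ℂ) * cexp (4 * p)‖ = N := by
    rw [norm_mul, Complex.norm_real, Real.norm_eq_abs, abs_of_pos Real.pi_pos, Complex.norm_exp,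
      hNv]
    congr 2
    simp [hvdef]
  have hdiff : Differentiable ℂ (bb p) := by
    have h1 : Differentiable ℂ (fun ζ => BB (tp p) (ζ / p)) :=
      (BB_diff_z (tp p)).comp (differentiable_id.div_const p)
    exact h1.div_const _
  have hev : ∀ ζ : ℂ, bb p (-ζ) = bb p ζ := by
    intro ζ
    rw [bb, bb, neg_div, BBb3_even]
  have hb1 : ∀ ζ : ℂ, ‖ζ‖ ≤ M1 → ‖bb p ζ - 1‖ ≤ D * (v ^ 5 / N) := by
    intro ζ hζ
    have h1 := hmain ζ (hζ.trans hvM)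
    have hc : ‖c2 / (4 * tp p * Ph 0)‖ ≤ ‖c2‖ / ‖Ph 0‖ * (v ^ 5 / N) := by
      rw [norm_div, norm_mul, norm_mul, Complex.norm_ofNat]
      have ht : N / v ^ 2 ≤ 4 * ‖tp p‖ := by
        have h2 := (hr5.trans (Complex.re_le_norm (tp p)))
        have h3 : N / v ^ 2 = 10 / 7 * (7 / 10 * N / v ^ 2) := by ring
        have h4 := norm_nonneg (tp p)
        rw [h3]
        linarith
      have h5 : 0 < N / v ^ 2 := by positivity
      calc ‖c2‖ / (4 * ‖tp p‖ * ‖Ph 0‖) ≤ ‖c2‖ / (N / v ^ 2 * ‖Ph 0‖) :=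
            div_le_div_of_nonneg_left (norm_nonneg _) (by positivity)
              (mul_le_mul_of_nonneg_right ht hPhn.le)
        _ = ‖c2‖ / ‖Ph 0‖ * (v ^ 2 / N) := by
            field_simp
        _ ≤ ‖c2‖ / ‖Ph 0‖ * (v ^ 5 / N) := by
            refine mul_le_mul_of_nonneg_left ?_ (by positivity)
            exact div_le_div_of_nonneg_right (pow_le_pow_right₀ hv1 (by norm_num)) hN0.le
    have hz : ‖ζ ^ 2 / (8 * Real.pi * cexp (4 * p) * p)‖ ≤ M1 ^ 2 * (v ^ 5 / N) := by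
      have e1 : ‖(8 : ℂ) * Real.pi * cexp (4 * p) * p‖ = 8 * N * ‖p‖ := by
        rw [norm_mul, mul_assoc (8 : ℂ), norm_mul, hEn, Complex.norm_ofNat]
      rw [norm_div, norm_pow, e1]
      have h2 : N ≤ 8 * N * ‖p‖ := by
        have : 1 ≤ ‖p‖ := hv1.trans hr7
        have h3 : 8 * N * 1 ≤ 8 * N * ‖p‖ := mul_le_mul_of_nonneg_left this (by positivity)
        linarith
      calc ‖ζ‖ ^ 2 / (8 * N * ‖p‖) ≤ M1 ^ 2 / N :=
            div_le_div₀ (by positivity) (pow_le_pow_left₀ (norm_nonneg _) hζ 2) hN0 h2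
        _ = M1 ^ 2 * (1 / N) := by ring
        _ ≤ M1 ^ 2 * (v ^ 5 / N) := by
            refine mul_le_mul_of_nonneg_left ?_ (by positivity)
            exact div_le_div_of_nonneg_right (one_le_pow₀ hv1) hN0.le
    have he : C1 * (v ^ 5 / N ^ 2) ≤ C1 * (v ^ 5 / N) := by
      refine mul_le_mul_of_nonneg_left ?_ hC10
      refine div_le_div_of_nonneg_left (by positivity) hN0 ?_
      exact le_self_pow₀ hN1 two_ne_zero
    have e : bb p ζ - 1 =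
        (bb p ζ - (1 + c2 / (4 * tp p * Ph 0) + ζ ^ 2 / (8 * Real.pi * cexp (4 * p) * p))) +
          c2 / (4 * tp p * Ph 0) + ζ ^ 2 / (8 * Real.pi * cexp (4 * p) * p) := by ring
    rw [e]
    refine (norm_add₃_le).trans ?_
    have eD : D * (v ^ 5 / N) = ‖c2‖ / ‖Ph 0‖ * (v ^ 5 / N) + M1 ^ 2 * (v ^ 5 / N) +
        C1 * (v ^ 5 / N) := by
      rw [hD]
      ring
    rw [eD]
    linarith
  have hMM : ∀ ζ : ℂ, ‖ζ‖ ≤ M → ‖ζ‖ ≤ |M| := fun ζ h => h.trans (le_abs_self M)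
  refine ⟨hne, hdiff, hev, fun ζ hζ => ⟨?_, ?_⟩, fun ζ ζ' hζ hζ' => ?_⟩
  · have h1 := hb1 ζ ((hMM ζ hζ).trans (by rw [hM1]; linarith))
    have h2 : v ^ 5 / N ≤ 1 / v := by
      rw [div_le_div_iff₀ hN0 hv0, one_mul]
      have h3 : v ^ 6 ≤ v ^ 7 := pow_le_pow_right₀ hv1 (by norm_num)
      have h4 : v ^ 5 * v = v ^ 6 := by ring
      rw [h4]
      exact h3.trans hp7
    calc ‖bb p ζ - 1‖ ≤ D * (v ^ 5 / N) := h1
      _ ≤ D * (1 / v) := mul_le_mul_of_nonneg_left h2 hD0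
      _ = D / v := by ring
      _ ≤ (6 * D + 2 * C1) / v := div_le_div_of_nonneg_right (by linarith) hv0.le
  · have h1 : ‖deriv (fun w => bb p w - 1) ζ‖ ≤ D * (v ^ 5 / N) / 1 := by
      refine Complex.norm_deriv_le_of_forall_mem_sphere_norm_le one_pos
        (hdiff.sub_const 1).diffContOnCl fun w hw => hb1 w ?_
      rw [mem_sphere_iff_norm] at hw
      have h2 : ‖w‖ ≤ ‖w - ζ‖ + ‖ζ‖ := by
        have := norm_add_le (w - ζ) ζ
        rwa [sub_add_cancel] at this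
      have h3 := hMM ζ hζ
      rw [hM1]
      linarith
    rw [deriv_sub_const, div_one] at h1
    have hs0 : 0 < Real.sqrt N := Real.sqrt_pos.2 hN0
    have hss : Real.sqrt N * Real.sqrt N = N := Real.mul_self_sqrt hN0.le
    have h2 : v ^ 6 ≤ 6 * Real.sqrt N := by
      refine (pow_le_pow_iff_left₀ (by positivity) (by positivity) two_ne_zero).1 ?_
      have e1 : (v ^ 6) ^ 2 = v ^ 12 := by ring
      have e2 : (6 * Real.sqrt N) ^ 2 = 36 * N := by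
        rw [mul_pow, Real.sq_sqrt hN0.le]
        norm_num
      rw [e1, e2]
      exact hp12
    have h3 : v ^ 5 / N ≤ 6 / (v * Real.sqrt N) := by
      rw [div_le_div_iff₀ hN0 (by positivity)]
      calc v ^ 5 * (v * Real.sqrt N) = v ^ 6 * Real.sqrt N := by ring
        _ ≤ 6 * Real.sqrt N * Real.sqrt N := mul_le_mul_of_nonneg_right h2 hs0.le
        _ = 6 * N := by rw [mul_assoc, hss]
    calc ‖deriv (bb p) ζ‖ ≤ D * (v ^ 5 / N) := h1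
      _ ≤ D * (6 / (v * Real.sqrt N)) := mul_le_mul_of_nonneg_left h3 hD0
      _ = 6 * D / (v * Real.sqrt N) := by ring
      _ ≤ (6 * D + 2 * C1) / (v * Real.sqrt N) :=
          div_le_div_of_nonneg_right (by linarith) (by positivity)
  · have h1 := hmain ζ ((hMM ζ hζ).trans (by linarith))
    have h2 := hmain ζ' ((hMM ζ' hζ').trans (by linarith))
    have e : bb p ζ - bb p ζ' - (ζ ^ 2 - ζ' ^ 2) / (8 * Real.pi * cexp (4 * p) * p) =
        (bb p ζ - (1 + c2 / (4 * tp p * Ph 0) + ζ ^ 2 / (8 * Real.pi * cexp (4 * p) * p))) -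
        (bb p ζ' - (1 + c2 / (4 * tp p * Ph 0) + ζ' ^ 2 / (8 * Real.pi * cexp (4 * p) * p))) := by
      ring
    have h3 : v ^ 5 / N ^ 2 ≤ 1 / (v ^ 2 * N) := by
      rw [div_le_div_iff₀ (by positivity) (by positivity), one_mul]
      calc v ^ 5 * (v ^ 2 * N) = v ^ 7 * N := by ring
        _ ≤ N * N := mul_le_mul_of_nonneg_right hp7 hN0.le
        _ = N ^ 2 := by ring
    rw [e]
    refine (norm_sub_le _ _).trans ?_
    have h4 : C1 * (v ^ 5 / N ^ 2) ≤ C1 * (1 / (v ^ 2 * N)) :=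
      mul_le_mul_of_nonneg_left h3 hC10
    have h5 : 2 * (C1 * (1 / (v ^ 2 * N))) ≤ (6 * D + 2 * C1) / (v ^ 2 * N) := by
      have : 2 * (C1 * (1 / (v ^ 2 * N))) = (2 * C1) / (v ^ 2 * N) := by ring
      rw [this]
      exact div_le_div_of_nonneg_right (by linarith) (by positivity)
    linarith

end Pool.Agent.Lib.MP_ec260d_ntC
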