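import Mathlib
import Pool.Agent.Lib.MP_ec260d_ntC.DefsW
import Pool.Agent.Lib.MP_ec260d_ntC.RegP

/-!
# JOB FTh: the exponent along the contour (about 300 lines)

`p = v + i η`, `N = EE p`, `ρ = rr p = 1/(20v)`, `dd p = e^{-2iη}`, `π e^{4p} = N e^{4iη}`, `ff p x = 4x + 1 - e^{4x} + 2x²/p`, `V ≥` the constant of `reg_all`, `v ≥ 100`.
`ff_eq`: `tp p = 2πe^{4p}/p`, `2 p tp p = 4 π e^{4p}`, `SS p = tp p p² - π e^{4p}`.
`ff_taylor`: for `‖x‖ ≤ 1/40`: `‖e^{4x} - 1 - 4x - 8x²‖ ≤ (4‖x‖)³/6 * e^{4‖x‖} ≤ 12 ‖x‖³` (`e^{1/10} ≤ 1.12`; `Complex.norm_exp_sub_sum_le_exp_norm_sub_sum` or the bound `norm_exp_sub_sum_le_norm_mul_exp`).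
(a) value at `x = ± ρ dd p`: `e^{4iη} x² = ρ²`, so `Re (e^{4iη} ff p x) ≤ -8ρ² + 2ρ²/‖p‖ + 12ρ³ ≤ -7ρ²`.
(b) `th_bd`: `θ(a) = Re (e^{4iη} ff p (-a + i b0))`, `b0 = ρ sin 2η`, `a0 = ρ cos 2η ≤ a ≤ v`.  `θ'(a) = -4 cos 4η + 4 e^{-4a} cos (4(η + b0)) - 4 Re (e^{4iη}(-a + i b0)/p)`; `cos (4 (η + b0)) > 0` (`reg_all`), so `θ'` is a convex function of `a` (exponential with positive coefficient plus affine).
`θ'(a0) = -Re (e^{4iη} ff'(x))` at `x = -ρ e^{-2iη}`, `ff'(x) = 4 - 4e^{4x} + 4x/p`, `‖4 - 4e^{4x} + 16x‖ ≤ 36 ‖x‖²`, so `θ'(a0) ≤ -16 ρ cos 2η + 4ρ/‖p‖ + 36ρ² ≤ -16 * 0.7 ρ + 6ρ/v < 0` (`cos 2η ≥ cos (π/4) ≥ 0.7`, `36 ρ² = 1.8 ρ/v`).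
A convex `θ'` which is negative at `a0`: if `θ'(a1) < 0`... precisely: for `a0 ≤ a ≤ v` either `θ' ≤ 0` on `[a0, a]` (then `θ(a) ≤ θ(a0)`), or `θ'(a2) > 0` for some `a2 ≤ a`, and by convexity `θ' > 0` on `[a2, v]`, in particular `θ' > 0` on `[a, v]` and `θ(a) ≤ θ(v)`.  With (a): `θ(a) ≤ max (-7ρ²) (θ v)`.
(c) `ph_bd`: `φ(y) = Re (e^{4iη} ff p (ρ dd p + y))`, `y ≥ 0`: `φ(0) ≤ -7ρ²`, `φ'(y) = 4 cos 4η - 4 e^{4ρcos2η + 4y} cos (4η - 4ρ sin 2η) + 4 Re (e^{4iη}(ρ e^{-2iη} + y)/p)`; `φ'(0) ≤ -16ρ cos2η + 4ρ/‖p‖ + 36ρ² ≤ 0` as in (b); `φ'(y) - φ'(0) = -4 e^{4ρcos2η} cos (4η - 4ρ sin 2η)(e^{4y} - 1) + 4y Re (e^{4iη}/p)`.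
`0 ≤ 4η - 4ρ sin 2η ≤ 4η` (`sin 2η ≤ 2η`, `ρ ≤ 1/2`), so `cos (4η - 4ρ sin 2η) ≥ cos 4η ≥ 0.38/v`; `Re (e^{4iη}/p) = (v cos 4η + η sin 4η)/‖p‖² ≤ cos 4η/v + 0.4/v²`; `4y ≤ e^{4y} - 1`.  So `φ'(y) - φ'(0) ≤ -(e^{4y} - 1)(4 cos 4η - cos 4η/v - 0.4/v²) ≤ -(0.5/v)(e^{4y} - 1)` and, integrating,
`φ(y) ≤ -7ρ² - (0.5/v)((e^{4y} - 1)/4 - y) ≤ -7ρ² - y²/v` (`e^{4y} ≥ 1 + 4y + 8y²`).
-/

namespace Pool.Agent.Lib.MP_ec260d_ntC

open Complex Set Filter Topology Metric MeasureTheory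

/-- the exponent function -/
noncomputable def ff (p x : ℂ) : ℂ := 4 * x + 1 - cexp (4 * x) + 2 * x ^ 2 / p

theorem ff_eq (p x : ℂ) (hp : p ≠ 0) :
    tp p * (p + x) ^ 2 - Real.pi * cexp (4 * (p + x)) = SS p + Real.pi * cexp (4 * p) * ff p x := by
  unfold tp SS ff
  rw [mul_add, Complex.exp_add]
  field_simp
  ring

theorem ff_taylor (p x : ℂ) (hx : ‖x‖ ≤ 1 / 40) :
    ‖ff p x - (-8 * x ^ 2 + 2 * x ^ 2 / p)‖ ≤ 12 * ‖x‖ ^ 3 := by
  have h0 : ‖4 * x‖ = 4 * ‖x‖ := by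
    rw [norm_mul]; norm_num
  have h1 : ‖4 * x‖ ≤ 1 := by rw [h0]; linarith
  have h2 := Complex.exp_bound h1 (n := 4) (by norm_num)
  have h3 : ∑ m ∈ Finset.range 4, (4 * x) ^ m / (m.factorial : ℂ) =
      1 + 4 * x + 8 * x ^ 2 + 32 / 3 * x ^ 3 := by
    simp only [Finset.sum_range_succ, Finset.sum_range_zero, Nat.factorial]
    push_cast
    ring
  rw [h3] at h2
  have h4 : ((Nat.succ 4 : ℕ) : ℝ) * (((Nat.factorial 4 : ℕ) : ℝ) * ((4 : ℕ) : ℝ))⁻¹ = 5 / 96 := by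
    norm_num [Nat.factorial]
  rw [h4, h0] at h2
  have h5 : ff p x - (-8 * x ^ 2 + 2 * x ^ 2 / p) =
      -(cexp (4 * x) - (1 + 4 * x + 8 * x ^ 2 + 32 / 3 * x ^ 3)) - 32 / 3 * x ^ 3 := by
    unfold ff
    ring
  rw [h5]
  have h6 : ‖(32 / 3 * x ^ 3 : ℂ)‖ = 32 / 3 * ‖x‖ ^ 3 := by
    rw [norm_mul, norm_pow]
    norm_num
  have h7 := norm_sub_le (-(cexp (4 * x) - (1 + 4 * x + 8 * x ^ 2 + 32 / 3 * x ^ 3))) (32 / 3 * x ^ 3)
  rw [norm_neg, h6] at h7
  have h8 : 0 ≤ ‖x‖ := norm_nonneg x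
  have h9 : ‖x‖ ^ 4 ≤ 1 / 40 * ‖x‖ ^ 3 := by
    have : ‖x‖ ^ 4 = ‖x‖ * ‖x‖ ^ 3 := by ring
    rw [this]
    exact mul_le_mul_of_nonneg_right hx (by positivity)
  have h10 : 0 ≤ ‖x‖ ^ 3 := by positivity
  have h11 : (4 * ‖x‖) ^ 4 * (5 / 96) = 40 / 3 * ‖x‖ ^ 4 := by ring
  rw [h11] at h2
  linarith

private theorem fth_exp {a b c : ℝ} (h1 : a < b) (h2 : b < c) :
    (c - a) * Real.exp (-4 * b) ≤ (c - b) * Real.exp (-4 * a) + (b - a) * Real.exp (-4 * c) := by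
  have hca : 0 < c - a := by linarith
  have h3 : 0 ≤ (c - b) / (c - a) := div_nonneg (by linarith) hca.le
  have h4 : 0 ≤ (b - a) / (c - a) := div_nonneg (by linarith) hca.le
  have h5 : (c - b) / (c - a) + (b - a) / (c - a) = 1 := by
    rw [← add_div]
    rw [div_eq_one_iff_eq hca.ne']
    ring
  have h6 := convexOn_exp.2 (mem_univ (-4 * a)) (mem_univ (-4 * c)) h3 h4 h5
  simp only [smul_eq_mul] at h6
  have h7 : (c - b) / (c - a) * (-4 * a) + (b - a) / (c - a) * (-4 * c) = -4 * b := by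
    field_simp
    ring
  rw [h7] at h6
  have h8 := mul_le_mul_of_nonneg_left h6 hca.le
  have h9 : (c - a) * ((c - b) / (c - a) * Real.exp (-4 * a) + (b - a) / (c - a) * Real.exp (-4 * c)) =
      (c - b) * Real.exp (-4 * a) + (b - a) * Real.exp (-4 * c) := by
    field_simp
  rw [h9] at h8
  exact h8

private theorem fth_max (F D : ℝ → ℝ) (hD : ∀ a, HasDerivAt F (D a) a) (A B C : ℝ) (hC : 0 ≤ C)
    (hform : ∀ a, D a = A * a + B + C * Real.exp (-4 * a)) (a0 a v : ℝ) (h0 : D a0 ≤ 0)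
    (h1 : a0 ≤ a) (h2 : a ≤ v) : F a ≤ max (F a0) (F v) := by
  by_contra hcon
  push Not at hcon
  rw [max_lt_iff] at hcon
  obtain ⟨hc1, hc2⟩ := hcon
  have h3 : a0 < a := lt_of_le_of_ne h1 (by rintro rfl; exact lt_irrefl _ hc1)
  have h4 : a < v := lt_of_le_of_ne h2 (by rintro rfl; exact lt_irrefl _ hc2)
  have hcont : Continuous F := continuous_iff_continuousAt.mpr fun x => (hD x).continuousAt
  obtain ⟨c1, hc1m, hc1e⟩ := exists_hasDerivAt_eq_slope F D h3 hcont.continuousOn (fun x _ => hD x)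
  obtain ⟨c2, hc2m, hc2e⟩ := exists_hasDerivAt_eq_slope F D h4 hcont.continuousOn (fun x _ => hD x)
  have h5 : 0 < D c1 := by
    rw [hc1e]; exact div_pos (by linarith) (by linarith)
  have h6 : D c2 < 0 := by
    rw [hc2e]; exact div_neg_of_neg_of_pos (by linarith) (by linarith)
  have h7 : c1 < c2 := hc1m.2.trans hc2m.1
  have h8 := fth_exp hc1m.1 h7
  have h9 := mul_le_mul_of_nonneg_left h8 hC
  have h10 : (c2 - a0) * D c1 ≤ (c2 - c1) * D a0 + (c1 - a0) * D c2 := by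
    rw [hform, hform, hform]
    nlinarith [h9]
  have h11 : 0 < (c2 - a0) * D c1 := mul_pos (by linarith [hc1m.1]) h5
  have h12 : (c2 - c1) * D a0 ≤ 0 := mul_nonpos_of_nonneg_of_nonpos (by linarith) h0
  have h13 : (c1 - a0) * D c2 ≤ 0 := mul_nonpos_of_nonneg_of_nonpos (by linarith [hc1m.1]) h6.le
  linarith

private theorem fth_deriv (p x : ℂ) : HasDerivAt (ff p) (4 - 4 * cexp (4 * x) + 4 * x / p) x := by
  unfold ff
  have h1 : HasDerivAt (fun y : ℂ => 4 * y) 4 x := by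
    have := (hasDerivAt_id x).const_mul (4 : ℂ)
    rw [mul_one] at this
    exact this
  have h2 := h1.cexp
  have h3 : HasDerivAt (fun y : ℂ => 2 * y ^ 2 / p) (2 * (2 * x) / p) x := by
    have h4 := (((hasDerivAt_id x).pow 2).const_mul (2 : ℂ)).div_const p
    simp only [id_eq, Nat.cast_ofNat, Nat.add_one_sub_one, pow_one, mul_one] at h4
    exact h4
  have h5 := ((h1.add_const 1).sub h2).add h3
  have h6 : (4 - cexp (4 * x) * 4 + 2 * (2 * x) / p : ℂ) = 4 - 4 * cexp (4 * x) + 4 * x / p := by ring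
  rw [h6] at h5
  exact h5

private theorem fth_HD (p q : ℂ) (b : ℝ) (a : ℝ) :
    HasDerivAt (fun a : ℝ => (q * ff p (-a + b * I)).re)
      (q * (-(4 - 4 * cexp (4 * (-a + b * I)) + 4 * (-a + b * I) / p))).re a := by
  have h1 : HasDerivAt (fun z : ℂ => -z + b * I) (-1) (a : ℂ) :=
    ((hasDerivAt_id (a : ℂ)).neg).add_const (b * I)
  have h2 := (fth_deriv p (-a + b * I)).comp (a : ℂ) h1
  have h3 := (h2.const_mul q).comp_ofReal
  have h4 := Complex.reCLM.hasFDerivAt.comp_hasDerivAt a h3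
  simp only [Function.comp_def, Complex.reCLM_apply] at h4
  have h5 : q * ((4 - 4 * cexp (4 * (-a + b * I)) + 4 * (-a + b * I) / p) * -1) =
    q * (-(4 - 4 * cexp (4 * (-a + b * I)) + 4 * (-a + b * I) / p)) := by ring
  rw [h5] at h4
  exact h4

private theorem fth_form (p : ℂ) (b : ℝ) (a : ℝ) :
    (Real.pi * cexp (4 * p) * (-(4 - 4 * cexp (4 * (-a + b * I)) + 4 * (-a + b * I) / p))).re =
      4 * (Real.pi * cexp (4 * p) / p).re * a +
      (-4 * (Real.pi * cexp (4 * p)).re + 4 * b * (Real.pi * cexp (4 * p) / p).im) +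
      4 * EE p * Real.cos (4 * (p.im + b)) * Real.exp (-4 * a) := by
  have h1 : Real.pi * cexp (4 * p) * (-(4 - 4 * cexp (4 * (-a + b * I)) + 4 * (-a + b * I) / p)) =
      ((-4 : ℝ) : ℂ) * (Real.pi * cexp (4 * p)) + ((4 * Real.pi : ℝ) : ℂ) * cexp (4 * p + 4 * (-a + b * I)) +
      ((4 * a : ℝ) : ℂ) * (Real.pi * cexp (4 * p) / p) - ((4 * b : ℝ) : ℂ) * (I * (Real.pi * cexp (4 * p) / p)) := by
    rw [Complex.exp_add]
    push_cast
    ring
  rw [h1, Complex.sub_re, Complex.add_re, Complex.add_re, Complex.re_ofReal_mul (-4),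
    Complex.re_ofReal_mul (4 * Real.pi), Complex.re_ofReal_mul (4 * a), Complex.re_ofReal_mul (4 * b),
    Complex.exp_re (4 * p + 4 * (-a + b * I)), Complex.I_mul_re]
  have h2 : (4 * p + 4 * (-a + b * I)).re = 4 * p.re + -4 * a := by
    simp
  have h3 : (4 * p + 4 * (-a + b * I)).im = 4 * (p.im + b) := by
    simp
    ring
  rw [h2, h3, Real.exp_add]
  unfold EE
  ring

private theorem fth_q (p : ℂ) : (Real.pi * cexp (4 * p) : ℂ) = (EE p : ℂ) * cexp (4 * p.im * I) := by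
  have h1 : 4 * p = ((4 * p.re : ℝ) : ℂ) + 4 * p.im * I := by
    conv_lhs => rw [← Complex.re_add_im p]
    push_cast
    ring
  rw [h1, Complex.exp_add]
  unfold EE
  push_cast
  ring

private theorem fth_qn (p : ℂ) : ‖(Real.pi * cexp (4 * p) : ℂ)‖ = EE p := by
  rw [fth_q, norm_mul]
  have h1 : (4 * p.im * I : ℂ) = ((4 * p.im : ℝ) : ℂ) * I := by push_cast; ring
  rw [h1, Complex.norm_exp_ofReal_mul_I, mul_one]
  unfold EE
  rw [Complex.norm_real, Real.norm_eq_abs, abs_of_nonneg (by positivity)]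

private theorem fth_x (p : ℂ) (r : ℝ) :
    (-((r * Real.cos (2 * p.im) : ℝ) : ℂ) + ((r * Real.sin (2 * p.im) : ℝ) : ℂ) * I) = -(r * dd p) := by
  unfold dd
  have h1 : (-(2 * p.im * I) : ℂ) = ((-(2 * p.im) : ℝ) : ℂ) * I := by push_cast; ring
  rw [h1, Complex.exp_mul_I, ← Complex.ofReal_cos, ← Complex.ofReal_sin, Real.cos_neg, Real.sin_neg]
  push_cast
  ring

private theorem fth_ddn (p : ℂ) : ‖dd p‖ = 1 := by
  unfold dd
  have h1 : (-(2 * p.im * I) : ℂ) = ((-(2 * p.im) : ℝ) : ℂ) * I := by push_cast; ring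
  rw [h1, Complex.norm_exp_ofReal_mul_I]

private theorem fth_qd (p : ℂ) : (Real.pi * cexp (4 * p) : ℂ) * dd p ^ 2 = (EE p : ℂ) := by
  rw [fth_q]
  unfold dd
  rw [mul_assoc, ← Complex.exp_nat_mul, ← Complex.exp_add]
  have h1 : (4 * p.im * I + ((2 : ℕ) : ℂ) * -(2 * p.im * I) : ℂ) = 0 := by push_cast; ring
  rw [h1, Complex.exp_zero, mul_one]

private theorem fth_qd1 (p : ℂ) : ((Real.pi * cexp (4 * p) : ℂ) * dd p).re = EE p * Real.cos (2 * p.im) := by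
  rw [fth_q]
  unfold dd
  rw [mul_assoc, ← Complex.exp_add, Complex.re_ofReal_mul]
  have h1 : (4 * p.im * I + -(2 * p.im * I) : ℂ) = ((2 * p.im : ℝ) : ℂ) * I := by push_cast; ring
  rw [h1, Complex.exp_ofReal_mul_I_re]

private theorem fth_cos {y : ℝ} (h0 : 0 ≤ y) (h1 : y < Real.pi / 8) : 7 / 10 ≤ Real.cos (2 * y) := by
  have h2 : Real.cos (Real.pi / 4) ≤ Real.cos (2 * y) :=
    Real.cos_le_cos_of_nonneg_of_le_pi (by linarith) (by linarith [Real.pi_pos]) (by linarith)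
  rw [Real.cos_pi_div_four] at h2
  have h3 : 1.4 ≤ Real.sqrt 2 := by
    rw [show (1.4 : ℝ) = Real.sqrt (1.4 ^ 2) from (Real.sqrt_sq (by norm_num)).symm]
    exact Real.sqrt_le_sqrt (by norm_num)
  linarith

/-- the value at `- r dd p` and the sign of the derivative there -/
private theorem fth_val (p : ℂ) (h100 : 100 ≤ p.re) (hn : p.re ≤ ‖p‖) :
    (Real.pi * cexp (4 * p) * ff p (-(rr p * dd p))).re ≤ -(7 * EE p * rr p ^ 2) := by
  have hv : 0 < p.re := by linarith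
  have hr0 : 0 < rr p := by unfold rr; positivity
  have hr1 : rr p ≤ 1 / 2000 := by
    unfold rr
    exact one_div_le_one_div_of_le (by norm_num) (by linarith)
  have hE : 0 < EE p := by unfold EE; positivity
  have hxn : ‖(-(rr p * dd p) : ℂ)‖ = rr p := by
    rw [norm_neg, norm_mul, fth_ddn, mul_one, Complex.norm_real, Real.norm_eq_abs, abs_of_pos hr0]
  have h1 := ff_taylor p (-(rr p * dd p)) (by rw [hxn]; linarith)
  rw [hxn] at h1
  set e : ℂ := ff p (-(rr p * dd p)) - (-8 * (-(rr p * dd p)) ^ 2 + 2 * (-(rr p * dd p)) ^ 2 / p) with he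
  have h2 : Real.pi * cexp (4 * p) * ff p (-(rr p * dd p)) =
      ((-8 * EE p * rr p ^ 2 : ℝ) : ℂ) + ((2 * EE p * rr p ^ 2 : ℝ) : ℂ) * (1 / p) +
        Real.pi * cexp (4 * p) * e := by
    have h3 : ff p (-(rr p * dd p)) = (-8 * (-(rr p * dd p)) ^ 2 + 2 * (-(rr p * dd p)) ^ 2 / p) + e := by
      rw [he]; ring
    rw [h3]
    have h4 := fth_qd p
    push_cast
    rw [← h4]
    ring
  rw [h2, Complex.add_re, Complex.add_re, Complex.ofReal_re, Complex.re_ofReal_mul]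
  have h5 : (Real.pi * cexp (4 * p) * e).re ≤ EE p * (12 * rr p ^ 3) := by
    refine (Complex.re_le_norm _).trans ?_
    rw [norm_mul, fth_qn]
    exact mul_le_mul_of_nonneg_left h1 hE.le
  have h6 : (1 / p : ℂ).re ≤ 1 / 100 := by
    refine (Complex.re_le_norm _).trans ?_
    rw [norm_div, norm_one]
    exact one_div_le_one_div_of_le (by norm_num) (by linarith)
  have h7 : 2 * EE p * rr p ^ 2 * (1 / p : ℂ).re ≤ 2 * EE p * rr p ^ 2 * (1 / 100) :=
    mul_le_mul_of_nonneg_left h6 (by positivity)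
  have h8 : EE p * (12 * rr p ^ 3) ≤ EE p * (12 * (1 / 2000 * rr p ^ 2)) := by
    refine mul_le_mul_of_nonneg_left ?_ hE.le
    have : rr p ^ 3 = rr p * rr p ^ 2 := by ring
    rw [this]
    have := mul_le_mul_of_nonneg_right hr1 (sq_nonneg (rr p))
    linarith
  have h9 : 0 ≤ EE p * rr p ^ 2 := by positivity
  nlinarith [h5, h7, h8, h9]

private theorem fth_der (p : ℂ) (h100 : 100 ≤ p.re) (hn : p.re ≤ ‖p‖) (h0 : 0 ≤ p.im)
    (h1 : p.im < Real.pi / 8) :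
    (Real.pi * cexp (4 * p) * (-(4 - 4 * cexp (4 * (-(rr p * dd p))) + 4 * (-(rr p * dd p)) / p))).re ≤ 0 := by
  have hv : 0 < p.re := by linarith
  have hr0 : 0 < rr p := by unfold rr; positivity
  have hr1 : rr p ≤ 1 / 2000 := by
    unfold rr
    exact one_div_le_one_div_of_le (by norm_num) (by linarith)
  have hE : 0 < EE p := by unfold EE; positivity
  have hxn : ‖(-(rr p * dd p) : ℂ)‖ = rr p := by
    rw [norm_neg, norm_mul, fth_ddn, mul_one, Complex.norm_real, Real.norm_eq_abs, abs_of_pos hr0]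
  have hxn4 : ‖(4 * (-(rr p * dd p)) : ℂ)‖ = 4 * rr p := by
    rw [norm_mul, hxn]; norm_num
  have h2 := Complex.norm_exp_sub_one_sub_id_le (x := 4 * (-(rr p * dd p))) (by rw [hxn4]; linarith)
  rw [hxn4] at h2
  set e : ℂ := cexp (4 * (-(rr p * dd p))) - 1 - 4 * (-(rr p * dd p)) with he
  have h3 : Real.pi * cexp (4 * p) * (-(4 - 4 * cexp (4 * (-(rr p * dd p))) + 4 * (-(rr p * dd p)) / p)) =
      ((-16 * rr p : ℝ) : ℂ) * (Real.pi * cexp (4 * p) * dd p) +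
        (Real.pi * cexp (4 * p) * (4 * e)) + Real.pi * cexp (4 * p) * (4 * (rr p * dd p) * (1 / p)) := by
    have h4 : cexp (4 * (-(rr p * dd p))) = e + 1 + 4 * (-(rr p * dd p)) := by rw [he]; ring
    rw [h4]
    push_cast
    ring
  rw [h3, Complex.add_re, Complex.add_re, Complex.re_ofReal_mul, fth_qd1]
  have h5 : (Real.pi * cexp (4 * p) * (4 * e)).re ≤ EE p * (4 * (4 * rr p) ^ 2) := by
    refine (Complex.re_le_norm _).trans ?_
    rw [norm_mul, fth_qn, norm_mul]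
    refine mul_le_mul_of_nonneg_left ?_ hE.le
    norm_num
    linarith
  have h6 : (Real.pi * cexp (4 * p) * (4 * (rr p * dd p) * (1 / p))).re ≤ EE p * (4 * rr p * (1 / 100)) := by
    refine (Complex.re_le_norm _).trans ?_
    rw [norm_mul, fth_qn, norm_mul, norm_mul, norm_mul, fth_ddn, norm_div, norm_one, Complex.norm_real,
      Real.norm_eq_abs, abs_of_pos hr0]
    refine mul_le_mul_of_nonneg_left ?_ hE.le
    have h7 : 1 / ‖p‖ ≤ 1 / 100 := one_div_le_one_div_of_le (by norm_num) (by linarith)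
    have h8 : ‖(4 : ℂ)‖ = 4 := by norm_num
    rw [h8, mul_one]
    exact mul_le_mul_of_nonneg_left h7 (by positivity)
  have h9 := fth_cos h0 h1
  have h10 : 7 / 10 * (EE p * rr p) ≤ Real.cos (2 * p.im) * (EE p * rr p) :=
    mul_le_mul_of_nonneg_right h9 (by positivity)
  have h11 : EE p * rr p * rr p ≤ EE p * rr p * (1 / 2000) :=
    mul_le_mul_of_nonneg_left hr1 (by positivity)
  have h12 : 0 < EE p * rr p := by positivity
  nlinarith [h5, h6, h10, h11, h12]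

theorem th_bd : ∃ V : ℝ, 100 ≤ V ∧ ∀ p ∈ Reg V, ∀ a : ℝ, rr p * Real.cos (2 * p.im) ≤ a → a ≤ p.re →
    (Real.pi * cexp (4 * p) * ff p (-a + rr p * Real.sin (2 * p.im) * I)).re ≤
      max (-(7 * EE p * rr p ^ 2))
        (Real.pi * cexp (4 * p) * ff p (-p.re + rr p * Real.sin (2 * p.im) * I)).re := by
  obtain ⟨V, hV, hall⟩ := reg_all
  refine ⟨V, hV, ?_⟩
  intro p hp a ha1 ha2
  obtain ⟨-, -, hc, -, -, -, hn, -⟩ := hall p hp
  obtain ⟨hp1, hp2, hp3, -⟩ := hp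
  have h100 : 100 ≤ p.re := hV.trans hp1
  have hv : 0 < p.re := by linarith
  have hE : 0 < EE p := by unfold EE; positivity
  have hcos : 0 ≤ Real.cos (4 * (p.im + rr p * Real.sin (2 * p.im))) :=
    le_trans (by positivity) hc
  have hmain := fth_max (fun a : ℝ => (Real.pi * cexp (4 * p) *
      ff p (-a + ((rr p * Real.sin (2 * p.im) : ℝ) : ℂ) * I)).re)
    (fun a : ℝ => (Real.pi * cexp (4 * p) * (-(4 - 4 * cexp (4 * (-a +
      ((rr p * Real.sin (2 * p.im) : ℝ) : ℂ) * I)) + 4 * (-a + ((rr p * Real.sin (2 * p.im) : ℝ) : ℂ) * I) / p))).re)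
    (fun a => fth_HD p (Real.pi * cexp (4 * p)) (rr p * Real.sin (2 * p.im)) a)
    (4 * (Real.pi * cexp (4 * p) / p).re)
    (-4 * (Real.pi * cexp (4 * p)).re +
      4 * (rr p * Real.sin (2 * p.im)) * (Real.pi * cexp (4 * p) / p).im)
    (4 * EE p * Real.cos (4 * (p.im + rr p * Real.sin (2 * p.im)))) (by positivity)
    (fun a => fth_form p (rr p * Real.sin (2 * p.im)) a)
    (rr p * Real.cos (2 * p.im)) a p.re
    (by
      rw [fth_x p (rr p)]
      exact fth_der p h100 hn hp2 hp3) ha1 ha2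
  beta_reduce at hmain
  rw [fth_x p (rr p)] at hmain
  have h1 := fth_val p h100 hn
  have h2 := hmain.trans (max_le_max_right _ h1)
  push_cast at h2 ⊢
  exact h2

private theorem FTh2_E4 (p : ℂ) :
    (Real.pi : ℂ) * cexp (4 * p) = (EE p : ℂ) * cexp ((4 * p.im : ℝ) * I) := by
  have h1 : (4 : ℂ) * p = ((4 * p.re : ℝ) : ℂ) + ((4 * p.im : ℝ) : ℂ) * I := by
    apply Complex.ext
    · simp
    · simp
  rw [h1, Complex.exp_add, EE]
  push_cast
  ring

private theorem FTh2_dd (p : ℂ) :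
    cexp ((4 * p.im : ℝ) * I) * dd p = cexp ((2 * p.im : ℝ) * I) := by
  unfold dd
  rw [← Complex.exp_add]
  have h1 : ((4 * p.im : ℝ) : ℂ) * I + -(2 * (p.im : ℂ) * I) = ((2 * p.im : ℝ) : ℂ) * I := by
    push_cast
    ring
  rw [h1]

private theorem FTh2_dd2 (p : ℂ) : cexp ((4 * p.im : ℝ) * I) * dd p ^ 2 = 1 := by
  have h1 : cexp ((4 * p.im : ℝ) * I) * dd p ^ 2 =
      (cexp ((4 * p.im : ℝ) * I) * dd p) * dd p := by ring
  rw [h1, FTh2_dd]
  unfold dd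
  rw [← Complex.exp_add]
  have h2 : ((2 * p.im : ℝ) : ℂ) * I + -(2 * (p.im : ℂ) * I) = 0 := by
    push_cast
    ring
  rw [h2, Complex.exp_zero]

private theorem FTh2_ndd (p : ℂ) : ‖dd p‖ = 1 := by
  unfold dd
  have h1 : -(2 * (p.im : ℂ) * I) = ((-(2 * p.im) : ℝ) : ℂ) * I := by
    push_cast
    ring
  rw [h1, Complex.norm_exp_ofReal_mul_I]

private theorem FTh2_split (p x : ℂ) (y : ℝ) :
    ff p (x + y) = ff p x + (4 * (y : ℂ) - cexp (4 * x) * ((Real.exp (4 * y) - 1 : ℝ) : ℂ) +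
      (4 * x * y + 2 * (y : ℂ) ^ 2) / p) := by
  unfold ff
  have h1 : cexp (4 * (x + (y : ℂ))) = cexp (4 * x) * ((Real.exp (4 * y) : ℝ) : ℂ) := by
    rw [mul_add, Complex.exp_add, Complex.ofReal_exp]
    push_cast
    rfl
  rw [h1]
  push_cast
  ring

private theorem FTh2_zero (p : ℂ) (hv : 100 ≤ p.re) :
    (cexp ((4 * p.im : ℝ) * I) * ff p (rr p * dd p)).re ≤ -(7 * rr p ^ 2) := by
  have hv0 : 0 < p.re := by linarith
  have hr0 : 0 < rr p := by
    unfold rr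
    positivity
  have hr1 : rr p ≤ 1 / 2000 := by
    unfold rr
    rw [div_le_div_iff₀ (by positivity) (by norm_num)]
    linarith
  have hnx : ‖(rr p : ℂ) * dd p‖ = rr p := by
    rw [norm_mul, FTh2_ndd, mul_one, Complex.norm_real, Real.norm_eq_abs, abs_of_pos hr0]
  have hT := ff_taylor p ((rr p : ℂ) * dd p) (by rw [hnx]; linarith)
  rw [hnx] at hT
  have hpn : p.re ≤ ‖p‖ := Complex.re_le_norm p
  have hE : ‖cexp ((4 * p.im : ℝ) * I)‖ = 1 := Complex.norm_exp_ofReal_mul_I _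
  have h1 : (cexp ((4 * p.im : ℝ) * I) * (ff p (rr p * dd p) -
      (-8 * ((rr p : ℂ) * dd p) ^ 2 + 2 * ((rr p : ℂ) * dd p) ^ 2 / p))).re ≤ 12 * rr p ^ 3 := by
    refine (Complex.re_le_norm _).trans ?_
    rw [norm_mul, hE, one_mul]
    exact hT
  have h2 : cexp ((4 * p.im : ℝ) * I) * (-8 * ((rr p : ℂ) * dd p) ^ 2 +
      2 * ((rr p : ℂ) * dd p) ^ 2 / p) = ((-8 * rr p ^ 2 : ℝ) : ℂ) + ((2 * rr p ^ 2 : ℝ) : ℂ) * (1 / p) := by
    have h3 := FTh2_dd2 p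
    have h4 : cexp ((4 * p.im : ℝ) * I) * (-8 * ((rr p : ℂ) * dd p) ^ 2 +
        2 * ((rr p : ℂ) * dd p) ^ 2 / p) =
        (cexp ((4 * p.im : ℝ) * I) * dd p ^ 2) * (-8 * (rr p : ℂ) ^ 2 + 2 * (rr p : ℂ) ^ 2 * (1 / p)) := by
      ring
    rw [h4, h3]
    push_cast
    ring
  have h5 : (1 / p).re ≤ 1 / p.re := by
    refine (Complex.re_le_norm _).trans ?_
    rw [norm_div, norm_one]
    exact div_le_div_of_nonneg_left zero_le_one hv0 hpn
  rw [mul_sub, Complex.sub_re, h2, Complex.add_re, Complex.ofReal_re, Complex.re_ofReal_mul] at h1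
  have h6 : 2 * rr p ^ 2 * (1 / p).re ≤ 2 * rr p ^ 2 * (1 / p.re) :=
    mul_le_mul_of_nonneg_left h5 (by positivity)
  have h7 : 1 / p.re ≤ 1 / 100 := by
    exact div_le_div_of_nonneg_left zero_le_one (by norm_num) hv
  have h8 : 2 * rr p ^ 2 * (1 / p.re) ≤ 2 * rr p ^ 2 * (1 / 100) :=
    mul_le_mul_of_nonneg_left h7 (by positivity)
  have h9 : rr p ^ 3 ≤ rr p ^ 2 * (1 / 2000) := by
    have : rr p ^ 3 = rr p ^ 2 * rr p := by ring
    rw [this]
    exact mul_le_mul_of_nonneg_left hr1 (by positivity)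
  have h10 : 0 < rr p ^ 2 := by positivity
  linarith

private theorem FTh2_kap (p : ℂ) (hv : 100 ≤ p.re) (h0 : 0 ≤ p.im) (h1 : p.im < Real.pi / 8) :
    Real.cos (4 * p.im) + 2 * rr p ≤
      (cexp ((4 * p.im : ℝ) * I) * cexp (4 * (rr p * dd p))).re := by
  have hv0 : 0 < p.re := by linarith
  have hr0 : 0 < rr p := by
    unfold rr
    positivity
  have hr1 : rr p ≤ 1 / 2000 := by
    unfold rr
    rw [div_le_div_iff₀ (by positivity) (by norm_num)]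
    linarith
  have hnx : ‖(4 : ℂ) * ((rr p : ℂ) * dd p)‖ = 4 * rr p := by
    rw [norm_mul, norm_mul, FTh2_ndd, mul_one, Complex.norm_real, Real.norm_eq_abs, abs_of_pos hr0]
    norm_num
  have hT := Complex.norm_exp_sub_one_sub_id_le (x := 4 * ((rr p : ℂ) * dd p))
    (by rw [hnx]; linarith)
  rw [hnx] at hT
  have hE : ‖cexp ((4 * p.im : ℝ) * I)‖ = 1 := Complex.norm_exp_ofReal_mul_I _
  have h2 : -(4 * rr p) ^ 2 ≤ (cexp ((4 * p.im : ℝ) * I) *
      (cexp (4 * (rr p * dd p)) - 1 - 4 * ((rr p : ℂ) * dd p))).re := by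
    have h3 : ‖cexp ((4 * p.im : ℝ) * I) *
        (cexp (4 * (rr p * dd p)) - 1 - 4 * ((rr p : ℂ) * dd p))‖ ≤ (4 * rr p) ^ 2 := by
      rw [norm_mul, hE, one_mul]
      exact hT
    have h4 := (Complex.abs_re_le_norm (cexp ((4 * p.im : ℝ) * I) *
        (cexp (4 * (rr p * dd p)) - 1 - 4 * ((rr p : ℂ) * dd p)))).trans h3
    exact (abs_le.1 h4).1
  have h5 : cexp ((4 * p.im : ℝ) * I) * (cexp (4 * (rr p * dd p)) - 1 - 4 * ((rr p : ℂ) * dd p)) =
      cexp ((4 * p.im : ℝ) * I) * cexp (4 * (rr p * dd p)) - cexp ((4 * p.im : ℝ) * I) -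
        ((4 * rr p : ℝ) : ℂ) * cexp ((2 * p.im : ℝ) * I) := by
    rw [← FTh2_dd p]
    push_cast
    ring
  rw [h5, Complex.sub_re, Complex.sub_re, Complex.re_ofReal_mul, Complex.exp_ofReal_mul_I_re,
    Complex.exp_ofReal_mul_I_re] at h2
  have h6 : (7 : ℝ) / 10 ≤ Real.cos (2 * p.im) := by
    have h7 : Real.cos (Real.pi / 4) ≤ Real.cos (2 * p.im) :=
      Real.cos_le_cos_of_nonneg_of_le_pi (by linarith) (by linarith [Real.pi_pos]) (by linarith)
    rw [Real.cos_pi_div_four] at h7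
    have h8 : (14 : ℝ) / 10 ≤ Real.sqrt 2 := by
      apply Real.le_sqrt_of_sq_le
      norm_num
    linarith
  have h9 : 4 * rr p * (7 / 10) ≤ 4 * rr p * Real.cos (2 * p.im) :=
    mul_le_mul_of_nonneg_left h6 (by positivity)
  have h10 : rr p ^ 2 ≤ rr p * (1 / 2000) := by
    have : rr p ^ 2 = rr p * rr p := by ring
    rw [this]
    exact mul_le_mul_of_nonneg_left hr1 hr0.le
  have h11 : (4 * rr p) ^ 2 = 16 * rr p ^ 2 := by ring
  rw [h11] at h2
  linarith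

private theorem FTh2_ip (p : ℂ) (hv : 100 ≤ p.re) (h0 : 0 ≤ p.im) (h1 : p.im < Real.pi / 8)
    (hc : 0 ≤ Real.cos (4 * p.im)) :
    (cexp ((4 * p.im : ℝ) * I) / p).re ≤ Real.cos (4 * p.im) / p.re + 4 / 10 / p.re ^ 2 := by
  have hv0 : 0 < p.re := by linarith
  rw [Complex.div_re, Complex.exp_ofReal_mul_I_re, Complex.exp_ofReal_mul_I_im]
  have hn : p.re ^ 2 ≤ Complex.normSq p := by
    rw [Complex.normSq_apply]
    have := mul_self_nonneg p.im
    linarith [sq p.re]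
  have hn0 : 0 < Complex.normSq p := lt_of_lt_of_le (by positivity) hn
  have h2 : Real.cos (4 * p.im) * p.re / Complex.normSq p ≤ Real.cos (4 * p.im) / p.re := by
    rw [div_le_div_iff₀ hn0 hv0]
    have h3 : Real.cos (4 * p.im) * p.re * p.re = Real.cos (4 * p.im) * p.re ^ 2 := by ring
    rw [h3]
    exact mul_le_mul_of_nonneg_left hn hc
  have h4 : p.im ≤ 4 / 10 := by
    have := Real.pi_lt_d2
    linarith
  have h5 : Real.sin (4 * p.im) * p.im ≤ 4 / 10 := by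
    have h6 := Real.sin_le_one (4 * p.im)
    calc Real.sin (4 * p.im) * p.im ≤ 1 * p.im := mul_le_mul_of_nonneg_right h6 h0
      _ ≤ 4 / 10 := by linarith
  have h7 : Real.sin (4 * p.im) * p.im / Complex.normSq p ≤ 4 / 10 / p.re ^ 2 := by
    calc Real.sin (4 * p.im) * p.im / Complex.normSq p ≤ 4 / 10 / Complex.normSq p :=
          div_le_div_of_nonneg_right h5 hn0.le
      _ ≤ 4 / 10 / p.re ^ 2 := div_le_div_of_nonneg_left (by norm_num) (by positivity) hn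
  linarith

theorem ph_bd : ∃ V : ℝ, 100 ≤ V ∧ ∀ p ∈ Reg V, ∀ y : ℝ, 0 ≤ y →
    (Real.pi * cexp (4 * p) * ff p (rr p * dd p + y)).re ≤
      -(7 * EE p * rr p ^ 2) - EE p / p.re * y ^ 2 := by
  obtain ⟨V, hV, hreg⟩ := reg_all
  refine ⟨V, hV, fun p hp y hy => ?_⟩
  obtain ⟨-, hc, -, -, -, -, -, -⟩ := hreg p hp
  obtain ⟨hpV, h0, h1, -⟩ := hp
  have hv : 100 ≤ p.re := hV.trans hpV
  have hv0 : 0 < p.re := by linarith
  have hr0 : 0 < rr p := by
    unfold rr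
    positivity
  have hc0 : 0 ≤ Real.cos (4 * p.im) := le_trans (by positivity) hc
  have hN : 0 < EE p := by
    unfold EE
    positivity
  have hk := FTh2_kap p hv h0 h1
  have hi := FTh2_ip p hv h0 h1 hc0
  have hz := FTh2_zero p hv
  have hpn : p.re ≤ ‖p‖ := Complex.re_le_norm p
  have hd : (cexp ((4 * p.im : ℝ) * I) * dd p / p).re ≤ 1 / p.re := by
    refine (Complex.re_le_norm _).trans ?_
    rw [norm_div, norm_mul, Complex.norm_exp_ofReal_mul_I, FTh2_ndd, mul_one]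
    exact div_le_div_of_nonneg_left zero_le_one hv0 hpn
  have hy1 : 4 * y + 8 * y ^ 2 ≤ Real.exp (4 * y) - 1 := by
    have h2 := Real.quadratic_le_exp_of_nonneg (x := 4 * y) (by linarith)
    have h3 : (4 * y) ^ 2 / 2 = 8 * y ^ 2 := by ring
    rw [h3] at h2
    linarith
  have hmain : (cexp ((4 * p.im : ℝ) * I) * ff p (rr p * dd p + y)).re ≤
      -(7 * rr p ^ 2) - 1 / p.re * y ^ 2 := by
    rw [FTh2_split, mul_add, Complex.add_re]
    have h2 : cexp ((4 * p.im : ℝ) * I) * (4 * (y : ℂ) -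
        cexp (4 * (rr p * dd p)) * ((Real.exp (4 * y) - 1 : ℝ) : ℂ) +
        (4 * (rr p * dd p) * y + 2 * (y : ℂ) ^ 2) / p) =
        ((4 * y : ℝ) : ℂ) * cexp ((4 * p.im : ℝ) * I) -
        ((Real.exp (4 * y) - 1 : ℝ) : ℂ) * (cexp ((4 * p.im : ℝ) * I) * cexp (4 * (rr p * dd p))) +
        ((4 * rr p * y : ℝ) : ℂ) * (cexp ((4 * p.im : ℝ) * I) * dd p / p) +
        ((2 * y ^ 2 : ℝ) : ℂ) * (cexp ((4 * p.im : ℝ) * I) / p) := by
      push_cast
      ring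
    rw [h2, Complex.add_re, Complex.add_re, Complex.sub_re, Complex.re_ofReal_mul,
      Complex.re_ofReal_mul, Complex.re_ofReal_mul, Complex.re_ofReal_mul,
      Complex.exp_ofReal_mul_I_re]
    have e0 : 0 ≤ Real.exp (4 * y) - 1 := le_trans (by positivity) hy1
    have e1 : (4 * y + 8 * y ^ 2) * (Real.cos (4 * p.im) + 2 * rr p) ≤
        (Real.exp (4 * y) - 1) *
          (cexp ((4 * p.im : ℝ) * I) * cexp (4 * (rr p * dd p))).re :=
      mul_le_mul hy1 hk (by positivity) e0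
    have e2 : 4 * rr p * y * (cexp ((4 * p.im : ℝ) * I) * dd p / p).re ≤
        4 * rr p * y * (1 / 100) :=
      mul_le_mul_of_nonneg_left
        (hd.trans (div_le_div_of_nonneg_left zero_le_one (by norm_num) hv)) (by positivity)
    have e3 : 2 * y ^ 2 * (cexp ((4 * p.im : ℝ) * I) / p).re ≤
        2 * y ^ 2 * (Real.cos (4 * p.im) / p.re + 4 / 10 / p.re ^ 2) :=
      mul_le_mul_of_nonneg_left hi (by positivity)
    have e4 : Real.cos (4 * p.im) / p.re ≤ Real.cos (4 * p.im) := by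
      rw [div_le_iff₀ hv0]
      calc Real.cos (4 * p.im) = Real.cos (4 * p.im) * 1 := (mul_one _).symm
        _ ≤ Real.cos (4 * p.im) * p.re := mul_le_mul_of_nonneg_left (by linarith) hc0
    have e5 : 4 / 10 / p.re ^ 2 ≤ 1 / 10 / p.re := by
      rw [div_le_div_iff₀ (by positivity) hv0]
      have : p.re ^ 2 = p.re * p.re := by ring
      rw [this]
      have h6 : 4 * p.re ≤ p.re * p.re := mul_le_mul_of_nonneg_right (by linarith) hv0.le
      linarith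
    have e6 : 2 * y ^ 2 * (Real.cos (4 * p.im) / p.re + 4 / 10 / p.re ^ 2) ≤
        2 * y ^ 2 * (Real.cos (4 * p.im) + 1 / 10 / p.re) :=
      mul_le_mul_of_nonneg_left (by linarith) (by positivity)
    have e7 : y ^ 2 * (38 / 100 / p.re) ≤ y ^ 2 * Real.cos (4 * p.im) :=
      mul_le_mul_of_nonneg_left hc (by positivity)
    have e8 : 0 ≤ rr p * y := by positivity
    have e9 : 0 ≤ rr p * y ^ 2 := by positivity
    have e10 : 0 ≤ y ^ 2 * (1 / p.re) := by positivity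
    have e11 : y ^ 2 * (38 / 100 / p.re) = 38 / 100 * (y ^ 2 * (1 / p.re)) := by ring
    have e12 : 2 * y ^ 2 * (Real.cos (4 * p.im) + 1 / 10 / p.re) =
        2 * (y ^ 2 * Real.cos (4 * p.im)) + 2 / 10 * (y ^ 2 * (1 / p.re)) := by ring
    have e13 : (4 * y + 8 * y ^ 2) * (Real.cos (4 * p.im) + 2 * rr p) =
        4 * y * Real.cos (4 * p.im) + 8 * (y ^ 2 * Real.cos (4 * p.im)) + 8 * (rr p * y) +
          16 * (rr p * y ^ 2) := by ring
    have e14 : 4 * rr p * y * (1 / 100) = 4 / 100 * (rr p * y) := by ring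
    have e15 : 1 / p.re * y ^ 2 = y ^ 2 * (1 / p.re) := by ring
    rw [e11] at e7
    rw [e12] at e6
    rw [e13] at e1
    rw [e14] at e2
    rw [e15]
    linarith
  rw [FTh2_E4, mul_assoc, Complex.re_ofReal_mul]
  have hfin := mul_le_mul_of_nonneg_left hmain hN.le
  have h3 : EE p * (-(7 * rr p ^ 2) - 1 / p.re * y ^ 2) =
      -(7 * EE p * rr p ^ 2) - EE p / p.re * y ^ 2 := by ring
  rw [h3] at hfin
  exact hfin

end Pool.Agent.Lib.MP_ec260d_ntC
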