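import Mathlib
import Pool.Agent.Lib.MP_ec260d_ntC.DefsW
import Pool.Agent.Lib.MP_ec260d_ntC.RegP
import Pool.Agent.Lib.MP_ec260d_ntC.FTh
import Pool.Agent.Lib.MP_ec260d_ntC.ContR

/-!
# JOB LLa: the contribution of the saddle point (about 350 lines)

`p = v + i η ∈ Reg V`, `N = EE p = π e^{4v}`, `ρ = rr p`, `d = dd p = e^{-2iη}`, `‖d‖ = 1`, `u = p + s d`, `|s| ≤ ρ`.
`aa2_eq`: `SG t z (p - ρd) (p + ρd) = 2ρd ∫_0^1 gg t z (p - ρd + 2ρσd) dσ = d ∫_{-ρ}^{ρ} gg t z (p + s d) ds`; `exp (i (ζ/p) u) exp (-iζ) = exp (iζ s d/p)`; `1/NN p = (2√2/π²) exp (-7p - SS p)`, so `(1/2) gg * exp (-iζ)/NN p = (1/2) (2√2/π²) 2π² exp (2p) KK p s exp (iζ s d/p)`, and `d exp (2p) = exp (2v)`.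
`KK_bound`: `ff_eq`: with `x = s d`: `KK p s = exp (π e^{4p} ff p x + 9x) (1 + κ)`, `1 + κ = Ph u / (2π² exp (9u - π e^{4u}))`.  `Ph_main` (the factor `exp (9 Re u - π Re e^{4u})` is `‖exp (9u - πe^{4u})‖`): `‖κ‖ ≤ C (e^{-4 Re u} + (Re e^{4u})^(-3))`; `Re u ≥ v - 1`, `Re e^{4u} ≥ e^{4(v-1)} * 0.23/v`
(`|Im u| ≤ η + ρ |sin 2η|`, `reg_all`), so `‖κ‖ ≤ C/v`.  `ff_taylor`, `π e^{4p} x² = N s²`: `π e^{4p} ff p x = -8 N s² + w1`, `‖w1‖ ≤ 2 N s²/v + 12 N |s|³`; `w = w1 + 9x`: `‖w‖ ≤ 2N s²/v + 12 N|s|³ + 9|s| ≤ N s² + 1` (`|s| ≤ 1/(20v)`).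
`‖e^w (1 + κ) - 1‖ ≤ (‖w‖ + ‖κ‖) e^{‖w‖} (1 + ...)`, so `‖KK p s - exp (-8Ns²)‖ ≤ C (1/v + |s| + N s²/v + N |s|³) exp (-7 N s²)`.
`aa2_bound`: `∫_ℝ |s|^k exp (-6 N s²) ds ≤ C_k N^(-(k+1)/2)` (`integral_rpow_mul_exp_neg_mul_sq` or scaling); `‖exp (iζ s d/p)‖ ≤ exp (M ρ) ≤ e` for `v` large, `‖exp (iζ s d/p) - 1‖ ≤ e M |s|/v`.  `2√2 e^{2v} ∫_ℝ exp (-8Ns²) ds = 2√2 sqrt(N/π) sqrt (π/(8N)) = 1` (`integral_gaussian`), the tail: `∫_{|s|>ρ} exp (-8Ns²) ≤ exp (-4Nρ²) ∫ exp (-4Ns²)`,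
`e^{2v} = sqrt (N/π)`, and `exp (-4Nρ²) ≤ 1/(4Nρ²) ≤ 100 v²/N ≤ C/v`.  So `‖aa2 p ζ - 1‖ ≤ C sqrt N (1/(v sqrt N) + 1/N + ...) + C/v ≤ C/v`.
Derivatives in `ζ`: differentiate under the integral (compact interval, or `hasDerivAt_integral_of_dominated_loc_of_deriv_le`): the factors `i s d/p`, `(i s d/p)²`, of modulus `≤ |s|/v`, `s²/v²`, and `‖KK p s‖ ≤ C exp (-6 N s²)`.
-/

namespace Pool.Agent.Lib.MP_ec260d_ntC

open Complex Set Filter Topology Metric MeasureTheory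

/-- the normalized integrand on the saddle point segment -/
noncomputable def KK (p : ℂ) (s : ℝ) : ℂ :=
  cexp (tp p * (p + s * dd p) ^ 2 - SS p - 9 * p) * Ph (p + s * dd p) / (2 * (Real.pi : ℂ) ^ 2)

/-- the normalized contribution of the saddle point -/
noncomputable def aa2 (p ζ : ℂ) : ℂ := 2 * (Real.sqrt 2 : ℂ) * (Real.exp (2 * p.re) : ℂ) *
  ∫ s in (-(rr p))..(rr p), KK p s * cexp (I * ζ * s * dd p / p)

private theorem LLa1_dd_eq (p : ℂ) : dd p = cexp ((-(2 * p.im) : ℝ) * I) := by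
  unfold dd
  have h1 : -(2 * (p.im : ℂ) * I) = ((-(2 * p.im) : ℝ) : ℂ) * I := by
    push_cast
    ring
  rw [h1]

private theorem LLa1_ndd (p : ℂ) : ‖dd p‖ = 1 := by
  rw [LLa1_dd_eq, Complex.norm_exp_ofReal_mul_I]

private theorem LLa1_re (p : ℂ) (s : ℝ) :
    (p + s * dd p).re = p.re + s * Real.cos (2 * p.im) := by
  rw [Complex.add_re, Complex.re_ofReal_mul, LLa1_dd_eq, Complex.exp_ofReal_mul_I_re, Real.cos_neg]

private theorem LLa1_im (p : ℂ) (s : ℝ) :
    (p + s * dd p).im = p.im - s * Real.sin (2 * p.im) := by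
  rw [Complex.add_im, Complex.im_ofReal_mul, LLa1_dd_eq, Complex.exp_ofReal_mul_I_im, Real.sin_neg]
  ring

/-- `π e^{4p} (s d)² = N s²` -/
private theorem LLa1_sq (p : ℂ) (s : ℝ) :
    (Real.pi : ℂ) * cexp (4 * p) * ((s : ℂ) * dd p) ^ 2 = ((EE p * s ^ 2 : ℝ) : ℂ) := by
  have h1 : cexp (4 * p) * dd p ^ 2 = ((Real.exp (4 * p.re) : ℝ) : ℂ) := by
    unfold dd
    rw [← Complex.exp_nat_mul, ← Complex.exp_add, Complex.ofReal_exp]
    congr 1
    apply Complex.ext
    · simp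
    · simp
      ring
  have h2 : (Real.pi : ℂ) * cexp (4 * p) * ((s : ℂ) * dd p) ^ 2 =
      (Real.pi : ℂ) * (s : ℂ) ^ 2 * (cexp (4 * p) * dd p ^ 2) := by ring
  rw [h2, h1, EE]
  push_cast
  ring

private theorem LLa1_npi (p : ℂ) : ‖(Real.pi : ℂ) * cexp (4 * p)‖ = EE p := by
  rw [norm_mul, Complex.norm_real, Real.norm_eq_abs, abs_of_pos Real.pi_pos, Complex.norm_exp, EE]
  have h1 : ((4 : ℂ) * p).re = 4 * p.re := by simp
  rw [h1]

private theorem LLa1_KK (p : ℂ) (hp : p ≠ 0) (s : ℝ) :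
    KK p s = cexp ((Real.pi : ℂ) * cexp (4 * p) * ff p ((s : ℂ) * dd p) + 9 * ((s : ℂ) * dd p)) *
      (1 + cexp (-(9 * (p + s * dd p) - Real.pi * cexp (4 * (p + s * dd p)))) *
        (Ph (p + s * dd p) - 2 * Real.pi ^ 2 *
          cexp (9 * (p + s * dd p) - Real.pi * cexp (4 * (p + s * dd p)))) /
            (2 * (Real.pi : ℂ) ^ 2)) := by
  have hpi : (2 * (Real.pi : ℂ) ^ 2) ≠ 0 := by
    have : (Real.pi : ℂ) ≠ 0 := by exact_mod_cast Real.pi_ne_zero
    exact mul_ne_zero two_ne_zero (pow_ne_zero 2 this)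
  have h1 := ff_eq p ((s : ℂ) * dd p) hp
  have h2 : tp p * (p + (s : ℂ) * dd p) ^ 2 - SS p - 9 * p =
      ((Real.pi : ℂ) * cexp (4 * p) * ff p ((s : ℂ) * dd p) + 9 * ((s : ℂ) * dd p)) +
        -(9 * (p + s * dd p) - Real.pi * cexp (4 * (p + s * dd p))) := by
    linear_combination h1
  have h3 : cexp (-(9 * (p + s * dd p) - Real.pi * cexp (4 * (p + s * dd p)))) *
      cexp (9 * (p + s * dd p) - Real.pi * cexp (4 * (p + s * dd p))) = 1 := by
    rw [← Complex.exp_add, neg_add_cancel, Complex.exp_zero]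
  unfold KK
  rw [h2, Complex.exp_add]
  rw [mul_sub]
  have h4 : cexp (-(9 * (p + s * dd p) - Real.pi * cexp (4 * (p + s * dd p)))) *
      (2 * (Real.pi : ℂ) ^ 2 *
        cexp (9 * (p + s * dd p) - Real.pi * cexp (4 * (p + s * dd p)))) =
      2 * (Real.pi : ℂ) ^ 2 := by
    calc _ = 2 * (Real.pi : ℂ) ^ 2 *
        (cexp (-(9 * (p + s * dd p) - Real.pi * cexp (4 * (p + s * dd p)))) *
          cexp (9 * (p + s * dd p) - Real.pi * cexp (4 * (p + s * dd p)))) := by ring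
      _ = _ := by rw [h3, mul_one]
  rw [h4, sub_div, div_self hpi]
  ring

/-- the relative error of the main term of `Ph` -/
private theorem LLa1_kap {C1 : ℝ} (hC1 : 0 < C1)
    (hPh : ∀ u ∈ strip, 0 ≤ u.re → ‖Ph u - 2 * Real.pi ^ 2 * cexp (9 * u - Real.pi * cexp (4 * u))‖ ≤
      C1 * (Real.exp (-(4 * u.re)) + ((cexp (4 * u)).re ^ 3)⁻¹) *
        Real.exp (9 * u.re - Real.pi * (cexp (4 * u)).re)) (u : ℂ) (v : ℝ) (hv : 100 ≤ v)
    (hu : u ∈ strip) (hre : v - 1 ≤ u.re) (hcos : 23 / 100 / v ≤ Real.cos (4 * u.im)) :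
    ‖cexp (-(9 * u - Real.pi * cexp (4 * u))) *
        (Ph u - 2 * Real.pi ^ 2 * cexp (9 * u - Real.pi * cexp (4 * u))) /
          (2 * (Real.pi : ℂ) ^ 2)‖ ≤ 101 * C1 / v := by
  have hv0 : 0 < v := by linarith
  have h1 := hPh u hu (by linarith)
  have h2 : ‖cexp (-(9 * u - Real.pi * cexp (4 * u)))‖ =
      Real.exp (-(9 * u.re - Real.pi * (cexp (4 * u)).re)) := by
    rw [Complex.norm_exp]
    congr 1
    rw [Complex.neg_re, Complex.sub_re, Complex.re_ofReal_mul]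
    have : ((9 : ℂ) * u).re = 9 * u.re := by simp
    rw [this]
  have h3 : ‖(2 * (Real.pi : ℂ) ^ 2)‖ = 2 * Real.pi ^ 2 := by
    rw [norm_mul, norm_pow, Complex.norm_real, Real.norm_eq_abs, abs_of_pos Real.pi_pos]
    norm_num
  rw [norm_div, norm_mul, h2, h3]
  have hpi : 1 ≤ 2 * Real.pi ^ 2 := by
    have h4 := Real.pi_gt_three
    have h5 : (3 : ℝ) * 3 ≤ Real.pi * Real.pi := mul_le_mul h4.le h4.le (by norm_num) (by linarith)
    have h6 : Real.pi ^ 2 = Real.pi * Real.pi := by ring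
    rw [h6]
    linarith
  have h4 : Real.exp (-(9 * u.re - Real.pi * (cexp (4 * u)).re)) *
      ‖Ph u - 2 * Real.pi ^ 2 * cexp (9 * u - Real.pi * cexp (4 * u))‖ ≤
      C1 * (Real.exp (-(4 * u.re)) + ((cexp (4 * u)).re ^ 3)⁻¹) := by
    calc _ ≤ Real.exp (-(9 * u.re - Real.pi * (cexp (4 * u)).re)) *
        (C1 * (Real.exp (-(4 * u.re)) + ((cexp (4 * u)).re ^ 3)⁻¹) *
        Real.exp (9 * u.re - Real.pi * (cexp (4 * u)).re)) :=
          mul_le_mul_of_nonneg_left h1 (Real.exp_pos _).le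
      _ = C1 * (Real.exp (-(4 * u.re)) + ((cexp (4 * u)).re ^ 3)⁻¹) *
          (Real.exp (-(9 * u.re - Real.pi * (cexp (4 * u)).re)) *
            Real.exp (9 * u.re - Real.pi * (cexp (4 * u)).re)) := by ring
      _ = _ := by rw [← Real.exp_add, neg_add_cancel, Real.exp_zero, mul_one]
  have hbig : v ^ 2 ≤ Real.exp (4 * (v - 1)) := by
    have h5 := Real.quadratic_le_exp_of_nonneg (x := 4 * (v - 1)) (by linarith)
    have h6 : v ≤ 2 * (v - 1) := by linarith
    have h7 : v ^ 2 ≤ (2 * (v - 1)) ^ 2 := pow_le_pow_left₀ hv0.le h6 2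
    have h8 : (4 * (v - 1)) ^ 2 / 2 = 2 * (2 * (v - 1)) ^ 2 := by ring
    rw [h8] at h5
    have h9 : 0 ≤ (2 * (v - 1)) ^ 2 := by positivity
    linarith
  have hbig2 : v ^ 2 ≤ Real.exp (4 * u.re) := hbig.trans (Real.exp_le_exp.2 (by linarith))
  have hre4 : 23 / 100 * v ≤ (cexp (4 * u)).re := by
    rw [exp4_re]
    calc 23 / 100 * v = v ^ 2 * (23 / 100 / v) := by
          field_simp
      _ ≤ Real.exp (4 * u.re) * Real.cos (4 * u.im) :=
          mul_le_mul hbig2 hcos (by positivity) (Real.exp_pos _).le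
  have h5 : Real.exp (-(4 * u.re)) ≤ 1 / v := by
    rw [Real.exp_neg, ← one_div]
    refine div_le_div_of_nonneg_left zero_le_one hv0 (le_trans ?_ hbig2)
    calc v = v * 1 := (mul_one v).symm
      _ ≤ v * v := mul_le_mul_of_nonneg_left (by linarith) hv0.le
      _ = v ^ 2 := by ring
  have h6 : ((cexp (4 * u)).re ^ 3)⁻¹ ≤ 100 / v := by
    have h7 : (23 / 100 * v) ^ 3 ≤ (cexp (4 * u)).re ^ 3 := pow_le_pow_left₀ (by positivity) hre4 3
    have h8 : v / 100 ≤ (23 / 100 * v) ^ 3 := by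
      have h9 : (23 / 100 * v) ^ 3 = v * (12167 / 1000000 * v ^ 2) := by ring
      have h10 : (1 : ℝ) ≤ v ^ 2 := by
        have : (100 : ℝ) ^ 2 ≤ v ^ 2 := pow_le_pow_left₀ (by norm_num) hv 2
        linarith
      rw [h9, div_eq_mul_one_div]
      exact mul_le_mul_of_nonneg_left (by linarith) hv0.le
    have h9 : ((cexp (4 * u)).re ^ 3)⁻¹ ≤ (v / 100)⁻¹ :=
      inv_anti₀ (by positivity) (h8.trans h7)
    rw [inv_div] at h9
    exact h9
  have h7 : C1 * (Real.exp (-(4 * u.re)) + ((cexp (4 * u)).re ^ 3)⁻¹) ≤ 101 * C1 / v := by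
    calc C1 * (Real.exp (-(4 * u.re)) + ((cexp (4 * u)).re ^ 3)⁻¹) ≤ C1 * (1 / v + 100 / v) :=
          mul_le_mul_of_nonneg_left (add_le_add h5 h6) hC1.le
      _ = 101 * C1 / v := by ring
  refine (div_le_self ?_ hpi).trans (h4.trans h7)
  positivity

private theorem LLa1_err (N r : ℝ) (w R : ℂ) (B : ℝ) (hB : ‖w‖ + ‖R‖ ≤ B) (hw : ‖w‖ ≤ 1 + 2 * r)
    (_hN : N = r) :
    ‖cexp (((-(8 * r) : ℝ) : ℂ) + w) * (1 + R) - ((Real.exp (-(8 * r)) : ℝ) : ℂ)‖ ≤
      3 * B * Real.exp (-(6 * r)) := by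
  have h1 : cexp (((-(8 * r) : ℝ) : ℂ) + w) * (1 + R) - ((Real.exp (-(8 * r)) : ℝ) : ℂ) =
      ((Real.exp (-(8 * r)) : ℝ) : ℂ) * ((cexp w - 1) + cexp w * R) := by
    rw [Complex.exp_add, Complex.ofReal_exp]
    ring
  have h2 : ‖cexp w - 1‖ ≤ ‖w‖ * Real.exp ‖w‖ := by
    have h3 := Complex.norm_exp_sub_sum_le_norm_mul_exp w 1
    rw [Finset.sum_range_one, pow_zero, Nat.factorial_zero, Nat.cast_one, div_one, pow_one] at h3
    exact h3
  have h3 : ‖cexp w * R‖ ≤ Real.exp ‖w‖ * ‖R‖ := by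
    rw [norm_mul]
    refine mul_le_mul_of_nonneg_right ?_ (norm_nonneg _)
    exact Complex.norm_exp_le_exp_norm w
  have h4 : ‖(cexp w - 1) + cexp w * R‖ ≤ B * Real.exp (1 + 2 * r) := by
    calc ‖(cexp w - 1) + cexp w * R‖ ≤ ‖cexp w - 1‖ + ‖cexp w * R‖ := norm_add_le _ _
      _ ≤ ‖w‖ * Real.exp ‖w‖ + Real.exp ‖w‖ * ‖R‖ := add_le_add h2 h3
      _ = (‖w‖ + ‖R‖) * Real.exp ‖w‖ := by ring
      _ ≤ B * Real.exp (1 + 2 * r) := by
          refine mul_le_mul hB (Real.exp_le_exp.2 hw) (Real.exp_pos _).le ?_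
          exact le_trans (by positivity) hB
  have hB0 : 0 ≤ B := le_trans (by positivity) hB
  rw [h1, norm_mul, Complex.norm_real, Real.norm_eq_abs, abs_of_pos (Real.exp_pos _)]
  have h5 : Real.exp (-(8 * r)) * Real.exp (1 + 2 * r) = Real.exp 1 * Real.exp (-(6 * r)) := by
    rw [← Real.exp_add, ← Real.exp_add]
    congr 1
    ring
  have h6 : Real.exp 1 ≤ 3 := by
    have := Real.exp_one_lt_d9
    linarith
  calc Real.exp (-(8 * r)) * ‖(cexp w - 1) + cexp w * R‖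
      ≤ Real.exp (-(8 * r)) * (B * Real.exp (1 + 2 * r)) :=
        mul_le_mul_of_nonneg_left h4 (Real.exp_pos _).le
    _ = B * (Real.exp (-(8 * r)) * Real.exp (1 + 2 * r)) := by ring
    _ = B * (Real.exp 1 * Real.exp (-(6 * r))) := by rw [h5]
    _ ≤ B * (3 * Real.exp (-(6 * r))) :=
        mul_le_mul_of_nonneg_left (mul_le_mul_of_nonneg_right h6 (Real.exp_pos _).le) hB0
    _ = 3 * B * Real.exp (-(6 * r)) := by ring

theorem aa2_eq (p ζ : ℂ) (hp : 1 ≤ p.re) :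
    1 / 2 * SG (tp p) (ζ / p) (p - rr p * dd p) (p + rr p * dd p) * cexp (-(I * ζ)) / NN p = aa2 p ζ := by
  have hv0 : 0 < p.re := by linarith
  have hr0 : 0 < rr p := by
    unfold rr
    positivity
  have hrc : (2 * (rr p : ℂ)) ≠ 0 := by
    have : (rr p : ℂ) ≠ 0 := by exact_mod_cast hr0.ne'
    exact mul_ne_zero two_ne_zero this
  have hp0 : p ≠ 0 := by
    intro h
    rw [h, Complex.zero_re] at hv0
    exact lt_irrefl _ hv0
  have h1 : SG (tp p) (ζ / p) (p - rr p * dd p) (p + rr p * dd p) =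
      dd p * ∫ s in (-(rr p))..(rr p), gg (tp p) (ζ / p) (p + s * dd p) := by
    unfold SG
    have h2 : ∫ s in (0 : ℝ)..1, gg (tp p) (ζ / p) (p - rr p * dd p +
        s * (p + rr p * dd p - (p - rr p * dd p))) =
        ∫ s in (0 : ℝ)..1, (fun σ : ℝ => gg (tp p) (ζ / p) (p + σ * dd p)) (2 * rr p * s - rr p) := by
      refine intervalIntegral.integral_congr fun s _ => ?_
      show gg (tp p) (ζ / p) (p - rr p * dd p + s * (p + rr p * dd p - (p - rr p * dd p))) =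
        gg (tp p) (ζ / p) (p + ((2 * rr p * s - rr p : ℝ) : ℂ) * dd p)
      congr 1
      push_cast
      ring
    rw [h2, intervalIntegral.integral_comp_mul_sub (fun σ : ℝ => gg (tp p) (ζ / p) (p + σ * dd p))
      (by positivity : (2 * rr p : ℝ) ≠ 0) (rr p)]
    have h3 : 2 * rr p * 0 - rr p = -(rr p) := by ring
    have h4 : 2 * rr p * 1 - rr p = rr p := by ring
    rw [h3, h4, Complex.real_smul]
    generalize (∫ s in (-(rr p))..(rr p), gg (tp p) (ζ / p) (p + s * dd p)) = J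
    have h5 : (((2 * rr p)⁻¹ : ℝ) : ℂ) = (2 * (rr p : ℂ))⁻¹ := by
      push_cast
      rfl
    rw [h5]
    calc (p + rr p * dd p - (p - rr p * dd p)) * ((2 * (rr p : ℂ))⁻¹ * J)
        = (2 * (rr p : ℂ) * (2 * (rr p : ℂ))⁻¹) * (dd p * J) := by ring
      _ = dd p * J := by rw [mul_inv_cancel₀ hrc, one_mul]
  have h2 : (∫ s in (-(rr p))..(rr p), gg (tp p) (ζ / p) (p + s * dd p)) =
      2 * (Real.pi : ℂ) ^ 2 * cexp (SS p + 9 * p + I * ζ) *
        ∫ s in (-(rr p))..(rr p), KK p s * cexp (I * ζ * s * dd p / p) := by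
    rw [← intervalIntegral.integral_const_mul]
    refine intervalIntegral.integral_congr fun s _ => ?_
    show gg (tp p) (ζ / p) (p + s * dd p) = 2 * (Real.pi : ℂ) ^ 2 * cexp (SS p + 9 * p + I * ζ) *
      (KK p s * cexp (I * ζ * s * dd p / p))
    unfold gg KK
    have hpi : (Real.pi : ℂ) ≠ 0 := by exact_mod_cast Real.pi_ne_zero
    have e1 : cexp (I * (ζ / p) * (p + s * dd p)) = cexp (I * ζ) * cexp (I * ζ * s * dd p / p) := by
      rw [← Complex.exp_add]
      congr 1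
      field_simp
    have e2 : cexp (tp p * (p + s * dd p) ^ 2) =
        cexp (SS p + 9 * p) * cexp (tp p * (p + s * dd p) ^ 2 - SS p - 9 * p) := by
      rw [← Complex.exp_add]
      congr 1
      ring
    rw [e1, e2, Complex.exp_add (SS p + 9 * p)]
    field_simp
  rw [h1, h2]
  unfold aa2 NN
  have hpi : (Real.pi : ℂ) ≠ 0 := by exact_mod_cast Real.pi_ne_zero
  have hs2 : (Real.sqrt 2 : ℂ) ≠ 0 := by
    have : Real.sqrt 2 ≠ 0 := by positivity
    exact_mod_cast this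
  have hne : (Real.pi : ℂ) ^ 2 / (2 * (Real.sqrt 2 : ℂ)) * cexp (7 * p + SS p) ≠ 0 :=
    mul_ne_zero (div_ne_zero (pow_ne_zero 2 hpi) (mul_ne_zero two_ne_zero hs2)) (Complex.exp_ne_zero _)
  rw [div_eq_iff hne]
  have e3 : dd p * cexp (SS p + 9 * p + I * ζ) * cexp (-(I * ζ)) =
      (Real.exp (2 * p.re) : ℂ) * cexp (7 * p + SS p) := by
    unfold dd
    rw [← Complex.exp_add, ← Complex.exp_add, Complex.ofReal_exp, ← Complex.exp_add]
    congr 1
    have e4 : (2 : ℂ) * p - 2 * (p.im : ℂ) * I = ((2 * p.re : ℝ) : ℂ) := by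
      apply Complex.ext
      · simp
      · simp
    rw [← e4]
    ring
  generalize (∫ s in (-(rr p))..(rr p), KK p s * cexp (I * ζ * s * dd p / p)) = J
  calc 1 / 2 * (dd p * (2 * (Real.pi : ℂ) ^ 2 * cexp (SS p + 9 * p + I * ζ) * J)) * cexp (-(I * ζ))
      = (Real.pi : ℂ) ^ 2 * J * (dd p * cexp (SS p + 9 * p + I * ζ) * cexp (-(I * ζ))) := by ring
    _ = (Real.pi : ℂ) ^ 2 * J * ((Real.exp (2 * p.re) : ℂ) * cexp (7 * p + SS p)) := by rw [e3]
    _ = 2 * (Real.sqrt 2 : ℂ) * (Real.exp (2 * p.re) : ℂ) * J *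
        ((Real.pi : ℂ) ^ 2 / (2 * (Real.sqrt 2 : ℂ)) * cexp (7 * p + SS p)) := by
        field_simp

theorem KK_bound : ∃ C V : ℝ, 100 ≤ V ∧ ∀ p ∈ Reg V, ∀ s : ℝ, |s| ≤ rr p →
    ‖KK p s - Real.exp (-(8 * EE p * s ^ 2))‖ ≤
      C * (1 / p.re + |s| + EE p * s ^ 2 / p.re + EE p * |s| ^ 3) * Real.exp (-(6 * EE p * s ^ 2)) := by
  obtain ⟨C1, hC1, hPh⟩ := Ph_main
  obtain ⟨V, hV, hreg⟩ := reg_all
  refine ⟨3 * (12 + 101 * C1), V, hV, fun p hp s hs => ?_⟩
  obtain ⟨-, hc, hc2, hY, -, -, -, -⟩ := hreg p hp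
  obtain ⟨hpV, h0, h1, -⟩ := hp
  have hv : 100 ≤ p.re := hV.trans hpV
  have hv0 : 0 < p.re := by linarith
  have hp0 : p ≠ 0 := by
    intro h
    rw [h, Complex.zero_re] at hv0
    exact lt_irrefl _ hv0
  have hr0 : 0 < rr p := by
    unfold rr
    positivity
  have hr1 : rr p ≤ 1 / 2000 := by
    unfold rr
    rw [div_le_div_iff₀ (by positivity) (by norm_num)]
    linarith
  have hN : 0 < EE p := by
    unfold EE
    positivity
  have hs1 : |s| ≤ 1 / 2000 := hs.trans hr1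
  have hs0 : 0 ≤ |s| := abs_nonneg s
  have hnx : ‖(s : ℂ) * dd p‖ = |s| := by
    rw [norm_mul, LLa1_ndd, mul_one, Complex.norm_real, Real.norm_eq_abs]
  have hT := ff_taylor p ((s : ℂ) * dd p) (by rw [hnx]; linarith)
  rw [hnx] at hT
  have hpn : p.re ≤ ‖p‖ := Complex.re_le_norm p
  have hsin : 0 ≤ Real.sin (2 * p.im) :=
    Real.sin_nonneg_of_nonneg_of_le_pi (by linarith) (by linarith [Real.pi_pos])
  have him : |(p + s * dd p).im| ≤ p.im + rr p * Real.sin (2 * p.im) := by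
    rw [LLa1_im]
    have h2 : |s * Real.sin (2 * p.im)| ≤ rr p * Real.sin (2 * p.im) := by
      rw [abs_mul, abs_of_nonneg hsin]
      exact mul_le_mul_of_nonneg_right hs hsin
    obtain ⟨h3, h4⟩ := abs_le.1 h2
    rw [abs_le]
    constructor
    · linarith
    · linarith
  have hstrip : p + s * dd p ∈ strip := lt_of_le_of_lt him hY
  have hcos : 23 / 100 / p.re ≤ Real.cos (4 * (p + s * dd p).im) := by
    refine hc2.trans ?_
    rw [← Real.cos_abs (4 * (p + s * dd p).im), abs_mul, abs_of_pos (by norm_num : (0 : ℝ) < 4)]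
    refine Real.cos_le_cos_of_nonneg_of_le_pi (by positivity) ?_ ?_
    · have := Real.pi_pos
      linarith
    · exact mul_le_mul_of_nonneg_left him (by norm_num)
  have hre : p.re - 1 ≤ (p + s * dd p).re := by
    rw [LLa1_re]
    have h2 : |s * Real.cos (2 * p.im)| ≤ 1 := by
      rw [abs_mul]
      calc |s| * |Real.cos (2 * p.im)| ≤ 1 * 1 :=
            mul_le_mul (by linarith) (Real.abs_cos_le_one _) (abs_nonneg _) zero_le_one
        _ = 1 := one_mul 1
    have h3 := (abs_le.1 h2).1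
    linarith
  have hR := LLa1_kap hC1 hPh (p + s * dd p) p.re hv hstrip hre hcos
  rw [LLa1_KK p hp0 s]
  set R : ℂ := cexp (-(9 * (p + s * dd p) - Real.pi * cexp (4 * (p + s * dd p)))) *
        (Ph (p + s * dd p) - 2 * Real.pi ^ 2 *
          cexp (9 * (p + s * dd p) - Real.pi * cexp (4 * (p + s * dd p)))) /
            (2 * (Real.pi : ℂ) ^ 2) with hRd
  have hsq := LLa1_sq p s
  obtain ⟨w, hw⟩ : ∃ w : ℂ, w = (Real.pi : ℂ) * cexp (4 * p) *
      (ff p ((s : ℂ) * dd p) - (-8 * ((s : ℂ) * dd p) ^ 2 + 2 * ((s : ℂ) * dd p) ^ 2 / p)) +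
      ((2 * (EE p * s ^ 2) : ℝ) : ℂ) / p + 9 * ((s : ℂ) * dd p) := ⟨_, rfl⟩
  have hexp : (Real.pi : ℂ) * cexp (4 * p) * ff p ((s : ℂ) * dd p) + 9 * ((s : ℂ) * dd p) =
      ((-(8 * (EE p * s ^ 2)) : ℝ) : ℂ) + w := by
    have e1 : ((-(8 * (EE p * s ^ 2)) : ℝ) : ℂ) = -8 * ((EE p * s ^ 2 : ℝ) : ℂ) := by
      push_cast
      ring
    have e2 : ((2 * (EE p * s ^ 2) : ℝ) : ℂ) = 2 * ((EE p * s ^ 2 : ℝ) : ℂ) := by
      push_cast
      ring
    rw [hw, e1, e2, ← hsq]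
    ring
  have hNs : 0 ≤ EE p * s ^ 2 := by positivity
  have hw1 : ‖w‖ ≤ 12 * (EE p * |s| ^ 3) + 2 * (EE p * s ^ 2 / p.re) + 9 * |s| := by
    rw [hw]
    refine (norm_add_le _ _).trans (add_le_add ((norm_add_le _ _).trans (add_le_add ?_ ?_)) ?_)
    · rw [norm_mul, LLa1_npi]
      calc EE p * ‖ff p ((s : ℂ) * dd p) - (-8 * ((s : ℂ) * dd p) ^ 2 +
            2 * ((s : ℂ) * dd p) ^ 2 / p)‖ ≤ EE p * (12 * |s| ^ 3) :=
            mul_le_mul_of_nonneg_left hT hN.le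
        _ = 12 * (EE p * |s| ^ 3) := by ring
    · rw [norm_div, Complex.norm_real, Real.norm_eq_abs, abs_of_nonneg (by positivity)]
      calc 2 * (EE p * s ^ 2) / ‖p‖ ≤ 2 * (EE p * s ^ 2) / p.re :=
            div_le_div_of_nonneg_left (by positivity) hv0 hpn
        _ = 2 * (EE p * s ^ 2 / p.re) := by ring
    · rw [norm_mul, hnx]
      norm_num
  have hs3 : EE p * |s| ^ 3 ≤ EE p * s ^ 2 * (1 / 2000) := by
    have e1 : EE p * |s| ^ 3 = EE p * s ^ 2 * |s| := by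
      rw [← sq_abs s]
      ring
    rw [e1]
    exact mul_le_mul_of_nonneg_left hs1 hNs
  have hs4 : EE p * s ^ 2 / p.re ≤ EE p * s ^ 2 * (1 / 100) := by
    rw [div_eq_mul_one_div]
    exact mul_le_mul_of_nonneg_left
      (div_le_div_of_nonneg_left zero_le_one (by norm_num) hv) hNs
  have hw2 : ‖w‖ ≤ 1 + 2 * (EE p * s ^ 2) := by linarith
  have hB : ‖w‖ + ‖R‖ ≤ (12 + 101 * C1) *
      (1 / p.re + |s| + EE p * s ^ 2 / p.re + EE p * |s| ^ 3) := by
    have e1 : 0 ≤ 1 / p.re := by positivity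
    have e2 : 0 ≤ EE p * s ^ 2 / p.re := by positivity
    have e3 : 0 ≤ EE p * |s| ^ 3 := by positivity
    have e4 : 101 * C1 / p.re = 101 * C1 * (1 / p.re) := by ring
    rw [e4] at hR
    have e5 : (12 + 101 * C1) * (1 / p.re + |s| + EE p * s ^ 2 / p.re + EE p * |s| ^ 3) =
        12 * (1 / p.re) + 12 * |s| + 12 * (EE p * s ^ 2 / p.re) + 12 * (EE p * |s| ^ 3) +
        101 * C1 * (1 / p.re) + 101 * C1 * (|s| + EE p * s ^ 2 / p.re + EE p * |s| ^ 3) := by ring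
    have e6 : 0 ≤ 101 * C1 * (|s| + EE p * s ^ 2 / p.re + EE p * |s| ^ 3) := by positivity
    rw [e5]
    linarith
  have hfin := LLa1_err (EE p * s ^ 2) (EE p * s ^ 2) w R _ hB hw2 rfl
  rw [hexp]
  have e7 : -(8 * EE p * s ^ 2) = -(8 * (EE p * s ^ 2)) := by ring
  have e8 : -(6 * EE p * s ^ 2) = -(6 * (EE p * s ^ 2)) := by ring
  rw [e7, e8]
  calc _ ≤ 3 * ((12 + 101 * C1) *
      (1 / p.re + |s| + EE p * s ^ 2 / p.re + EE p * |s| ^ 3)) *
        Real.exp (-(6 * (EE p * s ^ 2))) := hfin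
    _ = _ := by ring

private theorem LLa2_dd_norm (p : ℂ) : ‖dd p‖ = 1 := by
  unfold dd
  have : (-(2 * (p.im : ℂ) * I)) = ((-(2 * p.im) : ℝ) : ℂ) * I := by
    push_cast
    ring
  rw [this, Complex.norm_exp_ofReal_mul_I]

private theorem LLa2_dd_im (p : ℂ) : (dd p).im = -Real.sin (2 * p.im) := by
  unfold dd
  have : (-(2 * (p.im : ℂ) * I)) = ((-(2 * p.im) : ℝ) : ℂ) * I := by
    push_cast
    ring
  rw [this, Complex.exp_ofReal_mul_I_im, Real.sin_neg]

private theorem LLa2_strip (p : ℂ) (h0 : 0 ≤ p.im) (h1 : p.im < Real.pi / 8)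
    (h2 : p.im + rr p * Real.sin (2 * p.im) < Real.pi / 8) (s : ℝ) (hs : |s| ≤ rr p) :
    p + s * dd p ∈ strip := by
  have hpi := Real.pi_pos
  have hsin : 0 ≤ Real.sin (2 * p.im) :=
    Real.sin_nonneg_of_nonneg_of_le_pi (by linarith) (by linarith)
  have him : (p + s * dd p).im = p.im - s * Real.sin (2 * p.im) := by
    rw [Complex.add_im, Complex.im_ofReal_mul, LLa2_dd_im]
    ring
  change |(p + s * dd p).im| < Real.pi / 8
  rw [him]
  have h3 : |s * Real.sin (2 * p.im)| ≤ rr p * Real.sin (2 * p.im) := by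
    rw [abs_mul, abs_of_nonneg hsin]
    exact mul_le_mul_of_nonneg_right hs hsin
  have h4 := abs_le.1 h3
  rw [abs_lt]
  constructor
  · linarith
  · linarith

private theorem LLa2_cont (p : ℂ) (h0 : 0 ≤ p.im) (h1 : p.im < Real.pi / 8)
    (h2 : p.im + rr p * Real.sin (2 * p.im) < Real.pi / 8) :
    ContinuousOn (KK p) (Icc (-(rr p)) (rr p)) := by
  have hl : Continuous (fun s : ℝ => p + s * dd p) := by fun_prop
  have hm : MapsTo (fun s : ℝ => p + s * dd p) (Icc (-(rr p)) (rr p)) strip := by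
    intro s hs
    exact LLa2_strip p h0 h1 h2 s (abs_le.2 hs)
  have hP : ContinuousOn (fun s : ℝ => Ph (p + s * dd p)) (Icc (-(rr p)) (rr p)) :=
    Ph_diff.continuousOn.comp hl.continuousOn hm
  have hE : Continuous (fun s : ℝ => cexp (tp p * (p + s * dd p) ^ 2 - SS p - 9 * p)) := by
    fun_prop
  exact (hE.continuousOn.mul hP).div_const _

private theorem LLa2_deriv (a b : ℝ) (hab : a ≤ b) (F α : ℝ → ℂ) (hF : ContinuousOn F (Icc a b))
    (hα : Continuous α) (k : ℕ) (ζ : ℂ) :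
    HasDerivAt (fun ζ : ℂ => ∫ s in a..b, F s * α s ^ k * cexp (ζ * α s))
      (∫ s in a..b, F s * α s ^ (k + 1) * cexp (ζ * α s)) ζ := by
  have hI : ∀ (j : ℕ) (x : ℂ), ContinuousOn (fun s : ℝ => F s * α s ^ j * cexp (x * α s)) (Icc a b) := by
    intro j x
    have h1 : Continuous (fun s : ℝ => α s ^ j * cexp (x * α s)) := by fun_prop
    have h2 := hF.mul h1.continuousOn
    refine h2.congr ?_
    intro s _
    simp only [mul_assoc]
    rfl
  have hii : ∀ (j : ℕ) (x : ℂ), IntervalIntegrable (fun s : ℝ => F s * α s ^ j * cexp (x * α s)) volume a b :=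
    fun j x => (hI j x).intervalIntegrable_of_Icc hab
  have hbc : ContinuousOn (fun s : ℝ => ‖F s‖ * (‖α s‖ ^ (k + 1) * Real.exp ((‖ζ‖ + 1) * ‖α s‖))) (Icc a b) := by
    have h1 : Continuous (fun s : ℝ => ‖α s‖ ^ (k + 1) * Real.exp ((‖ζ‖ + 1) * ‖α s‖)) := by fun_prop
    exact hF.norm.mul h1.continuousOn
  have key := intervalIntegral.hasDerivAt_integral_of_dominated_loc_of_deriv_le (μ := volume)
    (a := a) (b := b) (x₀ := ζ) (s := ball ζ 1)
    (F := fun (x : ℂ) (s : ℝ) => F s * α s ^ k * cexp (x * α s))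
    (F' := fun (x : ℂ) (s : ℝ) => F s * α s ^ (k + 1) * cexp (x * α s))
    (bound := fun s : ℝ => ‖F s‖ * (‖α s‖ ^ (k + 1) * Real.exp ((‖ζ‖ + 1) * ‖α s‖)))
    (ball_mem_nhds ζ one_pos)
    (Filter.Eventually.of_forall fun x => (hii k x).aestronglyMeasurable_restrict_uIoc)
    (hii k ζ) (hii (k + 1) ζ).aestronglyMeasurable_restrict_uIoc
    (Filter.Eventually.of_forall fun s _ x hx => by
      have hx' : ‖x‖ ≤ ‖ζ‖ + 1 := by
        have h1 : ‖x - ζ‖ < 1 := by
          rw [← dist_eq_norm]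
          exact hx
        have h2 := norm_le_norm_add_norm_sub' x ζ
        linarith
      rw [norm_mul, norm_mul, norm_pow, mul_assoc]
      refine mul_le_mul_of_nonneg_left ?_ (norm_nonneg _)
      refine mul_le_mul_of_nonneg_left ?_ (by positivity)
      refine (Complex.norm_exp_le_exp_norm _).trans ?_
      apply Real.exp_le_exp.2
      rw [norm_mul]
      exact mul_le_mul_of_nonneg_right hx' (norm_nonneg _))
    (hbc.intervalIntegrable_of_Icc hab)
    (Filter.Eventually.of_forall fun s _ x _ => by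
      have h1 : HasDerivAt (fun x : ℂ => x * α s) (1 * α s) x := (hasDerivAt_id x).mul_const (α s)
      have h2 := (h1.cexp).const_mul (F s * α s ^ k)
      have e : F s * α s ^ k * (cexp (x * α s) * (1 * α s)) = F s * α s ^ (k + 1) * cexp (x * α s) := by
        rw [pow_succ]
        ring
      rw [e] at h2
      exact h2)
  exact key.2

/-- the auxiliary integrals -/
private theorem LLa2_eq (p ζ : ℂ) : aa2 p ζ = 2 * (Real.sqrt 2 : ℂ) * (Real.exp (2 * p.re) : ℂ) *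
    ∫ s in (-(rr p))..(rr p), KK p s * (I * s * dd p / p) ^ 0 * cexp (ζ * (I * s * dd p / p)) := by
  unfold aa2
  congr 1
  apply intervalIntegral.integral_congr
  intro s _
  beta_reduce
  have e : I * ζ * s * dd p / p = ζ * (I * s * dd p / p) := by ring
  rw [e, pow_zero, mul_one]

private theorem LLa2_hasDeriv (p : ℂ) (hr : 0 ≤ rr p) (hc : ContinuousOn (KK p) (Icc (-(rr p)) (rr p)))
    (k : ℕ) (ζ : ℂ) : HasDerivAt (fun ζ : ℂ => 2 * (Real.sqrt 2 : ℂ) * (Real.exp (2 * p.re) : ℂ) *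
      ∫ s in (-(rr p))..(rr p), KK p s * (I * s * dd p / p) ^ k * cexp (ζ * (I * s * dd p / p)))
      (2 * (Real.sqrt 2 : ℂ) * (Real.exp (2 * p.re) : ℂ) *
      ∫ s in (-(rr p))..(rr p), KK p s * (I * s * dd p / p) ^ (k + 1) * cexp (ζ * (I * s * dd p / p))) ζ := by
  have hα : Continuous (fun s : ℝ => (I * s * dd p / p : ℂ)) := by fun_prop
  exact (LLa2_deriv (-(rr p)) (rr p) (by linarith) (KK p) (fun s => I * s * dd p / p) hc hα k ζ).const_mul _

theorem aa2_diff : ∃ V : ℝ, 100 ≤ V ∧ ∀ p ∈ Reg V, Differentiable ℂ (aa2 p) := by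
  obtain ⟨V, hV, h⟩ := reg_all
  refine ⟨V, hV, ?_⟩
  intro p hp
  obtain ⟨-, -, -, h4, -, -, -, -⟩ := h p hp
  have hr : 0 ≤ rr p := by
    unfold rr
    have := hp.1
    apply div_nonneg zero_le_one
    linarith
  have hc := LLa2_cont p hp.2.1 hp.2.2.1 h4
  have e : aa2 p = fun ζ => 2 * (Real.sqrt 2 : ℂ) * (Real.exp (2 * p.re) : ℂ) *
    ∫ s in (-(rr p))..(rr p), KK p s * (I * s * dd p / p) ^ 0 * cexp (ζ * (I * s * dd p / p)) :=
    funext (LLa2_eq p)
  rw [e]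
  intro ζ
  exact (LLa2_hasDeriv p hr hc 0 ζ).differentiableAt

/-- the integral of the Gaussian function on the segment -/
private theorem LLa2_gauss (N b r : ℝ) (hN : 0 < N) (hb : 4 ≤ b) (hr : 0 ≤ r) :
    ∫ s in (-r)..r, Real.exp (-(b * N * s ^ 2)) ≤ 1 / Real.sqrt N := by
  have hbN : 0 < b * N := by positivity
  have hint : Integrable (fun s : ℝ => Real.exp (-(b * N) * s ^ 2)) := integrable_exp_neg_mul_sq hbN
  have hg := integral_gaussian (b * N)
  have e : (fun s : ℝ => Real.exp (-(b * N * s ^ 2))) = fun s : ℝ => Real.exp (-(b * N) * s ^ 2) := by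
    funext s
    congr 1
    ring
  rw [intervalIntegral.integral_of_le (by linarith), e]
  have h1 : ∫ s in Ioc (-r) r, Real.exp (-(b * N) * s ^ 2) ≤ ∫ s : ℝ, Real.exp (-(b * N) * s ^ 2) :=
    setIntegral_le_integral hint (Filter.Eventually.of_forall fun s => (Real.exp_pos _).le)
  rw [hg] at h1
  refine h1.trans ?_
  rw [one_div, ← Real.sqrt_inv]
  apply Real.sqrt_le_sqrt
  rw [div_le_iff₀ hbN]
  have e2 : N⁻¹ * (b * N) = b := by
    field_simp
  rw [e2]
  have := Real.pi_lt_d2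
  linarith

/-- elementary bounds -/
private theorem LLa2_pow (N s : ℝ) (hN : 0 < N) :
    |s| * Real.exp (-(N * s ^ 2)) ≤ 1 / Real.sqrt N ∧ N * s ^ 2 * Real.exp (-(N * s ^ 2)) ≤ 1 ∧
      N * |s| ^ 3 * Real.exp (-(N * s ^ 2)) ≤ 1 / Real.sqrt N := by
  have hq : 0 < Real.sqrt N := Real.sqrt_pos.2 hN
  have hqq : Real.sqrt N ^ 2 = N := Real.sq_sqrt hN.le
  have ha : |s| ^ 2 = s ^ 2 := sq_abs s
  have ha0 : 0 ≤ |s| := abs_nonneg s
  have hx : Real.exp (-(N * s ^ 2)) * Real.exp (N * s ^ 2) = 1 := by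
    rw [← Real.exp_add]
    simp
  have hE := Real.exp_pos (-(N * s ^ 2))
  have hy0 : 0 ≤ N * s ^ 2 := by positivity
  have hq2 : 1 + N * s ^ 2 + (N * s ^ 2) ^ 2 / 2 ≤ Real.exp (N * s ^ 2) :=
    Real.quadratic_le_exp_of_nonneg hy0
  set E := Real.exp (-(N * s ^ 2)) with hEd
  set x := Real.sqrt N * |s| with hxd
  have hx0 : 0 ≤ x := by positivity
  have hx2 : x ^ 2 = N * s ^ 2 := by
    rw [hxd, mul_pow, hqq, ha]
  rw [← hx2] at hx hq2
  have hm : E * (1 + x ^ 2 + (x ^ 2) ^ 2 / 2) ≤ 1 := by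
    calc E * (1 + x ^ 2 + (x ^ 2) ^ 2 / 2) ≤ E * Real.exp (x ^ 2) :=
          mul_le_mul_of_nonneg_left hq2 hE.le
      _ = 1 := hx
  refine ⟨?_, ?_, ?_⟩
  · rw [le_div_iff₀ hq]
    have e : |s| * E * Real.sqrt N = E * x := by
      rw [hxd]
      ring
    rw [e]
    refine le_trans (mul_le_mul_of_nonneg_left ?_ hE.le) hm
    nlinarith [sq_nonneg (x - 1 / 2), sq_nonneg (x ^ 2)]
  · rw [← hx2]
    have : x ^ 2 * E = E * x ^ 2 := by ring
    rw [this]
    refine le_trans (mul_le_mul_of_nonneg_left ?_ hE.le) hm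
    nlinarith [sq_nonneg (x ^ 2)]
  · rw [le_div_iff₀ hq]
    have e : N * |s| ^ 3 * E * Real.sqrt N = E * x ^ 3 := by
      have : N * |s| ^ 3 * E * Real.sqrt N = E * (Real.sqrt N * N * |s| ^ 3) := by ring
      rw [this, hxd, mul_pow]
      have h3 : Real.sqrt N ^ 3 = Real.sqrt N * N := by
        rw [pow_succ, hqq]
        ring
      rw [h3]
    rw [e]
    refine le_trans (mul_le_mul_of_nonneg_left ?_ hE.le) hm
    nlinarith [sq_nonneg (x ^ 2 - x), sq_nonneg x]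

/-- the bounds for the integrand -/
private theorem LLa2_KK (N v C s : ℝ) (K : ℂ) (hv : 1 ≤ v) (hN : v ^ 2 ≤ N) (hC : 0 ≤ C)
    (h : ‖K - Real.exp (-(8 * N * s ^ 2))‖ ≤
      C * (1 / v + |s| + N * s ^ 2 / v + N * |s| ^ 3) * Real.exp (-(6 * N * s ^ 2))) :
    ‖K - Real.exp (-(8 * N * s ^ 2))‖ ≤ 4 * C / v * Real.exp (-(5 * N * s ^ 2)) ∧
      ‖K‖ ≤ (4 * C + 1) * Real.exp (-(5 * N * s ^ 2)) := by
  have hv0 : 0 < v := by linarith
  have hN0 : 0 < N := by nlinarith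
  obtain ⟨p1, p2, p3⟩ := LLa2_pow N s hN0
  have hq : v ≤ Real.sqrt N := by
    apply Real.le_sqrt_of_sq_le
    exact hN
  have hqv : 1 / Real.sqrt N ≤ 1 / v := one_div_le_one_div_of_le hv0 hq
  have hE1 : Real.exp (-(N * s ^ 2)) ≤ 1 := by
    rw [Real.exp_le_one_iff]
    have : 0 ≤ N * s ^ 2 := by positivity
    linarith
  have e6 : Real.exp (-(6 * N * s ^ 2)) = Real.exp (-(N * s ^ 2)) * Real.exp (-(5 * N * s ^ 2)) := by
    rw [← Real.exp_add]
    congr 1
    ring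
  have h5 := Real.exp_pos (-(5 * N * s ^ 2))
  have hsum : (1 / v + |s| + N * s ^ 2 / v + N * |s| ^ 3) * Real.exp (-(N * s ^ 2)) ≤ 4 / v := by
    have a1 : 1 / v * Real.exp (-(N * s ^ 2)) ≤ 1 / v :=
      mul_le_of_le_one_right (by positivity) hE1
    have a2 : N * s ^ 2 / v * Real.exp (-(N * s ^ 2)) ≤ 1 / v := by
      have : N * s ^ 2 / v * Real.exp (-(N * s ^ 2)) = (N * s ^ 2 * Real.exp (-(N * s ^ 2))) / v := by ring
      rw [this]
      exact div_le_div_of_nonneg_right p2 hv0.le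
    have e : (1 / v + |s| + N * s ^ 2 / v + N * |s| ^ 3) * Real.exp (-(N * s ^ 2)) =
        1 / v * Real.exp (-(N * s ^ 2)) + |s| * Real.exp (-(N * s ^ 2)) +
        N * s ^ 2 / v * Real.exp (-(N * s ^ 2)) + N * |s| ^ 3 * Real.exp (-(N * s ^ 2)) := by ring
    rw [e]
    have : 4 / v = 1 / v + 1 / v + 1 / v + 1 / v := by ring
    linarith
  have hA : ‖K - Real.exp (-(8 * N * s ^ 2))‖ ≤ 4 * C / v * Real.exp (-(5 * N * s ^ 2)) := by
    refine h.trans ?_
    rw [e6]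
    have e : C * (1 / v + |s| + N * s ^ 2 / v + N * |s| ^ 3) *
        (Real.exp (-(N * s ^ 2)) * Real.exp (-(5 * N * s ^ 2))) =
        C * ((1 / v + |s| + N * s ^ 2 / v + N * |s| ^ 3) * Real.exp (-(N * s ^ 2))) *
          Real.exp (-(5 * N * s ^ 2)) := by ring
    rw [e]
    refine mul_le_mul_of_nonneg_right ?_ h5.le
    calc C * ((1 / v + |s| + N * s ^ 2 / v + N * |s| ^ 3) * Real.exp (-(N * s ^ 2)))
        ≤ C * (4 / v) := mul_le_mul_of_nonneg_left hsum hC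
      _ = 4 * C / v := by ring
  refine ⟨hA, ?_⟩
  have hB : ‖((Real.exp (-(8 * N * s ^ 2)) : ℝ) : ℂ)‖ ≤ Real.exp (-(5 * N * s ^ 2)) := by
    rw [Complex.norm_real, Real.norm_of_nonneg (Real.exp_pos _).le]
    apply Real.exp_le_exp.2
    have : 0 ≤ N * s ^ 2 := by positivity
    nlinarith
  have hC2 : 4 * C / v ≤ 4 * C := div_le_self (by positivity) hv
  have h6 := norm_le_norm_add_norm_sub' K ((Real.exp (-(8 * N * s ^ 2)) : ℝ) : ℂ)
  have h7 : 4 * C / v * Real.exp (-(5 * N * s ^ 2)) ≤ 4 * C * Real.exp (-(5 * N * s ^ 2)) :=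
    mul_le_mul_of_nonneg_right hC2 h5.le
  linarith

/-- the tail of the Gaussian integral -/
private theorem LLa2_tail (N r : ℝ) (hN : 0 < N) (hr : 0 < r) :
    |2 * Real.sqrt 2 * Real.sqrt (N / Real.pi) * (∫ s in (-r)..r, Real.exp (-(8 * N * s ^ 2))) - 1| ≤
      2 / (4 * N * r ^ 2) := by
  have hpi := Real.pi_pos
  have h8 : 0 < 8 * N := by positivity
  have h4 : 0 < 4 * N := by positivity
  have hint : Integrable (fun s : ℝ => Real.exp (-(8 * N) * s ^ 2)) := integrable_exp_neg_mul_sq h8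
  have hint4 : Integrable (fun s : ℝ => Real.exp (-(4 * N) * s ^ 2)) := integrable_exp_neg_mul_sq h4
  have hg := integral_gaussian (8 * N)
  have hg4 := integral_gaussian (4 * N)
  have e : (fun s : ℝ => Real.exp (-(8 * N * s ^ 2))) = fun s : ℝ => Real.exp (-(8 * N) * s ^ 2) := by
    funext s
    congr 1
    ring
  rw [intervalIntegral.integral_of_le (by linarith), e]
  have hsplit := integral_add_compl (measurableSet_Ioc (a := -r) (b := r)) hint
  set A := ∫ s in Ioc (-r) r, Real.exp (-(8 * N) * s ^ 2) with hA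
  set B := ∫ s in (Ioc (-r) r)ᶜ, Real.exp (-(8 * N) * s ^ 2) with hB
  have hB0 : 0 ≤ B := setIntegral_nonneg (measurableSet_Ioc.compl) fun s _ => (Real.exp_pos _).le
  have hone : 2 * Real.sqrt 2 * Real.sqrt (N / Real.pi) * Real.sqrt (Real.pi / (8 * N)) = 1 := by
    have e1 : Real.sqrt (N / Real.pi) * Real.sqrt (Real.pi / (8 * N)) = Real.sqrt (1 / 8) := by
      rw [← Real.sqrt_mul (by positivity)]
      congr 1
      field_simp
    have e2 : Real.sqrt 2 * Real.sqrt (1 / 8) = 1 / 2 := by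
      rw [← Real.sqrt_mul (by norm_num)]
      have : (2 * (1 / 8) : ℝ) = (1 / 2) ^ 2 := by norm_num
      rw [this, Real.sqrt_sq (by norm_num)]
    calc 2 * Real.sqrt 2 * Real.sqrt (N / Real.pi) * Real.sqrt (Real.pi / (8 * N))
        = 2 * (Real.sqrt 2 * (Real.sqrt (N / Real.pi) * Real.sqrt (Real.pi / (8 * N)))) := by ring
      _ = 1 := by
        rw [e1, e2]
        norm_num
  have hAB : A = Real.sqrt (Real.pi / (8 * N)) - B := by
    rw [← hg, ← hsplit]
    ring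
  have hval : 2 * Real.sqrt 2 * Real.sqrt (N / Real.pi) * A - 1 =
      -(2 * Real.sqrt 2 * Real.sqrt (N / Real.pi) * B) := by
    rw [hAB, mul_sub, hone]
    ring
  have hc0 : 0 ≤ 2 * Real.sqrt 2 * Real.sqrt (N / Real.pi) := by positivity
  rw [hval, abs_neg, abs_of_nonneg (mul_nonneg hc0 hB0)]
  have hBle : B ≤ Real.exp (-(4 * N * r ^ 2)) * Real.sqrt (Real.pi / (4 * N)) := by
    rw [← hg4, hB, ← integral_const_mul]
    have hint5 : Integrable (fun s : ℝ => Real.exp (-(4 * N * r ^ 2)) * Real.exp (-(4 * N) * s ^ 2)) :=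
      hint4.const_mul _
    have s1 : ∫ s in (Ioc (-r) r)ᶜ, Real.exp (-(8 * N) * s ^ 2) ≤
        ∫ s in (Ioc (-r) r)ᶜ, Real.exp (-(4 * N * r ^ 2)) * Real.exp (-(4 * N) * s ^ 2) := by
      apply setIntegral_mono_on hint.integrableOn hint5.integrableOn measurableSet_Ioc.compl
      intro s hs
      rw [← Real.exp_add]
      apply Real.exp_le_exp.2
      have hs2 : r ^ 2 ≤ s ^ 2 := by
        rw [mem_compl_iff, mem_Ioc, not_and_or, not_lt, not_le] at hs
        rcases hs with hs | hs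
        · nlinarith
        · nlinarith
      nlinarith
    refine s1.trans ?_
    apply setIntegral_le_integral hint5
    exact Filter.Eventually.of_forall fun s => by positivity
  have hc1 : 2 * Real.sqrt 2 * Real.sqrt (N / Real.pi) * Real.sqrt (Real.pi / (4 * N)) ≤ 2 := by
    have e1 : Real.sqrt (N / Real.pi) * Real.sqrt (Real.pi / (4 * N)) = 1 / 2 := by
      rw [← Real.sqrt_mul (by positivity)]
      have : N / Real.pi * (Real.pi / (4 * N)) = (1 / 2) ^ 2 := by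
        field_simp
        norm_num
      rw [this, Real.sqrt_sq (by norm_num)]
    have e2 : Real.sqrt 2 ≤ 2 := by
      rw [Real.sqrt_le_left (by norm_num)]
      norm_num
    calc 2 * Real.sqrt 2 * Real.sqrt (N / Real.pi) * Real.sqrt (Real.pi / (4 * N))
        = 2 * Real.sqrt 2 * (Real.sqrt (N / Real.pi) * Real.sqrt (Real.pi / (4 * N))) := by ring
      _ ≤ 2 := by
        rw [e1]
        linarith
  have hexp : Real.exp (-(4 * N * r ^ 2)) ≤ 1 / (4 * N * r ^ 2) := by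
    have hy : 0 < 4 * N * r ^ 2 := by positivity
    have h9 := Real.add_one_le_exp (4 * N * r ^ 2)
    rw [Real.exp_neg, ← one_div]
    apply one_div_le_one_div_of_le hy
    linarith
  calc 2 * Real.sqrt 2 * Real.sqrt (N / Real.pi) * B
      ≤ 2 * Real.sqrt 2 * Real.sqrt (N / Real.pi) *
        (Real.exp (-(4 * N * r ^ 2)) * Real.sqrt (Real.pi / (4 * N))) :=
        mul_le_mul_of_nonneg_left hBle hc0
    _ = Real.exp (-(4 * N * r ^ 2)) *
        (2 * Real.sqrt 2 * Real.sqrt (N / Real.pi) * Real.sqrt (Real.pi / (4 * N))) := by ring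
    _ ≤ 1 / (4 * N * r ^ 2) * 2 := mul_le_mul hexp hc1 (by positivity) (by positivity)
    _ = 2 / (4 * N * r ^ 2) := by ring

theorem aa2_bound (M : ℝ) : ∃ C V : ℝ, 100 ≤ V ∧ ∀ p ∈ Reg V, ∀ ζ : ℂ, ‖ζ‖ ≤ M →
    ‖aa2 p ζ - 1‖ ≤ C / p.re ∧ ‖deriv (aa2 p) ζ‖ ≤ C / (p.re * Real.sqrt (EE p)) ∧
      ‖deriv (deriv (aa2 p)) ζ‖ ≤ C / (p.re ^ 2 * EE p) := by
  obtain ⟨V1, hV1, hreg⟩ := reg_all
  obtain ⟨C0, V2, hV2, hKK⟩ := KK_bound
  set C1 : ℝ := |C0| with hC1
  have hC1n : 0 ≤ C1 := abs_nonneg _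
  refine ⟨24 * C1 + 6 * |M| + 200 + 6 * (4 * C1 + 1), max (max V1 V2) (max 100 |M|), ?_, ?_⟩
  · exact (le_max_left _ _).trans (le_max_right _ _)
  intro p hp ζ hζ
  have hpV := hp.1
  have hp1 : p ∈ Reg V1 := reg_sub ((le_max_left _ _).trans (le_max_left _ _)) hp
  have hp2 : p ∈ Reg V2 := reg_sub ((le_max_right _ _).trans (le_max_left _ _)) hp
  have hv100 : 100 ≤ p.re := ((le_max_left _ _).trans (le_max_right _ _)).trans hpV
  have hvM : |M| ≤ p.re := ((le_max_right _ _).trans (le_max_right _ _)).trans hpV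
  obtain ⟨-, -, -, h4, -, -, hpn, -⟩ := hreg p hp1
  set v := p.re with hvd
  set N := EE p with hNd
  have hv0 : 0 < v := by linarith
  have hN0 : 0 < N := by
    rw [hNd]
    unfold EE
    positivity
  have hNv : v ^ 3 ≤ N := by
    rw [hNd]
    unfold EE
    have h1 : (4 * v) ^ 3 / (Nat.factorial 3 : ℝ) ≤ Real.exp (4 * v) :=
      Real.pow_div_factorial_le_exp (4 * v) (by linarith) 3
    have h2 : ((Nat.factorial 3 : ℕ) : ℝ) = 6 := by norm_num [Nat.factorial]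
    rw [h2] at h1
    have h3 : v ^ 3 ≤ Real.exp (4 * v) := by
      have : (4 * v) ^ 3 / 6 = v ^ 3 * (64 / 6) := by ring
      rw [this] at h1
      have hv3 : 0 < v ^ 3 := by positivity
      linarith
    have hpi := Real.pi_gt_three
    have h4 := Real.exp_pos (4 * v)
    nlinarith
  have hNv2 : v ^ 2 ≤ N := by
    refine le_trans ?_ hNv
    have : v ^ 3 = v ^ 2 * v := by ring
    rw [this]
    nlinarith [sq_nonneg v]
  have hr0 : 0 < rr p := by
    unfold rr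
    positivity
  have hr1 : rr p ≤ 1 := by
    unfold rr
    rw [div_le_one (by positivity)]
    linarith
  have hc := LLa2_cont p hp.2.1 hp.2.2.1 h4
  have hpne : p ≠ 0 := by
    intro h0
    rw [h0] at hvd
    simp at hvd
    linarith
  have hpn0 : 0 < ‖p‖ := norm_pos_iff.2 hpne
  -- the factor
  have hfac : 2 * Real.sqrt 2 * Real.exp (2 * v) = 2 * Real.sqrt 2 * Real.sqrt (N / Real.pi) := by
    congr 1
    rw [hNd]
    unfold EE
    have e1 : Real.pi * Real.exp (4 * p.re) / Real.pi = Real.exp (2 * v) ^ 2 := by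
      rw [← Real.exp_nat_mul]
      have hpi := Real.pi_pos
      field_simp
      congr 1
      push_cast
      ring
    rw [e1, Real.sqrt_sq (Real.exp_pos _).le]
  have hfac2 : 2 * Real.sqrt 2 * Real.exp (2 * v) ≤ 2 * Real.sqrt N := by
    rw [hfac]
    have hpi := Real.pi_gt_three
    have e1 : Real.sqrt 2 * Real.sqrt (N / Real.pi) = Real.sqrt (2 * (N / Real.pi)) :=
      (Real.sqrt_mul (by norm_num) _).symm
    have e2 : Real.sqrt (2 * (N / Real.pi)) ≤ Real.sqrt N := by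
      apply Real.sqrt_le_sqrt
      have : 2 * (N / Real.pi) = N * (2 / Real.pi) := by ring
      rw [this]
      have h2 : 2 / Real.pi ≤ 1 := by
        rw [div_le_one (by positivity)]
        linarith
      exact mul_le_of_le_one_right hN0.le h2
    have : 2 * Real.sqrt 2 * Real.sqrt (N / Real.pi) = 2 * (Real.sqrt 2 * Real.sqrt (N / Real.pi)) := by ring
    rw [this, e1]
    linarith
  have hsN : 0 < Real.sqrt N := Real.sqrt_pos.2 hN0
  -- the size of the exponent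
  have hαn : ∀ s : ℝ, ‖(I * s * dd p / p : ℂ)‖ ≤ |s| / v := by
    intro s
    rw [norm_div, norm_mul, norm_mul, Complex.norm_I, LLa2_dd_norm, Complex.norm_real, one_mul, mul_one,
      Real.norm_eq_abs]
    exact div_le_div_of_nonneg_left (abs_nonneg s) hv0 hpn
  have hMn : ‖ζ‖ ≤ |M| := hζ.trans (le_abs_self M)
  have hζα : ∀ s : ℝ, |s| ≤ rr p → ‖ζ * (I * s * dd p / p)‖ ≤ |M| * (|s| / v) ∧ ‖ζ * (I * s * dd p / p)‖ ≤ 1 := by
    intro s hs
    have h1 : ‖ζ * (I * s * dd p / p)‖ ≤ |M| * (|s| / v) := by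
      rw [norm_mul]
      exact mul_le_mul hMn (hαn s) (norm_nonneg _) (abs_nonneg _)
    refine ⟨h1, h1.trans ?_⟩
    have h2 : |M| * (|s| / v) = |M| * |s| / v := by ring
    rw [h2, div_le_one hv0]
    calc |M| * |s| ≤ v * 1 := mul_le_mul hvM (hs.trans hr1) (abs_nonneg _) hv0.le
      _ = v := mul_one v
  have hexp3 : ∀ s : ℝ, |s| ≤ rr p → ‖cexp (ζ * (I * s * dd p / p))‖ ≤ 3 := by
    intro s hs
    refine (Complex.norm_exp_le_exp_norm _).trans ?_
    have h1 : Real.exp ‖ζ * (I * s * dd p / p)‖ ≤ Real.exp 1 := Real.exp_le_exp.2 (hζα s hs).2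
    have h2 := Real.exp_one_lt_d9
    linarith
  have hexpm : ∀ s : ℝ, |s| ≤ rr p → ‖cexp (ζ * (I * s * dd p / p)) - 1‖ ≤ 2 * |M| / v := by
    intro s hs
    have h1 := Complex.norm_exp_sub_one_le (hζα s hs).2
    have h2 := (hζα s hs).1
    have h3 : |M| * (|s| / v) ≤ |M| / v := by
      have : |M| * (|s| / v) = |M| / v * |s| := by ring
      rw [this]
      exact mul_le_of_le_one_right (by positivity) (hs.trans hr1)
    have h4 : 2 * |M| / v = 2 * (|M| / v) := by ring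
    rw [h4]
    linarith
  have hKb : ∀ s : ℝ, |s| ≤ rr p →
      ‖KK p s - Real.exp (-(8 * N * s ^ 2))‖ ≤ 4 * C1 / v * Real.exp (-(5 * N * s ^ 2)) ∧
      ‖KK p s‖ ≤ (4 * C1 + 1) * Real.exp (-(5 * N * s ^ 2)) := by
    intro s hs
    apply LLa2_KK N v C1 s (KK p s) (by linarith) hNv2 hC1n
    refine (hKK p hp2 s hs).trans ?_
    refine mul_le_mul_of_nonneg_right ?_ (Real.exp_pos _).le
    refine mul_le_mul_of_nonneg_right (le_abs_self C0) ?_
    positivity
  have hsub : ∀ s : ℝ, s ∈ Ioc (-(rr p)) (rr p) → |s| ≤ rr p := by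
    intro s hs
    exact abs_le.2 ⟨hs.1.le, hs.2⟩
  have hab : -(rr p) ≤ rr p := by linarith
  have e0 : aa2 p = fun ζ => 2 * (Real.sqrt 2 : ℂ) * (Real.exp (2 * p.re) : ℂ) *
    ∫ s in (-(rr p))..(rr p), KK p s * (I * s * dd p / p) ^ 0 * cexp (ζ * (I * s * dd p / p)) :=
    funext (LLa2_eq p)
  have e1 : deriv (aa2 p) = fun ζ => 2 * (Real.sqrt 2 : ℂ) * (Real.exp (2 * p.re) : ℂ) *
    ∫ s in (-(rr p))..(rr p), KK p s * (I * s * dd p / p) ^ 1 * cexp (ζ * (I * s * dd p / p)) := by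
    rw [e0]
    exact funext fun x => (LLa2_hasDeriv p hr0.le hc 0 x).deriv
  have e2 : deriv (deriv (aa2 p)) = fun ζ => 2 * (Real.sqrt 2 : ℂ) * (Real.exp (2 * p.re) : ℂ) *
    ∫ s in (-(rr p))..(rr p), KK p s * (I * s * dd p / p) ^ 2 * cexp (ζ * (I * s * dd p / p)) := by
    rw [e1]
    exact funext fun x => (LLa2_hasDeriv p hr0.le hc 1 x).deriv
  have hcn : ‖(2 * (Real.sqrt 2 : ℂ) * (Real.exp (2 * p.re) : ℂ) : ℂ)‖ = 2 * Real.sqrt 2 * Real.exp (2 * v) := by
    rw [norm_mul, norm_mul, Complex.norm_real, Complex.norm_real,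
      Real.norm_of_nonneg (Real.sqrt_nonneg _), Real.norm_of_nonneg (Real.exp_pos _).le,
      Complex.norm_two]
  have hcont : ∀ b : ℝ, Continuous (fun s : ℝ => Real.exp (-(b * N * s ^ 2))) := by
    intro b
    fun_prop
  -- the derivatives
  have hder : ∀ k : ℕ, (∀ s : ℝ, |s| ^ k * Real.exp (-(N * s ^ 2)) ≤ 1 / Real.sqrt N ^ k) →
      ‖2 * (Real.sqrt 2 : ℂ) * (Real.exp (2 * p.re) : ℂ) *
      ∫ s in (-(rr p))..(rr p), KK p s * (I * s * dd p / p) ^ k * cexp (ζ * (I * s * dd p / p))‖ ≤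
      6 * (4 * C1 + 1) / (v ^ k * Real.sqrt N ^ k) := by
    intro k hk
    have hint := intervalIntegral.norm_integral_le_of_norm_le hab
      (f := fun s : ℝ => KK p s * (I * s * dd p / p) ^ k * cexp (ζ * (I * s * dd p / p)))
      (g := fun s : ℝ => 3 * (4 * C1 + 1) / (v ^ k * Real.sqrt N ^ k) * Real.exp (-(4 * N * s ^ 2)))
      (μ := volume)
      (Filter.Eventually.of_forall fun s hs => by
        have hs' := hsub s hs
        rw [norm_mul, norm_mul, norm_pow]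
        have b1 := (hKb s hs').2
        have b2 : ‖(I * s * dd p / p : ℂ)‖ ^ k ≤ (|s| / v) ^ k :=
          pow_le_pow_left₀ (norm_nonneg _) (hαn s) k
        have b3 := hexp3 s hs'
        have b4 : ‖KK p s‖ * ‖(I * s * dd p / p : ℂ)‖ ^ k * ‖cexp (ζ * (I * s * dd p / p))‖ ≤
            ((4 * C1 + 1) * Real.exp (-(5 * N * s ^ 2))) * (|s| / v) ^ k * 3 := by
          refine mul_le_mul (mul_le_mul b1 b2 (by positivity) (by positivity)) b3 (norm_nonneg _) (by positivity)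
        refine b4.trans ?_
        have e5 : Real.exp (-(5 * N * s ^ 2)) = Real.exp (-(N * s ^ 2)) * Real.exp (-(4 * N * s ^ 2)) := by
          rw [← Real.exp_add]
          congr 1
          ring
        rw [e5, div_pow]
        have e6 : (4 * C1 + 1) * (Real.exp (-(N * s ^ 2)) * Real.exp (-(4 * N * s ^ 2))) * (|s| ^ k / v ^ k) * 3
            = 3 * (4 * C1 + 1) / v ^ k * Real.exp (-(4 * N * s ^ 2)) * (|s| ^ k * Real.exp (-(N * s ^ 2))) := by
          ring
        rw [e6]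
        have e7 : 3 * (4 * C1 + 1) / (v ^ k * Real.sqrt N ^ k) * Real.exp (-(4 * N * s ^ 2)) =
            3 * (4 * C1 + 1) / v ^ k * Real.exp (-(4 * N * s ^ 2)) * (1 / Real.sqrt N ^ k) := by
          field_simp
        rw [e7]
        exact mul_le_mul_of_nonneg_left (hk s) (by positivity))
      ((continuous_const.mul (hcont 4)).intervalIntegrable _ _)
    rw [intervalIntegral.integral_const_mul] at hint
    have hG := LLa2_gauss N 4 (rr p) hN0 (le_refl _) hr0.le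
    rw [norm_mul, hcn]
    have hQ0 : 0 ≤ 3 * (4 * C1 + 1) / (v ^ k * Real.sqrt N ^ k) := by positivity
    have hint2 := hint.trans (mul_le_mul_of_nonneg_left hG hQ0)
    calc 2 * Real.sqrt 2 * Real.exp (2 * v) *
        ‖∫ s in (-(rr p))..(rr p), KK p s * (I * s * dd p / p) ^ k * cexp (ζ * (I * s * dd p / p))‖
        ≤ (2 * Real.sqrt N) * (3 * (4 * C1 + 1) / (v ^ k * Real.sqrt N ^ k) * (1 / Real.sqrt N)) :=
          mul_le_mul hfac2 hint2 (norm_nonneg _) (by positivity)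
      _ = 6 * (4 * C1 + 1) / (v ^ k * Real.sqrt N ^ k) := by
          field_simp
          ring
  refine ⟨?_, ?_, ?_⟩
  · -- the value
    rw [LLa2_eq]
    have hA := intervalIntegral.norm_integral_le_of_norm_le hab
      (f := fun s : ℝ => KK p s * (I * s * dd p / p) ^ 0 * cexp (ζ * (I * s * dd p / p)) -
        ((Real.exp (-(8 * N * s ^ 2)) : ℝ) : ℂ))
      (g := fun s : ℝ => (12 * C1 + 2 * |M|) / v * Real.exp (-(5 * N * s ^ 2)))
      (μ := volume)
      (Filter.Eventually.of_forall fun s hs => by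
        have hs' := hsub s hs
        have b1 := (hKb s hs').1
        have b3 := hexp3 s hs'
        have b4 := hexpm s hs'
        have e3 : KK p s * (I * s * dd p / p) ^ 0 * cexp (ζ * (I * s * dd p / p)) -
            ((Real.exp (-(8 * N * s ^ 2)) : ℝ) : ℂ) =
            (KK p s - ((Real.exp (-(8 * N * s ^ 2)) : ℝ) : ℂ)) * cexp (ζ * (I * s * dd p / p)) +
            ((Real.exp (-(8 * N * s ^ 2)) : ℝ) : ℂ) * (cexp (ζ * (I * s * dd p / p)) - 1) := by
          rw [pow_zero]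
          ring
        rw [e3]
        refine (norm_add_le _ _).trans ?_
        rw [norm_mul, norm_mul]
        have b5 : ‖KK p s - ((Real.exp (-(8 * N * s ^ 2)) : ℝ) : ℂ)‖ * ‖cexp (ζ * (I * s * dd p / p))‖ ≤
            4 * C1 / v * Real.exp (-(5 * N * s ^ 2)) * 3 :=
          mul_le_mul b1 b3 (norm_nonneg _) (by positivity)
        have b6 : ‖((Real.exp (-(8 * N * s ^ 2)) : ℝ) : ℂ)‖ ≤ Real.exp (-(5 * N * s ^ 2)) := by
          rw [Complex.norm_real, Real.norm_of_nonneg (Real.exp_pos _).le]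
          apply Real.exp_le_exp.2
          have : 0 ≤ N * s ^ 2 := by positivity
          nlinarith
        have b7 : ‖((Real.exp (-(8 * N * s ^ 2)) : ℝ) : ℂ)‖ * ‖cexp (ζ * (I * s * dd p / p)) - 1‖ ≤
            Real.exp (-(5 * N * s ^ 2)) * (2 * |M| / v) :=
          mul_le_mul b6 b4 (norm_nonneg _) (Real.exp_pos _).le
        have e4 : (12 * C1 + 2 * |M|) / v * Real.exp (-(5 * N * s ^ 2)) =
            4 * C1 / v * Real.exp (-(5 * N * s ^ 2)) * 3 + Real.exp (-(5 * N * s ^ 2)) * (2 * |M| / v) := by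
          ring
        rw [e4]
        linarith)
      ((continuous_const.mul (hcont 5)).intervalIntegrable _ _)
    rw [intervalIntegral.integral_const_mul] at hA
    have hG := LLa2_gauss N 5 (rr p) hN0 (by norm_num) hr0.le
    have hQ0 : 0 ≤ (12 * C1 + 2 * |M|) / v := by positivity
    have hA2 := hA.trans (mul_le_mul_of_nonneg_left hG hQ0)
    have hi1 : IntervalIntegrable (fun s : ℝ => KK p s * (I * s * dd p / p) ^ 0 *
        cexp (ζ * (I * s * dd p / p))) volume (-(rr p)) (rr p) := by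
      have h1 : Continuous (fun s : ℝ => (I * s * dd p / p : ℂ) ^ 0 * cexp (ζ * (I * s * dd p / p))) := by
        fun_prop
      have h2 := hc.mul h1.continuousOn
      have h3 : ContinuousOn (fun s : ℝ => KK p s * (I * s * dd p / p) ^ 0 *
          cexp (ζ * (I * s * dd p / p))) (Icc (-(rr p)) (rr p)) := by
        refine h2.congr ?_
        intro s _
        simp only [mul_assoc]
        rfl
      exact h3.intervalIntegrable_of_Icc hab
    have hi2 : IntervalIntegrable (fun s : ℝ => ((Real.exp (-(8 * N * s ^ 2)) : ℝ) : ℂ)) volume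
        (-(rr p)) (rr p) :=
      (Complex.continuous_ofReal.comp (hcont 8)).intervalIntegrable _ _
    rw [intervalIntegral.integral_sub hi1 hi2, intervalIntegral.integral_ofReal] at hA2
    have hT := LLa2_tail N (rr p) hN0 hr0
    rw [← hfac] at hT
    set J := ∫ s in (-(rr p))..(rr p), KK p s * (I * s * dd p / p) ^ 0 * cexp (ζ * (I * s * dd p / p)) with hJ
    set G := ∫ s in (-(rr p))..(rr p), Real.exp (-(8 * N * s ^ 2)) with hGd
    have hsplit : 2 * (Real.sqrt 2 : ℂ) * (Real.exp (2 * p.re) : ℂ) * J - 1 =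
        2 * (Real.sqrt 2 : ℂ) * (Real.exp (2 * p.re) : ℂ) * (J - (G : ℂ)) +
        ((2 * Real.sqrt 2 * Real.exp (2 * v) * G - 1 : ℝ) : ℂ) := by
      push_cast
      ring
    rw [hsplit]
    refine (norm_add_le _ _).trans ?_
    rw [norm_mul, hcn, Complex.norm_real, Real.norm_eq_abs]
    have c1 : 2 * Real.sqrt 2 * Real.exp (2 * v) * ‖J - (G : ℂ)‖ ≤
        (2 * Real.sqrt N) * ((12 * C1 + 2 * |M|) / v * (1 / Real.sqrt N)) :=
      mul_le_mul hfac2 hA2 (norm_nonneg _) (by positivity)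
    have c2 : (2 * Real.sqrt N) * ((12 * C1 + 2 * |M|) / v * (1 / Real.sqrt N)) =
        (24 * C1 + 4 * |M|) / v := by
      field_simp
      ring
    have c3 : 2 / (4 * N * rr p ^ 2) ≤ 200 / v := by
      unfold rr
      rw [← hvd]
      have : 2 / (4 * N * (1 / (20 * v)) ^ 2) = 200 * v ^ 2 / N := by
        field_simp
        norm_num
      rw [this, div_le_div_iff₀ hN0 hv0]
      have : 200 * v ^ 2 * v = 200 * v ^ 3 := by ring
      rw [this]
      linarith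
    have c4 : (24 * C1 + 6 * |M| + 200 + 6 * (4 * C1 + 1)) / v =
        (24 * C1 + 4 * |M|) / v + 200 / v + (2 * |M| + 6 * (4 * C1 + 1)) / v := by ring
    have c5 : 0 ≤ (2 * |M| + 6 * (4 * C1 + 1)) / v := by positivity
    rw [c4]
    linarith
  · rw [e1]
    have h1 := hder 1 (by
      intro s
      rw [pow_one, pow_one]
      exact (LLa2_pow N s hN0).1)
    rw [pow_one, pow_one] at h1
    refine h1.trans ?_
    apply div_le_div_of_nonneg_right _ (by positivity)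
    have := abs_nonneg M
    linarith
  · rw [e2]
    have h1 := hder 2 (by
      intro s
      rw [sq_abs, Real.sq_sqrt hN0.le, le_div_iff₀ hN0]
      have h2 := (LLa2_pow N s hN0).2.1
      linarith)
    rw [Real.sq_sqrt hN0.le] at h1
    refine h1.trans ?_
    apply div_le_div_of_nonneg_right _ (by positivity)
    have := abs_nonneg M
    linarith

end Pool.Agent.Lib.MP_ec260d_ntC
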