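import Mathlib
import Pool.Agent.Lib.MP_ec260d_ntC.DefsW
import Pool.Agent.Lib.MP_ec260d_ntC.RegP
import Pool.Agent.Lib.MP_ec260d_ntC.FTh
import Pool.Agent.Lib.MP_ec260d_ntC.ContR

/-!
# JOB LLb: the rest of the contour is negligible (about 350 lines)

`p = v + i η ∈ Reg V`, `N = EE p = π e^{4v}`, `ρ = rr p`, `Y = η + ρ sin 2η = yy p`, that is `yy p = p.im + rr p * sin (2 p.im)`, `t = tp p`, `‖z‖ ≤ M/v`.  `‖NN p‖ = (π²/(2√2)) exp (7v + Re SS p)`.
`phi_bd`: for `0 ≤ Re u`, `|Im u| ≤ yy p` or `|Im u| ≤ 1/4`: `cos (4 Im u) ≥ 0.23/v` (`reg_all`; `cos 1 ≥ 1/2`), so `Re e^{4u} ≥ 0.23/v` and `Ph_bound` gives `‖Ph u‖ ≤ C v³ exp (9 Re u) exp (-π Re e^{4u})`, and `exp (-π Re e^{4u}) = ‖exp (-π e^{4u})‖`.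
`vert_bd`: on the segment from `I/4` to `yy p I`: `u = i y`, `y` between `1/4` and `yy p`: `‖e^{tu²}‖ = exp (-y² Re t)`, `‖e^{izu}‖ ≤ e^M`, `‖Ph u‖ ≤ C v³`, length `≤ 1`.  If `η ≥ 1/4` then `yy p ≥ 1/4`, so `y ≥ 1/4` and `exp (-y² Re t) ≤ exp (-0.7 N/(16 v²))`, and `1/‖NN p‖ ≤ exp (-7v - Re SS p) ≤ exp (3v)` (`Re SS p ≥ -10 v`);
the product is `≤ C v³ exp (3v - 0.04 N/v²) ≤ C/N²` (`N = π e^{4v}`, `V` large).  If `η < 1/4`: `exp (-y² Re t) ≤ 1` (`Re t ≥ 0`) and `1/‖NN p‖ ≤ exp (-Nv) ≤ C/(v³ N²)` (`Re SS p ≥ N v`).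
`hor_bd`: the segment from `yy p I` to `p - ρ dd p` (`Im (p - ρ dd p) = yy p`): `u = p + (-a + i ρ sin 2η)`, `ρ cos 2η ≤ a ≤ v`, length `≤ v`.  `ff_eq`: `‖e^{tu² - πe^{4u}}‖ = exp (Re SS p + Re (π e^{4p} ff p x))`, and `th_bd`: `≤ exp (Re SS p) max (exp (-7Nρ²)) (exp (Re (π e^{4p} ff p (-v + iρ sin 2η))))`.
By `ff_eq` at `u = i yy p`: `Re SS p + Re (π e^{4p} ff p (-v + i ρ sin 2η)) = -yy² Re t - π cos (4 yy) ≤ -yy² Re t`.  So `‖SG‖/‖NN p‖ ≤ C v⁴ e^{9v} e^{2M} e^{-7v} (exp (-7N/(400v²)) + exp (-yy² Re t - Re SS p))`; the last term is `≤ exp (10 v - 0.04 N/v²)` if `η ≥ 1/4` (`yy ≥ 1/4`) and `≤ exp (-N v)` if `η < 1/4`.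
`ray_bd`: `u = p + ρ dd p + y`, `y ≥ 0`: `ph_bd`: `‖e^{tu² - πe^{4u}}‖ ≤ exp (Re SS p - 7Nρ² - (N/v) y²)`, `‖Ph u‖ exp (π Re e^{4u}) ≤ C v³ exp (9 (v + 1 + y))` (`Im u = η - ρ sin 2η ∈ [0, yy p]`), `‖e^{izu}‖ ≤ exp ((M/v)(v + 2 + y)) ≤ exp (2M + M y)`: `‖RR‖/‖NN p‖ ≤ C v³ e^{2v} exp (-7N/(400v²)) ∫_0^∞ exp ((9 + M) y - y²) dy` (`N/v ≥ 1`).
-/

namespace Pool.Agent.Lib.MP_ec260d_ntC

open Complex Set Filter Topology Metric MeasureTheory

/-- the height of the horizontal segment -/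
noncomputable def yy (p : ℂ) : ℝ := p.im + rr p * Real.sin (2 * p.im)

private theorem LLb1_norm_e (u : ℂ) :
    ‖cexp (-(Real.pi * cexp (4 * u)))‖ = Real.exp (-(Real.pi * (cexp (4 * u)).re)) := by
  rw [Complex.norm_exp]
  simp

private theorem LLb1_cos_even (x : ℝ) : Real.cos (4 * x) = Real.cos (4 * |x|) := by
  rcases abs_cases x with h | h
  · rw [h.1]
  · rw [h.1, mul_neg, Real.cos_neg]

private theorem LLb1_cos_ge (p u : ℂ) (hv : 100 ≤ p.re)
    (h3 : 23 / 100 / p.re ≤ Real.cos (4 * yy p)) (h4 : yy p < Real.pi / 8)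
    (hu : |u.im| ≤ yy p ∨ |u.im| ≤ 1 / 4) :
    u ∈ strip ∧ 23 / 100 / p.re ≤ Real.cos (4 * u.im) := by
  have hpi := Real.pi_gt_three
  rw [LLb1_cos_even]
  have h0 := abs_nonneg u.im
  rcases hu with hu | hu
  · refine ⟨?_, ?_⟩
    · show |u.im| < Real.pi / 8
      linarith
    · refine h3.trans ?_
      apply Real.cos_le_cos_of_nonneg_of_le_pi
      · linarith
      · linarith
      · linarith
  · refine ⟨?_, ?_⟩
    · show |u.im| < Real.pi / 8
      linarith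
    · have h5 : (23 : ℝ) / 100 / p.re ≤ 1 / 2 := by
        rw [div_le_iff₀ (by linarith)]
        linarith
      have h6 : 1 - (4 * |u.im|) ^ 2 / 2 ≤ Real.cos (4 * |u.im|) := Real.one_sub_sq_div_two_le_cos
      have h7 : (4 * |u.im|) ^ 2 ≤ 1 := by nlinarith
      linarith

theorem phi_bd : ∃ C V : ℝ, 0 < C ∧ 100 ≤ V ∧ ∀ p ∈ Reg V, ∀ u : ℂ, 0 ≤ u.re →
    (|u.im| ≤ yy p ∨ |u.im| ≤ 1 / 4) → u ∈ strip ∧
      ‖Ph u‖ ≤ C * p.re ^ 3 * Real.exp (9 * u.re) * ‖cexp (-(Real.pi * cexp (4 * u)))‖ := by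
  obtain ⟨V, hV, hreg⟩ := reg_all
  obtain ⟨C, hC, hPh⟩ := Ph_bound
  refine ⟨C * 100, V, by positivity, hV, ?_⟩
  intro p hp u hu0 hu
  obtain ⟨-, -, h3, h4, -, -, -, -⟩ := hreg p hp
  have hv : 100 ≤ p.re := hV.trans hp.1
  obtain ⟨hs, hc⟩ := LLb1_cos_ge p u hv h3 h4 hu
  refine ⟨hs, ?_⟩
  have h1 := hPh u hs hu0
  have hvpos : 0 < p.re := by linarith
  have hd : 0 < 23 / 100 / p.re := by positivity
  have hA : 23 / 100 / p.re ≤ (cexp (4 * u)).re := by
    rw [exp4_re]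
    have he : 1 ≤ Real.exp (4 * u.re) := Real.one_le_exp (by linarith)
    nlinarith
  have hinv : ((cexp (4 * u)).re ^ 3)⁻¹ ≤ 83 * p.re ^ 3 := by
    have h5 : (23 / 100 / p.re) ^ 3 ≤ (cexp (4 * u)).re ^ 3 := pow_le_pow_left₀ hd.le hA 3
    have h6 : ((cexp (4 * u)).re ^ 3)⁻¹ ≤ ((23 / 100 / p.re) ^ 3)⁻¹ := inv_anti₀ (by positivity) h5
    refine h6.trans ?_
    rw [div_pow, inv_div, div_le_iff₀ (by positivity)]
    have h7 : 0 < p.re ^ 3 := by positivity
    nlinarith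
  have h8 : 1 + ((cexp (4 * u)).re ^ 3)⁻¹ ≤ 100 * p.re ^ 3 := by
    have h9 : (1 : ℝ) ≤ p.re ^ 3 := one_le_pow₀ (by linarith)
    linarith
  rw [LLb1_norm_e]
  refine h1.trans ?_
  rw [sub_eq_add_neg, Real.exp_add]
  have h10 : 0 < Real.exp (9 * u.re) * Real.exp (-(Real.pi * (cexp (4 * u)).re)) := by positivity
  calc C * (1 + ((cexp (4 * u)).re ^ 3)⁻¹) *
        (Real.exp (9 * u.re) * Real.exp (-(Real.pi * (cexp (4 * u)).re)))
      ≤ C * (100 * p.re ^ 3) *
        (Real.exp (9 * u.re) * Real.exp (-(Real.pi * (cexp (4 * u)).re))) := by gcongr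
    _ = _ := by ring

private theorem LLb1_norm_NN (p : ℂ) :
    Real.exp (7 * p.re + (SS p).re) ≤ ‖NN p‖ := by
  have h1 : ‖NN p‖ = Real.pi ^ 2 / (2 * Real.sqrt 2) * Real.exp (7 * p.re + (SS p).re) := by
    unfold NN
    rw [norm_mul, Complex.norm_exp, norm_div, norm_pow, norm_mul, Complex.norm_real,
      Complex.norm_real, Real.norm_eq_abs, Real.norm_eq_abs, abs_of_pos Real.pi_pos,
      abs_of_nonneg (Real.sqrt_nonneg 2)]
    simp
  rw [h1]
  have h2 : 1 ≤ Real.pi ^ 2 / (2 * Real.sqrt 2) := by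
    rw [le_div_iff₀ (by positivity)]
    have h3 : Real.sqrt 2 ≤ 2 := by
      rw [Real.sqrt_le_left (by norm_num)]
      norm_num
    have h4 := Real.pi_gt_three
    nlinarith
  have h5 := Real.exp_pos (7 * p.re + (SS p).re)
  nlinarith

private theorem LLb1_exp_ge (x : ℝ) (hx : 0 ≤ x) (n : ℕ) : x ^ n / (n.factorial : ℝ) ≤ Real.exp x :=
  Real.pow_div_factorial_le_exp x hx n

private theorem LLb1_num1 (v N : ℝ) (hv : 100 ≤ v) (hN : N = Real.pi * Real.exp (4 * v)) :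
    v ^ 3 * Real.exp (-(1 / 25 * N / v ^ 2)) ≤ 10 ^ 9 / N ^ 2 * Real.exp (-(3 * v)) := by
  have hpi := Real.pi_gt_three
  have hpi2 := Real.pi_lt_four
  have hNpos : 0 < N := by rw [hN]; positivity
  have hvpos : 0 < v := by linarith
  have e3 : v ^ 3 ≤ 6 * Real.exp v := by
    have := LLb1_exp_ge v hvpos.le 3
    norm_num [Nat.factorial] at this
    linarith
  have e2 : v ^ 2 ≤ 2 * Real.exp v := by
    have := LLb1_exp_ge v hvpos.le 2
    norm_num [Nat.factorial] at this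
    linarith
  set E := Real.exp v with hE
  have hEpos : 0 < E := Real.exp_pos v
  have h4 : Real.exp (4 * v) = E ^ 4 := by
    rw [hE, ← Real.exp_nat_mul]; norm_num
  have h3 : Real.exp (-(3 * v)) = (E ^ 3)⁻¹ := by
    rw [Real.exp_neg, hE, ← Real.exp_nat_mul]; norm_num
  -- x = N / (25 v^2) ≥ (3/50) E^3
  have hx : 3 / 50 * E ^ 3 ≤ 1 / 25 * N / v ^ 2 := by
    rw [le_div_iff₀ (by positivity), hN, h4]
    calc 3 / 50 * E ^ 3 * v ^ 2 ≤ 3 / 50 * E ^ 3 * (2 * E) := by gcongr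
      _ = 1 / 25 * (3 * E ^ 4) := by ring
      _ ≤ 1 / 25 * (Real.pi * E ^ 4) := by gcongr
  have hexp : Real.exp (-(1 / 25 * N / v ^ 2)) ≤ 24 / (3 / 50 * E ^ 3) ^ 4 := by
    have h5 : (3 / 50 * E ^ 3) ^ 4 / 24 ≤ Real.exp (3 / 50 * E ^ 3) := by
      have := LLb1_exp_ge (3 / 50 * E ^ 3) (by positivity) 4
      norm_num [Nat.factorial] at this ⊢
      linarith
    have h6 : Real.exp (3 / 50 * E ^ 3) ≤ Real.exp (1 / 25 * N / v ^ 2) := Real.exp_le_exp.mpr hx
    rw [Real.exp_neg]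
    have h7 : (3 / 50 * E ^ 3) ^ 4 / 24 ≤ Real.exp (1 / 25 * N / v ^ 2) := h5.trans h6
    calc (Real.exp (1 / 25 * N / v ^ 2))⁻¹ ≤ ((3 / 50 * E ^ 3) ^ 4 / 24)⁻¹ :=
          inv_anti₀ (by positivity) h7
      _ = 24 / (3 / 50 * E ^ 3) ^ 4 := by rw [inv_div]
  calc v ^ 3 * Real.exp (-(1 / 25 * N / v ^ 2))
      ≤ (6 * E) * (24 / (3 / 50 * E ^ 3) ^ 4) := by gcongr
    _ = (144 * (50 / 3) ^ 4) / E ^ 11 := by
        field_simp
        ring
    _ ≤ 10 ^ 9 / 16 / E ^ 11 := by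
        gcongr
        norm_num
    _ ≤ 10 ^ 9 / N ^ 2 * (E ^ 3)⁻¹ := by
        rw [hN, h4, ← div_eq_mul_inv, div_div, div_div]
        apply div_le_div_of_nonneg_left (by norm_num) (by positivity)
        have : Real.pi ^ 2 ≤ 16 := by nlinarith
        calc (Real.pi * E ^ 4) ^ 2 * E ^ 3 = Real.pi ^ 2 * E ^ 11 := by ring
          _ ≤ 16 * E ^ 11 := by gcongr
    _ = 10 ^ 9 / N ^ 2 * Real.exp (-(3 * v)) := by rw [h3]

private theorem LLb1_num2 (v N : ℝ) (hv : 100 ≤ v) (hN : 0 < N) :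
    v ^ 3 ≤ 12 / N ^ 2 * Real.exp (7 * v + N * v) := by
  have hvpos : 0 < v := by linarith
  have e3 : v ^ 3 / 6 ≤ Real.exp v := by
    have := LLb1_exp_ge v hvpos.le 3
    norm_num [Nat.factorial] at this
    linarith
  have e2 : N ^ 2 / 2 ≤ Real.exp N := by
    have := LLb1_exp_ge N hN.le 2
    norm_num [Nat.factorial] at this
    linarith
  have h1 : Real.exp v ≤ Real.exp (7 * v) := Real.exp_le_exp.mpr (by linarith)
  have h2 : Real.exp N ≤ Real.exp (N * v) := Real.exp_le_exp.mpr (by nlinarith)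
  rw [Real.exp_add, div_mul_eq_mul_div, le_div_iff₀ (by positivity)]
  have h3 : v ^ 3 / 6 * (N ^ 2 / 2) ≤ Real.exp (7 * v) * Real.exp (N * v) :=
    mul_le_mul (e3.trans h1) (e2.trans h2) (by positivity) (by positivity)
  linarith

private theorem LLb1_yy_nonneg (p : ℂ) (hv : 100 ≤ p.re) (h0 : 0 ≤ p.im) (h1 : p.im < Real.pi / 8) :
    p.im ≤ yy p := by
  unfold yy
  have hr : 0 ≤ rr p := by
    unfold rr
    have : 0 < p.re := by linarith
    positivity
  have hs : 0 ≤ Real.sin (2 * p.im) := by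
    apply Real.sin_nonneg_of_nonneg_of_le_pi
    · linarith
    · have := Real.pi_pos
      linarith
  have := mul_nonneg hr hs
  linarith

private theorem LLb1_seg (C V : ℝ) (hC : 0 < C)
    (hph : ∀ p ∈ Reg V, ∀ u : ℂ, 0 ≤ u.re →
    (|u.im| ≤ yy p ∨ |u.im| ≤ 1 / 4) → u ∈ strip ∧
      ‖Ph u‖ ≤ C * p.re ^ 3 * Real.exp (9 * u.re) * ‖cexp (-(Real.pi * cexp (4 * u)))‖)
    (M : ℝ) (p : ℂ) (hp : p ∈ Reg V) (hv : 100 ≤ p.re) (z : ℂ) (hz : ‖z‖ ≤ M / p.re) (y : ℝ)
    (hy0 : 0 ≤ y) (hy1 : y ≤ 1) (hy : |y| ≤ yy p ∨ |y| ≤ 1 / 4) (B : ℝ)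
    (hB : Real.exp (-(y ^ 2 * (tp p).re)) ≤ B) :
    ‖gg (tp p) z (y * I)‖ ≤ C * Real.exp |M| * p.re ^ 3 * B := by
  have hvpos : 0 < p.re := by linarith
  have hre : ((y : ℂ) * I).re = 0 := by simp
  have him : ((y : ℂ) * I).im = y := by simp
  obtain ⟨hs, h1⟩ := hph p hp ((y : ℂ) * I) (by rw [hre]) (by rw [him]; exact hy)
  have h2 : ‖cexp (-(Real.pi * cexp (4 * ((y : ℂ) * I))))‖ ≤ 1 := by
    rw [LLb1_norm_e]
    apply Real.exp_le_one_iff.mpr
    have h3 := exp4_re_pos _ hs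
    have := mul_pos Real.pi_pos h3
    linarith
  have h4 : ‖Ph ((y : ℂ) * I)‖ ≤ C * p.re ^ 3 := by
    refine h1.trans ?_
    rw [hre, mul_zero, Real.exp_zero, mul_one]
    have : 0 ≤ C * p.re ^ 3 := by positivity
    nlinarith
  have h5 : ‖cexp (tp p * ((y : ℂ) * I) ^ 2)‖ = Real.exp (-(y ^ 2 * (tp p).re)) := by
    rw [Complex.norm_exp]
    congr 1
    rw [mul_pow, I_sq]
    have : tp p * ((y : ℂ) ^ 2 * -1) = ((-(y ^ 2) : ℝ) : ℂ) * tp p := by push_cast; ring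
    rw [this, Complex.re_ofReal_mul]
    ring
  have h6 : ‖cexp (I * z * ((y : ℂ) * I))‖ ≤ Real.exp |M| := by
    rw [Complex.norm_exp]
    apply Real.exp_le_exp.mpr
    have h7 : (I * z * ((y : ℂ) * I)).re ≤ ‖I * z * ((y : ℂ) * I)‖ := Complex.re_le_norm _
    refine h7.trans ?_
    rw [norm_mul, norm_mul, norm_mul, Complex.norm_I, Complex.norm_real, Real.norm_eq_abs,
      abs_of_nonneg hy0]
    have h8 : ‖z‖ ≤ |M| := by
      refine hz.trans ?_
      rw [div_le_iff₀ hvpos]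
      have := le_abs_self M
      have := abs_nonneg M
      nlinarith
    have := norm_nonneg z
    nlinarith
  unfold gg
  rw [norm_mul, norm_mul, h5]
  have hB0 : 0 ≤ B := (Real.exp_pos _).le.trans hB
  calc Real.exp (-(y ^ 2 * (tp p).re)) * ‖Ph ((y : ℂ) * I)‖ * ‖cexp (I * z * ((y : ℂ) * I))‖
      ≤ B * (C * p.re ^ 3) * Real.exp |M| := by gcongr
    _ = _ := by ring

theorem vert_bd (M : ℝ) : ∃ C V : ℝ, 100 ≤ V ∧ ∀ p ∈ Reg V, ∀ z : ℂ, ‖z‖ ≤ M / p.re →
    ‖SG (tp p) z (I / 4) (yy p * I)‖ ≤ C / EE p ^ 2 * ‖NN p‖ := by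
  obtain ⟨C, V1, hC, hV1, hph⟩ := phi_bd
  obtain ⟨V2, hV2, hreg⟩ := reg_all
  refine ⟨C * Real.exp |M| * 10 ^ 9, max V1 V2, hV1.trans (le_max_left _ _), ?_⟩
  intro p hp z hz
  have hp1 : p ∈ Reg V1 := reg_sub (le_max_left _ _) hp
  have hp2 : p ∈ Reg V2 := reg_sub (le_max_right _ _) hp
  have hv : 100 ≤ p.re := hV1.trans hp1.1
  have hvpos : 0 < p.re := by linarith
  obtain ⟨h1, -, -, h4, h5, h6, -, -⟩ := hreg p hp2
  have hyy : yy p < Real.pi / 8 := h4
  have hpi := Real.pi_gt_three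
  have hpi4 := Real.pi_lt_four
  have hyy0 : p.im ≤ yy p := LLb1_yy_nonneg p hv hp1.2.1 hp1.2.2.1
  have him0 : 0 ≤ p.im := hp1.2.1
  have hN : 0 < EE p := by unfold EE; positivity
  have ht0 : 0 ≤ (tp p).re := by
    refine le_trans ?_ h5
    positivity
  -- the integral
  have key : ∀ B : ℝ, (∀ y : ℝ, (1 / 4 ≤ y ∨ y ≤ 1 / 4) →
      (p.im < 1 / 4 ∨ 1 / 4 ≤ y) → Real.exp (-(y ^ 2 * (tp p).re)) ≤ B) →
      ‖SG (tp p) z (I / 4) (yy p * I)‖ ≤ C * Real.exp |M| * p.re ^ 3 * B := by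
    intro B hB
    have hB0 : 0 ≤ B := (Real.exp_pos _).le.trans (hB (1 / 4) (Or.inl le_rfl) (Or.inr le_rfl))
    unfold SG
    rw [norm_mul]
    have hlen : ‖(yy p : ℂ) * I - I / 4‖ ≤ 1 := by
      have : (yy p : ℂ) * I - I / 4 = ((yy p - 1 / 4 : ℝ) : ℂ) * I := by push_cast; ring
      rw [this, norm_mul, Complex.norm_I, mul_one, Complex.norm_real, Real.norm_eq_abs, abs_le]
      constructor <;> linarith
    have hint : ‖∫ s in (0 : ℝ)..1, gg (tp p) z (I / 4 + s * (yy p * I - I / 4))‖ ≤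
        (C * Real.exp |M| * p.re ^ 3 * B) * |(1 : ℝ) - 0| := by
      apply intervalIntegral.norm_integral_le_of_norm_le_const
      intro s hs
      rw [uIoc_of_le (by norm_num : (0 : ℝ) ≤ 1)] at hs
      have e1 : I / 4 + (s : ℂ) * (yy p * I - I / 4) = ((1 / 4 + s * (yy p - 1 / 4) : ℝ) : ℂ) * I := by
        push_cast
        ring
      rw [e1]
      have hs0 : 0 ≤ s := hs.1.le
      have hs1 : s ≤ 1 := hs.2
      have hy0 : 0 ≤ 1 / 4 + s * (yy p - 1 / 4) := by nlinarith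
      apply LLb1_seg C V1 hC hph M p hp1 hv z hz _ hy0
      · nlinarith
      · rw [abs_of_nonneg hy0]
        rcases le_total (yy p) (1 / 4) with h | h
        · right
          nlinarith
        · left
          nlinarith
      · apply hB
        · exact le_total _ _
        · rcases lt_or_ge p.im (1 / 4) with h | h
          · exact Or.inl h
          · right
            nlinarith
    have hK : 0 ≤ C * Real.exp |M| * p.re ^ 3 * B := by positivity
    rw [sub_zero, abs_one, mul_one] at hint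
    calc ‖(yy p : ℂ) * I - I / 4‖ * ‖∫ s in (0 : ℝ)..1, gg (tp p) z (I / 4 + s * (yy p * I - I / 4))‖
        ≤ 1 * (C * Real.exp |M| * p.re ^ 3 * B) := by gcongr
      _ = _ := one_mul _
  have hNN := LLb1_norm_NN p
  rcases lt_or_ge p.im (1 / 4) with h | h
  · have h7 := h6 h
    have h8 := key 1 (by
      intro y _ _
      apply Real.exp_le_one_iff.mpr
      have : 0 ≤ y ^ 2 * (tp p).re := by positivity
      linarith)
    rw [mul_one] at h8
    refine h8.trans ?_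
    have h9 := LLb1_num2 p.re (EE p) hv hN
    have h10 : Real.exp (7 * p.re + EE p * p.re) ≤ ‖NN p‖ :=
      (Real.exp_le_exp.mpr (by linarith)).trans hNN
    calc C * Real.exp |M| * p.re ^ 3
        ≤ C * Real.exp |M| * (12 / EE p ^ 2 * Real.exp (7 * p.re + EE p * p.re)) := by gcongr
      _ ≤ C * Real.exp |M| * (10 ^ 9 / EE p ^ 2 * ‖NN p‖) := by
          gcongr
          norm_num
      _ = C * Real.exp |M| * 10 ^ 9 / EE p ^ 2 * ‖NN p‖ := by ring
  · have h8 := key (Real.exp (-(1 / 25 * EE p / p.re ^ 2))) (by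
      intro y _ hy
      have hy' : 1 / 4 ≤ y := by
        rcases hy with hy | hy
        · linarith
        · exact hy
      apply Real.exp_le_exp.mpr
      have hy2 : 1 / 16 ≤ y ^ 2 := by nlinarith
      have h9 : 1 / 25 * EE p / p.re ^ 2 ≤ 1 / 16 * (7 / 10 * EE p / p.re ^ 2) := by
        have : 0 < EE p / p.re ^ 2 := by positivity
        have e1 : 1 / 25 * EE p / p.re ^ 2 = 1 / 25 * (EE p / p.re ^ 2) := by ring
        have e2 : 1 / 16 * (7 / 10 * EE p / p.re ^ 2) = 7 / 160 * (EE p / p.re ^ 2) := by ring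
        rw [e1, e2]
        nlinarith
      have h10 : 1 / 16 * (7 / 10 * EE p / p.re ^ 2) ≤ y ^ 2 * (tp p).re := by
        have : 0 ≤ 7 / 10 * EE p / p.re ^ 2 := by positivity
        exact mul_le_mul hy2 h5 this (by positivity)
      linarith)
    refine h8.trans ?_
    have h9 := LLb1_num1 p.re (EE p) hv rfl
    have h10 : Real.exp (-(3 * p.re)) ≤ ‖NN p‖ :=
      (Real.exp_le_exp.mpr (by linarith)).trans hNN
    calc C * Real.exp |M| * p.re ^ 3 * Real.exp (-(1 / 25 * EE p / p.re ^ 2))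
        = C * Real.exp |M| * (p.re ^ 3 * Real.exp (-(1 / 25 * EE p / p.re ^ 2))) := by ring
      _ ≤ C * Real.exp |M| * (10 ^ 9 / EE p ^ 2 * Real.exp (-(3 * p.re))) := by gcongr
      _ ≤ C * Real.exp |M| * (10 ^ 9 / EE p ^ 2 * ‖NN p‖) := by gcongr
      _ = C * Real.exp |M| * 10 ^ 9 / EE p ^ 2 * ‖NN p‖ := by ring

private lemma hor_const : ∃ K : ℝ, 0 < K ∧ ∀ v : ℝ, 1 ≤ v →
    v ^ 4 * Real.exp (12 * v) * (Real.pi * Real.exp (4 * v)) ^ 2 *
      Real.exp (-(7 / 400 * (Real.pi * Real.exp (4 * v)) / v ^ 2)) ≤ K := by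
  refine ⟨Real.pi ^ 2 * ((12 : ℕ).factorial : ℝ) * (400 / 7) ^ 12, by positivity, fun v hv => ?_⟩
  have hv0 : 0 < v := by linarith
  have hE : 0 < Real.exp (2 * v) := Real.exp_pos _
  have hve : v ^ 2 ≤ Real.exp (2 * v) := by
    have h1 : v ≤ Real.exp v := by linarith [Real.add_one_le_exp v]
    have h2 : Real.exp (2 * v) = Real.exp v ^ 2 := by
      rw [← Real.exp_nat_mul]
      norm_num
    rw [h2]
    exact pow_le_pow_left₀ hv0.le h1 2
  have e4 : Real.exp (4 * v) = Real.exp (2 * v) ^ 2 := by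
    rw [← Real.exp_nat_mul]
    congr 1
    push_cast
    ring
  have e12 : Real.exp (12 * v) = Real.exp (2 * v) ^ 6 := by
    rw [← Real.exp_nat_mul]
    congr 1
    push_cast
    ring
  rw [e4, e12]
  generalize Real.exp (2 * v) = E at hE hve e4 e12
  have hpi3 := Real.pi_gt_three
  have h3 : 7 / 400 * E ≤ 7 / 400 * (Real.pi * E ^ 2) / v ^ 2 := by
    rw [le_div_iff₀ (by positivity)]
    have h4 : E * v ^ 2 ≤ E * E := mul_le_mul_of_nonneg_left hve hE.le
    nlinarith [mul_pos hE hE]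
  have h5 : Real.exp (-(7 / 400 * (Real.pi * E ^ 2) / v ^ 2)) ≤
      ((12 : ℕ).factorial : ℝ) / (7 / 400 * E) ^ 12 := by
    have h6 : (7 / 400 * E) ^ 12 / ((12 : ℕ).factorial : ℝ) ≤ Real.exp (7 / 400 * E) :=
      Real.pow_div_factorial_le_exp _ (by positivity) 12
    have h7 : Real.exp (-(7 / 400 * (Real.pi * E ^ 2) / v ^ 2)) ≤ Real.exp (-(7 / 400 * E)) :=
      Real.exp_le_exp.mpr (by linarith)
    refine h7.trans ?_
    rw [Real.exp_neg, ← one_div]
    calc 1 / Real.exp (7 / 400 * E) ≤ 1 / ((7 / 400 * E) ^ 12 / ((12 : ℕ).factorial : ℝ)) :=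
          one_div_le_one_div_of_le (by positivity) h6
      _ = ((12 : ℕ).factorial : ℝ) / (7 / 400 * E) ^ 12 := by rw [one_div_div]
  have h8 : v ^ 4 ≤ E ^ 2 := by
    calc v ^ 4 = (v ^ 2) ^ 2 := by ring
      _ ≤ E ^ 2 := pow_le_pow_left₀ (by positivity) hve 2
  calc v ^ 4 * E ^ 6 * (Real.pi * E ^ 2) ^ 2 * Real.exp (-(7 / 400 * (Real.pi * E ^ 2) / v ^ 2))
      ≤ E ^ 2 * E ^ 6 * (Real.pi * E ^ 2) ^ 2 * (((12 : ℕ).factorial : ℝ) / (7 / 400 * E) ^ 12) := by
        refine mul_le_mul ?_ h5 (Real.exp_pos _).le (by positivity)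
        refine mul_le_mul_of_nonneg_right ?_ (by positivity)
        exact mul_le_mul_of_nonneg_right h8 (by positivity)
    _ = Real.pi ^ 2 * ((12 : ℕ).factorial : ℝ) * (400 / 7) ^ 12 := by
        rw [mul_pow (7 / 400 : ℝ) E 12, div_pow (7 : ℝ) 400 12, div_pow (400 : ℝ) 7 12]
        field_simp

private lemma hor_NN (p : ℂ) : Real.exp (7 * p.re + (SS p).re) ≤ ‖NN p‖ := by
  have h1 : ‖NN p‖ = Real.pi ^ 2 / (2 * Real.sqrt 2) * Real.exp (7 * p.re + (SS p).re) := by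
    rw [NN, norm_mul, norm_div, norm_mul, norm_pow, Complex.norm_exp, Complex.norm_real, Complex.norm_real,
      Complex.norm_ofNat, Real.norm_of_nonneg Real.pi_pos.le, Real.norm_of_nonneg (Real.sqrt_nonneg 2)]
    congr 2
    simp
  rw [h1]
  have h2 : 1 ≤ Real.pi ^ 2 / (2 * Real.sqrt 2) := by
    rw [one_le_div (by positivity)]
    have h3 : Real.sqrt 2 ≤ 2 := by
      rw [Real.sqrt_le_left (by norm_num)]
      norm_num
    nlinarith [Real.pi_gt_three]
  calc Real.exp (7 * p.re + (SS p).re) = 1 * Real.exp (7 * p.re + (SS p).re) := (one_mul _).symm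
    _ ≤ _ := mul_le_mul_of_nonneg_right h2 (Real.exp_pos _).le

private lemma hor_a (p : ℂ) (r c s : ℝ) :
    p - r * ((c : ℂ) - (s : ℂ) * I) - ((p.im + r * s : ℝ) : ℂ) * I = ((p.re - r * c : ℝ) : ℂ) := by
  apply Complex.ext <;> simp

private lemma hor_b (p : ℂ) (r c s t : ℝ) :
    ((p.im + r * s : ℝ) : ℂ) * I + t * ((p.re - r * c : ℝ) : ℂ) =
      p + (-((p.re - t * (p.re - r * c) : ℝ) : ℂ) + r * s * I) := by
  apply Complex.ext <;> simp

private lemma hor_c (y t L : ℝ) : ((y : ℂ) * I + t * (L : ℂ)).re = t * L ∧ ((y : ℂ) * I + t * (L : ℂ)).im = y := by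
  constructor <;> simp

theorem hor_bd (M : ℝ) : ∃ C V : ℝ, 100 ≤ V ∧ ∀ p ∈ Reg V, ∀ z : ℂ, ‖z‖ ≤ M / p.re →
    ‖SG (tp p) z (yy p * I) (p - rr p * dd p)‖ ≤ C / EE p ^ 2 * ‖NN p‖ := by
  obtain ⟨C1, V1, hC1, hV1, hphi⟩ := phi_bd
  obtain ⟨V2, hV2, hth⟩ := th_bd
  obtain ⟨V3, hV3, hreg⟩ := reg_all
  obtain ⟨K, hK, hKb⟩ := hor_const
  refine ⟨C1 * Real.exp (2 * M) * K, max V1 (max V2 V3), hV1.trans (le_max_left _ _), fun p hp z hz => ?_⟩
  have hp1 : p ∈ Reg V1 := reg_sub (le_max_left _ _) hp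
  have hp2 : p ∈ Reg V2 := reg_sub ((le_max_left _ _).trans (le_max_right _ _)) hp
  have hp3 : p ∈ Reg V3 := reg_sub ((le_max_right _ _).trans (le_max_right _ _)) hp
  obtain ⟨r1, -, r3, r4, r5, r6, -, -⟩ := hreg p hp3
  have hv100 : 100 ≤ p.re := hV1.trans hp1.1
  have hv0 : 0 < p.re := by linarith
  have him0 : 0 ≤ p.im := hp.2.1
  have him8 : p.im < Real.pi / 8 := hp.2.2.1
  have hpi4 : Real.pi < 4 := Real.pi_lt_four
  have hp0 : p ≠ 0 := by
    intro h
    rw [h, Complex.zero_re] at hv0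
    exact lt_irrefl _ hv0
  have hrr : 0 < rr p := by
    rw [rr]
    positivity
  have hrr1 : rr p ≤ 1 := by
    rw [rr, div_le_one (by positivity)]
    linarith
  have hcos : 0 ≤ Real.cos (2 * p.im) := Real.cos_nonneg_of_mem_Icc ⟨by linarith, by linarith⟩
  have hcos1 : Real.cos (2 * p.im) ≤ 1 := Real.cos_le_one _
  have hsin : 0 ≤ Real.sin (2 * p.im) := Real.sin_nonneg_of_nonneg_of_le_pi (by linarith) (by linarith)
  have hyy : yy p = p.im + rr p * Real.sin (2 * p.im) := rfl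
  have hyy0 : 0 ≤ yy p := by
    rw [hyy]
    have := mul_nonneg hrr.le hsin
    linarith
  have hyy1 : yy p ≤ 1 := by
    rw [hyy]
    linarith
  have hM : 0 ≤ M := by
    have h1 : 0 ≤ M / p.re := (norm_nonneg z).trans hz
    by_contra hneg
    have h2 : M / p.re < 0 := div_neg_of_neg_of_pos (not_le.mp hneg) hv0
    linarith
  have hrc : rr p * Real.cos (2 * p.im) ≤ 1 := by nlinarith
  have hrc0 : 0 ≤ rr p * Real.cos (2 * p.im) := mul_nonneg hrr.le hcos
  have hdd : dd p = ((Real.cos (2 * p.im) : ℝ) : ℂ) - ((Real.sin (2 * p.im) : ℝ) : ℂ) * I := by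
    rw [dd, show -(2 * (p.im : ℂ) * I) = ((-(2 * p.im) : ℝ) : ℂ) * I by push_cast; ring, Complex.exp_mul_I,
      ← Complex.ofReal_cos, ← Complex.ofReal_sin, Real.cos_neg, Real.sin_neg]
    push_cast
    ring
  have hba : p - rr p * dd p - yy p * I = ((p.re - rr p * Real.cos (2 * p.im) : ℝ) : ℂ) := by
    rw [hdd, hyy]
    exact hor_a p _ _ _
  -- the integrand
  have hSSx : ∀ x : ℂ, ‖cexp (tp p * (p + x) ^ 2 - Real.pi * cexp (4 * (p + x)))‖ =
      Real.exp ((SS p).re + (Real.pi * cexp (4 * p) * ff p x).re) := by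
    intro x
    rw [ff_eq p x hp0, Complex.norm_exp, Complex.add_re]
  have hend : (SS p).re + (Real.pi * cexp (4 * p) * ff p (-p.re + rr p * Real.sin (2 * p.im) * I)).re ≤
      -(yy p ^ 2 * (tp p).re) := by
    have h1 : p + (-(p.re : ℂ) + rr p * Real.sin (2 * p.im) * I) = yy p * I := by
      rw [hyy]
      apply Complex.ext <;> simp
    have h2 := congrArg Complex.re (ff_eq p (-(p.re : ℂ) + rr p * Real.sin (2 * p.im) * I) hp0)
    rw [Complex.add_re, h1, Complex.sub_re] at h2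
    have h3 : (tp p * ((yy p : ℂ) * I) ^ 2).re = -(yy p ^ 2 * (tp p).re) := by
      rw [mul_pow, Complex.I_sq, ← Complex.ofReal_pow]
      rw [show tp p * (((yy p ^ 2 : ℝ) : ℂ) * -1) = -(((yy p ^ 2 : ℝ) : ℂ) * tp p) by ring, Complex.neg_re,
        Complex.re_ofReal_mul]
    have h4 : ((Real.pi : ℂ) * cexp (4 * ((yy p : ℂ) * I))).re = Real.pi * Real.cos (4 * yy p) := by
      rw [Complex.re_ofReal_mul, Complex.exp_re]
      congr 1
      simp
    rw [h3, h4] at h2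
    have h5 : 0 ≤ Real.cos (4 * yy p) := by
      rw [hyy]
      exact le_trans (by positivity) r3
    have h6 : 0 ≤ Real.pi * Real.cos (4 * yy p) := mul_nonneg Real.pi_pos.le h5
    linarith
  have hEE : EE p = Real.pi * Real.exp (4 * p.re) := rfl
  have hEpos : 0 < EE p := by
    rw [hEE]
    positivity
  -- the common bound of the exponential
  have hZ : ∀ a : ℝ, rr p * Real.cos (2 * p.im) ≤ a → a ≤ p.re →
      ‖cexp (tp p * (p + (-a + rr p * Real.sin (2 * p.im) * I)) ^ 2 -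
        Real.pi * cexp (4 * (p + (-a + rr p * Real.sin (2 * p.im) * I))))‖ ≤
      Real.exp ((SS p).re) * Real.exp (10 * p.re) * Real.exp (-(7 / 400 * EE p / p.re ^ 2)) := by
    intro a ha1 ha2
    rw [hSSx, ← Real.exp_add, ← Real.exp_add]
    refine Real.exp_le_exp.mpr ?_
    have h1 := hth p hp2 a ha1 ha2
    rcases le_max_iff.mp h1 with h2 | h2
    · have h3 : 7 * EE p * rr p ^ 2 = 7 / 400 * EE p / p.re ^ 2 := by
        rw [rr]
        field_simp
        norm_num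
      rw [h3] at h2
      linarith
    · have h4 : (SS p).re + (Real.pi * cexp (4 * p) * ff p (-a + rr p * Real.sin (2 * p.im) * I)).re ≤
          -(yy p ^ 2 * (tp p).re) := by linarith
      refine h4.trans ?_
      have hq : 0 ≤ EE p / p.re ^ 2 := by positivity
      rcases lt_or_ge p.im (1 / 4) with h5 | h5
      · have h6 := r6 h5
        have h7 : 0 ≤ (tp p).re := le_trans (by positivity) r5
        have h8 : 0 ≤ yy p ^ 2 * (tp p).re := mul_nonneg (sq_nonneg _) h7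
        have h9 : 7 / 400 * EE p / p.re ^ 2 ≤ EE p * p.re := by
          rw [div_le_iff₀ (by positivity)]
          have h10 : 1 ≤ p.re * p.re ^ 2 := by nlinarith [sq_nonneg p.re]
          nlinarith
        nlinarith
      · have h6 : (1 / 4 : ℝ) ^ 2 ≤ yy p ^ 2 := by
          refine pow_le_pow_left₀ (by norm_num) ?_ 2
          rw [hyy]
          have := mul_nonneg hrr.le hsin
          linarith
        have h7 : (1 / 4 : ℝ) ^ 2 * (7 / 10 * EE p / p.re ^ 2) ≤ yy p ^ 2 * (tp p).re :=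
          mul_le_mul h6 r5 (by positivity) (sq_nonneg _)
        have h8 : (1 / 4 : ℝ) ^ 2 * (7 / 10 * EE p / p.re ^ 2) = 7 / 160 * (EE p / p.re ^ 2) := by ring
        have h9 : 7 / 400 * EE p / p.re ^ 2 = 7 / 400 * (EE p / p.re ^ 2) := by ring
        rw [h8] at h7
        rw [h9]
        linarith
  have hgg : ∀ s ∈ Set.uIoc (0 : ℝ) 1, ‖gg (tp p) z (yy p * I + s * (p - rr p * dd p - yy p * I))‖ ≤
      C1 * p.re ^ 3 * Real.exp (9 * p.re) * Real.exp (2 * M) *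
        (Real.exp ((SS p).re) * Real.exp (10 * p.re) * Real.exp (-(7 / 400 * EE p / p.re ^ 2))) := by
    intro s hs
    rw [Set.uIoc_of_le zero_le_one] at hs
    rw [hba]
    have hL0 : 0 ≤ p.re - rr p * Real.cos (2 * p.im) := by linarith
    have hu : (yy p : ℂ) * I + s * ((p.re - rr p * Real.cos (2 * p.im) : ℝ) : ℂ) =
        p + (-((p.re - s * (p.re - rr p * Real.cos (2 * p.im)) : ℝ) : ℂ) + rr p * Real.sin (2 * p.im) * I) := by
      rw [hyy]
      exact hor_b p _ _ _ _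
    have hZs := hZ (p.re - s * (p.re - rr p * Real.cos (2 * p.im))) (by nlinarith [hs.1, hs.2]) (by nlinarith [hs.1, hs.2])
    rw [← hu] at hZs
    have hre : ((yy p : ℂ) * I + s * ((p.re - rr p * Real.cos (2 * p.im) : ℝ) : ℂ)).re =
        s * (p.re - rr p * Real.cos (2 * p.im)) := (hor_c _ _ _).1
    have him : ((yy p : ℂ) * I + s * ((p.re - rr p * Real.cos (2 * p.im) : ℝ) : ℂ)).im = yy p := (hor_c _ _ _).2
    generalize (yy p : ℂ) * I + s * ((p.re - rr p * Real.cos (2 * p.im) : ℝ) : ℂ) = u at hZs hre him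
    have hure0 : 0 ≤ u.re := by
      rw [hre]
      exact mul_nonneg hs.1.le hL0
    have hure1 : u.re ≤ p.re := by
      rw [hre]
      nlinarith [hs.1, hs.2]
    obtain ⟨-, hPh⟩ := hphi p hp1 u hure0 (Or.inl (by rw [him, abs_of_nonneg hyy0]))
    have hnu : ‖u‖ ≤ 2 * p.re := by
      refine (Complex.norm_le_abs_re_add_abs_im u).trans ?_
      rw [him, abs_of_nonneg hure0, abs_of_nonneg hyy0]
      linarith
    have hzu : ‖cexp (I * z * u)‖ ≤ Real.exp (2 * M) := by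
      refine (Complex.norm_exp_le_exp_norm _).trans (Real.exp_le_exp.mpr ?_)
      rw [norm_mul, norm_mul, Complex.norm_I, one_mul]
      calc ‖z‖ * ‖u‖ ≤ (M / p.re) * (2 * p.re) := mul_le_mul hz hnu (norm_nonneg _) (by positivity)
        _ = 2 * M := by field_simp
    rw [gg, norm_mul, norm_mul]
    have hcomb : ‖cexp (tp p * u ^ 2)‖ * ‖cexp (-(Real.pi * cexp (4 * u)))‖ =
        ‖cexp (tp p * u ^ 2 - Real.pi * cexp (4 * u))‖ := by
      rw [← norm_mul, ← Complex.exp_add, sub_eq_add_neg]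
    calc ‖cexp (tp p * u ^ 2)‖ * ‖Ph u‖ * ‖cexp (I * z * u)‖
        ≤ ‖cexp (tp p * u ^ 2)‖ * (C1 * p.re ^ 3 * Real.exp (9 * u.re) * ‖cexp (-(Real.pi * cexp (4 * u)))‖) *
            Real.exp (2 * M) := by
          refine mul_le_mul ?_ hzu (norm_nonneg _) (by positivity)
          exact mul_le_mul_of_nonneg_left hPh (norm_nonneg _)
      _ = C1 * p.re ^ 3 * Real.exp (9 * u.re) * Real.exp (2 * M) *
            (‖cexp (tp p * u ^ 2)‖ * ‖cexp (-(Real.pi * cexp (4 * u)))‖) := by ring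
      _ = C1 * p.re ^ 3 * Real.exp (9 * u.re) * Real.exp (2 * M) *
            ‖cexp (tp p * u ^ 2 - Real.pi * cexp (4 * u))‖ := by rw [hcomb]
      _ ≤ C1 * p.re ^ 3 * Real.exp (9 * p.re) * Real.exp (2 * M) *
        (Real.exp ((SS p).re) * Real.exp (10 * p.re) * Real.exp (-(7 / 400 * EE p / p.re ^ 2))) := by
          refine mul_le_mul ?_ hZs (norm_nonneg _) (by positivity)
          refine mul_le_mul_of_nonneg_right ?_ (Real.exp_pos _).le
          refine mul_le_mul_of_nonneg_left ?_ (by positivity)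
          exact Real.exp_le_exp.mpr (by linarith)
  have hint := intervalIntegral.norm_integral_le_of_norm_le_const hgg
  have hnb : ‖p - rr p * dd p - yy p * I‖ ≤ p.re := by
    rw [hba, Complex.norm_real, Real.norm_of_nonneg (by linarith)]
    linarith
  have hKv := hKb p.re (by linarith)
  rw [← hEE] at hKv
  have hNN := hor_NN p
  rw [SG, norm_mul]
  have e1 : Real.exp (9 * p.re) * Real.exp (10 * p.re) = Real.exp (7 * p.re) * Real.exp (12 * p.re) := by
    rw [← Real.exp_add, ← Real.exp_add]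
    congr 1
    ring
  have e2 : Real.exp (7 * p.re) * Real.exp ((SS p).re) = Real.exp (7 * p.re + (SS p).re) := by
    rw [← Real.exp_add]
  calc ‖p - rr p * dd p - yy p * I‖ * ‖∫ s in (0 : ℝ)..1, gg (tp p) z (yy p * I + s * (p - rr p * dd p - yy p * I))‖
      ≤ p.re * (C1 * p.re ^ 3 * Real.exp (9 * p.re) * Real.exp (2 * M) *
        (Real.exp ((SS p).re) * Real.exp (10 * p.re) * Real.exp (-(7 / 400 * EE p / p.re ^ 2))) * |(1 : ℝ) - 0|) :=
        mul_le_mul hnb hint (norm_nonneg _) hv0.le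
    _ = C1 * Real.exp (2 * M) * (p.re ^ 4 * Real.exp (-(7 / 400 * EE p / p.re ^ 2))) * Real.exp ((SS p).re) *
          (Real.exp (9 * p.re) * Real.exp (10 * p.re)) := by
        rw [sub_zero, abs_one]
        ring
    _ = C1 * Real.exp (2 * M) * (p.re ^ 4 * Real.exp (12 * p.re) * EE p ^ 2 *
          Real.exp (-(7 / 400 * EE p / p.re ^ 2))) / EE p ^ 2 * (Real.exp (7 * p.re) * Real.exp ((SS p).re)) := by
        rw [e1]
        field_simp
    _ ≤ C1 * Real.exp (2 * M) * K / EE p ^ 2 * ‖NN p‖ := by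
        rw [e2]
        refine mul_le_mul ?_ hNN (Real.exp_pos _).le (by positivity)
        refine div_le_div_of_nonneg_right ?_ (by positivity)
        exact mul_le_mul_of_nonneg_left hKv (by positivity)

private theorem LLb3_fin {K v N : ℝ} (hK : 0 ≤ K) (hv : 1 ≤ v) (hN : N = Real.pi * Real.exp (4 * v)) :
    K * v ^ 3 * Real.exp (2 * v) * Real.exp (-(7 * N * (1 / (20 * v)) ^ 2)) ≤
      (K * (6 * 400 ^ 3) * 362880) / N ^ 2 := by
  have hv0 : 0 < v := by linarith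
  have hE : 0 < Real.exp (4 * v) := Real.exp_pos _
  have hpi : 1 ≤ Real.pi := by linarith [Real.pi_gt_three]
  have hNE : Real.exp (4 * v) ≤ N := by
    rw [hN]
    exact le_mul_of_one_le_left hE.le hpi
  have hN0 : 0 < N := hE.trans_le hNE
  set x : ℝ := 7 * N * (1 / (20 * v)) ^ 2 with hx
  have hx0 : 0 < x := by positivity
  have h1 : x ^ 3 / 6 ≤ Real.exp x := by
    have h := Real.pow_div_factorial_le_exp x hx0.le 3
    have e : ((Nat.factorial 3 : ℕ) : ℝ) = 6 := by norm_num [Nat.factorial]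
    rwa [e] at h
  have h2 : Real.exp (-x) ≤ 6 / x ^ 3 := by
    rw [Real.exp_neg, inv_eq_one_div, div_le_div_iff₀ (Real.exp_pos _) (by positivity)]
    linarith
  have hxe : x ^ 3 = 343 * N ^ 3 / (400 ^ 3 * v ^ 6) := by
    rw [hx]
    field_simp
    norm_num
  have h3 : v ^ 9 / 362880 ≤ Real.exp v := by
    have h := Real.pow_div_factorial_le_exp v hv0.le 9
    have e : ((Nat.factorial 9 : ℕ) : ℝ) = 362880 := by norm_num [Nat.factorial]
    rwa [e] at h
  have h4 : v ^ 9 * Real.exp (2 * v) ≤ 362880 * N := by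
    have h5 : v ^ 9 ≤ 362880 * Real.exp v := by linarith
    calc v ^ 9 * Real.exp (2 * v) ≤ (362880 * Real.exp v) * Real.exp (2 * v) :=
          mul_le_mul_of_nonneg_right h5 (Real.exp_pos _).le
      _ = 362880 * Real.exp (3 * v) := by
          rw [mul_assoc, ← Real.exp_add]
          ring_nf
      _ ≤ 362880 * Real.exp (4 * v) := by
          have : Real.exp (3 * v) ≤ Real.exp (4 * v) := Real.exp_le_exp.2 (by linarith)
          linarith
      _ ≤ 362880 * N := by linarith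
  calc K * v ^ 3 * Real.exp (2 * v) * Real.exp (-x)
      ≤ K * v ^ 3 * Real.exp (2 * v) * (6 / x ^ 3) :=
        mul_le_mul_of_nonneg_left h2 (by positivity)
    _ = K * (6 * 400 ^ 3 / 343) * (v ^ 9 * Real.exp (2 * v)) / N ^ 3 := by
        rw [hxe]
        field_simp
    _ ≤ K * (6 * 400 ^ 3 / 343) * (362880 * N) / N ^ 3 := by
        refine div_le_div_of_nonneg_right ?_ (by positivity)
        exact mul_le_mul_of_nonneg_left h4 (by positivity)
    _ = K * (6 * 400 ^ 3 / 343) * 362880 / N ^ 2 := by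
        field_simp
    _ ≤ (K * (6 * 400 ^ 3) * 362880) / N ^ 2 := by
        refine div_le_div_of_nonneg_right ?_ (by positivity)
        have : K * (6 * 400 ^ 3 / 343) ≤ K * (6 * 400 ^ 3) :=
          mul_le_mul_of_nonneg_left (by norm_num) hK
        linarith

theorem ray_bd (M : ℝ) : ∃ C V : ℝ, 100 ≤ V ∧ ∀ p ∈ Reg V, ∀ z : ℂ, ‖z‖ ≤ M / p.re →
    ‖RR (tp p) z (p + rr p * dd p)‖ ≤ C / EE p ^ 2 * ‖NN p‖ := by
  obtain ⟨C1, V1, hC1, hV1, hphi⟩ := phi_bd
  obtain ⟨V2, hV2, hph⟩ := ph_bd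
  obtain ⟨V3, hV3, hreg⟩ := reg_all
  set b : ℝ := 9 + |M| with hb
  set K : ℝ := C1 * Real.exp (9 + 3 * |M| + (b + 1) ^ 2 / 4) with hK
  have hK0 : 0 < K := mul_pos hC1 (Real.exp_pos _)
  refine ⟨K * (6 * 400 ^ 3) * 362880, max V1 (max V2 V3), hV1.trans (le_max_left _ _), ?_⟩
  intro p hp z hz
  have hp1 : p ∈ Reg V1 := reg_sub (le_max_left _ _) hp
  have hp2 : p ∈ Reg V2 := reg_sub ((le_max_left _ _).trans (le_max_right _ _)) hp
  have hp3 : p ∈ Reg V3 := reg_sub ((le_max_right _ _).trans (le_max_right _ _)) hp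
  obtain ⟨-, -, -, -, -, -, hr7, hr8⟩ := hreg p hp3
  have hv100 : 100 ≤ p.re := hV1.trans hp1.1
  have him0 : 0 ≤ p.im := hp1.2.1
  have him1 : p.im < Real.pi / 8 := hp1.2.2.1
  set v : ℝ := p.re with hv
  have hv0 : 0 < v := by linarith
  have hp0 : p ≠ 0 := by
    intro h
    rw [hv, h, Complex.zero_re] at hv0
    exact lt_irrefl _ hv0
  set N : ℝ := EE p with hN
  have hNv : N = Real.pi * Real.exp (4 * v) := rfl
  have hNpos : 0 < N := by rw [hNv]; positivity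
  have hNge : v ≤ N := by
    have h1 : 4 * v + 1 ≤ Real.exp (4 * v) := Real.add_one_le_exp _
    have h2 : Real.exp (4 * v) ≤ Real.pi * Real.exp (4 * v) :=
      le_mul_of_one_le_left (Real.exp_pos _).le (by linarith [Real.pi_gt_three])
    rw [hNv]
    linarith
  set ρ : ℝ := rr p with hρ
  have hρv : ρ = 1 / (20 * v) := rfl
  have hρ0 : 0 < ρ := by rw [hρv]; positivity
  have hρ1 : ρ ≤ 1 := by
    rw [hρv, div_le_one (by positivity)]
    linarith
  have hpi4 := Real.pi_lt_four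
  have hsin0 : 0 ≤ Real.sin (2 * p.im) :=
    Real.sin_nonneg_of_nonneg_of_le_pi (by linarith) (by linarith)
  have hsin1 : Real.sin (2 * p.im) ≤ 1 := Real.sin_le_one _
  have hcos0 : 0 ≤ Real.cos (2 * p.im) :=
    Real.cos_nonneg_of_neg_pi_div_two_le_of_le (by linarith [Real.pi_pos]) (by linarith)
  have hcos1 : Real.cos (2 * p.im) ≤ 1 := Real.cos_le_one _
  have hdd : dd p = ((Real.cos (2 * p.im) : ℝ) : ℂ) - ((Real.sin (2 * p.im) : ℝ) : ℂ) * I := by
    have e : -(2 * (p.im : ℂ) * I) = ((-(2 * p.im) : ℝ) : ℂ) * I := by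
      push_cast
      ring
    rw [dd, e, Complex.exp_mul_I, ← Complex.ofReal_cos, ← Complex.ofReal_sin, Real.cos_neg,
      Real.sin_neg, Complex.ofReal_neg]
    ring
  have hdre : (dd p).re = Real.cos (2 * p.im) := by
    rw [hdd, Complex.sub_re, Complex.mul_I_re, Complex.ofReal_re, Complex.ofReal_im]
    ring
  have hdim : (dd p).im = -Real.sin (2 * p.im) := by
    rw [hdd, Complex.sub_im, Complex.mul_I_im, Complex.ofReal_re, Complex.ofReal_im]
    ring
  have hdn : ‖dd p‖ = 1 := by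
    have e : -(2 * (p.im : ℂ) * I) = ((-(2 * p.im) : ℝ) : ℂ) * I := by
      push_cast
      ring
    rw [dd, e, Complex.norm_exp_ofReal_mul_I]
  have hNN : ‖NN p‖ = Real.pi ^ 2 / (2 * Real.sqrt 2) * Real.exp (7 * v + (SS p).re) := by
    rw [NN, norm_mul, norm_div, norm_mul, norm_pow, Complex.norm_real, Complex.norm_real,
      Complex.norm_exp, Real.norm_eq_abs, abs_of_pos Real.pi_pos, Complex.norm_ofNat,
      Real.norm_eq_abs, abs_of_nonneg (Real.sqrt_nonneg 2), Complex.add_re]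
    have e : (7 * p).re = 7 * v := by simp [hv]
    rw [e]
  have hMv : M / v ≤ |M| / v := div_le_div_of_nonneg_right (le_abs_self M) hv0.le
  set B : ℝ := K * v ^ 3 * Real.exp (9 * v) * Real.exp ((SS p).re - 7 * N * ρ ^ 2) with hB
  have hB0 : 0 ≤ B := by positivity
  have key : ∀ y ∈ Ioi (0 : ℝ), ‖gg (tp p) z (p + rr p * dd p + (y : ℂ))‖ ≤ B * Real.exp (-y) := by
    intro y hy
    have hy0 : 0 < y := hy
    set u : ℂ := p + rr p * dd p + (y : ℂ) with hu
    have hure : u.re = v + ρ * Real.cos (2 * p.im) + y := by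
      rw [hu, Complex.add_re, Complex.add_re, Complex.re_ofReal_mul, Complex.ofReal_re, hdre]
    have huim : u.im = p.im - ρ * Real.sin (2 * p.im) := by
      rw [hu, Complex.add_im, Complex.add_im, Complex.im_ofReal_mul, Complex.ofReal_im, hdim]
      ring
    have hrc : 0 ≤ ρ * Real.cos (2 * p.im) := mul_nonneg hρ0.le hcos0
    have hrc1 : ρ * Real.cos (2 * p.im) ≤ 1 := by
      have := mul_le_mul hρ1 hcos1 hcos0 zero_le_one
      linarith
    have hrs : 0 ≤ ρ * Real.sin (2 * p.im) := mul_nonneg hρ0.le hsin0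
    have hure0 : 0 ≤ u.re := by rw [hure]; linarith
    have huim2 : |u.im| ≤ yy p := by
      rw [huim, yy, abs_le]
      constructor
      · linarith
      · linarith
    obtain ⟨-, hPh⟩ := hphi p hp1 u hure0 (Or.inl huim2)
    have hun : ‖u‖ ≤ 2 * v + 1 + y := by
      have h1 : ‖u‖ ≤ ‖p‖ + ‖(rr p : ℂ) * dd p‖ + ‖(y : ℂ)‖ :=
        (norm_add_le _ _).trans (add_le_add_left (norm_add_le _ _) _)
      have h2 : ‖(rr p : ℂ) * dd p‖ = ρ := by
        rw [norm_mul, hdn, mul_one, Complex.norm_real, Real.norm_eq_abs, abs_of_pos hρ0]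
      have h3 : ‖(y : ℂ)‖ = y := by
        rw [Complex.norm_real, Real.norm_eq_abs, abs_of_pos hy0]
      rw [h2, h3] at h1
      linarith
    have hx : u = p + (rr p * dd p + (y : ℂ)) := by rw [hu]; ring
    have hexp : ‖cexp (tp p * u ^ 2)‖ * ‖cexp (-(Real.pi * cexp (4 * u)))‖ ≤
        Real.exp ((SS p).re + (-(7 * N * ρ ^ 2) - N / v * y ^ 2)) := by
      rw [← norm_mul, ← Complex.exp_add, ← sub_eq_add_neg]
      have e : tp p * u ^ 2 - Real.pi * cexp (4 * u) =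
          SS p + Real.pi * cexp (4 * p) * ff p (rr p * dd p + (y : ℂ)) := by
        rw [hx]
        exact ff_eq p _ hp0
      rw [e, Complex.norm_exp, Complex.add_re]
      exact Real.exp_le_exp.2 (add_le_add_right (hph p hp2 y hy0.le) _)
    have hez : ‖cexp (I * z * u)‖ ≤ Real.exp (3 * |M| + |M| * y) := by
      have h1 : ‖cexp (I * z * u)‖ ≤ Real.exp ‖I * z * u‖ := Complex.norm_exp_le_exp_norm _
      refine h1.trans (Real.exp_le_exp.2 ?_)
      rw [norm_mul, norm_mul, Complex.norm_I, one_mul]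
      have h2 : ‖z‖ * ‖u‖ ≤ |M| / v * (2 * v + 1 + y) :=
        mul_le_mul (hz.trans hMv) hun (norm_nonneg _) (div_nonneg (abs_nonneg _) hv0.le)
      refine h2.trans ?_
      have h3 : |M| / v * (2 * v + 1 + y) = 2 * |M| + |M| / v * (1 + y) := by
        field_simp
        ring
      have h4 : |M| / v ≤ |M| := div_le_self (abs_nonneg _) (by linarith)
      have h5 : |M| / v * (1 + y) ≤ |M| * (1 + y) :=
        mul_le_mul_of_nonneg_right h4 (by linarith)
      rw [h3]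
      linarith
    have hPh2 : C1 * v ^ 3 * Real.exp (9 * u.re) ≤ C1 * v ^ 3 * Real.exp (9 * v + 9 + 9 * y) := by
      refine mul_le_mul_of_nonneg_left (Real.exp_le_exp.2 ?_) (by positivity)
      rw [hure]
      linarith
    have hgg : ‖gg (tp p) z u‖ = ‖cexp (tp p * u ^ 2)‖ * ‖Ph u‖ * ‖cexp (I * z * u)‖ := by
      rw [gg, norm_mul, norm_mul]
    rw [hgg]
    have hstep : ‖cexp (tp p * u ^ 2)‖ * ‖Ph u‖ ≤
        (C1 * v ^ 3 * Real.exp (9 * v + 9 + 9 * y)) *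
          Real.exp ((SS p).re + (-(7 * N * ρ ^ 2) - N / v * y ^ 2)) := by
      calc ‖cexp (tp p * u ^ 2)‖ * ‖Ph u‖
          ≤ ‖cexp (tp p * u ^ 2)‖ * (C1 * v ^ 3 * Real.exp (9 * u.re) *
              ‖cexp (-(Real.pi * cexp (4 * u)))‖) :=
            mul_le_mul_of_nonneg_left hPh (norm_nonneg _)
        _ = (C1 * v ^ 3 * Real.exp (9 * u.re)) *
              (‖cexp (tp p * u ^ 2)‖ * ‖cexp (-(Real.pi * cexp (4 * u)))‖) := by ring
        _ ≤ _ := mul_le_mul hPh2 hexp (by positivity) (by positivity)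
    have hN1 : 1 ≤ N / v := by
      rw [le_div_iff₀ hv0]
      linarith
    have hexpo : (9 * v + 9 + 9 * y) + ((SS p).re + (-(7 * N * ρ ^ 2) - N / v * y ^ 2)) +
        (3 * |M| + |M| * y) ≤
        (9 + 3 * |M| + (b + 1) ^ 2 / 4) + 9 * v + ((SS p).re - 7 * N * ρ ^ 2) + -y := by
      have h1 : y ^ 2 ≤ N / v * y ^ 2 := le_mul_of_one_le_left (sq_nonneg y) hN1
      have h2 : (b + 1) * y - y ^ 2 ≤ (b + 1) ^ 2 / 4 := by
        have h := sq_nonneg (y - (b + 1) / 2)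
        have e : (y - (b + 1) / 2) ^ 2 = y ^ 2 - (b + 1) * y + (b + 1) ^ 2 / 4 := by ring
        rw [e] at h
        linarith
      have h3 : (b + 1) * y = 9 * y + |M| * y + y := by rw [hb]; ring
      linarith
    calc ‖cexp (tp p * u ^ 2)‖ * ‖Ph u‖ * ‖cexp (I * z * u)‖
        ≤ ((C1 * v ^ 3 * Real.exp (9 * v + 9 + 9 * y)) *
          Real.exp ((SS p).re + (-(7 * N * ρ ^ 2) - N / v * y ^ 2))) *
            Real.exp (3 * |M| + |M| * y) :=
          mul_le_mul hstep hez (norm_nonneg _) (by positivity)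
      _ = C1 * v ^ 3 * Real.exp ((9 * v + 9 + 9 * y) +
            ((SS p).re + (-(7 * N * ρ ^ 2) - N / v * y ^ 2)) + (3 * |M| + |M| * y)) := by
          rw [Real.exp_add (9 * v + 9 + 9 * y + _), Real.exp_add (9 * v + 9 + 9 * y)]
          ring
      _ ≤ C1 * v ^ 3 * Real.exp ((9 + 3 * |M| + (b + 1) ^ 2 / 4) + 9 * v +
            ((SS p).re - 7 * N * ρ ^ 2) + -y) :=
          mul_le_mul_of_nonneg_left (Real.exp_le_exp.2 hexpo) (by positivity)
      _ = B * Real.exp (-y) := by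
          rw [Real.exp_add _ (-y), Real.exp_add _ ((SS p).re - 7 * N * ρ ^ 2),
            Real.exp_add _ (9 * v), hB, hK]
          ring
  have hint : ‖RR (tp p) z (p + rr p * dd p)‖ ≤ B := by
    have hg : IntegrableOn (fun y : ℝ => B * Real.exp (-y)) (Ioi 0) :=
      Integrable.const_mul (integrableOn_exp_neg_Ioi 0) B
    have h1 : ‖RR (tp p) z (p + rr p * dd p)‖ ≤ ∫ y in Ioi (0 : ℝ), B * Real.exp (-y) :=
      norm_integral_le_of_norm_le hg ((ae_restrict_iff' measurableSet_Ioi).2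
        (Filter.Eventually.of_forall key))
    rwa [integral_const_mul, integral_exp_neg_Ioi_zero, mul_one] at h1
  have hfin := LLb3_fin hK0.le (by linarith : (1 : ℝ) ≤ v) hNv
  have hBe : B = (K * v ^ 3 * Real.exp (2 * v) * Real.exp (-(7 * N * (1 / (20 * v)) ^ 2))) *
      Real.exp (7 * v + (SS p).re) := by
    have e1 : Real.exp (9 * v) = Real.exp (2 * v) * Real.exp (7 * v) := by
      rw [← Real.exp_add]
      ring_nf
    have e2 : Real.exp ((SS p).re - 7 * N * ρ ^ 2) =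
        Real.exp (-(7 * N * (1 / (20 * v)) ^ 2)) * Real.exp ((SS p).re) := by
      rw [← Real.exp_add, hρv]
      ring_nf
    rw [hB, e1, e2, Real.exp_add]
    ring
  have hNNge : Real.exp (7 * v + (SS p).re) ≤ ‖NN p‖ := by
    rw [hNN]
    refine le_mul_of_one_le_left (Real.exp_pos _).le ?_
    have h2 : Real.sqrt 2 ≤ 2 := by
      rw [Real.sqrt_le_left (by norm_num)]
      norm_num
    have h3 : 0 < Real.sqrt 2 := Real.sqrt_pos.2 (by norm_num)
    have h4 : (3 : ℝ) ^ 2 ≤ Real.pi ^ 2 :=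
      pow_le_pow_left₀ (by norm_num) Real.pi_gt_three.le 2
    rw [le_div_iff₀ (by positivity)]
    linarith
  calc ‖RR (tp p) z (p + rr p * dd p)‖ ≤ B := hint
    _ = (K * v ^ 3 * Real.exp (2 * v) * Real.exp (-(7 * N * (1 / (20 * v)) ^ 2))) *
          Real.exp (7 * v + (SS p).re) := hBe
    _ ≤ ((K * (6 * 400 ^ 3) * 362880) / N ^ 2) * ‖NN p‖ :=
        mul_le_mul hfin hNNge (Real.exp_pos _).le (by positivity)

end Pool.Agent.Lib.MP_ec260d_ntC
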