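import Mathlib
import Pool.Agent.Lib.MP_ec260d_ntC.DefsW
import Pool.Agent.Lib.MP_ec260d_ntC.RegP
import Pool.Agent.Lib.MP_ec260d_ntC.LLa
import Pool.Agent.Lib.MP_ec260d_ntC.LLb
import Pool.Agent.Lib.MP_ec260d_ntC.BBb

/-!
# JOB Pack: the structure of the normalized function (about 250 lines)

`p ∈ Reg V`, `t = tp p`, `a p ζ = (1/2) RR t (ζ/p) (I/4) exp (-iζ)/NN p`, entire in `ζ` (`RR_diff_z`), `b = bb p`.  `HH_split` with `z = ζ/p`: `hh p ζ = e^{iζ} a p ζ + e^{-iζ} a p (-ζ) + WW p * bb p ζ` (`BB t (ζ/p)/NN p = WW p * bb p ζ`).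
`ray_shift` three times: `RR t z (I/4) = SG t z (I/4) (yy p I) + SG t z (yy p I) (p - ρd) + SG t z (p - ρd) (p + ρd) + RR t z (p + ρd)` (all points in the strip: `phi_bd`, imaginary parts `1/4`, `yy p`, `yy p`, `η - ρ sin 2η`), and `aa2_eq`: `a p ζ = aa2 p ζ + e(ζ)`, `e(ζ)` = the three other terms times `exp (-iζ)/(2 NN p)`,
`‖e ζ‖ ≤ C e^{M+2}/N²` for `‖ζ‖ ≤ M + 2` (`vert_bd, hor_bd, ray_bd` with `M + 2`; `‖ζ/p‖ ≤ (M+2)/v`).  `e = a - aa2` is entire (`aa2_diff`), Cauchy's estimates: `‖e'‖, ‖e''‖ ≤ C/N²` for `‖ζ‖ ≤ M`.  With `aa2_bound`: the bounds for `a`.  (`1/N² ≤ 1/(v² N) ≤ 1/(v sqrt N)`.)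
-/

namespace Pool.Agent.Lib.MP_ec260d_ntC

open Complex Set Filter Topology Metric MeasureTheory

private lemma pack_dd (p : ℂ) : dd p = ((Real.cos (2 * p.im) : ℝ) : ℂ) - ((Real.sin (2 * p.im) : ℝ) : ℂ) * I := by
  rw [dd, show -(2 * (p.im : ℂ) * I) = ((-(2 * p.im) : ℝ) : ℂ) * I by push_cast; ring, Complex.exp_mul_I,
    ← Complex.ofReal_cos, ← Complex.ofReal_sin, Real.cos_neg, Real.sin_neg]
  push_cast
  ring

private lemma pack_im (p : ℂ) (r c s : ℝ) :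
    (p - r * ((c : ℂ) - (s : ℂ) * I)).im = p.im + r * s ∧ (p + r * ((c : ℂ) - (s : ℂ) * I)).im = p.im - r * s := by
  constructor <;> (simp; try ring)

private lemma pack_strip {V : ℝ} (hV : 100 ≤ V) {p : ℂ} (hp : p ∈ Reg V)
    (h : p.im + rr p * Real.sin (2 * p.im) < Real.pi / 8) :
    I / 4 ∈ strip ∧ (yy p : ℂ) * I ∈ strip ∧ p - rr p * dd p ∈ strip ∧ p + rr p * dd p ∈ strip := by
  have hv : 100 ≤ p.re := hV.trans hp.1
  have him0 : 0 ≤ p.im := hp.2.1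
  have him8 : p.im < Real.pi / 8 := hp.2.2.1
  have hrr : 0 < rr p := by
    rw [rr]
    have : 0 < p.re := by linarith
    positivity
  have hrr1 : rr p ≤ 1 / 2 := by
    rw [rr, div_le_div_iff₀ (by linarith) (by norm_num)]
    linarith
  have hpi4 : Real.pi < 4 := Real.pi_lt_four
  have hsin : 0 ≤ Real.sin (2 * p.im) := Real.sin_nonneg_of_nonneg_of_le_pi (by linarith) (by linarith)
  have hsin2 : Real.sin (2 * p.im) ≤ 2 * p.im := Real.sin_le (by linarith)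
  have hrs : 0 ≤ rr p * Real.sin (2 * p.im) := mul_nonneg hrr.le hsin
  have hrs2 : rr p * Real.sin (2 * p.im) ≤ p.im := by nlinarith
  refine ⟨?_, ?_, ?_, ?_⟩
  · have h1 : (I / 4 : ℂ).im = 1 / 4 := by simp
    have h2 := Real.pi_gt_three
    rw [strip, Set.mem_ofPred_eq, h1, abs_of_pos (by norm_num)]
    linarith
  · have h1 : ((yy p : ℂ) * I).im = yy p := by simp
    rw [strip, Set.mem_ofPred_eq, h1, yy, abs_of_nonneg (by linarith)]
    exact h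
  · rw [strip, Set.mem_ofPred_eq, pack_dd, (pack_im p _ _ _).1, abs_of_nonneg (by linarith)]
    exact h
  · rw [strip, Set.mem_ofPred_eq, pack_dd, (pack_im p _ _ _).2, abs_of_nonneg (by linarith)]
    linarith

private lemma pack_cauchy {f : ℂ → ℂ} (hf : Differentiable ℂ f) {R B : ℝ} (hB : ∀ z, ‖z‖ ≤ R + 1 → ‖f z‖ ≤ B)
    (z : ℂ) (hz : ‖z‖ ≤ R) : ‖deriv f z‖ ≤ B := by
  have h1 := Complex.norm_deriv_le_of_forall_mem_sphere_norm_le (c := z) (R := 1) (f := f) (C := B) one_pos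
    hf.diffContOnCl (fun w hw => hB w (by
      have h2 : ‖w - z‖ = 1 := by
        rw [← dist_eq_norm]
        exact mem_sphere.mp hw
      calc ‖w‖ = ‖z + (w - z)‖ := by rw [add_sub_cancel]
        _ ≤ ‖z‖ + ‖w - z‖ := norm_add_le _ _
        _ ≤ R + 1 := by rw [h2]; linarith))
  rwa [div_one] at h1

/-- elementary inequalities for `EE p` -/
private lemma pack_EE {p : ℂ} (hv : 100 ≤ p.re) : 0 < EE p ∧ p.re ≤ EE p ^ 2 ∧
    p.re * Real.sqrt (EE p) ≤ EE p ^ 2 ∧ p.re ^ 2 * EE p ≤ EE p ^ 2 := by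
  have hpi := Real.pi_gt_three
  have h1 : p.re ≤ Real.exp p.re := by linarith [Real.add_one_le_exp p.re]
  have h2 : Real.exp (4 * p.re) = Real.exp p.re ^ 4 := by
    rw [← Real.exp_nat_mul]
    norm_num
  have hE1 : 1 ≤ Real.exp p.re := by linarith
  have h3 : p.re ^ 2 ≤ EE p := by
    rw [EE, h2]
    calc p.re ^ 2 ≤ Real.exp p.re ^ 2 := pow_le_pow_left₀ (by linarith) h1 2
      _ ≤ Real.exp p.re ^ 4 := pow_le_pow_right₀ hE1 (by norm_num)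
      _ = 1 * Real.exp p.re ^ 4 := (one_mul _).symm
      _ ≤ Real.pi * Real.exp p.re ^ 4 := mul_le_mul_of_nonneg_right (by linarith) (by positivity)
  generalize EE p = N at h3
  have hN : 10000 ≤ N := by nlinarith
  have hvN : p.re ≤ N := by nlinarith
  have hsq : Real.sqrt N ≤ N := by
    rw [Real.sqrt_le_left (by linarith)]
    nlinarith
  refine ⟨by linarith, by nlinarith, ?_, ?_⟩
  · calc p.re * Real.sqrt N ≤ N * N := mul_le_mul hvN hsq (Real.sqrt_nonneg _) (by linarith)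
      _ = N ^ 2 := by ring
  · calc p.re ^ 2 * N ≤ N * N := mul_le_mul_of_nonneg_right h3 (by linarith)
      _ = N ^ 2 := by ring

private lemma pack_fin {A B C X D N : ℝ} (hX : X ≤ A / D + B / N) (hD : 0 < D) (hDN : D ≤ N) (hB : 0 ≤ B)
    (hC : A + B ≤ C) : X ≤ C / D := by
  have h1 : B / N ≤ B / D := div_le_div_of_nonneg_left hB hD hDN
  calc X ≤ A / D + B / N := hX
    _ ≤ A / D + B / D := by linarith
    _ = (A + B) / D := by ring
    _ ≤ C / D := div_le_div_of_nonneg_right hC hD.le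

theorem pack (M : ℝ) : ∃ C V : ℝ, 0 < C ∧ 100 ≤ V ∧ ∀ p ∈ Reg V, ∃ a b : ℂ → ℂ,
    Differentiable ℂ a ∧ Differentiable ℂ b ∧
    (∀ ζ, hh p ζ = cexp (I * ζ) * a ζ + cexp (-(I * ζ)) * a (-ζ) + WW p * b ζ) ∧
    (∀ ζ, ‖ζ‖ ≤ M → ‖a ζ - 1‖ ≤ C / p.re ∧ ‖deriv a ζ‖ ≤ C / (p.re * Real.sqrt (EE p)) ∧
      ‖deriv (deriv a) ζ‖ ≤ C / (p.re ^ 2 * EE p) ∧
      ‖b ζ - 1‖ ≤ C / p.re ∧ ‖deriv b ζ‖ ≤ C / (p.re * Real.sqrt (EE p))) ∧
    (∀ ζ ζ', ‖ζ‖ ≤ M → ‖ζ'‖ ≤ M →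
      ‖b ζ - b ζ' - (ζ ^ 2 - ζ' ^ 2) / (8 * Real.pi * cexp (4 * p) * p)‖ ≤ C / (p.re ^ 2 * EE p)) := by
  obtain ⟨C1, V1, hV1, h1⟩ := vert_bd (|M| + 2)
  obtain ⟨C2, V2, hV2, h2⟩ := hor_bd (|M| + 2)
  obtain ⟨C3, V3, hV3, h3⟩ := ray_bd (|M| + 2)
  obtain ⟨Ca, Va, hVa, ha⟩ := aa2_bound M
  obtain ⟨Vd, hVd, hd⟩ := aa2_diff
  obtain ⟨Cb, Vb, hVb, hb⟩ := bb_bound M
  obtain ⟨Vr, hVr, hr⟩ := reg_all
  refine ⟨|Ca| + (|C1| + |C2| + |C3|) * Real.exp (|M| + 2) + |Cb| + 1, V1 + V2 + V3 + Va + Vd + Vb + Vr,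
    by positivity, by linarith, fun p hp => ?_⟩
  have hp1 : p ∈ Reg V1 := reg_sub (by linarith) hp
  have hp2 : p ∈ Reg V2 := reg_sub (by linarith) hp
  have hp3 : p ∈ Reg V3 := reg_sub (by linarith) hp
  have hpa : p ∈ Reg Va := reg_sub (by linarith) hp
  have hpd : p ∈ Reg Vd := reg_sub (by linarith) hp
  have hpb : p ∈ Reg Vb := reg_sub (by linarith) hp
  have hpr : p ∈ Reg Vr := reg_sub (by linarith) hp
  have hv100 : 100 ≤ p.re := hV1.trans hp1.1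
  have hv0 : 0 < p.re := by linarith
  obtain ⟨-, -, -, r4, -, -, r7, -⟩ := hr p hpr
  obtain ⟨s1, s2, s3, s4⟩ := pack_strip hVr hpr r4
  obtain ⟨hE0, hE1, hE2, hE3⟩ := pack_EE hv100
  obtain ⟨hNW, hbd, -, hb1, hb2⟩ := hb p hpb
  have hNN : NN p ≠ 0 := left_ne_zero_of_mul hNW
  have hWW : WW p ≠ 0 := right_ne_zero_of_mul hNW
  have hp0 : p ≠ 0 := by
    intro h
    rw [h, Complex.zero_re] at hv0
    exact lt_irrefl _ hv0
  have hNNn : 0 < ‖NN p‖ := norm_pos_iff.mpr hNN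
  -- the function a
  have hadiff : Differentiable ℂ (fun ζ : ℂ => 1 / 2 * RR (tp p) (ζ / p) (I / 4) * cexp (-(I * ζ)) / NN p) := by
    have h4 : Differentiable ℂ (fun ζ : ℂ => RR (tp p) (ζ / p) (I / 4)) :=
      (RR_diff_z (tp p) (I / 4) s1).comp (differentiable_id.div_const p)
    have h5 : Differentiable ℂ (fun ζ : ℂ => cexp (-(I * ζ))) := by fun_prop
    exact (((differentiable_const _).mul h4).mul h5).div_const _
  have haa : Differentiable ℂ (aa2 p) := hd p hpd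
  -- the difference
  have hdec : ∀ ζ : ℂ, 1 / 2 * RR (tp p) (ζ / p) (I / 4) * cexp (-(I * ζ)) / NN p - aa2 p ζ =
      1 / 2 * (SG (tp p) (ζ / p) (I / 4) (yy p * I) + SG (tp p) (ζ / p) (yy p * I) (p - rr p * dd p) +
        RR (tp p) (ζ / p) (p + rr p * dd p)) * cexp (-(I * ζ)) / NN p := by
    intro ζ
    rw [← aa2_eq p ζ (by linarith), ray_shift (tp p) (ζ / p) (I / 4) (yy p * I) s1 s2,
      ray_shift (tp p) (ζ / p) (yy p * I) (p - rr p * dd p) s2 s3,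
      ray_shift (tp p) (ζ / p) (p - rr p * dd p) (p + rr p * dd p) s3 s4]
    ring
  have hdecb : ∀ ζ : ℂ, ‖ζ‖ ≤ |M| + 2 →
      ‖1 / 2 * RR (tp p) (ζ / p) (I / 4) * cexp (-(I * ζ)) / NN p - aa2 p ζ‖ ≤
        (|C1| + |C2| + |C3|) * Real.exp (|M| + 2) / EE p ^ 2 := by
    intro ζ hζ
    rw [hdec ζ, norm_div, norm_mul, norm_mul, div_le_iff₀ hNNn]
    have hz : ‖ζ / p‖ ≤ (|M| + 2) / p.re := by
      rw [norm_div]
      exact div_le_div₀ (by positivity) hζ hv0 r7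
    have g1 := h1 p hp1 (ζ / p) hz
    have g2 := h2 p hp2 (ζ / p) hz
    have g3 := h3 p hp3 (ζ / p) hz
    have g4 : ‖cexp (-(I * ζ))‖ ≤ Real.exp (|M| + 2) := by
      refine (Complex.norm_exp_le_exp_norm _).trans (Real.exp_le_exp.mpr ?_)
      rw [norm_neg, norm_mul, Complex.norm_I, one_mul]
      exact hζ
    have g5 : ‖SG (tp p) (ζ / p) (I / 4) (yy p * I) + SG (tp p) (ζ / p) (yy p * I) (p - rr p * dd p) +
        RR (tp p) (ζ / p) (p + rr p * dd p)‖ ≤ (|C1| + |C2| + |C3|) / EE p ^ 2 * ‖NN p‖ := by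
      have q1 : C1 / EE p ^ 2 * ‖NN p‖ ≤ |C1| / EE p ^ 2 * ‖NN p‖ :=
        mul_le_mul_of_nonneg_right (div_le_div_of_nonneg_right (le_abs_self C1) (by positivity)) hNNn.le
      have q2 : C2 / EE p ^ 2 * ‖NN p‖ ≤ |C2| / EE p ^ 2 * ‖NN p‖ :=
        mul_le_mul_of_nonneg_right (div_le_div_of_nonneg_right (le_abs_self C2) (by positivity)) hNNn.le
      have q3 : C3 / EE p ^ 2 * ‖NN p‖ ≤ |C3| / EE p ^ 2 * ‖NN p‖ :=
        mul_le_mul_of_nonneg_right (div_le_div_of_nonneg_right (le_abs_self C3) (by positivity)) hNNn.le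
      refine (norm_add₃_le).trans ?_
      have e : (|C1| + |C2| + |C3|) / EE p ^ 2 * ‖NN p‖ =
          |C1| / EE p ^ 2 * ‖NN p‖ + |C2| / EE p ^ 2 * ‖NN p‖ + |C3| / EE p ^ 2 * ‖NN p‖ := by ring
      rw [e]
      linarith
    have g6 : ‖(1 / 2 : ℂ)‖ ≤ 1 := by
      rw [norm_div, norm_one, Complex.norm_ofNat]
      norm_num
    calc ‖(1 / 2 : ℂ)‖ * ‖SG (tp p) (ζ / p) (I / 4) (yy p * I) + SG (tp p) (ζ / p) (yy p * I) (p - rr p * dd p) +
        RR (tp p) (ζ / p) (p + rr p * dd p)‖ * ‖cexp (-(I * ζ))‖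
        ≤ 1 * ((|C1| + |C2| + |C3|) / EE p ^ 2 * ‖NN p‖) * Real.exp (|M| + 2) := by
          refine mul_le_mul ?_ g4 (norm_nonneg _) (by positivity)
          exact mul_le_mul g6 g5 (norm_nonneg _) zero_le_one
      _ = (|C1| + |C2| + |C3|) * Real.exp (|M| + 2) / EE p ^ 2 * ‖NN p‖ := by ring
  have hB0 : 0 ≤ (|C1| + |C2| + |C3|) * Real.exp (|M| + 2) := by positivity
  have hsplit : ∀ ζ : ℂ, hh p ζ = cexp (I * ζ) * (1 / 2 * RR (tp p) (ζ / p) (I / 4) * cexp (-(I * ζ)) / NN p) +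
      cexp (-(I * ζ)) * (1 / 2 * RR (tp p) (-ζ / p) (I / 4) * cexp (-(I * -ζ)) / NN p) + WW p * bb p ζ := by
    intro ζ
    have e1 : cexp (I * ζ) * cexp (-(I * ζ)) = 1 := by
      rw [← Complex.exp_add, add_neg_cancel, Complex.exp_zero]
    have e2 : cexp (-(I * -ζ)) = cexp (I * ζ) := by
      congr 1
      ring
    have e3 : -ζ / p = -(ζ / p) := neg_div _ _
    rw [hh, HH_split, bb, e2, e3]
    have e4 : WW p * (BB (tp p) (ζ / p) / (NN p * WW p)) = BB (tp p) (ζ / p) / NN p := by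
      field_simp
    rw [e4]
    have e5 : cexp (I * ζ) * (1 / 2 * RR (tp p) (ζ / p) (I / 4) * cexp (-(I * ζ)) / NN p) =
        (cexp (I * ζ) * cexp (-(I * ζ))) * (1 / 2 * RR (tp p) (ζ / p) (I / 4)) / NN p := by ring
    have e6 : cexp (-(I * ζ)) * (1 / 2 * RR (tp p) (-(ζ / p)) (I / 4) * cexp (I * ζ) / NN p) =
        (cexp (I * ζ) * cexp (-(I * ζ))) * (1 / 2 * RR (tp p) (-(ζ / p)) (I / 4)) / NN p := by ring
    rw [e5, e6, e1]
    ring
  generalize hAdef : (fun ζ : ℂ => 1 / 2 * RR (tp p) (ζ / p) (I / 4) * cexp (-(I * ζ)) / NN p) = A at hadiff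
  have hAap : ∀ ζ : ℂ, A ζ = 1 / 2 * RR (tp p) (ζ / p) (I / 4) * cexp (-(I * ζ)) / NN p := by
    intro ζ
    rw [← hAdef]
  generalize hBdef : (|C1| + |C2| + |C3|) * Real.exp (|M| + 2) = B at hB0 hdecb
  have hediff : Differentiable ℂ (fun ζ => A ζ - aa2 p ζ) := hadiff.sub haa
  have he0 : ∀ ζ : ℂ, ‖ζ‖ ≤ |M| + 2 → ‖A ζ - aa2 p ζ‖ ≤ B / EE p ^ 2 := by
    intro ζ hζ
    rw [hAap]
    exact hdecb ζ hζ
  have hd1 : deriv (fun ζ => A ζ - aa2 p ζ) = fun ζ => deriv A ζ - deriv (aa2 p) ζ := by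
    funext ζ
    exact deriv_sub hadiff.differentiableAt haa.differentiableAt
  have hA' : Differentiable ℂ (deriv A) := hadiff.deriv
  have haa' : Differentiable ℂ (deriv (aa2 p)) := haa.deriv
  have hd2 : deriv (fun ζ => deriv A ζ - deriv (aa2 p) ζ) = fun ζ => deriv (deriv A) ζ - deriv (deriv (aa2 p)) ζ := by
    funext ζ
    exact deriv_sub hA'.differentiableAt haa'.differentiableAt
  have he1 : ∀ ζ : ℂ, ‖ζ‖ ≤ |M| + 1 → ‖deriv A ζ - deriv (aa2 p) ζ‖ ≤ B / EE p ^ 2 := by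
    intro ζ hζ
    have h5 := pack_cauchy hediff (R := |M| + 1) (B := B / EE p ^ 2) (fun z hz => he0 z (by linarith)) ζ hζ
    rwa [hd1] at h5
  have he2 : ∀ ζ : ℂ, ‖ζ‖ ≤ |M| → ‖deriv (deriv A) ζ - deriv (deriv (aa2 p)) ζ‖ ≤ B / EE p ^ 2 := by
    intro ζ hζ
    have h5 := pack_cauchy (hA'.sub haa') (R := |M|) (B := B / EE p ^ 2) (fun z hz => he1 z hz) ζ hζ
    have h6 : deriv (deriv A - deriv (aa2 p)) = fun ζ => deriv (deriv A) ζ - deriv (deriv (aa2 p)) ζ := hd2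
    rwa [h6] at h5
  have hCa : Ca ≤ |Ca| := le_abs_self _
  have hCb : Cb ≤ |Cb| := le_abs_self _
  have hCa0 := abs_nonneg Ca
  have hCb0 := abs_nonneg Cb
  refine ⟨A, bb p, hadiff, hbd, fun ζ => ?_, fun ζ hζ => ?_, fun ζ ζ' hζ hζ' => ?_⟩
  · rw [hsplit ζ, hAap ζ, hAap (-ζ)]
  · have hζM : ‖ζ‖ ≤ |M| := hζ.trans (le_abs_self M)
    obtain ⟨a0, a1, a2⟩ := ha p hpa ζ hζ
    obtain ⟨b0, b1⟩ := hb1 ζ hζ
    have hsq : 0 < Real.sqrt (EE p) := Real.sqrt_pos.mpr hE0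
    refine ⟨?_, ?_, ?_, ?_, ?_⟩
    · refine pack_fin (A := Ca) (B := B) (N := EE p ^ 2) ?_ hv0 hE1 hB0 (by linarith)
      calc ‖A ζ - 1‖ = ‖(aa2 p ζ - 1) + (A ζ - aa2 p ζ)‖ := by
            congr 1
            ring
        _ ≤ ‖aa2 p ζ - 1‖ + ‖A ζ - aa2 p ζ‖ := norm_add_le _ _
        _ ≤ Ca / p.re + B / EE p ^ 2 := add_le_add a0 (he0 ζ (by linarith))
    · refine pack_fin (A := Ca) (B := B) (N := EE p ^ 2) ?_ (by positivity) hE2 hB0 (by linarith)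
      calc ‖deriv A ζ‖ = ‖deriv (aa2 p) ζ + (deriv A ζ - deriv (aa2 p) ζ)‖ := by
            congr 1
            ring
        _ ≤ ‖deriv (aa2 p) ζ‖ + ‖deriv A ζ - deriv (aa2 p) ζ‖ := norm_add_le _ _
        _ ≤ Ca / (p.re * Real.sqrt (EE p)) + B / EE p ^ 2 := add_le_add a1 (he1 ζ (by linarith))
    · refine pack_fin (A := Ca) (B := B) (N := EE p ^ 2) ?_ (by positivity) hE3 hB0 (by linarith)
      calc ‖deriv (deriv A) ζ‖ =
            ‖deriv (deriv (aa2 p)) ζ + (deriv (deriv A) ζ - deriv (deriv (aa2 p)) ζ)‖ := by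
            congr 1
            ring
        _ ≤ ‖deriv (deriv (aa2 p)) ζ‖ + ‖deriv (deriv A) ζ - deriv (deriv (aa2 p)) ζ‖ := norm_add_le _ _
        _ ≤ Ca / (p.re ^ 2 * EE p) + B / EE p ^ 2 := add_le_add a2 (he2 ζ hζM)
    · exact b0.trans (div_le_div_of_nonneg_right (by linarith) hv0.le)
    · exact b1.trans (div_le_div_of_nonneg_right (by linarith) (by positivity))
  · exact (hb2 ζ ζ' hζ hζ').trans (div_le_div_of_nonneg_right (by linarith) (by positivity))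

end Pool.Agent.Lib.MP_ec260d_ntC
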