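import Mathlib
import Pool.Agent.Lib.MP_ec260d_ntC.DefsW
import Pool.Agent.Lib.MP_ec260d_ntC.RegP
import Pool.Agent.Lib.MP_ec260d_ntC.Pack

/-!
# JOB AsyS: two consequences: uniform asymptotics, and separation of double zeros (about 250 lines)

`asy`: from `pack M`: `‖hh p ζ - 2 cos ζ - WW p‖ ≤ e^M (C/v) + e^M (C/v) + 20 C/v`.  (`2 cos ζ = e^{iζ} + e^{-iζ}`.)
`sepK`: `ζ` a double zero: with `X = e^{iζ} a(ζ)`, `Y = e^{-iζ} a(-ζ)`, `W = WW p`: `X + Y = -W b(ζ)` and (derivative) `i(X - Y) = -W b'(ζ) - (e^{iζ} a'(ζ) - e^{-iζ} a'(-ζ)) =: -D`.  Squares: `4 XY = (X+Y)² + (i(X - Y))²`, i.e. `4 a(ζ) a(-ζ) = W² b(ζ)² + D²`.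
`‖D‖ ≤ 20 C/(v sqrt N) + 2 e^M C/(v sqrt N)`, so `‖D²‖ ≤ C'/(v² N)`.  `g(ζ) = a(ζ) a(-ζ)`: `g'(0) = 0`, `g'' = a''(ζ) a(-ζ) - 2 a'(ζ) a'(-ζ) + a(ζ) a''(-ζ)`, `‖g''‖ ≤ C'/(v² N)` for `‖ζ‖ ≤ M`, so `‖g(ζ) - g(0)‖ ≤ C'/(v²N)` (twice the mean value inequality on the segment).
For two double zeros: `‖W² (b(ζ)² - b(ζ')²)‖ ≤ C''/(v² N)`.  `‖W‖ ≥ 1`, `‖b(ζ) + b(ζ')‖ ≥ 2 - 2C/v ≥ 1`, so `‖b(ζ) - b(ζ')‖ ≤ C''/(v²N)`, hence `‖ζ² - ζ'²‖ ≤ 8 ‖πe^{4p}‖ ‖p‖ (C'' + C)/(v²N) ≤ C'''/v` (`‖π e^{4p}‖ = N`, `‖p‖ ≤ 2v`).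
`hh_facts`: `hh` in terms of `HH`; `NN p ≠ 0` (exponential).
-/

namespace Pool.Agent.Lib.MP_ec260d_ntC

open Complex Set Filter Topology Metric MeasureTheory

theorem AsyS1_NN (p : ℂ) : NN p ≠ 0 := by
  unfold NN
  apply mul_ne_zero _ (Complex.exp_ne_zero _)
  apply div_ne_zero
  · exact pow_ne_zero _ (by exact_mod_cast Real.pi_ne_zero)
  · apply mul_ne_zero (by norm_num)
    have h : Real.sqrt 2 ≠ 0 := by positivity
    exact_mod_cast h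

theorem hh_zero_iff (p ζ : ℂ) : hh p ζ = 0 ↔ HH (tp p) (ζ / p) = 0 := by
  unfold hh
  rw [div_eq_zero_iff]
  exact or_iff_left (AsyS1_NN p)

theorem AsyS1_deriv (f : ℂ → ℂ) (p ζ : ℂ) : deriv (fun w => f (w / p)) ζ = deriv f (ζ / p) / p := by
  have h := deriv_comp_mul_left p⁻¹ f ζ
  rw [smul_eq_mul] at h
  have e : (fun w => f (w / p)) = fun w => f (p⁻¹ * w) := by
    funext w
    rw [div_eq_inv_mul]
  rw [e, h, div_eq_inv_mul, div_eq_inv_mul]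

theorem hh_deriv (p ζ : ℂ) : deriv (hh p) ζ = Hz (tp p) (ζ / p) / (p * NN p) := by
  have e : hh p = fun w => (fun v => HH (tp p) (v / p)) w / NN p := rfl
  rw [e, deriv_div_const, AsyS1_deriv, div_div]
  rfl

theorem hh_deriv2 (p ζ : ℂ) : deriv (deriv (hh p)) ζ = deriv (Hz (tp p)) (ζ / p) / (p ^ 2 * NN p) := by
  have e : deriv (hh p) = fun w => (fun v => Hz (tp p) (v / p)) w / (p * NN p) := by
    funext w
    exact hh_deriv p w
  rw [e, deriv_div_const, AsyS1_deriv, div_div]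
  ring_nf

theorem NN_ne (p : ℂ) : NN p ≠ 0 := AsyS1_NN p

theorem hh_diff (p : ℂ) : Differentiable ℂ (hh p) := by
  unfold hh
  exact ((HH_diff_z (tp p)).comp (differentiable_id.div_const p)).div_const (NN p)

/-- analytic dependence on `p` -/
theorem hh_diff_p (p ζ : ℂ) (hp : p ≠ 0) : DifferentiableAt ℂ (fun q => hh q ζ) p := by
  unfold hh
  apply DifferentiableAt.div
  · have h1 : DifferentiableAt ℂ tp p := by
      unfold tp
      apply DifferentiableAt.div _ differentiableAt_fun_id hp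
      exact (((differentiableAt_fun_id.const_mul 4).cexp).const_mul _)
    have h2 : DifferentiableAt ℂ (fun q : ℂ => ζ / q) p :=
      (differentiableAt_const _).div differentiableAt_fun_id hp
    have h3 : DifferentiableAt ℂ (fun q : ℂ => (tp q, ζ / q)) p := h1.prodMk h2
    have h4 : DifferentiableAt ℂ (fun x : ℂ × ℂ => HH x.1 x.2) (tp p, ζ / p) := (HH_strict _ _).differentiableAt
    exact DifferentiableAt.comp (g := fun x : ℂ × ℂ => HH x.1 x.2) (f := fun q : ℂ => (tp q, ζ / q)) p h4 h3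
  · unfold NN SS
    apply DifferentiableAt.const_mul
    apply DifferentiableAt.cexp
    apply DifferentiableAt.add (differentiableAt_fun_id.const_mul 7)
    apply DifferentiableAt.mul
    · exact (((differentiableAt_fun_id.const_mul 4).cexp).const_mul _)
    · exact (differentiableAt_fun_id.const_mul 2).sub (differentiableAt_const _)
  · exact AsyS1_NN p

private theorem AsyS2_exp {K : ℝ} {w : ℂ} (hw : ‖w‖ ≤ K) :
    ‖cexp (I * w)‖ ≤ Real.exp K ∧ ‖cexp (-(I * w))‖ ≤ Real.exp K := by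
  have h1 : ‖I * w‖ ≤ K := by
    rw [norm_mul, Complex.norm_I, one_mul]
    exact hw
  refine ⟨(Complex.norm_exp_le_exp_norm _).trans (Real.exp_le_exp.2 h1),
    (Complex.norm_exp_le_exp_norm _).trans (Real.exp_le_exp.2 ?_)⟩
  rw [norm_neg]
  exact h1

theorem asy (M ε : ℝ) (hε : 0 < ε) : ∃ V : ℝ, 100 ≤ V ∧ ∀ p ∈ Reg V, ∀ ζ : ℂ, ‖ζ‖ ≤ M →
    ‖hh p ζ - 2 * Complex.cos ζ - WW p‖ ≤ ε := by
  obtain ⟨C, V, hC, hV, hpack⟩ := pack M
  refine ⟨max V ((2 * Real.exp M + 20) * C / ε), hV.trans (le_max_left _ _), ?_⟩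
  intro p hp ζ hζ
  have hpV : p ∈ Reg V := reg_sub (le_max_left _ _) hp
  have hv1 : V ≤ p.re := hpV.1
  have hv2 : (2 * Real.exp M + 20) * C / ε ≤ p.re := (le_max_right _ _).trans hp.1
  have hv0 : 0 < p.re := by linarith
  have hW : ‖WW p‖ ≤ 20 := hp.2.2.2
  obtain ⟨a, b, -, -, hh1, hh2, -⟩ := hpack p hpV
  obtain ⟨ha, -, -, hb, -⟩ := hh2 ζ hζ
  have ha' := (hh2 (-ζ) (by rw [norm_neg]; exact hζ)).1
  obtain ⟨e1, e2⟩ := AsyS2_exp hζ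
  have hcos : 2 * Complex.cos ζ = cexp (I * ζ) + cexp (-(I * ζ)) := by
    unfold Complex.cos
    rw [show ζ * I = I * ζ by ring, show -ζ * I = -(I * ζ) by ring]
    ring
  have hid : hh p ζ - 2 * Complex.cos ζ - WW p =
      cexp (I * ζ) * (a ζ - 1) + cexp (-(I * ζ)) * (a (-ζ) - 1) + WW p * (b ζ - 1) := by
    rw [hh1 ζ, hcos]
    ring
  have hCv : 0 ≤ C / p.re := by positivity
  have b1 : ‖cexp (I * ζ) * (a ζ - 1)‖ ≤ Real.exp M * (C / p.re) := by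
    rw [norm_mul]
    exact mul_le_mul e1 ha (norm_nonneg _) (Real.exp_nonneg _)
  have b2 : ‖cexp (-(I * ζ)) * (a (-ζ) - 1)‖ ≤ Real.exp M * (C / p.re) := by
    rw [norm_mul]
    exact mul_le_mul e2 ha' (norm_nonneg _) (Real.exp_nonneg _)
  have b3 : ‖WW p * (b ζ - 1)‖ ≤ 20 * (C / p.re) := by
    rw [norm_mul]
    exact mul_le_mul hW hb (norm_nonneg _) (by norm_num)
  have b4 : ‖hh p ζ - 2 * Complex.cos ζ - WW p‖ ≤
      Real.exp M * (C / p.re) + Real.exp M * (C / p.re) + 20 * (C / p.re) := by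
    rw [hid]
    exact (norm_add_le _ _).trans (add_le_add ((norm_add_le _ _).trans (add_le_add b1 b2)) b3)
  refine b4.trans ?_
  have b5 : Real.exp M * (C / p.re) + Real.exp M * (C / p.re) + 20 * (C / p.re) =
      (2 * Real.exp M + 20) * C / p.re := by ring
  rw [b5, div_le_iff₀ hv0]
  rw [div_le_iff₀ hε] at hv2
  linarith

private theorem AsyS2_neg {a : ℂ → ℂ} (ha : Differentiable ℂ a) (w : ℂ) :
    HasDerivAt (fun w => a (-w)) (-(deriv a (-w))) w := by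
  have h := (ha (-w)).hasDerivAt.comp w (hasDerivAt_neg w)
  rw [mul_neg_one] at h
  exact h

private theorem AsyS2_g {a : ℂ → ℂ} (ha : Differentiable ℂ a) {K A0 A1 A2 : ℝ} (hK : 0 ≤ K)
    (h0 : ∀ w : ℂ, ‖w‖ ≤ K → ‖a w‖ ≤ A0) (h1 : ∀ w : ℂ, ‖w‖ ≤ K → ‖deriv a w‖ ≤ A1)
    (h2 : ∀ w : ℂ, ‖w‖ ≤ K → ‖deriv (deriv a) w‖ ≤ A2) {ζ ζ' : ℂ} (hζ : ‖ζ‖ ≤ K)
    (hζ' : ‖ζ'‖ ≤ K) :
    ‖a ζ * a (-ζ) - a ζ' * a (-ζ')‖ ≤ (2 * A0 * A2 + 2 * A1 ^ 2) * K * (2 * K) := by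
  have ha' : Differentiable ℂ (deriv a) :=
    differentiableOn_univ.1 (ha.differentiableOn.deriv isOpen_univ)
  have hA0 : 0 ≤ A0 := (norm_nonneg _).trans (h0 0 (by rw [norm_zero]; exact hK))
  have hA1 : 0 ≤ A1 := (norm_nonneg _).trans (h1 0 (by rw [norm_zero]; exact hK))
  have hA2 : 0 ≤ A2 := (norm_nonneg _).trans (h2 0 (by rw [norm_zero]; exact hK))
  obtain ⟨g1, hg1⟩ : ∃ g1 : ℂ → ℂ, g1 = fun w => deriv a w * a (-w) + a w * (-(deriv a (-w))) :=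
    ⟨_, rfl⟩
  have hg : ∀ w, HasDerivAt (fun w => a w * a (-w)) (g1 w) w := by
    intro w
    rw [hg1]
    exact (ha w).hasDerivAt.mul (AsyS2_neg ha w)
  have hg' : ∀ w, HasDerivAt g1 ((deriv (deriv a) w * a (-w) + deriv a w * (-(deriv a (-w)))) +
      (deriv a w * (-(deriv a (-w))) + a w * (-(-(deriv (deriv a) (-w)))))) w := by
    intro w
    rw [hg1]
    exact ((ha' w).hasDerivAt.mul (AsyS2_neg ha w)).add
      ((ha w).hasDerivAt.mul (AsyS2_neg ha' w).neg)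
  have hmem : ∀ w : ℂ, w ∈ closedBall (0 : ℂ) K ↔ ‖w‖ ≤ K := fun w => mem_closedBall_zero_iff
  have hbd2 : ∀ w ∈ closedBall (0 : ℂ) K,
      ‖(deriv (deriv a) w * a (-w) + deriv a w * (-(deriv a (-w)))) +
      (deriv a w * (-(deriv a (-w))) + a w * (-(-(deriv (deriv a) (-w)))))‖ ≤
      2 * A0 * A2 + 2 * A1 ^ 2 := by
    intro w hw
    rw [hmem] at hw
    have hw' : ‖-w‖ ≤ K := by rw [norm_neg]; exact hw
    have c1 : ‖deriv (deriv a) w * a (-w)‖ ≤ A2 * A0 := by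
      rw [norm_mul]
      exact mul_le_mul (h2 w hw) (h0 _ hw') (norm_nonneg _) hA2
    have c2 : ‖deriv a w * (-(deriv a (-w)))‖ ≤ A1 * A1 := by
      rw [norm_mul, norm_neg]
      exact mul_le_mul (h1 w hw) (h1 _ hw') (norm_nonneg _) hA1
    have c3 : ‖a w * (-(-(deriv (deriv a) (-w))))‖ ≤ A0 * A2 := by
      rw [norm_mul, norm_neg, norm_neg]
      exact mul_le_mul (h0 w hw) (h2 _ hw') (norm_nonneg _) hA0
    have c4 := (norm_add_le (deriv (deriv a) w * a (-w) + deriv a w * (-(deriv a (-w))))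
      (deriv a w * (-(deriv a (-w))) + a w * (-(-(deriv (deriv a) (-w)))))).trans
      (add_le_add (norm_add_le _ _) (norm_add_le _ _))
    nlinarith
  have hbd1 : ∀ w ∈ closedBall (0 : ℂ) K, ‖g1 w‖ ≤ (2 * A0 * A2 + 2 * A1 ^ 2) * K := by
    intro w hw
    have h3 := Convex.norm_image_sub_le_of_norm_hasDerivWithin_le (f := g1) (s := closedBall (0 : ℂ) K)
      (x := 0) (y := w) (fun y _ => (hg' y).hasDerivWithinAt) hbd2 (convex_closedBall 0 K)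
      (mem_closedBall_self hK) hw
    have h4 : g1 0 = 0 := by
      rw [hg1]
      dsimp only
      rw [neg_zero]
      ring
    rw [h4, sub_zero, sub_zero] at h3
    refine h3.trans (mul_le_mul_of_nonneg_left ((hmem w).1 hw) ?_)
    positivity
  have h5 := Convex.norm_image_sub_le_of_norm_hasDerivWithin_le (f := fun w => a w * a (-w))
    (s := closedBall (0 : ℂ) K) (x := ζ') (y := ζ) (fun y _ => (hg y).hasDerivWithinAt) hbd1
    (convex_closedBall 0 K) ((hmem ζ').2 hζ') ((hmem ζ).2 hζ)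
  refine h5.trans (mul_le_mul_of_nonneg_left ?_ (by positivity))
  have h6 := norm_sub_le ζ ζ'
  linarith

private theorem AsyS2_key {a b : ℂ → ℂ} (ha : Differentiable ℂ a) (hb : Differentiable ℂ b)
    {h : ℂ → ℂ} {W : ℂ}
    (hh : ∀ ζ, h ζ = cexp (I * ζ) * a ζ + cexp (-(I * ζ)) * a (-ζ) + W * b ζ) {ζ : ℂ}
    (h0 : h ζ = 0) (h1 : deriv h ζ = 0) :
    4 * (a ζ * a (-ζ)) = W ^ 2 * b ζ ^ 2 +
      (W * deriv b ζ + cexp (I * ζ) * deriv a ζ - cexp (-(I * ζ)) * deriv a (-ζ)) ^ 2 := by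
  have hf : h = fun ζ => cexp (I * ζ) * a ζ + cexp (-(I * ζ)) * a (-ζ) + W * b ζ := funext hh
  have e1 : HasDerivAt (fun ζ : ℂ => cexp (I * ζ)) (cexp (I * ζ) * I) ζ := by
    have h2 : HasDerivAt (fun ζ : ℂ => I * ζ) I ζ := by
      have h3 := (hasDerivAt_id ζ).const_mul I
      rw [mul_one] at h3
      exact h3
    exact h2.cexp
  have e2 : HasDerivAt (fun ζ : ℂ => cexp (-(I * ζ))) (cexp (-(I * ζ)) * (-I)) ζ := by
    have h2 : HasDerivAt (fun ζ : ℂ => -(I * ζ)) (-I) ζ := by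
      have h3 := ((hasDerivAt_id ζ).const_mul I).neg
      rw [mul_one] at h3
      exact h3
    exact h2.cexp
  have e3 := ((e1.mul (ha ζ).hasDerivAt).add (e2.mul (AsyS2_neg ha ζ))).add
    ((hb ζ).hasDerivAt.const_mul W)
  have e4 : deriv h ζ = (cexp (I * ζ) * I * a ζ + cexp (I * ζ) * deriv a ζ +
      (cexp (-(I * ζ)) * (-I) * a (-ζ) + cexp (-(I * ζ)) * (-(deriv a (-ζ))))) + W * deriv b ζ := by
    rw [hf]
    exact e3.deriv
  rw [h1] at e4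
  rw [hh ζ] at h0
  have e5 : cexp (I * ζ) * cexp (-(I * ζ)) = 1 := by
    rw [← Complex.exp_add, add_neg_cancel, Complex.exp_zero]
  generalize cexp (I * ζ) = X at *
  generalize cexp (-(I * ζ)) = Y at *
  have e6 : W * b ζ = -(X * a ζ + Y * a (-ζ)) := by
    linear_combination h0
  have e7 : W * deriv b ζ + X * deriv a ζ - Y * deriv a (-ζ) = -(I * (X * a ζ - Y * a (-ζ))) := by
    linear_combination -e4
  rw [e7]
  have e8 : W ^ 2 * b ζ ^ 2 = (W * b ζ) ^ 2 := by ring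
  rw [e8, e6]
  have e9 : (-(I * (X * a ζ - Y * a (-ζ)))) ^ 2 = -(X * a ζ - Y * a (-ζ)) ^ 2 := by
    rw [neg_sq, mul_pow, Complex.I_sq]
    ring
  rw [e9]
  linear_combination (-4 * (a ζ * a (-ζ))) * e5

theorem sepK (M ε : ℝ) (hε : 0 < ε) : ∃ V : ℝ, 100 ≤ V ∧ ∀ p ∈ Reg V, 1 ≤ ‖WW p‖ →
    ∀ ζ ζ' : ℂ, ‖ζ‖ ≤ M → ‖ζ'‖ ≤ M → hh p ζ = 0 → deriv (hh p) ζ = 0 → hh p ζ' = 0 →
      deriv (hh p) ζ' = 0 → ‖ζ ^ 2 - ζ' ^ 2‖ ≤ ε := by
  obtain ⟨K, hK⟩ : ∃ K : ℝ, K = max M 0 := ⟨_, rfl⟩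
  have hK0 : 0 ≤ K := by rw [hK]; exact le_max_right _ _
  have hMK : M ≤ K := by rw [hK]; exact le_max_left _ _
  obtain ⟨C, V, hC, hV, hpack⟩ := pack K
  obtain ⟨D0, hD0⟩ : ∃ D0 : ℝ, D0 = (20 + 2 * Real.exp K) * C := ⟨_, rfl⟩
  obtain ⟨G2, hG2⟩ : ∃ G2 : ℝ, G2 = 2 * (1 + C) * C + 2 * C ^ 2 := ⟨_, rfl⟩
  obtain ⟨C1, hC1⟩ : ∃ C1 : ℝ, C1 = 8 * G2 * K ^ 2 + 2 * D0 ^ 2 := ⟨_, rfl⟩
  have hD00 : 0 ≤ D0 := by rw [hD0]; positivity
  have hG20 : 0 ≤ G2 := by rw [hG2]; positivity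
  have hC10 : 0 ≤ C1 := by rw [hC1]; positivity
  refine ⟨max V (max (2 * C) (16 * (C1 + C) / ε)), hV.trans (le_max_left _ _), ?_⟩
  intro p hp hW1 ζ ζ' hζM hζM' hz hdz hz' hdz'
  have hpV : p ∈ Reg V := reg_sub (le_max_left _ _) hp
  have hv1 : V ≤ p.re := hpV.1
  have hv2 : 2 * C ≤ p.re := ((le_max_left _ _).trans (le_max_right _ _)).trans hp.1
  have hv3 : 16 * (C1 + C) / ε ≤ p.re := ((le_max_right _ _).trans (le_max_right _ _)).trans hp.1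
  obtain ⟨v, hv⟩ : ∃ v : ℝ, v = p.re := ⟨_, rfl⟩
  obtain ⟨N, hN⟩ : ∃ N : ℝ, N = EE p := ⟨_, rfl⟩
  obtain ⟨sN, hsN⟩ : ∃ sN : ℝ, sN = Real.sqrt N := ⟨_, rfl⟩
  rw [← hv] at hv1 hv2 hv3
  have hv0 : 0 < v := by linarith
  have hv100 : 100 ≤ v := by linarith
  have hN0 : 0 < N := by
    rw [hN]
    unfold EE
    positivity
  have hsN0 : 0 < sN := by rw [hsN]; exact Real.sqrt_pos.2 hN0
  have hsN2 : sN ^ 2 = N := by rw [hsN]; exact Real.sq_sqrt hN0.le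
  have hW : ‖WW p‖ ≤ 20 := hp.2.2.2
  have hζ : ‖ζ‖ ≤ K := hζM.trans hMK
  have hζ' : ‖ζ'‖ ≤ K := hζM'.trans hMK
  obtain ⟨a, b, hda, hdb, hh1, hh2, hh3⟩ := hpack p hpV
  rw [← hv, ← hN, ← hsN] at hh2
  rw [← hv, ← hN] at hh3
  have k1 := AsyS2_key hda hdb hh1 hz hdz
  have k2 := AsyS2_key hda hdb hh1 hz' hdz'
  have hCv : C / v ≤ 1 / 2 := by
    rw [div_le_iff₀ hv0]
    linarith
  -- the function `a(ζ) a(-ζ)`
  have hg := AsyS2_g (a := a) hda (K := K) (A0 := 1 + C) (A1 := C / (v * sN)) (A2 := C / (v ^ 2 * N)) hK0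
    (fun w hw => by
      have c1 := (hh2 w hw).1
      have c2 : ‖a w‖ ≤ ‖a w - 1‖ + ‖(1 : ℂ)‖ := by
        have c3 := norm_add_le (a w - 1) 1
        rw [sub_add_cancel] at c3
        exact c3
      rw [norm_one] at c2
      have c4 : C / v ≤ C := by
        rw [div_le_iff₀ hv0]
        nlinarith
      linarith)
    (fun w hw => (hh2 w hw).2.1) (fun w hw => (hh2 w hw).2.2.1) hζ hζ'
  have hg2 : (2 * (1 + C) * (C / (v ^ 2 * N)) + 2 * (C / (v * sN)) ^ 2) * K * (2 * K) =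
      2 * G2 * K ^ 2 / (v ^ 2 * N) := by
    rw [hG2, div_pow, mul_pow, hsN2]
    field_simp
  rw [hg2] at hg
  -- the derivative terms
  have hD : ∀ w : ℂ, ‖w‖ ≤ K →
      ‖(WW p * deriv b w + cexp (I * w) * deriv a w - cexp (-(I * w)) * deriv a (-w)) ^ 2‖ ≤
        D0 ^ 2 / (v ^ 2 * N) := by
    intro w hw
    have hw' : ‖-w‖ ≤ K := by rw [norm_neg]; exact hw
    obtain ⟨e1, e2⟩ := AsyS2_exp hw
    have c1 : ‖WW p * deriv b w‖ ≤ 20 * (C / (v * sN)) := by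
      rw [norm_mul]
      exact mul_le_mul hW (hh2 w hw).2.2.2.2 (norm_nonneg _) (by norm_num)
    have c2 : ‖cexp (I * w) * deriv a w‖ ≤ Real.exp K * (C / (v * sN)) := by
      rw [norm_mul]
      exact mul_le_mul e1 (hh2 w hw).2.1 (norm_nonneg _) (Real.exp_nonneg _)
    have c3 : ‖cexp (-(I * w)) * deriv a (-w)‖ ≤ Real.exp K * (C / (v * sN)) := by
      rw [norm_mul]
      exact mul_le_mul e2 (hh2 (-w) hw').2.1 (norm_nonneg _) (Real.exp_nonneg _)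
    have c4 : ‖WW p * deriv b w + cexp (I * w) * deriv a w - cexp (-(I * w)) * deriv a (-w)‖ ≤
        D0 / (v * sN) := by
      refine (norm_sub_le _ _).trans ?_
      have c5 := norm_add_le (WW p * deriv b w) (cexp (I * w) * deriv a w)
      have c6 : D0 / (v * sN) = 20 * (C / (v * sN)) + Real.exp K * (C / (v * sN)) +
          Real.exp K * (C / (v * sN)) := by
        rw [hD0]
        ring
      linarith
    rw [norm_pow]
    have c7 := pow_le_pow_left₀ (norm_nonneg _) c4 2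
    have c8 : (D0 / (v * sN)) ^ 2 = D0 ^ 2 / (v ^ 2 * N) := by
      rw [div_pow, mul_pow, hsN2]
    rw [c8] at c7
    exact c7
  have hDz := hD ζ hζ
  have hDz' := hD ζ' hζ'
  -- difference of the squares of `b`
  have hb2 : ‖WW p ^ 2 * (b ζ ^ 2 - b ζ' ^ 2)‖ ≤ C1 / (v ^ 2 * N) := by
    have c1 : WW p ^ 2 * (b ζ ^ 2 - b ζ' ^ 2) = 4 * (a ζ * a (-ζ) - a ζ' * a (-ζ')) -
        (WW p * deriv b ζ + cexp (I * ζ) * deriv a ζ - cexp (-(I * ζ)) * deriv a (-ζ)) ^ 2 +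
        (WW p * deriv b ζ' + cexp (I * ζ') * deriv a ζ' - cexp (-(I * ζ')) * deriv a (-ζ')) ^ 2 := by
      linear_combination k2 - k1
    rw [c1]
    have c2 := norm_add_le (4 * (a ζ * a (-ζ) - a ζ' * a (-ζ')) -
        (WW p * deriv b ζ + cexp (I * ζ) * deriv a ζ - cexp (-(I * ζ)) * deriv a (-ζ)) ^ 2)
        ((WW p * deriv b ζ' + cexp (I * ζ') * deriv a ζ' - cexp (-(I * ζ')) * deriv a (-ζ')) ^ 2)
    have c3 := norm_sub_le (4 * (a ζ * a (-ζ) - a ζ' * a (-ζ')))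
        ((WW p * deriv b ζ + cexp (I * ζ) * deriv a ζ - cexp (-(I * ζ)) * deriv a (-ζ)) ^ 2)
    have c4 : ‖4 * (a ζ * a (-ζ) - a ζ' * a (-ζ'))‖ = 4 * ‖a ζ * a (-ζ) - a ζ' * a (-ζ')‖ := by
      rw [norm_mul]
      norm_num
    have c5 : C1 / (v ^ 2 * N) = 4 * (2 * G2 * K ^ 2 / (v ^ 2 * N)) + D0 ^ 2 / (v ^ 2 * N) +
        D0 ^ 2 / (v ^ 2 * N) := by
      rw [hC1]
      ring
    linarith
  have hb3 : ‖b ζ ^ 2 - b ζ' ^ 2‖ ≤ C1 / (v ^ 2 * N) := by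
    refine le_trans ?_ hb2
    rw [norm_mul, norm_pow]
    have c1 : 1 ≤ ‖WW p‖ ^ 2 := by nlinarith
    have c2 := norm_nonneg (b ζ ^ 2 - b ζ' ^ 2)
    nlinarith
  have hb4 : 1 ≤ ‖b ζ + b ζ'‖ := by
    have c1 := (hh2 ζ hζ).2.2.2.1
    have c2 := (hh2 ζ' hζ').2.2.2.1
    have c3 : (2 : ℂ) = (b ζ + b ζ') - ((b ζ - 1) + (b ζ' - 1)) := by ring
    have c4 : ‖(2 : ℂ)‖ ≤ ‖b ζ + b ζ'‖ + (‖b ζ - 1‖ + ‖b ζ' - 1‖) := by
      rw [c3]
      exact (norm_sub_le _ _).trans (add_le_add le_rfl (norm_add_le _ _))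
    have c5 : ‖(2 : ℂ)‖ = 2 := by norm_num
    rw [c5] at c4
    linarith
  have hb5 : ‖b ζ - b ζ'‖ ≤ C1 / (v ^ 2 * N) := by
    refine le_trans ?_ hb3
    have c1 : b ζ ^ 2 - b ζ' ^ 2 = (b ζ - b ζ') * (b ζ + b ζ') := by ring
    rw [c1, norm_mul]
    have c2 := norm_nonneg (b ζ - b ζ')
    nlinarith
  have hq := hh3 ζ ζ' hζ hζ'
  obtain ⟨E, hE⟩ : ∃ E : ℂ, E = 8 * Real.pi * cexp (4 * p) * p := ⟨_, rfl⟩
  rw [← hE] at hq
  have hEn : ‖E‖ = 8 * N * ‖p‖ := by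
    rw [hE, hN]
    unfold EE
    rw [norm_mul, norm_mul, norm_mul, Complex.norm_exp, Complex.norm_real, Real.norm_eq_abs,
      abs_of_pos Real.pi_pos]
    have c1 : ‖(8 : ℂ)‖ = 8 := by norm_num
    have c2 : (4 * p).re = 4 * p.re := by simp
    rw [c1, c2]
    ring
  have hpn : ‖p‖ ≤ 2 * v := by
    have c1 := Complex.norm_le_abs_re_add_abs_im p
    have c2 : 0 ≤ p.im := hp.2.1
    have c3 : p.im < Real.pi / 8 := hp.2.2.1
    rw [← hv, abs_of_pos hv0, abs_of_nonneg c2] at c1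
    have c4 := Real.pi_lt_four
    linarith
  have hp0 : 0 < ‖p‖ := by
    have c1 := Complex.abs_re_le_norm p
    rw [← hv, abs_of_pos hv0] at c1
    linarith
  have hE0 : 0 < ‖E‖ := by
    rw [hEn]
    positivity
  have hEne : E ≠ 0 := norm_pos_iff.1 hE0
  have hfin : ‖(ζ ^ 2 - ζ' ^ 2) / E‖ ≤ (C1 + C) / (v ^ 2 * N) := by
    have c1 : (ζ ^ 2 - ζ' ^ 2) / E = (b ζ - b ζ') - (b ζ - b ζ' - (ζ ^ 2 - ζ' ^ 2) / E) := by ring
    rw [c1, add_div]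
    exact (norm_sub_le _ _).trans (add_le_add hb5 hq)
  rw [norm_div, div_le_iff₀ hE0, hEn] at hfin
  refine hfin.trans ?_
  have c1 : (C1 + C) / (v ^ 2 * N) * (8 * N * ‖p‖) ≤ (C1 + C) / (v ^ 2 * N) * (8 * N * (2 * v)) := by
    refine mul_le_mul_of_nonneg_left ?_ (by positivity)
    exact mul_le_mul_of_nonneg_left hpn (by positivity)
  refine c1.trans ?_
  have c2 : (C1 + C) / (v ^ 2 * N) * (8 * N * (2 * v)) = 16 * (C1 + C) / v := by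
    field_simp
    ring
  rw [c2, div_le_iff₀ hv0]
  rw [div_le_iff₀ hε] at hv3
  linarith

end Pool.Agent.Lib.MP_ec260d_ntC
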