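import Mathlib

/-!
# JOB UZ: a function whose derivative has positive real part (about 120 lines)

`uz_inj`: `ω (f x - f y) = (x - y) ∫_0^1 ω f'(y + s (x - y)) ds`, and the real part of the integral is at least `m` (or: the function `s ↦ Re (conj(x - y) ω f (y + s (x - y)))` has derivative `‖x - y‖² Re (ω f') ≥ m ‖x - y‖²`, so `m ‖x - y‖² ≤ ‖x - y‖ ‖f x - f y‖`).
`uz`: injectivity estimate `m ‖x - y‖ ≤ ‖f x - f y‖` on the closed ball by continuity (approximate `x, y` by `c + r (x - c)`, `r → 1-`).  On the sphere: `‖f z‖ ≥ m R - ‖f c‖ > m R/2`.  If `f` had no zero in the closed ball then `1/f` would be continuous on it, differentiable in the ball, so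
(`Complex.norm_le_of_forall_mem_frontier_norm_le`) `‖1/f c‖ ≤ 2/(m R)`, i.e. `‖f c‖ ≥ m R/2`: contradiction.  So there is a zero `z` in the closed ball, not on the sphere; `m ‖z - c‖ ≤ ‖f z - f c‖ = ‖f c‖`; uniqueness by injectivity.
-/

namespace Pool.Agent.Lib.MP_ec260d_ntC

open Complex Set Filter Topology Metric MeasureTheory

theorem uz_inj {f : ℂ → ℂ} {s : Set ℂ} (hs : Convex ℝ s) (ho : IsOpen s) (hf : DifferentiableOn ℂ f s)
    (ω : ℂ) (hω : ‖ω‖ = 1) (m : ℝ) (hm : ∀ z ∈ s, m ≤ (ω * deriv f z).re) (x y : ℂ) (hx : x ∈ s)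
    (hy : y ∈ s) : m * ‖x - y‖ ≤ ‖f x - f y‖ := by
  rcases eq_or_ne x y with rfl | hxy
  · simp
  have hd0 : 0 < ‖x - y‖ := norm_pos_iff.2 (sub_ne_zero.2 hxy)
  set d : ℂ := x - y with hd
  set φ : ℝ → ℝ := fun t => ((starRingEnd ℂ) d * ω * f (y + (t : ℂ) * d)).re with hφ
  have hmem : ∀ t ∈ Icc (0 : ℝ) 1, y + (t : ℂ) * d ∈ s := by
    intro t ht
    have h1 := hs hy hx (sub_nonneg.2 ht.2) ht.1 (by ring : (1 - t) + t = 1)
    have h2 : (1 - t) • y + t • x = y + (t : ℂ) * d := by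
      rw [hd, Complex.real_smul, Complex.real_smul]
      push_cast
      ring
    rw [← h2]
    exact h1
  have hder : ∀ t ∈ Icc (0 : ℝ) 1,
      HasDerivAt φ (‖d‖ ^ 2 * (ω * deriv f (y + (t : ℂ) * d)).re) t := by
    intro t ht
    have h1 : HasDerivAt f (deriv f (y + (t : ℂ) * d)) (y + (t : ℂ) * d) :=
      (hf.differentiableAt (ho.mem_nhds (hmem t ht))).hasDerivAt
    have h2 : HasDerivAt (fun z : ℂ => y + z * d) (1 * d) (t : ℂ) :=
      ((hasDerivAt_id (t : ℂ)).mul_const d).const_add y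
    have h3 := (h1.comp (t : ℂ) h2).const_mul ((starRingEnd ℂ) d * ω)
    have h4 := h3.real_of_complex
    have h5 : ((starRingEnd ℂ) d * ω * (deriv f (y + (t : ℂ) * d) * (1 * d))).re =
        ‖d‖ ^ 2 * (ω * deriv f (y + (t : ℂ) * d)).re := by
      have h6 : (starRingEnd ℂ) d * ω * (deriv f (y + (t : ℂ) * d) * (1 * d)) =
          ((‖d‖ ^ 2 : ℝ) : ℂ) * (ω * deriv f (y + (t : ℂ) * d)) := by
        rw [← Complex.normSq_eq_norm_sq, ← Complex.mul_conj d]
        ring
      rw [h6, Complex.re_ofReal_mul]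
    rw [h5] at h4
    exact h4
  have hmv := Convex.mul_sub_le_image_sub_of_le_deriv (convex_Icc (0 : ℝ) 1) (f := φ)
    (fun t ht => (hder t ht).continuousAt.continuousWithinAt)
    (fun t ht => (hder t (interior_subset ht)).differentiableAt.differentiableWithinAt)
    (C := ‖d‖ ^ 2 * m)
    (fun t ht => by
      rw [(hder t (interior_subset ht)).deriv]
      exact mul_le_mul_of_nonneg_left (hm _ (hmem t (interior_subset ht))) (by positivity))
    0 (left_mem_Icc.2 zero_le_one) 1 (right_mem_Icc.2 zero_le_one) zero_le_one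
  have h7 : φ 1 - φ 0 = ((starRingEnd ℂ) d * ω * (f x - f y)).re := by
    have h8 : y + ((1 : ℝ) : ℂ) * d = x := by
      rw [hd]
      push_cast
      ring
    have h9 : y + ((0 : ℝ) : ℂ) * d = y := by
      push_cast
      ring
    simp only [hφ]
    rw [h8, h9, ← Complex.sub_re]
    congr 1
    ring
  have h10 : ((starRingEnd ℂ) d * ω * (f x - f y)).re ≤ ‖d‖ * ‖f x - f y‖ := by
    refine (Complex.re_le_norm _).trans ?_
    rw [norm_mul, norm_mul, RCLike.norm_conj, hω, mul_one]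
  rw [h7] at hmv
  have h11 : ‖d‖ * (m * ‖d‖) ≤ ‖d‖ * ‖f x - f y‖ := by nlinarith
  exact le_of_mul_le_mul_left h11 hd0

theorem uz (c : ℂ) (R m : ℝ) (hR : 0 < R) (hm : 0 < m) (f : ℂ → ℂ) (hf : DifferentiableOn ℂ f (ball c R))
    (hfc : ContinuousOn f (closedBall c R)) (ω : ℂ) (hω : ‖ω‖ = 1)
    (h : ∀ z ∈ ball c R, m ≤ (ω * deriv f z).re) (h0 : ‖f c‖ < m * R / 2) :
    ∃ z ∈ ball c R, f z = 0 ∧ ‖z - c‖ ≤ ‖f c‖ / m ∧ ∀ z' ∈ closedBall c R, f z' = 0 → z' = z := by
  have hinj : ∀ x ∈ closedBall c R, ∀ y ∈ closedBall c R, m * ‖x - y‖ ≤ ‖f x - f y‖ := by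
    intro x hx y hy
    have hpath : ∀ z ∈ closedBall c R, ∀ r ∈ Icc (0 : ℝ) 1, c + (r : ℂ) * (z - c) ∈ closedBall c R := by
      intro z hz r hr
      rw [mem_closedBall, dist_eq_norm] at hz ⊢
      rw [add_sub_cancel_left, norm_mul, Complex.norm_real, Real.norm_eq_abs, abs_of_nonneg hr.1]
      nlinarith [norm_nonneg (z - c), hr.1, hr.2]
    have hpath' : ∀ z ∈ closedBall c R, ∀ r ∈ Ico (0 : ℝ) 1, c + (r : ℂ) * (z - c) ∈ ball c R := by
      intro z hz r hr
      rw [mem_closedBall, dist_eq_norm] at hz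
      rw [mem_ball, dist_eq_norm]
      rw [add_sub_cancel_left, norm_mul, Complex.norm_real, Real.norm_eq_abs, abs_of_nonneg hr.1]
      nlinarith [norm_nonneg (z - c), hr.1, hr.2]
    have hc1 : ∀ z ∈ closedBall c R, ContinuousOn (fun r : ℝ => f (c + (r : ℂ) * (z - c))) (Icc 0 1) := by
      intro z hz
      exact hfc.comp (by fun_prop) (hpath z hz)
    have hF : ContinuousOn (fun r : ℝ => ‖f (c + (r : ℂ) * (x - c)) - f (c + (r : ℂ) * (y - c))‖ -
        m * ‖(c + (r : ℂ) * (x - c)) - (c + (r : ℂ) * (y - c))‖) (Icc 0 1) := by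
      refine (((hc1 x hx).sub (hc1 y hy)).norm).sub ?_
      fun_prop
    have hne : (𝓝[Ico (0 : ℝ) 1] (1 : ℝ)).NeBot := by
      rw [← mem_closure_iff_nhdsWithin_neBot, closure_Ico zero_ne_one]
      exact right_mem_Icc.2 zero_le_one
    have ht := (hF 1 (right_mem_Icc.2 zero_le_one)).mono Ico_subset_Icc_self
    have h1 := ge_of_tendsto (b := (0 : ℝ)) ht (eventually_nhdsWithin_of_forall fun r hr => by
      have h2 := uz_inj (convex_ball c R) isOpen_ball hf ω hω m h _ _ (hpath' x hx r hr)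
        (hpath' y hy r hr)
      linarith)
    simp only [Complex.ofReal_one, one_mul, add_sub_cancel] at h1
    linarith
  have hcm : c ∈ closedBall c R := mem_closedBall_self hR.le
  have hsph : ∀ z, ‖z - c‖ = R → m * R / 2 < ‖f z‖ := by
    intro z hz
    have h1 := hinj z (by rw [mem_closedBall, dist_eq_norm, hz]) c hcm
    have h2 : ‖f z - f c‖ ≤ ‖f z‖ + ‖f c‖ := norm_sub_le _ _
    rw [hz] at h1
    linarith
  have hmR : 0 < m * R / 2 := by positivity
  have hex : ∃ z ∈ closedBall c R, f z = 0 := by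
    by_contra hno
    push Not at hno
    have hcl : closure (ball c R) = closedBall c R := closure_ball c hR.ne'
    have hdc : DiffContOnCl ℂ f (ball c R) := ⟨hf, by rw [hcl]; exact hfc⟩
    have hdi : DiffContOnCl ℂ f⁻¹ (ball c R) := hdc.inv (fun x hx => hno x (by rwa [hcl] at hx))
    have h1 := Complex.norm_le_of_forall_mem_frontier_norm_le isBounded_ball hdi
      (C := (m * R / 2)⁻¹) (fun z hz => by
        rw [frontier_ball c hR.ne', mem_sphere, dist_eq_norm] at hz
        rw [Pi.inv_apply, norm_inv]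
        exact inv_anti₀ hmR (hsph z hz).le) (z := c) (by rw [hcl]; exact hcm)
    rw [Pi.inv_apply, norm_inv] at h1
    have h2 : 0 < ‖f c‖ := norm_pos_iff.2 (hno c hcm)
    have h3 := (inv_le_inv₀ h2 hmR).1 h1
    linarith
  obtain ⟨z, hz, hz0⟩ := hex
  have hzR : ‖z - c‖ < R := by
    rw [mem_closedBall, dist_eq_norm] at hz
    refine lt_of_le_of_ne hz fun he => ?_
    have h1 := hsph z he
    rw [hz0, norm_zero] at h1
    linarith
  refine ⟨z, by rwa [mem_ball, dist_eq_norm], hz0, ?_, fun z' hz' hz'0 => ?_⟩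
  · have h1 := hinj z hz c hcm
    rw [hz0, zero_sub, norm_neg] at h1
    rw [le_div_iff₀ hm]
    linarith
  · have h1 := hinj z' hz' z hz
    rw [hz'0, hz0, sub_zero, norm_zero] at h1
    have h2 : ‖z' - z‖ ≤ 0 := by
      by_contra h3
      push Not at h3
      have := mul_pos hm h3
      linarith
    exact sub_eq_zero.1 (norm_le_zero_iff.1 h2)

end Pool.Agent.Lib.MP_ec260d_ntC
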