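import Mathlib
import Pool.Agent.Lib.MP_ec260d_ntC.DefsW
import Pool.Agent.Lib.MP_ec260d_ntC.UZ

/-!
# JOB Cell: zeros of functions near 2 cos ζ + w (about 250 lines)

`nr F w M` means: `F` is entire and `‖F ζ - 2 cos ζ - w‖ ≤ 1/100` for `‖ζ‖ ≤ M`.
`nr_deriv`: Cauchy's estimate with radius 1 for `F - 2 cos - w` and its derivative (`deriv cos = - sin`).
Facts about `cos (x + iy) = cos x cosh y - i sin x sinh y`: `‖cos‖² = cos² x + sinh² y`, `‖sin‖² = sin² x + sinh² y`; `sinh 3 ≥ 10`.  `sin_lower`: for `|d.re| ≤ π/2`: `‖sin d‖² = sin² x + sinh² y ≥ (4/π²) x² + y² ≥ (4/π²)‖d‖²` (Jordan's inequality `Real.mul_le_sin`; `sinh² y ≥ y²`).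
`fr_box`: a point of the frontier of `box a b` has `ζ.re = π a` or `ζ.re = π b` or `|ζ.im| = 3`, and `|ζ.im| ≤ 3`, `π a ≤ ζ.re ≤ π b` (`box a b` is open, its closure is contained in the closed rectangle).
`nr_frontier` (`‖w‖ ≤ 3/2`): if `ζ.re = π n` (`n` an integer): `‖2 cos ζ‖ = 2 cosh y ≥ 2`, so `‖F ζ‖ ≥ 2 - 3/2 - 1/100 > 0`; if `|ζ.im| = 3`: `‖2 cos ζ‖ ≥ 2 sinh 3 ≥ 20`.
`nr_simple`: if `F ζ = 0`, `‖w‖ ≤ 3/2`: `‖cos ζ‖ ≤ 3/4 + 1/200 ≤ 0.76`, so `‖sin ζ‖² = ‖1 - cos² ζ‖ ≥ 0.42` and `‖F' ζ‖ ≥ 2 * 0.64 - 1/100 > 0`.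
`nr_one` (`‖w‖ ≤ 1/100`): `c = π (j + 1/2)`; on `ball c 1`: `sin ζ = (-1)^j cos (ζ - c)`, `Re cos (x + iy) = cos x cosh y ≥ cos 1 ≥ 0.54`, so with `ω = -(-1)^j`: `Re (ω F') ≥ 1.08 - 0.01 ≥ 1`, `‖F c‖ ≤ 1/50 < 1/2`: `uz` (`R = 1`, `m = 1`) gives a unique zero in `closedBall c 1`, at distance `≤ 1/50` from `c`.
Any zero in the closed rectangle has `‖cos ζ‖ ≤ 1/100`, `cos ζ = -(-1)^j sin (ζ - c)`, `|Re (ζ - c)| ≤ π/2`, so `‖ζ - c‖ ≤ (π/2)/100 < 1` by `sin_lower`: it is this zero.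
`sw_frontier`: `ω = (-1)^m`, `‖σ‖ ≤ 3/2`, `F` within `1/100` of `2 cos ζ + 2 ω e^{-σ}`: if `ζ.re = π n`, `n ≡ m mod 2`: `cos ζ = (-1)^m cosh y = ω cosh y`, so `‖2 cos ζ + 2ωe^{-σ}‖ = 2 ‖cosh y + e^{-σ}‖ ≥ 2 (cosh y + Re e^{-σ}) ≥ 2` (`|Im σ| ≤ 3/2 < π/2`); if `|ζ.im| = 3`: `≥ 20 - 2e^{3/2} ≥ 10`.
The frontiers of `box (-m) m` and `box m (m+2)` have vertical sides at `± π m`, `π (m+2)`.
-/

namespace Pool.Agent.Lib.MP_ec260d_ntC

open Complex Set Filter Topology Metric MeasureTheory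

/-- `F` is close to `2 cos ζ + w` -/
def nr (F : ℂ → ℂ) (w : ℂ) (M : ℝ) : Prop :=
  Differentiable ℂ F ∧ ∀ ζ : ℂ, ‖ζ‖ ≤ M → ‖F ζ - 2 * Complex.cos ζ - w‖ ≤ 1 / 100

private theorem CellA_deriv {f : ℂ → ℂ} (hf : Differentiable ℂ f) : Differentiable ℂ (deriv f) :=
  fun z => ((hf.analyticAt z).deriv).differentiableAt

theorem nr_deriv {F : ℂ → ℂ} {w : ℂ} {M : ℝ} (h : nr F w M) (ζ : ℂ) (hζ : ‖ζ‖ ≤ M - 2) :
    ‖deriv F ζ + 2 * Complex.sin ζ‖ ≤ 1 / 100 ∧ ‖deriv (deriv F) ζ + 2 * Complex.cos ζ‖ ≤ 1 / 100 := by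
  obtain ⟨hF, hb⟩ := h
  set g : ℂ → ℂ := fun z => F z - 2 * Complex.cos z - w with hg
  have hgd : Differentiable ℂ g := (hF.sub (Complex.differentiable_cos.const_mul 2)).sub_const w
  have hg1 : ∀ z, deriv g z = deriv F z + 2 * Complex.sin z := by
    intro z
    have h1 : HasDerivAt g (deriv F z - 2 * (-Complex.sin z)) z :=
      (((hF z).hasDerivAt).sub ((Complex.hasDerivAt_cos z).const_mul 2)).sub_const w
    rw [h1.deriv]
    ring
  have hg1f : deriv g = fun z => deriv F z + 2 * Complex.sin z := funext hg1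
  have hF1 : Differentiable ℂ (deriv F) := CellA_deriv hF
  have hgd1 : Differentiable ℂ (deriv g) := CellA_deriv hgd
  have hg2 : ∀ z, deriv (deriv g) z = deriv (deriv F) z + 2 * Complex.cos z := by
    intro z
    rw [hg1f]
    have h1 : HasDerivAt (fun z => deriv F z + 2 * Complex.sin z)
        (deriv (deriv F) z + 2 * Complex.cos z) z :=
      ((hF1 z).hasDerivAt).add ((Complex.hasDerivAt_sin z).const_mul 2)
    exact h1.deriv
  have hb1 : ∀ z, ‖z‖ ≤ M - 1 → ‖deriv g z‖ ≤ 1 / 100 := by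
    intro z hz
    have h1 := Complex.norm_deriv_le_of_forall_mem_sphere_norm_le (c := z) (R := 1) (C := 1 / 100)
      one_pos hgd.diffContOnCl (fun u hu => by
        rw [mem_sphere, dist_eq_norm] at hu
        refine hb u ?_
        have h2 := norm_add_le (u - z) z
        rw [sub_add_cancel, hu] at h2
        linarith)
    rwa [div_one] at h1
  have hb2 : ‖deriv (deriv g) ζ‖ ≤ 1 / 100 := by
    have h1 := Complex.norm_deriv_le_of_forall_mem_sphere_norm_le (c := ζ) (R := 1) (C := 1 / 100)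
      one_pos hgd1.diffContOnCl (fun u hu => by
        rw [mem_sphere, dist_eq_norm] at hu
        refine hb1 u ?_
        have h2 := norm_add_le (u - ζ) ζ
        rw [sub_add_cancel, hu] at h2
        linarith)
    rwa [div_one] at h1
  refine ⟨?_, ?_⟩
  · rw [← hg1]
    exact hb1 ζ (by linarith)
  · rw [← hg2]
    exact hb2

theorem sin_lower (d : ℂ) (h : |d.re| ≤ Real.pi / 2) : 2 / Real.pi * ‖d‖ ≤ ‖Complex.sin d‖ := by
  have hpi := Real.pi_pos
  have h1 : Complex.sin d = ((Real.sin d.re * Real.cosh d.im : ℝ) : ℂ) +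
      ((Real.cos d.re * Real.sinh d.im : ℝ) : ℂ) * I := by
    rw [Complex.sin_eq]
    push_cast
    rfl
  have h2 : ‖Complex.sin d‖ ^ 2 = Real.sin d.re ^ 2 + Real.sinh d.im ^ 2 := by
    rw [h1, ← Complex.normSq_eq_norm_sq, Complex.normSq_add_mul_I]
    have h3 := Real.cosh_sq d.im
    have h4 := Real.sin_sq_add_cos_sq d.re
    have h5 : Real.cos d.re ^ 2 = 1 - Real.sin d.re ^ 2 := by linarith
    rw [mul_pow, mul_pow, h3, h5]
    ring
  have h3 : (2 / Real.pi * |d.re|) ^ 2 ≤ Real.sin d.re ^ 2 := by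
    have h4 : 2 / Real.pi * |d.re| ≤ Real.sin |d.re| := Real.mul_le_sin (abs_nonneg _) h
    have h5 : Real.sin |d.re| ^ 2 = Real.sin d.re ^ 2 := by
      rcases abs_cases d.re with ⟨he, _⟩ | ⟨he, _⟩
      · rw [he]
      · rw [he, Real.sin_neg, neg_sq]
    rw [← h5]
    exact pow_le_pow_left₀ (by positivity) h4 2
  have h4 : d.im ^ 2 ≤ Real.sinh d.im ^ 2 := by
    have h5 : |d.im| ≤ Real.sinh |d.im| := Real.self_le_sinh_iff.2 (abs_nonneg _)
    have h6 : Real.sinh |d.im| ^ 2 = Real.sinh d.im ^ 2 := by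
      rcases abs_cases d.im with ⟨he, _⟩ | ⟨he, _⟩
      · rw [he]
      · rw [he, Real.sinh_neg, neg_sq]
    rw [← h6, ← sq_abs d.im]
    exact pow_le_pow_left₀ (abs_nonneg _) h5 2
  have h5 : (2 / Real.pi) ^ 2 ≤ 1 := by
    have h6 : 2 / Real.pi ≤ 1 := (div_le_one hpi).2 (by linarith [Real.pi_gt_three])
    have h7 : 0 ≤ 2 / Real.pi := by positivity
    nlinarith
  have h6 : ‖d‖ ^ 2 = d.re ^ 2 + d.im ^ 2 := by
    rw [← Complex.normSq_eq_norm_sq, Complex.normSq_apply]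
    ring
  refine le_of_sq_le_sq ?_ (norm_nonneg _)
  rw [mul_pow, h2, h6]
  rw [mul_pow, sq_abs] at h3
  have h7 : (2 / Real.pi) ^ 2 * d.im ^ 2 ≤ 1 * d.im ^ 2 :=
    mul_le_mul_of_nonneg_right h5 (sq_nonneg _)
  nlinarith

private theorem CellA_open (a b : ℝ) : IsOpen (box a b) :=
  (isOpen_lt continuous_const Complex.continuous_re).inter
    ((isOpen_lt Complex.continuous_re continuous_const).inter
      (isOpen_lt Complex.continuous_im.abs continuous_const))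

theorem fr_box (a b : ℝ) (ζ : ℂ) (h : ζ ∈ closure (box a b)) :
    Real.pi * a ≤ ζ.re ∧ ζ.re ≤ Real.pi * b ∧ |ζ.im| ≤ 3 ∧
      (ζ ∈ frontier (box a b) → ζ.re = Real.pi * a ∨ ζ.re = Real.pi * b ∨ |ζ.im| = 3) := by
  have hcl : closure (box a b) ⊆ {ζ : ℂ | Real.pi * a ≤ ζ.re ∧ ζ.re ≤ Real.pi * b ∧ |ζ.im| ≤ 3} := by
    refine closure_minimal (fun z hz => ⟨hz.1.le, hz.2.1.le, hz.2.2.le⟩) ?_
    exact (isClosed_le continuous_const Complex.continuous_re).inter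
      ((isClosed_le Complex.continuous_re continuous_const).inter
        (isClosed_le Complex.continuous_im.abs continuous_const))
  obtain ⟨h1, h2, h3⟩ := hcl h
  refine ⟨h1, h2, h3, fun hf => ?_⟩
  rw [IsOpen.frontier_eq (CellA_open a b)] at hf
  have hn := hf.2
  by_contra hno
  push Not at hno
  exact hn ⟨lt_of_le_of_ne h1 (Ne.symm hno.1), lt_of_le_of_ne h2 hno.2.1, lt_of_le_of_ne h3 hno.2.2⟩

theorem box_open (a b : ℝ) : IsOpen (box a b) := by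
  exact CellA_open a b

theorem box_bdd (a b : ℝ) : Bornology.IsBounded (box a b) := by
  refine (isBounded_closedBall (x := (0 : ℂ)) (r := |Real.pi * a| + |Real.pi * b| + 3)).subset ?_
  rintro z ⟨h1, h2, h3⟩
  rw [mem_closedBall, dist_zero_right]
  refine (Complex.norm_le_abs_re_add_abs_im z).trans ?_
  have h4 : |z.re| ≤ |Real.pi * a| + |Real.pi * b| := by
    rw [abs_le]
    constructor
    · linarith [neg_abs_le (Real.pi * a), abs_nonneg (Real.pi * b)]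
    · linarith [le_abs_self (Real.pi * b), abs_nonneg (Real.pi * a)]
  linarith

private theorem CB_cos (ζ : ℂ) : ‖Complex.cos ζ‖ ^ 2 = Real.cos ζ.re ^ 2 + Real.sinh ζ.im ^ 2 := by
  have h1 : Complex.cos ζ = ((Real.cos ζ.re * Real.cosh ζ.im : ℝ) : ℂ) +
      ((-(Real.sin ζ.re * Real.sinh ζ.im) : ℝ) : ℂ) * I := by
    rw [Complex.cos_eq]
    push_cast
    ring
  rw [h1, ← Complex.normSq_eq_norm_sq, Complex.normSq_add_mul_I]
  have h3 := Real.cosh_sq ζ.im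
  have h5 : Real.sin ζ.re ^ 2 = 1 - Real.cos ζ.re ^ 2 := by linarith [Real.sin_sq_add_cos_sq ζ.re]
  rw [neg_sq, mul_pow, mul_pow, h3, h5]
  ring

private theorem CB_sinh3 : (10 : ℝ) ≤ Real.sinh 3 := by
  rw [Real.sinh_eq]
  have h1 := Real.exp_one_gt_d9
  have h2 : Real.exp 3 = Real.exp 1 ^ 3 := by
    rw [← Real.exp_nat_mul]
    norm_num
  have h3 : (20.08 : ℝ) ≤ Real.exp 3 := by
    rw [h2]
    calc (20.08 : ℝ) ≤ 2.7182818283 ^ 3 := by norm_num
      _ ≤ Real.exp 1 ^ 3 := pow_le_pow_left₀ (by norm_num) h1.le 3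
  have h4 : Real.exp (-3) ≤ 0.05 := by
    rw [Real.exp_neg]
    have h5 : (Real.exp 3)⁻¹ ≤ (20.08 : ℝ)⁻¹ := inv_anti₀ (by norm_num) h3
    refine h5.trans ?_
    norm_num
  linarith

private theorem CB_cos_im (ζ : ℂ) (h : |ζ.im| = 3) : 10 ≤ ‖Complex.cos ζ‖ := by
  have h1 := CB_cos ζ
  have h2 : Real.sinh ζ.im ^ 2 = Real.sinh 3 ^ 2 := by
    rcases abs_cases ζ.im with ⟨he, _⟩ | ⟨he, _⟩
    · rw [← he, h]
    · have : ζ.im = -3 := by linarith
      rw [this, Real.sinh_neg, neg_sq]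
  have h3 := CB_sinh3
  refine le_of_sq_le_sq ?_ (norm_nonneg _)
  rw [h1, h2]
  nlinarith [sq_nonneg (Real.cos ζ.re)]

private theorem CB_cos_re (ζ : ℂ) (n : ℤ) (h : ζ.re = Real.pi * n) : 1 ≤ ‖Complex.cos ζ‖ := by
  have h1 := CB_cos ζ
  have h2 : Real.cos ζ.re ^ 2 = 1 := by
    have h3 := Real.sin_sq_add_cos_sq ζ.re
    have h4 : Real.sin ζ.re = 0 := by
      rw [h, mul_comm]
      exact Real.sin_int_mul_pi n
    rw [h4] at h3
    linarith
  refine le_of_sq_le_sq ?_ (norm_nonneg _)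
  rw [h1, h2]
  nlinarith [sq_nonneg (Real.sinh ζ.im)]

private theorem CB_norm (ζ : ℂ) (R : ℝ) (h1 : -R ≤ ζ.re) (h2 : ζ.re ≤ R) (h3 : |ζ.im| ≤ 3) : ‖ζ‖ ≤ R + 3 := by
  refine (Complex.norm_le_abs_re_add_abs_im ζ).trans ?_
  have h4 : |ζ.re| ≤ R := abs_le.2 ⟨h1, h2⟩
  linarith

private theorem CB_two {F : ℂ → ℂ} {w : ℂ} {M : ℝ} (h : nr F w M) (ζ : ℂ) (hζ : ‖ζ‖ ≤ M) (h0 : F ζ = 0) :
    ‖2 * Complex.cos ζ + w‖ ≤ 1 / 100 := by
  have h5 := h.2 ζ hζ
  rw [h0] at h5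
  have h7 : 2 * Complex.cos ζ + w = -(0 - 2 * Complex.cos ζ - w) := by ring
  rw [h7, norm_neg]
  exact h5

private theorem CB_two' {F : ℂ → ℂ} {w : ℂ} {M : ℝ} (h : nr F w M) (ζ : ℂ) (hζ : ‖ζ‖ ≤ M) (h0 : F ζ = 0) :
    2 * ‖Complex.cos ζ‖ ≤ 1 / 100 + ‖w‖ := by
  have h5 := CB_two h ζ hζ h0
  have h6 := norm_sub_le (2 * Complex.cos ζ + w) w
  rw [add_sub_cancel_right, norm_mul, Complex.norm_ofNat] at h6
  linarith

theorem nr_frontier {F : ℂ → ℂ} {w : ℂ} {M : ℝ} (h : nr F w M) (hw : ‖w‖ ≤ 3 / 2) (j : ℕ)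
    (hM : Real.pi * (j + 1) + 5 ≤ M) (ζ : ℂ) (hζ : ζ ∈ frontier (box j (j + 1))) : F ζ ≠ 0 := by
  intro h0
  obtain ⟨h1, h2, h3, h4⟩ := fr_box j (j + 1) ζ (frontier_subset_closure hζ)
  have hpi := Real.pi_pos
  have hn : ‖ζ‖ ≤ M := by
    have h5 := CB_norm ζ (Real.pi * (j + 1)) (by
      have : 0 ≤ Real.pi * (j : ℝ) := by positivity
      have h6 : 0 ≤ Real.pi * ((j : ℝ) + 1) := by positivity
      linarith) h2 h3
    linarith
  have h6 := CB_two' h ζ hn h0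
  rcases h4 hζ with h7 | h7 | h7
  · have h8 := CB_cos_re ζ j (by rw [h7]; push_cast; ring)
    linarith
  · have h8 := CB_cos_re ζ (j + 1) (by rw [h7]; push_cast; ring)
    linarith
  · have h8 := CB_cos_im ζ h7
    linarith

theorem nr_simple {F : ℂ → ℂ} {w : ℂ} {M : ℝ} (h : nr F w M) (hw : ‖w‖ ≤ 3 / 2) (ζ : ℂ)
    (hζ : ‖ζ‖ ≤ M - 2) (h0 : F ζ = 0) : deriv F ζ ≠ 0 := by
  intro hd
  have h6 := CB_two' h ζ (by linarith) h0
  obtain ⟨h8, -⟩ := nr_deriv h ζ hζ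
  rw [hd, zero_add, norm_mul, Complex.norm_ofNat] at h8
  have h9 : Complex.sin ζ ^ 2 + Complex.cos ζ ^ 2 = 1 := Complex.sin_sq_add_cos_sq ζ
  have h10 : ‖(1 : ℂ)‖ ≤ ‖Complex.sin ζ‖ ^ 2 + ‖Complex.cos ζ‖ ^ 2 := by
    rw [← h9]
    refine (norm_add_le _ _).trans ?_
    rw [norm_pow, norm_pow]
  rw [norm_one] at h10
  have h11 : ‖Complex.sin ζ‖ ≤ 1 / 200 := by linarith
  have h12 : ‖Complex.cos ζ‖ ≤ 0.76 := by linarith
  nlinarith [norm_nonneg (Complex.sin ζ), norm_nonneg (Complex.cos ζ)]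

private theorem CB_cos1 : (0.53 : ℝ) ≤ Real.cos 1 := by
  have h1 : 0.9685 ≤ Real.cos (1 / 4) := by
    have h := Real.cos_bound (x := 1 / 4) (by norm_num [abs_of_pos])
    have h2 := (abs_le.1 h).1
    have h3 : |(1 / 4 : ℝ)| = 1 / 4 := abs_of_pos (by norm_num)
    rw [h3] at h2
    norm_num at h2 ⊢
    linarith
  have h2 : 0.8759 ≤ Real.cos (1 / 2) := by
    have h3 : Real.cos (1 / 2) = 2 * Real.cos (1 / 4) ^ 2 - 1 := by
      rw [← Real.cos_two_mul]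
      norm_num
    rw [h3]
    nlinarith
  have h3 : Real.cos 1 = 2 * Real.cos (1 / 2) ^ 2 - 1 := by
    rw [← Real.cos_two_mul]
    norm_num
  rw [h3]
  nlinarith

private theorem CB_recos (d : ℂ) (h : ‖d‖ ≤ 1) : 0.53 ≤ (Complex.cos d).re := by
  have h1 : (Complex.cos d).re = Real.cos d.re * Real.cosh d.im := by
    have h1 : Complex.cos d = ((Real.cos d.re * Real.cosh d.im : ℝ) : ℂ) +
        ((-(Real.sin d.re * Real.sinh d.im) : ℝ) : ℂ) * I := by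
      rw [Complex.cos_eq]
      push_cast
      ring
    rw [h1, Complex.add_re, Complex.re_ofReal_mul, Complex.ofReal_re, Complex.I_re, mul_zero, add_zero]
  have h2 : |d.re| ≤ 1 := (Complex.abs_re_le_norm d).trans h
  have h3 : Real.cos 1 ≤ Real.cos d.re := by
    rw [← Real.cos_abs d.re]
    exact Real.cos_le_cos_of_nonneg_of_le_pi (abs_nonneg _) (by linarith [Real.pi_gt_three]) h2
  have h5 := CB_cos1
  have h7 := Real.one_le_cosh d.im
  rw [h1]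
  nlinarith

private theorem CB_shift (j : ℕ) (ζ : ℂ) :
    Complex.sin ζ = (-1) ^ j * Complex.cos (ζ - Real.pi * (j + 1 / 2)) ∧
    Complex.cos ζ = -((-1) ^ j * Complex.sin (ζ - Real.pi * (j + 1 / 2))) := by
  have h0 : ζ = (ζ - Real.pi * (j + 1 / 2)) + Real.pi / 2 + j * Real.pi := by ring
  obtain ⟨d, hd⟩ : ∃ d : ℂ, d = ζ - Real.pi * (j + 1 / 2) := ⟨_, rfl⟩
  rw [← hd] at h0 ⊢
  rw [h0]
  constructor
  · rw [Complex.sin_antiperiodic.add_nat_mul_eq, Complex.sin_add_pi_div_two]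
  · rw [Complex.cos_antiperiodic.add_nat_mul_eq, Complex.cos_add_pi_div_two]
    ring

theorem nr_one {F : ℂ → ℂ} {w : ℂ} {M : ℝ} (h : nr F w M) (hw : ‖w‖ ≤ 1 / 100) (j : ℕ)
    (hM : Real.pi * (j + 1) + 5 ≤ M) : ∃ ζ ∈ box j (j + 1), F ζ = 0 ∧
      ∀ ζ' ∈ closure (box j (j + 1)), F ζ' = 0 → ζ' = ζ := by
  have hpi := Real.pi_pos
  have hpi3 := Real.pi_gt_three
  have hpi4 := Real.pi_lt_four
  have hj : 0 ≤ Real.pi * (j : ℝ) := by positivity
  obtain ⟨c, hc⟩ : ∃ c : ℂ, c = Real.pi * (j + 1 / 2) := ⟨_, rfl⟩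
  have hcr : c = ((Real.pi * (j + 1 / 2) : ℝ) : ℂ) := by rw [hc]; push_cast; ring
  have hcre : c.re = Real.pi * (j + 1 / 2) := by rw [hcr, Complex.ofReal_re]
  have hcim : c.im = 0 := by rw [hcr, Complex.ofReal_im]
  have hcn : ‖c‖ = Real.pi * (j + 1 / 2) := by
    rw [hcr, Complex.norm_real, Real.norm_eq_abs, abs_of_nonneg (by positivity)]
  obtain ⟨ω, hω⟩ : ∃ ω : ℂ, ω = -(-1) ^ j := ⟨_, rfl⟩
  have hωn : ‖ω‖ = 1 := by rw [hω, norm_neg, norm_pow, norm_neg, norm_one, one_pow]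
  have hpp : ((-1 : ℂ) ^ j) * (-1) ^ j = 1 := by rw [← mul_pow]; norm_num
  have hnorm : ∀ z ∈ closedBall c 1, ‖z‖ ≤ M - 2 := by
    intro z hz
    rw [mem_closedBall, dist_eq_norm] at hz
    have h1 := norm_add_le (z - c) c
    rw [sub_add_cancel, hcn] at h1
    have h2 : Real.pi * ((j : ℝ) + 1 / 2) = Real.pi * (j + 1) - Real.pi / 2 := by ring
    linarith
  have hder : ∀ z ∈ ball c 1, 1 ≤ (ω * deriv F z).re := by
    intro z hz
    have hz' : ‖z - c‖ ≤ 1 := by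
      rw [mem_ball, dist_eq_norm] at hz
      exact hz.le
    obtain ⟨h1, -⟩ := nr_deriv h z (hnorm z (ball_subset_closedBall hz))
    have h2 := (CB_shift j z).1
    rw [← hc] at h2
    have h3 : ω * deriv F z = ω * (deriv F z + 2 * Complex.sin z) + 2 * Complex.cos (z - c) := by
      rw [h2, hω]
      linear_combination (2 * Complex.cos (z - c)) * hpp
    have h4 : ‖ω * (deriv F z + 2 * Complex.sin z)‖ ≤ 1 / 100 := by
      rw [norm_mul, hωn, one_mul]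
      exact h1
    have h5 := CB_recos (z - c) hz'
    have h6 := (abs_le.1 ((Complex.abs_re_le_norm _).trans h4)).1
    rw [h3, Complex.add_re]
    have h7 : (2 * Complex.cos (z - c)).re = 2 * (Complex.cos (z - c)).re := by
      simp [Complex.mul_re]
    rw [h7]
    linarith
  have h0 : ‖F c‖ < 1 * 1 / 2 := by
    have h1 := h.2 c (by linarith [hnorm c (mem_closedBall_self (by norm_num))])
    have h2 := (CB_shift j c).2
    rw [← hc, sub_self, Complex.sin_zero, mul_zero, neg_zero] at h2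
    rw [h2, mul_zero, sub_zero] at h1
    have h3 := norm_add_le (F c - w) w
    rw [sub_add_cancel] at h3
    linarith
  obtain ⟨z, hz, hFz, hzc, huniq⟩ := uz c 1 1 one_pos one_pos F h.1.differentiableOn h.1.continuous.continuousOn
    ω hωn hder h0
  have hzc1 : ‖z - c‖ < 1 := by rw [← dist_eq_norm]; exact hz
  have hre := (abs_lt.1 (lt_of_le_of_lt (Complex.abs_re_le_norm (z - c)) hzc1))
  have him := (lt_of_le_of_lt (Complex.abs_im_le_norm (z - c)) hzc1)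
  rw [Complex.sub_re, hcre] at hre
  rw [Complex.sub_im, hcim, sub_zero] at him
  refine ⟨z, ⟨?_, ?_, ?_⟩, hFz, ?_⟩
  · have : Real.pi * ((j : ℝ) + 1 / 2) = Real.pi * j + Real.pi / 2 := by ring
    linarith [hre.1]
  · have : Real.pi * ((j : ℝ) + 1 / 2) = Real.pi * (j + 1) - Real.pi / 2 := by ring
    linarith [hre.2]
  · linarith
  · intro z' hz' hF
    obtain ⟨h1, h2, h3, -⟩ := fr_box j (j + 1) z' hz'
    have hn : ‖z'‖ ≤ M := by
      have h5 := CB_norm z' (Real.pi * (j + 1)) (by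
        have h6 : 0 ≤ Real.pi * ((j : ℝ) + 1) := by positivity
        linarith) h2 h3
      linarith
    refine huniq z' ?_ hF
    rw [mem_closedBall, dist_eq_norm]
    have h4 := CB_two' h z' hn hF
    have h5 := (CB_shift j z').2
    rw [← hc] at h5
    have h6 : ‖Complex.cos z'‖ = ‖Complex.sin (z' - c)‖ := by
      rw [h5, norm_neg, norm_mul, norm_pow, norm_neg, norm_one, one_pow, one_mul]
    have h7 := sin_lower (z' - c) (by
      rw [Complex.sub_re, hcre, abs_le]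
      constructor
      · have : Real.pi * ((j : ℝ) + 1 / 2) = Real.pi * j + Real.pi / 2 := by ring
        linarith
      · have : Real.pi * ((j : ℝ) + 1 / 2) = Real.pi * (j + 1) - Real.pi / 2 := by ring
        linarith)
    rw [← h6] at h7
    have h8 : 2 / Real.pi * ‖z' - c‖ ≤ 1 / 100 := by linarith
    have h9 : ‖z' - c‖ = Real.pi / 2 * (2 / Real.pi * ‖z' - c‖) := by
      field_simp
    rw [h9]
    have h10 : Real.pi / 2 * (2 / Real.pi * ‖z' - c‖) ≤ Real.pi / 2 * (1 / 100) :=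
      mul_le_mul_of_nonneg_left h8 (by positivity)
    linarith

private theorem CB_cosre (m : ℕ) (n : ℤ) (hn : ((-1 : ℂ)) ^ m = (-1) ^ n) (ζ : ℂ) (h : ζ.re = Real.pi * n) :
    Complex.cos ζ = (-1) ^ m * (Real.cosh ζ.im : ℂ) := by
  have h1 : ζ = ((ζ.im : ℂ) * I) + n * Real.pi := by
    refine Complex.ext ?_ ?_
    · simp [h, mul_comm]
    · simp
  have h2 : Complex.cos ζ = Complex.cos ((ζ.im : ℂ) * I + n * Real.pi) := by rw [← h1]
  rw [h2, Complex.cos_antiperiodic.add_int_mul_eq, Complex.cos_mul_I, hn, Complex.ofReal_cosh, Int.cast_negOnePow]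

theorem sw_frontier {F : ℂ → ℂ} {M : ℝ} (m : ℕ) (σ : ℂ) (hσ : ‖σ‖ ≤ 3 / 2)
    (h : nr F (2 * (-1) ^ m * cexp (-σ)) M) (hM : Real.pi * (m + 2) + 5 ≤ M) (ζ : ℂ)
    (hζ : ζ ∈ frontier (box (-m) m) ∨ ζ ∈ frontier (box m (m + 2))) : F ζ ≠ 0 := by
  intro h0
  have hpi := Real.pi_pos
  have hm : 0 ≤ Real.pi * (m : ℝ) := by positivity
  have hmain : -(Real.pi * (m + 2)) ≤ ζ.re ∧ ζ.re ≤ Real.pi * (m + 2) ∧ |ζ.im| ≤ 3 ∧
      ((∃ n : ℤ, ((-1 : ℂ)) ^ m = (-1) ^ n ∧ ζ.re = Real.pi * n) ∨ |ζ.im| = 3) := by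
    rcases hζ with hζ | hζ
    · obtain ⟨h1, h2, h3, h4⟩ := fr_box (-m) m ζ (frontier_subset_closure hζ)
      refine ⟨by nlinarith, by nlinarith, h3, ?_⟩
      rcases h4 hζ with h5 | h5 | h5
      · refine Or.inl ⟨-(m : ℤ), ?_, by rw [h5]; push_cast; ring⟩
        rw [zpow_neg, zpow_natCast, ← inv_pow]
        norm_num
      · exact Or.inl ⟨(m : ℤ), (zpow_natCast _ _).symm, by rw [h5]; push_cast; ring⟩
      · exact Or.inr h5
    · obtain ⟨h1, h2, h3, h4⟩ := fr_box m (m + 2) ζ (frontier_subset_closure hζ)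
      refine ⟨by nlinarith, h2, h3, ?_⟩
      rcases h4 hζ with h5 | h5 | h5
      · exact Or.inl ⟨(m : ℤ), (zpow_natCast _ _).symm, by rw [h5]; push_cast; ring⟩
      · refine Or.inl ⟨(m : ℤ) + 2, ?_, by rw [h5]; push_cast; ring⟩
        rw [zpow_add₀ (by norm_num), zpow_natCast]
        norm_num
      · exact Or.inr h5
  obtain ⟨h1, h2, h3, h4⟩ := hmain
  have hn : ‖ζ‖ ≤ M := by
    have h5 := CB_norm ζ (Real.pi * (m + 2)) h1 h2 h3
    linarith
  have hexp : ‖cexp (-σ)‖ ≤ 4.5 := by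
    rw [Complex.norm_exp, Complex.neg_re]
    have h5 : -σ.re ≤ 3 / 2 := by
      have := (abs_le.1 ((Complex.abs_re_le_norm σ).trans hσ)).1
      linarith
    have h6 : Real.exp (-σ.re) ≤ Real.exp (3 / 2) := Real.exp_le_exp.2 h5
    have h7 : Real.exp (3 / 2) ^ 2 = Real.exp 1 ^ 3 := by
      rw [← Real.exp_nat_mul, ← Real.exp_nat_mul]
      norm_num
    have h8 := Real.exp_one_lt_d9
    have h9 : Real.exp 1 ^ 3 ≤ 20.1 := by
      calc Real.exp 1 ^ 3 ≤ 2.7182818286 ^ 3 := pow_le_pow_left₀ (Real.exp_pos 1).le h8.le 3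
        _ ≤ 20.1 := by norm_num
    have h10 : Real.exp (3 / 2) ≤ 4.5 := by
      refine le_of_sq_le_sq ?_ (by norm_num)
      rw [h7]
      norm_num at h9 ⊢
      linarith
    exact h6.trans h10
  rcases h4 with ⟨n, hn1, hn2⟩ | h4
  · have h5 := CB_two h ζ hn h0
    have h6 := CB_cosre m n hn1 ζ hn2
    have h7 : 2 * Complex.cos ζ + 2 * (-1) ^ m * cexp (-σ) =
        (-1) ^ m * (2 * ((Real.cosh ζ.im : ℂ) + cexp (-σ))) := by
      rw [h6]
      ring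
    rw [h7, norm_mul, norm_pow, norm_neg, norm_one, one_pow, one_mul, norm_mul, Complex.norm_ofNat] at h5
    have h8 : 1 ≤ ‖(Real.cosh ζ.im : ℂ) + cexp (-σ)‖ := by
      have h9 := Complex.re_le_norm ((Real.cosh ζ.im : ℂ) + cexp (-σ))
      rw [Complex.add_re, Complex.ofReal_re, Complex.exp_re, Complex.neg_re, Complex.neg_im, Real.cos_neg] at h9
      have h10 := Real.one_le_cosh ζ.im
      have h11 : 0 ≤ Real.cos σ.im := by
        have h12 := abs_le.1 ((Complex.abs_im_le_norm σ).trans hσ)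
        refine Real.cos_nonneg_of_mem_Icc ⟨?_, ?_⟩
        · linarith [Real.pi_gt_three]
        · linarith [Real.pi_gt_three]
      have h12 : 0 ≤ Real.exp (-σ.re) * Real.cos σ.im := mul_nonneg (Real.exp_pos _).le h11
      linarith
    linarith
  · have h5 := CB_two' h ζ hn h0
    have h6 := CB_cos_im ζ h4
    have h7 : ‖2 * (-1 : ℂ) ^ m * cexp (-σ)‖ = 2 * ‖cexp (-σ)‖ := by
      rw [norm_mul, norm_mul, norm_pow, norm_neg, norm_one, one_pow, mul_one, Complex.norm_ofNat]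
    rw [h7] at h5
    linarith

end Pool.Agent.Lib.MP_ec260d_ntC
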