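import Mathlib

/-!
# JOB DBa: limits of polynomials with zeros in a strip (about 250 lines)

`LPc Δ f`: `f` is a locally uniform limit of nonzero polynomials commuting with conjugation, all of whose zeros satisfy `|Im z| ≤ Δ`.
`LPc_step`: for a polynomial `p` of the class and `q(z) = (p (z + iε) + p (z - iε))/2`: `q` commutes with conjugation, has the same leading coefficient as `p` (so `q ≠ 0`), and `q → ` the stated limit locally uniformly (translations of a locally uniformly convergent sequence).  Zeros of `q`: let `y = z.im`, by conjugation `y ≥ 0`, and suppose `y > sqrt (max (Δ² - ε²) 0)`, so `y > 0` and `y² > Δ² - ε²`.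
`p = c ∏ (X - a)` (`Polynomial` splits over `ℂ`), and `‖p z‖² = ‖p z‖ ‖p (conj z)‖ = ‖c‖² ∏_a ‖z - a‖ ‖z - conj a‖`.  For a root `a = α + iβ`, `|β| ≤ Δ`, `x = z.re - α`, and `F(Y) = (x² + (Y - β)²)(x² + (Y + β)²)` (this is `(‖z' - a‖ ‖z' - conj a‖)²` for `z' = z.re + iY`):
`F(y + ε) - F(y - ε) = 8 y ε (x² + y² + ε² - β²) > 0`.  If `p` is not constant this gives `‖p (z + iε)‖ > ‖p (z - iε)‖` (`F(y+ε) > 0`, `F (y - ε) ≥ 0`), so `q z ≠ 0`.  If `p` is constant, `q = p ≠ 0`.
`LPc_lim`: diagonal choice: on `closedBall 0 n` choose a polynomial of the class within `1/(n+1)` of `f n`; compact exhaustion (`tendstoLocallyUniformly_iff_forall_isCompact`).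
`LPc_zero`: `f` not identically zero.  Suppose `f z0 = 0`, `|z0.im| > Δ`.  `f` is entire (locally uniform limit of entire functions), so the zero is isolated: choose `r > 0` with `r < |z0.im| - Δ` and `f ≠ 0` on the circle `‖z - z0‖ = r`, `μ = min ‖f‖` there; for large `n`, `‖p n - f‖ < μ/2` on the closed disc; `p n` has no zeros in the closed disc (`|Im| > Δ`),
so by the maximum principle for `1/p n`: `‖p n z0‖ ≥ min_{circle} ‖p n‖ ≥ μ/2`, but `‖p n z0‖ = ‖p n z0 - f z0‖ < μ/2`.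
`LPc_mono`: larger `Δ`.
-/

namespace Pool.Agent.Lib.MP_ec260d_ntC

open Complex Set Filter Topology Metric MeasureTheory Polynomial

/-- locally uniform limits of real polynomials with zeros in a strip -/
def LPc (Δ : ℝ) (f : ℂ → ℂ) : Prop :=
  ∃ p : ℕ → Polynomial ℂ, (∀ n, p n ≠ 0) ∧
    (∀ n z, (p n).eval ((starRingEnd ℂ) z) = (starRingEnd ℂ) ((p n).eval z)) ∧
    (∀ n z, (p n).eval z = 0 → |z.im| ≤ Δ) ∧
    TendstoLocallyUniformly (fun n z => (p n).eval z) f atTop

theorem LPc_mono {Δ Δ' : ℝ} (h : Δ ≤ Δ') {f : ℂ → ℂ} (hf : LPc Δ f) : LPc Δ' f := by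
  obtain ⟨p, hp0, hpc, hpz, hpl⟩ := hf
  exact ⟨p, hp0, hpc, fun n z hz => (hpz n z hz).trans h, hpl⟩

/-- the norm of a polynomial at conjugate points -/
private lemma lps_norm {p : Polynomial ℂ} (hc : ∀ z, p.eval ((starRingEnd ℂ) z) = (starRingEnd ℂ) (p.eval z)) (z : ℂ) :
    ‖p.eval z‖ ^ 2 = ‖p.leadingCoeff‖ ^ 2 *
      (p.roots.map (fun a => ‖z - a‖ * ‖(starRingEnd ℂ) z - a‖)).prod := by
  have h1 : ∀ w : ℂ, ‖p.eval w‖ = ‖p.leadingCoeff‖ * (p.roots.map (fun a => ‖w - a‖)).prod := by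
    intro w
    rw [(IsAlgClosed.splits p).eval_eq_prod_roots w, norm_mul]
    congr 1
    have h2 := map_multiset_prod (normHom : ℂ →*₀ ℝ) (p.roots.map (fun a => w - a))
    rw [Multiset.map_map] at h2
    exact h2
  have h3 : ‖p.eval z‖ = ‖p.eval ((starRingEnd ℂ) z)‖ := by
    rw [hc z, RCLike.norm_conj]
  rw [Multiset.prod_map_mul]
  calc ‖p.eval z‖ ^ 2 = ‖p.eval z‖ * ‖p.eval ((starRingEnd ℂ) z)‖ := by rw [← h3, sq]
    _ = _ := by
        rw [h1 z, h1 ((starRingEnd ℂ) z)]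
        ring

private lemma lps_prod (s : Multiset ℂ) (f g : ℂ → ℝ) (hf : ∀ a ∈ s, 0 ≤ f a) (hfg : ∀ a ∈ s, f a < g a)
    (hs : s ≠ 0) : (s.map f).prod < (s.map g).prod := by
  obtain ⟨a, ha⟩ := Multiset.exists_mem_of_ne_zero hs
  obtain ⟨t, rfl⟩ := Multiset.exists_cons_of_mem ha
  rw [Multiset.map_cons, Multiset.map_cons, Multiset.prod_cons, Multiset.prod_cons]
  have hft : ∀ b ∈ t, 0 ≤ f b := fun b hb => hf b (Multiset.mem_cons_of_mem hb)
  have hgt : ∀ b ∈ t, f b < g b := fun b hb => hfg b (Multiset.mem_cons_of_mem hb)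
  have h1 : (t.map f).prod ≤ (t.map g).prod :=
    Multiset.prod_map_le_prod_map₀ f g hft fun b hb => (hgt b hb).le
  have h2 : 0 < (t.map g).prod := by
    refine Multiset.prod_pos fun y hy => ?_
    obtain ⟨b, hb, rfl⟩ := Multiset.mem_map.mp hy
    exact lt_of_le_of_lt (hft b hb) (hgt b hb)
  have h3 := hfg a (Multiset.mem_cons_self a t)
  have h4 := hf a (Multiset.mem_cons_self a t)
  calc f a * (t.map f).prod ≤ f a * (t.map g).prod := mul_le_mul_of_nonneg_left h1 h4
    _ < g a * (t.map g).prod := mul_lt_mul_of_pos_right h3 h2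

private lemma lps_factor (z a : ℂ) (ε Δ : ℝ) (hε : 0 < ε) (ha : |a.im| ≤ Δ) (hz : 0 < z.im)
    (hz2 : Δ ^ 2 - ε ^ 2 < z.im ^ 2) :
    ‖z - I * ε - a‖ * ‖(starRingEnd ℂ) (z - I * ε) - a‖ < ‖z + I * ε - a‖ * ‖(starRingEnd ℂ) (z + I * ε) - a‖ := by
  refine lt_of_pow_lt_pow_left₀ 2 (by positivity) ?_
  rw [mul_pow, mul_pow]
  have h1 : ∀ w : ℂ, ‖w‖ ^ 2 = w.re ^ 2 + w.im ^ 2 := by
    intro w
    rw [← Complex.normSq_eq_norm_sq, Complex.normSq_apply]
    ring
  rw [h1, h1, h1, h1]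
  simp only [Complex.sub_re, Complex.sub_im, Complex.add_re, Complex.add_im, Complex.mul_re, Complex.mul_im,
    Complex.I_re, Complex.I_im, Complex.ofReal_re, Complex.ofReal_im, Complex.conj_re, Complex.conj_im]
  have h2 : a.im ^ 2 ≤ Δ ^ 2 := sq_le_sq' (by linarith [(abs_le.mp ha).1]) (abs_le.mp ha).2
  have h3 : 0 < z.im * ε * ((z.re - a.re) ^ 2 + z.im ^ 2 + ε ^ 2 - a.im ^ 2) := by
    refine mul_pos (mul_pos hz hε) ?_
    nlinarith [sq_nonneg (z.re - a.re)]
  nlinarith [h3]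

/-- no zero outside of the smaller strip, upper half plane -/
private lemma lps_ne {p : Polynomial ℂ} (hp : p ≠ 0)
    (hc : ∀ z, p.eval ((starRingEnd ℂ) z) = (starRingEnd ℂ) (p.eval z)) {Δ ε : ℝ} (hε : 0 < ε)
    (hr : ∀ z, p.eval z = 0 → |z.im| ≤ Δ) (z : ℂ) (hz : 0 < z.im) (hz2 : Δ ^ 2 - ε ^ 2 < z.im ^ 2) :
    p.eval (z + I * ε) + p.eval (z - I * ε) ≠ 0 := by
  intro h0
  by_cases hs : p.roots = 0
  · have h2 := (IsAlgClosed.splits p).eval_eq_prod_roots (z + I * ε)
    have h3 := (IsAlgClosed.splits p).eval_eq_prod_roots (z - I * ε)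
    rw [hs, Multiset.map_zero, Multiset.prod_zero, mul_one] at h2 h3
    rw [h2, h3] at h0
    have h4 : p.leadingCoeff ≠ 0 := Polynomial.leadingCoeff_ne_zero.mpr hp
    apply h4
    linear_combination (1 / 2 : ℂ) * h0
  · have h1 : ‖p.eval (z - I * ε)‖ ^ 2 < ‖p.eval (z + I * ε)‖ ^ 2 := by
      rw [lps_norm hc, lps_norm hc]
      have hl : 0 < ‖p.leadingCoeff‖ ^ 2 := by
        have : p.leadingCoeff ≠ 0 := Polynomial.leadingCoeff_ne_zero.mpr hp
        positivity
      refine mul_lt_mul_of_pos_left ?_ hl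
      refine lps_prod _ _ _ (fun a _ => by positivity) (fun a ha => ?_) hs
      exact lps_factor z a ε Δ hε (hr a (Polynomial.isRoot_of_mem_roots ha)) hz hz2
    have h2 : p.eval (z + I * ε) = -p.eval (z - I * ε) := by linear_combination h0
    rw [h2, norm_neg] at h1
    exact lt_irrefl _ h1

theorem LPc_step {Δ ε : ℝ} (hΔ : 0 ≤ Δ) (hε : 0 < ε) {f : ℂ → ℂ} (hf : LPc Δ f) :
    LPc (Real.sqrt (max (Δ ^ 2 - ε ^ 2) 0)) (fun z => (f (z + I * ε) + f (z - I * ε)) / 2) := by
  obtain ⟨p, hp0, hpc, hpz, hpl⟩ := hf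
  have hev : ∀ n z, (Polynomial.C (1 / 2 : ℂ) * ((p n).comp (Polynomial.X + Polynomial.C (I * ε)) +
      (p n).comp (Polynomial.X - Polynomial.C (I * ε)))).eval z =
      ((p n).eval (z + I * ε) + (p n).eval (z - I * ε)) / 2 := by
    intro n z
    simp only [Polynomial.eval_mul, Polynomial.eval_C, Polynomial.eval_add, Polynomial.eval_comp, Polynomial.eval_X,
      Polynomial.eval_sub]
    ring
  have hconj : ∀ n z, (((p n).eval ((starRingEnd ℂ) z + I * ε) + (p n).eval ((starRingEnd ℂ) z - I * ε)) / 2) =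
      (starRingEnd ℂ) (((p n).eval (z + I * ε) + (p n).eval (z - I * ε)) / 2) := by
    intro n z
    have e1 : (starRingEnd ℂ) z + I * ε = (starRingEnd ℂ) (z - I * ε) := by
      rw [map_sub, map_mul, Complex.conj_I, Complex.conj_ofReal]
      ring
    have e2 : (starRingEnd ℂ) z - I * ε = (starRingEnd ℂ) (z + I * ε) := by
      rw [map_add, map_mul, Complex.conj_I, Complex.conj_ofReal]
      ring
    rw [e1, e2, hpc, hpc, map_div₀, map_add, map_ofNat, add_comm]
  have hnz : ∀ n z, 0 < z.im → Real.sqrt (max (Δ ^ 2 - ε ^ 2) 0) < z.im →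
      ((p n).eval (z + I * ε) + (p n).eval (z - I * ε)) / 2 ≠ 0 := by
    intro n z hz hz2 h0
    have h1 : Δ ^ 2 - ε ^ 2 < z.im ^ 2 := by
      have h2 := (Real.sqrt_lt' hz).mp hz2
      exact lt_of_le_of_lt (le_max_left _ _) h2
    refine lps_ne (hp0 n) (hpc n) hε (hpz n) z hz h1 ?_
    linear_combination 2 * h0
  refine ⟨fun n => Polynomial.C (1 / 2 : ℂ) * ((p n).comp (Polynomial.X + Polynomial.C (I * ε)) +
      (p n).comp (Polynomial.X - Polynomial.C (I * ε))), fun n h0 => ?_, fun n z => ?_, fun n z h0 => ?_, ?_⟩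
  · have h1 := hev n (I * ((Real.sqrt (max (Δ ^ 2 - ε ^ 2) 0) + 1 : ℝ) : ℂ))
    have h0' : Polynomial.C (1 / 2 : ℂ) * ((p n).comp (Polynomial.X + Polynomial.C (I * ε)) +
      (p n).comp (Polynomial.X - Polynomial.C (I * ε))) = 0 := h0
    rw [h0', Polynomial.eval_zero] at h1
    have hs := Real.sqrt_nonneg (max (Δ ^ 2 - ε ^ 2) 0)
    have him : (I * ((Real.sqrt (max (Δ ^ 2 - ε ^ 2) 0) + 1 : ℝ) : ℂ)).im =
        Real.sqrt (max (Δ ^ 2 - ε ^ 2) 0) + 1 := by
      rw [Complex.mul_im, Complex.I_re, Complex.I_im, Complex.ofReal_re, Complex.ofReal_im]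
      ring
    refine hnz n _ ?_ ?_ h1.symm
    · rw [him]
      linarith
    · rw [him]
      linarith
  · rw [hev, hev, hconj]
  · rw [hev] at h0
    by_contra hcon
    have hcon' := not_le.mp hcon
    have hs := Real.sqrt_nonneg (max (Δ ^ 2 - ε ^ 2) 0)
    rcases lt_trichotomy z.im 0 with hi | hi | hi
    · rw [abs_of_neg hi] at hcon'
      refine hnz n ((starRingEnd ℂ) z) ?_ ?_ ?_
      · rw [Complex.conj_im]
        linarith
      · rw [Complex.conj_im]
        exact hcon'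
      · rw [hconj, h0, map_zero]
    · rw [hi, abs_zero] at hcon'
      linarith
    · rw [abs_of_pos hi] at hcon'
      exact hnz n z hi hcon' h0
  · rw [Metric.tendstoLocallyUniformly_iff] at hpl ⊢
    intro η hη x
    obtain ⟨t1, ht1, h1⟩ := hpl η hη (x + I * ε)
    obtain ⟨t2, ht2, h2⟩ := hpl η hη (x - I * ε)
    have c1 : ContinuousAt (fun y : ℂ => y + I * ε) x := by fun_prop
    have c2 : ContinuousAt (fun y : ℂ => y - I * ε) x := by fun_prop
    refine ⟨(fun y : ℂ => y + I * ε) ⁻¹' t1 ∩ (fun y : ℂ => y - I * ε) ⁻¹' t2,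
      Filter.inter_mem (c1.preimage_mem_nhds ht1) (c2.preimage_mem_nhds ht2), ?_⟩
    filter_upwards [h1, h2] with n hn1 hn2 y hy
    have d1 := hn1 (y + I * ε) hy.1
    have d2 := hn2 (y - I * ε) hy.2
    rw [hev]
    rw [dist_eq_norm] at d1 d2 ⊢
    have e : (f (y + I * ε) + f (y - I * ε)) / 2 - ((p n).eval (y + I * ε) + (p n).eval (y - I * ε)) / 2 =
        ((f (y + I * ε) - (p n).eval (y + I * ε)) + (f (y - I * ε) - (p n).eval (y - I * ε))) / 2 := by ring
    rw [e, norm_div]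
    have h3 := norm_add_le (f (y + I * ε) - (p n).eval (y + I * ε)) (f (y - I * ε) - (p n).eval (y - I * ε))
    have h4 : ‖(2 : ℂ)‖ = 2 := by simp
    rw [h4]
    linarith

theorem LPc_lim {Δ : ℝ} {f : ℕ → ℂ → ℂ} {g : ℂ → ℂ} (hf : ∀ n, LPc Δ (f n))
    (h : TendstoLocallyUniformly f g atTop) : LPc Δ g := by
  have h1 : ∀ n : ℕ, ∃ q : Polynomial ℂ, q ≠ 0 ∧
      (∀ z, q.eval ((starRingEnd ℂ) z) = (starRingEnd ℂ) (q.eval z)) ∧
      (∀ z, q.eval z = 0 → |z.im| ≤ Δ) ∧
      ∀ z ∈ closedBall (0 : ℂ) n, dist (f n z) (q.eval z) < 1 / ((n : ℝ) + 1) := by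
    intro n
    obtain ⟨p, hp1, hp2, hp3, hp4⟩ := hf n
    have h2 := (tendstoLocallyUniformly_iff_forall_isCompact.1 hp4) (closedBall (0 : ℂ) n)
      (isCompact_closedBall _ _)
    rw [Metric.tendstoUniformlyOn_iff] at h2
    obtain ⟨k, hk⟩ := (h2 (1 / ((n : ℝ) + 1)) (by positivity)).exists
    exact ⟨p k, hp1 k, hp2 k, hp3 k, hk⟩
  choose q hq1 hq2 hq3 hq4 using h1
  refine ⟨q, hq1, hq2, hq3, ?_⟩
  rw [tendstoLocallyUniformly_iff_forall_isCompact]
  intro K hK
  rw [Metric.tendstoUniformlyOn_iff]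
  intro ε hε
  have h2 := (tendstoLocallyUniformly_iff_forall_isCompact.1 h) K hK
  rw [Metric.tendstoUniformlyOn_iff] at h2
  obtain ⟨R, hR⟩ := hK.isBounded.subset_closedBall (0 : ℂ)
  obtain ⟨N1, hN1⟩ := exists_nat_ge R
  obtain ⟨N2, hN2⟩ := exists_nat_gt (2 / ε)
  filter_upwards [h2 (ε / 2) (half_pos hε), eventually_ge_atTop N1, eventually_ge_atTop N2]
    with n hn1 hn2 hn3 z hz
  have h3 := hn1 z hz
  have hn2' : (N1 : ℝ) ≤ n := by exact_mod_cast hn2
  have hn3' : (N2 : ℝ) ≤ n := by exact_mod_cast hn3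
  have h4 := hq4 n z (closedBall_subset_closedBall (hN1.trans hn2') (hR hz))
  have h5 : 1 / ((n : ℝ) + 1) ≤ ε / 2 := by
    rw [div_le_div_iff₀ (by positivity) (by norm_num)]
    have h6 : 2 / ε < (n : ℝ) + 1 := by linarith
    rw [div_lt_iff₀ hε] at h6
    linarith
  calc dist (g z) ((q n).eval z) ≤ dist (g z) (f n z) + dist (f n z) ((q n).eval z) :=
        dist_triangle _ _ _
    _ < ε / 2 + ε / 2 := by linarith
    _ = ε := add_halves ε

theorem LPc_zero {Δ : ℝ} {f : ℂ → ℂ} (hf : LPc Δ f) (hne : ∃ z, f z ≠ 0) (z : ℂ) (hz : f z = 0) :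
    |z.im| ≤ Δ := by
  obtain ⟨p, hp1, hp2, hp3, hp4⟩ := hf
  have hdf : Differentiable ℂ f := by
    have h1 : DifferentiableOn ℂ f univ := by
      refine TendstoLocallyUniformlyOn.differentiableOn (φ := atTop)
        (F := fun n z => (p n).eval z) (tendstoLocallyUniformlyOn_univ.2 hp4) ?_ isOpen_univ
      exact Filter.Eventually.of_forall fun n => (p n).differentiable.differentiableOn
    exact differentiableOn_univ.1 h1
  have han : AnalyticOnNhd ℂ f univ := fun w _ => hdf.analyticAt w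
  by_contra hcon
  rw [not_le] at hcon
  rcases (han z (mem_univ z)).eventually_eq_zero_or_eventually_ne_zero with h0 | h0
  · obtain ⟨w, hw⟩ := hne
    have h1 : f = fun _ => 0 := by
      refine AnalyticOnNhd.eq_of_eventuallyEq han (g := fun _ => (0 : ℂ))
        (fun w _ => analyticAt_const) (z₀ := z) ?_
      exact h0
    exact hw (by rw [h1])
  rw [eventually_nhdsWithin_iff, Metric.eventually_nhds_iff] at h0
  obtain ⟨r0, hr0, hr1⟩ := h0
  obtain ⟨r, hr⟩ : ∃ r, r = min (r0 / 2) ((|z.im| - Δ) / 2) := ⟨_, rfl⟩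
  have hrpos : 0 < r := by
    rw [hr]
    exact lt_min (by linarith) (by linarith)
  have hrr0 : r < r0 := by
    rw [hr]
    exact (min_le_left _ _).trans_lt (by linarith)
  have hrD : r < |z.im| - Δ := by
    rw [hr]
    exact (min_le_right _ _).trans_lt (by linarith)
  have hsne : ∀ w ∈ sphere z r, f w ≠ 0 := by
    intro w hw
    rw [mem_sphere] at hw
    refine hr1 (by rw [hw]; exact hrr0) ?_
    rintro rfl
    rw [dist_self] at hw
    exact hrpos.ne hw
  have hne2 : (sphere z r).Nonempty := NormedSpace.sphere_nonempty.2 hrpos.le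
  obtain ⟨w0, hw0, hmin⟩ := (isCompact_sphere z r).exists_isMinOn hne2 hdf.continuous.norm.continuousOn
  have hmu : 0 < ‖f w0‖ := norm_pos_iff.2 (hsne w0 hw0)
  have h2 := (tendstoLocallyUniformly_iff_forall_isCompact.1 hp4) (closedBall z r)
    (isCompact_closedBall _ _)
  rw [Metric.tendstoUniformlyOn_iff] at h2
  obtain ⟨n, hn⟩ := (h2 (‖f w0‖ / 2) (half_pos hmu)).exists
  have hpn : ∀ w ∈ closedBall z r, (p n).eval w ≠ 0 := by
    intro w hw h3
    have h4 := hp3 n w h3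
    have h5 : |w.im - z.im| ≤ r := by
      have h6 := Complex.abs_im_le_norm (w - z)
      rw [Complex.sub_im] at h6
      rw [mem_closedBall, dist_eq_norm] at hw
      exact h6.trans hw
    have h7 : |z.im| ≤ |w.im| + |w.im - z.im| := by
      have := abs_sub_abs_le_abs_sub z.im w.im
      rw [abs_sub_comm z.im w.im] at this
      linarith
    linarith
  have hG : DiffContOnCl ℂ (fun w => ((p n).eval w)⁻¹) (ball z r) := by
    refine DifferentiableOn.diffContOnCl ?_
    rw [closure_ball z hrpos.ne']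
    exact ((p n).differentiable.differentiableOn).inv hpn
  have hle := Complex.norm_le_of_forall_mem_frontier_norm_le isBounded_ball hG
    (C := (‖f w0‖ / 2)⁻¹) (z := z) (by
      intro w hw
      rw [frontier_ball z hrpos.ne'] at hw
      rw [norm_inv]
      refine inv_anti₀ (half_pos hmu) ?_
      have h3 := hn w (sphere_subset_closedBall hw)
      have h4 : ‖f w0‖ ≤ ‖f w‖ := hmin hw
      rw [dist_eq_norm] at h3
      have h5 := norm_sub_norm_le (f w) ((p n).eval w)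
      linarith) (by
      rw [closure_ball z hrpos.ne']
      exact mem_closedBall_self hrpos.le)
  rw [norm_inv] at hle
  have h3 := hn z (mem_closedBall_self hrpos.le)
  rw [hz, dist_zero_left] at h3
  have hpz : 0 < ‖(p n).eval z‖ := norm_pos_iff.2 (hpn z (mem_closedBall_self hrpos.le))
  have h4 := (inv_le_inv₀ hpz (half_pos hmu)).1 hle
  linarith

end Pool.Agent.Lib.MP_ec260d_ntC
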