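import Mathlib
import Pool.Agent.Lib.MP_00e05b_nt.Factor
import Pool.Agent.Lib.MP_00e05b_nt.Count

/-!
# JOB Had: an even entire function of growth exponent 3/2 is a limit of polynomials with zeros among its zeros (about 300 lines)

For `R > 0` the set `S_R = {a : f a = 0, ‖a‖ ≤ R}` is finite (`finite_zeros` of `MP_00e05b_nt/Count.lean` needs `Growth`; or: zeros of a nonzero entire function in a compact set are finite).  `exists_factor'` (`MP_00e05b_nt/Factor.lean`, `f 0 ≠ 0`) gives `f z = P_R(z) g_R(z)`, `P_R(z) = ∏_{a ∈ S_R} (1 - z/a)^(order a)`, `g_R` entire without zeros in `‖z‖ ≤ R`, `g_R 0 = f 0`.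
Polynomials: `p_n = C (f 0) * ∏_{a ∈ S_n} (1 - X/a)^(order a)`.
(1) `g_R` is even: `P_R(-z) = P_R(z)` because `a ↦ -a` preserves `S_R` and the orders; cancel (`P_R` is not identically zero, both sides are continuous/analytic).
(2) For `‖z‖ = 3R`, `a ∈ S_R`: `‖1 - z/a‖ ≥ 3 - 1 ≥ 1`, so `‖g_R z‖ ≤ ‖f z‖ ≤ exp (C (1 + 3R)^(3/2))` there, hence for `‖z‖ ≤ 3R` (maximum principle; `norm_le_of_sphere` in `MP_00e05b_nt/Count.lean`).
(3) On `ball 0 R`, `g_R = g_R(0) exp h`, `h` analytic, `h 0 = 0` (`exists_log_ball` in `MP_00e05b_nt/PartialFrac.lean` or Mathlib `BranchLogRoot`); `Re h ≤ C (1 + 3R)^(3/2) - log ‖f 0‖ =: M_R ≤ C' R^(3/2)` (`R ≥ 1`, `C' ≥ 1`).  Borel-Carathéodory (`Complex.borelCaratheodory_zero`): `‖h‖ ≤ 2 M_R` for `‖z‖ ≤ R/2`.  `h` is even (`exp h` even and `h 0 = 0`: `h(-z) - h(z)` is continuous with values in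
`2πiℤ`, `= 0` at `0`), so `h'(0) = 0`, and by the Schwarz lemma type estimate (`h(z)/z²` analytic; or Cauchy coefficients) `‖h z‖ ≤ 2 M_R (2‖z‖/R)² ≤ 8 C' ‖z‖² R^(-1/2)` for `‖z‖ ≤ R/2`.  So `h → 0`, `g_R → f 0` locally uniformly, and `f - p_n = P_n (g_n - f 0) = f (1 - f 0 / g_n) → 0` locally uniformly.
Conjugation: if `f (conj z) = conj (f z)` the set `S_n` and the orders are invariant under conjugation and `f 0` is real, so `p_n (conj z) = conj (p_n z)`.
Finite zero set: `S_n` is constant for large `n`, so `p_n = q` is constant and `f = q`.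
-/

namespace Pool.Agent.Lib.MP_ec260d_ntC

open Complex Set Filter Topology Metric MeasureTheory Polynomial


private theorem Had_ord {f g : ℂ → ℂ} (hf : Differentiable ℂ f) (hg : Differentiable ℂ g) {b : ℂ}
    {m : ℕ} (h : ∀ z, f z = (z - b) ^ m * g z) (hb : g b ≠ 0) : analyticOrderNatAt f b = m := by
  have h1 : analyticOrderAt f b = (m : ℕ∞) := by
    rw [(hf.analyticAt b).analyticOrderAt_eq_natCast]
    exact ⟨g, hg.analyticAt b, hb, Eventually.of_forall fun z => by rw [h z, smul_eq_mul]⟩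
  rw [analyticOrderNatAt, h1]
  rfl

private theorem Had_neg {f : ℂ → ℂ} (hf : Differentiable ℂ f) (he : ∀ z, f (-z) = f z)
    (h0 : f 0 ≠ 0) (a : ℂ) : analyticOrderNatAt f (-a) = analyticOrderNatAt f a := by
  obtain ⟨g, hg, hfg, hne⟩ := Pool.Agent.Lib.MP_00e05b_nt.exists_factor_one hf h0 a
  refine Had_ord (g := fun z => (-1) ^ (analyticOrderNatAt f a) * g (-z)) hf ?_ ?_ ?_
  · exact (hg.comp differentiable_neg).const_mul _
  · intro z
    rw [← he z, hfg (-z), ← mul_assoc, ← mul_pow]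
    congr 2
    ring
  · show (-1) ^ (analyticOrderNatAt f a) * g (- -a) ≠ 0
    rw [neg_neg]
    exact mul_ne_zero (pow_ne_zero _ (by norm_num)) hne

private theorem Had_conj {f : ℂ → ℂ} (hf : Differentiable ℂ f)
    (hc : ∀ z, f ((starRingEnd ℂ) z) = (starRingEnd ℂ) (f z)) (h0 : f 0 ≠ 0) (a : ℂ) :
    analyticOrderNatAt f ((starRingEnd ℂ) a) = analyticOrderNatAt f a := by
  obtain ⟨g, hg, hfg, hne⟩ := Pool.Agent.Lib.MP_00e05b_nt.exists_factor_one hf h0 a
  refine Had_ord (g := fun z => (starRingEnd ℂ) (g ((starRingEnd ℂ) z))) hf ?_ ?_ ?_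
  · intro z
    have h1 := (hg ((starRingEnd ℂ) z)).conj_conj
    rw [Complex.conj_conj] at h1
    exact h1
  · intro z
    have h1 : f z = (starRingEnd ℂ) (f ((starRingEnd ℂ) z)) := by
      rw [hc z, Complex.conj_conj]
    show f z = (z - (starRingEnd ℂ) a) ^ (analyticOrderNatAt f a) *
      (starRingEnd ℂ) (g ((starRingEnd ℂ) z))
    rw [h1, hfg, map_mul, map_pow, map_sub, Complex.conj_conj]
  · show (starRingEnd ℂ) (g ((starRingEnd ℂ) ((starRingEnd ℂ) a))) ≠ 0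
    rw [Complex.conj_conj]
    exact (_root_.map_ne_zero _).mpr hne

private theorem Had_log {g : ℂ → ℂ} (hg : Differentiable ℂ g) {R : ℝ}
    (hR : 0 < R) (hne : ∀ z ∈ ball (0 : ℂ) R, g z ≠ 0) :
    ∃ h : ℂ → ℂ, h 0 = 0 ∧ (∀ z ∈ ball (0 : ℂ) R, HasDerivAt h (logDeriv g z) z) ∧
      ∀ z ∈ ball (0 : ℂ) R, g z = g 0 * Complex.exp (h z) := by
  have h1 : DifferentiableOn ℂ (logDeriv g) (ball (0 : ℂ) R) := by
    intro z hz
    have : DifferentiableAt ℂ (fun z => deriv g z / g z) z := by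
      refine DifferentiableAt.div ?_ (hg z) (hne z hz)
      exact (hg.analyticAt z).deriv.differentiableAt
    exact this.differentiableWithinAt
  obtain ⟨h, h0, hh⟩ := (h1.isExactOn_ball).with_val_at 0 0
  refine ⟨h, h0, hh, ?_⟩
  intro z hz
  set φ : ℂ → ℂ := fun z => g z * Complex.exp (-h z) with hφ
  have hd : ∀ w ∈ ball (0 : ℂ) R, HasDerivAt φ 0 w := by
    intro w hw
    have e1 := (hg w).hasDerivAt.mul ((hh w hw).neg.cexp)
    refine e1.congr_deriv ?_
    rw [logDeriv_apply]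
    field_simp [hne w hw]
    ring
  have h2 : φ z = φ 0 := by
    refine isOpen_ball.is_const_of_deriv_eq_zero (convex_ball 0 R).isPreconnected
      (fun w hw => (hd w hw).differentiableAt.differentiableWithinAt) ?_ hz
      (mem_ball_self hR)
    intro w hw
    exact (hd w hw).deriv
  rw [hφ] at h2
  simp only [h0, neg_zero, Complex.exp_zero, mul_one] at h2
  rw [← h2, mul_assoc, ← Complex.exp_add, neg_add_cancel, Complex.exp_zero, mul_one]

private theorem Had_main {f : ℂ → ℂ} {C : ℝ} (hG : Pool.Agent.Lib.MP_00e05b_nt.Growth f C)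
    (he : ∀ z, f (-z) = f z)
    (hb : ∀ z, ‖f z‖ ≤ Real.exp (C * (1 + ‖z‖) ^ (3 / 2 : ℝ))) {R : ℝ} (hR : 0 < R) {z : ℂ}
    (hz : ‖z‖ < R / 2)
    (hsm : 8 * (C * (1 + 3 * R) ^ (3 / 2 : ℝ) + |Real.log ‖f 0‖| + 1) * ‖z‖ ^ 2 / R ^ 2 ≤ 1) :
    ‖f z - f 0 * ∏ a ∈ Pool.Agent.Lib.MP_00e05b_nt.zs f R, (1 - z / a) ^ (analyticOrderNatAt f a)‖ ≤
      ‖f z‖ * (2 * (8 * (C * (1 + 3 * R) ^ (3 / 2 : ℝ) + |Real.log ‖f 0‖| + 1) *
        ‖z‖ ^ 2 / R ^ 2)) := by
  have hf := hG.diff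
  have h0 := hG.ne
  have hC := hG.nonneg
  set S := Pool.Agent.Lib.MP_00e05b_nt.zs f R with hS
  have hmem : ∀ a, a ∈ S ↔ f a = 0 ∧ ‖a‖ ≤ R := fun a =>
    Pool.Agent.Lib.MP_00e05b_nt.mem_zs hG R a
  set M : ℝ := C * (1 + 3 * R) ^ (3 / 2 : ℝ) + |Real.log ‖f 0‖| + 1 with hM
  have hM0 : 0 < M := by
    have h1 : 0 ≤ (1 + 3 * R) ^ (3 / 2 : ℝ) := Real.rpow_nonneg (by positivity) _
    have h2 : 0 ≤ C * (1 + 3 * R) ^ (3 / 2 : ℝ) := mul_nonneg hC h1
    have h3 := abs_nonneg (Real.log ‖f 0‖)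
    linarith
  obtain ⟨g, hg, hfg, hgne, hg0⟩ := Pool.Agent.Lib.MP_00e05b_nt.exists_factor' hf h0 S
    (fun a ha => ((hmem a).mp ha).1)
  set P : ℂ → ℂ := fun w => ∏ a ∈ S, (1 - w / a) ^ (analyticOrderNatAt f a) with hP
  have hfP : ∀ w, f w = P w * g w := hfg
  -- `g` has no zeros in the ball
  have hgn : ∀ w ∈ ball (0 : ℂ) R, g w ≠ 0 := by
    intro w hw hgw
    rw [mem_ball_zero_iff] at hw
    have h1 : w ∈ S := (hmem w).mpr ⟨by rw [hfP, hgw, mul_zero], hw.le⟩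
    exact hgne w h1 hgw
  -- `P` is even
  have hPe : ∀ w, P (-w) = P w := by
    intro w
    refine Finset.prod_nbij' (fun a => -a) (fun a => -a) ?_ ?_ ?_ ?_ ?_
    · intro a ha
      rw [hmem] at ha ⊢
      rw [he, norm_neg]
      exact ha
    · intro a ha
      rw [hmem] at ha ⊢
      rw [he, norm_neg]
      exact ha
    · intro a _
      exact neg_neg a
    · intro a _
      exact neg_neg a
    · intro a _
      show (1 - -w / a) ^ (analyticOrderNatAt f a) = (1 - w / -a) ^ (analyticOrderNatAt f (-a))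
      rw [Had_neg hf he h0 a, neg_div, div_neg]
  -- the derivative of `g` at `0`
  have hgd : deriv g 0 = 0 := by
    have h1 : ∀ᶠ w in 𝓝 (0 : ℂ), f w ≠ 0 := hf.continuous.continuousAt.eventually_ne h0
    have h2 : (fun w => g (-w)) =ᶠ[𝓝 (0 : ℂ)] g := by
      filter_upwards [h1] with w hw
      have h3 : P w ≠ 0 := by
        intro h
        exact hw (by rw [hfP, h, zero_mul])
      have h4 : P w * g (-w) = P w * g w := by
        rw [← hPe w, ← hfP, he, hfP, hPe]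
      exact mul_left_cancel₀ h3 h4
    have h5 : deriv (fun w => g (-w)) 0 = deriv g 0 := h2.deriv_eq
    rw [deriv_comp_neg, neg_zero] at h5
    have h6 : (2 : ℂ) * deriv g 0 = 0 := by linear_combination -h5
    exact (mul_eq_zero.mp h6).resolve_left two_ne_zero
  -- growth of `g`
  have hsph : ∀ w, ‖w‖ = 3 * R → ‖g w‖ ≤ Real.exp (C * (1 + 3 * R) ^ (3 / 2 : ℝ)) := by
    intro w hw
    have h1 := hb w
    rw [hfP w, norm_mul, hw] at h1
    have h2 : 1 ≤ ‖P w‖ := by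
      rw [hP]
      show 1 ≤ ‖∏ a ∈ S, (1 - w / a) ^ (analyticOrderNatAt f a)‖
      rw [norm_prod]
      refine le_trans (le_of_eq (Finset.prod_const_one (s := S)).symm) ?_
      refine Finset.prod_le_prod (fun a _ => zero_le_one) ?_
      intro a ha
      rw [norm_pow]
      apply one_le_pow₀
      have ha0 : a ≠ 0 := by
        rintro rfl
        exact h0 ((hmem 0).mp ha).1
      have hap : 0 < ‖a‖ := norm_pos_iff.2 ha0
      have h3 : ‖w / a‖ = 3 * R / ‖a‖ := by rw [norm_div, hw]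
      have h4 : 3 ≤ 3 * R / ‖a‖ := by
        rw [le_div_iff₀ hap]
        have := ((hmem a).mp ha).2
        linarith
      have h5 : ‖w / a‖ - ‖(1 : ℂ)‖ ≤ ‖w / a - 1‖ := norm_sub_norm_le _ _
      rw [norm_one, h3] at h5
      rw [norm_sub_rev]
      linarith
    calc ‖g w‖ = 1 * ‖g w‖ := (one_mul _).symm
      _ ≤ ‖P w‖ * ‖g w‖ := mul_le_mul_of_nonneg_right h2 (norm_nonneg _)
      _ ≤ _ := h1
  have hgb : ∀ w, ‖w‖ ≤ 3 * R → ‖g w‖ ≤ Real.exp (C * (1 + 3 * R) ^ (3 / 2 : ℝ)) := fun w hw =>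
    Pool.Agent.Lib.MP_00e05b_nt.norm_le_of_sphere hg (by positivity) hsph hw
  obtain ⟨h, hh0, hh, hexp⟩ := Had_log hg hR hgn
  have hf0 : 0 < ‖f 0‖ := norm_pos_iff.2 h0
  have hre : ∀ w ∈ ball (0 : ℂ) R, (h w).re ≤ M := by
    intro w hw
    have hw' := mem_ball_zero_iff.mp hw
    have h1 := hgb w (by linarith)
    rw [hexp w hw, norm_mul, Complex.norm_exp, hg0] at h1
    have h2 : Real.exp (Real.log ‖f 0‖ + (h w).re) ≤
        Real.exp (C * (1 + 3 * R) ^ (3 / 2 : ℝ)) := by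
      rw [Real.exp_add, Real.exp_log hf0]
      exact h1
    have h3 := Real.exp_le_exp.mp h2
    have h4 := neg_abs_le (Real.log ‖f 0‖)
    linarith
  have hdiff : DifferentiableOn ℂ h (ball 0 R) := fun w hw =>
    (hh w hw).differentiableAt.differentiableWithinAt
  have hbound : ∀ w : ℂ, ‖w‖ ≤ R / 2 → ‖h w‖ ≤ 2 * M := by
    intro w hw
    have hw' : w ∈ ball (0 : ℂ) R := by
      rw [mem_ball_zero_iff]; linarith
    have h3 := borelCaratheodory_zero hM0 hdiff (fun w hw => hre w hw) hR hw' hh0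
    refine h3.trans ?_
    rw [div_le_iff₀ (by linarith)]
    have : 2 * M * ‖w‖ ≤ 2 * M * (R / 2) := by gcongr
    nlinarith
  have hz' : z ∈ ball (0 : ℂ) (R / 2) := mem_ball_zero_iff.mpr hz
  have hzR : z ∈ ball (0 : ℂ) R := by
    rw [mem_ball_zero_iff]
    linarith
  have hsub : ball (0 : ℂ) (R / 2) ⊆ ball (0 : ℂ) R := ball_subset_ball (by linarith)
  have hlit : (fun w => h w - h 0) =o[𝓝 (0 : ℂ)] (fun w : ℂ => ‖w - 0‖ ^ 1) := by
    have h1 := hh 0 (mem_ball_self hR)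
    rw [logDeriv_apply, hgd, zero_div, hasDerivAt_iff_isLittleO] at h1
    simp only [smul_zero, sub_zero] at h1
    have h2 : (fun w : ℂ => ‖w - 0‖ ^ 1) = fun w : ℂ => ‖w‖ := by
      funext w
      rw [sub_zero, pow_one]
    rw [h2]
    exact h1.norm_right
  have hmaps : MapsTo h (ball (0 : ℂ) (R / 2)) (closedBall (h 0) (2 * M)) := by
    intro w hw
    rw [hh0, mem_closedBall_zero_iff]
    exact hbound w (mem_ball_zero_iff.mp hw).le
  have hsch := dist_le_mul_div_pow_of_mapsTo_ball_of_isLittleO (hdiff.mono hsub) hmaps hlit hz'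
  have hhz : ‖h z‖ ≤ 8 * M * ‖z‖ ^ 2 / R ^ 2 := by
    rw [hh0, dist_zero_right, dist_zero_right] at hsch
    refine hsch.trans (le_of_eq ?_)
    have e1 : ‖z‖ / (R / 2) = 2 * ‖z‖ / R := by
      field_simp
    rw [e1, div_pow]
    ring
  have hexp1 : ‖cexp (-h z) - 1‖ ≤ 2 * (8 * M * ‖z‖ ^ 2 / R ^ 2) := by
    have h1 : ‖-h z‖ ≤ 1 := by
      rw [norm_neg]
      exact hhz.trans hsm
    refine (Complex.norm_exp_sub_one_le h1).trans ?_
    rw [norm_neg]
    linarith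
  have hfin : f z - f 0 * P z = f z * -(cexp (-h z) - 1) := by
    have h1 : f z = P z * (f 0 * cexp (h z)) := by
      rw [hfP z, hexp z hzR, hg0]
    have h2 : cexp (h z) * cexp (-h z) = 1 := by
      rw [← Complex.exp_add, add_neg_cancel, Complex.exp_zero]
    have h3 : f z * cexp (-h z) = f 0 * P z := by
      rw [h1]
      linear_combination (P z * f 0) * h2
    linear_combination h3
  show ‖f z - f 0 * P z‖ ≤ _
  rw [hfin, norm_mul, norm_neg]
  exact mul_le_mul_of_nonneg_left hexp1 (norm_nonneg _)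

private theorem Had_lim (C D : ℝ) :
    Tendsto (fun n : ℕ => 8 * (C * (1 + 3 * (n : ℝ)) ^ (3 / 2 : ℝ) + D) / (n : ℝ) ^ 2) atTop
      (𝓝 0) := by
  have h1 : Tendsto (fun n : ℕ => (1 + 3 * (n : ℝ)) ^ (3 / 2 : ℝ) / (n : ℝ) ^ 2) atTop (𝓝 0) := by
    have h2 : Tendsto (fun n : ℕ => 8 * (n : ℝ) ^ (-(1 / 2) : ℝ)) atTop (𝓝 (8 * 0)) :=
      ((tendsto_rpow_neg_atTop (by norm_num)).comp tendsto_natCast_atTop_atTop).const_mul 8
    rw [mul_zero] at h2
    refine squeeze_zero' (Eventually.of_forall fun n => by positivity) ?_ h2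
    filter_upwards [eventually_ge_atTop 1] with n hn
    have hn1 : (1 : ℝ) ≤ n := by exact_mod_cast hn
    have hn0 : (0 : ℝ) < n := by linarith
    have h3 : (1 + 3 * (n : ℝ)) ^ (3 / 2 : ℝ) ≤ (4 * (n : ℝ)) ^ (3 / 2 : ℝ) :=
      Real.rpow_le_rpow (by positivity) (by linarith) (by norm_num)
    have h4 : (4 : ℝ) ^ (3 / 2 : ℝ) = 8 := by
      rw [show (4 : ℝ) = 2 ^ (2 : ℝ) by norm_num, ← Real.rpow_mul (by norm_num)]
      norm_num
    have h5 : (4 * (n : ℝ)) ^ (3 / 2 : ℝ) / (n : ℝ) ^ 2 = 8 * (n : ℝ) ^ (-(1 / 2) : ℝ) := by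
      rw [Real.mul_rpow (by norm_num) hn0.le, h4, ← Real.rpow_natCast (n : ℝ) 2, mul_div_assoc,
        ← Real.rpow_sub hn0]
      norm_num
    rw [← h5]
    exact div_le_div_of_nonneg_right h3 (by positivity)
  have h6 : Tendsto (fun n : ℕ => D / (n : ℝ) ^ 2) atTop (𝓝 0) := by
    apply Tendsto.div_atTop tendsto_const_nhds
    exact (tendsto_pow_atTop (by norm_num)).comp tendsto_natCast_atTop_atTop
  have h7 := ((h1.const_mul C).add h6).const_mul 8
  rw [mul_zero, add_zero, mul_zero] at h7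
  refine h7.congr (fun n => ?_)
  ring

private theorem Had_eval {f : ℂ → ℂ} (c : ℂ) (S : Finset ℂ) (z : ℂ) :
    (Polynomial.C c * ∏ a ∈ S, (1 - Polynomial.X * Polynomial.C (1 / a)) ^
      (analyticOrderNatAt f a)).eval z = c * ∏ a ∈ S, (1 - z / a) ^ (analyticOrderNatAt f a) := by
  rw [Polynomial.eval_mul, Polynomial.eval_C, Polynomial.eval_prod]
  congr 1
  apply Finset.prod_congr rfl
  intro a _
  rw [Polynomial.eval_pow, Polynomial.eval_sub, Polynomial.eval_one, Polynomial.eval_mul,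
    Polynomial.eval_X, Polynomial.eval_C, mul_one_div]

theorem had (f : ℂ → ℂ) (hf : Differentiable ℂ f) (he : ∀ z, f (-z) = f z) (h0 : f 0 ≠ 0) (K : ℝ)
    (hK : ∀ z, ‖f z‖ ≤ Real.exp (K * (1 + ‖z‖) ^ (3 / 2 : ℝ))) :
    ∃ p : ℕ → Polynomial ℂ, (∀ n, p n ≠ 0) ∧ (∀ n z, (p n).eval z = 0 → f z = 0) ∧
      TendstoLocallyUniformly (fun n z => (p n).eval z) f atTop ∧
      ((∀ z, f ((starRingEnd ℂ) z) = (starRingEnd ℂ) (f z)) →
        ∀ n z, (p n).eval ((starRingEnd ℂ) z) = (starRingEnd ℂ) ((p n).eval z)) ∧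
      ({z | f z = 0}.Finite → ∃ q : Polynomial ℂ, ∀ z, f z = q.eval z) := by
  classical
  set C : ℝ := |K| with hCdef
  have hC0 : 0 ≤ C := abs_nonneg K
  have hb : ∀ z, ‖f z‖ ≤ Real.exp (C * (1 + ‖z‖) ^ (3 / 2 : ℝ)) := by
    intro z
    refine (hK z).trans (Real.exp_le_exp.mpr ?_)
    exact mul_le_mul_of_nonneg_right (le_abs_self K) (Real.rpow_nonneg (by positivity) _)
  have hG : Pool.Agent.Lib.MP_00e05b_nt.Growth f C := by
    refine ⟨hf, h0, hC0, fun z => (hb z).trans (Real.exp_le_exp.mpr ?_)⟩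
    have h1 : (1 : ℝ) ≤ 1 + ‖z‖ := by
      have := norm_nonneg z
      linarith
    have h2 : (1 + ‖z‖) ^ (3 / 2 : ℝ) ≤ (1 + ‖z‖) ^ 2 := by
      rw [← Real.rpow_natCast (1 + ‖z‖) 2]
      exact Real.rpow_le_rpow_of_exponent_le h1 (by norm_num)
    exact mul_le_mul_of_nonneg_left h2 hC0
  set S : ℕ → Finset ℂ := fun n => Pool.Agent.Lib.MP_00e05b_nt.zs f (n : ℝ) with hS
  have hmem : ∀ n a, a ∈ S n ↔ f a = 0 ∧ ‖a‖ ≤ n := fun n a =>
    Pool.Agent.Lib.MP_00e05b_nt.mem_zs hG n a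
  set p : ℕ → Polynomial ℂ := fun n => Polynomial.C (f 0) *
    ∏ a ∈ S n, (1 - Polynomial.X * Polynomial.C (1 / a)) ^ (analyticOrderNatAt f a) with hp
  have hev : ∀ n z, (p n).eval z = f 0 * ∏ a ∈ S n, (1 - z / a) ^ (analyticOrderNatAt f a) :=
    fun n z => Had_eval (f 0) (S n) z
  have hconv : TendstoLocallyUniformly (fun n z => (p n).eval z) f atTop := by
    rw [Metric.tendstoLocallyUniformly_iff]
    intro ε hε x
    set ρ : ℝ := ‖x‖ + 1 with hρ
    have hρ0 : 0 < ρ := by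
      have := norm_nonneg x
      linarith
    refine ⟨ball 0 ρ, isOpen_ball.mem_nhds (by rw [mem_ball_zero_iff]; linarith), ?_⟩
    set B : ℝ := Real.exp (C * (1 + ρ) ^ (3 / 2 : ℝ)) with hB
    have hB0 : 0 < B := Real.exp_pos _
    have hl := Had_lim C (|Real.log ‖f 0‖| + 1)
    have hl2 := hl.mul_const (ρ ^ 2)
    rw [zero_mul] at hl2
    have hmin : 0 < min 1 (ε / (2 * B)) := lt_min one_pos (by positivity)
    filter_upwards [hl2.eventually_lt_const hmin, eventually_gt_atTop ⌈2 * ρ⌉₊] with n hn hn2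
    intro z hz
    rw [mem_ball_zero_iff] at hz
    have hn3 : 2 * ρ < n := lt_of_le_of_lt (Nat.le_ceil _) (by exact_mod_cast hn2)
    have hnpos : (0 : ℝ) < n := by linarith
    set δ : ℝ := 8 * (C * (1 + 3 * (n : ℝ)) ^ (3 / 2 : ℝ) + |Real.log ‖f 0‖| + 1) *
      ‖z‖ ^ 2 / (n : ℝ) ^ 2 with hδ
    have hz2 : ‖z‖ ^ 2 ≤ ρ ^ 2 := pow_le_pow_left₀ (norm_nonneg z) hz.le 2
    have hδ1 : δ ≤ 8 * (C * (1 + 3 * (n : ℝ)) ^ (3 / 2 : ℝ) + (|Real.log ‖f 0‖| + 1)) /
        (n : ℝ) ^ 2 * ρ ^ 2 := by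
      have e1 : δ = 8 * (C * (1 + 3 * (n : ℝ)) ^ (3 / 2 : ℝ) + (|Real.log ‖f 0‖| + 1)) /
        (n : ℝ) ^ 2 * ‖z‖ ^ 2 := by
        rw [hδ]
        ring
      rw [e1]
      exact mul_le_mul_of_nonneg_left hz2 (by positivity)
    have hδ2 : δ < min 1 (ε / (2 * B)) := lt_of_le_of_lt hδ1 hn
    have hδ3 : δ ≤ 1 := (hδ2.le).trans (min_le_left _ _)
    have hδ4 : δ < ε / (2 * B) := lt_of_lt_of_le hδ2 (min_le_right _ _)
    have hmain := Had_main hG he hb hnpos (z := z) (by linarith) hδ3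
    have hfz : ‖f z‖ ≤ B := by
      refine (hb z).trans (Real.exp_le_exp.mpr ?_)
      exact mul_le_mul_of_nonneg_left
        (Real.rpow_le_rpow (by positivity) (by linarith) (by norm_num)) hC0
    have hδ0 : 0 ≤ δ := by
      rw [hδ]
      positivity
    rw [dist_eq_norm, hev]
    refine lt_of_le_of_lt hmain ?_
    calc ‖f z‖ * (2 * δ) ≤ B * (2 * δ) := mul_le_mul_of_nonneg_right hfz (by positivity)
      _ < B * (2 * (ε / (2 * B))) := by
        apply mul_lt_mul_of_pos_left _ hB0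
        linarith
      _ = ε := by field_simp
  refine ⟨p, ?_, ?_, hconv, ?_, ?_⟩
  · intro n hn
    have h1 := hev n 0
    rw [hn, Polynomial.eval_zero] at h1
    have h2 : ∏ a ∈ S n, (1 - 0 / a) ^ (analyticOrderNatAt f a) = 1 := by
      apply Finset.prod_eq_one
      intro a _
      rw [zero_div, sub_zero, one_pow]
    rw [h2, mul_one] at h1
    exact h0 h1.symm
  · intro n z hz
    rw [hev] at hz
    have h1 := (mul_eq_zero.mp hz).resolve_left h0
    rw [Finset.prod_eq_zero_iff] at h1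
    obtain ⟨a, ha, haz⟩ := h1
    have h2 := (pow_eq_zero_iff
      (Pool.Agent.Lib.MP_00e05b_nt.order_pos hf h0 ((hmem n a).mp ha).1).ne').mp haz
    have ha0 : a ≠ 0 := by
      rintro rfl
      exact h0 ((hmem n 0).mp ha).1
    have h3 : z = a := by
      have h4 : z / a = 1 := (sub_eq_zero.mp h2).symm
      rwa [div_eq_one_iff_eq ha0] at h4
    rw [h3]
    exact ((hmem n a).mp ha).1
  · intro hc n z
    rw [hev, hev, map_mul, map_prod]
    have hf0 : (starRingEnd ℂ) (f 0) = f 0 := by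
      rw [← hc 0, map_zero]
    rw [hf0]
    congr 1
    refine Finset.prod_nbij' (fun a => (starRingEnd ℂ) a) (fun a => (starRingEnd ℂ) a) ?_ ?_ ?_ ?_ ?_
    · intro a ha
      rw [hmem] at ha ⊢
      rw [hc, Complex.norm_conj, ha.1, map_zero]
      exact ⟨rfl, ha.2⟩
    · intro a ha
      rw [hmem] at ha ⊢
      rw [hc, Complex.norm_conj, ha.1, map_zero]
      exact ⟨rfl, ha.2⟩
    · intro a _
      exact Complex.conj_conj a
    · intro a _
      exact Complex.conj_conj a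
    · intro a _
      show (1 - (starRingEnd ℂ) z / a) ^ (analyticOrderNatAt f a) =
        (starRingEnd ℂ) ((1 - z / (starRingEnd ℂ) a) ^ (analyticOrderNatAt f ((starRingEnd ℂ) a)))
      rw [Had_conj hf hc h0 a, map_pow, map_sub, map_one, map_div₀, Complex.conj_conj]
  · intro hfin
    obtain ⟨r, hr⟩ : ∃ r : ℝ, ∀ a ∈ {z | f z = 0}, ‖a‖ ≤ r := by
      obtain ⟨r, hr⟩ := hfin.isBounded.exists_norm_le
      exact ⟨r, hr⟩
    refine ⟨p ⌈r⌉₊, fun z => ?_⟩
    have h1 : ∀ n, ⌈r⌉₊ ≤ n → S n = S ⌈r⌉₊ := by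
      intro n hn
      ext a
      rw [hmem, hmem]
      constructor
      · rintro ⟨ha, _⟩
        exact ⟨ha, (hr a ha).trans (Nat.le_ceil r)⟩
      · rintro ⟨ha, ha2⟩
        exact ⟨ha, ha2.trans (by exact_mod_cast hn)⟩
    have h2 : Tendsto (fun n => (p n).eval z) atTop (𝓝 (f z)) :=
      (tendstoLocallyUniformlyOn_univ.mpr hconv).tendsto_at (mem_univ z)
    have h3 : Tendsto (fun n => (p n).eval z) atTop (𝓝 ((p ⌈r⌉₊).eval z)) := by
      refine tendsto_const_nhds.congr' ?_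
      filter_upwards [eventually_ge_atTop ⌈r⌉₊] with n hn
      rw [hev, hev, h1 n hn]
    exact tendsto_nhds_unique h2 h3

end Pool.Agent.Lib.MP_ec260d_ntC
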