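import Mathlib
import Pool.Agent.Lib.MP_ec260d_ntC.Defs
import Pool.Agent.Lib.MP_ec260d_ntC.HX
import Pool.Agent.Lib.MP_ec260d_ntC.Had
import Pool.Agent.Lib.MP_ec260d_ntC.DBa

/-!
# JOB DBc: H_t is a limit of real-rooted polynomials for t ≥ 1/2 (de Bruijn) (about 250 lines)

`HH0_LP`: `had` for `f = HH 0` (`HH_diff_z`, `HH_even`, `HH_zero_ne 0`, `HH_growth`, `HH_conj`); the zeros of `HH 0` satisfy `0 < Re (1/2 + I z/2) < 1` (`HX_zero_iff`), i.e. `|z.im| < 1`.
For `ε > 0` and `f_k(z) = ∫_{u>0} cosh(ε u)^k Ph u cos(z u) du` (real hyperbolic cosine; `f_0 = HH 0` since `cexp 0 = 1`): `(f_k (z + iε) + f_k (z - iε))/2 = f_{k+1} z`, because `cos ((z + iε) u) + cos ((z - iε) u) = 2 cos (z u) cosh (ε u)` (integrability: `cosh(εu)^k ≤ e^{k ε u}`, as in `HH_integrable`).  By induction with `LPc_step`: `f_k ∈ LPc (sqrt (max (1 - k ε²) 0))`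
(`sqrt (max (max (1 - kε²) 0 - ε²) 0) = sqrt (max (1 - (k+1) ε²) 0)`).
Let `t ≥ 1/2`, `n ≥ 1`, `ε = sqrt (2t/n)`, `k = n`: `1 - n ε² = 1 - 2t ≤ 0`, so `g_n = ∫ cosh(sqrt(2t/n) u)^n Ph u cos(z u) du ∈ LPc 0`.  `g_n → HH t` locally uniformly: `1 ≤ cosh (x)  ≤ e^{x²/2}` (`Real.cosh_le_exp_half_sq`), so `cosh(sqrt(2t/n)u)^n ≤ e^{t u²}`, and `cosh(sqrt(2t/n) u)^n → e^{t u²}` pointwise (`n log cosh (sqrt (2t/n) u) → t u²`; e.g. from
`1 + x²/2 ≤ cosh x`, so `(1 + t u²/n)^n ≤ cosh(..)^n ≤ e^{tu²}` and `(1 + y/n)^n → e^y`); for `‖z‖ ≤ R`: `‖g_n z - HH t z‖ ≤ ∫ (e^{tu²} - cosh(..)^n) ‖Ph u‖ e^{R u} du → 0` by dominated convergence.  `LPc_lim`.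
-/

namespace Pool.Agent.Lib.MP_ec260d_ntC

open Complex Set Filter Topology Metric MeasureTheory Polynomial

theorem HH0_LP : LPc 1 (HH 0) := by
  obtain ⟨C, _, hC⟩ := HH_growth 0
  have h0 : HH 0 0 ≠ 0 := by
    have h := HH_zero_ne 0
    rwa [ofReal_zero] at h
  obtain ⟨p, hp1, hp2, hp3, hp4, -⟩ := had (HH 0) (HH_diff_z 0) (HH_even 0) h0 C
    (fun z => hC 0 z (by rw [norm_zero]))
  refine ⟨p, hp1, hp4 fun z => ?_, fun n z hz => ?_, hp3⟩
  · have h := HH_conj 0 z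
    rwa [map_zero] at h
  · have h := ((HX_zero_iff z).1 (hp2 n z hz)).2
    have e : (1 / 2 + I * z / 2 : ℂ).re = 1 / 2 - z.im / 2 := by
      have e1 : (1 / 2 + I * z / 2 : ℂ) = ((1 / 2 : ℝ) : ℂ) + ((1 / 2 : ℝ) : ℂ) * (I * z) := by
        push_cast
        ring
      rw [e1, add_re, ofReal_re, re_ofReal_mul, I_mul_re]
      ring
    rw [e] at h
    rw [abs_le]
    constructor <;> linarith [h.1, h.2]

private theorem DBc2_mem (u : ℝ) : (u : ℂ) ∈ strip := by
  show |((u : ℂ)).im| < Real.pi / 8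
  rw [Complex.ofReal_im, abs_zero]
  exact div_pos Real.pi_pos (by norm_num)

private theorem DBc2_cont : Continuous (fun u : ℝ => Ph u) := by
  rw [continuous_iff_continuousAt]
  intro u
  have h1 : ContinuousAt Ph (u : ℂ) :=
    (Ph_diff.differentiableAt (strip_open.mem_nhds (DBc2_mem u))).continuousAt
  exact ContinuousAt.comp (f := fun u : ℝ => (u : ℂ)) (g := Ph) h1
    Complex.continuous_ofReal.continuousAt

private theorem DBc2_int (t w : ℝ) : IntegrableOn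
    (fun u : ℝ => Real.exp (t * u ^ 2) * ‖Ph u‖ * Real.exp (w * u)) (Ioi 0) := by
  have h := ((HH_integrable (t : ℂ) (w : ℂ) 0).mono_set Ioi_subset_Ici_self).norm
  refine h.congr (Filter.Eventually.of_forall fun u => ?_)
  have e1 : (t : ℂ) * (u : ℂ) ^ 2 = ((t * u ^ 2 : ℝ) : ℂ) := by push_cast; ring
  have e2 : (w : ℂ) * (u : ℂ) = ((w * u : ℝ) : ℂ) := by push_cast; ring
  show ‖cexp ((t : ℂ) * (u : ℂ) ^ 2) * Ph u * (u : ℂ) ^ 0 * cexp ((w : ℂ) * u)‖ = _
  rw [pow_zero, mul_one, norm_mul, norm_mul, e1, e2, Complex.norm_exp, Complex.norm_exp,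
    Complex.ofReal_re, Complex.ofReal_re]

/-- a bound for the cosine -/
private theorem DBc2_cos (z : ℂ) (R u : ℝ) (hz : ‖z‖ ≤ R) (hu : 0 ≤ u) :
    ‖Complex.cos (z * u)‖ ≤ Real.exp (R * u) := by
  have h1 : ‖z * (u : ℂ)‖ ≤ R * u := by
    rw [norm_mul, Complex.norm_real, Real.norm_of_nonneg hu]
    exact mul_le_mul_of_nonneg_right hz hu
  have h2 : ∀ w : ℂ, ‖w‖ ≤ R * u → ‖cexp w‖ ≤ Real.exp (R * u) := by
    intro w hw
    rw [Complex.norm_exp]
    exact Real.exp_le_exp.mpr ((Complex.re_le_norm w).trans hw)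
  have h3 : ‖cexp (z * u * I)‖ ≤ Real.exp (R * u) := by
    refine h2 _ ?_
    rw [norm_mul, Complex.norm_I, mul_one]; exact h1
  have h4 : ‖cexp (-(z * u) * I)‖ ≤ Real.exp (R * u) := by
    refine h2 _ ?_
    rw [norm_mul, Complex.norm_I, mul_one, norm_neg]; exact h1
  rw [Complex.cos, norm_div, Complex.norm_ofNat]
  have h5 := norm_add_le (cexp (z * u * I)) (cexp (-(z * u) * I))
  linarith

/-- the functions of the recursion -/
private noncomputable def DBc2_f (ε : ℝ) (k : ℕ) (z : ℂ) : ℂ :=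
  ∫ u in Ioi (0 : ℝ), ((Real.cosh (ε * u) ^ k : ℝ) : ℂ) * Ph u * Complex.cos (z * u)

private theorem DBc2_cosh_le (ε u : ℝ) : Real.cosh (ε * u) ≤ Real.exp (|ε| * |u|) := by
  rw [← Real.cosh_abs, abs_mul, Real.cosh_eq]
  have h : Real.exp (-(|ε| * |u|)) ≤ Real.exp (|ε| * |u|) := by
    refine Real.exp_le_exp.mpr ?_
    have := mul_nonneg (abs_nonneg ε) (abs_nonneg u)
    linarith
  linarith

private theorem DBc2_fint (ε : ℝ) (k : ℕ) (z : ℂ) : IntegrableOn
    (fun u : ℝ => ((Real.cosh (ε * u) ^ k : ℝ) : ℂ) * Ph u * Complex.cos (z * u)) (Ioi 0) := by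
  have hb := DBc2_int 0 (k * |ε| + ‖z‖)
  refine Integrable.mono' hb ?_ ?_
  · refine Continuous.aestronglyMeasurable ?_
    refine ((Complex.continuous_ofReal.comp ((Real.continuous_cosh.comp
      (continuous_const.mul continuous_id)).pow k)).mul DBc2_cont).mul ?_
    exact Complex.continuous_cos.comp (continuous_const.mul Complex.continuous_ofReal)
  · refine (ae_restrict_iff' measurableSet_Ioi).mpr (Filter.Eventually.of_forall fun u hu => ?_)
    have hu' : 0 ≤ u := le_of_lt hu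
    rw [norm_mul, norm_mul, Complex.norm_real, Real.norm_of_nonneg
      (pow_nonneg (Real.cosh_pos _).le k), zero_mul, Real.exp_zero, one_mul]
    have h1 := DBc2_cos z ‖z‖ u le_rfl hu'
    have h2 : Real.cosh (ε * u) ^ k ≤ Real.exp (k * |ε| * u) := by
      have h3 := pow_le_pow_left₀ (Real.cosh_pos (ε * u)).le (DBc2_cosh_le ε u) k
      rw [← Real.exp_nat_mul, abs_of_nonneg hu', ← mul_assoc] at h3
      exact h3
    have h4 : Real.cosh (ε * u) ^ k * ‖Ph u‖ ≤ Real.exp (k * |ε| * u) * ‖Ph u‖ :=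
      mul_le_mul_of_nonneg_right h2 (norm_nonneg _)
    calc Real.cosh (ε * u) ^ k * ‖Ph u‖ * ‖Complex.cos (z * u)‖
        ≤ Real.exp (k * |ε| * u) * ‖Ph u‖ * Real.exp (‖z‖ * u) :=
          mul_le_mul h4 h1 (norm_nonneg _) (mul_nonneg (Real.exp_pos _).le (norm_nonneg _))
      _ = ‖Ph u‖ * Real.exp ((k * |ε| + ‖z‖) * u) := by
          rw [add_mul, Real.exp_add]; ring

private theorem DBc2_rec (ε : ℝ) (k : ℕ) (z : ℂ) :
    (DBc2_f ε k (z + I * ε) + DBc2_f ε k (z - I * ε)) / 2 = DBc2_f ε (k + 1) z := by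
  unfold DBc2_f
  rw [← integral_add (DBc2_fint ε k (z + I * ε)) (DBc2_fint ε k (z - I * ε)), ← integral_div]
  refine integral_congr_ae (Filter.Eventually.of_forall fun u => ?_)
  have e1 : (z + I * ε) * (u : ℂ) = z * u + (ε * u : ℂ) * I := by ring
  have e2 : (z - I * ε) * (u : ℂ) = z * u - (ε * u : ℂ) * I := by ring
  have e3 : Complex.cosh ((ε : ℂ) * u) = ((Real.cosh (ε * u) : ℝ) : ℂ) := by
    push_cast; ring_nf
  have e4 : Complex.cos ((z + I * ε) * (u : ℂ)) + Complex.cos ((z - I * ε) * (u : ℂ)) =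
      2 * (Complex.cos (z * u) * ((Real.cosh (ε * u) : ℝ) : ℂ)) := by
    rw [e1, e2, Complex.cos_add, Complex.cos_sub, Complex.cos_mul_I, e3]; ring
  show (((Real.cosh (ε * u) ^ k : ℝ) : ℂ) * Ph u * Complex.cos ((z + I * ε) * u) +
    ((Real.cosh (ε * u) ^ k : ℝ) : ℂ) * Ph u * Complex.cos ((z - I * ε) * u)) / 2 =
    ((Real.cosh (ε * u) ^ (k + 1) : ℝ) : ℂ) * Ph u * Complex.cos (z * u)
  rw [← mul_add, e4]
  push_cast
  ring

private theorem DBc2_zero (ε : ℝ) : DBc2_f ε 0 = HH 0 := by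
  funext z
  unfold DBc2_f HH
  refine integral_congr_ae (Filter.Eventually.of_forall fun u => ?_)
  show ((Real.cosh (ε * u) ^ 0 : ℝ) : ℂ) * Ph u * Complex.cos (z * u) =
    cexp (0 * (u : ℂ) ^ 2) * Ph u * Complex.cos (z * u)
  rw [pow_zero, zero_mul, Complex.exp_zero, Complex.ofReal_one]

private theorem DBc2_ind (ε : ℝ) (hε : 0 < ε) (k : ℕ) :
    LPc (Real.sqrt (max (1 - k * ε ^ 2) 0)) (DBc2_f ε k) := by
  induction k with
  | zero =>
    rw [DBc2_zero]
    have e : Real.sqrt (max (1 - ((0 : ℕ) : ℝ) * ε ^ 2) 0) = 1 := by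
      rw [Nat.cast_zero, zero_mul, sub_zero, max_eq_left (by norm_num), Real.sqrt_one]
    rw [e]
    exact HH0_LP
  | succ k ih =>
    have h := LPc_step (Real.sqrt_nonneg _) hε ih
    have e1 : (fun z => (DBc2_f ε k (z + I * ε) + DBc2_f ε k (z - I * ε)) / 2) =
        DBc2_f ε (k + 1) := funext fun z => DBc2_rec ε k z
    have e2 : max (Real.sqrt (max (1 - k * ε ^ 2) 0) ^ 2 - ε ^ 2) 0 =
        max (1 - ((k + 1 : ℕ) : ℝ) * ε ^ 2) 0 := by
      rw [Real.sq_sqrt (le_max_right _ _)]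
      push_cast
      have hε2 : 0 < ε ^ 2 := pow_pos hε 2
      rcases le_total (1 - (k : ℝ) * ε ^ 2) 0 with h1 | h1
      · rw [max_eq_right h1, max_eq_right (by linarith), max_eq_right (by linarith)]
      · rw [max_eq_left h1]
        congr 1
        ring
    rw [e1, e2] at h
    exact h

private theorem DBc2_cosh_ge (x : ℝ) : 1 + x ^ 2 / 2 ≤ Real.cosh x := by
  have h0 : ∀ y : ℝ, 0 ≤ y → y ^ 2 ≤ Real.sinh y ^ 2 := fun y hy =>
    pow_le_pow_left₀ hy (Real.self_le_sinh_iff.mpr hy) 2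
  have h1 : (x / 2) ^ 2 ≤ Real.sinh (x / 2) ^ 2 := by
    rcases le_total 0 x with hx | hx
    · exact h0 _ (by linarith)
    · have h2 := h0 (-(x / 2)) (by linarith)
      rwa [Real.sinh_neg, neg_sq, neg_sq] at h2
  have h3 := Real.cosh_two_mul (x / 2)
  have h4 : 2 * (x / 2) = x := by ring
  rw [h4, Real.cosh_sq] at h3
  nlinarith [h1, h3]

private theorem DBc2_bd (t : ℝ) (ht : 0 ≤ t) (n : ℕ) (hn : 0 < n) (u : ℝ) :
    (1 + t * u ^ 2 / n) ^ n ≤ Real.cosh (Real.sqrt (2 * t / n) * u) ^ n ∧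
    Real.cosh (Real.sqrt (2 * t / n) * u) ^ n ≤ Real.exp (t * u ^ 2) := by
  have hn' : (0 : ℝ) < n := by exact_mod_cast hn
  have hsq : (Real.sqrt (2 * t / n) * u) ^ 2 = 2 * (t * u ^ 2 / n) := by
    rw [mul_pow, Real.sq_sqrt (by positivity)]; ring
  constructor
  · refine pow_le_pow_left₀ (by positivity) ?_ n
    have h := DBc2_cosh_ge (Real.sqrt (2 * t / n) * u)
    rw [hsq] at h
    linarith
  · have h := Real.cosh_le_exp_half_sq (Real.sqrt (2 * t / n) * u)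
    have h2 := pow_le_pow_left₀ (Real.cosh_pos _).le h n
    rw [← Real.exp_nat_mul, hsq] at h2
    have e : (n : ℝ) * (2 * (t * u ^ 2 / n) / 2) = t * u ^ 2 := by field_simp
    rw [e] at h2
    exact h2

private theorem DBc2_ptw (t : ℝ) (ht : 0 ≤ t) (u : ℝ) :
    Tendsto (fun n : ℕ => Real.cosh (Real.sqrt (2 * t / ((n + 1 : ℕ) : ℝ)) * u) ^ (n + 1)) atTop
      (𝓝 (Real.exp (t * u ^ 2))) := by
  have h1 : Tendsto (fun n : ℕ => (1 + t * u ^ 2 / ((n : ℕ) : ℝ)) ^ n) atTop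
      (𝓝 (Real.exp (t * u ^ 2))) := Real.tendsto_one_add_div_pow_exp (t * u ^ 2)
  have h2 := h1.comp (tendsto_add_atTop_nat 1)
  refine tendsto_of_tendsto_of_tendsto_of_le_of_le h2 tendsto_const_nhds ?_ ?_
  · intro n
    exact (DBc2_bd t ht (n + 1) (Nat.succ_pos n) u).1
  · intro n
    exact (DBc2_bd t ht (n + 1) (Nat.succ_pos n) u).2

private theorem DBc2_lim (t : ℝ) (ht : 0 ≤ t) (R : ℝ) :
    Tendsto (fun n : ℕ => ∫ u in Ioi (0 : ℝ), (Real.exp (t * u ^ 2) -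
      Real.cosh (Real.sqrt (2 * t / ((n + 1 : ℕ) : ℝ)) * u) ^ (n + 1)) * ‖Ph u‖ *
        Real.exp (R * u)) atTop (𝓝 0) := by
  have h0 : ∫ u in Ioi (0 : ℝ), (fun _ : ℝ => (0 : ℝ)) u = (0 : ℝ) := by simp
  suffices hs : Tendsto (fun n : ℕ => ∫ u in Ioi (0 : ℝ), (Real.exp (t * u ^ 2) -
      Real.cosh (Real.sqrt (2 * t / ((n + 1 : ℕ) : ℝ)) * u) ^ (n + 1)) * ‖Ph u‖ *
        Real.exp (R * u)) atTop (𝓝 (∫ u in Ioi (0 : ℝ), (fun _ : ℝ => (0 : ℝ)) u)) by
    rw [h0] at hs; exact hs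
  refine tendsto_integral_of_dominated_convergence (μ := volume.restrict (Ioi (0 : ℝ)))
    (fun u : ℝ => Real.exp (t * u ^ 2) * ‖Ph u‖ * Real.exp (R * u)) ?_ (DBc2_int t R) ?_ ?_
  · intro n
    refine Continuous.aestronglyMeasurable ?_
    refine (Continuous.mul ?_ DBc2_cont.norm).mul
      (Real.continuous_exp.comp (continuous_const.mul continuous_id))
    refine (Real.continuous_exp.comp (continuous_const.mul (continuous_id.pow 2))).sub ?_
    exact (Real.continuous_cosh.comp (continuous_const.mul continuous_id)).pow (n + 1)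
  · intro n
    refine Filter.Eventually.of_forall fun u => ?_
    have hb := DBc2_bd t ht (n + 1) (Nat.succ_pos n) u
    have hc : 0 ≤ Real.cosh (Real.sqrt (2 * t / ((n + 1 : ℕ) : ℝ)) * u) ^ (n + 1) :=
      pow_nonneg (Real.cosh_pos _).le _
    rw [norm_mul, norm_mul, norm_norm, Real.norm_of_nonneg (Real.exp_pos (R * u)).le,
      Real.norm_of_nonneg (sub_nonneg.mpr hb.2)]
    refine mul_le_mul_of_nonneg_right (mul_le_mul_of_nonneg_right ?_ (norm_nonneg _))
      (Real.exp_pos _).le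
    linarith
  · refine Filter.Eventually.of_forall fun u => ?_
    have h1 := DBc2_ptw t ht u
    have h2 : Tendsto (fun n : ℕ => Real.exp (t * u ^ 2) -
        Real.cosh (Real.sqrt (2 * t / ((n + 1 : ℕ) : ℝ)) * u) ^ (n + 1)) atTop (𝓝 0) := by
      have h3 := (tendsto_const_nhds (x := Real.exp (t * u ^ 2)) (f := atTop (α := ℕ))).sub h1
      rwa [sub_self] at h3
    have h4 := (h2.mul_const ‖Ph u‖).mul_const (Real.exp (R * u))
    rw [zero_mul, zero_mul] at h4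
    exact h4

private theorem DBc2_diff (t : ℝ) (ht : 0 ≤ t) (R : ℝ) (n : ℕ) (z : ℂ) (hz : ‖z‖ ≤ R) :
    ‖DBc2_f (Real.sqrt (2 * t / ((n + 1 : ℕ) : ℝ))) (n + 1) z - HH t z‖ ≤
      ∫ u in Ioi (0 : ℝ), (Real.exp (t * u ^ 2) -
        Real.cosh (Real.sqrt (2 * t / ((n + 1 : ℕ) : ℝ)) * u) ^ (n + 1)) * ‖Ph u‖ *
        Real.exp (R * u) := by
  have hI : IntegrableOn (fun u : ℝ => cexp ((t : ℂ) * (u : ℂ) ^ 2) * Ph u *
      Complex.cos (z * u)) (Ioi 0) := by
    refine Integrable.mono' (DBc2_int t R) ?_ ?_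
    · refine Continuous.aestronglyMeasurable ?_
      refine Continuous.mul (Continuous.mul ?_ DBc2_cont) ?_
      · exact Complex.continuous_exp.comp
          (continuous_const.mul (Complex.continuous_ofReal.pow 2))
      · exact Complex.continuous_cos.comp (continuous_const.mul Complex.continuous_ofReal)
    · refine (ae_restrict_iff' measurableSet_Ioi).mpr (Filter.Eventually.of_forall fun u hu => ?_)
      have e1 : (t : ℂ) * (u : ℂ) ^ 2 = ((t * u ^ 2 : ℝ) : ℂ) := by push_cast; ring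
      rw [norm_mul, norm_mul, e1, Complex.norm_exp, Complex.ofReal_re]
      exact mul_le_mul_of_nonneg_left (DBc2_cos z R u hz (le_of_lt hu))
        (mul_nonneg (Real.exp_pos _).le (norm_nonneg _))
  unfold DBc2_f HH
  rw [← integral_sub (DBc2_fint _ (n + 1) z) hI]
  refine norm_integral_le_of_norm_le ?_ ?_
  · have hA := DBc2_int t R
    refine Integrable.mono' hA ?_ ?_
    · refine Continuous.aestronglyMeasurable ?_
      refine (Continuous.mul ?_ DBc2_cont.norm).mul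
        (Real.continuous_exp.comp (continuous_const.mul continuous_id))
      refine (Real.continuous_exp.comp (continuous_const.mul (continuous_id.pow 2))).sub ?_
      exact (Real.continuous_cosh.comp (continuous_const.mul continuous_id)).pow (n + 1)
    · refine Filter.Eventually.of_forall fun u => ?_
      have hb := DBc2_bd t ht (n + 1) (Nat.succ_pos n) u
      have hc : 0 ≤ Real.cosh (Real.sqrt (2 * t / ((n + 1 : ℕ) : ℝ)) * u) ^ (n + 1) :=
        pow_nonneg (Real.cosh_pos _).le _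
      rw [norm_mul, norm_mul, norm_norm, Real.norm_of_nonneg (Real.exp_pos (R * u)).le,
        Real.norm_of_nonneg (sub_nonneg.mpr hb.2)]
      refine mul_le_mul_of_nonneg_right (mul_le_mul_of_nonneg_right ?_ (norm_nonneg _))
        (Real.exp_pos _).le
      linarith
  · refine (ae_restrict_iff' measurableSet_Ioi).mpr (Filter.Eventually.of_forall fun u hu => ?_)
    have hb := DBc2_bd t ht (n + 1) (Nat.succ_pos n) u
    have e1 : cexp ((t : ℂ) * (u : ℂ) ^ 2) = ((Real.exp (t * u ^ 2) : ℝ) : ℂ) := by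
      push_cast; ring_nf
    have e2 : ((Real.cosh (Real.sqrt (2 * t / ((n + 1 : ℕ) : ℝ)) * u) ^ (n + 1) : ℝ) : ℂ) * Ph u *
        Complex.cos (z * u) - cexp ((t : ℂ) * (u : ℂ) ^ 2) * Ph u * Complex.cos (z * u) =
        -(((Real.exp (t * u ^ 2) - Real.cosh (Real.sqrt (2 * t / ((n + 1 : ℕ) : ℝ)) * u) ^ (n + 1)
          : ℝ) : ℂ) * Ph u * Complex.cos (z * u)) := by
      rw [e1, Complex.ofReal_sub]; ring
    rw [e2, norm_neg, norm_mul, norm_mul, Complex.norm_real,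
      Real.norm_of_nonneg (sub_nonneg.mpr hb.2)]
    exact mul_le_mul_of_nonneg_left (DBc2_cos z R u hz (le_of_lt hu))
      (mul_nonneg (sub_nonneg.mpr hb.2) (norm_nonneg _))

theorem HH_LP (t : ℝ) (ht : 1 / 2 ≤ t) : LPc 0 (HH t) := by
  have ht0 : 0 < t := by linarith
  refine LPc_lim (f := fun n => DBc2_f (Real.sqrt (2 * t / ((n + 1 : ℕ) : ℝ))) (n + 1)) ?_ ?_
  · intro n
    have hn : (0 : ℝ) < ((n + 1 : ℕ) : ℝ) := by exact_mod_cast Nat.succ_pos n
    have hε : 0 < Real.sqrt (2 * t / ((n + 1 : ℕ) : ℝ)) := Real.sqrt_pos.mpr (by positivity)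
    have h := DBc2_ind _ hε (n + 1)
    have e : max (1 - ((n + 1 : ℕ) : ℝ) * Real.sqrt (2 * t / ((n + 1 : ℕ) : ℝ)) ^ 2) 0 = 0 := by
      refine max_eq_right ?_
      rw [Real.sq_sqrt (by positivity)]
      have e2 : ((n + 1 : ℕ) : ℝ) * (2 * t / ((n + 1 : ℕ) : ℝ)) = 2 * t := by field_simp
      rw [e2]; linarith
    rw [e, Real.sqrt_zero] at h
    exact h
  · rw [tendstoLocallyUniformly_iff_forall_isCompact]
    intro K hK
    obtain ⟨R, hR⟩ := hK.isBounded.exists_norm_le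
    rw [Metric.tendstoUniformlyOn_iff]
    intro e he
    have h1 := DBc2_lim t ht0.le R
    have h2 := h1.eventually (gt_mem_nhds he)
    filter_upwards [h2] with n hn z hz
    rw [dist_comm, dist_eq_norm]
    exact (DBc2_diff t ht0.le R n z (hR z hz)).trans_lt hn

end Pool.Agent.Lib.MP_ec260d_ntC
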