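import Mathlib
import Pool.Agent.Lib.MP_ec260d_ntC.Defs
import Pool.Agent.Lib.MP_ec260d_ntC.DBc
import Pool.Agent.Lib.MP_ec260d_ntC.IsoB

/-!
# JOB DBd: zeros of H_t for real t > 1/2: real, simple, infinitely many (about 150 lines)

`real_zeros`: `HH_LP`, `LPc_zero` with `Δ = 0` (`HH_ne`).
`simple_zeros`: suppose `Hz t z = 0`; `z = z.re` is real (`real_zeros`); `real_split` with `ε = t - 1/2` gives a real `t' ∈ (1/2, t)` and a nonreal zero of `HH t'`, contradicting `real_zeros`.
`inf_zeros`: suppose the set is finite.  All zeros of `HH t` are real and nonzero (`HH_zero_ne`), symmetric (`HH_even`), so `{z | HH t z = 0}` is finite; `had` gives a polynomial `q` with `HH t z = q.eval z`.  `HH t x → 0` as `x → ∞` (`HH_decay`), so `q` is the zero polynomial (a polynomial which tends to `0` at infinity: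
`Polynomial.tendsto_norm_atTop` if the degree is positive, and a constant polynomial which tends to `0` is `0`), contradiction to `HH t 0 ≠ 0`.
-/

namespace Pool.Agent.Lib.MP_ec260d_ntC

open Complex Set Filter Topology Metric MeasureTheory Polynomial

theorem real_zeros (t : ℝ) (ht : 1 / 2 ≤ t) (z : ℂ) (h : HH t z = 0) : z.im = 0 := by
  exact abs_nonpos_iff.1 (LPc_zero (HH_LP t ht) (HH_ne t) z h)

theorem simple_zeros (t : ℝ) (ht : 1 / 2 < t) (z : ℂ) (h : HH t z = 0) : Hz t z ≠ 0 := by
  intro h'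
  have hz : z = (z.re : ℂ) := by
    apply Complex.ext
    · rw [ofReal_re]
    · rw [ofReal_im]
      exact real_zeros t ht.le z h
  rw [hz] at h h'
  obtain ⟨t', h1, h2, w, hw, hw0⟩ := real_split t z.re h h' (t - 1 / 2) (by linarith)
  exact hw (real_zeros t' (by linarith) w hw0)

theorem inf_zeros (t : ℝ) (ht : 1 / 2 ≤ t) : {x : ℝ | 0 < x ∧ HH t x = 0}.Infinite := by
  intro hfin
  have hfin2 : {z : ℂ | HH t z = 0}.Finite := by
    refine ((hfin.image fun x : ℝ => (x : ℂ)).union (hfin.image fun x : ℝ => -(x : ℂ))).subset ?_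
    intro z hz
    have hz0 : HH t z = 0 := hz
    have hz1 : z = (z.re : ℂ) := by
      apply Complex.ext
      · rw [ofReal_re]
      · rw [ofReal_im]
        exact real_zeros t ht z hz0
    have hz2 : z.re ≠ 0 := by
      intro h
      rw [h, ofReal_zero] at hz1
      rw [hz1] at hz0
      exact HH_zero_ne t hz0
    rcases lt_or_gt_of_ne hz2 with h | h
    · refine Or.inr ⟨-z.re, ⟨by linarith, ?_⟩, ?_⟩
      · rw [ofReal_neg, HH_even, ← hz1]
        exact hz0
      · change -((-z.re : ℝ) : ℂ) = z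
        rw [ofReal_neg, neg_neg, ← hz1]
    · refine Or.inl ⟨z.re, ⟨h, ?_⟩, hz1.symm⟩
      rw [← hz1]
      exact hz0
  obtain ⟨K, -, hK⟩ := HH_growth ‖(t : ℂ)‖
  obtain ⟨-, -, -, -, -, hq⟩ := had (HH t) (HH_diff_z t) (HH_even t) (HH_zero_ne t) K
    fun z => hK t z le_rfl
  obtain ⟨q, hq⟩ := hq hfin2
  have hlim : Tendsto (fun x : ℝ => q.eval (x : ℂ)) atTop (𝓝 0) := by
    have h1 := HH_decay t
    refine h1.congr fun x => hq x
  by_cases hdeg : 0 < q.degree
  · have h1 : Tendsto (fun x : ℝ => ‖(x : ℂ)‖) atTop atTop := by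
      refine tendsto_abs_atTop_atTop.congr fun x => ?_
      rw [Complex.norm_real, Real.norm_eq_abs]
    exact not_tendsto_nhds_of_tendsto_atTop (q.tendsto_norm_atTop hdeg h1) _ hlim.norm
  · rw [not_lt] at hdeg
    have h2 := Polynomial.eq_C_of_degree_le_zero hdeg
    rw [h2] at hlim
    have h3 : q.coeff 0 = 0 := by
      refine tendsto_nhds_unique ?_ hlim
      have h4 : (fun x : ℝ => (Polynomial.C (q.coeff 0)).eval (x : ℂ)) = fun _ => q.coeff 0 := by
        funext x
        rw [Polynomial.eval_C]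
      rw [h4]
      exact tendsto_const_nhds
    have h5 := hq 0
    rw [h2, Polynomial.eval_C, h3] at h5
    exact HH_zero_ne t h5

end Pool.Agent.Lib.MP_ec260d_ntC
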