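import Mathlib
import Pool.Agent.Lib.MP_ec260d_ntC.DefsW
import Pool.Agent.Lib.MP_ec260d_ntC.HB
import Pool.Agent.Lib.MP_ec260d_ntC.DBd

/-!
# JOB NzA: the positive zeros in increasing order (about 150 lines)

`t ≥ 1/2`.  `Z = {x | 0 < x, HH t x = 0}` is infinite (`inf_zeros`) and `Z ∩ [0, R]` is finite for every `R` (`HH_zeros_finite` on the image of `[0, R]`), so for every `a ≥ 0` the set `{x | a < x, HH t x = 0}` is nonempty and its infimum is attained (a nonempty finite set below any of its elements).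
`nz_spec`: by induction `0 < nz t j`, `HH t (nz t j) = 0`, `nz t j < nz t (j+1)`, and no zero in `(nz t j, nz t (j+1))`, no zero in `(0, nz t 0)`.
`nz_surj`: otherwise `nz t j < x` for all `j` (induction), an infinite set of zeros in `[0, x]`.
`nz_char`: induction on `i ≤ n`, `nz t 0 = a 0` because `a 0` is the least positive zero, etc.
-/

namespace Pool.Agent.Lib.MP_ec260d_ntC

open Complex Set Filter Topology Metric MeasureTheory

private theorem NzA_fin (t R : ℝ) : {x : ℝ | 0 < x ∧ x ≤ R ∧ HH t x = 0}.Finite := by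
  have hK : IsCompact ((fun x : ℝ => (x : ℂ)) '' Icc (0 : ℝ) R) :=
    isCompact_Icc.image Complex.continuous_ofReal
  have h := HH_zeros_finite (t : ℂ) _ hK
  refine (h.preimage (f := fun x : ℝ => (x : ℂ)) (Complex.ofReal_injective.injOn)).subset ?_
  rintro x ⟨h1, h2, h3⟩
  exact ⟨⟨x, ⟨h1.le, h2⟩, rfl⟩, h3⟩

private theorem NzA_least (t : ℝ) (ht : 1 / 2 ≤ t) (a : ℝ) (ha : 0 ≤ a) :
    IsLeast {x : ℝ | a < x ∧ HH t x = 0} (sInf {x : ℝ | a < x ∧ HH t x = 0}) := by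
  have hne : {x : ℝ | a < x ∧ HH t x = 0}.Nonempty := by
    by_contra hcon
    rw [Set.not_nonempty_iff_eq_empty] at hcon
    refine inf_zeros t ht ((NzA_fin t a).subset ?_)
    rintro x ⟨h1, h2⟩
    refine ⟨h1, ?_, h2⟩
    by_contra h3
    have h4 : x ∈ {x : ℝ | a < x ∧ HH t x = 0} := ⟨not_le.1 h3, h2⟩
    rw [hcon] at h4
    exact h4
  obtain ⟨y, hy1, hy2⟩ := hne
  have hF : {x : ℝ | a < x ∧ x ≤ y ∧ HH t x = 0}.Finite := by
    refine (NzA_fin t y).subset ?_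
    rintro x ⟨h1, h2, h3⟩
    exact ⟨lt_of_le_of_lt ha h1, h2, h3⟩
  obtain ⟨m, hm, hmin⟩ := Set.exists_min_image _ (fun x => x) hF ⟨y, hy1, le_rfl, hy2⟩
  have hl : IsLeast {x : ℝ | a < x ∧ HH t x = 0} m := by
    refine ⟨⟨hm.1, hm.2.2⟩, ?_⟩
    rintro x ⟨h1, h2⟩
    rcases le_total x y with h3 | h3
    · exact hmin x ⟨h1, h3, h2⟩
    · exact hm.2.1.trans h3
  rw [hl.csInf_eq]
  exact hl

theorem nz_pos (t : ℝ) (ht : 1 / 2 ≤ t) (j : ℕ) : 0 < nz t j ∧ HH t (nz t j) = 0 := by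
  induction j with
  | zero =>
    have h := (NzA_least t ht 0 le_rfl).1
    exact h
  | succ j ih =>
    have h := (NzA_least t ht (nz t j) ih.1.le).1
    exact ⟨ih.1.trans h.1, h.2⟩

private theorem NzA_step (t : ℝ) (ht : 1 / 2 ≤ t) (j : ℕ) :
    IsLeast {x : ℝ | nz t j < x ∧ HH t x = 0} (nz t (j + 1)) :=
  NzA_least t ht (nz t j) (nz_pos t ht j).1.le

private theorem NzA_zero (t : ℝ) (ht : 1 / 2 ≤ t) :
    IsLeast {x : ℝ | 0 < x ∧ HH t x = 0} (nz t 0) :=
  NzA_least t ht 0 le_rfl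

theorem nz_mono (t : ℝ) (ht : 1 / 2 ≤ t) : StrictMono (nz t) :=
  strictMono_nat_of_lt_succ fun j => (NzA_step t ht j).1.1

theorem nz_surj (t : ℝ) (ht : 1 / 2 ≤ t) (x : ℝ) (hx : 0 < x) (h : HH t x = 0) : ∃ j, nz t j = x := by
  by_contra hcon
  have hne : ∀ j, nz t j ≠ x := fun j hj => hcon ⟨j, hj⟩
  have hlt : ∀ j, nz t j < x := by
    intro j
    induction j with
    | zero => exact lt_of_le_of_ne ((NzA_zero t ht).2 ⟨hx, h⟩) (hne 0)
    | succ j ih => exact lt_of_le_of_ne ((NzA_step t ht j).2 ⟨ih, h⟩) (hne (j + 1))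
  refine Set.infinite_range_of_injective (nz_mono t ht).injective ((NzA_fin t x).subset ?_)
  rintro y ⟨j, rfl⟩
  exact ⟨(nz_pos t ht j).1, (hlt j).le, (nz_pos t ht j).2⟩

theorem nz_char (t : ℝ) (ht : 1 / 2 ≤ t) (n : ℕ) (a : ℕ → ℝ)
    (ha : ∀ i ≤ n, 0 < a i ∧ HH t (a i) = 0) (hm : ∀ i j, i < j → j ≤ n → a i < a j)
    (h : ∀ x : ℝ, 0 < x → x ≤ a n → HH t x = 0 → ∃ i ≤ n, a i = x) : ∀ i ≤ n, nz t i = a i := by
  have hle : ∀ i j, i ≤ j → j ≤ n → a i ≤ a j := by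
    intro i j hij hj
    rcases hij.lt_or_eq with h1 | h1
    · exact (hm i j h1 hj).le
    · rw [h1]
  intro i
  induction i with
  | zero =>
    intro hi
    have h1 : nz t 0 ≤ a 0 := (NzA_zero t ht).2 (ha 0 hi)
    obtain ⟨k, hk, hk2⟩ := h (nz t 0) (nz_pos t ht 0).1 (h1.trans (hle 0 n hi le_rfl))
      (nz_pos t ht 0).2
    have h2 := hle 0 k (Nat.zero_le k) hk
    rw [hk2] at h2
    exact le_antisymm h1 h2
  | succ i ih =>
    intro hi
    have hi' : i ≤ n := by omega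
    have e1 := ih hi'
    have h0 : nz t i < a (i + 1) := by
      rw [e1]
      exact hm i (i + 1) (by omega) hi
    have h1 : nz t (i + 1) ≤ a (i + 1) := (NzA_step t ht i).2 ⟨h0, (ha (i + 1) hi).2⟩
    obtain ⟨k, hk, hk2⟩ := h (nz t (i + 1)) (nz_pos t ht (i + 1)).1
      (h1.trans (hle (i + 1) n hi le_rfl)) (nz_pos t ht (i + 1)).2
    have h3 : a i < a k := by
      rw [hk2, ← e1]
      exact (NzA_step t ht i).1.1
    have hik : i < k := by
      by_contra h4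
      have h5 := hle k i (by omega) hi'
      linarith
    have h2 := hle (i + 1) k (by omega) hk
    rw [hk2] at h2
    exact le_antisymm h1 h2

end Pool.Agent.Lib.MP_ec260d_ntC
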