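import Mathlib
import Pool.Agent.Lib.MP_ec260d_ntC.DefsW
import Pool.Agent.Lib.MP_ec260d_ntC.NzA
import Pool.Agent.Lib.MP_ec260d_ntC.Cell
import Pool.Agent.Lib.MP_ec260d_ntC.AsyS

/-!
# JOB NzC: the first zeros for large real t (about 150 lines)

`v` real, large, `p = (v : ℂ)`: `tp v = 2πe^{4v}/v` is real and `≥ 1`; `SS v = πe^{4v}(2v - 1) ≥ 0` real; `‖WW v‖ ≤ (‖Ph 0‖/π²) √v e^{-9v} ≤ 1/200` and `v ∈ Reg V` for `v` large (`reg_WW`).  `asy` with `M = π (K+1) + 5`, `ε = 1/200`: `F = hh v` satisfies `nr F 0 M` (also with `w = 0`, since `‖WW v‖ ≤ 1/200`).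
`nr_one` for `j ≤ K`: a unique zero `ζ_j` of `F` in the closed cell, in the open cell.  `x_j = ζ_j/v` is a zero of `HH (tp v)` (`hh_zero_iff`), real by `real_zeros` (`tp v ≥ 1/2` real); `π j < v x_j < π (j+1)`.  If `0 < x ≤ x_K` and `HH (tp v) x = 0`, then `v x` is in a closed cell `j ≤ K`, so `v x = ζ_j`.  `nz_char` gives `nz t j = x_j`, `j ≤ K`.
-/

namespace Pool.Agent.Lib.MP_ec260d_ntC

open Complex Set Filter Topology Metric MeasureTheory

private theorem nzc_tp (v : ℝ) : tp (v : ℂ) = ((2 * Real.pi * Real.exp (4 * v) / v : ℝ) : ℂ) := by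
  unfold tp
  push_cast
  rfl

private theorem nzc_half {v : ℝ} (hv : 100 ≤ v) : 1 / 2 < 2 * Real.pi * Real.exp (4 * v) / v := by
  have h0 : 0 < v := by linarith
  have h1 := Real.add_one_le_exp (4 * v)
  have h2 := Real.pi_gt_three
  rw [lt_div_iff₀ h0]
  have h3 : 3 * (4 * v) ≤ Real.pi * Real.exp (4 * v) := by
    apply mul_le_mul h2.le (by linarith) (by linarith) Real.pi_pos.le
  linarith

private theorem nzc_WW : ∃ V : ℝ, 100 ≤ V ∧ ∀ v : ℝ, V ≤ v → ‖WW (v : ℂ)‖ ≤ 1 / 200 := by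
  have hp := norm_nonneg (Ph 0)
  refine ⟨max 100 (Real.log (200 * (‖Ph 0‖ + 1))), le_max_left _ _, ?_⟩
  intro v hv
  have h100 : 100 ≤ v := (le_max_left _ _).trans hv
  have hlog : Real.log (200 * (‖Ph 0‖ + 1)) ≤ v := (le_max_right _ _).trans hv
  have hv0 : 0 < v := by linarith
  have hne : (v : ℂ) ≠ 0 := by exact_mod_cast hv0.ne'
  rw [reg_WW _ hne, reg_SS]
  have hn : ‖(v : ℂ)‖ = v := by rw [Complex.norm_real, Real.norm_eq_abs, abs_of_pos hv0]
  rw [hn]
  simp only [Complex.ofReal_re, Complex.ofReal_im, mul_zero, Real.cos_zero, zero_mul, sub_zero, one_mul]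
  have h1 : Real.log v ≤ v := by
    have := Real.log_le_sub_one_of_pos hv0
    linarith
  have h2 : 0 ≤ EE (v : ℂ) * (2 * v - 1) := by
    apply mul_nonneg
    · unfold EE; positivity
    · linarith
  have h3 : Real.exp (Real.log v / 2 - 9 * v - EE (v : ℂ) * (2 * v - 1)) ≤ Real.exp (-v) := by
    apply Real.exp_le_exp.mpr
    linarith
  have h4 : ‖Ph 0‖ / Real.pi ^ 2 ≤ ‖Ph 0‖ := by
    apply div_le_self hp
    have := Real.pi_gt_three
    nlinarith
  have h5 : Real.exp (-v) ≤ (200 * (‖Ph 0‖ + 1))⁻¹ := by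
    rw [Real.exp_neg]
    apply inv_anti₀ (by positivity)
    rw [← Real.log_le_iff_le_exp (by positivity)]
    exact hlog
  calc ‖Ph 0‖ / Real.pi ^ 2 * Real.exp (Real.log v / 2 - 9 * v - EE (v : ℂ) * (2 * v - 1))
      ≤ ‖Ph 0‖ * (200 * (‖Ph 0‖ + 1))⁻¹ :=
        mul_le_mul h4 (h3.trans h5) (Real.exp_pos _).le hp
    _ ≤ 1 / 200 := by
        rw [← div_eq_mul_inv, div_le_div_iff₀ (by positivity) (by norm_num)]
        linarith

private theorem nzc_closure {j x : ℝ} (h1 : Real.pi * j ≤ x) (h2 : x < Real.pi * (j + 1)) :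
    (x : ℂ) ∈ closure (box j (j + 1)) := by
  rw [Metric.mem_closure_iff]
  intro ε hε
  set δ : ℝ := min (ε / 2) ((Real.pi * (j + 1) - x) / 2) with hδ
  have hδ0 : 0 < δ := lt_min (by linarith) (by linarith)
  have hδ1 : δ ≤ ε / 2 := min_le_left _ _
  have hδ2 : δ ≤ (Real.pi * (j + 1) - x) / 2 := min_le_right _ _
  refine ⟨((x + δ : ℝ) : ℂ), ?_, ?_⟩
  · unfold box
    refine ⟨?_, ?_, ?_⟩
    · rw [Complex.ofReal_re]; linarith
    · rw [Complex.ofReal_re]; linarith
    · rw [Complex.ofReal_im, abs_zero]; norm_num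
  · rw [dist_eq_norm, ← Complex.ofReal_sub, Complex.norm_real, Real.norm_eq_abs]
    have : x - (x + δ) = -δ := by ring
    rw [this, abs_neg, abs_of_pos hδ0]
    linarith

theorem nz_cell (K : ℕ) : ∃ V : ℝ, 100 ≤ V ∧ ∀ v : ℝ, V ≤ v → 1 / 2 < (tp v).re ∧
    tp v = ((tp v).re : ℂ) ∧ ∀ j ≤ K, Real.pi * j < v * nz (tp v).re j ∧
      v * nz (tp v).re j < Real.pi * (j + 1) := by
  obtain ⟨V1, hV1, hW⟩ := nzc_WW
  obtain ⟨V2, hV2, hA⟩ := asy (Real.pi * (K + 1) + 5) (1 / 200) (by norm_num)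
  refine ⟨max V1 V2, hV1.trans (le_max_left _ _), ?_⟩
  intro v hv
  have hv1 : V1 ≤ v := (le_max_left _ _).trans hv
  have hv2 : V2 ≤ v := (le_max_right _ _).trans hv
  have h100 : 100 ≤ v := hV1.trans hv1
  have hv0 : 0 < v := by linarith
  have hvne : (v : ℂ) ≠ 0 := by exact_mod_cast hv0.ne'
  have hWv := hW v hv1
  have hre : (tp (v : ℂ)).re = 2 * Real.pi * Real.exp (4 * v) / v := by
    rw [nzc_tp, Complex.ofReal_re]
  have htre : tp (v : ℂ) = ((tp (v : ℂ)).re : ℂ) := by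
    rw [hre]; exact nzc_tp v
  have hhalf : 1 / 2 < (tp (v : ℂ)).re := by rw [hre]; exact nzc_half h100
  refine ⟨hhalf, htre, ?_⟩
  have hReg : (v : ℂ) ∈ Reg V2 := by
    refine ⟨?_, ?_, ?_, ?_⟩
    · rw [Complex.ofReal_re]; exact hv2
    · rw [Complex.ofReal_im]
    · rw [Complex.ofReal_im]; have := Real.pi_pos; linarith
    · linarith
  have hnr : nr (hh (v : ℂ)) 0 (Real.pi * (K + 1) + 5) := by
    refine ⟨hh_diff _, ?_⟩
    intro ζ hζ
    have h1 := hA _ hReg ζ hζ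
    have h2 : hh (v : ℂ) ζ - 2 * Complex.cos ζ - 0 =
        (hh (v : ℂ) ζ - 2 * Complex.cos ζ - WW (v : ℂ)) + WW (v : ℂ) := by ring
    rw [h2]
    refine (norm_add_le _ _).trans ?_
    linarith
  have hex : ∀ j : ℕ, ∃ ζ : ℂ, j ≤ K → ζ ∈ box j (j + 1) ∧ hh (v : ℂ) ζ = 0 ∧
      ∀ ζ' ∈ closure (box j (j + 1)), hh (v : ℂ) ζ' = 0 → ζ' = ζ := by
    intro j
    by_cases hj : j ≤ K
    · have hjK : (j : ℝ) ≤ K := by exact_mod_cast hj
      obtain ⟨ζ, h1, h2, h3⟩ := nr_one hnr (by rw [norm_zero]; norm_num) j (by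
        have := mul_le_mul_of_nonneg_left (add_le_add_left hjK 1) Real.pi_pos.le
        linarith)
      exact ⟨ζ, fun _ => ⟨h1, h2, h3⟩⟩
    · exact ⟨0, fun h => absurd h hj⟩
  choose ζ hζ using hex
  have hreal : ∀ j ≤ K, ζ j = ((v * ((ζ j).re / v) : ℝ) : ℂ) := by
    intro j hj
    obtain ⟨h1, h2, h3⟩ := hζ j hj
    rw [hh_zero_iff, htre] at h2
    have h4 := real_zeros _ hhalf.le _ h2
    have h5 : (ζ j / (v : ℂ)).im = (ζ j).im / v := by rw [Complex.div_ofReal_im]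
    rw [h5, div_eq_zero_iff] at h4
    have h6 : (ζ j).im = 0 := h4.resolve_right hv0.ne'
    apply Complex.ext
    · rw [Complex.ofReal_re]
      field_simp
    · rw [Complex.ofReal_im, h6]
  have hzero : ∀ j ≤ K, HH ((tp (v : ℂ)).re : ℂ) (((ζ j).re / v : ℝ) : ℂ) = 0 := by
    intro j hj
    obtain ⟨h1, h2, h3⟩ := hζ j hj
    rw [hh_zero_iff, htre, hreal j hj] at h2
    have h4 : ((v * ((ζ j).re / v) : ℝ) : ℂ) / (v : ℂ) = (((ζ j).re / v : ℝ) : ℂ) := by
      push_cast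
      field_simp
    rw [h4] at h2
    exact h2
  have hcell : ∀ j ≤ K, Real.pi * j < (ζ j).re ∧ (ζ j).re < Real.pi * (j + 1) := by
    intro j hj
    obtain ⟨h1, -⟩ := hζ j hj
    exact ⟨h1.1, h1.2.1⟩
  have hchar := nz_char (tp (v : ℂ)).re hhalf.le K (fun j => (ζ j).re / v)
    (by
      intro i hi
      refine ⟨?_, hzero i hi⟩
      apply div_pos _ hv0
      have := (hcell i hi).1
      have h0 : 0 ≤ Real.pi * (i : ℝ) := by positivity
      linarith)
    (by
      intro i j hij hj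
      have h1 := (hcell i (hij.le.trans hj)).2
      have h2 := (hcell j hj).1
      have h3 : (i : ℝ) + 1 ≤ j := by exact_mod_cast hij
      have h4 := mul_le_mul_of_nonneg_left h3 Real.pi_pos.le
      exact div_lt_div_of_pos_right (by linarith) hv0)
    (by
      intro x hx0 hxK hx
      have hvx0 : 0 < v * x := mul_pos hv0 hx0
      have hvxK : v * x ≤ (ζ K).re := by
        have := mul_le_mul_of_nonneg_left hxK hv0.le
        have h1 : v * ((ζ K).re / v) = (ζ K).re := by field_simp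
        rw [h1] at this
        exact this
      set j : ℕ := ⌊v * x / Real.pi⌋₊ with hj
      have hq0 : 0 ≤ v * x / Real.pi := by positivity
      have h1 : (j : ℝ) ≤ v * x / Real.pi := Nat.floor_le hq0
      have h2 : v * x / Real.pi < j + 1 := Nat.lt_floor_add_one _
      rw [le_div_iff₀ Real.pi_pos] at h1
      rw [div_lt_iff₀ Real.pi_pos] at h2
      have h3 : j ≤ K := by
        by_contra hcon
        push Not at hcon
        have h4 : (K : ℝ) + 1 ≤ j := by exact_mod_cast hcon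
        have h5 := (hcell K le_rfl).2
        have h6 := mul_le_mul_of_nonneg_left h4 Real.pi_pos.le
        linarith
      refine ⟨j, h3, ?_⟩
      obtain ⟨-, -, h5⟩ := hζ j h3
      have h6 : hh (v : ℂ) ((v * x : ℝ) : ℂ) = 0 := by
        rw [hh_zero_iff, htre]
        have h7 : ((v * x : ℝ) : ℂ) / (v : ℂ) = (x : ℂ) := by
          push_cast
          field_simp
        rw [h7]
        exact hx
      have h8 := h5 _ (nzc_closure (by linarith) (by linarith)) h6
      show (ζ j).re / v = x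
      rw [← h8, Complex.ofReal_re]
      field_simp)
  intro j hj
  rw [hchar j hj]
  have h1 : v * ((ζ j).re / v) = (ζ j).re := by field_simp
  rw [h1]
  exact hcell j hj

end Pool.Agent.Lib.MP_ec260d_ntC
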