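import Mathlib
import Pool.Agent.Lib.MP_ec260d_ntC.DefsW
import Pool.Agent.Lib.MP_ec260d_ntC.RegP

/-!
# JOB Stk: points on the critical curve (about 350 lines)

`κ = ‖Ph 0‖/π² > 0`.  Let `v ≥ V1` (`V1` large, depending on `V`, `δ`).
(1) `stk_point`: `y ↦ ‖WW (v + i y)‖` is continuous on `[0, π/8]`; at `y = 0`: `Re SS = πe^{4v}(2v - 1) ≥ v`, `‖WW‖ = κ √v exp (-9v - Re SS) < 2`; at `y = π/8`: `Re SS = -2 (π/8) π e^{4v}`, `‖WW‖ ≥ κ exp (-9v + (π²/4) e^{4v}) > 2` (`reg_SS`, `reg_WW`).  So there is `y0 ∈ (0, π/8)` with `‖WW p0‖ = 2`, `p0 = v + i y0`; `p0 ∈ Reg v`.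
`reg_all`: `cos 4y0 ≥ 0.38/v`, so `π/8 - y0 ≥ (1/4) sin (π/2 - 4y0) ≥ 0.09/v`.  From `reg_WW`: `Re SS p0 = log κ - log 2 + (log ‖p0‖)/2 - 9v ≤ 0` (`V1` large), so by `reg_SS` `cos 4y0 (2v - 1) ≤ 2 y0 sin 4y0 ≤ π/4`, `cos 4 y0 ≤ 1/v`, hence `y0 ≥ 1/4` (`cos 1 ≥ 1/2 > 1/v`).
(2) `stk_chart`: `E0 = π e^{4p0}`, `N = ‖E0‖`, `d = 1/(8 E0 p0)`, `‖d‖ ≤ 1/(8 N v)`, `p = p0 + d s`, `‖s‖ ≤ 6`.  `SS' p = π e^{4p}(8p - 2)`, `SS'' p = 32 p π e^{4p}`: `SS p - SS p0 = SS'(p0) d s + R`, `SS'(p0) d s = s (1 - 1/(4p0))`, `‖R‖ ≤ ‖d s‖² sup ‖SS''‖ ≤ (36/(64 N² v²)) * 32 (2v) (2 N) ≤ 100/(N v)` (`‖e^{4(p - p0)}‖ ≤ 2`).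
`log p - log p0`: `‖·‖ ≤ 2 ‖d s‖/v` (`log` has derivative `1/p`), `9 ‖d s‖ ≤ 7/(N v)`.  So `WW p = WW p0 * exp (-s + r)`, `‖r‖ ≤ C/v`.
(3) `stk`: `WW p0 = 2 e^{iα}`; `ω = e^{iβ}`, `β ∈ {0, π}`; choose `s0 = i α'` with `|α'| ≤ π`, `e^{i(α - α')} = ω` (`α' = arg (e^{iα}/ω)`), `q = p0 + d s0`.  For `‖σ‖ ≤ 3/2`: `s = s0 + σ`, `‖s‖ ≤ π + 3/2 < 6`, `WW (q + dσ) = 2 e^{iα} e^{-s0 - σ + r} = 2ωe^{-σ}e^r`, so `‖WW (q + dσ) - 2ωe^{-σ}‖ ≤ 2 e^{3/2} * 2‖r‖ ≤ δ` for `V1` large.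
`q + dσ ∈ Reg V`: `‖q + dσ - p0‖ ≤ 6 ‖d‖ ≤ e^{-4v}`: real part `≥ v - 1 ≥ V`, imaginary part between `1/4 - e^{-4v} ≥ 0` and `y0 + e^{-4v} < π/8`, `‖WW‖ ≤ 2 e^{3/2} + δ ≤ 20` (`δ ≤ 1` without loss of generality).
Vertical lines: for `‖σ - 1‖ ≤ 1/2`: `‖WW (q + dσ)‖ ≤ 2 e^{-1/2} + δ ≤ 3/2` if `δ ≤ 1/4` (`e^{-1/2} ≤ 0.607`); `reg_mono`: `‖WW‖ ≤ 3/2` on the vertical segment below `q + dσ`, which is in `Reg V`.
-/

namespace Pool.Agent.Lib.MP_ec260d_ntC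

open Complex Set Filter Topology Metric MeasureTheory

theorem stk_point (V : ℝ) : ∃ V1 : ℝ, V ≤ V1 ∧ 100 ≤ V1 ∧ ∀ v : ℝ, V1 ≤ v → ∃ y0 : ℝ, 1 / 4 ≤ y0 ∧
    y0 ≤ Real.pi / 8 - 9 / 100 / v ∧ ‖WW ((v : ℂ) + y0 * I)‖ = 2 := by
  obtain ⟨V0, hV0, hreg⟩ := reg_all
  have hPh : 0 < ‖Ph 0‖ := by
    have h1 := (Ph_pos 0).1
    rw [norm_pos_iff]
    intro h2
    rw [Complex.ofReal_zero, h2, Complex.zero_re] at h1
    exact lt_irrefl _ h1
  have hpi := Real.pi_gt_three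
  have hpi4 := Real.pi_lt_four
  obtain ⟨κ, hκ⟩ : ∃ κ : ℝ, κ = ‖Ph 0‖ / Real.pi ^ 2 := ⟨_, rfl⟩
  have hκ0 : 0 < κ := by
    rw [hκ]
    positivity
  refine ⟨max V (max V0 (max κ (3 / κ))), le_max_left _ _,
    le_trans hV0 (le_trans (le_max_left _ _) (le_max_right _ _)), fun v hv => ?_⟩
  have hv1 : max V0 (max κ (3 / κ)) ≤ v := le_trans (le_max_right _ _) hv
  have hvV0 : V0 ≤ v := le_trans (le_max_left _ _) hv1
  have hv2 : max κ (3 / κ) ≤ v := le_trans (le_max_right _ _) hv1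
  have hvκ : κ ≤ v := le_trans (le_max_left _ _) hv2
  have hvκ' : 3 ≤ κ * v := by
    have h1 : 3 / κ ≤ v := le_trans (le_max_right _ _) hv2
    rw [div_le_iff₀ hκ0] at h1
    linarith
  have hv100 : 100 ≤ v := le_trans hV0 hvV0
  have hre : ∀ y : ℝ, ((v : ℂ) + y * I).re = v := fun y => by simp
  have him : ∀ y : ℝ, ((v : ℂ) + y * I).im = y := fun y => by simp
  have hne : ∀ y : ℝ, (v : ℂ) + y * I ≠ 0 := fun y h => by
    have h1 := hre y
    rw [h, Complex.zero_re] at h1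
    linarith
  have hnv : ∀ y : ℝ, v ≤ ‖(v : ℂ) + y * I‖ := fun y => by
    have h1 := (le_abs_self _).trans (Complex.abs_re_le_norm ((v : ℂ) + y * I))
    rwa [hre] at h1
  have hW : ∀ y : ℝ, ‖WW ((v : ℂ) + y * I)‖ =
      κ * Real.exp (Real.log ‖(v : ℂ) + y * I‖ / 2 - 9 * v - (SS ((v : ℂ) + y * I)).re) := by
    intro y
    rw [reg_WW _ (hne y), hre, hκ]
  have hsmall : ∀ y : ℝ, 0 ≤ y → y ≤ 1 → 0 ≤ (SS ((v : ℂ) + y * I)).re →
      ‖WW ((v : ℂ) + y * I)‖ < 2 := by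
    intro y hy0 hy1 hS
    have h0 : ‖(v : ℂ) + y * I‖ ≤ v + 1 := by
      refine (norm_add_le _ _).trans ?_
      rw [norm_mul, Complex.norm_I, mul_one, Complex.norm_real, Complex.norm_real,
        Real.norm_of_nonneg hy0, Real.norm_of_nonneg (by linarith)]
      linarith
    have h1 : Real.log ‖(v : ℂ) + y * I‖ ≤ v := by
      have h2 := Real.log_le_sub_one_of_pos (norm_pos_iff.2 (hne y))
      linarith
    have hE : Real.log ‖(v : ℂ) + y * I‖ / 2 - 9 * v - (SS ((v : ℂ) + y * I)).re ≤ -v := by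
      linarith
    have h3 := Real.exp_le_exp.2 hE
    have h4 : v * Real.exp (-v) < 1 := by
      rw [Real.exp_neg, ← div_eq_mul_inv, div_lt_one (Real.exp_pos v)]
      linarith [Real.add_one_le_exp v]
    rw [hW]
    calc κ * Real.exp (Real.log ‖(v : ℂ) + y * I‖ / 2 - 9 * v - (SS ((v : ℂ) + y * I)).re)
        ≤ v * Real.exp (-v) := mul_le_mul hvκ h3 (Real.exp_pos _).le (by linarith)
      _ < 2 := by linarith
  have hcont : ContinuousOn (fun y : ℝ => ‖WW ((v : ℂ) + y * I)‖) (Set.Icc 0 (Real.pi / 8)) := by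
    have hc : Continuous fun y : ℝ => (v : ℂ) + y * I := by fun_prop
    have hlog : Continuous fun y : ℝ => Complex.log ((v : ℂ) + y * I) :=
      hc.clog fun y => Or.inl (by rw [hre]; linarith)
    have h1 : Continuous fun y : ℝ => WW ((v : ℂ) + y * I) := by
      unfold WW SS
      exact continuous_const.mul (Complex.continuous_exp.comp
        (((hlog.div_const 2).sub (continuous_const.mul hc)).sub
          ((continuous_const.mul (Complex.continuous_exp.comp (continuous_const.mul hc))).mul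
            ((continuous_const.mul hc).sub continuous_const))))
    exact h1.norm.continuousOn
  have hf0 : ‖WW ((v : ℂ) + ((0 : ℝ) : ℂ) * I)‖ < 2 := by
    refine hsmall 0 le_rfl zero_le_one ?_
    rw [reg_SS, hre, him, mul_zero, mul_zero, Real.cos_zero, zero_mul, sub_zero, one_mul]
    unfold EE
    have h1 : 0 < Real.exp (4 * ((v : ℂ) + ((0 : ℝ) : ℂ) * I).re) := Real.exp_pos _
    have h2 : 0 ≤ 2 * v - 1 := by linarith
    positivity
  have hf1 : 2 < ‖WW ((v : ℂ) + ((Real.pi / 8 : ℝ) : ℂ) * I)‖ := by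
    rw [hW]
    have h1 : (SS ((v : ℂ) + ((Real.pi / 8 : ℝ) : ℂ) * I)).re =
        -(Real.pi * Real.exp (4 * v) * (Real.pi / 4)) := by
      rw [reg_SS, hre, him]
      have e1 : 4 * (Real.pi / 8) = Real.pi / 2 := by ring
      rw [e1, Real.cos_pi_div_two, Real.sin_pi_div_two]
      unfold EE
      rw [hre]
      ring
    have h2 : 0 ≤ Real.log ‖(v : ℂ) + ((Real.pi / 8 : ℝ) : ℂ) * I‖ :=
      Real.log_nonneg (by linarith [hnv (Real.pi / 8)])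
    have h3 : 1 + 4 * v + (4 * v) ^ 2 / 2 ≤ Real.exp (4 * v) :=
      Real.quadratic_le_exp_of_nonneg (by linarith)
    have h4 : 2 * Real.exp (4 * v) ≤ Real.pi * Real.exp (4 * v) * (Real.pi / 4) := by
      have h5 : 2 ≤ Real.pi * (Real.pi / 4) := by nlinarith
      have h6 := mul_le_mul_of_nonneg_right h5 (Real.exp_pos (4 * v)).le
      calc 2 * Real.exp (4 * v) ≤ Real.pi * (Real.pi / 4) * Real.exp (4 * v) := h6
        _ = _ := by ring
    have h7 : v ≤ Real.log ‖(v : ℂ) + ((Real.pi / 8 : ℝ) : ℂ) * I‖ / 2 - 9 * v -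
        (SS ((v : ℂ) + ((Real.pi / 8 : ℝ) : ℂ) * I)).re := by
      rw [h1]
      nlinarith
    have h8 := Real.exp_le_exp.2 h7
    have h9 : v < Real.exp v := by linarith [Real.add_one_le_exp v]
    calc 2 < κ * v := by linarith
      _ ≤ κ * Real.exp v := mul_le_mul_of_nonneg_left h9.le hκ0.le
      _ ≤ _ := mul_le_mul_of_nonneg_left h8 hκ0.le
  obtain ⟨y0, ⟨hy0, hy1⟩, hy2⟩ := intermediate_value_Icc (by positivity) hcont
    (show (2 : ℝ) ∈ Set.Icc ‖WW ((v : ℂ) + ((0 : ℝ) : ℂ) * I)‖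
      ‖WW ((v : ℂ) + ((Real.pi / 8 : ℝ) : ℂ) * I)‖ from ⟨hf0.le, hf1.le⟩)
  have hy3 : ‖WW ((v : ℂ) + y0 * I)‖ = 2 := hy2
  have hy4 : y0 < Real.pi / 8 := by
    refine lt_of_le_of_ne hy1 fun h => ?_
    rw [h] at hy3
    rw [hy3] at hf1
    exact lt_irrefl _ hf1
  have hmem : (v : ℂ) + y0 * I ∈ Reg V0 := by
    refine ⟨?_, ?_, ?_, ?_⟩
    · rw [hre]
      exact hvV0
    · rw [him]
      exact hy0
    · rw [him]
      exact hy4
    · rw [hy3]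
      norm_num
  obtain ⟨-, g2, -, -, -, g6, -, -⟩ := hreg _ hmem
  rw [hre, him] at g2
  rw [hre, him] at g6
  refine ⟨y0, ?_, ?_, hy3⟩
  · by_contra h
    push Not at h
    have h1 := g6 h
    have h2 : 0 ≤ (SS ((v : ℂ) + y0 * I)).re := by
      refine le_trans ?_ h1
      unfold EE
      have h3 : 0 < Real.exp (4 * ((v : ℂ) + y0 * I).re) := Real.exp_pos _
      positivity
    have h3 := hsmall y0 hy0 (by linarith) h2
    rw [hy3] at h3
    exact lt_irrefl _ h3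
  · have h1 : Real.sin (Real.pi / 2 - 4 * y0) ≤ Real.pi / 2 - 4 * y0 := Real.sin_le (by linarith)
    rw [Real.sin_pi_div_two_sub] at h1
    have h2 : 38 / 100 / v = 38 / 100 * v⁻¹ := div_eq_mul_inv _ _
    have h3 : 9 / 100 / v = 9 / 100 * v⁻¹ := div_eq_mul_inv _ _
    have h4 : 0 < v⁻¹ := inv_pos.2 (by linarith)
    rw [h2] at g2
    rw [h3]
    linarith

private theorem stkB_log (p0 h : ℂ) (h0 : 100 ≤ p0.re) (h1 : ‖h‖ ≤ 1) :
    ‖Complex.log (p0 + h) - Complex.log p0‖ ≤ ‖h‖ := by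
  have hconv : Convex ℝ {z : ℂ | 1 < z.re} := convex_halfSpace_re_gt 1
  have hd : ∀ z ∈ {z : ℂ | 1 < z.re},
      HasDerivWithinAt Complex.log z⁻¹ {z : ℂ | 1 < z.re} z := by
    intro z hz
    have h2 : 1 < z.re := hz
    exact (Complex.hasDerivAt_log (Or.inl (by linarith))).hasDerivWithinAt
  have hb : ∀ z ∈ {z : ℂ | 1 < z.re}, ‖z⁻¹‖ ≤ (1 : ℝ) := by
    intro z hz
    rw [norm_inv]
    have h2 : 1 < z.re := hz
    have h3 : z.re ≤ ‖z‖ := (le_abs_self _).trans (Complex.abs_re_le_norm z)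
    exact inv_le_one_of_one_le₀ (by linarith)
  have m1 : p0 ∈ {z : ℂ | 1 < z.re} := by
    show 1 < p0.re
    linarith
  have m2 : p0 + h ∈ {z : ℂ | 1 < z.re} := by
    show 1 < (p0 + h).re
    rw [Complex.add_re]
    have h2 := (abs_le.1 ((Complex.abs_re_le_norm h).trans h1)).1
    linarith
  have h2 := Convex.norm_image_sub_le_of_norm_hasDerivWithin_le hd hb hconv m1 m2
  rwa [one_mul, add_sub_cancel_left] at h2

theorem stk_chart : ∃ C V : ℝ, 100 ≤ V ∧ ∀ p0 : ℂ, V ≤ p0.re → 0 ≤ p0.im → p0.im ≤ 1 →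
    ∀ s : ℂ, ‖s‖ ≤ 6 → ∃ r : ℂ, ‖r‖ ≤ C / p0.re ∧
      WW (p0 + s / (8 * (Real.pi * cexp (4 * p0)) * p0)) = WW p0 * cexp (-s + r) := by
  refine ⟨60, 100, le_rfl, fun p0 hp hi0 hi1 s hs => ?_⟩
  obtain ⟨E, hE⟩ : ∃ E : ℂ, E = Real.pi * cexp (4 * p0) := ⟨_, rfl⟩
  rw [← hE]
  obtain ⟨h, hh⟩ : ∃ h : ℂ, h = s / (8 * E * p0) := ⟨_, rfl⟩
  rw [← hh]
  have hp0 : p0 ≠ 0 := by
    intro h1
    rw [h1, Complex.zero_re] at hp
    linarith
  have hE0 : E ≠ 0 := by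
    rw [hE]
    exact mul_ne_zero (Complex.ofReal_ne_zero.2 Real.pi_ne_zero) (Complex.exp_ne_zero _)
  have hEn : 1 ≤ ‖E‖ := by
    rw [hE, norm_mul, Complex.norm_real, Real.norm_of_nonneg Real.pi_pos.le, Complex.norm_exp]
    have h1 : (4 * p0).re = 4 * p0.re := by simp
    rw [h1]
    have h2 : 1 ≤ Real.exp (4 * p0.re) := Real.one_le_exp (by linarith)
    nlinarith [Real.pi_gt_three]
  have hpn : p0.re ≤ ‖p0‖ := (le_abs_self _).trans (Complex.abs_re_le_norm p0)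
  have hs8 : 8 * E * h * p0 = s := by
    rw [hh]
    field_simp
  have hnorm : 8 * ‖E‖ * ‖h‖ * ‖p0‖ = ‖s‖ := by
    rw [← hs8, norm_mul, norm_mul, norm_mul]
    norm_num
  have hv : 0 < p0.re := by linarith
  have hEh : ‖E‖ * ‖h‖ * p0.re ≤ 3 / 4 := by
    have h1 : ‖E‖ * ‖h‖ * p0.re ≤ ‖E‖ * ‖h‖ * ‖p0‖ :=
      mul_le_mul_of_nonneg_left hpn (by positivity)
    nlinarith
  have hxE : ‖h‖ ≤ ‖E‖ * ‖h‖ := le_mul_of_one_le_left (norm_nonneg _) hEn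
  have hEh' : ‖E‖ * ‖h‖ ≤ 3 / 4 * p0.re⁻¹ := by
    rw [← div_eq_mul_inv, le_div_iff₀ hv]
    exact hEh
  have hx1 : ‖h‖ ≤ 1 / 100 := by
    have h1 : p0.re⁻¹ ≤ (100 : ℝ)⁻¹ := inv_anti₀ (by norm_num) hp
    linarith
  have h4x : ‖4 * h‖ = 4 * ‖h‖ := by
    rw [norm_mul]
    norm_num
  have hX1 : ‖cexp (4 * h) - 1 - 4 * h‖ ≤ 16 * ‖h‖ ^ 2 := by
    have h1 := Complex.norm_exp_sub_one_sub_id_le (x := 4 * h) (by rw [h4x]; linarith)
    rw [h4x] at h1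
    linarith
  have hX2 : ‖cexp (4 * h)‖ ≤ 3 := by
    have h1 : ‖(1 : ℂ) + 4 * h‖ ≤ 1 + 4 * ‖h‖ := by
      refine (norm_add_le _ _).trans ?_
      rw [norm_one, h4x]
    have h2 : cexp (4 * h) = (cexp (4 * h) - 1 - 4 * h) + (1 + 4 * h) := by ring
    rw [h2]
    refine (norm_add_le _ _).trans ?_
    have h3 := norm_nonneg h
    nlinarith
  obtain ⟨r, hr⟩ : ∃ r : ℂ, r = (Complex.log (p0 + h) - Complex.log p0) / 2 - 9 * h -
      E * (cexp (4 * h) - 1 - 4 * h) * (2 * p0 - 1) + 4 * h * E - 2 * h * E * cexp (4 * h) :=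
    ⟨_, rfl⟩
  refine ⟨r, ?_, ?_⟩
  · have hl := stkB_log p0 h hp (by linarith)
    have b1 : ‖(Complex.log (p0 + h) - Complex.log p0) / 2‖ ≤ ‖h‖ / 2 := by
      rw [norm_div]
      have h2 : ‖(2 : ℂ)‖ = 2 := by norm_num
      rw [h2]
      linarith
    have b2 : ‖9 * h‖ = 9 * ‖h‖ := by
      rw [norm_mul]
      norm_num
    have b3 : ‖E * (cexp (4 * h) - 1 - 4 * h) * (2 * p0 - 1)‖ ≤ 36 * ‖h‖ := by
      rw [norm_mul, norm_mul]
      have h1 : ‖2 * p0 - 1‖ ≤ 3 * ‖p0‖ := by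
        refine (norm_sub_le _ _).trans ?_
        rw [norm_mul, norm_one]
        have h2 : ‖(2 : ℂ)‖ = 2 := by norm_num
        rw [h2]
        linarith
      calc ‖E‖ * ‖cexp (4 * h) - 1 - 4 * h‖ * ‖2 * p0 - 1‖
          ≤ ‖E‖ * (16 * ‖h‖ ^ 2) * (3 * ‖p0‖) := by gcongr
        _ = 6 * ‖h‖ * (8 * ‖E‖ * ‖h‖ * ‖p0‖) := by ring
        _ = 6 * ‖h‖ * ‖s‖ := by rw [hnorm]
        _ ≤ 6 * ‖h‖ * 6 := by gcongr
        _ = 36 * ‖h‖ := by ring
    have b4 : ‖4 * h * E‖ = 4 * (‖E‖ * ‖h‖) := by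
      rw [norm_mul, h4x]
      ring
    have b5 : ‖2 * h * E * cexp (4 * h)‖ ≤ 6 * (‖E‖ * ‖h‖) := by
      rw [norm_mul, norm_mul, norm_mul]
      have h2 : ‖(2 : ℂ)‖ = 2 := by norm_num
      rw [h2]
      calc 2 * ‖h‖ * ‖E‖ * ‖cexp (4 * h)‖ ≤ 2 * ‖h‖ * ‖E‖ * 3 := by gcongr
        _ = 6 * (‖E‖ * ‖h‖) := by ring
    have b6 : ‖r‖ ≤ ‖h‖ / 2 + 9 * ‖h‖ + 36 * ‖h‖ + 4 * (‖E‖ * ‖h‖) + 6 * (‖E‖ * ‖h‖) := by
      rw [hr]
      refine (norm_sub_le _ _).trans (add_le_add ?_ b5)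
      refine (norm_add_le _ _).trans (add_le_add ?_ b4.le)
      refine (norm_sub_le _ _).trans (add_le_add ?_ b3)
      exact (norm_sub_le _ _).trans (add_le_add b1 b2.le)
    have h7 : 60 / p0.re = 60 * p0.re⁻¹ := div_eq_mul_inv _ _
    have h8 : 0 < p0.re⁻¹ := inv_pos.2 hv
    rw [h7]
    linarith
  · have hexp : cexp (4 * (p0 + h)) = cexp (4 * p0) * cexp (4 * h) := by
      rw [mul_add, Complex.exp_add]
    unfold WW SS
    rw [mul_assoc (I * Ph 0 / (Real.pi : ℂ) ^ 2), ← Complex.exp_add, hexp, ← mul_assoc (Real.pi : ℂ),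
      ← hE]
    congr 2
    rw [hr, ← hs8]
    ring

private theorem stkC_exp_half_lt : Real.exp (1 / 2) < 1.65 := by
  have h1 : Real.exp (1 / 2) * Real.exp (1 / 2) = Real.exp 1 := by
    rw [← Real.exp_add]
    norm_num
  have h2 := Real.exp_one_lt_d9
  have h3 := Real.exp_pos (1 / 2)
  nlinarith

private theorem stkC_exp_half_gt : 1.64 < Real.exp (1 / 2) := by
  have h1 : Real.exp (1 / 2) * Real.exp (1 / 2) = Real.exp 1 := by
    rw [← Real.exp_add]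
    norm_num
  have h2 := Real.exp_one_gt_d9
  have h3 := Real.exp_pos (1 / 2)
  nlinarith

private theorem stkC_exp_three_half : Real.exp (3 / 2) ≤ 4.5 := by
  have h1 : Real.exp (3 / 2) = Real.exp 1 * Real.exp (1 / 2) := by
    rw [← Real.exp_add]
    norm_num
  have h2 := Real.exp_one_lt_d9
  have h3 := stkC_exp_half_lt
  have h4 := Real.exp_pos (1 / 2)
  have h5 := Real.exp_pos 1
  rw [h1]
  nlinarith

private theorem stkC_exp_neg_half : Real.exp (-(1 / 2)) ≤ 0.61 := by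
  rw [Real.exp_neg]
  have h := stkC_exp_half_gt
  have h4 := Real.exp_pos (1 / 2)
  rw [inv_le_comm₀ h4 (by norm_num)]
  refine le_trans ?_ h.le
  norm_num

theorem stk (V δ : ℝ) (hδ : 0 < δ) (ω : ℂ) (hω : ω = 1 ∨ ω = -1) : ∃ q d : ℂ, d ≠ 0 ∧
    (∀ σ : ℂ, ‖σ‖ ≤ 3 / 2 → q + d * σ ∈ Reg V ∧ ‖WW (q + d * σ) - 2 * ω * cexp (-σ)‖ ≤ δ) ∧
    (∀ σ : ℂ, ‖σ - 1‖ ≤ 1 / 2 → ∀ y : ℝ, 0 ≤ y → y ≤ (q + d * σ).im →
      (((q + d * σ).re : ℂ) + y * I) ∈ Reg V ∧ ‖WW (((q + d * σ).re : ℂ) + y * I)‖ ≤ 3 / 2) := by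
  obtain ⟨C, V2, hV2, hchart⟩ := stk_chart
  set δ' : ℝ := min δ (1 / 4) with hδ'
  have hδ'0 : 0 < δ' := lt_min hδ (by norm_num)
  have hδ'1 : δ' ≤ 1 / 4 := min_le_right _ _
  have hδ'2 : δ' ≤ δ := min_le_left _ _
  obtain ⟨v, hMv, hv100, hpt⟩ := stk_point (max (V + 1) (max V2 (20 * (|C| + 1) / δ')))
  obtain ⟨y0, hy1, hy2, hW0⟩ := hpt v le_rfl
  have hvV : V + 1 ≤ v := le_trans (le_max_left _ _) hMv
  have hvV2 : V2 ≤ v := le_trans (le_trans (le_max_left _ _) (le_max_right _ _)) hMv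
  have hvC : 20 * (|C| + 1) / δ' ≤ v :=
    le_trans (le_trans (le_max_right _ _) (le_max_right _ _)) hMv
  have hv0 : 0 < v := by linarith
  have hCv : |C| / v ≤ δ' / 20 := by
    rw [div_le_iff₀ hδ'0] at hvC
    rw [div_le_iff₀ hv0]
    linarith
  have hCv' : C / v ≤ δ' / 20 := le_trans (div_le_div_of_nonneg_right (le_abs_self C) hv0.le) hCv
  set p0 : ℂ := (v : ℂ) + y0 * I with hp0
  have hp0re : p0.re = v := by simp [hp0]
  have hp0im : p0.im = y0 := by simp [hp0]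
  have hpi := Real.pi_lt_d2
  have hpi3 := Real.pi_gt_three
  have hn1 : v ≤ ‖p0‖ := by
    rw [← hp0re]
    exact le_trans (le_abs_self _) (Complex.abs_re_le_norm p0)
  have hp0ne : p0 ≠ 0 := by
    intro h
    rw [h, norm_zero] at hn1
    linarith
  set D0 : ℂ := 8 * (Real.pi * cexp (4 * p0)) * p0 with hD0
  have hpine : (Real.pi : ℂ) ≠ 0 := by exact_mod_cast Real.pi_ne_zero
  have hD0ne : D0 ≠ 0 :=
    mul_ne_zero (mul_ne_zero (by norm_num) (mul_ne_zero hpine (Complex.exp_ne_zero _))) hp0ne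
  have hexp : (401 : ℝ) ≤ ‖cexp (4 * p0)‖ := by
    have h1 : (4 * p0).re = 4 * v := by simp [hp0re]
    rw [Complex.norm_exp, h1]
    have h2 := Real.add_one_le_exp (4 * v)
    linarith
  have hD0n : 9000 * v ≤ ‖D0‖ := by
    have h1 : ‖D0‖ = 8 * (Real.pi * ‖cexp (4 * p0)‖) * ‖p0‖ := by
      rw [hD0, norm_mul, norm_mul, norm_mul, Complex.norm_real, Real.norm_of_nonneg Real.pi_pos.le]
      norm_num
    rw [h1]
    have h2 : 3 * 401 ≤ Real.pi * ‖cexp (4 * p0)‖ := by nlinarith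
    have h3 : (9000 : ℝ) ≤ 8 * (Real.pi * ‖cexp (4 * p0)‖) := by linarith
    exact mul_le_mul h3 hn1 hv0.le (by linarith)
  have hD0pos : 0 < ‖D0‖ := by
    refine lt_of_lt_of_le ?_ hD0n
    linarith
  have hsmall : ∀ s : ℂ, ‖s‖ ≤ 6 → ‖s / D0‖ ≤ 1 / (1000 * v) := by
    intro s hs
    rw [norm_div, div_le_div_iff₀ hD0pos (by linarith)]
    nlinarith
  have hsm2 : 1 / (1000 * v) ≤ 1 / 1000 := by
    refine one_div_le_one_div_of_le (by norm_num) ?_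
    linarith
  have hsm3 : 1 / (1000 * v) < 9 / 100 / v := by
    rw [div_div, div_lt_div_iff₀ (by linarith) (by linarith)]
    linarith
  have hωn : ‖ω‖ = 1 := by
    rcases hω with h | h <;> rw [h] <;> simp
  have hωne : ω ≠ 0 := by
    intro h
    rw [h, norm_zero] at hωn
    exact zero_ne_one hωn
  set w : ℂ := WW p0 / (2 * ω) with hw
  have hwn : ‖w‖ = 1 := by
    rw [hw, norm_div, norm_mul, hωn, hW0]
    norm_num
  have hwne : w ≠ 0 := by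
    intro h
    rw [h, norm_zero] at hwn
    exact zero_ne_one hwn
  set s0 : ℂ := Complex.log w with hs0
  have hs0n : ‖s0‖ ≤ Real.pi := by
    have h1 : s0 = (Complex.arg w : ℂ) * I := by
      rw [hs0, Complex.log, hwn, Real.log_one]
      simp
    rw [h1, norm_mul, Complex.norm_I, mul_one, Complex.norm_real]
    exact Complex.abs_arg_le_pi w
  have hexps0 : WW p0 * cexp (-s0) = 2 * ω := by
    rw [Complex.exp_neg, hs0, Complex.exp_log hwne, hw]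
    have h2 : WW p0 ≠ 0 := by
      intro h
      rw [h, norm_zero] at hW0
      norm_num at hW0
    field_simp
  -- the key facts about the points `q + d σ`
  have key : ∀ σ : ℂ, ‖σ‖ ≤ 3 / 2 → ((p0 + s0 / D0) + 1 / D0 * σ) ∈ Reg V ∧
      ‖WW ((p0 + s0 / D0) + 1 / D0 * σ) - 2 * ω * cexp (-σ)‖ ≤ δ' := by
    intro σ hσ
    have hs6 : ‖s0 + σ‖ ≤ 6 := by
      refine le_trans (norm_add_le _ _) ?_
      linarith
    have heq : (p0 + s0 / D0) + 1 / D0 * σ = p0 + (s0 + σ) / D0 := by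
      rw [add_div, div_mul_eq_mul_div, one_mul]
      ring
    obtain ⟨r, hr, hWr⟩ := hchart p0 (by rw [hp0re]; exact hvV2) (by rw [hp0im]; linarith)
      (by rw [hp0im]; have := div_pos (show (0 : ℝ) < 9 / 100 by norm_num) hv0; linarith)
      (s0 + σ) hs6
    rw [hp0re] at hr
    have hr1 : ‖r‖ ≤ δ' / 20 := le_trans hr hCv'
    have hWeq : WW (p0 + (s0 + σ) / D0) = 2 * ω * cexp (-σ) * cexp r := by
      rw [hWr, ← hexps0]
      have h1 : cexp (-(s0 + σ) + r) = cexp (-s0) * cexp (-σ) * cexp r := by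
        rw [← Complex.exp_add, ← Complex.exp_add]
        congr 1
        ring
      rw [h1]
      ring
    have hexpσ : ‖cexp (-σ)‖ ≤ 4.5 := by
      rw [Complex.norm_exp]
      refine le_trans (Real.exp_le_exp.2 ?_) stkC_exp_three_half
      refine le_trans (le_abs_self _) (le_trans (Complex.abs_re_le_norm _) ?_)
      rw [norm_neg]
      exact hσ
    have hdiff : ‖WW (p0 + (s0 + σ) / D0) - 2 * ω * cexp (-σ)‖ ≤ δ' := by
      have h1 : WW (p0 + (s0 + σ) / D0) - 2 * ω * cexp (-σ) =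
          2 * ω * cexp (-σ) * (cexp r - 1) := by
        rw [hWeq]
        ring
      rw [h1, norm_mul, norm_mul, norm_mul, hωn]
      have h2 : ‖cexp r - 1‖ ≤ 2 * ‖r‖ := Complex.norm_exp_sub_one_le (by linarith)
      have h3 : ‖cexp r - 1‖ ≤ δ' / 10 := by linarith
      have h4 : ‖(2 : ℂ)‖ = 2 := by norm_num
      rw [h4, mul_one]
      have h5 : 2 * ‖cexp (-σ)‖ * ‖cexp r - 1‖ ≤ 2 * 4.5 * (δ' / 10) :=
        mul_le_mul (by linarith) h3 (norm_nonneg _) (by norm_num)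
      refine le_trans h5 ?_
      linarith
    rw [heq]
    refine ⟨⟨?_, ?_, ?_, ?_⟩, hdiff⟩
    · have h1 := Complex.abs_re_le_norm ((s0 + σ) / D0)
      have h2 := hsmall _ hs6
      have h3 := neg_abs_le ((s0 + σ) / D0).re
      rw [Complex.add_re, hp0re]
      linarith
    · have h1 := Complex.abs_im_le_norm ((s0 + σ) / D0)
      have h2 := hsmall _ hs6
      have h3 := neg_abs_le ((s0 + σ) / D0).im
      rw [Complex.add_im, hp0im]
      linarith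
    · have h1 := Complex.abs_im_le_norm ((s0 + σ) / D0)
      have h2 := hsmall _ hs6
      have h3 := le_abs_self ((s0 + σ) / D0).im
      rw [Complex.add_im, hp0im]
      linarith
    · have h1 : ‖2 * ω * cexp (-σ)‖ ≤ 9 := by
        rw [norm_mul, norm_mul, hωn]
        have h4 : ‖(2 : ℂ)‖ = 2 := by norm_num
        rw [h4, mul_one]
        linarith
      have h2 := norm_le_norm_add_norm_sub' (WW (p0 + (s0 + σ) / D0)) (2 * ω * cexp (-σ))
      linarith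
  refine ⟨p0 + s0 / D0, 1 / D0, one_div_ne_zero hD0ne,
    fun σ hσ => ⟨(key σ hσ).1, le_trans (key σ hσ).2 hδ'2⟩, ?_⟩
  intro σ hσ y hy0 hy1'
  have hσn : ‖σ‖ ≤ 3 / 2 := by
    have h1 := norm_le_norm_add_norm_sub' σ 1
    rw [norm_one] at h1
    linarith
  obtain ⟨hR, hW⟩ := key σ hσn
  set z : ℂ := (p0 + s0 / D0) + 1 / D0 * σ with hz
  have hσre : 1 / 2 ≤ σ.re := by
    have h1 := Complex.abs_re_le_norm (σ - 1)
    have h2 := neg_abs_le (σ - 1).re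
    rw [Complex.sub_re, Complex.one_re] at h1 h2
    linarith
  have hWz : ‖WW z‖ ≤ 3 / 2 := by
    have h1 : ‖2 * ω * cexp (-σ)‖ ≤ 1.22 := by
      rw [norm_mul, norm_mul, hωn]
      have h4 : ‖(2 : ℂ)‖ = 2 := by norm_num
      rw [h4, mul_one, Complex.norm_exp, Complex.neg_re]
      have h5 : Real.exp (-σ.re) ≤ 0.61 :=
        le_trans (Real.exp_le_exp.2 (by linarith)) stkC_exp_neg_half
      linarith
    have h2 := norm_le_norm_add_norm_sub' (WW z) (2 * ω * cexp (-σ))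
    linarith
  have hre1 : 1 ≤ z.re ∧ V ≤ z.re := by
    refine ⟨?_, hR.1⟩
    have hs6 : ‖s0 + σ‖ ≤ 6 := by
      refine le_trans (norm_add_le _ _) ?_
      linarith
    have heq : z = p0 + (s0 + σ) / D0 := by
      rw [hz, add_div, div_mul_eq_mul_div, one_mul]
      ring
    have h1 := Complex.abs_re_le_norm ((s0 + σ) / D0)
    have h2 := hsmall _ hs6
    have h3 := neg_abs_le ((s0 + σ) / D0).re
    rw [heq, Complex.add_re, hp0re]
    linarith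
  have hmono := reg_mono z.re y z.im hre1.1 hy0 hy1' hR.2.2.1.le
  rw [Complex.re_add_im] at hmono
  have hfin : ‖WW ((z.re : ℂ) + y * I)‖ ≤ 3 / 2 := le_trans hmono hWz
  have hre : ((z.re : ℂ) + y * I).re = z.re := by simp
  have him : ((z.re : ℂ) + y * I).im = y := by simp
  refine ⟨⟨?_, ?_, ?_, ?_⟩, hfin⟩
  · rw [hre]
    exact hre1.2
  · rw [him]
    exact hy0
  · rw [him]
    exact lt_of_le_of_lt hy1' hR.2.2.1
  · linarith

end Pool.Agent.Lib.MP_ec260d_ntC
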