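import Mathlib
import Pool.Agent.Lib.MP_ec260d_ntC.DefsW
import Pool.Agent.Lib.MP_ec260d_ntC.UZ
import Pool.Agent.Lib.MP_ec260d_ntC.Cell

/-!
# JOB TLoc: existence of a double point (about 300 lines)

`c0 = π (m + 1)`, `ω = (-1)^m`, so `cos (c0 + d) = -ω cos d`.  `ε = 1/100`, `M ≥ c0 + 8`.
(1) Critical points.  Let `‖σ‖ ≤ 3/2`.  `f = deriv (F σ)` on `closedBall c0 (1/2)`: `f' = deriv (deriv (F σ))` is within `ε` of `-2 cos ζ = 2 ω cos (ζ - c0)` (`nr_deriv`), and `Re cos (x + iy) = cos x cosh y ≥ cos (1/2) ≥ 0.87` for `|x| ≤ 1/2`, so `Re (ω f') ≥ 1.74 - 0.01 ≥ 3/2`; `‖f c0‖ ≤ ε` (`sin c0 = 0`).  `uz` (`R = 1/2`, `m = 3/2`): a unique critical point `zc σ` in the closed ball,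
`‖zc σ - c0‖ ≤ ε/(3/2) ≤ 1/150`.
(2) `zc` is Lipschitz on `‖σ‖ ≤ 1/2`: `(3/2) ‖zc σ' - zc σ‖ ≤ ‖f_σ' (zc σ') - f_σ' (zc σ)‖ = ‖f_σ' (zc σ) - f_σ (zc σ)‖ ≤ sup_{‖ζ - zc σ‖ = 1} ‖F σ' ζ - F σ ζ‖` (Cauchy's estimate for `F σ' - F σ`), and for fixed `ζ`, `‖F σ' ζ - F σ ζ‖ ≤ C ‖σ' - σ‖` with `C` the bound of `∂_σ F` for `‖σ‖ ≤ 1/2` (Cauchy's estimate in `σ` with radius `3/4`: `‖F‖` is bounded
on `‖σ‖ ≤ 5/4`, `‖ζ‖ ≤ M`).
(3) `h σ = F σ (zc σ)`, `‖σ‖ < 1/2`: `h σ' - h σ = (F σ' (zc σ') - F σ' (zc σ)) + (F σ' (zc σ) - F σ (zc σ))`; the first bracket is `O(‖zc σ' - zc σ‖²) = O(‖σ' - σ‖²)` because `deriv (F σ') (zc σ') = 0` and the second derivative is bounded (by 5); so `h` has derivative `∂_σ F (σ, zc σ)` at `σ`, which is within `(4/3) ε` (Cauchy, radius `3/4`) of `-2 ω e^{-σ}`.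
`Re e^{-σ} ≥ e^{-1/2} cos (1/2) ≥ 0.53` for `‖σ‖ ≤ 1/2`, so `Re (-ω h') ≥ 1.06 - 0.014 ≥ 1`.  `‖h 0‖ ≤ ‖2 cos (zc 0) + 2ω‖ + ε = 2 ‖1 - cos (zc 0 - c0)‖ + ε ≤ 2 (1/150)² + ε ≤ 0.011`.  `uz` with `c = 0`, `R = 1/2`, `m = 1`: `h σc = 0`, `‖σc‖ ≤ 0.011 ≤ 1/40`.  Put `ζc = zc σc`.
`deriv (deriv (F σc)) ζc ≠ 0` by `Re (ω f') ≥ 3/2`.
(4) Uniqueness of the zero.  Let `F σc ζ = 0`, `|Re (ζ - c0)| ≤ π`, `|Im ζ| ≤ 3`, `d = ζ - c0`: `‖2 cos ζ + 2ωe^{-σc}‖ ≤ ε`, i.e. `‖cos d - e^{-σc}‖ ≤ ε/2`, so `2 ‖sin (d/2)‖² = ‖1 - cos d‖ ≤ 0.005 + ‖e^{-σc} - 1‖ ≤ 0.005 + 0.012`, `‖sin (d/2)‖ ≤ 0.1` and by `sin_lower` `‖d‖ ≤ π * 0.1 < 1/2`.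
If `ζ ≠ ζc` both are in `ball c0 (1/2)`, convex, `G = F σc` has `G ζ = G ζc = G' ζc = 0` and `Re (ω G'') ≥ 3/2`: `G ζ = (ζ - ζc)² ∫_0^1 (1 - s) G''(ζc + s (ζ - ζc)) ds`, whose real part times `ω` is at least `3/4`: not zero.  (Or: `g(s) = ω conj(ζ-ζc)² G(ζc + s(ζ - ζc))`: `Re g(0) = Re g'(0) = 0`, `Re g'' ≥ (3/2)‖ζ-ζc‖⁴ > 0`, so `Re g(1) > 0`.)
-/

namespace Pool.Agent.Lib.MP_ec260d_ntC

open Complex Set Filter Topology Metric MeasureTheory

private lemma tloc_om2 (m : ℕ) : ((-1 : ℂ) ^ m) * (-1) ^ m = 1 := by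
  rw [← mul_pow]; norm_num

private lemma tloc_omn (m : ℕ) : ‖((-1 : ℂ) ^ m)‖ = 1 := by
  rw [norm_pow, norm_neg, norm_one, one_pow]

private lemma tloc_c0 (m : ℕ) : Complex.cos ((Real.pi : ℂ) * ((m : ℂ) + 1)) = -(-1) ^ m ∧
    Complex.sin ((Real.pi : ℂ) * ((m : ℂ) + 1)) = 0 := by
  have h1 := Real.cos_nat_mul_pi (m + 1)
  have h2 := Real.sin_nat_mul_pi (m + 1)
  have h3 : (Real.pi : ℂ) * ((m : ℂ) + 1) = ((((m + 1 : ℕ) : ℝ) * Real.pi : ℝ) : ℂ) := by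
    push_cast; ring
  rw [h3, ← Complex.ofReal_cos, ← Complex.ofReal_sin, h1, h2]
  constructor
  · push_cast; ring
  · simp

private lemma tloc_cos (m : ℕ) (ζ : ℂ) :
    Complex.cos ζ = -((-1) ^ m * Complex.cos (ζ - Real.pi * (m + 1))) := by
  have h : ζ = (Real.pi : ℂ) * ((m : ℂ) + 1) + (ζ - Real.pi * (m + 1)) := by ring
  calc Complex.cos ζ = Complex.cos ((Real.pi : ℂ) * ((m : ℂ) + 1) + (ζ - Real.pi * (m + 1))) := by
        rw [← h]
    _ = _ := by rw [Complex.cos_add, (tloc_c0 m).1, (tloc_c0 m).2]; ring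

private lemma tloc_sin (m : ℕ) (ζ : ℂ) :
    Complex.sin ζ = -((-1) ^ m * Complex.sin (ζ - Real.pi * (m + 1))) := by
  have h : ζ = (Real.pi : ℂ) * ((m : ℂ) + 1) + (ζ - Real.pi * (m + 1)) := by ring
  calc Complex.sin ζ = Complex.sin ((Real.pi : ℂ) * ((m : ℂ) + 1) + (ζ - Real.pi * (m + 1))) := by
        rw [← h]
    _ = _ := by rw [Complex.sin_add, (tloc_c0 m).1, (tloc_c0 m).2]; ring

private lemma tloc_sin_le (d : ℂ) (hd : ‖d‖ ≤ 1) : ‖Complex.sin d‖ ≤ 2 * ‖d‖ := by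
  have h1 : ‖-d * I‖ = ‖d‖ := by rw [norm_mul, norm_neg, Complex.norm_I, mul_one]
  have h2 : ‖d * I‖ = ‖d‖ := by rw [norm_mul, Complex.norm_I, mul_one]
  have h3 := Complex.norm_exp_sub_one_le (x := -d * I) (by rw [h1]; exact hd)
  have h4 := Complex.norm_exp_sub_one_le (x := d * I) (by rw [h2]; exact hd)
  have h5 : Complex.sin d = ((cexp (-d * I) - 1) - (cexp (d * I) - 1)) * (I / 2) := by
    rw [Complex.sin]; ring
  rw [h1] at h3
  rw [h2] at h4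
  have h6 : ‖(I / 2 : ℂ)‖ = 1 / 2 := by
    rw [norm_div, Complex.norm_I]; norm_num
  rw [h5, norm_mul, h6]
  have h7 := norm_sub_le (cexp (-d * I) - 1) (cexp (d * I) - 1)
  linarith

private lemma tloc_half (d : ℂ) : 1 - Complex.cos d = 2 * Complex.sin (d / 2) ^ 2 := by
  have h1 : Complex.cos d = Complex.cos (2 * (d / 2)) := by
    congr 1; ring
  rw [h1, Complex.cos_two_mul, Complex.sin_sq]
  ring

private lemma tloc_cos_le (d : ℂ) (hd : ‖d‖ ≤ 1) : ‖1 - Complex.cos d‖ ≤ 2 * ‖d‖ ^ 2 := by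
  rw [tloc_half, norm_mul, norm_pow]
  have h0 : ‖d / 2‖ = ‖d‖ / 2 := by rw [norm_div]; norm_num
  have h1 := tloc_sin_le (d / 2) (by rw [h0]; linarith [norm_nonneg d])
  rw [h0] at h1
  have h2 : ‖Complex.sin (d / 2)‖ ≤ ‖d‖ := by linarith
  have h3 : ‖Complex.sin (d / 2)‖ ^ 2 ≤ ‖d‖ ^ 2 := pow_le_pow_left₀ (norm_nonneg _) h2 2
  have h4 : ‖(2 : ℂ)‖ = 2 := by norm_num
  rw [h4]
  linarith

private lemma tloc_uniq {G : ℂ → ℂ} (hG : Differentiable ℂ G) (ω : ℂ) {s : Set ℂ}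
    (hs : Convex ℝ s) (hpos : ∀ z ∈ s, 0 < (ω * deriv (deriv G) z).re) {a b : ℂ} (ha : a ∈ s)
    (hb : b ∈ s) (h0 : G a = 0) (h1 : deriv G a = 0) (h2 : G b = 0) : b = a := by
  by_contra hab
  have hv : b - a ≠ 0 := sub_ne_zero.mpr hab
  set v : ℂ := b - a with hvdef
  have hG1 : Differentiable ℂ (deriv G) := hG.deriv
  have hlin : ∀ z : ℂ, HasDerivAt (fun z : ℂ => a + z * v) v z := by
    intro z
    have h := ((hasDerivAt_id z).mul_const v).const_add a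
    rwa [one_mul] at h
  have hd0 : ∀ z : ℂ, HasDerivAt (fun z : ℂ => ω * (starRingEnd ℂ v) ^ 2 * G (a + z * v))
      (ω * (starRingEnd ℂ v) ^ 2 * (deriv G (a + z * v) * v)) z := fun z =>
    ((hG (a + z * v)).hasDerivAt.comp z (hlin z)).const_mul _
  have hd1 : ∀ z : ℂ, HasDerivAt (fun z : ℂ => ω * (starRingEnd ℂ v) ^ 2 * (deriv G (a + z * v) * v))
      (ω * (starRingEnd ℂ v) ^ 2 * (deriv (deriv G) (a + z * v) * v * v)) z := fun z =>
    (((hG1 (a + z * v)).hasDerivAt.comp z (hlin z)).mul_const v).const_mul _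
  have hr0 : ∀ x : ℝ, HasDerivAt
      (fun x : ℝ => (ω * (starRingEnd ℂ v) ^ 2 * G (a + (x : ℂ) * v)).re)
      (ω * (starRingEnd ℂ v) ^ 2 * (deriv G (a + (x : ℂ) * v) * v)).re x :=
    fun x => (hd0 (x : ℂ)).real_of_complex
  have hr1 : ∀ x : ℝ, HasDerivAt
      (fun x : ℝ => (ω * (starRingEnd ℂ v) ^ 2 * (deriv G (a + (x : ℂ) * v) * v)).re)
      (ω * (starRingEnd ℂ v) ^ 2 * (deriv (deriv G) (a + (x : ℂ) * v) * v * v)).re x :=
    fun x => (hd1 (x : ℂ)).real_of_complex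
  have hseg : ∀ x : ℝ, 0 ≤ x → x ≤ 1 → a + (x : ℂ) * v ∈ s := by
    intro x hx0 hx1
    have h3 := hs ha hb (by linarith : 0 ≤ 1 - x) hx0 (by ring)
    have h4 : (1 - x) • a + x • b = a + (x : ℂ) * v := by
      rw [hvdef, Complex.real_smul, Complex.real_smul]
      push_cast
      ring
    rwa [h4] at h3
  have hposx : ∀ x : ℝ, 0 ≤ x → x ≤ 1 →
      0 < (ω * (starRingEnd ℂ v) ^ 2 * (deriv (deriv G) (a + (x : ℂ) * v) * v * v)).re := by
    intro x hx0 hx1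
    have h3 : ω * (starRingEnd ℂ v) ^ 2 * (deriv (deriv G) (a + (x : ℂ) * v) * v * v) =
        ((Complex.normSq v ^ 2 : ℝ) : ℂ) * (ω * deriv (deriv G) (a + (x : ℂ) * v)) := by
      push_cast
      rw [← Complex.mul_conj]
      ring
    rw [h3, Complex.re_ofReal_mul]
    have h4 : 0 < Complex.normSq v := Complex.normSq_pos.mpr hv
    exact mul_pos (by positivity) (hpos _ (hseg x hx0 hx1))
  have hq1 : StrictMonoOn
      (fun x : ℝ => (ω * (starRingEnd ℂ v) ^ 2 * (deriv G (a + (x : ℂ) * v) * v)).re)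
      (Icc (0 : ℝ) 1) := by
    apply strictMonoOn_of_deriv_pos (convex_Icc 0 1)
    · exact fun x _ => (hr1 x).continuousAt.continuousWithinAt
    · intro x hx
      rw [interior_Icc] at hx
      rw [(hr1 x).deriv]
      exact hposx x hx.1.le hx.2.le
  have hq10 : (ω * (starRingEnd ℂ v) ^ 2 * (deriv G (a + ((0 : ℝ) : ℂ) * v) * v)).re = 0 := by
    rw [Complex.ofReal_zero, zero_mul, add_zero, h1, zero_mul, mul_zero, Complex.zero_re]
  have hq0 : StrictMonoOn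
      (fun x : ℝ => (ω * (starRingEnd ℂ v) ^ 2 * G (a + (x : ℂ) * v)).re) (Icc (0 : ℝ) 1) := by
    apply strictMonoOn_of_deriv_pos (convex_Icc 0 1)
    · exact fun x _ => (hr0 x).continuousAt.continuousWithinAt
    · intro x hx
      rw [interior_Icc] at hx
      rw [(hr0 x).deriv]
      have h3 := hq1 (left_mem_Icc.mpr zero_le_one) (Ioo_subset_Icc_self hx) hx.1
      simp only at h3
      rw [hq10] at h3
      exact h3
  have h5 := hq0 (left_mem_Icc.mpr zero_le_one) (right_mem_Icc.mpr zero_le_one) zero_lt_one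
  simp only at h5
  rw [Complex.ofReal_zero, Complex.ofReal_one, zero_mul, add_zero, one_mul, hvdef,
    add_sub_cancel, h0, h2, mul_zero, Complex.zero_re] at h5
  exact lt_irrefl _ h5

/-- the hypotheses in the form used below -/
private lemma tloc_gz {F : ℂ → ℂ} {w : ℂ} {M : ℝ} (h : nr F w M) {c : ℂ} {r : ℝ}
    (hr : ∀ ζ ∈ closedBall c r, ‖ζ‖ ≤ M - 2) {x y : ℂ} (hx : x ∈ closedBall c r)
    (hy : y ∈ closedBall c r) :
    ‖(F y - 2 * Complex.cos y) - (F x - 2 * Complex.cos x)‖ ≤ 1 / 100 * ‖y - x‖ ∧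
    ‖(deriv F y + 2 * Complex.sin y) - (deriv F x + 2 * Complex.sin x)‖ ≤ 1 / 100 * ‖y - x‖ := by
  have hF := h.1
  have hF1 : Differentiable ℂ (deriv F) := hF.deriv
  constructor
  · refine Convex.norm_image_sub_le_of_norm_hasDerivWithin_le
      (f := fun z => F z - 2 * Complex.cos z) (f' := fun z => deriv F z + 2 * Complex.sin z)
      (s := closedBall c r) ?_ ?_ (convex_closedBall c r) hx hy
    · intro z _
      have h1 := (hF z).hasDerivAt.sub ((Complex.hasDerivAt_cos z).const_mul 2)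
      have h2 : deriv F z - 2 * -Complex.sin z = deriv F z + 2 * Complex.sin z := by ring
      rw [h2] at h1
      exact h1.hasDerivWithinAt
    · intro z hz
      exact (nr_deriv h z (hr z hz)).1
  · refine Convex.norm_image_sub_le_of_norm_hasDerivWithin_le
      (f := fun z => deriv F z + 2 * Complex.sin z)
      (f' := fun z => deriv (deriv F) z + 2 * Complex.cos z)
      (s := closedBall c r) ?_ ?_ (convex_closedBall c r) hx hy
    · intro z _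
      exact ((hF1 z).hasDerivAt.add ((Complex.hasDerivAt_sin z).const_mul 2)).hasDerivWithinAt
    · intro z hz
      exact (nr_deriv h z (hr z hz)).2

private lemma tloc_gs {F : ℂ → ℂ → ℂ} {M : ℝ} (ω : ℂ)
    (h : ∀ σ : ℂ, ‖σ‖ ≤ 3 / 2 → nr (F σ) (2 * ω * cexp (-σ)) M)
    (hσ : ∀ σ ζ : ℂ, ‖σ‖ < 3 / 2 → DifferentiableAt ℂ (fun s => F s ζ) σ) {x y ζ : ℂ}
    (hx : x ∈ closedBall (0 : ℂ) (1 / 40)) (hy : y ∈ closedBall (0 : ℂ) (1 / 40)) (hζ : ‖ζ‖ ≤ M) :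
    ‖(F y ζ - 2 * ω * cexp (-y)) - (F x ζ - 2 * ω * cexp (-x))‖ ≤ 1 / 100 * ‖y - x‖ := by
  have hE : Differentiable ℂ (fun s : ℂ => 2 * ω * cexp (-s)) := by fun_prop
  have hd : ∀ s : ℂ, ‖s‖ < 3 / 2 →
      DifferentiableAt ℂ (fun s => F s ζ - 2 * Complex.cos ζ - 2 * ω * cexp (-s)) s :=
    fun s hs => ((hσ s ζ hs).sub_const _).sub (hE s)
  have h1 : ∀ s ∈ closedBall (0 : ℂ) (1 / 40),
      ‖deriv (fun s => F s ζ - 2 * Complex.cos ζ - 2 * ω * cexp (-s)) s‖ ≤ 1 / 100 := by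
    intro s hs
    have hs1 : ‖s‖ ≤ 1 / 40 := by rwa [mem_closedBall_zero_iff] at hs
    have hc : DiffContOnCl ℂ (fun s => F s ζ - 2 * Complex.cos ζ - 2 * ω * cexp (-s)) (ball s 1) := by
      refine DifferentiableOn.diffContOnCl_ball (U := ball (0 : ℂ) (3 / 2)) ?_ ?_
      · intro z hz
        exact (hd z (by rwa [mem_ball_zero_iff] at hz)).differentiableWithinAt
      · intro z hz
        rw [mem_closedBall, dist_eq_norm] at hz
        rw [mem_ball_zero_iff]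
        have := norm_le_norm_add_norm_sub s z
        rw [norm_sub_rev] at hz
        linarith
    have h2 := Complex.norm_deriv_le_of_forall_mem_sphere_norm_le (C := 1 / 100) one_pos hc (by
      intro z hz
      rw [mem_sphere, dist_eq_norm] at hz
      have h3 := norm_le_norm_add_norm_sub s z
      rw [norm_sub_rev] at hz
      exact (h z (by linarith)).2 ζ hζ)
    rwa [div_one] at h2
  have h4 := Convex.norm_image_sub_le_of_norm_deriv_le
    (f := fun s => F s ζ - 2 * Complex.cos ζ - 2 * ω * cexp (-s)) (C := 1 / 100)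
    (fun s hs => hd s (by
      have hs1 : ‖s‖ ≤ 1 / 40 := by rwa [mem_closedBall_zero_iff] at hs
      linarith)) h1 (convex_closedBall (0 : ℂ) (1 / 40)) hx hy
  have h5 : (F y ζ - 2 * ω * cexp (-y)) - (F x ζ - 2 * ω * cexp (-x)) =
      (F y ζ - 2 * Complex.cos ζ - 2 * ω * cexp (-y)) -
        (F x ζ - 2 * Complex.cos ζ - 2 * ω * cexp (-x)) := by ring
  rw [h5]
  exact h4

private lemma tloc_gzs {F : ℂ → ℂ → ℂ} {M : ℝ} (ω : ℂ)
    (h : ∀ σ : ℂ, ‖σ‖ ≤ 3 / 2 → nr (F σ) (2 * ω * cexp (-σ)) M)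
    (hσ : ∀ σ ζ : ℂ, ‖σ‖ < 3 / 2 → DifferentiableAt ℂ (fun s => F s ζ) σ) {x y ζ : ℂ}
    (hx : x ∈ closedBall (0 : ℂ) (1 / 40)) (hy : y ∈ closedBall (0 : ℂ) (1 / 40))
    (hζ : ‖ζ‖ ≤ M - 1) :
    ‖deriv (F y) ζ - deriv (F x) ζ‖ ≤ 1 / 100 * ‖y - x‖ := by
  have hx1 : ‖x‖ ≤ 3 / 2 := by
    rw [mem_closedBall_zero_iff] at hx; linarith
  have hy1 : ‖y‖ ≤ 3 / 2 := by
    rw [mem_closedBall_zero_iff] at hy; linarith
  have hFx := (h x hx1).1
  have hFy := (h y hy1).1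
  set k : ℂ := 2 * ω * cexp (-y) - 2 * ω * cexp (-x) with hk
  have hD : Differentiable ℂ (fun z => F y z - F x z - k) := (hFy.sub hFx).sub_const k
  have h1 : deriv (fun z => F y z - F x z - k) ζ = deriv (F y) ζ - deriv (F x) ζ :=
    (((hFy ζ).hasDerivAt.sub (hFx ζ).hasDerivAt).sub_const k).deriv
  have h2 := Complex.norm_deriv_le_of_forall_mem_sphere_norm_le (c := ζ) (R := 1)
    (C := 1 / 100 * ‖y - x‖) (f := fun z => F y z - F x z - k) one_pos hD.diffContOnCl (by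
      intro z hz
      rw [mem_sphere, dist_eq_norm] at hz
      have h3 := norm_le_norm_add_norm_sub ζ z
      rw [norm_sub_rev] at hz
      have h4 := tloc_gs ω h hσ hx hy (ζ := z) (by linarith)
      have h5 : F y z - F x z - k = (F y z - 2 * ω * cexp (-y)) - (F x z - 2 * ω * cexp (-x)) := by
        rw [hk]; ring
      rw [h5]
      exact h4)
  rw [h1, div_one] at h2
  exact h2

private lemma tloc_expL {x y : ℂ} (hx : x ∈ closedBall (0 : ℂ) (1 / 40))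
    (hy : y ∈ closedBall (0 : ℂ) (1 / 40)) :
    ‖(y + cexp (-y)) - (x + cexp (-x))‖ ≤ 1 / 20 * ‖y - x‖ := by
  refine Convex.norm_image_sub_le_of_norm_hasDerivWithin_le (f := fun z => z + cexp (-z))
    (f' := fun z => 1 + cexp (-z) * -1) (s := closedBall (0 : ℂ) (1 / 40)) ?_ ?_
    (convex_closedBall _ _) hx hy
  · intro z _
    exact ((hasDerivAt_id z).add ((hasDerivAt_neg z).cexp)).hasDerivWithinAt
  · intro z hz
    rw [mem_closedBall_zero_iff] at hz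
    have h1 := Complex.norm_exp_sub_one_le (x := -z) (by rw [norm_neg]; linarith)
    rw [norm_neg] at h1
    have h2 : 1 + cexp (-z) * -1 = -(cexp (-z) - 1) := by ring
    rw [h2, norm_neg]
    linarith

private lemma tloc_cosL (m : ℕ) {x y : ℂ}
    (hx : x ∈ closedBall ((Real.pi : ℂ) * ((m : ℂ) + 1)) (1 / 40))
    (hy : y ∈ closedBall ((Real.pi : ℂ) * ((m : ℂ) + 1)) (1 / 40)) :
    ‖Complex.cos y - Complex.cos x‖ ≤ 1 / 20 * ‖y - x‖ ∧
    ‖(y + (-1) ^ m * Complex.sin y) - (x + (-1) ^ m * Complex.sin x)‖ ≤ 1 / 20 * ‖y - x‖ := by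
  constructor
  · refine Convex.norm_image_sub_le_of_norm_hasDerivWithin_le (f := Complex.cos)
      (f' := fun z => -Complex.sin z) (s := closedBall ((Real.pi : ℂ) * ((m : ℂ) + 1)) (1 / 40)) ?_ ?_
      (convex_closedBall _ _) hx hy
    · intro z _
      exact (Complex.hasDerivAt_cos z).hasDerivWithinAt
    · intro z hz
      rw [mem_closedBall, dist_eq_norm] at hz
      rw [norm_neg, tloc_sin m z, norm_neg, norm_mul, tloc_omn, one_mul]
      have h1 := tloc_sin_le (z - Real.pi * (m + 1)) (by linarith)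
      linarith
  · refine Convex.norm_image_sub_le_of_norm_hasDerivWithin_le
      (f := fun z => z + (-1) ^ m * Complex.sin z)
      (f' := fun z => 1 + (-1) ^ m * Complex.cos z)
      (s := closedBall ((Real.pi : ℂ) * ((m : ℂ) + 1)) (1 / 40)) ?_ ?_
      (convex_closedBall _ _) hx hy
    · intro z _
      exact ((hasDerivAt_id z).add ((Complex.hasDerivAt_sin z).const_mul _)).hasDerivWithinAt
    · intro z hz
      rw [mem_closedBall, dist_eq_norm] at hz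
      have h2 : 1 + (-1 : ℂ) ^ m * Complex.cos z = 1 - Complex.cos (z - Real.pi * (m + 1)) := by
        rw [tloc_cos m z, mul_neg, ← mul_assoc, tloc_om2, one_mul]
        ring
      rw [h2]
      have h1 := tloc_cos_le (z - Real.pi * (m + 1)) (by linarith)
      have h3 : ‖z - Real.pi * (m + 1)‖ ^ 2 ≤ (1 / 40) ^ 2 :=
        pow_le_pow_left₀ (norm_nonneg _) hz 2
      linarith

theorem tloc (m : ℕ) (F : ℂ → ℂ → ℂ) (M : ℝ) (hM : Real.pi * (m + 2) + 8 ≤ M)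
    (h : ∀ σ : ℂ, ‖σ‖ ≤ 3 / 2 → nr (F σ) (2 * (-1) ^ m * cexp (-σ)) M)
    (hσ : ∀ σ ζ : ℂ, ‖σ‖ < 3 / 2 → DifferentiableAt ℂ (fun s => F s ζ) σ) :
    ∃ σc ζc : ℂ, ‖σc‖ ≤ 1 / 40 ∧ ‖ζc - Real.pi * (m + 1)‖ ≤ 1 / 40 ∧ F σc ζc = 0 ∧
      deriv (F σc) ζc = 0 ∧ deriv (deriv (F σc)) ζc ≠ 0 ∧
      ∀ ζ ∈ closure (box m (m + 2)), F σc ζ = 0 → ζ = ζc := by
  have hpi := Real.pi_pos
  have hpi3 : Real.pi < 3.15 := Real.pi_lt_d2
  have hm0 : (0 : ℝ) ≤ m := Nat.cast_nonneg m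
  set c0 : ℂ := (Real.pi : ℂ) * ((m : ℂ) + 1) with hc0
  have hc0n : ‖c0‖ = Real.pi * (m + 1) := by
    have h1 : c0 = ((Real.pi * ((m : ℝ) + 1) : ℝ) : ℂ) := by rw [hc0]; push_cast; rfl
    rw [h1, Complex.norm_real, Real.norm_eq_abs, abs_of_nonneg (by positivity)]
  have hball : ∀ r : ℝ, r ≤ 1 → ∀ ζ ∈ closedBall c0 r, ‖ζ‖ ≤ M - 2 := by
    intro r hr ζ hζ
    rw [mem_closedBall, dist_eq_norm] at hζ
    have h1 := norm_le_norm_add_norm_sub c0 ζ
    rw [norm_sub_rev] at hζ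
    rw [hc0n] at h1
    nlinarith
  have hom2 := tloc_om2 m
  have homn := tloc_omn m
  set ω : ℂ := (-1) ^ m with hω
  -- the contraction
  set T : ℂ × ℂ → ℂ × ℂ := fun q => (q.1 + ω / 2 * F q.1 q.2, q.2 - ω / 2 * deriv (F q.1) q.2)
    with hT
  have hω2 : ‖ω / 2‖ = 1 / 2 := by rw [norm_div, homn]; norm_num
  have hlip : ∀ q ∈ closedBall ((0 : ℂ), c0) (1 / 40), ∀ q' ∈ closedBall ((0 : ℂ), c0) (1 / 40),
      dist (T q) (T q') ≤ 1 / 2 * dist q q' := by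
    rintro ⟨σ, ζ⟩ hq ⟨σ', ζ'⟩ hq'
    have hq1 : σ ∈ closedBall (0 : ℂ) (1 / 40) := by
      rw [mem_closedBall, Prod.dist_eq, max_le_iff] at hq
      exact hq.1
    have hq2 : ζ ∈ closedBall c0 (1 / 40) := by
      rw [mem_closedBall, Prod.dist_eq, max_le_iff] at hq
      exact hq.2
    have hq1' : σ' ∈ closedBall (0 : ℂ) (1 / 40) := by
      rw [mem_closedBall, Prod.dist_eq, max_le_iff] at hq'
      exact hq'.1
    have hq2' : ζ' ∈ closedBall c0 (1 / 40) := by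
      rw [mem_closedBall, Prod.dist_eq, max_le_iff] at hq'
      exact hq'.2
    have hσn : ‖σ‖ ≤ 3 / 2 := by
      have := hq1; rw [mem_closedBall_zero_iff] at this; linarith
    have hζM : ‖ζ'‖ ≤ M - 2 := hball (1 / 40) (by norm_num) ζ' hq2'
    have e1 := tloc_expL hq1' hq1
    obtain ⟨e2, e3⟩ := tloc_cosL m hq2' hq2
    obtain ⟨e4, e5⟩ := tloc_gz (h σ hσn) (hball (1 / 40) (by norm_num)) hq2' hq2
    have e6 := tloc_gs ω h hσ hq1' hq1 (ζ := ζ') (by linarith)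
    have e7 := tloc_gzs ω h hσ hq1' hq1 (ζ := ζ') (by linarith)
    have f1 : ‖(σ + ω / 2 * F σ ζ) - (σ' + ω / 2 * F σ' ζ')‖ ≤ 1 / 4 * (‖σ - σ'‖ + ‖ζ - ζ'‖) := by
      have g1 : (σ + ω / 2 * F σ ζ) - (σ' + ω / 2 * F σ' ζ') =
          ((σ + cexp (-σ)) - (σ' + cexp (-σ'))) + ω * (Complex.cos ζ - Complex.cos ζ') +
          ω / 2 * ((F σ ζ - 2 * Complex.cos ζ) - (F σ ζ' - 2 * Complex.cos ζ')) +
          ω / 2 * ((F σ ζ' - 2 * ω * cexp (-σ)) - (F σ' ζ' - 2 * ω * cexp (-σ'))) := by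
        linear_combination (cexp (-σ') - cexp (-σ)) * (-hom2)
      rw [g1]
      refine (norm_add₄_le ).trans ?_
      rw [norm_mul, norm_mul, norm_mul, hω2, homn]
      have n1 := norm_nonneg (σ - σ')
      have n2 := norm_nonneg (ζ - ζ')
      linarith
    have f2 : ‖(ζ - ω / 2 * deriv (F σ) ζ) - (ζ' - ω / 2 * deriv (F σ') ζ')‖ ≤
        1 / 4 * (‖σ - σ'‖ + ‖ζ - ζ'‖) := by
      have g1 : (ζ - ω / 2 * deriv (F σ) ζ) - (ζ' - ω / 2 * deriv (F σ') ζ') =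
          ((ζ + ω * Complex.sin ζ) - (ζ' + ω * Complex.sin ζ')) +
          -(ω / 2) * ((deriv (F σ) ζ + 2 * Complex.sin ζ) - (deriv (F σ) ζ' + 2 * Complex.sin ζ')) +
          -(ω / 2) * (deriv (F σ) ζ' - deriv (F σ') ζ') := by
        ring
      rw [g1]
      refine (norm_add₃_le ).trans ?_
      rw [norm_mul, norm_mul, norm_neg, hω2]
      have n1 := norm_nonneg (σ - σ')
      have n2 := norm_nonneg (ζ - ζ')
      linarith
    rw [hT]
    simp only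
    rw [Prod.dist_eq, Prod.dist_eq]
    simp only
    rw [dist_eq_norm, dist_eq_norm, dist_eq_norm, dist_eq_norm]
    have n1 := le_max_left ‖σ - σ'‖ ‖ζ - ζ'‖
    have n2 := le_max_right ‖σ - σ'‖ ‖ζ - ζ'‖
    exact max_le (by linarith) (by linarith)
  have hx0 : ((0 : ℂ), c0) ∈ closedBall ((0 : ℂ), c0) (1 / 40) :=
    mem_closedBall_self (by norm_num)
  have hc0M : ‖c0‖ ≤ M - 2 := hball 1 le_rfl c0 (mem_closedBall_self zero_le_one)
  have hbase : dist (T ((0 : ℂ), c0)) ((0 : ℂ), c0) ≤ 1 / 200 := by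
    rw [hT]
    simp only
    rw [Prod.dist_eq]
    simp only
    have h0 := h 0 (by rw [norm_zero]; norm_num)
    have g1 := h0.2 c0 (by linarith)
    have g2 := (nr_deriv h0 c0 hc0M).1
    rw [(tloc_c0 m).1, neg_zero, Complex.exp_zero] at g1
    rw [(tloc_c0 m).2, mul_zero, add_zero] at g2
    have g3 : F 0 c0 - 2 * -(-1) ^ m - 2 * (-1) ^ m * 1 = F 0 c0 := by ring
    rw [g3] at g1
    refine max_le ?_ ?_
    · rw [dist_eq_norm, zero_add, sub_zero, norm_mul, hω2]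
      linarith
    · rw [dist_eq_norm, sub_sub_cancel_left, norm_neg, norm_mul, hω2]
      linarith
  have hmaps : MapsTo T (closedBall ((0 : ℂ), c0) (1 / 40)) (closedBall ((0 : ℂ), c0) (1 / 40)) := by
    intro q hq
    rw [mem_closedBall]
    have g1 := dist_triangle (T q) (T ((0 : ℂ), c0)) ((0 : ℂ), c0)
    have g2 := hlip q hq _ hx0
    rw [mem_closedBall] at hq
    linarith
  have hcontr : ContractingWith (1 / 2 : NNReal) (hmaps.restrict T _ _) := by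
    refine ⟨by
      rw [← NNReal.coe_lt_coe]; norm_num, ?_⟩
    refine LipschitzWith.of_dist_le_mul ?_
    intro a b
    have g1 := hlip a.1 a.2 b.1 b.2
    have g2 : ((1 / 2 : NNReal) : ℝ) = 1 / 2 := by norm_num
    rw [g2]
    exact g1
  obtain ⟨⟨σc, ζc⟩, hq, hfix, -⟩ := ContractingWith.exists_fixedPoint'
    (isClosed_closedBall (x := ((0 : ℂ), c0)) (ε := 1 / 40)).isComplete hmaps hcontr hx0
    (edist_ne_top _ _)
  have hq1 : ‖σc‖ ≤ 1 / 40 := by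
    rw [mem_closedBall, Prod.dist_eq, max_le_iff] at hq
    have := hq.1
    rwa [dist_eq_norm, sub_zero] at this
  have hq2 : ‖ζc - c0‖ ≤ 1 / 40 := by
    rw [mem_closedBall, Prod.dist_eq, max_le_iff] at hq
    have := hq.2
    rwa [dist_eq_norm] at this
  have hω20 : ω / 2 ≠ 0 := by
    intro h0
    rw [h0, norm_zero] at hω2
    norm_num at hω2
  have hfix' : T (σc, ζc) = (σc, ζc) := hfix
  rw [hT] at hfix'
  simp only [Prod.mk.injEq, add_eq_left, sub_eq_self, mul_eq_zero, hω20, false_or] at hfix'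
  obtain ⟨hF0, hF1⟩ := hfix'
  have hnr := h σc (by linarith)
  -- the second derivative near `c0`
  have hpos : ∀ z ∈ closedBall c0 (11 / 20), 0 < (ω * deriv (deriv (F σc)) z).re := by
    intro z hz
    have g1 := (nr_deriv hnr z (hball (11 / 20) (by norm_num) z hz)).2
    rw [mem_closedBall, dist_eq_norm] at hz
    have g2 := tloc_cos_le (z - c0) (by linarith)
    have g3 : ‖z - c0‖ ^ 2 ≤ (11 / 20) ^ 2 := pow_le_pow_left₀ (norm_nonneg _) hz 2
    have g4 : ω * deriv (deriv (F σc)) z =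
        2 - 2 * (1 - Complex.cos (z - c0)) + ω * (deriv (deriv (F σc)) z + 2 * Complex.cos z) := by
      rw [tloc_cos m z]
      linear_combination (2 * Complex.cos (z - c0)) * (hom2)
    have g5 : |(1 - Complex.cos (z - c0)).re| ≤ ‖1 - Complex.cos (z - c0)‖ :=
      Complex.abs_re_le_norm _
    have g6 : |(ω * (deriv (deriv (F σc)) z + 2 * Complex.cos z)).re| ≤ 1 / 100 := by
      refine (Complex.abs_re_le_norm _).trans ?_
      rw [norm_mul, homn, one_mul]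
      exact g1
    rw [g4, Complex.add_re, Complex.sub_re]
    have g7 : ((2 : ℂ) * (1 - Complex.cos (z - c0))).re = 2 * (1 - Complex.cos (z - c0)).re := by
      simp
    rw [g7]
    have g8 : (2 : ℂ).re = 2 := rfl
    rw [g8]
    have g9 := (abs_le.mp g5).2
    have g10 := (abs_le.mp g6).1
    nlinarith
  have hζcb : ζc ∈ closedBall c0 (11 / 20) := by
    rw [mem_closedBall, dist_eq_norm]; linarith
  refine ⟨σc, ζc, hq1, hq2, hF0, hF1, ?_, ?_⟩
  · intro h0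
    have g1 := hpos ζc hζcb
    rw [h0, mul_zero, Complex.zero_re] at g1
    exact lt_irrefl _ g1
  · intro ζ hζ hz0
    obtain ⟨b1, b2, b3, -⟩ := fr_box _ _ ζ hζ
    have hζn : ‖ζ‖ ≤ M := by
      have g1 := Complex.norm_le_abs_re_add_abs_im ζ
      have g2 : |ζ.re| ≤ Real.pi * (m + 2) := by
        rw [abs_le]
        constructor
        · have : 0 ≤ Real.pi * (m : ℝ) := by positivity
          have : 0 ≤ Real.pi * ((m : ℝ) + 2) := by positivity
          linarith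
        · exact b2
      linarith
    have g1 := hnr.2 ζ hζn
    rw [hz0, tloc_cos m ζ] at g1
    have g2 : (0 : ℂ) - 2 * -((-1) ^ m * Complex.cos (ζ - Real.pi * (m + 1))) -
        2 * (-1) ^ m * cexp (-σc) = -(2 * ω) * ((1 - Complex.cos (ζ - c0)) + (cexp (-σc) - 1)) := by
      ring
    rw [g2, norm_mul, norm_neg, norm_mul, homn] at g1
    have g3 : ‖(2 : ℂ)‖ = 2 := by norm_num
    rw [g3] at g1
    have g4 := Complex.norm_exp_sub_one_le (x := -σc) (by rw [norm_neg]; linarith)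
    rw [norm_neg] at g4
    have g5 : ‖1 - Complex.cos (ζ - c0)‖ ≤ 11 / 200 := by
      have g6 := norm_sub_le ((1 - Complex.cos (ζ - c0)) + (cexp (-σc) - 1)) (cexp (-σc) - 1)
      rw [add_sub_cancel_right] at g6
      linarith
    rw [tloc_half, norm_mul, g3, norm_pow] at g5
    have hre : ((ζ - c0) / 2).re = (ζ.re - Real.pi * (m + 1)) / 2 := by
      have : c0.re = Real.pi * (m + 1) := by
        have h1 : c0 = ((Real.pi * ((m : ℝ) + 1) : ℝ) : ℂ) := by rw [hc0]; push_cast; rfl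
        rw [h1, Complex.ofReal_re]
      have h2 : (ζ - c0) / 2 = ((1 / 2 : ℝ) : ℂ) * (ζ - c0) := by push_cast; ring
      rw [h2, Complex.re_ofReal_mul, Complex.sub_re, this]
      ring
    have g7 := sin_lower ((ζ - c0) / 2) (by
      rw [hre, abs_le]
      constructor
      · linarith
      · linarith)
    have g8 : ‖(ζ - c0) / 2‖ = ‖ζ - c0‖ / 2 := by rw [norm_div, g3]
    rw [g8] at g7
    have g9 : ‖ζ - c0‖ ≤ Real.pi * ‖Complex.sin ((ζ - c0) / 2)‖ := by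
      have : 2 / Real.pi * (‖ζ - c0‖ / 2) = ‖ζ - c0‖ / Real.pi := by ring
      rw [this, div_le_iff₀ hpi] at g7
      linarith
    have g10 : ‖ζ - c0‖ ^ 2 ≤ (11 / 20) ^ 2 := by
      have k1 : ‖ζ - c0‖ ^ 2 ≤ (Real.pi * ‖Complex.sin ((ζ - c0) / 2)‖) ^ 2 :=
        pow_le_pow_left₀ (norm_nonneg _) g9 2
      have k2 : Real.pi ^ 2 ≤ 3.15 ^ 2 := pow_le_pow_left₀ hpi.le hpi3.le 2
      have k3 : ‖Complex.sin ((ζ - c0) / 2)‖ ^ 2 ≤ 11 / 400 := by linarith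
      have k4 : Real.pi ^ 2 * ‖Complex.sin ((ζ - c0) / 2)‖ ^ 2 ≤ 3.15 ^ 2 * (11 / 400) :=
        mul_le_mul k2 k3 (by positivity) (by norm_num)
      rw [mul_pow] at k1
      norm_num at k4 ⊢
      linarith
    have g11 : ‖ζ - c0‖ ≤ 11 / 20 := by
      exact (abs_le_of_sq_le_sq' g10 (by norm_num)).2
    have hζb : ζ ∈ closedBall c0 (11 / 20) := by
      rw [mem_closedBall, dist_eq_norm]; exact g11
    exact tloc_uniq hnr.1 ω (convex_closedBall c0 (11 / 20)) hpos hζcb hζb hF0 hF1 hz0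

end Pool.Agent.Lib.MP_ec260d_ntC
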