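import Mathlib
import Pool.Agent.Lib.MP_ec260d_ntC.DefsW
import Pool.Agent.Lib.MP_ec260d_ntC.AsyS
import Pool.Agent.Lib.MP_ec260d_ntC.Cell
import Pool.Agent.Lib.MP_ec260d_ntC.TLoc
import Pool.Agent.Lib.MP_ec260d_ntC.Stk
import Pool.Agent.Lib.MP_ec260d_ntC.NzC

/-!
# JOB DblP: all the local information near the critical curve (about 250 lines)

`ω = (-1)^m`, `M = π (m + 2) + 10`.  `V` is the maximum of the constants of `asy M (1/200)`, `sepK M 1`, `nz_cell (m + 1)` and `100`; `stk V (1/400) ω` gives `q, d`.  `p σ = q + d σ`, `F σ = hh (p σ)`.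
For `‖σ‖ ≤ 3/2`: `p σ ∈ Reg V`, `nr (F σ) (2 ω e^{-σ}) M` (`1/200 + 1/400 ≤ 1/100`; `hh_diff`); `hh_diff_p` gives the differentiability in `σ` (`p σ ≠ 0`).  `tloc`: `σc, ζc` and part (C).  (B): `sw_frontier`.
(D): `F σc ζ' = 0 = (F σc)' ζ'`, `ζ' ∈ closure (box (-m) m)`: `nr_deriv`: `‖2 sin ζ'‖ ≤ 1/100`.  Let `k` be an integer with `|Re ζ' - π k| ≤ π/2`; as `|Re ζ'| ≤ π m` we can take `|k| ≤ m` (`k = round (Re ζ'/π)`), `‖sin (ζ' - π k)‖ = ‖sin ζ'‖ ≤ 1/200`, `sin_lower`: `‖ζ' - π k‖ ≤ 1/100`.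
Then `‖ζc - ζ'‖ ≥ π (m + 1 - k) - 1/40 - 1/100 ≥ 3`, `‖ζc + ζ'‖ ≥ π (m + 1 + k) - 1/40 - 1/100 ≥ 3`, so `‖ζc² - ζ'²‖ ≥ 9 > 1`, contradicting `sepK` at `p σc` (`‖WW‖ ≥ 2 e^{-1/40} - 1/400 ≥ 1`).
(E): `p' = Re (p σ) + i y ∈ Reg V`, `‖WW p'‖ ≤ 3/2`: `nr (hh p') (WW p') M`; `nr_frontier`, `nr_simple` (points of `closure (box j (j+1))`, `j ≤ m + 1`, have norm `≤ π (m+2) + 3 ≤ M - 2`).  (F): `nz_cell`.
-/

namespace Pool.Agent.Lib.MP_ec260d_ntC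

open Complex Set Filter Topology Metric MeasureTheory

private theorem dblp_reg {V W : ℝ} (h : W ≤ V) {p : ℂ} (hp : p ∈ Reg V) : p ∈ Reg W := by
  obtain ⟨h1, h2, h3, h4⟩ := hp
  exact ⟨le_trans h h1, h2, h3, h4⟩

private theorem dblp_norm_le (ζ : ℂ) (A B : ℝ) (h1 : |ζ.re| ≤ A) (h2 : |ζ.im| ≤ B) : ‖ζ‖ ≤ A + B :=
  le_trans (Complex.norm_le_abs_re_add_abs_im ζ) (add_le_add h1 h2)

private theorem dblp_sin (ζ : ℂ) (k : ℤ) :
    ‖Complex.sin (ζ - (k : ℂ) * (Real.pi : ℂ))‖ = ‖Complex.sin ζ‖ := by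
  have h := Function.Antiperiodic.sub_int_mul_eq Complex.sin_antiperiodic (x := ζ) k
  rw [h, Int.cast_negOnePow, norm_mul, norm_zpow, norm_neg, norm_one, one_zpow, one_mul]

/-- a critical point near the real axis is close to an integer multiple of `π` -/
private theorem dblp_crit (m : ℕ) (ζ : ℂ) (h1 : Real.pi * (-(m : ℝ)) ≤ ζ.re) (h2 : ζ.re ≤ Real.pi * m)
    (hs : ‖2 * Complex.sin ζ‖ ≤ 1 / 100) :
    ∃ k : ℤ, (k : ℝ) ≤ m ∧ -(m : ℝ) ≤ k ∧ ‖ζ - (k : ℂ) * (Real.pi : ℂ)‖ ≤ 1 / 100 := by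
  have hpi := Real.pi_pos
  have hpi3 := Real.pi_lt_d2
  refine ⟨round (ζ.re / Real.pi), ?_, ?_, ?_⟩
  · have h3 : ζ.re / Real.pi ≤ m := by
      rw [div_le_iff₀ hpi]
      linarith [mul_comm Real.pi (m : ℝ)]
    have h4 := abs_le.1 (abs_sub_round (ζ.re / Real.pi))
    have h5 : ((round (ζ.re / Real.pi) : ℤ) : ℝ) < ((m : ℤ) : ℝ) + 1 := by
      push_cast
      linarith [h4.1]
    have h6 : round (ζ.re / Real.pi) < (m : ℤ) + 1 := by exact_mod_cast h5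
    have h7 : round (ζ.re / Real.pi) ≤ (m : ℤ) := by omega
    exact_mod_cast h7
  · have h3 : -(m : ℝ) ≤ ζ.re / Real.pi := by
      rw [le_div_iff₀ hpi]
      linarith [mul_comm Real.pi (-(m : ℝ))]
    have h4 := abs_le.1 (abs_sub_round (ζ.re / Real.pi))
    have h5 : (-(m : ℤ) : ℝ) < ((round (ζ.re / Real.pi) : ℤ) : ℝ) + 1 := by
      push_cast
      linarith [h4.2]
    have h6 : -(m : ℤ) < round (ζ.re / Real.pi) + 1 := by exact_mod_cast h5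
    have h7 : -(m : ℤ) ≤ round (ζ.re / Real.pi) := by omega
    exact_mod_cast h7
  · set k : ℤ := round (ζ.re / Real.pi) with hk
    have h4 : |ζ.re / Real.pi - k| ≤ 1 / 2 := abs_sub_round (ζ.re / Real.pi)
    have hre : (ζ - (k : ℂ) * (Real.pi : ℂ)).re = ζ.re - k * Real.pi := by
      simp
    have h5 : |(ζ - (k : ℂ) * (Real.pi : ℂ)).re| ≤ Real.pi / 2 := by
      rw [hre]
      have h6 : ζ.re - k * Real.pi = (ζ.re / Real.pi - k) * Real.pi := by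
        field_simp
      rw [h6, abs_mul, abs_of_pos hpi]
      calc |ζ.re / Real.pi - k| * Real.pi ≤ 1 / 2 * Real.pi :=
            mul_le_mul_of_nonneg_right h4 hpi.le
        _ = Real.pi / 2 := by ring
    have h7 := sin_lower _ h5
    rw [dblp_sin] at h7
    rw [norm_mul, Complex.norm_ofNat] at hs
    have h8 : 2 / Real.pi * ‖ζ - (k : ℂ) * (Real.pi : ℂ)‖ ≤ 1 / 200 := by linarith
    rw [div_mul_eq_mul_div, div_le_iff₀ hpi] at h8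
    nlinarith

private theorem dblp_far (m : ℕ) (k : ℤ) (h1 : (k : ℝ) ≤ m) (ζc ζ : ℂ)
    (hc : ‖ζc - Real.pi * (m + 1)‖ ≤ 1 / 40) (hz : ‖ζ - (k : ℂ) * (Real.pi : ℂ)‖ ≤ 1 / 100) :
    3 ≤ ‖ζc - ζ‖ := by
  have hpi := Real.pi_gt_d2
  have hpp := Real.pi_pos
  have h3 : (((Real.pi * (m + 1 - k) : ℝ)) : ℂ) =
      (ζc - ζ) - (ζc - Real.pi * (m + 1)) + (ζ - (k : ℂ) * (Real.pi : ℂ)) := by
    push_cast
    ring
  have h4 : ‖(((Real.pi * (m + 1 - k) : ℝ)) : ℂ)‖ = Real.pi * (m + 1 - k) := by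
    rw [Complex.norm_real, Real.norm_eq_abs, abs_of_nonneg]
    apply mul_nonneg hpp.le
    linarith
  have h5 : ‖(ζc - ζ) - (ζc - Real.pi * (m + 1)) + (ζ - (k : ℂ) * (Real.pi : ℂ))‖ ≤
      ‖ζc - ζ‖ + ‖ζc - Real.pi * (m + 1)‖ + ‖ζ - (k : ℂ) * (Real.pi : ℂ)‖ :=
    le_trans (norm_add_le _ _) (add_le_add (norm_sub_le _ _) le_rfl)
  rw [← h3, h4] at h5
  have h6 : Real.pi * 1 ≤ Real.pi * (m + 1 - k) := by
    apply mul_le_mul_of_nonneg_left _ hpp.le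
    linarith
  linarith

theorem dblp (m : ℕ) : ∃ q d σc ζc : ℂ, d ≠ 0 ∧ ‖σc‖ ≤ 1 / 40 ∧
    -- (A)
    (∀ σ : ℂ, ‖σ‖ ≤ 3 / 2 → 100 ≤ (q + d * σ).re ∧ 0 ≤ (q + d * σ).im) ∧
    -- (B)
    (∀ σ : ℂ, ‖σ‖ ≤ 3 / 2 → ∀ ζ : ℂ, (ζ ∈ frontier (box (-m) m) ∨ ζ ∈ frontier (box m (m + 2))) →
      hh (q + d * σ) ζ ≠ 0) ∧
    -- (C)
    hh (q + d * σc) ζc = 0 ∧ deriv (hh (q + d * σc)) ζc = 0 ∧ deriv (deriv (hh (q + d * σc))) ζc ≠ 0 ∧
    (∀ ζ ∈ closure (box m (m + 2)), hh (q + d * σc) ζ = 0 → ζ = ζc) ∧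
    -- (D)
    (∀ ζ ∈ closure (box (-m) m), hh (q + d * σc) ζ = 0 → deriv (hh (q + d * σc)) ζ ≠ 0) ∧
    -- (E)
    (∀ σ : ℂ, ‖σ - 1‖ ≤ 1 / 2 → ∀ y : ℝ, 0 ≤ y → y ≤ (q + d * σ).im → ∀ j : ℕ, j ≤ m + 1 →
      (∀ ζ ∈ frontier (box j (j + 1)), hh (((q + d * σ).re : ℂ) + y * I) ζ ≠ 0) ∧
      (∀ ζ ∈ box j (j + 1), hh (((q + d * σ).re : ℂ) + y * I) ζ = 0 →
        deriv (hh (((q + d * σ).re : ℂ) + y * I)) ζ ≠ 0)) ∧
    -- (F)
    (∀ σ : ℂ, ‖σ - 1‖ ≤ 1 / 2 → 1 / 2 < (tp (q + d * σ).re).re ∧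
      tp (q + d * σ).re = ((tp (q + d * σ).re).re : ℂ) ∧ ∀ j ≤ m + 1,
        Real.pi * j < (q + d * σ).re * nz (tp (q + d * σ).re).re j ∧
        (q + d * σ).re * nz (tp (q + d * σ).re).re j < Real.pi * (j + 1)) := by
  have hpp := Real.pi_pos
  have hpi := Real.pi_gt_d2
  have hm0 : (0 : ℝ) ≤ m := Nat.cast_nonneg m
  set M : ℝ := Real.pi * (m + 2) + 10 with hMdef
  obtain ⟨V1, hV1, asy1⟩ := asy M (1 / 200) (by norm_num)
  obtain ⟨V2, hV2, sep2⟩ := sepK M 1 (by norm_num)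
  obtain ⟨V3, hV3, nz3⟩ := nz_cell (m + 1)
  set V : ℝ := max (max V1 V2) V3 with hVdef
  have hVV1 : V1 ≤ V := le_trans (le_max_left _ _) (le_max_left _ _)
  have hVV2 : V2 ≤ V := le_trans (le_max_right _ _) (le_max_left _ _)
  have hVV3 : V3 ≤ V := le_max_right _ _
  have hω : ((-1 : ℂ) ^ m) = 1 ∨ ((-1 : ℂ) ^ m) = -1 := neg_one_pow_eq_or ℂ m
  obtain ⟨q, d, hd, hA, hB⟩ := stk V (1 / 400) (by norm_num) ((-1 : ℂ) ^ m) hω
  have hnr : ∀ σ : ℂ, ‖σ‖ ≤ 3 / 2 → nr (hh (q + d * σ)) (2 * (-1) ^ m * cexp (-σ)) M := by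
    intro σ hσ
    refine ⟨hh_diff _, fun ζ hζ => ?_⟩
    have h1 := asy1 _ (dblp_reg hVV1 (hA σ hσ).1) ζ hζ
    have h2 := (hA σ hσ).2
    have h3 : hh (q + d * σ) ζ - 2 * Complex.cos ζ - 2 * (-1) ^ m * cexp (-σ) =
        (hh (q + d * σ) ζ - 2 * Complex.cos ζ - WW (q + d * σ)) +
          (WW (q + d * σ) - 2 * (-1) ^ m * cexp (-σ)) := by ring
    rw [h3]
    refine le_trans (norm_add_le _ _) ?_
    linarith
  have hpos : ∀ σ : ℂ, ‖σ‖ ≤ 3 / 2 → V ≤ (q + d * σ).re ∧ 0 ≤ (q + d * σ).im := by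
    intro σ hσ
    obtain ⟨h1, h2, _, _⟩ := (hA σ hσ).1
    exact ⟨h1, h2⟩
  have hV100 : 100 ≤ V := le_trans hV1 hVV1
  have hdiff : ∀ σ ζ : ℂ, ‖σ‖ < 3 / 2 → DifferentiableAt ℂ (fun s => hh (q + d * s) ζ) σ := by
    intro σ ζ hσ
    have hp : q + d * σ ≠ 0 := by
      intro h0
      have h1 := (hpos σ hσ.le).1
      rw [h0, Complex.zero_re] at h1
      linarith
    have h1 : DifferentiableAt ℂ (fun s : ℂ => q + d * s) σ :=
      (differentiableAt_const q).add ((differentiableAt_const d).mul differentiableAt_id)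
    exact DifferentiableAt.comp (g := fun p => hh p ζ) (f := fun s : ℂ => q + d * s) σ
      (hh_diff_p (q + d * σ) ζ hp) h1
  obtain ⟨σc, ζc, hσc, hζc, h0, h1, h2, huniq⟩ :=
    tloc m (fun σ => hh (q + d * σ)) M (by rw [hMdef]; linarith) hnr hdiff
  have hσc2 : ‖σc‖ ≤ 3 / 2 := by linarith
  have hone : ∀ σ : ℂ, ‖σ - 1‖ ≤ 1 / 2 → ‖σ‖ ≤ 3 / 2 := by
    intro σ hσ
    have h3 : ‖σ‖ ≤ ‖σ - 1‖ + ‖(1 : ℂ)‖ := by
      have h4 := norm_add_le (σ - 1) 1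
      rwa [sub_add_cancel] at h4
    rw [norm_one] at h3
    linarith
  refine ⟨q, d, σc, ζc, hd, hσc, ?_, ?_, h0, h1, h2, huniq, ?_, ?_, ?_⟩
  · intro σ hσ
    exact ⟨le_trans hV100 (hpos σ hσ).1, (hpos σ hσ).2⟩
  · intro σ hσ ζ hζ
    exact sw_frontier m σ hσ (hnr σ hσ) (by rw [hMdef]; linarith) ζ hζ
  · intro ζ hζ hz0 hz1
    obtain ⟨hr1, hr2, hi, _⟩ := fr_box _ _ ζ hζ
    have hre : |ζ.re| ≤ Real.pi * m := by
      rw [abs_le]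
      constructor
      · linarith [mul_neg Real.pi (m : ℝ)]
      · exact hr2
    have hnorm : ‖ζ‖ ≤ Real.pi * m + 3 := dblp_norm_le ζ _ _ hre hi
    have hnM : ‖ζ‖ ≤ M - 2 := by
      rw [hMdef]
      linarith
    have h3 := (nr_deriv (hnr σc hσc2) ζ hnM).1
    rw [hz1, zero_add] at h3
    obtain ⟨k, hk1, hk2, hk3⟩ := dblp_crit m ζ hr1 hr2 h3
    have h4 : 3 ≤ ‖ζc - ζ‖ := dblp_far m k hk1 ζc ζ hζc hk3
    have h5 : 3 ≤ ‖ζc + ζ‖ := by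
      have h6 := dblp_far m (-k) (by push_cast; linarith) ζc (-ζ) hζc (by
        have h7 : -ζ - ((-k : ℤ) : ℂ) * (Real.pi : ℂ) = -(ζ - (k : ℂ) * (Real.pi : ℂ)) := by
          push_cast
          ring
        rw [h7, norm_neg]
        exact hk3)
      rwa [sub_neg_eq_add] at h6
    have h8 : ‖ζc ^ 2 - ζ ^ 2‖ = ‖ζc - ζ‖ * ‖ζc + ζ‖ := by
      rw [← norm_mul]
      congr 1
      ring
    have hWW : 1 ≤ ‖WW (q + d * σc)‖ := by
      have h9 := (hA σc hσc2).2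
      have h10 : ‖2 * (-1 : ℂ) ^ m * cexp (-σc)‖ = 2 * Real.exp (-σc.re) := by
        rw [norm_mul, norm_mul, norm_pow, norm_neg, norm_one, one_pow, Complex.norm_ofNat,
          Complex.norm_exp, Complex.neg_re, mul_one]
      have h11 : -(1 / 40) ≤ -σc.re := by
        have := le_trans (Complex.re_le_norm σc) hσc
        linarith
      have h12 : 39 / 40 ≤ Real.exp (-σc.re) := by
        have := Real.add_one_le_exp (-σc.re)
        linarith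
      have h13 : ‖2 * (-1 : ℂ) ^ m * cexp (-σc)‖ ≤ ‖WW (q + d * σc)‖ +
          ‖WW (q + d * σc) - 2 * (-1 : ℂ) ^ m * cexp (-σc)‖ := by
        have h14 := norm_sub_le (WW (q + d * σc)) (WW (q + d * σc) - 2 * (-1 : ℂ) ^ m * cexp (-σc))
        rwa [sub_sub_cancel] at h14
      rw [h10] at h13
      linarith
    have hζcM : ‖ζc‖ ≤ M := by
      have h9 : ‖ζc‖ ≤ ‖ζc - Real.pi * (m + 1)‖ + ‖((Real.pi * (m + 1) : ℝ) : ℂ)‖ := by
        have h10 := norm_add_le (ζc - Real.pi * (m + 1)) ((Real.pi * (m + 1) : ℝ) : ℂ)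
        have h11 : ζc - Real.pi * (m + 1) + ((Real.pi * (m + 1) : ℝ) : ℂ) = ζc := by
          push_cast
          ring
        rwa [h11] at h10
      rw [Complex.norm_real, Real.norm_eq_abs, abs_of_nonneg (by positivity)] at h9
      rw [hMdef]
      linarith
    have h9 := sep2 (q + d * σc) (dblp_reg hVV2 (hA σc hσc2).1) hWW ζc ζ hζcM
      (by linarith) h0 h1 hz0 hz1
    rw [h8] at h9
    nlinarith
  · intro σ hσ y hy0 hy1 j hj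
    obtain ⟨hR, hW⟩ := hB σ hσ y hy0 hy1
    have hj' : (j : ℝ) ≤ m + 1 := by exact_mod_cast hj
    have hN : nr (hh (((q + d * σ).re : ℂ) + y * I)) (WW (((q + d * σ).re : ℂ) + y * I)) M := by
      refine ⟨hh_diff _, fun ζ hζ => ?_⟩
      have h3 := asy1 _ (dblp_reg hVV1 hR) ζ hζ
      linarith
    have hpj : Real.pi * (j + 1) ≤ Real.pi * (m + 2) :=
      mul_le_mul_of_nonneg_left (by linarith) hpp.le
    constructor
    · intro ζ hζ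
      exact nr_frontier hN hW j (by rw [hMdef]; linarith) ζ hζ
    · intro ζ hζ hz0
      refine nr_simple hN hW ζ ?_ hz0
      obtain ⟨hb1, hb2, hb3⟩ := hζ
      have hj0 : (0 : ℝ) ≤ Real.pi * j := mul_nonneg hpp.le (Nat.cast_nonneg j)
      have h3 : |ζ.re| ≤ Real.pi * (j + 1) := by
        rw [abs_le]
        constructor <;> linarith
      have h4 := dblp_norm_le ζ _ _ h3 hb3.le
      rw [hMdef]
      linarith
  · intro σ hσ
    exact nz3 (q + d * σ).re (le_trans hVV3 (hpos σ (hone σ hσ)).1)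

end Pool.Agent.Lib.MP_ec260d_ntC
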