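import Mathlib
import Pool.Agent.Lib.MP_ec260d_ntC.Defs
import Pool.Agent.Lib.MP_ec260d_ntC.GermH
import Pool.Agent.Lib.MP_ec260d_ntC.Dich

/-!
# JOB PathL: lifting a path inside a bounded moving region (about 200 lines)

Let `A` be the set of `x ∈ [0, X]` such that there is `w` continuous on `[0, x]`, `w 0 = ζ0/p 0`, with `p x' * w x' ∈ D` and `Smp (c x') (w x')` for `x' ∈ [0, x]`.  `0 ∈ A` (`hs` at `ζ0`; `p 0 * (ζ0/p 0) = ζ0`).  Two such lifts on `[0, x]` agree (`lift_ne`, contrapositive, on every `[0, x']`).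
Open: if `x ∈ A`, `x < X`, take the germ `g` of `germ_exists` at `(c x, w x)`; for `x' ∈ [x, x + η)` put `w x' = g (c x')`: continuous for small `η` (`g` is analytic at `c x`, hence continuous near it; `c` continuous), a zero of `HH (c x')`, simple (`smp_near`), `p x' * w x' ∈ D` (`D` open).
Closed: let `0 < x`, `[0, x) ⊆ A`.  By uniqueness the lifts glue to a lift `w` on `[0, x)`.  `p x' w x' ∈ D` is bounded and `p x'` is bounded away from `0`, so `‖w x'‖` is bounded; `dich` (with `X := x`): `w x' → z`, `HH (c x) z = 0`.  `p x * z ∈ closure D`, and not in the frontier (`hfr`; `z = (p x z)/p x`), so it is in the open set `D`; `hs`: simple.  Put `w x = z`.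
So `X ∈ A` (`IsClosed.Icc_subset_of_forall_mem_nhdsWithin`, or a supremum argument).
-/

namespace Pool.Agent.Lib.MP_ec260d_ntC

open Complex Set Filter Topology Metric MeasureTheory

/-- a lift on `[0, x]` -/
private def LftL (c p : ℝ → ℂ) (D : Set ℂ) (v : ℂ) (x : ℝ) (w : ℝ → ℂ) : Prop :=
  ContinuousOn w (Icc 0 x) ∧ w 0 = v ∧ ∀ x' ∈ Icc 0 x, p x' * w x' ∈ D ∧ Smp (c x') (w x')

private theorem LftL_mono {c p : ℝ → ℂ} {D : Set ℂ} {v : ℂ} {x y : ℝ} {w : ℝ → ℂ}
    (h : LftL c p D v x w) (hyx : y ≤ x) : LftL c p D v y w :=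
  ⟨h.1.mono (Icc_subset_Icc_right hyx), h.2.1, fun x' hx' => h.2.2 x' ⟨hx'.1, hx'.2.trans hyx⟩⟩

private theorem LftL_uniq {X : ℝ} {c p : ℝ → ℂ} (hc : ContinuousOn c (Icc 0 X)) {D : Set ℂ} {v : ℂ}
    {x : ℝ} (hx0 : 0 ≤ x) (hxX : x ≤ X) {w w' : ℝ → ℂ} (h : LftL c p D v x w)
    (h' : LftL c p D v x w') : w x = w' x := by
  by_contra hne
  have hmap : MapsTo (fun y : ℝ => x - y) (Icc 0 x) (Icc 0 x) := by
    intro y hy
    exact ⟨by linarith [hy.2], by linarith [hy.1]⟩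
  have hsub : ContinuousOn (fun y : ℝ => x - y) (Icc 0 x) := by fun_prop
  have h1 := lift_ne x hx0 (fun y => c (x - y)) (fun y => w (x - y)) (fun y => w' (x - y))
    ((hc.mono (Icc_subset_Icc_right hxX)).comp hsub hmap) (h.1.comp hsub hmap)
    (h'.1.comp hsub hmap) (fun y hy => (h.2.2 _ (hmap hy)).2)
    (fun y hy => (h'.2.2 _ (hmap hy)).2.1) (by
      show w (x - 0) ≠ w' (x - 0)
      rw [sub_zero]
      exact hne)
  have h2 : w (x - x) ≠ w' (x - x) := h1
  rw [sub_self, h.2.1, h'.2.1] at h2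
  exact h2 rfl

theorem path_lift (X : ℝ) (hX : 0 ≤ X) (c p : ℝ → ℂ) (hc : ContinuousOn c (Icc 0 X))
    (hp : ContinuousOn p (Icc 0 X)) (hp0 : ∀ x ∈ Icc 0 X, p x ≠ 0) (D : Set ℂ) (hD : IsOpen D)
    (hb : Bornology.IsBounded D)
    (hfr : ∀ x ∈ Icc 0 X, ∀ ζ ∈ frontier D, HH (c x) (ζ / p x) ≠ 0)
    (hs : ∀ x ∈ Icc 0 X, ∀ ζ ∈ D, HH (c x) (ζ / p x) = 0 → Hz (c x) (ζ / p x) ≠ 0)
    (ζ0 : ℂ) (h0 : ζ0 ∈ D) (hz : HH (c 0) (ζ0 / p 0) = 0) :
    ∃ w : ℝ → ℂ, ContinuousOn w (Icc 0 X) ∧ w 0 = ζ0 / p 0 ∧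
      ∀ x ∈ Icc 0 X, p x * w x ∈ D ∧ Smp (c x) (w x) := by
  classical
  set A : Set ℝ := {x | ∃ w : ℝ → ℂ, LftL c p D (ζ0 / p 0) x w} with hA
  have h0X : (0 : ℝ) ∈ Icc 0 X := ⟨le_rfl, hX⟩
  have hdown : ∀ x ∈ A, ∀ y, y ≤ x → y ∈ A := by
    rintro x ⟨w, hw⟩ y hyx
    exact ⟨w, LftL_mono hw hyx⟩
  have hA0 : (0 : ℝ) ∈ A := by
    refine ⟨fun _ => ζ0 / p 0, continuousOn_const, rfl, ?_⟩
    intro x' hx'
    have hx0 : x' = 0 := le_antisymm hx'.2 hx'.1
    subst hx0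
    refine ⟨?_, hz, hs 0 h0X ζ0 h0 hz⟩
    rw [mul_div_cancel₀ _ (hp0 0 h0X)]
    exact h0
  -- the glued lift
  have hW : ∃ W : ℝ → ℂ, ∀ x ∈ A, x ≤ X → LftL c p D (ζ0 / p 0) x W := by
    choose! F hF using (show ∀ x ∈ A, ∃ w : ℝ → ℂ, LftL c p D (ζ0 / p 0) x w from fun x hx => hx)
    refine ⟨fun y => if y ∈ A then F y y else ζ0 / p 0, ?_⟩
    intro x hx hxX
    have heq : ∀ y ∈ Icc 0 x, (if y ∈ A then F y y else ζ0 / p 0) = F x y := by
      intro y hy
      have hyA : y ∈ A := hdown x hx y hy.2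
      rw [if_pos hyA]
      exact LftL_uniq hc hy.1 (hy.2.trans hxX) (hF y hyA) (LftL_mono (hF x hx) hy.2)
    have hFx := hF x hx
    refine ⟨hFx.1.congr heq, ?_, ?_⟩
    · show (if (0 : ℝ) ∈ A then F 0 0 else ζ0 / p 0) = ζ0 / p 0
      rw [if_pos hA0]
      exact (hF 0 hA0).2.1
    · intro x' hx'
      show p x' * (if x' ∈ A then F x' x' else ζ0 / p 0) ∈ D ∧
        Smp (c x') (if x' ∈ A then F x' x' else ζ0 / p 0)
      rw [heq x' hx']
      exact hFx.2.2 x' hx'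
  obtain ⟨W, hW⟩ := hW
  -- `A` is closed to the right
  have hclos : ∀ x, 0 < x → x ≤ X → (∀ y, y < x → y ∈ A) → x ∈ A := by
    intro x hx hxX hlt
    have hxI : x ∈ Icc 0 X := ⟨hx.le, hxX⟩
    have hWc : ContinuousOn W (Ico 0 x) := by
      intro y hy
      have hmid : (y + x) / 2 ∈ A := hlt _ (by linarith [hy.2])
      have h1 := (hW _ hmid (by linarith [hy.2])).1 y ⟨hy.1, by linarith [hy.2]⟩
      refine h1.mono_of_mem_nhdsWithin ?_
      have h2 : Iio ((y + x) / 2) ∈ 𝓝 y := Iio_mem_nhds (by linarith [hy.2])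
      filter_upwards [self_mem_nhdsWithin, mem_nhdsWithin_of_mem_nhds h2] with z hz1 hz2
      exact ⟨hz1.1, le_of_lt hz2⟩
    have hWp : ∀ y ∈ Ico 0 x, p y * W y ∈ D ∧ Smp (c y) (W y) := by
      intro y hy
      exact (hW y (hlt y hy.2) (hy.2.le.trans hxX)).2.2 y ⟨hy.1, le_rfl⟩
    have hNB : (𝓝[<] x).NeBot := inferInstance
    have hIco : ∀ᶠ y in 𝓝[<] x, y ∈ Ico 0 x := by
      have h2 : Ioo 0 x ∈ 𝓝[<] x := Ioo_mem_nhdsLT hx
      filter_upwards [h2] with y hy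
      exact ⟨hy.1.le, hy.2⟩
    rcases dich x hx c W (hc.mono (Icc_subset_Icc_right hxX)) hWc (fun y hy => (hWp y hy).2.1) with
      hinf | ⟨z, hz0, hzt⟩
    · exfalso
      obtain ⟨M, hM⟩ := hb.exists_norm_le
      obtain ⟨q, hq, hqmin⟩ := isCompact_Icc.exists_isMinOn (⟨0, h0X⟩ : (Icc (0 : ℝ) X).Nonempty)
        hp.norm
      have hqpos : 0 < ‖p q‖ := norm_pos_iff.mpr (hp0 q hq)
      obtain ⟨y, hy1, hy2⟩ := ((hinf.eventually (eventually_gt_atTop (M / ‖p q‖))).and hIco).exists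
      have h1 : ‖p y * W y‖ ≤ M := hM _ (hWp y hy2).1
      rw [norm_mul] at h1
      have h2 : ‖p q‖ ≤ ‖p y‖ := hqmin (⟨hy2.1, hy2.2.le.trans hxX⟩ : y ∈ Icc 0 X)
      have h3 : ‖p q‖ * ‖W y‖ ≤ M := (mul_le_mul_of_nonneg_right h2 (norm_nonneg _)).trans h1
      rw [div_lt_iff₀ hqpos] at hy1
      nlinarith
    · have hpx : Tendsto p (𝓝[<] x) (𝓝 (p x)) := by
        have h1 := hp x hxI
        refine h1.mono_left ?_
        refine le_trans ?_ (nhdsWithin_mono x (Ico_subset_Icc_self.trans (Icc_subset_Icc_right hxX)))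
        rw [nhdsWithin_Ico_eq_nhdsLT hx]
      have hpz : Tendsto (fun y => p y * W y) (𝓝[<] x) (𝓝 (p x * z)) := hpx.mul hzt
      have hcl : p x * z ∈ closure D :=
        mem_closure_of_tendsto hpz (hIco.mono fun y hy => (hWp y hy).1)
      have hdiv : p x * z / p x = z := mul_div_cancel_left₀ z (hp0 x hxI)
      have hnf : p x * z ∉ frontier D := by
        intro hf
        have h1 := hfr x hxI _ hf
        rw [hdiv] at h1
        exact h1 hz0
      have hin : p x * z ∈ D := by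
        have h1 : p x * z ∈ closure D \ frontier D := ⟨hcl, hnf⟩
        rw [closure_sdiff_frontier, hD.interior_eq] at h1
        exact h1
      have hsimple : Hz (c x) z ≠ 0 := by
        have h1 := hs x hxI (p x * z) hin
        rw [hdiv] at h1
        exact h1 hz0
      refine ⟨Function.update W x z, ?_, ?_, ?_⟩
      · rw [continuousOn_update_iff]
        rw [Icc_sdiff_right]
        refine ⟨hWc, fun _ => ?_⟩
        rw [nhdsWithin_Ico_eq_nhdsLT hx]
        exact hzt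
      · rw [Function.update_of_ne (ne_of_lt hx)]
        exact (hW 0 hA0 hX).2.1
      · intro x' hx'
        rcases hx'.2.lt_or_eq with h1 | h1
        · rw [Function.update_of_ne (ne_of_lt h1)]
          exact hWp x' ⟨hx'.1, h1⟩
        · subst h1
          rw [Function.update_self]
          exact ⟨hin, hz0, hsimple⟩
  have hclosed : IsClosed (A ∩ Icc 0 X) := by
    refine isClosed_of_closure_subset ?_
    intro x hx
    have hxI : x ∈ Icc 0 X := by
      have h1 : closure (A ∩ Icc 0 X) ⊆ Icc 0 X := by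
        have h2 := closure_mono (inter_subset_right (s := A) (t := Icc 0 X))
        rwa [isClosed_Icc.closure_eq] at h2
      exact h1 hx
    refine ⟨?_, hxI⟩
    rcases hxI.1.lt_or_eq with hpos | hpos
    · refine hclos x hpos hxI.2 ?_
      intro y hy
      obtain ⟨x', hx'1, hx'2⟩ := mem_closure_iff.mp hx (Ioi y) isOpen_Ioi hy
      exact hdown x' hx'2.1 y (le_of_lt hx'1)
    · rw [← hpos]; exact hA0
  have hopen : ∀ x ∈ A ∩ Ico 0 X, A ∈ 𝓝[>] x := by
    rintro x ⟨⟨w, hw⟩, hx⟩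
    have hxI : x ∈ Icc 0 X := ⟨hx.1, hx.2.le⟩
    obtain ⟨hwc, hw0, hwp⟩ := hw
    have hSx := (hwp x ⟨hx.1, le_rfl⟩)
    obtain ⟨g, hga, hg0, hgz, _⟩ := germ_exists (c x) (w x) hSx.2
    have hsm := smp_near g (c x) hga.continuousAt (by rw [hg0]; exact hSx.2) hgz
    have hcx : Tendsto c (𝓝[Icc 0 X] x) (𝓝 (c x)) := hc x hxI
    have e1 : ∀ᶠ y in 𝓝[Icc 0 X] x, AnalyticAt ℂ g (c y) :=
      hcx.eventually hga.eventually_analyticAt
    have e2 : ∀ᶠ y in 𝓝[Icc 0 X] x, Smp (c y) (g (c y)) := hcx.eventually hsm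
    have e3 : ∀ᶠ y in 𝓝[Icc 0 X] x, p y * g (c y) ∈ D := by
      have h1 : Tendsto (fun y => p y * g (c y)) (𝓝[Icc 0 X] x) (𝓝 (p x * g (c x))) :=
        (hp x hxI : Tendsto p (𝓝[Icc 0 X] x) (𝓝 (p x))).mul
          (hga.continuousAt.tendsto.comp hcx)
      rw [hg0] at h1
      exact h1.eventually (hD.mem_nhds hSx.1)
    have e123 := (e1.and (e2.and e3))
    rw [eventually_nhdsWithin_iff, Metric.eventually_nhds_iff] at e123
    obtain ⟨η, hη, hball⟩ := e123
    have hmem : Ioo x (min (x + η) X) ∈ 𝓝[>] x := Ioo_mem_nhdsGT (lt_min (by linarith) hx.2)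
    refine mem_of_superset hmem ?_
    intro x'' hx''
    have hx1 : x < x'' := hx''.1
    have hx2 : x'' < x + η := lt_of_lt_of_le hx''.2 (min_le_left _ _)
    have hx3 : x'' < X := lt_of_lt_of_le hx''.2 (min_le_right _ _)
    have hloc : ∀ y ∈ Icc x x'', AnalyticAt ℂ g (c y) ∧ Smp (c y) (g (c y)) ∧ p y * g (c y) ∈ D := by
      intro y hy
      refine hball ?_ ⟨hx.1.trans hy.1, hy.2.trans hx3.le⟩
      rw [Real.dist_eq, abs_of_nonneg (by linarith [hy.1])]
      linarith [hy.2]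
    refine ⟨fun y => if y ≤ x then w y else g (c y), ?_, ?_, ?_⟩
    · have hU : Icc 0 x'' = Icc 0 x ∪ Icc x x'' := (Icc_union_Icc_eq_Icc hx.1 hx1.le).symm
      rw [hU]
      refine ContinuousOn.union_of_isClosed ?_ ?_ isClosed_Icc isClosed_Icc
      · refine hwc.congr ?_
        intro y hy
        show (if y ≤ x then w y else g (c y)) = w y
        rw [if_pos hy.2]
      · have hgc : ContinuousOn (fun y => g (c y)) (Icc x x'') := by
          intro y hy
          have h1 : ContinuousAt g (c y) := (hloc y hy).1.continuousAt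
          have h2 : ContinuousWithinAt c (Icc x x'') y :=
            (hc y ⟨hx.1.trans hy.1, hy.2.trans hx3.le⟩).mono
              (Icc_subset_Icc hx.1 hx3.le)
          exact ContinuousAt.comp_continuousWithinAt h1 h2
        refine hgc.congr ?_
        intro y hy
        show (if y ≤ x then w y else g (c y)) = g (c y)
        rcases hy.1.lt_or_eq with h1 | h1
        · rw [if_neg (not_le.mpr h1)]
        · rw [← h1, if_pos le_rfl, hg0]
    · show (if (0 : ℝ) ≤ x then w 0 else g (c 0)) = ζ0 / p 0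
      rw [if_pos hx.1]
      exact hw0
    · intro y hy
      show p y * (if y ≤ x then w y else g (c y)) ∈ D ∧ Smp (c y) (if y ≤ x then w y else g (c y))
      by_cases hyx : y ≤ x
      · rw [if_pos hyx]
        exact hwp y ⟨hy.1, hyx⟩
      · rw [if_neg hyx]
        have h1 := hloc y ⟨(not_le.mp hyx).le, hy.2⟩
        exact ⟨h1.2.2, h1.2.1⟩
  have hall : Icc 0 X ⊆ A := hclosed.Icc_subset_of_forall_mem_nhdsWithin hA0 hopen
  obtain ⟨w, hw⟩ := hall (⟨hX, le_rfl⟩ : X ∈ Icc 0 X)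
  exact ⟨w, hw⟩

end Pool.Agent.Lib.MP_ec260d_ntC
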