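import Mathlib
import Pool.Agent.Lib.MP_ec260d_ntC.DefsW
import Pool.Agent.Lib.MP_ec260d_ntC.DblP
import Pool.Agent.Lib.MP_ec260d_ntC.PathL
import Pool.Agent.Lib.MP_ec260d_ntC.IsoB
import Pool.Agent.Lib.MP_ec260d_ntC.NzA

/-!
# JOB Bridge: paths from a real parameter to a neighbourhood of the double point (about 350 lines)

Let `q, d, σc, ζc` be from `dblp m`, `p σ = q + d σ`, `pc = p σc`, `tc = tp pc`, `zc = ζc/pc`.  `hh_zero_iff, hh_deriv, hh_deriv2, NN_ne`: `HH tc zc = 0`, `Hz tc zc = 0`, `deriv (Hz tc) zc ≠ 0`.  `K = {ζ/pc : ζ ∈ closure (box (-m) m)}`, compact (`box_bdd`), all zeros of `HH tc` in `K` are simple (D).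
`tp_fiber`: `{p : p ≠ 0, tp p = t}` is countable: these are zeros of the entire function `2πe^{4p} - t p`, which is not identically zero (value `2π` at `0`).
Let `δ > 0`.  The set of `y = Im σ` with `‖σ‖ ≤ 3/2` such that `HH (tp (p σ))` has a multiple zero is countable (`double_countable`, `tp_fiber`, `d ≠ 0`, `p σ ≠ 0`).  Choose `y` outside of it with `|y - Im σc| < η` (`η` small), so `y ≠ Im σc` (`σc` itself is bad), `|y| ≤ 1/20`, `σe = 1 + i y`, `σ1 = Re σc + i y`, `‖σ1 - σc‖ < η`.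
First path: `v = Re (p σe)`, `X = Im (p σe) ≥ 0`, `c x = tp (v + i x)`, `P x = v + i x` (nonzero), `T = (tp v).re`, `c 0 = T` (F).  For `j ≤ m + 1`: `path_lift` with `D = box j (j+1)`, `ζ0 = v nz T j ∈ D` (F), frontier and simplicity by (E) and `hh_zero_iff, hh_deriv`: `w j` with `w j 0 = nz T j`, `P x * w j x ∈ box j (j+1)`, `Smp`.
At `x = X`: `P X = p σe`.
Second path: `σ(x) = (1 - x) σe + x σ1`, `x ∈ [0, 1]`, `‖σ(x)‖ ≤ 3/2`, `c' x = tp (p (σ x))`, `P' x = p (σ x)`.  All zeros of `HH (c' x)` are simple by the choice of `y`.  For `j < m`: `path_lift` with `D = box (-m) m` (`box j (j+1) ⊆ box (-m) m` for `0 ≤ j < m`), starting at `ζ0 = P X * w j X`; for `j = m, m+1`: `D = box m (m+2)`; the frontiers by (B).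
`c' 1 = tp (p σ1) ≠ tc` since `HH tc` has a double zero and `HH (c' 1)` has not.  `‖c' 1 - tc‖ < δ` for `η` small (continuity of `tp`).
For `j < m`: `ζ = P' 1 * w' j 1 ∈ box (-m) m`, `w' j 1 = ζ/p σ1`, `y' = ζ/pc ∈ K`, `‖w' j 1 - y'‖ ≤ (π m + 3) ‖1/p σ1 - 1/pc‖ < δ` for `η` small.
For `j ∈ {m, m+1}`: `ζ = P' 1 * w' j 1 ∈ box m (m+2)` is a zero of `hh (p σ1)`.  By compactness of `closure (box m (m+2))`, continuity of `(σ, ζ) ↦ HH (tp (p σ)) (ζ/p σ)` and (C): for every `δ' > 0` there is `η` such that all the zeros of `hh (p σ)` in `closure (box m (m+2))` for `‖σ - σc‖ < η` satisfy `‖ζ - ζc‖ < δ'`; so `‖w' j 1 - zc‖ < δ`.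
-/

namespace Pool.Agent.Lib.MP_ec260d_ntC

open Complex Set Filter Topology Metric MeasureTheory

theorem tp_fiber (t : ℂ) : {p : ℂ | p ≠ 0 ∧ tp p = t}.Countable := by
  obtain ⟨g, hg⟩ : ∃ g : ℂ → ℂ, g = fun p => 2 * Real.pi * cexp (4 * p) - t * p := ⟨_, rfl⟩
  have hgd : Differentiable ℂ g := by
    rw [hg]
    fun_prop
  have hga : AnalyticOnNhd ℂ g univ := fun z _ => hgd.analyticAt z
  have hg0 : g 0 ≠ 0 := by
    rw [hg]
    show (2 * Real.pi * cexp (4 * 0) - t * 0 : ℂ) ≠ 0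
    rw [mul_zero, mul_zero, Complex.exp_zero, mul_one, sub_zero]
    exact mul_ne_zero two_ne_zero (by exact_mod_cast Real.pi_ne_zero)
  have hloc : ∀ x : ℂ, ∀ᶠ z in 𝓝[≠] x, g z ≠ 0 := by
    intro x
    rcases (hga x (mem_univ x)).eventually_eq_zero_or_eventually_ne_zero with h | h
    · exact absurd (hga.eqOn_zero_of_preconnected_of_eventuallyEq_zero isPreconnected_univ
        (mem_univ x) h (mem_univ 0)) hg0
    · exact h
  have hU : ∀ x : ℂ, {z | z = x ∨ g z ≠ 0} ∈ 𝓝 x := by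
    intro x
    have h := hloc x
    rw [eventually_nhdsWithin_iff] at h
    filter_upwards [h] with z hz
    by_cases hzx : z = x
    · exact Or.inl hzx
    · exact Or.inr (hz hzx)
  obtain ⟨s, hs, hs1⟩ := TopologicalSpace.countable_cover_nhds hU
  refine hs.mono ?_
  rintro p ⟨hp0, hp⟩
  have hgp : g p = 0 := by
    unfold tp at hp
    rw [div_eq_iff hp0] at hp
    rw [hg]
    show (2 * Real.pi * cexp (4 * p) - t * p : ℂ) = 0
    rw [hp, sub_self]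
  have h1 : p ∈ ⋃ x ∈ s, {z | z = x ∨ g z ≠ 0} := by
    rw [hs1]
    exact mem_univ p
  rw [mem_iUnion₂] at h1
  obtain ⟨x, hx, h2⟩ := h1
  rcases h2 with h2 | h2
  · rw [h2]
    exact hx
  · exact absurd hgp h2

theorem tp_cont (p : ℂ) (hp : p ≠ 0) : ContinuousAt tp p := by
  have h : ContinuousAt (fun p : ℂ => 2 * (Real.pi : ℂ) * cexp (4 * p)) p := by
    have h1 : Continuous (fun p : ℂ => 2 * (Real.pi : ℂ) * cexp (4 * p)) := by fun_prop
    exact h1.continuousAt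
  exact h.div continuousAt_id hp

theorem bridge (m : ℕ) : ∃ (tc zc : ℂ) (K : Set ℂ), HH tc zc = 0 ∧ Hz tc zc = 0 ∧ deriv (Hz tc) zc ≠ 0 ∧
    IsCompact K ∧ (∀ z ∈ K, HH tc z = 0 → Hz tc z ≠ 0) ∧
    ∀ δ : ℝ, 0 < δ → ∃ (T X : ℝ) (c c' : ℝ → ℂ) (w w' : ℕ → ℝ → ℂ), 1 / 2 < T ∧ 0 ≤ X ∧
      ContinuousOn c (Icc 0 X) ∧ ContinuousOn c' (Icc 0 1) ∧ c 0 = T ∧ c X = c' 0 ∧ c' 1 ≠ tc ∧
      ‖c' 1 - tc‖ < δ ∧
      (∀ j ≤ m + 1, ContinuousOn (w j) (Icc 0 X) ∧ ContinuousOn (w' j) (Icc 0 1) ∧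
        w j 0 = nz T j ∧ w j X = w' j 0 ∧ (∀ x ∈ Icc 0 X, Smp (c x) (w j x)) ∧
        (∀ x ∈ Icc (0 : ℝ) 1, Smp (c' x) (w' j x))) ∧
      (∀ j < m, ∃ y ∈ K, ‖w' j 1 - y‖ < δ) ∧ ‖w' m 1 - zc‖ < δ ∧ ‖w' (m + 1) 1 - zc‖ < δ := by
  obtain ⟨q, d, σc, ζc, hd, hσc, hA, hB, hC0, hC1, hC2, hCu, hD, hE, hF⟩ := dblp m
  have hp0 : ∀ σ : ℂ, ‖σ‖ ≤ 3 / 2 → q + d * σ ≠ 0 := by
    intro σ hσ h0
    have h1 := (hA σ hσ).1
    rw [h0] at h1
    norm_num at h1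
  have hσc' : ‖σc‖ ≤ 3 / 2 := by linarith
  have hpc : q + d * σc ≠ 0 := hp0 σc hσc'
  have hHz : ∀ p ζ : ℂ, deriv (hh p) ζ ≠ 0 → Hz (tp p) (ζ / p) ≠ 0 := by
    intro p ζ h h0
    apply h
    rw [hh_deriv, h0, zero_div]
  have e1 : HH (tp (q + d * σc)) (ζc / (q + d * σc)) = 0 := (hh_zero_iff _ _).1 hC0
  have e2 : Hz (tp (q + d * σc)) (ζc / (q + d * σc)) = 0 := by
    have h := hC1
    rw [hh_deriv, div_eq_zero_iff] at h
    rcases h with h | h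
    · exact h
    · exact absurd h (mul_ne_zero hpc (NN_ne _))
  have e3 : deriv (Hz (tp (q + d * σc))) (ζc / (q + d * σc)) ≠ 0 := by
    intro h
    apply hC2
    rw [hh_deriv2, h, zero_div]
  have hKc : ∀ a b : ℝ, IsCompact (closure (box a b)) := fun a b => (box_bdd a b).isCompact_closure
  refine ⟨tp (q + d * σc), ζc / (q + d * σc), (fun ζ => ζ / (q + d * σc)) '' closure (box (-m) m),
    e1, e2, e3, (hKc _ _).image (by fun_prop), ?_, ?_⟩
  · rintro z ⟨ζ, hζ, rfl⟩ hz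
    exact hHz _ _ (hD ζ hζ ((hh_zero_iff _ _).2 hz))
  intro δ hδ
  -- the neighbourhood of the double point
  have hcont1 : ContinuousAt (fun σ : ℂ => q + d * σ) σc := by fun_prop
  have ev1 : ∀ᶠ σ in 𝓝 σc, ‖tp (q + d * σ) - tp (q + d * σc)‖ < δ := by
    have h1 : ContinuousAt (fun σ : ℂ => tp (q + d * σ)) σc :=
      ContinuousAt.comp (f := fun σ : ℂ => q + d * σ) (g := tp) (tp_cont _ hpc) hcont1
    have h2 := Metric.continuousAt_iff'.1 h1 δ hδ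
    filter_upwards [h2] with σ hσ
    rwa [dist_eq_norm] at hσ
  have ev2 : ∀ a b : ℝ, ∀ᶠ σ in 𝓝 σc, ∀ ζ ∈ closure (box a b),
      ‖ζ / (q + d * σ) - ζ / (q + d * σc)‖ < δ / 2 := by
    intro a b
    refine (hKc a b).eventually_forall_of_forall_eventually (fun ζ _ => ?_)
    have h1 : ContinuousAt (fun z : ℂ × ℂ => ‖z.2 / (q + d * z.1) - z.2 / (q + d * σc)‖) (σc, ζ) := by
      refine ContinuousAt.norm (ContinuousAt.sub (ContinuousAt.div ?_ ?_ hpc) ?_)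
      · fun_prop
      · fun_prop
      · exact (continuous_snd.div_const _).continuousAt
    have h2 : ‖(σc, ζ).2 / (q + d * (σc, ζ).1) - (σc, ζ).2 / (q + d * σc)‖ < δ / 2 := by
      simp only [sub_self, norm_zero]
      linarith
    exact h1.eventually_lt continuousAt_const h2
  have ev3 : ∀ᶠ σ in 𝓝 σc, ∀ ζ ∈ closure (box m (m + 2)) ∩ {ζ : ℂ | δ / 2 ≤ ‖ζ / (q + d * σc) -
      ζc / (q + d * σc)‖}, HH (tp (q + d * σ)) (ζ / (q + d * σ)) ≠ 0 := by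
    have hcl : IsClosed {ζ : ℂ | δ / 2 ≤ ‖ζ / (q + d * σc) - ζc / (q + d * σc)‖} := by
      refine isClosed_le continuous_const ?_
      exact ((continuous_id.div_const _).sub continuous_const).norm
    refine ((hKc m (m + 2)).inter_right hcl).eventually_forall_of_forall_eventually (fun ζ hζ => ?_)
    have h1 : ContinuousAt (fun z : ℂ × ℂ => HH (tp (q + d * z.1)) (z.2 / (q + d * z.1))) (σc, ζ) := by
      have h2 : ContinuousAt (fun z : ℂ × ℂ => (tp (q + d * z.1), z.2 / (q + d * z.1))) (σc, ζ) := by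
        refine ContinuousAt.prodMk ?_ (ContinuousAt.div ?_ ?_ hpc)
        · exact ContinuousAt.comp (f := fun z : ℂ × ℂ => q + d * z.1) (g := tp) (x := (σc, ζ))
            (tp_cont _ hpc) (by fun_prop)
        · fun_prop
        · fun_prop
      exact ContinuousAt.comp (f := fun z : ℂ × ℂ => (tp (q + d * z.1), z.2 / (q + d * z.1)))
        (g := fun p : ℂ × ℂ => HH p.1 p.2) (x := (σc, ζ)) HH_cont.continuousAt h2
    refine h1.eventually_ne ?_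
    intro h0
    have h3 := hCu ζ hζ.1 ((hh_zero_iff _ _).2 h0)
    have h4 : δ / 2 ≤ ‖ζ / (q + d * σc) - ζc / (q + d * σc)‖ := hζ.2
    rw [h3, sub_self, norm_zero] at h4
    linarith
  obtain ⟨η, hη, hev⟩ := Metric.eventually_nhds_iff.1
    (ev1.and ((ev2 (-m) m).and ((ev2 m (m + 2)).and ev3)))
  -- the bad values of the imaginary part
  have hT : (Prod.fst '' {p : ℂ × ℂ | HH p.1 p.2 = 0 ∧ Hz p.1 p.2 = 0}).Countable :=
    double_countable.image _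
  have hS : {σ : ℂ | ‖σ‖ ≤ 3 / 2 ∧ ∃ z, HH (tp (q + d * σ)) z = 0 ∧ Hz (tp (q + d * σ)) z = 0}.Countable := by
    have hsub : {σ : ℂ | ‖σ‖ ≤ 3 / 2 ∧ ∃ z, HH (tp (q + d * σ)) z = 0 ∧ Hz (tp (q + d * σ)) z = 0} ⊆
        ⋃ t ∈ Prod.fst '' {p : ℂ × ℂ | HH p.1 p.2 = 0 ∧ Hz p.1 p.2 = 0},
          (fun σ : ℂ => q + d * σ) ⁻¹' {p : ℂ | p ≠ 0 ∧ tp p = t} := by
      rintro σ ⟨h1, z, h2, h3⟩
      refine mem_biUnion (x := tp (q + d * σ)) ⟨(tp (q + d * σ), z), ⟨h2, h3⟩, rfl⟩ ?_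
      exact ⟨hp0 σ h1, rfl⟩
    refine Set.Countable.mono hsub (hT.biUnion (fun t _ => ?_))
    refine (tp_fiber t).preimage_of_injOn ?_
    intro a _ b _ hab
    have h1 : q + d * a = q + d * b := hab
    exact mul_left_cancel₀ hd (add_left_cancel h1)
  obtain ⟨y, hyB, hy⟩ := ((hS.image Complex.im).dense_compl ℝ).exists_dist_lt σc.im
    (lt_min hη (by norm_num : (0 : ℝ) < 1 / 100))
  rw [Real.dist_eq] at hy
  have hy1 : |σc.im - y| < η := lt_of_lt_of_le hy (min_le_left _ _)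
  have hy2 : |σc.im - y| < 1 / 100 := lt_of_lt_of_le hy (min_le_right _ _)
  have hy3 : |y| ≤ 1 / 20 := by
    have h1 := (Complex.abs_im_le_norm σc).trans hσc
    rw [abs_le] at h1 ⊢
    rw [abs_lt] at hy2
    constructor <;> linarith [h1.1, h1.2, hy2.1, hy2.2]
  have hsimple : ∀ σ : ℂ, ‖σ‖ ≤ 3 / 2 → σ.im = y → ∀ z, HH (tp (q + d * σ)) z = 0 →
      Hz (tp (q + d * σ)) z ≠ 0 := by
    intro σ h1 h2 z h3 h4
    exact hyB ⟨σ, ⟨h1, z, h3, h4⟩, h2⟩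
  obtain ⟨σe, hσe⟩ : ∃ σe : ℂ, σe = 1 + y * I := ⟨_, rfl⟩
  obtain ⟨σ1, hσ1⟩ : ∃ σ1 : ℂ, σ1 = (σc.re : ℂ) + y * I := ⟨_, rfl⟩
  have hσ1n : dist σ1 σc < η := by
    have h1 : σ1 - σc = ((y - σc.im : ℝ) : ℂ) * I := by
      rw [hσ1]
      apply Complex.ext
      · simp
      · simp
    rw [dist_eq_norm, h1, norm_mul, Complex.norm_I, mul_one, Complex.norm_real, Real.norm_eq_abs,
      abs_sub_comm]
    exact hy1
  obtain ⟨hv1, hv2, hv3, hv4⟩ := hev hσ1n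
  have hσe1 : ‖σe - 1‖ ≤ 1 / 2 := by
    rw [hσe, add_sub_cancel_left, norm_mul, Complex.norm_I, mul_one, Complex.norm_real, Real.norm_eq_abs]
    linarith
  -- the segment from σe to σ1
  have hseg : ∀ x ∈ Icc (0 : ℝ) 1, ‖(1 - (x : ℂ)) * σe + x * σ1‖ ≤ 3 / 2 ∧
      ((1 - (x : ℂ)) * σe + x * σ1).im = y := by
    intro x hx
    have hre : ((1 - (x : ℂ)) * σe + x * σ1).re = (1 - x) + x * σc.re := by
      rw [hσe, hσ1]
      simp
    have him : ((1 - (x : ℂ)) * σe + x * σ1).im = y := by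
      rw [hσe, hσ1]
      simp
      ring
    refine ⟨?_, him⟩
    refine (Complex.norm_le_abs_re_add_abs_im _).trans ?_
    rw [hre, him]
    have h1 := (Complex.abs_re_le_norm σc).trans hσc
    have h2 : |(1 - x) + x * σc.re| ≤ 1 := by
      rw [abs_le] at h1 ⊢
      constructor <;> nlinarith [h1.1, h1.2, hx.1, hx.2]
    linarith
  have hs0 : (1 - ((0 : ℝ) : ℂ)) * σe + ((0 : ℝ) : ℂ) * σ1 = σe := by push_cast; ring
  have hs1 : (1 - ((1 : ℝ) : ℂ)) * σe + ((1 : ℝ) : ℂ) * σ1 = σ1 := by push_cast; ring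
  have hσen : ‖σe‖ ≤ 3 / 2 := by
    have := (hseg 0 (by norm_num)).1
    rwa [hs0] at this
  have hσ1n' : ‖σ1‖ ≤ 3 / 2 := by
    have := (hseg 1 (by norm_num)).1
    rwa [hs1] at this
  have hσ1im : σ1.im = y := by
    have := (hseg 1 (by norm_num)).2
    rwa [hs1] at this
  obtain ⟨v, hv⟩ : ∃ v : ℝ, v = (q + d * σe).re := ⟨_, rfl⟩
  obtain ⟨X, hX⟩ : ∃ X : ℝ, X = (q + d * σe).im := ⟨_, rfl⟩
  have hv100 : 100 ≤ v := by rw [hv]; exact (hA σe hσen).1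
  have hX0 : 0 ≤ X := by rw [hX]; exact (hA σe hσen).2
  obtain ⟨hF1, hF2, hF3⟩ := hF σe hσe1
  rw [← hv] at hF1 hF2 hF3
  obtain ⟨T, hTT⟩ : ∃ T : ℝ, T = (tp (v : ℂ)).re := ⟨_, rfl⟩
  rw [← hTT] at hF1 hF2 hF3
  have hE' : ∀ x ∈ Icc (0 : ℝ) X, ∀ j : ℕ, j ≤ m + 1 →
      (∀ ζ ∈ frontier (box j (j + 1)), hh ((v : ℂ) + x * I) ζ ≠ 0) ∧
      (∀ ζ ∈ box j (j + 1), hh ((v : ℂ) + x * I) ζ = 0 → deriv (hh ((v : ℂ) + x * I)) ζ ≠ 0) := by
    intro x hx j hj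
    have h1 := hE σe hσe1 x hx.1 (by rw [← hX]; exact hx.2) j hj
    rw [← hv] at h1
    exact h1
  have hPne : ∀ x : ℝ, (v : ℂ) + x * I ≠ 0 := by
    intro x h0
    have h1 := congrArg Complex.re h0
    simp at h1
    linarith
  have hPX : (v : ℂ) + X * I = q + d * σe := by
    rw [hv, hX]
    exact Complex.re_add_im _
  have hPc : Continuous (fun x : ℝ => (v : ℂ) + x * I) := by fun_prop
  have hcc : Continuous (fun x : ℝ => tp ((v : ℂ) + x * I)) := by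
    rw [continuous_iff_continuousAt]
    intro x
    exact ContinuousAt.comp (f := fun x : ℝ => (v : ℂ) + x * I) (g := tp) (tp_cont _ (hPne x))
      hPc.continuousAt
  have hc0 : tp ((v : ℂ) + ((0 : ℝ) : ℂ) * I) = T := by
    rw [Complex.ofReal_zero, zero_mul, add_zero]
    exact hF2
  -- the first lifts
  have step1 : ∀ j : ℕ, ∃ w : ℝ → ℂ, j ≤ m + 1 → ContinuousOn w (Icc 0 X) ∧ w 0 = nz T j ∧
      ∀ x ∈ Icc 0 X, ((v : ℂ) + x * I) * w x ∈ box j (j + 1) ∧ Smp (tp ((v : ℂ) + x * I)) (w x) := by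
    intro j
    by_cases hj : j ≤ m + 1
    · obtain ⟨w, hw1, hw2, hw3⟩ := path_lift X hX0 (fun x : ℝ => tp ((v : ℂ) + x * I))
        (fun x : ℝ => (v : ℂ) + x * I) hcc.continuousOn hPc.continuousOn (fun x _ => hPne x)
        (box j (j + 1)) (box_open _ _) (box_bdd _ _)
        (fun x hx ζ hζ h0 => ((hE' x hx j hj).1 ζ hζ) ((hh_zero_iff _ _).2 h0))
        (fun x hx ζ hζ h0 => hHz _ _ ((hE' x hx j hj).2 ζ hζ ((hh_zero_iff _ _).2 h0)))
        ((v * nz T j : ℝ) : ℂ)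
        (by
          refine ⟨?_, ?_, ?_⟩
          · rw [Complex.ofReal_re]
            exact (hF3 j hj).1
          · rw [Complex.ofReal_re]
            exact (hF3 j hj).2
          · rw [Complex.ofReal_im, abs_zero]
            norm_num)
        (by
          show HH (tp ((v : ℂ) + ((0 : ℝ) : ℂ) * I)) (((v * nz T j : ℝ) : ℂ) / ((v : ℂ) + ((0 : ℝ) : ℂ) * I)) = 0
          rw [hc0, Complex.ofReal_zero, zero_mul, add_zero, Complex.ofReal_mul,
            mul_div_cancel_left₀ _ (Complex.ofReal_ne_zero.2 (by linarith))]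
          exact (nz_pos T hF1.le j).2)
      refine ⟨w, fun _ => ⟨hw1, ?_, hw3⟩⟩
      rw [hw2]
      show ((v * nz T j : ℝ) : ℂ) / ((v : ℂ) + ((0 : ℝ) : ℂ) * I) = nz T j
      rw [Complex.ofReal_zero, zero_mul, add_zero, Complex.ofReal_mul,
        mul_div_cancel_left₀ _ (Complex.ofReal_ne_zero.2 (by linarith))]
    · exact ⟨fun _ => 0, fun h => absurd h hj⟩
  choose w hw using step1
  -- the second path
  have hP'c : Continuous (fun x : ℝ => q + d * ((1 - (x : ℂ)) * σe + x * σ1)) := by fun_prop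
  have hP'ne : ∀ x ∈ Icc (0 : ℝ) 1, q + d * ((1 - (x : ℂ)) * σe + x * σ1) ≠ 0 := fun x hx =>
    hp0 _ (hseg x hx).1
  have hc'c : ContinuousOn (fun x : ℝ => tp (q + d * ((1 - (x : ℂ)) * σe + x * σ1))) (Icc 0 1) := by
    intro x hx
    exact (ContinuousAt.comp (f := fun x : ℝ => q + d * ((1 - (x : ℂ)) * σe + x * σ1)) (g := tp)
      (tp_cont _ (hP'ne x hx)) hP'c.continuousAt).continuousWithinAt
  have hP'0 : q + d * ((1 - ((0 : ℝ) : ℂ)) * σe + ((0 : ℝ) : ℂ) * σ1) = (v : ℂ) + X * I := by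
    rw [hs0, hPX]
  have hXm : X ∈ Icc 0 X := ⟨hX0, le_rfl⟩
  have step2 : ∀ j : ℕ, ∃ w' : ℝ → ℂ, j ≤ m + 1 → ContinuousOn w' (Icc 0 1) ∧ w' 0 = w j X ∧
      (∀ x ∈ Icc (0 : ℝ) 1, Smp (tp (q + d * ((1 - (x : ℂ)) * σe + x * σ1))) (w' x)) ∧
      (j < m → (q + d * σ1) * w' 1 ∈ box (-m) m) ∧ (m ≤ j → (q + d * σ1) * w' 1 ∈ box m (m + 2)) := by
    intro j
    by_cases hj : j ≤ m + 1
    · obtain ⟨hw1, hw2, hw3⟩ := hw j hj
      obtain ⟨hb, hsm⟩ := hw3 X hXm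
      have gen : ∀ a b : ℝ, (∀ σ : ℂ, ‖σ‖ ≤ 3 / 2 → ∀ ζ ∈ frontier (box a b), hh (q + d * σ) ζ ≠ 0) →
          ((v : ℂ) + X * I) * w j X ∈ box a b → ∃ w' : ℝ → ℂ, ContinuousOn w' (Icc 0 1) ∧ w' 0 = w j X ∧
          (∀ x ∈ Icc (0 : ℝ) 1, Smp (tp (q + d * ((1 - (x : ℂ)) * σe + x * σ1))) (w' x)) ∧
          (q + d * σ1) * w' 1 ∈ box a b := by
        intro a b hfr hmem
        have hdiv : ((v : ℂ) + X * I) * w j X / (q + d * ((1 - ((0 : ℝ) : ℂ)) * σe + ((0 : ℝ) : ℂ) * σ1)) =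
            w j X := by
          rw [hP'0]
          exact mul_div_cancel_left₀ _ (hPne X)
        obtain ⟨w', g1, g2, g3⟩ := path_lift 1 zero_le_one
          (fun x : ℝ => tp (q + d * ((1 - (x : ℂ)) * σe + x * σ1)))
          (fun x : ℝ => q + d * ((1 - (x : ℂ)) * σe + x * σ1)) hc'c hP'c.continuousOn hP'ne
          (box a b) (box_open _ _) (box_bdd _ _)
          (fun x hx ζ hζ h0 => hfr _ (hseg x hx).1 ζ hζ ((hh_zero_iff _ _).2 h0))
          (fun x hx ζ _ h0 => hsimple _ (hseg x hx).1 (hseg x hx).2 _ h0)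
          (((v : ℂ) + X * I) * w j X) hmem
          (by
            show HH (tp (q + d * ((1 - ((0 : ℝ) : ℂ)) * σe + ((0 : ℝ) : ℂ) * σ1)))
              (((v : ℂ) + X * I) * w j X / (q + d * ((1 - ((0 : ℝ) : ℂ)) * σe + ((0 : ℝ) : ℂ) * σ1))) = 0
            rw [hdiv, hP'0]
            exact hsm.1)
        refine ⟨w', g1, g2.trans hdiv, fun x hx => (g3 x hx).2, ?_⟩
        have h1 := (g3 1 (by norm_num)).1
        have h2 : (q + d * ((1 - ((1 : ℝ) : ℂ)) * σe + ((1 : ℝ) : ℂ) * σ1)) * w' 1 ∈ box a b := h1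
        rwa [hs1] at h2
      have hπ := Real.pi_pos
      by_cases hjm : j < m
      · obtain ⟨w', g1, g2, g3, g4⟩ := gen (-m) m (fun σ hσ ζ hζ => hB σ hσ ζ (Or.inl hζ)) (by
          obtain ⟨b1, b2, b3⟩ := hb
          have h1 : (j : ℝ) + 1 ≤ m := by exact_mod_cast hjm
          have h2 : (0 : ℝ) ≤ j := by positivity
          refine ⟨?_, ?_, b3⟩
          · nlinarith
          · nlinarith)
        exact ⟨w', fun _ => ⟨g1, g2, g3, fun _ => g4, fun h => by omega⟩⟩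
      · obtain ⟨w', g1, g2, g3, g4⟩ := gen m (m + 2) (fun σ hσ ζ hζ => hB σ hσ ζ (Or.inr hζ)) (by
          obtain ⟨b1, b2, b3⟩ := hb
          have h1 : (m : ℝ) ≤ j := by exact_mod_cast (not_lt.1 hjm)
          have h2 : (j : ℝ) ≤ m + 1 := by exact_mod_cast hj
          refine ⟨?_, ?_, b3⟩
          · nlinarith
          · nlinarith)
        exact ⟨w', fun _ => ⟨g1, g2, g3, fun h => absurd h hjm, fun _ => g4⟩⟩
    · exact ⟨fun _ => 0, fun h => absurd h hj⟩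
  choose w' hw' using step2
  have hend : ∀ j : ℕ, m ≤ j → j ≤ m + 1 → ‖w' j 1 - ζc / (q + d * σc)‖ < δ := by
    intro j hj1 hj2
    obtain ⟨g1, g2, g3, g4, g5⟩ := hw' j hj2
    have hζ := subset_closure (g5 hj1)
    have hne := hp0 σ1 hσ1n'
    have hdiv : (q + d * σ1) * w' j 1 / (q + d * σ1) = w' j 1 := mul_div_cancel_left₀ _ hne
    have h1 := hv3 _ hζ
    rw [hdiv] at h1
    have h2 : ¬ δ / 2 ≤ ‖(q + d * σ1) * w' j 1 / (q + d * σc) - ζc / (q + d * σc)‖ := by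
      intro hle
      apply hv4 _ ⟨hζ, hle⟩
      rw [hdiv]
      have h3 := (g3 1 (by norm_num)).1
      rwa [hs1] at h3
    push Not at h2
    calc ‖w' j 1 - ζc / (q + d * σc)‖ ≤ ‖w' j 1 - (q + d * σ1) * w' j 1 / (q + d * σc)‖ +
        ‖(q + d * σ1) * w' j 1 / (q + d * σc) - ζc / (q + d * σc)‖ := norm_sub_le_norm_sub_add_norm_sub _ _ _
      _ < δ := by linarith
  refine ⟨T, X, fun x : ℝ => tp ((v : ℂ) + x * I), fun x : ℝ => tp (q + d * ((1 - (x : ℂ)) * σe + x * σ1)),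
    w, w', hF1, hX0, hcc.continuousOn, hc'c, hc0, ?_, ?_, ?_, ?_, ?_, hend m le_rfl (by omega),
    hend (m + 1) (by omega) le_rfl⟩
  · show tp ((v : ℂ) + X * I) = tp (q + d * ((1 - ((0 : ℝ) : ℂ)) * σe + ((0 : ℝ) : ℂ) * σ1))
    rw [hP'0]
  · intro h0
    have h1 : tp (q + d * σ1) = tp (q + d * σc) := by
      have h2 : tp (q + d * ((1 - ((1 : ℝ) : ℂ)) * σe + ((1 : ℝ) : ℂ) * σ1)) = tp (q + d * σc) := h0
      rwa [hs1] at h2
    refine hsimple σ1 hσ1n' hσ1im (ζc / (q + d * σc)) ?_ ?_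
    · rw [h1]; exact e1
    · rw [h1]; exact e2
  · show ‖tp (q + d * ((1 - ((1 : ℝ) : ℂ)) * σe + ((1 : ℝ) : ℂ) * σ1)) - tp (q + d * σc)‖ < δ
    rw [hs1]
    exact hv1
  · intro j hj
    obtain ⟨f1, f2, f3⟩ := hw j hj
    obtain ⟨g1, g2, g3, -, -⟩ := hw' j hj
    exact ⟨f1, g1, f2, g2.symm, fun x hx => (f3 x hx).2, g3⟩
  · intro j hj
    obtain ⟨-, -, g3, g4, -⟩ := hw' j (by omega)
    have hζ := subset_closure (g4 hj)
    have hne := hp0 σ1 hσ1n'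
    have hdiv : (q + d * σ1) * w' j 1 / (q + d * σ1) = w' j 1 := mul_div_cancel_left₀ _ hne
    have h1 := hv2 _ hζ
    rw [hdiv] at h1
    exact ⟨(q + d * σ1) * w' j 1 / (q + d * σc), ⟨_, hζ, rfl⟩, by linarith⟩

end Pool.Agent.Lib.MP_ec260d_ntC
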