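import Mathlib
import Pool.Agent.Lib.MP_ec260d_ntC.Defs
import Pool.Agent.Lib.MP_ec260d_ntC.GermH

/-!
# JOB RelH: the relation and its continuation (about 250 lines)

The complete Lean proof of the analogous statements for the inverse of zeta is in `Pool/Agent/Lib/MP_ec260d_ntA/RelA.lean` (theorems `rel_eval, rel_near, rel_of_germ, rel_cont, rel_zero`): copy it and replace `riemannZeta (g b) = b` by `HH b (g b) = 0`, `z ∈ EE` by `Smp t z`, and `germ_left` (`g (ζ w) = w` near `z`) by the local uniqueness in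
`germ_exists` / `germ_local` (a zero `w` of `HH c` with `(c, w)` near `(t, z)` is `g c`).
`rel_cont`: let `S` be the set of `x ∈ [0, X]` with `Rel P (c x) (w · x)`.  Open to the right: take the germs from `rel_near` at `x`; for `x'` near `x`: `w i x' = g i (c x')` (`germ_local`) and `Rel P (c x') (g · (c x'))`.  Closed: at a limit point `x` take germs `g i` at `c x` through `w i x` on a ball `B` around `c x`; for `x' ∈ S` near `x`: `w i x' = g i (c x')`,
by `rel_of_germ` the analytic function `F b = P(b, g(b))` on `B` vanishes near `c x'`, hence on `B` (identity theorem), so `x ∈ S`.  (`IsClosed.Icc_subset_of_forall_mem_nhdsWithin`.)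
`rel_germ_all`: if the germs `g i` at `t` satisfy `HH s (g i s) = 0` near `t` and `Rel P t (g · t)`, `Smp t (g i t)`, then `Rel P s (g · s)` for all `s` near `t`, and the polynomial vanishes on `(s, g s)`.
-/

namespace Pool.Agent.Lib.MP_ec260d_ntC

open Complex Set Filter Topology Metric MeasureTheory

private theorem RelH_analytic {σ : Type*} (f : σ → ℂ → ℂ) (b : ℂ) (hf : ∀ o, AnalyticAt ℂ (f o) b)
    (P : MvPolynomial σ ℂ) : AnalyticAt ℂ (fun b => MvPolynomial.eval (fun o => f o b) P) b := by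
  induction P using MvPolynomial.induction_on with
  | C a =>
    simp only [MvPolynomial.eval_C]
    exact analyticAt_const
  | add p q hp hq =>
    simp only [map_add]
    exact hp.add hq
  | mul_X p i hp =>
    simp only [map_mul, MvPolynomial.eval_X]
    exact hp.mul (hf i)

theorem rel_eval {n : ℕ} (P : MvPolynomial (Option (Fin n)) ℂ) (t : ℂ) (z : Fin n → ℂ)
    (h : Rel P t z) : MvPolynomial.eval (fun o : Option (Fin n) => o.elim t z) P = 0 := by
  obtain ⟨g, hg, hP⟩ := h
  have h1 := hP.self_of_nhds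
  have h2 : (fun i => g i t) = z := funext fun i => (hg i).2.1
  rw [h2] at h1
  exact h1

theorem rel_near {n : ℕ} (P : MvPolynomial (Option (Fin n)) ℂ) (t : ℂ) (z : Fin n → ℂ)
    (h : Rel P t z) : ∃ g : Fin n → ℂ → ℂ,
      (∀ i, AnalyticAt ℂ (g i) t ∧ g i t = z i ∧ ∀ᶠ s in 𝓝 t, HH s (g i s) = 0) ∧
      ∀ᶠ s in 𝓝 t, Rel P s (fun i => g i s) := by
  obtain ⟨g, hg, hP⟩ := h
  refine ⟨g, hg, ?_⟩
  have h1 : ∀ᶠ b in 𝓝 t, ∀ i, AnalyticAt ℂ (g i) b ∧ ∀ᶠ c in 𝓝 b, HH c (g i c) = 0 := by
    rw [Filter.eventually_all]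
    intro i
    exact (hg i).1.eventually_analyticAt.and (hg i).2.2.eventually_nhds
  filter_upwards [h1, hP.eventually_nhds] with b hb hb2
  exact ⟨g, fun i => ⟨(hb i).1, rfl, (hb i).2⟩, hb2⟩

theorem rel_of_germ {n : ℕ} (P : MvPolynomial (Option (Fin n)) ℂ) (t : ℂ) (z : Fin n → ℂ)
    (hz : ∀ i, Smp t (z i)) (h : Rel P t z) (g : Fin n → ℂ → ℂ)
    (hg : ∀ i, ContinuousAt (g i) t ∧ g i t = z i ∧ ∀ᶠ s in 𝓝 t, HH s (g i s) = 0) :
    ∀ᶠ s in 𝓝 t, MvPolynomial.eval (fun o : Option (Fin n) => o.elim s (fun i => g i s)) P = 0 := by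
  obtain ⟨g', hg', hP⟩ := h
  have h1 : ∀ᶠ b in 𝓝 t, ∀ i, g i b = g' i b := by
    rw [Filter.eventually_all]
    intro i
    refine germ_unique (g i) (g' i) t (hg i).1 (hg' i).1.continuousAt ?_ ?_ (hg i).2.2 (hg' i).2.2
    · rw [(hg i).2.1]
      exact hz i
    · rw [(hg i).2.1, (hg' i).2.1]
  filter_upwards [h1, hP] with b hb hb2
  have h2 : (fun i => g i b) = fun i => g' i b := funext hb
  rw [h2]
  exact hb2

theorem rel_cont {n : ℕ} (P : MvPolynomial (Option (Fin n)) ℂ) (X : ℝ) (hX : 0 ≤ X) (c : ℝ → ℂ)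
    (w : Fin n → ℝ → ℂ) (hc : ContinuousOn c (Icc 0 X)) (hw : ∀ i, ContinuousOn (w i) (Icc 0 X))
    (hE : ∀ i, ∀ x ∈ Icc 0 X, Smp (c x) (w i x))
    (h : Rel P (c 0) (fun i => w i 0)) : Rel P (c X) (fun i => w i X) := by
  set S : Set ℝ := {t | Rel P (c t) (fun i => w i t)} with hS
  have hsub : Icc 0 X ⊆ S := by
    refine IsClosed.Icc_subset_of_forall_mem_nhdsWithin ?_ h ?_
    · -- closed
      refine isClosed_of_closure_subset ?_
      intro t ht
      have htI : t ∈ Icc 0 X := by
        have h1 : closure (S ∩ Icc 0 X) ⊆ Icc 0 X :=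
          closure_minimal inter_subset_right isClosed_Icc
        exact h1 ht
      have hne : (𝓝[S ∩ Icc 0 X] t).NeBot := mem_closure_iff_nhdsWithin_neBot.1 ht
      have hle : 𝓝[S ∩ Icc 0 X] t ≤ 𝓝[Icc 0 X] t := nhdsWithin_mono _ inter_subset_right
      choose g hg1 hg2 hg3 hg4 using fun i => germ_exists (c t) (w i t) (hE i t htI)
      have hev : ∀ᶠ b in 𝓝 (c t), ∀ i, AnalyticAt ℂ (g i) b ∧ HH b (g i b) = 0 := by
        rw [Filter.eventually_all]
        intro i
        exact (hg1 i).eventually_analyticAt.and (hg3 i)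
      obtain ⟨ε, hε, hball⟩ := Metric.eventually_nhds_iff_ball.1 hev
      have hcw : Tendsto c (𝓝[S ∩ Icc 0 X] t) (𝓝 (c t)) := (hc t htI).mono_left hle
      have hww : ∀ i, Tendsto (w i) (𝓝[S ∩ Icc 0 X] t) (𝓝 (w i t)) :=
        fun i => (hw i t htI).mono_left hle
      have e1 : ∀ᶠ t' in 𝓝[S ∩ Icc 0 X] t, c t' ∈ ball (c t) ε :=
        hcw (ball_mem_nhds _ hε)
      have e2 : ∀ᶠ t' in 𝓝[S ∩ Icc 0 X] t, ∀ i, HH (c t') (w i t') = 0 → w i t' = g i (c t') := by
        rw [Filter.eventually_all]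
        intro i
        exact (hcw.prodMk_nhds (hww i)).eventually (hg4 i)
      have e3 : ∀ᶠ t' in 𝓝[S ∩ Icc 0 X] t, t' ∈ S ∩ Icc 0 X := self_mem_nhdsWithin
      obtain ⟨t', h1, h2, h3, h4⟩ := (e1.and (e2.and e3)).exists
      have h5 : ∀ i, g i (c t') = w i t' := fun i => (h2 i (hE i t' h4).1).symm
      have h7 : ∀ᶠ b in 𝓝 (c t'), b ∈ ball (c t) ε := isOpen_ball.mem_nhds h1
      have h8 := rel_of_germ P (c t') (fun i => w i t') (fun i => hE i t' h4) h3 g
        (fun i => ⟨(hball _ h1 i).1.continuousAt, h5 i, by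
          filter_upwards [h7] with b hb
          exact (hball b hb i).2⟩)
      have hF : AnalyticOnNhd ℂ (fun b => MvPolynomial.eval
          (fun o : Option (Fin n) => o.elim b (fun i => g i b)) P) (ball (c t) ε) := by
        intro b hb
        have h9 := RelH_analytic (fun (o : Option (Fin n)) (b : ℂ) => o.elim b (fun i => g i b)) b
          (by
            rintro (_ | i)
            · exact analyticAt_id
            · exact (hball b hb i).1) P
        exact h9
      have h10 := hF.eqOn_zero_of_preconnected_of_eventuallyEq_zero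
        (convex_ball _ _).isPreconnected h1 h8
      refine ⟨?_, htI⟩
      refine ⟨g, fun i => ⟨hg1 i, hg2 i, hg3 i⟩, ?_⟩
      filter_upwards [ball_mem_nhds (c t) hε] with b hb
      exact h10 hb
    · -- open to the right
      rintro t ⟨htS, ht0, htX⟩
      have htI : t ∈ Icc 0 X := ⟨ht0, htX.le⟩
      obtain ⟨g, hg, hR⟩ := rel_near P (c t) (fun i => w i t) htS
      have hle : 𝓝[>] t ≤ 𝓝[Icc 0 X] t := by
        rw [nhdsWithin_le_iff]
        filter_upwards [Ioo_mem_nhdsGT htX] with x hx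
        exact ⟨ht0.trans hx.1.le, hx.2.le⟩
      have hcw : Tendsto c (𝓝[>] t) (𝓝 (c t)) := (hc t htI).mono_left hle
      have hww : ∀ i, Tendsto (w i) (𝓝[>] t) (𝓝 (w i t)) :=
        fun i => (hw i t htI).mono_left hle
      have e1 : ∀ᶠ t' in 𝓝[>] t, ∀ i, HH (c t') (w i t') = 0 → w i t' = g i (c t') := by
        rw [Filter.eventually_all]
        intro i
        have h1 := germ_local (g i) (c t) (hg i).1.continuousAt
          (by
            rw [(hg i).2.1]
            exact hE i t htI) (hg i).2.2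
        rw [(hg i).2.1] at h1
        exact (hcw.prodMk_nhds (hww i)).eventually h1
      have e2 : ∀ᶠ t' in 𝓝[>] t, t' ∈ Icc 0 X := hle self_mem_nhdsWithin
      have e3 := hcw.eventually hR
      filter_upwards [e1, e2, e3] with t' h1 h2 h3
      have h4 : (fun i => g i (c t')) = fun i => w i t' := by
        funext i
        exact (h1 i (hE i t' h2).1).symm
      rw [h4] at h3
      exact h3
  exact hsub ⟨hX, le_refl X⟩

/-- the same along the reversed path -/
theorem rel_cont_back {n : ℕ} (P : MvPolynomial (Option (Fin n)) ℂ) (X : ℝ) (hX : 0 ≤ X) (c : ℝ → ℂ)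
    (w : Fin n → ℝ → ℂ) (hc : ContinuousOn c (Icc 0 X)) (hw : ∀ i, ContinuousOn (w i) (Icc 0 X))
    (hE : ∀ i, ∀ x ∈ Icc 0 X, Smp (c x) (w i x))
    (h : Rel P (c X) (fun i => w i X)) : Rel P (c 0) (fun i => w i 0) := by
  have hm : MapsTo (fun x : ℝ => X - x) (Icc 0 X) (Icc 0 X) := by
    intro x hx
    exact ⟨sub_nonneg.2 hx.2, sub_le_self X hx.1⟩
  have hcont : ContinuousOn (fun x : ℝ => X - x) (Icc 0 X) :=
    (continuous_const.sub continuous_id).continuousOn
  have key := rel_cont P X hX (fun x => c (X - x)) (fun i x => w i (X - x)) (hc.comp hcont hm)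
    (fun i => (hw i).comp hcont hm) (fun i x hx => hE i (X - x) (hm hx)) (by
      simp only [sub_zero]
      exact h)
  simp only [sub_self] at key
  exact key

theorem rel_zero (P : MvPolynomial (Option (Fin 0)) ℂ) (t : ℂ) (z : Fin 0 → ℂ) (h : Rel P t z) :
    P = 0 := by
  obtain ⟨g, _, hP⟩ := h
  have hinf : Set.Infinite {b : ℂ | MvPolynomial.eval
      (fun o : Option (Fin 0) => o.elim b (fun i => g i b)) P = 0} := infinite_of_mem_nhds t hP
  refine MvPolynomial.funext_set (fun _ => {b : ℂ | MvPolynomial.eval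
      (fun o : Option (Fin 0) => o.elim b (fun i => g i b)) P = 0}) (fun _ => hinf) ?_
  intro x hx
  have h1 : MvPolynomial.eval
      (fun o : Option (Fin 0) => o.elim (x none) (fun i => g i (x none))) P = 0 :=
    hx none (Set.mem_univ _)
  have h2 : (fun o : Option (Fin 0) => o.elim (x none) (fun i => g i (x none))) = x := by
    funext o
    rcases o with _ | i
    · rfl
    · exact i.elim0
  rw [h2] at h1
  rw [h1, map_zero]

end Pool.Agent.Lib.MP_ec260d_ntC
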