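import Mathlib
import Pool.Agent.Lib.MP_ec260d_ntC.Defs
import Pool.Agent.Lib.MP_ec260d_ntC.RelH
import Pool.Agent.Lib.MP_ec260d_ntC.AllXH
import Pool.Agent.Lib.MP_ec260d_ntC.DBd

/-!
# JOB Fan: a relation can be transported to real t > 1/2 (about 250 lines)

Let `g i` be the germs from `rel_near P t0 z hR`.  There is `ε > 0` such that for all `s ∈ ball t0 ε`: every `g i` is continuous on the ball, `Smp s (g i s)` (`smp_near`), `Rel P s (g · s)`, and `g i s ≠ ± g j s` for `i ≠ j` (continuity; `z i ≠ ± z j`).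
Choose `s0 ∈ ball t0 (ε/2)` with `s0.im ≠ 0`, `T0 = 2 + |s0.re|` (real), `b = T0 - s0`, so `b.im = - s0.im ≠ 0`.  For real `y`, `|y| < η` (`η > 0` small): `s0 + b (y I) ∈ ball t0 ε`; `x*(y) = 1 + b.re y / s0.im ∈ (0, 2)`; and the point `s0 + b (x*(y) + y I)` has imaginary part `s0.im + b.im x* + b.re y = s0.im (1 - x*) + b.re y = 0` and real part `> 1/2`
(at `y = 0`, `x* = 1` it is `T0 ≥ 2`; continuity).
For every `i`: `lift_dom s0 b (-η) η (fun y => g i (s0 + b (y I)))` gives `Om_i, G_i`, and `all_x` with `X = 2`: almost every `y ∈ (-η, η)` is good for all the finitely many `i`; fix one (`(-η, η)` has positive measure).  `c x = s0 + b (x + y I)`, `w i x = G_i (x + y I)`: continuous on `[0, x*]`, `Smp (c x) (w i x)` (`val`), `w i 0 = g i (c 0)`.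
`rel_cont` on `[0, x*]`: `Rel P T (w · x*)`, `T = c x*` real `> 1/2`.  `HH T (w i x*) = 0`, so `w i x*` is real (`real_zeros`): `x i`.  `lift_ne` with `w i` and `w j`, resp. `- w j` (`Smp_neg`, `HH_even`): `x i ≠ ± x j`, i.e. `|x i| ≠ |x j|`.
-/

namespace Pool.Agent.Lib.MP_ec260d_ntC

open Complex Set Filter Topology Metric MeasureTheory

theorem fan {n : ℕ} (P : MvPolynomial (Option (Fin n)) ℂ) (t0 : ℂ) (z : Fin n → ℂ)
    (hz : ∀ i, Smp t0 (z i)) (hd : ∀ i j, i ≠ j → z i ≠ z j ∧ z i ≠ -z j) (hR : Rel P t0 z) :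
    ∃ (T : ℝ) (x : Fin n → ℝ), 1 / 2 < T ∧ (∀ i, HH T (x i) = 0) ∧
      (∀ i j, i ≠ j → |x i| ≠ |x j|) ∧ Rel P T (fun i => (x i : ℂ)) := by
  classical
  obtain ⟨g, hg, hRel⟩ := rel_near P t0 z hR
  -- the germs near t0
  have hev : ∀ᶠ s in 𝓝 t0, (∀ i, ContinuousAt (g i) s ∧ Smp s (g i s)) ∧
      Rel P s (fun i => g i s) ∧ ∀ i j, i ≠ j → g i s ≠ g j s ∧ g i s ≠ -g j s := by
    refine Filter.Eventually.and ?_ (Filter.Eventually.and hRel ?_)
    · rw [Filter.eventually_all]
      intro i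
      obtain ⟨h1, h2, h3⟩ := hg i
      have h4 : Smp t0 (g i t0) := by rw [h2]; exact hz i
      have h5 := smp_near (g i) t0 h1.continuousAt h4 h3
      filter_upwards [h1.eventually_analyticAt, h5] with s hs1 hs2
      exact ⟨hs1.continuousAt, hs2⟩
    · rw [Filter.eventually_all]
      intro i
      rw [Filter.eventually_all]
      intro j
      by_cases hij : i = j
      · exact Filter.Eventually.of_forall fun s hs => absurd hij hs
      · have hci := (hg i).1.continuousAt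
        have hcj := (hg j).1.continuousAt
        have h1 : ∀ᶠ s in 𝓝 t0, g i s ≠ g j s := by
          have h2 : ContinuousAt (fun s => g i s - g j s) t0 := hci.sub hcj
          have h3 : (fun s => g i s - g j s) t0 ≠ 0 := by
            simp only [(hg i).2.1, (hg j).2.1]
            exact sub_ne_zero.2 (hd i j hij).1
          filter_upwards [h2.eventually_ne h3] with s hs
          exact sub_ne_zero.1 hs
        have h1' : ∀ᶠ s in 𝓝 t0, g i s ≠ -g j s := by
          have h2 : ContinuousAt (fun s => g i s + g j s) t0 := hci.add hcj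
          have h3 : (fun s => g i s + g j s) t0 ≠ 0 := by
            simp only [(hg i).2.1, (hg j).2.1]
            intro h
            exact (hd i j hij).2 (eq_neg_of_add_eq_zero_left h)
          filter_upwards [h2.eventually_ne h3] with s hs
          intro h
          exact hs (by rw [h]; ring)
        filter_upwards [h1, h1'] with s hs hs' _
        exact ⟨hs, hs'⟩
  obtain ⟨ε, hε, hball⟩ := Metric.eventually_nhds_iff_ball.1 hev
  -- the starting point
  obtain ⟨s0, hs0, hs0im⟩ : ∃ s0 : ℂ, s0 ∈ ball t0 ε ∧ s0.im ≠ 0 := by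
    by_cases h : t0.im = 0
    · refine ⟨t0 + ((ε / 2 : ℝ) : ℂ) * I, ?_, ?_⟩
      · rw [mem_ball, dist_eq_norm, add_sub_cancel_left, norm_mul, Complex.norm_I, mul_one,
          Complex.norm_real, Real.norm_of_nonneg (by linarith)]
        linarith
      · have : (t0 + ((ε / 2 : ℝ) : ℂ) * I).im = ε / 2 := by
          simp [h]
        rw [this]
        linarith
    · exact ⟨t0, mem_ball_self hε, h⟩
  obtain ⟨T0, hT0⟩ : ∃ T0 : ℝ, T0 = 2 + |s0.re| := ⟨_, rfl⟩
  have hT02 : 2 ≤ T0 := by linarith [abs_nonneg s0.re]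
  obtain ⟨b, hb⟩ : ∃ b : ℂ, b = (T0 : ℂ) - s0 := ⟨_, rfl⟩
  have hbre : b.re = T0 - s0.re := by rw [hb]; simp
  have hbim : b.im = -s0.im := by rw [hb]; simp
  have hb0 : b ≠ 0 := by
    intro h
    rw [h] at hbim
    simp at hbim
    exact hs0im hbim
  obtain ⟨q, hq⟩ : ∃ q : ℝ, q = b.re / s0.im := ⟨_, rfl⟩
  obtain ⟨r, hr⟩ : ∃ r : ℝ, r = b.re * q + s0.im := ⟨_, rfl⟩
  -- the size of the strip
  obtain ⟨η, hη, hstrip⟩ : ∃ η : ℝ, 0 < η ∧ ∀ y ∈ Ioo (-η) η,
      s0 + b * ((y : ℂ) * I) ∈ ball t0 ε ∧ 0 < 1 + q * y ∧ 1 + q * y < 2 ∧ 1 / 2 < T0 + r * y := by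
    have h1 : ∀ᶠ y : ℝ in 𝓝 0, s0 + b * ((y : ℂ) * I) ∈ ball t0 ε := by
      have hc : Continuous (fun y : ℝ => s0 + b * ((y : ℂ) * I)) := by fun_prop
      refine hc.continuousAt.eventually_mem (isOpen_ball.mem_nhds ?_)
      simp only [Complex.ofReal_zero, zero_mul, mul_zero, add_zero]
      exact hs0
    have hq1 : Continuous (fun y : ℝ => 1 + q * y) := by fun_prop
    have h2 : ∀ᶠ y : ℝ in 𝓝 0, 0 < 1 + q * y :=
      hq1.continuousAt.eventually (lt_mem_nhds (by norm_num))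
    have h3 : ∀ᶠ y : ℝ in 𝓝 0, 1 + q * y < 2 :=
      hq1.continuousAt.eventually (gt_mem_nhds (by norm_num))
    have hr1 : Continuous (fun y : ℝ => T0 + r * y) := by fun_prop
    have h4 : ∀ᶠ y : ℝ in 𝓝 0, 1 / 2 < T0 + r * y :=
      hr1.continuousAt.eventually (lt_mem_nhds (by simp only [mul_zero]; linarith))
    obtain ⟨η, hη, h⟩ := Metric.eventually_nhds_iff_ball.1 (h1.and (h2.and (h3.and h4)))
    refine ⟨η, hη, fun y hy => h y ?_⟩
    rw [Real.ball_eq_Ioo, zero_sub, zero_add]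
    exact hy
  -- the lifts
  have hlift : ∀ i, ∃ (Om : Set ℂ) (G : ℂ → ℂ), LD s0 b (-η) η Om G ∧
      ∀ y ∈ Ioo (-η) η, G ((y : ℂ) * I) = g i (s0 + b * ((y : ℂ) * I)) := by
    intro i
    refine lift_dom s0 b (-η) η (fun y => g i (s0 + b * ((y : ℂ) * I))) ?_ ?_
    · intro y hy
      have h1 := ((hball _ (hstrip y hy).1).1 i).1
      have hc : Continuous (fun y : ℝ => s0 + b * ((y : ℂ) * I)) := by fun_prop
      exact (ContinuousAt.comp (f := fun y : ℝ => s0 + b * ((y : ℂ) * I)) (g := g i) h1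
        hc.continuousAt).continuousWithinAt
    · intro y hy
      exact ((hball _ (hstrip y hy).1).1 i).2
  choose Om G hLD hG0 using hlift
  have hae : ∀ᵐ y : ℝ ∂(volume.restrict (Ioo (-η) η)), ∀ i, y ∈ Ioo (-η) η →
      ∀ x : ℝ, 0 ≤ x → x ≤ 2 → ((x : ℂ) + y * I) ∈ Om i := by
    refine ae_restrict_of_ae ?_
    rw [ae_all_iff]
    intro i
    exact all_x (hLD i) hb0 2
  have hne : (ae (volume.restrict (Ioo (-η) η))).NeBot := by
    rw [ae_neBot]
    intro h
    have h1 := Measure.restrict_eq_zero.1 h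
    rw [Real.volume_Ioo, ENNReal.ofReal_eq_zero] at h1
    linarith
  obtain ⟨y, hy, hyI⟩ := (hae.and (ae_restrict_mem measurableSet_Ioo)).exists
  obtain ⟨hy1, hX0, hX2, hT⟩ := hstrip y hyI
  -- the path
  obtain ⟨X, hX⟩ : ∃ X : ℝ, X = 1 + q * y := ⟨_, rfl⟩
  rw [← hX] at hX0 hX2
  obtain ⟨T, hTd⟩ : ∃ T : ℝ, T = T0 + r * y := ⟨_, rfl⟩
  rw [← hTd] at hT
  obtain ⟨c, hc⟩ : ∃ c : ℝ → ℂ, c = fun x : ℝ => s0 + b * ((x : ℂ) + y * I) := ⟨_, rfl⟩
  have hcX : c X = (T : ℂ) := by
    rw [hc]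
    apply Complex.ext
    · simp only [Complex.add_re, Complex.mul_re, Complex.ofReal_re, Complex.ofReal_im, Complex.I_re,
        Complex.I_im, Complex.add_im, Complex.mul_im, mul_zero, mul_one, add_zero,
        zero_add, sub_self]
      rw [hbim, hTd, hr, hX, hbre]
      ring
    · simp only [Complex.add_re, Complex.mul_re, Complex.ofReal_re, Complex.ofReal_im, Complex.I_re,
        Complex.I_im, Complex.add_im, Complex.mul_im, mul_zero, mul_one, add_zero,
        zero_add, sub_self]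
      rw [hbim, hX, hq]
      field_simp
      ring
  have hc0 : c 0 = s0 + b * ((y : ℂ) * I) := by
    rw [hc]
    simp only [Complex.ofReal_zero, zero_add]
  have hcc : ContinuousOn c (Icc 0 X) := by
    rw [hc]
    exact Continuous.continuousOn (by fun_prop)
  have hmem : ∀ i, ∀ x ∈ Icc 0 X, ((x : ℂ) + y * I) ∈ Om i := fun i x hx =>
    hy i hyI x hx.1 (hx.2.trans hX2.le)
  obtain ⟨w, hw⟩ : ∃ w : Fin n → ℝ → ℂ, w = fun (i : Fin n) (x : ℝ) => G i ((x : ℂ) + y * I) := ⟨_, rfl⟩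
  have hwc : ∀ i, ContinuousOn (w i) (Icc 0 X) := by
    intro i
    rw [hw]
    have h1 : Continuous (fun x : ℝ => (x : ℂ) + y * I) := by fun_prop
    exact (hLD i).cont.comp h1.continuousOn (hmem i)
  have hE : ∀ i, ∀ x ∈ Icc 0 X, Smp (c x) (w i x) := by
    intro i x hx
    rw [hc, hw]
    exact (hLD i).val _ (hmem i x hx)
  have hw0 : ∀ i, w i 0 = g i (s0 + b * ((y : ℂ) * I)) := by
    intro i
    rw [hw]
    simp only [Complex.ofReal_zero, zero_add]
    exact hG0 i y hyI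
  have hR0 : Rel P (c 0) (fun i => w i 0) := by
    have h1 := (hball _ hy1).2.1
    rw [hc0]
    simp only [hw0]
    exact h1
  have hRX := rel_cont P X hX0.le c w hcc hwc hE hR0
  have h0X : X ∈ Icc 0 X := ⟨hX0.le, le_rfl⟩
  have hreal : ∀ i, (w i X).im = 0 := by
    intro i
    have h1 := (hE i X h0X).1
    rw [hcX] at h1
    exact real_zeros T hT.le _ h1
  have hwX : ∀ i, (((w i X).re : ℝ) : ℂ) = w i X := by
    intro i
    apply Complex.ext
    · exact Complex.ofReal_re _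
    · rw [Complex.ofReal_im, hreal i]
  refine ⟨T, fun i => (w i X).re, hT, ?_, ?_, ?_⟩
  · intro i
    simp only [hwX]
    have h1 := (hE i X h0X).1
    rwa [hcX] at h1
  · intro i j hij habs
    have hn := (hball _ hy1).2.2 i j hij
    rcases abs_eq_abs.1 habs with h | h
    · refine lift_ne X hX0.le c (w i) (w j) hcc (hwc i) (hwc j) (hE i)
        (fun x hx => (hE j x hx).1) ?_ ?_
      · rw [hw0, hw0]
        exact hn.1
      · rw [← hwX i, ← hwX j]
        simp only [h]
    · refine lift_ne X hX0.le c (w i) (fun x => -w j x) hcc (hwc i) (hwc j).neg (hE i)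
        (fun x hx => ?_) ?_ ?_
      · rw [HH_even]
        exact (hE j x hx).1
      · simp only [hw0]
        exact hn.2
      · rw [← hwX i, ← hwX j]
        simp only [h]
        push_cast
        rfl
  · simp only [hwX]
    rw [← hcX]
    exact hRX

end Pool.Agent.Lib.MP_ec260d_ntC
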