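import Mathlib
import Pool.Agent.Lib.MP_ec260d_ntC.DefsW
import Pool.Agent.Lib.MP_ec260d_ntC.NzA
import Pool.Agent.Lib.MP_ec260d_ntC.GermH
import Pool.Agent.Lib.MP_ec260d_ntC.RelH

/-!
# JOB NzB: the zeros depend continuously on real t > 1/2 (about 200 lines)

`nz_near`: let `t0 > 1/2`, `n : ℕ`, `a i = nz t0 i`.  Each `a i`, `i ≤ n`, is a simple zero (`simple_zeros`), `germ_exists`: germs `g i` at `t0`, with `Smp s (g i s)` near `t0`, and local uniqueness: there is `ε > 0` (`2ε <` all the differences `a (i+1) - a i`, `2ε < a 0`) such that for `s` near `t0` the only zero of `HH s` in `ball (a i) ε` is `g i s`.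
For real `s > 1/2` near `t0`: `g i s` is real (`real_zeros`).  The compact set `[0, a n + ε] \ ⋃ (a i - ε, a i + ε)` contains no zero of `HH t0` (`HH_zero_ne`, `nz_surj`), hence none of `HH s` for `s` near `t0` (`HH_cont`, compactness).  So the zeros of `HH s` in `(0, a n + ε)` are exactly the real numbers `(g i s).re`, `i ≤ n`, increasing in `i`:
`nz_char` gives `nz s i = (g i s).re`.
`nz_cont`, `rel_real`: `rel_cont` along `c x = T + x (T' - T)`, `w i x = nz (c x) (j i)`; `Smp` by `simple_zeros`.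
-/

namespace Pool.Agent.Lib.MP_ec260d_ntC

open Complex Set Filter Topology Metric MeasureTheory

/-- a germ through the `j`-th zero describes the `j`-th zero for real parameters -/
theorem nz_near (t0 : ℝ) (ht : 1 / 2 < t0) (j : ℕ) (g : ℂ → ℂ) (hg : ContinuousAt g t0)
    (h0 : g t0 = nz t0 j) (h : ∀ᶠ s in 𝓝 (t0 : ℂ), HH s (g s) = 0) :
    ∀ᶠ s : ℝ in 𝓝 t0, g s = nz s j := by
  have hS : ∀ i : ℕ, Smp (t0 : ℂ) (nz t0 i : ℂ) := fun i =>
    ⟨(nz_pos t0 ht.le i).2, simple_zeros t0 ht _ (nz_pos t0 ht.le i).2⟩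
  have key : ∀ i : ℕ, ∃ G : ℂ → ℂ, AnalyticAt ℂ G t0 ∧ G t0 = nz t0 i ∧
      (∀ᶠ s in 𝓝 (t0 : ℂ), HH s (G s) = 0) ∧
      ∀ᶠ p : ℂ × ℂ in 𝓝 ((t0 : ℂ), (nz t0 i : ℂ)), HH p.1 p.2 = 0 → p.2 = G p.1 :=
    fun i => germ_exists t0 (nz t0 i) (hS i)
  choose G hGa hG0 hGz hGu using key
  have hofR : Tendsto (fun s : ℝ => (s : ℂ)) (𝓝 t0) (𝓝 (t0 : ℂ)) :=
    Complex.continuous_ofReal.tendsto t0
  -- `g` is the germ `G j`
  have hgG : ∀ᶠ s : ℝ in 𝓝 t0, g s = G j s := by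
    refine hofR.eventually (germ_unique g (G j) t0 hg (hGa j).continuousAt ?_ ?_ h (hGz j))
    · rw [h0]; exact hS j
    · rw [h0, hG0 j]
  have hAt : ∀ i, Tendsto (fun s : ℝ => (G i (s : ℂ)).re) (𝓝 t0) (𝓝 (nz t0 i)) := by
    intro i
    have h1 : Tendsto (fun s : ℝ => G i (s : ℂ)) (𝓝 t0) (𝓝 (G i t0)) :=
      (hGa i).continuousAt.tendsto.comp hofR
    have h2 := (Complex.continuous_re.tendsto (G i t0)).comp h1
    rw [hG0 i, Complex.ofReal_re] at h2
    exact h2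
  have e1 : ∀ᶠ s : ℝ in 𝓝 t0, 1 / 2 < s := eventually_gt_nhds ht
  have e2 : ∀ᶠ s : ℝ in 𝓝 t0, ∀ i ∈ Finset.range (j + 1),
      HH (s : ℂ) (G i s) = 0 ∧ 0 < (G i (s : ℂ)).re := by
    rw [Filter.eventually_all_finset]
    intro i _
    exact (hofR.eventually (hGz i)).and ((hAt i).eventually (eventually_gt_nhds (nz_pos t0 ht.le i).1))
  have e3 : ∀ᶠ s : ℝ in 𝓝 t0, ∀ i ∈ Finset.range (j + 1), ∀ i' ∈ Finset.range (j + 1),
      i < i' → (G i (s : ℂ)).re < (G i' (s : ℂ)).re := by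
    rw [Filter.eventually_all_finset]
    intro i _
    rw [Filter.eventually_all_finset]
    intro i' _
    by_cases hii : i < i'
    · have hlt : nz t0 i < nz t0 i' := nz_mono t0 ht.le hii
      filter_upwards [(hAt i).eventually_lt (hAt i') hlt] with s hs _
      exact hs
    · exact Filter.Eventually.of_forall fun s hh => absurd hh hii
  have e4 : ∀ᶠ s : ℝ in 𝓝 t0, ∀ x ∈ Icc (0 : ℝ) (nz t0 j), HH (s : ℂ) (x : ℂ) = 0 →
      ∃ i ≤ j, (x : ℂ) = G i s := by
    refine isCompact_Icc.eventually_forall_of_forall_eventually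
      (P := fun (s : ℝ) (x : ℝ) => HH (s : ℂ) (x : ℂ) = 0 → ∃ i ≤ j, (x : ℂ) = G i s) ?_
    intro x hx
    have hpr : Tendsto (fun q : ℝ × ℝ => ((q.1 : ℂ), (q.2 : ℂ))) (𝓝 (t0, x))
        (𝓝 ((t0 : ℂ), (x : ℂ))) := by
      have hc : Continuous (fun q : ℝ × ℝ => ((q.1 : ℂ), (q.2 : ℂ))) := by fun_prop
      exact hc.tendsto (t0, x)
    by_cases hz : HH (t0 : ℂ) (x : ℂ) = 0
    · have hx0 : 0 < x := by
        rcases hx.1.lt_or_eq with h1 | h1
        · exact h1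
        · exfalso
          rw [← h1, Complex.ofReal_zero] at hz
          exact HH_zero_ne t0 hz
      obtain ⟨i, hi⟩ := nz_surj t0 ht.le x hx0 hz
      have hij : i ≤ j := by
        by_contra hcon
        have hlt : nz t0 j < nz t0 i := nz_mono t0 ht.le (not_le.mp hcon)
        rw [hi] at hlt
        exact absurd hx.2 (not_le.mpr hlt)
      have h1 := hGu i
      rw [hi] at h1
      filter_upwards [hpr.eventually h1] with q hq hq0
      exact ⟨i, hij, hq hq0⟩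
    · have h1 : ∀ᶠ p : ℂ × ℂ in 𝓝 ((t0 : ℂ), (x : ℂ)), HH p.1 p.2 ≠ 0 :=
        (HH_cont.continuousAt (x := ((t0 : ℂ), (x : ℂ)))).eventually_ne hz
      filter_upwards [hpr.eventually h1] with q hq hq0
      exact absurd hq0 hq
  obtain ⟨ε, hε, hball⟩ := Metric.eventually_nhds_iff.mp (hGu j)
  have e5 : ∀ᶠ s : ℝ in 𝓝 t0, dist s t0 < ε := by
    exact Metric.eventually_nhds_iff.mpr ⟨ε, hε, fun y hy => hy⟩
  have e6 : ∀ᶠ s : ℝ in 𝓝 t0, dist (G j (s : ℂ)).re (nz t0 j) < ε :=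
    (hAt j).eventually (Metric.eventually_nhds_iff.mpr ⟨ε, hε, fun y hy => hy⟩)
  filter_upwards [hgG, e1, e2, e3, e4, e5, e6] with s hs1 hs2 hs3 hs4 hs5 hs6 hs7
  have hreal : ∀ i ≤ j, (((G i (s : ℂ)).re : ℝ) : ℂ) = G i s := by
    intro i hi
    have him := real_zeros s hs2.le (G i s) (hs3 i (Finset.mem_range.mpr (by omega))).1
    apply Complex.ext
    · rw [Complex.ofReal_re]
    · rw [Complex.ofReal_im, him]
  have hchar := nz_char s hs2.le j (fun i => (G i (s : ℂ)).re) ?_ ?_ ?_ j le_rfl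
  · rw [hs1, hchar]
    exact (hreal j le_rfl).symm
  · intro i hi
    have h3 := hs3 i (Finset.mem_range.mpr (by omega))
    refine ⟨h3.2, ?_⟩
    show HH (s : ℂ) (((G i (s : ℂ)).re : ℝ) : ℂ) = 0
    rw [hreal i hi]
    exact h3.1
  · intro i i' hii' hi'
    exact hs4 i (Finset.mem_range.mpr (by omega)) i' (Finset.mem_range.mpr (by omega)) hii'
  · intro x hx0 hxle hxz
    have hxle' : x ≤ (G j (s : ℂ)).re := hxle
    by_cases hxj : x ≤ nz t0 j
    · obtain ⟨i, hi, hix⟩ := hs5 x ⟨hx0.le, hxj⟩ hxz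
      refine ⟨i, hi, ?_⟩
      show (G i (s : ℂ)).re = x
      rw [← hix, Complex.ofReal_re]
    · push Not at hxj
      refine ⟨j, le_rfl, ?_⟩
      show (G j (s : ℂ)).re = x
      have hd : dist ((s : ℂ), (x : ℂ)) ((t0 : ℂ), (nz t0 j : ℂ)) < ε := by
        rw [Prod.dist_eq, max_lt_iff]
        constructor
        · show dist (s : ℂ) (t0 : ℂ) < ε
          rw [Complex.dist_eq, ← Complex.ofReal_sub, Complex.norm_real]
          rw [Real.dist_eq] at hs6
          rw [Real.norm_eq_abs]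
          exact hs6
        · show dist (x : ℂ) (nz t0 j : ℂ) < ε
          rw [Complex.dist_eq, ← Complex.ofReal_sub, Complex.norm_real, Real.norm_eq_abs]
          rw [Real.dist_eq] at hs7
          rw [abs_of_pos (by linarith)]
          have h7 := (abs_lt.mp hs7).2
          linarith
      have hu := hball hd hxz
      have hu' : (x : ℂ) = G j s := hu
      rw [← hu', Complex.ofReal_re]

theorem nz_cont (j : ℕ) : ContinuousOn (fun t : ℝ => nz t j) (Ioi (1 / 2)) := by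
  intro t0 ht0
  have ht : 1 / 2 < t0 := ht0
  obtain ⟨g, hga, hg0, hgz, _⟩ := germ_exists t0 (nz t0 j)
    ⟨(nz_pos t0 ht.le j).2, simple_zeros t0 ht _ (nz_pos t0 ht.le j).2⟩
  have hn := nz_near t0 ht j g hga.continuousAt hg0 hgz
  have hofR : Tendsto (fun s : ℝ => (s : ℂ)) (𝓝 t0) (𝓝 (t0 : ℂ)) :=
    Complex.continuous_ofReal.tendsto t0
  have h1 : Tendsto (fun s : ℝ => g (s : ℂ)) (𝓝 t0) (𝓝 (g t0)) :=
    hga.continuousAt.tendsto.comp hofR
  have h2 : Tendsto (fun s : ℝ => (g (s : ℂ)).re) (𝓝 t0) (𝓝 (nz t0 j)) := by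
    have h3 := (Complex.continuous_re.tendsto (g t0)).comp h1
    rw [hg0, Complex.ofReal_re] at h3
    exact h3
  have h3 : Tendsto (fun s : ℝ => nz s j) (𝓝 t0) (𝓝 (nz t0 j)) := by
    refine h2.congr' ?_
    filter_upwards [hn] with s hs
    rw [hs, Complex.ofReal_re]
  exact ContinuousAt.continuousWithinAt h3

theorem rel_real {n : ℕ} (P : MvPolynomial (Option (Fin n)) ℂ) (j : Fin n → ℕ) (T T' : ℝ)
    (hT : 1 / 2 < T) (hT' : 1 / 2 < T') (h : Rel P T (fun i => (nz T (j i) : ℂ))) :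
    Rel P T' (fun i => (nz T' (j i) : ℂ)) := by
  have hpos : ∀ x ∈ Icc (0 : ℝ) 1, 1 / 2 < T + x * (T' - T) := by
    intro x hx
    obtain ⟨hx0, hx1⟩ := hx
    nlinarith [mul_nonneg hx0 (by linarith : (0 : ℝ) ≤ T' - 1 / 2),
      mul_nonneg (by linarith : (0 : ℝ) ≤ 1 - x) (by linarith : (0 : ℝ) ≤ T - 1 / 2),
      mul_pos (by linarith : (0 : ℝ) < T' - 1 / 2) (by linarith : (0 : ℝ) < T - 1 / 2)]
  have hcr : Continuous (fun x : ℝ => T + x * (T' - T)) := by fun_prop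
  have hc : ContinuousOn (fun x : ℝ => ((T + x * (T' - T) : ℝ) : ℂ)) (Icc 0 1) :=
    (Complex.continuous_ofReal.comp hcr).continuousOn
  have hw : ∀ i, ContinuousOn (fun x : ℝ => ((nz (T + x * (T' - T)) (j i) : ℝ) : ℂ)) (Icc 0 1) := by
    intro i
    have h1 : ContinuousOn (fun x : ℝ => nz (T + x * (T' - T)) (j i)) (Icc 0 1) :=
      (nz_cont (j i)).comp hcr.continuousOn (fun x hx => hpos x hx)
    exact Complex.continuous_ofReal.comp_continuousOn h1
  have hE : ∀ i, ∀ x ∈ Icc (0 : ℝ) 1, Smp ((T + x * (T' - T) : ℝ) : ℂ)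
      ((nz (T + x * (T' - T)) (j i) : ℝ) : ℂ) := by
    intro i x hx
    have h2 := hpos x hx
    exact ⟨(nz_pos _ h2.le (j i)).2, simple_zeros _ h2 _ (nz_pos _ h2.le (j i)).2⟩
  have hfin := rel_cont P 1 zero_le_one (fun x : ℝ => ((T + x * (T' - T) : ℝ) : ℂ))
    (fun i x => ((nz (T + x * (T' - T)) (j i) : ℝ) : ℂ)) hc hw hE ?_
  · have e1 : T + 1 * (T' - T) = T' := by ring
    simp only [e1] at hfin
    exact hfin
  · have e0 : T + 0 * (T' - T) = T := by ring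
    simp only [e0]
    exact h

end Pool.Agent.Lib.MP_ec260d_ntC
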