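import Mathlib
import Pool.Agent.Lib.MP_ec260d_ntC.Defs
import Pool.Agent.Lib.MP_ec260d_ntC.HB
import Pool.Agent.Lib.MP_ec260d_ntC.GermH

/-!
# JOB SwapA: the zeros near a simple double zero (about 300 lines)

`H = HH`, `H_t = -H_zz` (`HH_strict`).  At `(tc, zc)`: `H = 0`, `H_z = 0`, `H_zz ≠ 0`, so `H_t ≠ 0`.
(1) Implicit function theorem for `t` as a function of `z`: there is `τ` analytic at `zc`, `τ zc = tc`, `HH (τ z) z = 0` near `zc`, and every zero `(t, z)` of `HH` near `(tc, zc)` satisfies `t = τ z` (inverse function theorem for `(t, z) ↦ (HH t z, z)`, whose strict derivative is invertible since `H_t ≠ 0`; as in `germ_exists`, see the proof of `GermH`: differentiability of `τ`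
at every nearby point, then analyticity).
(2) `τ' = -H_z/H_t` (differentiate `HH (τ z) z = 0`), so `τ' zc = 0` and `τ'' zc = -H_zz/H_t = 1`.  Hence `τ z - tc = (z - zc)² q(z)` with `q` analytic at `zc`, `q zc = 1/2 ≠ 0` (`AnalyticAt` order of vanishing equal to 2: `analyticOrderAt`, or divide twice by `dslope`).  `q` has an analytic square root near `zc` (`q = (q zc) (1 + small)`, `cpow` or `exp (log/2)`),
`ψ z = (z - zc) sqrt (q z)`: `τ z - tc = ψ z²`, `ψ zc = 0`, `ψ' zc ≠ 0`.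
(3) Inverse function theorem: `χ` is the local inverse of `ψ`: differentiable on a ball `ball 0 ρ`, `χ 0 = zc`, `ψ (χ s) = s`, `χ (ψ z) = z` near `zc`.  Then `HH (tc + s²) (χ s) = HH (τ (χ s)) (χ s) = 0`.  For a zero `(t, z)` near `(tc, zc)`: `s = ψ z`, `t = τ z = tc + s²`, `z = χ s`, and `s` is small.
(4) For `s ≠ 0`: `Hz (tc + s²) (χ s) ≠ 0` because `τ'(z) = 2 ψ ψ' ≠ 0` for `z ≠ zc` near `zc` and `H_z = -H_t τ'`, `H_t ≠ 0` near the point.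
-/

namespace Pool.Agent.Lib.MP_ec260d_ntC

open Complex Set Filter Topology Metric MeasureTheory

private lemma SwapA_impl (f : ℂ × ℂ → ℂ) (u : ℂ × ℂ) (hf : ContDiffAt ℂ 1 f u)
    (hd : fderiv ℂ f u (0, 1) ≠ 0) : ∃ g : ℂ → ℂ, AnalyticAt ℂ g u.1 ∧ g u.1 = u.2 ∧
      ∀ᶠ v in 𝓝 u, f v = f u ↔ g v.1 = v.2 := by
  have hinv : (fderiv ℂ f u ∘L ContinuousLinearMap.inr ℂ ℂ ℂ).IsInvertible := by
    refine ⟨ContinuousLinearEquiv.unitsEquivAut ℂ (Units.mk0 _ hd), ?_⟩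
    ext
    simp
  have h1 : (1 : WithTop ℕ∞) ≠ 0 := one_ne_zero
  refine ⟨hf.implicitFunction h1 hinv, ?_, hf.implicitFunction_apply_self h1 hinv,
    hf.eventually_apply_eq_iff_implicitFunction h1 hinv⟩
  have h2 := hf.contDiffAt_implicitFunction h1 hinv
  rw [Complex.analyticAt_iff_eventually_differentiableAt]
  have h3 := h2.eventually (by simp)
  filter_upwards [h3] with y hy
  exact hy.differentiableAt (by simp)

private lemma SwapA_iter1 (t : ℂ) : iteratedDeriv 1 (HH t) = Hz t := by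
  funext z
  rw [iteratedDeriv_one]
  rfl

private lemma SwapA_iter2 (t : ℂ) : iteratedDeriv 2 (HH t) = deriv (Hz t) := by
  rw [iteratedDeriv_succ, SwapA_iter1]

private lemma SwapA_Hz_cont : Continuous (fun p : ℂ × ℂ => Hz p.1 p.2) := by
  have h := HH_iter_cont 1
  simp only [SwapA_iter1] at h
  exact h

private lemma SwapA_Hzz_cont : Continuous (fun p : ℂ × ℂ => deriv (Hz p.1) p.2) := by
  have h := HH_iter_cont 2
  simp only [SwapA_iter2] at h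
  exact h

/-- the derivative in the swapped variables -/
private lemma SwapA_fd (v : ℂ × ℂ) : HasFDerivAt (fun p : ℂ × ℂ => HH p.2 p.1)
    ((Hz v.2 v.1) • ContinuousLinearMap.fst ℂ ℂ ℂ +
      (-(deriv (Hz v.2) v.1)) • ContinuousLinearMap.snd ℂ ℂ ℂ) v := by
  have h := (HH_strict v.2 v.1).hasFDerivAt
  have hs : HasFDerivAt (fun p : ℂ × ℂ => ((p.2, p.1) : ℂ × ℂ))
      ((ContinuousLinearMap.snd ℂ ℂ ℂ).prod (ContinuousLinearMap.fst ℂ ℂ ℂ)) v :=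
    (hasFDerivAt_snd).prodMk (hasFDerivAt_fst)
  have h2 := HasFDerivAt.comp v (f := fun p : ℂ × ℂ => ((p.2, p.1) : ℂ × ℂ))
    (g := fun p : ℂ × ℂ => HH p.1 p.2) h hs
  have h3 : ((-(deriv (Hz v.2) v.1)) • ContinuousLinearMap.fst ℂ ℂ ℂ +
      (Hz v.2 v.1) • ContinuousLinearMap.snd ℂ ℂ ℂ).comp
      ((ContinuousLinearMap.snd ℂ ℂ ℂ).prod (ContinuousLinearMap.fst ℂ ℂ ℂ)) =
      (Hz v.2 v.1) • ContinuousLinearMap.fst ℂ ℂ ℂ +
      (-(deriv (Hz v.2) v.1)) • ContinuousLinearMap.snd ℂ ℂ ℂ := by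
    ext <;> simp
  rw [h3] at h2
  exact h2

private lemma SwapA_cd (v : ℂ × ℂ) : ContDiffAt ℂ 1 (fun p : ℂ × ℂ => HH p.2 p.1) v := by
  have h : ContDiff ℂ 1 (fun p : ℂ × ℂ => HH p.2 p.1) := by
    rw [contDiff_one_iff_hasFDerivAt]
    refine ⟨fun v => (Hz v.2 v.1) • ContinuousLinearMap.fst ℂ ℂ ℂ +
      (-(deriv (Hz v.2) v.1)) • ContinuousLinearMap.snd ℂ ℂ ℂ, ?_, SwapA_fd⟩
    have hsw : Continuous (fun v : ℂ × ℂ => ((v.2, v.1) : ℂ × ℂ)) := by fun_prop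
    have h1 : Continuous (fun v : ℂ × ℂ => Hz v.2 v.1) := SwapA_Hz_cont.comp hsw
    have h2 : Continuous (fun v : ℂ × ℂ => deriv (Hz v.2) v.1) := SwapA_Hzz_cont.comp hsw
    exact (h1.smul continuous_const).add (h2.neg.smul continuous_const)
  exact h.contDiffAt

/-- analytic function with a zero of order at least two -/
private lemma SwapA_ord2 (f : ℂ → ℂ) (z : ℂ) (hf : AnalyticAt ℂ f z) (h0 : f z = 0)
    (h1 : deriv f z = 0) : ∃ q : ℂ → ℂ, AnalyticAt ℂ q z ∧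
      ∀ᶠ w in 𝓝 z, f w = (w - z) ^ 2 * q w := by
  have h2 : ((2 : ℕ) : ℕ∞) ≤ analyticOrderAt f z := by
    rw [natCast_le_analyticOrderAt_iff_iteratedDeriv_eq_zero hf]
    intro i hi
    interval_cases i
    · simpa using h0
    · simpa [iteratedDeriv_one] using h1
  rw [natCast_le_analyticOrderAt hf] at h2
  obtain ⟨q, hq, hq2⟩ := h2
  refine ⟨q, hq, ?_⟩
  filter_upwards [hq2] with w hw
  simpa using hw

/-- square root of an analytic function -/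
private lemma SwapA_sqrt (q : ℂ → ℂ) (z : ℂ) (hq : AnalyticAt ℂ q z) (h0 : q z ≠ 0) :
    ∃ r : ℂ → ℂ, AnalyticAt ℂ r z ∧ r z ≠ 0 ∧ ∀ᶠ w in 𝓝 z, r w ^ 2 = q w := by
  obtain ⟨c, hc⟩ := IsAlgClosed.exists_pow_nat_eq (q z) (n := 2) (by norm_num)
  have hc0 : c ≠ 0 := by
    intro h
    apply h0
    rw [← hc, h]
    simp
  have hdiv : AnalyticAt ℂ (fun w => q w / q z) z := hq.div analyticAt_const h0
  have hlog : AnalyticAt ℂ (fun w => Complex.log (q w / q z)) z := by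
    apply hdiv.clog
    rw [div_self h0]
    exact one_mem_slitPlane
  refine ⟨fun w => c * cexp (Complex.log (q w / q z) / 2), ?_, ?_, ?_⟩
  · exact analyticAt_const.mul ((hlog.div analyticAt_const two_ne_zero).cexp)
  · exact mul_ne_zero hc0 (Complex.exp_ne_zero _)
  · have h1 : ∀ᶠ w in 𝓝 z, q w ≠ 0 := hq.continuousAt.eventually_ne h0
    filter_upwards [h1] with w hw
    have h2 : q w / q z ≠ 0 := div_ne_zero hw h0
    have h3 : cexp (Complex.log (q w / q z) / 2) ^ 2 = q w / q z := by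
      rw [← Complex.exp_nat_mul]
      have h4 : ((2 : ℕ) : ℂ) * (Complex.log (q w / q z) / 2) = Complex.log (q w / q z) := by
        push_cast
        ring
      rw [h4, Complex.exp_log h2]
    rw [mul_pow, h3, hc]
    field_simp

/-- local Lipschitz bound in the first variable -/
private lemma SwapA_lip (tc zc : ℂ) : ∃ C : ℝ, 0 < C ∧
    ∀ᶠ p : (ℂ × ℂ) × (ℂ × ℂ) in 𝓝 ((tc, zc), (tc, zc)),
      ‖HH p.1.1 p.1.2 - HH p.2.1 p.2.2‖ ≤ C * ‖p.1 - p.2‖ := by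
  have h := HH_strict tc zc
  obtain ⟨K, s, hs, hK⟩ := h.exists_lipschitzOnWith
  refine ⟨K + 1, by positivity, ?_⟩
  have h2 : s ×ˢ s ∈ 𝓝 ((tc, zc), (tc, zc)) := prod_mem_nhds hs hs
  filter_upwards [h2] with p hp
  have h3 := hK.norm_sub_le hp.1 hp.2
  refine h3.trans ?_
  have := norm_nonneg (p.1 - p.2)
  nlinarith

/-- the function `τ` -/
private lemma SwapA_tau (tc zc : ℂ) (h0 : HH tc zc = 0) (h1 : Hz tc zc = 0)
    (h2 : deriv (Hz tc) zc ≠ 0) :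
    ∃ τ ψ : ℂ → ℂ, AnalyticAt ℂ τ zc ∧ τ zc = tc ∧ AnalyticAt ℂ ψ zc ∧ ψ zc = 0 ∧
      deriv ψ zc ≠ 0 ∧ (∀ᶠ v : ℂ × ℂ in 𝓝 (zc, tc), HH v.2 v.1 = 0 ↔ τ v.1 = v.2) ∧
      (∀ᶠ z in 𝓝 zc, HH (τ z) z = 0) ∧ ∀ᶠ z in 𝓝 zc, τ z = tc + ψ z ^ 2 := by
  have hfd : fderiv ℂ (fun p : ℂ × ℂ => HH p.2 p.1) (zc, tc) (0, 1) ≠ 0 := by
    rw [(SwapA_fd (zc, tc)).fderiv]
    simpa using h2
  obtain ⟨τ, hτ, hτ0, hτ1⟩ := SwapA_impl _ (zc, tc) (SwapA_cd (zc, tc)) hfd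
  simp only [h0] at hτ1 hτ hτ0
  have hcont : Tendsto (fun z => (z, τ z)) (𝓝 zc) (𝓝 (zc, tc)) := by
    rw [nhds_prod_eq]
    refine tendsto_id.prodMk ?_
    have := hτ.continuousAt
    rw [ContinuousAt, hτ0] at this
    exact this
  have hz : ∀ᶠ z in 𝓝 zc, HH (τ z) z = 0 := by
    filter_upwards [hcont.eventually hτ1] with z hz
    exact hz.2 rfl
  -- derivative of τ at zc
  have hfz : HasFDerivAt (fun p : ℂ × ℂ => HH p.2 p.1)
    ((Hz tc zc) • ContinuousLinearMap.fst ℂ ℂ ℂ +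
      (-(deriv (Hz tc) zc)) • ContinuousLinearMap.snd ℂ ℂ ℂ) (zc, τ zc) := by
    have := SwapA_fd (zc, tc)
    rw [hτ0]
    exact this
  have hdc : HasDerivAt (fun z => (z, τ z)) ((1 : ℂ), deriv τ zc) zc :=
    (hasDerivAt_id zc).prodMk hτ.differentiableAt.hasDerivAt
  have hd1 : HasDerivAt (fun z => HH (τ z) z) (-(deriv (Hz tc) zc) * deriv τ zc) zc := by
    have h3 := hfz.comp_hasDerivAt zc hdc
    have h4 : ((Hz tc zc) • ContinuousLinearMap.fst ℂ ℂ ℂ +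
      (-(deriv (Hz tc) zc)) • ContinuousLinearMap.snd ℂ ℂ ℂ) ((1 : ℂ), deriv τ zc) =
      -(deriv (Hz tc) zc) * deriv τ zc := by
      simp [h1]
    rw [h4] at h3
    exact h3
  have hd2 : HasDerivAt (fun z => HH (τ z) z) 0 zc := by
    have h3 : (fun z => HH (τ z) z) =ᶠ[𝓝 zc] fun _ => (0 : ℂ) := hz
    exact (hasDerivAt_const zc (0 : ℂ)).congr_of_eventuallyEq h3
  have hd3 : deriv τ zc = 0 := by
    have h3 := hd1.unique hd2
    rcases mul_eq_zero.1 h3 with h | h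
    · exact absurd (neg_eq_zero.1 h) h2
    · exact h
  -- order two
  obtain ⟨q, hq, hq1⟩ := SwapA_ord2 (fun z => τ z - tc) zc (hτ.sub analyticAt_const)
    (by simp [hτ0]) (by simp [hd3])
  have hAn : AnalyticAt ℂ (HH tc) zc := (HH_diff_z tc).analyticAt zc
  obtain ⟨h, hh, hh1⟩ := SwapA_ord2 (HH tc) zc hAn h0 h1
  have hhne : h zc ≠ 0 := by
    intro hh0
    apply h2
    have hord : ((3 : ℕ) : ℕ∞) ≤ analyticOrderAt (HH tc) zc := by
      rw [natCast_le_analyticOrderAt hAn]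
      have hh' : ((1 : ℕ) : ℕ∞) ≤ analyticOrderAt h zc := by
        rw [natCast_le_analyticOrderAt_iff_iteratedDeriv_eq_zero hh]
        intro i hi
        interval_cases i
        simpa using hh0
      rw [natCast_le_analyticOrderAt hh] at hh'
      obtain ⟨g, hg, hg1⟩ := hh'
      refine ⟨g, hg, ?_⟩
      filter_upwards [hg1, hh1] with w hw1 hw2
      rw [hw2, hw1]
      simp only [smul_eq_mul]
      ring
    rw [natCast_le_analyticOrderAt_iff_iteratedDeriv_eq_zero hAn] at hord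
    have := hord 2 (by norm_num)
    rw [SwapA_iter2] at this
    exact this
  have hqne : q zc ≠ 0 := by
    intro hq0
    obtain ⟨C, hC, hL⟩ := SwapA_lip tc zc
    have hc2 : Tendsto (fun z => ((τ z, z), (tc, z))) (𝓝 zc) (𝓝 ((tc, zc), (tc, zc))) := by
      have hct : ContinuousAt τ zc := hτ.continuousAt
      have : ContinuousAt (fun z => ((τ z, z), (tc, z))) zc := by fun_prop
      rw [ContinuousAt, hτ0] at this
      exact this
    have hev : ∀ᶠ z in 𝓝[≠] zc, ‖h z‖ ≤ C * ‖q z‖ := by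
      have h5 : ∀ᶠ z in 𝓝 zc, z ≠ zc → ‖h z‖ ≤ C * ‖q z‖ := by
        filter_upwards [hc2.eventually hL, hz, hq1, hh1] with z a1 a2 a3 a4 hne
        rw [a2, a4] at a1
        have a5 : ((τ z, z) : ℂ × ℂ) - (tc, z) = (τ z - tc, 0) := by
          ext <;> simp
        rw [a5, a3] at a1
        have a6 : ‖(((z - zc) ^ 2 * q z, 0) : ℂ × ℂ)‖ = ‖z - zc‖ ^ 2 * ‖q z‖ := by
          rw [Prod.norm_mk, norm_zero, norm_mul, norm_pow]
          exact max_eq_left (by positivity)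
        rw [a6, zero_sub, norm_neg, norm_mul, norm_pow] at a1
        have a7 : 0 < ‖z - zc‖ ^ 2 := by
          have : 0 < ‖z - zc‖ := norm_pos_iff.2 (sub_ne_zero.2 hne)
          positivity
        have a8 : ‖z - zc‖ ^ 2 * ‖h z‖ ≤ ‖z - zc‖ ^ 2 * (C * ‖q z‖) := by
          calc _ ≤ _ := a1
            _ = _ := by ring
        exact le_of_mul_le_mul_left a8 a7
      exact eventually_nhdsWithin_iff.2 h5
    have hl1 : Tendsto (fun z => ‖h z‖) (𝓝[≠] zc) (𝓝 ‖h zc‖) :=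
      (hh.continuousAt.norm.tendsto).mono_left nhdsWithin_le_nhds
    have hl2 : Tendsto (fun z => C * ‖q z‖) (𝓝[≠] zc) (𝓝 (C * ‖q zc‖)) :=
      ((hq.continuousAt.norm.tendsto).const_mul C).mono_left nhdsWithin_le_nhds
    have h6 := le_of_tendsto_of_tendsto hl1 hl2 hev
    rw [hq0, norm_zero, mul_zero] at h6
    exact hhne (norm_le_zero_iff.1 h6)
  obtain ⟨r, hr, hr0, hr1⟩ := SwapA_sqrt q zc hq hqne
  refine ⟨τ, fun z => (z - zc) * r z, hτ, hτ0, ?_, by simp, ?_, hτ1, hz, ?_⟩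
  · exact (analyticAt_id.sub analyticAt_const).mul hr
  · have h7 : HasDerivAt (fun z => (z - zc) * r z) (1 * r zc + (zc - zc) * deriv r zc) zc :=
      ((hasDerivAt_id zc).sub_const zc).mul hr.differentiableAt.hasDerivAt
    rw [h7.deriv]
    simpa using hr0
  · filter_upwards [hq1, hr1] with z b1 b2
    rw [mul_pow, b2, ← b1]
    ring

/-- local inverse -/
private lemma SwapA_inv (ψ : ℂ → ℂ) (zc : ℂ) (hψ : AnalyticAt ℂ ψ zc) (h0 : ψ zc = 0)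
    (h1 : deriv ψ zc ≠ 0) : ∃ χ : ℂ → ℂ, AnalyticAt ℂ χ 0 ∧ χ 0 = zc ∧
      ∀ᶠ v : ℂ × ℂ in 𝓝 ((0 : ℂ), zc), ψ v.2 - v.1 = 0 ↔ χ v.1 = v.2 := by
  have han : AnalyticAt ℂ (fun v : ℂ × ℂ => ψ v.2 - v.1) ((0 : ℂ), zc) := by
    have h2 : AnalyticAt ℂ (fun v : ℂ × ℂ => ψ v.2) ((0 : ℂ), zc) :=
      AnalyticAt.comp (g := ψ) (f := fun v : ℂ × ℂ => v.2) (x := ((0 : ℂ), zc)) hψ analyticAt_snd
    exact h2.sub analyticAt_fst
  have hcd : ContDiffAt ℂ 1 (fun v : ℂ × ℂ => ψ v.2 - v.1) ((0 : ℂ), zc) := han.contDiffAt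
  have hfd : HasFDerivAt (fun v : ℂ × ℂ => ψ v.2 - v.1)
      ((deriv ψ zc) • ContinuousLinearMap.snd ℂ ℂ ℂ - ContinuousLinearMap.fst ℂ ℂ ℂ)
      ((0 : ℂ), zc) := by
    have h2 : HasFDerivAt (fun v : ℂ × ℂ => ψ v.2) ((deriv ψ zc) • ContinuousLinearMap.snd ℂ ℂ ℂ)
        ((0 : ℂ), zc) :=
      HasDerivAt.comp_hasFDerivAt (h₂ := ψ) ((0 : ℂ), zc) hψ.differentiableAt.hasDerivAt
        hasFDerivAt_snd
    exact h2.sub hasFDerivAt_fst
  have hne : fderiv ℂ (fun v : ℂ × ℂ => ψ v.2 - v.1) ((0 : ℂ), zc) (0, 1) ≠ 0 := by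
    rw [hfd.fderiv]
    simpa using h1
  obtain ⟨χ, c1, c2, c3⟩ := SwapA_impl _ _ hcd hne
  refine ⟨χ, c1, c2, ?_⟩
  filter_upwards [c3] with v hv
  simp only [h0, sub_zero] at hv
  exact hv


theorem dbl_param (tc zc : ℂ) (h0 : HH tc zc = 0) (h1 : Hz tc zc = 0) (h2 : deriv (Hz tc) zc ≠ 0) :
    ∃ (ρ ε : ℝ) (χ : ℂ → ℂ), 0 < ρ ∧ 0 < ε ∧ DifferentiableOn ℂ χ (ball 0 ρ) ∧ χ 0 = zc ∧
      (∀ s ∈ ball (0 : ℂ) ρ, HH (tc + s ^ 2) (χ s) = 0 ∧ (s ≠ 0 → Hz (tc + s ^ 2) (χ s) ≠ 0)) ∧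
      ∀ t z : ℂ, ‖t - tc‖ < ε → ‖z - zc‖ < ε → HH t z = 0 → ∃ s ∈ ball (0 : ℂ) ρ, t = tc + s ^ 2 ∧ z = χ s := by
  obtain ⟨τ, ψ, hτ, hτ0, hψ, hψ0, hψ1, hA, hZ, hB⟩ := SwapA_tau tc zc h0 h1 h2
  obtain ⟨χ, hχ, hχ0, hC⟩ := SwapA_inv ψ zc hψ hψ0 hψ1
  -- the z-derivative does not vanish outside of zc
  have hD : ∀ᶠ z in 𝓝 zc, z ≠ zc → Hz (τ z) z ≠ 0 := by
    have e1 : ∀ᶠ z in 𝓝 zc, deriv ψ z ≠ 0 := hψ.deriv.continuousAt.eventually_ne hψ1
    have e2 : ∀ᶠ z in 𝓝 zc, AnalyticAt ℂ ψ z := hψ.eventually_analyticAt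
    have e3 : ∀ᶠ z in 𝓝 zc, AnalyticAt ℂ τ z := hτ.eventually_analyticAt
    have e4 : ∀ᶠ z in 𝓝 zc, ∀ᶠ w in 𝓝 z, τ w = tc + ψ w ^ 2 := hB.eventually_nhds
    have e5 : ∀ᶠ z in 𝓝 zc, ∀ᶠ w in 𝓝 z, HH (τ w) w = 0 := hZ.eventually_nhds
    have e6 : ∀ᶠ z in 𝓝 zc, z ≠ zc → ψ z ≠ 0 := by
      rcases hψ.eventually_eq_zero_or_eventually_ne_zero with h | h
      · exfalso
        apply hψ1
        have : ψ =ᶠ[𝓝 zc] fun _ => (0 : ℂ) := h
        rw [this.deriv_eq]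
        simp
      · exact eventually_nhdsWithin_iff.1 h
    have e7 : ∀ᶠ z in 𝓝 zc, deriv (Hz (τ z)) z ≠ 0 := by
      have hcc : ContinuousAt (fun z => deriv (Hz (τ z)) z) zc := by
        have c1 : ContinuousAt (fun z => ((τ z, z) : ℂ × ℂ)) zc :=
          hτ.continuousAt.prodMk continuousAt_id
        have c2 := (SwapA_Hzz_cont.tendsto ((τ zc, zc) : ℂ × ℂ)).comp c1.tendsto
        exact c2
      apply hcc.eventually_ne
      rw [hτ0]
      exact h2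
    filter_upwards [e1, e2, e3, e4, e5, e6, e7] with z a1 a2 a3 a4 a5 a6 a7 hne hHz
    have hdc : HasDerivAt (fun z => (z, τ z)) ((1 : ℂ), deriv τ z) z :=
      (hasDerivAt_id z).prodMk a3.differentiableAt.hasDerivAt
    have h3 := (SwapA_fd (z, τ z)).comp_hasDerivAt z hdc
    have h4 : ((Hz (τ z) z) • ContinuousLinearMap.fst ℂ ℂ ℂ +
      (-(deriv (Hz (τ z)) z)) • ContinuousLinearMap.snd ℂ ℂ ℂ) ((1 : ℂ), deriv τ z) =
      -(deriv (Hz (τ z)) z) * deriv τ z := by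
      simp [hHz]
    simp only at h3
    rw [h4] at h3
    have h5 : HasDerivAt (fun z => HH (τ z) z) 0 z := by
      have h6 : (fun z => HH (τ z) z) =ᶠ[𝓝 z] fun _ => (0 : ℂ) := a5
      exact (hasDerivAt_const z (0 : ℂ)).congr_of_eventuallyEq h6
    have h7 := h3.unique h5
    have h8 : deriv τ z = 0 := by
      rcases mul_eq_zero.1 h7 with h | h
      · exact absurd (neg_eq_zero.1 h) a7
      · exact h
    have h9 : HasDerivAt (fun w => tc + ψ w ^ 2) (((2 : ℕ) : ℂ) * ψ z ^ (2 - 1) * deriv ψ z) z :=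
      (a2.differentiableAt.hasDerivAt.pow 2).const_add tc
    have h10 : τ =ᶠ[𝓝 z] fun w => tc + ψ w ^ 2 := a4
    rw [h10.deriv_eq, h9.deriv] at h8
    have h11 : ψ z ≠ 0 := a6 hne
    simp only [Nat.cast_ofNat, Nat.add_one_sub_one, pow_one] at h8
    exact (mul_ne_zero (mul_ne_zero two_ne_zero h11) a1) h8
  -- choose ρ
  have hχc : Tendsto χ (𝓝 0) (𝓝 zc) := by
    have := hχ.continuousAt
    rw [ContinuousAt, hχ0] at this
    exact this
  have hχp : Tendsto (fun s => (s, χ s)) (𝓝 0) (𝓝 ((0 : ℂ), zc)) := by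
    rw [nhds_prod_eq]
    exact tendsto_id.prodMk hχc
  have hev : ∀ᶠ s in 𝓝 (0 : ℂ), DifferentiableAt ℂ χ s ∧ HH (τ (χ s)) (χ s) = 0 ∧
      τ (χ s) = tc + ψ (χ s) ^ 2 ∧ ψ (χ s) = s ∧ (χ s ≠ zc → Hz (τ (χ s)) (χ s) ≠ 0) := by
    filter_upwards [hχ.eventually_analyticAt, hχc.eventually hZ, hχc.eventually hB,
      hχp.eventually hC, hχc.eventually hD] with s a1 a2 a3 a4 a5
    exact ⟨a1.differentiableAt, a2, a3, sub_eq_zero.1 (a4.2 rfl), a5⟩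
  obtain ⟨ρ, hρ, hρ1⟩ := Metric.eventually_nhds_iff_ball.1 hev
  -- choose ε
  have hp1 : Tendsto (fun v : ℂ × ℂ => (v.2, v.1)) (𝓝 (tc, zc)) (𝓝 (zc, tc)) := by
    have : Continuous (fun v : ℂ × ℂ => ((v.2, v.1) : ℂ × ℂ)) := by fun_prop
    exact this.tendsto (tc, zc)
  have hp2 : Tendsto (fun v : ℂ × ℂ => v.2) (𝓝 (tc, zc)) (𝓝 zc) := continuous_snd.tendsto (tc, zc)
  have hψc : Tendsto ψ (𝓝 zc) (𝓝 0) := by
    have := hψ.continuousAt
    rw [ContinuousAt, hψ0] at this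
    exact this
  have hψp : Tendsto (fun z => (ψ z, z)) (𝓝 zc) (𝓝 ((0 : ℂ), zc)) := by
    rw [nhds_prod_eq]
    exact hψc.prodMk tendsto_id
  have hev2 : ∀ᶠ v : ℂ × ℂ in 𝓝 (tc, zc), HH v.1 v.2 = 0 →
      ∃ s ∈ ball (0 : ℂ) ρ, v.1 = tc + s ^ 2 ∧ v.2 = χ s := by
    filter_upwards [hp1.eventually hA, hp2.eventually hB, hp2.eventually (hψp.eventually hC),
      hp2.eventually (hψc.eventually (Metric.ball_mem_nhds (0 : ℂ) hρ))] with v a1 a2 a3 a4 hv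
    have b1 : τ v.2 = v.1 := a1.1 hv
    have b2 : χ (ψ v.2) = v.2 := a3.1 (sub_self _)
    exact ⟨ψ v.2, a4, by rw [← b1, a2], b2.symm⟩
  obtain ⟨ε, hε, hε1⟩ := Metric.eventually_nhds_iff_ball.1 hev2
  refine ⟨ρ, ε, χ, hρ, hε, ?_, hχ0, ?_, ?_⟩
  · intro s hs
    exact (hρ1 s hs).1.differentiableWithinAt
  · intro s hs
    obtain ⟨a1, a2, a3, a4, a5⟩ := hρ1 s hs
    rw [a4] at a3
    rw [a3] at a2 a5
    refine ⟨a2, fun hne => a5 ?_⟩
    intro h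
    rw [h, hψ0] at a4
    exact hne a4.symm
  · intro t z ht hz hH
    refine hε1 (t, z) ?_ hH
    rw [Metric.mem_ball, dist_eq_norm, Prod.norm_def]
    exact max_lt ht hz

end Pool.Agent.Lib.MP_ec260d_ntC
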