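import Mathlib
import Pool.Agent.Lib.MP_ec260d_ntC.Defs
import Pool.Agent.Lib.MP_ec260d_ntC.HB
import Pool.Agent.Lib.MP_ec260d_ntC.GermH
import Pool.Agent.Lib.MP_ec260d_ntC.RelH
import Pool.Agent.Lib.MP_ec260d_ntC.SwapA

/-!
# JOB SwapB: a relation near a simple double zero (about 300 lines)

`others`: the set `Z = {y ∈ K : HH tc y = 0}` is finite (`HH_zeros_finite`), every `y ∈ Z` is simple: `germ_exists` gives `g_y` with `HH s (g_y s) = 0`, `Hz s (g_y s) ≠ 0` (`smp_near`), `g_y` differentiable on `ball tc δ_y`, and an open neighbourhood of `(tc, y)` in which every zero `(t, z)` has `z = g_y t`.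
By compactness (`K` minus small balls around the points of `Z` has no zero of `HH tc`; also in a small thickening of it, and for `t` near `tc`): there is `δ > 0` such that every zero `(t, z)` with `‖t - tc‖ < δ` and `‖z - y'‖ < δ` for some `y' ∈ K` is in one of these neighbourhoods.
(Proof by contradiction with sequences: `t_n → tc`, `z_n`, `y'_n ∈ K`, `‖z_n - y'_n‖ → 0`; a subsequence of `z_n` converges to `y ∈ K`, `HH tc y = 0`, so `y ∈ Z` and `(t_n, z_n)` is eventually in the neighbourhood of `(tc, y)`.)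
`swap`: `ρ, ε1, χ` from `dbl_param`.  Put `ε = ε1` and, given `K`, let `δ` be from `others`, `δ ≤ ε1`.  Let `0 < ‖t - tc‖ < δ`, `Rel P t z`.  By `rel_eval`-type facts (`rel_near`): every `z i` is a zero of `HH t`.  For `i ≠ i0`: `g i` from `others` with `g i t = z i`; for `i0`: `z i0 = χ s0`, `t = tc + s0²`, `s0 ≠ 0`; `z' = χ s'`, `t = tc + s'²`, so `s' = ± s0` and `s' = -s0` since `z' ≠ z i0`.
`F s = P(tc + s², (g i (tc + s²))_{i ≠ i0}, χ s)` is differentiable on `ball 0 r`, `r = min ρ (sqrt δ)` (`‖s²‖ < δ`), and `‖s0‖² = ‖t - tc‖ < δ`, so `±s0 ∈ ball 0 r` (`s0 ∈ ball 0 ρ`).  Near `s0` the map `s ↦ tc + s²` has a continuous local inverse `κ` (`κ t = s0`; `s0 ≠ 0`): `rel_of_germ` at `t` with the germs `g i` (`i ≠ i0`) and `χ ∘ κ` (all zeros are simple)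
gives `P(b, g(b), χ(κ b)) = 0` for `b` near `t`, i.e. `F s = 0` for `s` near `s0`.  Identity theorem on the ball: `F = 0` on `ball 0 r`.  With the local inverse `κ'` near `-s0` (`κ' t = -s0`, analytic at `t`): the germs `g i`, `χ ∘ κ'` show `Rel P t (update z i0 z')`.
-/

namespace Pool.Agent.Lib.MP_ec260d_ntC

open Complex Set Filter Topology Metric MeasureTheory

/-- the statement of `others` for a single set -/
private def SwapBa_P (tc : ℂ) (S : Set ℂ) : Prop :=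
  ∃ δ : ℝ, 0 < δ ∧ ∀ t z : ℂ, ‖t - tc‖ < δ → (∃ y ∈ S, ‖z - y‖ < δ) → HH t z = 0 →
      ∃ g : ℂ → ℂ, DifferentiableOn ℂ g (ball tc δ) ∧ g t = z ∧
        ∀ s ∈ ball tc δ, HH s (g s) = 0 ∧ Hz s (g s) ≠ 0

private theorem SwapBa_shrink {tc : ℂ} {S S' : Set ℂ} {δ δ' : ℝ} (hδ' : δ' ≤ δ) (hS : S' ⊆ S)
    (h : ∀ t z : ℂ, ‖t - tc‖ < δ → (∃ y ∈ S, ‖z - y‖ < δ) → HH t z = 0 →
      ∃ g : ℂ → ℂ, DifferentiableOn ℂ g (ball tc δ) ∧ g t = z ∧
        ∀ s ∈ ball tc δ, HH s (g s) = 0 ∧ Hz s (g s) ≠ 0) :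
    ∀ t z : ℂ, ‖t - tc‖ < δ' → (∃ y ∈ S', ‖z - y‖ < δ') → HH t z = 0 →
      ∃ g : ℂ → ℂ, DifferentiableOn ℂ g (ball tc δ') ∧ g t = z ∧
        ∀ s ∈ ball tc δ', HH s (g s) = 0 ∧ Hz s (g s) ≠ 0 := by
  intro t z ht hz hH
  obtain ⟨y, hy, hzy⟩ := hz
  obtain ⟨g, hg, hgt, hgs⟩ := h t z (ht.trans_le hδ') ⟨y, hS hy, hzy.trans_le hδ'⟩ hH
  exact ⟨g, hg.mono (ball_subset_ball hδ'), hgt, fun s hs => hgs s (ball_subset_ball hδ' hs)⟩

private theorem SwapBa_loc (tc y : ℂ) (hs : HH tc y = 0 → Hz tc y ≠ 0) :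
    ∃ δ : ℝ, 0 < δ ∧ ∀ t z : ℂ, ‖t - tc‖ < δ → ‖z - y‖ < δ → HH t z = 0 →
      ∃ g : ℂ → ℂ, DifferentiableOn ℂ g (ball tc δ) ∧ g t = z ∧
        ∀ s ∈ ball tc δ, HH s (g s) = 0 ∧ Hz s (g s) ≠ 0 := by
  by_cases h0 : HH tc y = 0
  · obtain ⟨g, hga, hgt, hgz, hgu⟩ := germ_exists tc y ⟨h0, hs h0⟩
    have hsm : ∀ᶠ s in 𝓝 tc, Smp s (g s) :=
      smp_near g tc hga.continuousAt (by rw [hgt]; exact ⟨h0, hs h0⟩) hgz
    have han : ∀ᶠ s in 𝓝 tc, AnalyticAt ℂ g s := hga.eventually_analyticAt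
    obtain ⟨d1, hd1, h1⟩ := Metric.eventually_nhds_iff.1 (hsm.and han)
    obtain ⟨d2, hd2, h2⟩ := Metric.eventually_nhds_iff.1 hgu
    refine ⟨min d1 d2, lt_min hd1 hd2, fun t z ht hz hH => ⟨g, ?_, ?_, ?_⟩⟩
    · intro s hs
      exact (h1 ((mem_ball.1 hs).trans_le (min_le_left _ _))).2.differentiableAt.differentiableWithinAt
    · have h3 : dist ((t, z) : ℂ × ℂ) (tc, y) < d2 := by
        rw [Prod.dist_eq, max_lt_iff, dist_eq_norm, dist_eq_norm]
        exact ⟨ht.trans_le (min_le_right _ _), hz.trans_le (min_le_right _ _)⟩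
      exact (h2 h3 hH).symm
    · intro s hs
      exact (h1 ((mem_ball.1 hs).trans_le (min_le_left _ _))).1
  · have hc : ∀ᶠ p : ℂ × ℂ in 𝓝 (tc, y), HH p.1 p.2 ≠ 0 :=
      HH_cont.continuousAt.eventually_ne h0
    obtain ⟨d, hd, h1⟩ := Metric.eventually_nhds_iff.1 hc
    refine ⟨d, hd, fun t z ht hz hH => ?_⟩
    have h3 : dist ((t, z) : ℂ × ℂ) (tc, y) < d := by
      rw [Prod.dist_eq, max_lt_iff, dist_eq_norm, dist_eq_norm]
      exact ⟨ht, hz⟩
    exact absurd hH (h1 h3)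

theorem others (tc : ℂ) (K : Set ℂ) (hK : IsCompact K) (hs : ∀ z ∈ K, HH tc z = 0 → Hz tc z ≠ 0) :
    ∃ δ : ℝ, 0 < δ ∧ ∀ t z : ℂ, ‖t - tc‖ < δ → (∃ y ∈ K, ‖z - y‖ < δ) → HH t z = 0 →
      ∃ g : ℂ → ℂ, DifferentiableOn ℂ g (ball tc δ) ∧ g t = z ∧
        ∀ s ∈ ball tc δ, HH s (g s) = 0 ∧ Hz s (g s) ≠ 0 := by
  refine hK.induction_on (p := SwapBa_P tc) ?_ ?_ ?_ ?_
  · refine ⟨1, one_pos, fun t z _ hz _ => ?_⟩
    obtain ⟨y, hy, _⟩ := hz
    exact absurd hy (Set.notMem_empty y)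
  · rintro S S' hSS' ⟨δ, hδ, h⟩
    exact ⟨δ, hδ, SwapBa_shrink le_rfl hSS' h⟩
  · rintro S S' ⟨δ, hδ, h⟩ ⟨δ', hδ', h'⟩
    refine ⟨min δ δ', lt_min hδ hδ', fun t z ht hz hH => ?_⟩
    obtain ⟨y, hy, hzy⟩ := hz
    rcases hy with hy | hy
    · exact SwapBa_shrink (min_le_left _ _) (Subset.refl S) h t z ht ⟨y, hy, hzy⟩ hH
    · exact SwapBa_shrink (min_le_right _ _) (Subset.refl S') h' t z ht ⟨y, hy, hzy⟩ hH
  · intro y hy
    obtain ⟨δ, hδ, h⟩ := SwapBa_loc tc y (hs y hy)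
    refine ⟨ball y (δ / 2), mem_nhdsWithin_of_mem_nhds (ball_mem_nhds y (half_pos hδ)), δ / 2,
      half_pos hδ, fun t z ht hz hH => ?_⟩
    obtain ⟨y', hy', hzy'⟩ := hz
    have h1 : ‖z - y‖ < δ := by
      have h2 : ‖y' - y‖ < δ / 2 := by
        rw [← dist_eq_norm]
        exact mem_ball.1 hy'
      have h3 : ‖z - y‖ ≤ ‖z - y'‖ + ‖y' - y‖ := norm_sub_le_norm_sub_add_norm_sub z y' y
      linarith
    have h4 : δ / 2 ≤ δ := by linarith
    obtain ⟨g, hg, hgt, hgs⟩ := h t z (ht.trans_le h4) h1 hH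
    exact ⟨g, hg.mono (ball_subset_ball h4), hgt, fun s hs => hgs s (ball_subset_ball h4 hs)⟩

private theorem SwapBb_analytic {σ : Type*} (f : σ → ℂ → ℂ) (b : ℂ) (hf : ∀ o, AnalyticAt ℂ (f o) b)
    (P : MvPolynomial σ ℂ) : AnalyticAt ℂ (fun b => MvPolynomial.eval (fun o => f o b) P) b := by
  induction P using MvPolynomial.induction_on with
  | C a =>
    simp only [MvPolynomial.eval_C]
    exact analyticAt_const
  | add p q hp hq =>
    simp only [map_add]
    exact hp.add hq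
  | mul_X p i hp =>
    simp only [map_mul, MvPolynomial.eval_X]
    exact hp.mul (hf i)

private theorem SwapBb_root (tc t s0 : ℂ) (hs0 : s0 ≠ 0) (ht : t = tc + s0 ^ 2) :
    ∃ κ : ℂ → ℂ, AnalyticAt ℂ κ t ∧ κ t = s0 ∧ ∀ᶠ b in 𝓝 t, tc + κ b ^ 2 = b := by
  have h1 : (t - tc) / s0 ^ 2 = 1 := by
    rw [ht, add_sub_cancel_left]
    exact div_self (pow_ne_zero 2 hs0)
  refine ⟨fun b => s0 * ((b - tc) / s0 ^ 2) ^ (((2 : ℕ) : ℂ)⁻¹), ?_, ?_, ?_⟩
  · apply analyticAt_const.mul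
    apply AnalyticAt.cpow
    · exact (analyticAt_id.sub analyticAt_const).div_const
    · exact analyticAt_const
    · rw [h1]
      exact one_mem_slitPlane
  · show s0 * ((t - tc) / s0 ^ 2) ^ (((2 : ℕ) : ℂ)⁻¹) = s0
    rw [h1, one_cpow, mul_one]
  · refine Eventually.of_forall (fun b => ?_)
    show tc + (s0 * ((b - tc) / s0 ^ 2) ^ (((2 : ℕ) : ℂ)⁻¹)) ^ 2 = b
    rw [mul_pow, Complex.cpow_nat_inv_pow _ (by norm_num)]
    field_simp
    ring

theorem swap (tc zc : ℂ) (h0 : HH tc zc = 0) (h1 : Hz tc zc = 0) (h2 : deriv (Hz tc) zc ≠ 0)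
    (K : Set ℂ) (hK : IsCompact K) (hs : ∀ z ∈ K, HH tc z = 0 → Hz tc z ≠ 0) :
    ∃ δ : ℝ, 0 < δ ∧ ∀ {n : ℕ} (P : MvPolynomial (Option (Fin n)) ℂ) (t : ℂ) (z : Fin n → ℂ) (i0 : Fin n)
      (z' : ℂ), t ≠ tc → ‖t - tc‖ < δ → Rel P t z → (∀ i, i ≠ i0 → ∃ y ∈ K, ‖z i - y‖ < δ) →
        ‖z i0 - zc‖ < δ → ‖z' - zc‖ < δ → HH t z' = 0 → z' ≠ z i0 →
          Rel P t (Function.update z i0 z') := by
  obtain ⟨ρ, ε, χ, hρ, hε, hχd, -, hχ1, hχ2⟩ := dbl_param tc zc h0 h1 h2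
  obtain ⟨δ1, hδ1, hoth⟩ := others tc K hK hs
  refine ⟨min δ1 ε, lt_min hδ1 hε, ?_⟩
  intro n P t z i0 z' htc htd hrel hzK hz0 hz' hHz' hne
  have htd1 : ‖t - tc‖ < δ1 := htd.trans_le (min_le_left _ _)
  have htd2 : ‖t - tc‖ < ε := htd.trans_le (min_le_right _ _)
  have hzero : ∀ i, HH t (z i) = 0 := by
    obtain ⟨g, hg, -⟩ := hrel
    intro i
    have h3 := (hg i).2.2.self_of_nhds
    rwa [(hg i).2.1] at h3
  -- the germs for the other indices
  have hex : ∀ i, ∃ g : ℂ → ℂ, i ≠ i0 → DifferentiableOn ℂ g (ball tc δ1) ∧ g t = z i ∧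
      ∀ s ∈ ball tc δ1, HH s (g s) = 0 ∧ Hz s (g s) ≠ 0 := by
    intro i
    by_cases hi : i = i0
    · exact ⟨fun _ => 0, fun h => absurd hi h⟩
    · obtain ⟨y, hy, hyd⟩ := hzK i hi
      obtain ⟨g, hg1, hg2, hg3⟩ := hoth t (z i) htd1 ⟨y, hy, hyd.trans_le (min_le_left _ _)⟩ (hzero i)
      exact ⟨g, fun _ => ⟨hg1, hg2, hg3⟩⟩
  choose g hg using hex
  -- the parameters
  obtain ⟨s0, hs0, hts0, hzs0⟩ := hχ2 t (z i0) htd2 (hz0.trans_le (min_le_right _ _)) (hzero i0)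
  obtain ⟨s1, hs1, hts1, hzs1⟩ := hχ2 t z' htd2 (hz'.trans_le (min_le_right _ _)) hHz'
  have hs0ne : s0 ≠ 0 := by
    rintro rfl
    apply htc
    rw [hts0]
    ring
  have hs1eq : s1 = -s0 := by
    have h3 : s1 ^ 2 = s0 ^ 2 := by
      have : tc + s1 ^ 2 = tc + s0 ^ 2 := by rw [← hts1, ← hts0]
      exact add_left_cancel this
    rcases sq_eq_sq_iff_eq_or_eq_neg.1 h3 with h | h
    · exact absurd (by rw [hzs1, hzs0, h]) hne
    · exact h
  have htball : t ∈ ball tc δ1 := by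
    rw [mem_ball, dist_eq_norm]
    exact htd1
  -- the common ball
  set r : ℝ := min ρ (Real.sqrt δ1) with hr
  have hrpos : 0 < r := lt_min hρ (Real.sqrt_pos.2 hδ1)
  have hs0r : ‖s0‖ < r := by
    rw [hr, lt_min_iff]
    constructor
    · rwa [mem_ball, dist_zero_right] at hs0
    · rw [Real.lt_sqrt (norm_nonneg _), ← norm_pow]
      have h3 : s0 ^ 2 = t - tc := by rw [hts0]; ring
      rw [h3]
      exact htd1
  have hmemr : ∀ s ∈ ball (0 : ℂ) r, s ∈ ball (0 : ℂ) ρ ∧ tc + s ^ 2 ∈ ball tc δ1 := by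
    intro s hs'
    rw [mem_ball, dist_zero_right] at hs'
    refine ⟨?_, ?_⟩
    · rw [mem_ball, dist_zero_right]
      exact hs'.trans_le (min_le_left _ _)
    · rw [mem_ball, dist_eq_norm, add_sub_cancel_left, norm_pow]
      have h3 : ‖s‖ < Real.sqrt δ1 := hs'.trans_le (min_le_right _ _)
      rwa [Real.lt_sqrt (norm_nonneg _)] at h3
  -- the analytic function
  set G : Option (Fin n) → ℂ → ℂ := fun o s =>
    o.elim (tc + s ^ 2) (fun i => if i = i0 then χ s else g i (tc + s ^ 2)) with hG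
  have hGan : ∀ s ∈ ball (0 : ℂ) r, ∀ o, AnalyticAt ℂ (G o) s := by
    intro s hs' o
    obtain ⟨h3, h4⟩ := hmemr s hs'
    rcases o with _ | i
    · show AnalyticAt ℂ (fun s : ℂ => tc + s ^ 2) s
      exact analyticAt_const.add (analyticAt_id.pow 2)
    · by_cases hi : i = i0
      · have h5 : G (some i) = χ := by
          funext s'
          simp [hG, hi]
        rw [h5]
        exact hχd.analyticAt (isOpen_ball.mem_nhds h3)
      · have h5 : G (some i) = fun s => g i (tc + s ^ 2) := by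
          funext s'
          simp [hG, hi]
        rw [h5]
        have h6 : AnalyticAt ℂ (g i) (tc + s ^ 2) :=
          (hg i hi).1.analyticAt (isOpen_ball.mem_nhds h4)
        have h7 : AnalyticAt ℂ (fun s : ℂ => tc + s ^ 2) s :=
          analyticAt_const.add (analyticAt_id.pow 2)
        exact AnalyticAt.comp h6 h7
  have hFan : AnalyticOnNhd ℂ (fun s => MvPolynomial.eval (fun o => G o s) P) (ball (0 : ℂ) r) :=
    fun s hs' => SwapBb_analytic G s (hGan s hs') P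
  -- the local inverse
  obtain ⟨κ, hκan, hκt, hκ⟩ := SwapBb_root tc t s0 hs0ne hts0
  have hκc : Tendsto κ (𝓝 t) (𝓝 s0) := by
    have := hκan.continuousAt
    rwa [ContinuousAt, hκt] at this
  have hs0ball : s0 ∈ ball (0 : ℂ) r := by rwa [mem_ball, dist_zero_right]
  have hs0neg : -s0 ∈ ball (0 : ℂ) r := by rwa [mem_ball, dist_zero_right, norm_neg]
  have hκr : ∀ᶠ b in 𝓝 t, κ b ∈ ball (0 : ℂ) r := hκc (isOpen_ball.mem_nhds hs0ball)
  have hHzs : ∀ i, Smp t (z i) := by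
    intro i
    refine ⟨hzero i, ?_⟩
    by_cases hi : i = i0
    · rw [hi, hzs0]
      have h3 := (hχ1 s0 hs0).2 hs0ne
      rwa [← hts0] at h3
    · have h3 := ((hg i hi).2.2 t htball).2
      rwa [(hg i hi).2.1] at h3
  have hgerm : ∀ᶠ b in 𝓝 t, MvPolynomial.eval (fun o : Option (Fin n) => o.elim b
      (fun i => if i = i0 then χ (κ b) else g i b)) P = 0 := by
    refine rel_of_germ P t z hHzs hrel (fun i b => if i = i0 then χ (κ b) else g i b) ?_
    intro i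
    by_cases hi : i = i0
    · simp only [hi, if_true]
      refine ⟨?_, ?_, ?_⟩
      · have h3 : ContinuousAt χ (κ t) := by
          rw [hκt]
          exact (hχd.analyticAt (isOpen_ball.mem_nhds hs0)).continuousAt
        exact ContinuousAt.comp (g := χ) (f := κ) (x := t) h3 hκan.continuousAt
      · rw [hκt, hzs0]
      · filter_upwards [hκr, hκ] with b hb hb2
        have h3 := (hχ1 (κ b) (hmemr _ hb).1).1
        rwa [hb2] at h3
    · simp only [hi, if_false]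
      refine ⟨((hg i hi).1.analyticAt (isOpen_ball.mem_nhds htball)).continuousAt, (hg i hi).2.1, ?_⟩
      filter_upwards [isOpen_ball.mem_nhds htball] with b hb
      exact ((hg i hi).2.2 b hb).1
  have hFκ : ∀ᶠ b in 𝓝 t, MvPolynomial.eval (fun o => G o (κ b)) P = 0 := by
    filter_upwards [hgerm, hκ] with b hb hb2
    have h3 : (fun o : Option (Fin n) => G o (κ b)) = fun o : Option (Fin n) => o.elim b
        (fun i => if i = i0 then χ (κ b) else g i b) := by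
      funext o
      rcases o with _ | i
      · exact hb2
      · simp only [hG, Option.elim]
        rw [hb2]
    rw [h3]
    exact hb
  have hfreq : ∃ᶠ s in 𝓝[≠] s0, MvPolynomial.eval (fun o => G o s) P = 0 := by
    have h3 : Tendsto κ (𝓝[≠] t) (𝓝[≠] s0) := by
      rw [tendsto_nhdsWithin_iff]
      refine ⟨hκc.mono_left nhdsWithin_le_nhds, ?_⟩
      filter_upwards [self_mem_nhdsWithin, hκ.filter_mono nhdsWithin_le_nhds] with b hb hb2
      intro hb3
      apply hb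
      have hb4 : κ b = s0 := hb3
      show b = t
      rw [← hb2, hb4, ← hts0]
    have h4 : ∀ᶠ b in 𝓝[≠] t, MvPolynomial.eval (fun o => G o (κ b)) P = 0 :=
      hFκ.filter_mono nhdsWithin_le_nhds
    exact h3.frequently h4.frequently
  have hF0 : EqOn (fun s => MvPolynomial.eval (fun o => G o s) P) 0 (ball (0 : ℂ) r) :=
    hFan.eqOn_zero_of_preconnected_of_frequently_eq_zero (convex_ball _ _).isPreconnected hs0ball hfreq
  -- the new germs
  refine ⟨fun i b => if i = i0 then χ (-κ b) else g i b, ?_, ?_⟩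
  · intro i
    by_cases hi : i = i0
    · simp only [hi, if_true, Function.update_self]
      refine ⟨?_, ?_, ?_⟩
      · have h3 : AnalyticAt ℂ χ (-κ t) := by
          rw [hκt]
          exact hχd.analyticAt (isOpen_ball.mem_nhds (hmemr _ hs0neg).1)
        exact AnalyticAt.comp (g := χ) (f := fun b => -κ b) (x := t) h3 hκan.neg
      · rw [hκt, ← hs1eq, ← hzs1]
      · filter_upwards [hκr, hκ] with b hb hb2
        have hb3 : -κ b ∈ ball (0 : ℂ) r := by
          rw [mem_ball, dist_zero_right] at hb ⊢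
          rwa [norm_neg]
        have h3 := (hχ1 (-κ b) (hmemr _ hb3).1).1
        rwa [neg_sq, hb2] at h3
    · simp only [hi, if_false]
      rw [Function.update_of_ne hi]
      refine ⟨(hg i hi).1.analyticAt (isOpen_ball.mem_nhds htball), (hg i hi).2.1, ?_⟩
      filter_upwards [isOpen_ball.mem_nhds htball] with b hb
      exact ((hg i hi).2.2 b hb).1
  · filter_upwards [hκr, hκ] with b hb hb2
    have hb3 : -κ b ∈ ball (0 : ℂ) r := by
      rw [mem_ball, dist_zero_right] at hb ⊢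
      rwa [norm_neg]
    have h3 := hF0 hb3
    have h4 : (fun o : Option (Fin n) => G o (-κ b)) = fun o : Option (Fin n) => o.elim b
        (fun i => if i = i0 then χ (-κ b) else g i b) := by
      funext o
      rcases o with _ | i
      · show tc + (-κ b) ^ 2 = b
        rw [neg_sq, hb2]
      · simp only [hG, Option.elim]
        rw [neg_sq, hb2]
    have h5 : MvPolynomial.eval (fun o => G o (-κ b)) P = 0 := h3
    rw [h4] at h5
    exact h5

end Pool.Agent.Lib.MP_ec260d_ntC
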