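import Mathlib
import Pool.Agent.Lib.MP_ec260d_ntC.DefsW
import Pool.Agent.Lib.MP_ec260d_ntC.Bridge
import Pool.Agent.Lib.MP_ec260d_ntC.SwapB
import Pool.Agent.Lib.MP_ec260d_ntC.NzB

/-!
# JOB TK: moving the last index up (about 200 lines)

`tk`: `j i0 = m`, `j i < m` for `i ≠ i0`.  `bridge m` gives `tc, zc, K`; `swap` gives `δ`; `bridge` with this `δ` gives the paths.  `rel_real`: the relation holds at the `T0` of the bridge.  `rel_cont` along `c` with `W i = w (j i)`, then along `c'` with `W' i = w' (j i)` (`w j X = w' j 0`, `c X = c' 0`): `Rel P (c' 1) (fun i => w' (j i) 1)`.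
`swap` with `t = c' 1`, `z i = w' (j i) 1`, `z' = w' (m+1) 1`: `z' ≠ w' m 1` by `lift_ne` applied twice (`nz T0 (m+1) ≠ nz T0 m`, `nz_mono`).  So `Rel P (c' 1) (update z i0 z')`, and `update z i0 z' = fun i => w' (j' i) 1` with `j' = update j i0 (m+1)`.
`rel_cont_back` along `c'` and `c` with `w' ∘ j'`, `w ∘ j'` (`j' i ≤ m + 1`): `Rel P T0 (fun i => nz T0 (j' i))`, and `rel_real` back to `T`.
`tk_all`: induction on `k ≥ m`: `Rel P T (nz T ∘ update j i0 k)`; the step uses `tk` with `m := k`, `j := update j i0 k` (`j i < m ≤ k`), `update (update j i0 k) i0 (k+1) = update j i0 (k+1)`.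
-/

namespace Pool.Agent.Lib.MP_ec260d_ntC

open Complex Set Filter Topology Metric MeasureTheory

theorem tk {n : ℕ} (P : MvPolynomial (Option (Fin n)) ℂ) (T : ℝ) (hT : 1 / 2 < T) (j : Fin n → ℕ)
    (m : ℕ) (i0 : Fin n) (h0 : j i0 = m) (hj : ∀ i, i ≠ i0 → j i < m)
    (h : Rel P T (fun i => (nz T (j i) : ℂ))) :
    Rel P T (fun i => (nz T (Function.update j i0 (m + 1) i) : ℂ)) := by
  obtain ⟨tc, zc, K, hz0, hz1, hz2, hK, hKs, hbr⟩ := bridge m
  obtain ⟨δ, hδ, hsw⟩ := swap tc zc hz0 hz1 hz2 K hK hKs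
  obtain ⟨T0, X, c, c', w, w', hT0, hX, hc, hc', hc0, hcX, hne, hnear, hw, hlow, hm1, hm2⟩ := hbr δ hδ
  have hjm : ∀ i, j i ≤ m + 1 := by
    intro i
    by_cases hi : i = i0
    · rw [hi, h0]
      exact Nat.le_succ m
    · exact (hj i hi).le.trans (Nat.le_succ m)
  have hjm' : ∀ i, Function.update j i0 (m + 1) i ≤ m + 1 := by
    intro i
    by_cases hi : i = i0
    · rw [hi, Function.update_self]
    · rw [Function.update_of_ne hi]
      exact hjm i
  -- from `T` to the double point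
  have h1 := rel_real P j T T0 hT hT0 h
  have h2 : Rel P (c 0) (fun i => w (j i) 0) := by
    have e : (fun i => w (j i) 0) = fun i => (nz T0 (j i) : ℂ) :=
      funext fun i => (hw (j i) (hjm i)).2.2.1
    rw [hc0, e]
    exact h1
  have h3 : Rel P (c X) (fun i => w (j i) X) :=
    rel_cont P X hX c (fun i => w (j i)) hc (fun i => (hw _ (hjm i)).1)
      (fun i => (hw _ (hjm i)).2.2.2.2.1) h2
  have h4 : Rel P (c' 0) (fun i => w' (j i) 0) := by
    have e : (fun i => w' (j i) 0) = fun i => w (j i) X :=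
      funext fun i => (hw (j i) (hjm i)).2.2.2.1.symm
    rw [← hcX, e]
    exact h3
  have h5 : Rel P (c' 1) (fun i => w' (j i) 1) :=
    rel_cont P 1 zero_le_one c' (fun i => w' (j i)) hc' (fun i => (hw _ (hjm i)).2.1)
      (fun i => (hw _ (hjm i)).2.2.2.2.2) h4
  -- the two zeros are different
  have a := hw (m + 1) le_rfl
  have b := hw m (Nat.le_succ m)
  have hd0 : w (m + 1) 0 ≠ w m 0 := by
    rw [a.2.2.1, b.2.2.1]
    intro he
    have he' : nz T0 (m + 1) = nz T0 m := by exact_mod_cast he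
    exact absurd ((nz_mono T0 hT0.le).injective he') (Nat.succ_ne_self m)
  have hd1 : w (m + 1) X ≠ w m X :=
    lift_ne X hX c (w (m + 1)) (w m) hc a.1 b.1 a.2.2.2.2.1 (fun x hx => (b.2.2.2.2.1 x hx).1) hd0
  have hd2 : w' (m + 1) 0 ≠ w' m 0 := by
    rw [← a.2.2.2.1, ← b.2.2.2.1]
    exact hd1
  have hd3 : w' (m + 1) 1 ≠ w' m 1 :=
    lift_ne 1 zero_le_one c' (w' (m + 1)) (w' m) hc' a.2.1 b.2.1 a.2.2.2.2.2
      (fun x hx => (b.2.2.2.2.2 x hx).1) hd2
  have hone : (1 : ℝ) ∈ Icc (0 : ℝ) 1 := ⟨zero_le_one, le_rfl⟩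
  have h6 : Rel P (c' 1) (Function.update (fun i => w' (j i) 1) i0 (w' (m + 1) 1)) := by
    refine hsw P (c' 1) (fun i => w' (j i) 1) i0 (w' (m + 1) 1) hne hnear h5 (fun i hi => ?_) ?_ hm2
      (a.2.2.2.2.2 1 hone).1 ?_
    · exact hlow (j i) (hj i hi)
    · show ‖w' (j i0) 1 - zc‖ < δ
      rw [h0]
      exact hm1
    · show w' (m + 1) 1 ≠ w' (j i0) 1
      rw [h0]
      exact hd3
  have e6 : Function.update (fun i => w' (j i) 1) i0 (w' (m + 1) 1) =
      fun i => w' (Function.update j i0 (m + 1) i) 1 := by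
    funext i
    by_cases hi : i = i0
    · rw [hi, Function.update_self, Function.update_self]
    · rw [Function.update_of_ne hi, Function.update_of_ne hi]
  rw [e6] at h6
  -- and back
  have h7 : Rel P (c' 0) (fun i => w' (Function.update j i0 (m + 1) i) 0) :=
    rel_cont_back P 1 zero_le_one c' (fun i => w' (Function.update j i0 (m + 1) i)) hc'
      (fun i => (hw _ (hjm' i)).2.1) (fun i => (hw _ (hjm' i)).2.2.2.2.2) h6
  have h8 : Rel P (c X) (fun i => w (Function.update j i0 (m + 1) i) X) := by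
    have e : (fun i => w (Function.update j i0 (m + 1) i) X) =
        fun i => w' (Function.update j i0 (m + 1) i) 0 :=
      funext fun i => (hw _ (hjm' i)).2.2.2.1
    rw [hcX, e]
    exact h7
  have h9 : Rel P (c 0) (fun i => w (Function.update j i0 (m + 1) i) 0) :=
    rel_cont_back P X hX c (fun i => w (Function.update j i0 (m + 1) i)) hc
      (fun i => (hw _ (hjm' i)).1) (fun i => (hw _ (hjm' i)).2.2.2.2.1) h8
  have h10 : Rel P T0 (fun i => (nz T0 (Function.update j i0 (m + 1) i) : ℂ)) := by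
    have e : (fun i => (nz T0 (Function.update j i0 (m + 1) i) : ℂ)) =
        fun i => w (Function.update j i0 (m + 1) i) 0 :=
      funext fun i => (hw _ (hjm' i)).2.2.1.symm
    rw [e, ← hc0]
    exact h9
  exact rel_real P (Function.update j i0 (m + 1)) T0 T hT0 hT h10

theorem tk_all {n : ℕ} (P : MvPolynomial (Option (Fin n)) ℂ) (T : ℝ) (hT : 1 / 2 < T) (j : Fin n → ℕ)
    (i0 : Fin n) (hj : ∀ i, i ≠ i0 → j i < j i0) (h : Rel P T (fun i => (nz T (j i) : ℂ))) :
    ∀ k : ℕ, j i0 ≤ k → ∀ s : ℝ, 1 / 2 < s →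
      Rel P s (fun i => (nz s (Function.update j i0 k i) : ℂ)) := by
  intro k hk s hs
  refine rel_real P (Function.update j i0 k) T s hT hs ?_
  induction k, hk using Nat.le_induction with
  | base =>
    rw [Function.update_eq_self]
    exact h
  | succ k hk ih =>
    have h1 := tk P T hT (Function.update j i0 k) k i0 (Function.update_self _ _ _) (fun i hi => by
      rw [Function.update_of_ne hi]
      exact (hj i hi).trans_le hk) ih
    rw [Function.update_idem] at h1
    exact h1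

end Pool.Agent.Lib.MP_ec260d_ntC
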