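import Mathlib
import Pool.Agent.Lib.MP_ec260d_ntC.DefsW
import Pool.Agent.Lib.MP_ec260d_ntC.TK

/-!
# JOB IndK: no relation between the positive zeros (about 250 lines)

`coef_split`: rename the variables by the equivalence `Option (Fin (n+1)) ≃ Option (Option (Fin n))` which sends `some i0` to `none`, `some (i0.succAbove i)` to `some (some i)`, `none` to `some none`, and use `MvPolynomial.optionEquivLeft` (polynomials in the variable `some i0` with coefficients in the polynomial ring of the others); `d` = degree, `c l` = coefficients.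
(Or directly by `MvPolynomial.induction_on` for the existence of the decomposition, and uniqueness is not needed: only `(∀ l, c l = 0) → P = 0`, which follows from the evaluation formula by `MvPolynomial.funext`.)
`indK`: induction on `n`.  `n = 0`: `rel_zero`.  `n + 1`: let `i0` be the index with `j i0` maximal (`Finite.exists_max`), `j i < j i0` for `i ≠ i0` (injectivity).  `tk_all`, `rel_eval`: for all real `s > 1/2` and all `k ≥ j i0`: `∑_l (c l)(s, nz s (j' ·)) (nz s k)^l = 0`, `j' = j ∘ i0.succAbove`.
For fixed `s` the numbers `nz s k`, `k ≥ j i0`, are distinct (`nz_mono`), infinitely many, so all the coefficients vanish: `(c l)(s, nz s (j' ·)) = 0` for `l ≤ d` and all real `s > 1/2`.  (`Polynomial.eq_zero_of_infinite_isRoot` for `∑ C (..) X^l`.)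
`Rel (c l) T (nz T (j' ·))`: germs `g i` at `T` through `nz T (j' i)` (`germ_exists`, `simple_zeros`); `nz_near`: `g i s = nz s (j' i)` for real `s` near `T`; so the function `b ↦ (c l)(b, g b)`, analytic at `T` (as in `Count_analytic` of `MP_ec260d_ntA/Count.lean`), vanishes at all real `s` near `T`, hence near `T` (`AnalyticAt.frequently_zero_iff_eventually_zero`).
By induction `c l = 0` for all `l ≤ d`, so `P = 0`.
-/

namespace Pool.Agent.Lib.MP_ec260d_ntC

open Complex Set Filter Topology Metric MeasureTheory

/-- the change of variables -/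
private noncomputable def indka_e {n : ℕ} (i0 : Fin (n + 1)) : Option (Fin (n + 1)) → Option (Option (Fin n)) :=
  fun o => o.elim (some none) fun k => (finSuccEquiv' i0 k).map some

private theorem indka_e_inj {n : ℕ} (i0 : Fin (n + 1)) : Function.Injective (indka_e i0) := by
  intro a b h
  rcases a with _ | a <;> rcases b with _ | b
  · rfl
  · exfalso
    simp only [indka_e, Option.elim] at h
    rcases hb : finSuccEquiv' i0 b with _ | k
    · rw [hb] at h
      simp at h
    · rw [hb] at h
      simp at h
  · exfalso
    simp only [indka_e, Option.elim] at h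
    rcases hb : finSuccEquiv' i0 a with _ | k
    · rw [hb] at h
      simp at h
    · rw [hb] at h
      simp at h
  · simp only [indka_e, Option.elim] at h
    have h2 := Option.map_injective (Option.some_injective _) h
    rw [(finSuccEquiv' i0).injective h2]

private theorem indka_eval {σ : Type*} (y : Option σ → ℂ) (Q : MvPolynomial (Option σ) ℂ) :
    MvPolynomial.eval y Q = (MvPolynomial.optionEquivLeft ℂ σ Q).eval₂
      (MvPolynomial.eval fun o => y (some o)) (y none) := by
  induction Q using MvPolynomial.induction_on with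
  | C a => simp [MvPolynomial.optionEquivLeft_C]
  | add p q hp hq => rw [map_add, map_add, Polynomial.eval₂_add, hp, hq]
  | mul_X p o hp =>
    rw [map_mul, map_mul, Polynomial.eval₂_mul, hp]
    congr 1
    rcases o with _ | o
    · rw [MvPolynomial.optionEquivLeft_X_none]
      simp
    · rw [MvPolynomial.optionEquivLeft_X_some]
      simp

theorem coef_split {n : ℕ} (P : MvPolynomial (Option (Fin (n + 1))) ℂ) (i0 : Fin (n + 1)) :
    ∃ (d : ℕ) (c : ℕ → MvPolynomial (Option (Fin n)) ℂ),
      (∀ (t : ℂ) (x : Fin (n + 1) → ℂ), MvPolynomial.eval (fun o : Option (Fin (n + 1)) => o.elim t x) P =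
        ∑ l ∈ Finset.range (d + 1),
          MvPolynomial.eval (fun o : Option (Fin n) => o.elim t (fun i => x (i0.succAbove i))) (c l) *
            x i0 ^ l) ∧
      ((∀ l ≤ d, c l = 0) → P = 0) := by
  obtain ⟨q, hq⟩ : ∃ q, q = MvPolynomial.optionEquivLeft ℂ (Option (Fin n))
      (MvPolynomial.rename (indka_e i0) P) := ⟨_, rfl⟩
  refine ⟨q.natDegree, fun l => q.coeff l, fun t x => ?_, fun h => ?_⟩
  · obtain ⟨y, hy⟩ : ∃ y : Option (Option (Fin n)) → ℂ, y = fun o => o.elim (x i0)
        (fun o' => o'.elim t fun i => x (i0.succAbove i)) := ⟨_, rfl⟩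
    have h1 : (fun o : Option (Fin (n + 1)) => (o.elim t x : ℂ)) = y ∘ indka_e i0 := by
      funext o
      rw [hy]
      rcases o with _ | k
      · rfl
      · show x k = _
        rcases eq_or_ne k i0 with rfl | hk
        · simp [indka_e, finSuccEquiv'_at]
        · obtain ⟨i, rfl⟩ := Fin.exists_succAbove_eq hk
          simp [indka_e, finSuccEquiv'_succAbove]
    rw [h1, ← MvPolynomial.eval_rename, indka_eval, ← hq, Polynomial.eval₂_eq_sum_range]
    refine Finset.sum_congr rfl fun l _ => ?_
    rw [hy]
    rfl
  · have h2 : q = 0 := by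
      apply Polynomial.ext
      intro l
      rw [Polynomial.coeff_zero]
      rcases le_or_gt l q.natDegree with hl | hl
      · exact h l hl
      · exact Polynomial.coeff_eq_zero_of_natDegree_lt hl
    rw [h2] at hq
    have h3 : MvPolynomial.rename (indka_e i0) P = 0 := by
      apply (MvPolynomial.optionEquivLeft ℂ (Option (Fin n))).injective
      rw [← hq, map_zero]
    apply MvPolynomial.rename_injective _ (indka_e_inj i0)
    rw [h3, map_zero]

private theorem IndKb_analytic (N : ℕ) (P : MvPolynomial (Option (Fin N)) ℂ) (a : ℂ) (g : Fin N → ℂ → ℂ)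
    (hg : ∀ i, AnalyticAt ℂ (g i) a) :
    AnalyticAt ℂ (fun b => MvPolynomial.eval (fun o : Option (Fin N) => o.elim b (fun i => g i b)) P) a := by
  have h := AnalyticAt.aeval_mvPolynomial (𝕜 := ℂ) (f := fun b (o : Option (Fin N)) => o.elim b (fun i => g i b))
    (z := a) (A := ℂ) (B := ℂ) (fun o => by
      cases o with
      | none => exact analyticAt_id
      | some i => exact hg i) P
  simpa only [MvPolynomial.aeval_eq_eval] using h

/-- a polynomial with infinitely many zeros has zero coefficients -/
private theorem IndKb_coeff (d : ℕ) (a : ℕ → ℂ) (z : ℕ → ℂ) (hz : Function.Injective z)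
    (h : ∀ k, ∑ l ∈ Finset.range (d + 1), a l * z k ^ l = 0) : ∀ l ≤ d, a l = 0 := by
  set Q : Polynomial ℂ := ∑ l ∈ Finset.range (d + 1), Polynomial.C (a l) * Polynomial.X ^ l with hQ
  have h1 : Q = 0 := by
    apply Polynomial.eq_zero_of_infinite_isRoot
    refine (Set.infinite_range_of_injective hz).mono ?_
    rintro _ ⟨k, rfl⟩
    change Polynomial.IsRoot Q (z k)
    rw [Polynomial.IsRoot.def, hQ, Polynomial.eval_finsetSum]
    rw [← h k]
    refine Finset.sum_congr rfl fun l _ => ?_
    rw [Polynomial.eval_mul, Polynomial.eval_C, Polynomial.eval_pow, Polynomial.eval_X]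
  intro l hl
  have h2 : Q.coeff l = a l := by
    rw [hQ, Polynomial.finsetSum_coeff, Finset.sum_eq_single l]
    · rw [Polynomial.coeff_C_mul, Polynomial.coeff_X_pow, if_pos rfl, mul_one]
    · intro b _ hb
      rw [Polynomial.coeff_C_mul, Polynomial.coeff_X_pow, if_neg (Ne.symm hb), mul_zero]
    · intro h3
      exact absurd (Finset.mem_range.mpr (by omega)) h3
  rw [← h2, h1, Polynomial.coeff_zero]

private theorem IndKb_real (T : ℝ) : Tendsto (fun s : ℝ => (s : ℂ)) (𝓝[≠] T) (𝓝[≠] (T : ℂ)) := by
  apply tendsto_nhdsWithin_of_tendsto_nhds_of_eventually_within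
  · exact (Complex.continuous_ofReal.tendsto T).mono_left nhdsWithin_le_nhds
  · filter_upwards [self_mem_nhdsWithin] with s hs
    intro h
    exact hs (Complex.ofReal_injective h)

theorem indK (n : ℕ) : ∀ (P : MvPolynomial (Option (Fin n)) ℂ) (j : Fin n → ℕ), Function.Injective j →
    ∀ T : ℝ, 1 / 2 < T → Rel P T (fun i => (nz T (j i) : ℂ)) → P = 0 := by
  induction n with
  | zero =>
    intro P j _ T _ h
    exact rel_zero P T _ h
  | succ n ih =>
    intro P j hj T hT h
    obtain ⟨i0, hi0⟩ := Finite.exists_max j
    have hlt : ∀ i, i ≠ i0 → j i < j i0 := fun i hi =>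
      lt_of_le_of_ne (hi0 i) (fun he => hi (hj he))
    obtain ⟨d, c, hev, hP⟩ := coef_split P i0
    apply hP
    intro l hl
    have hj' : Function.Injective (fun i : Fin n => j (i0.succAbove i)) := by
      intro a b hab
      exact Fin.succAbove_right_injective (hj hab)
    -- the coefficients vanish at all real parameters
    have hco : ∀ s : ℝ, 1 / 2 < s → ∀ l ≤ d, MvPolynomial.eval (fun o : Option (Fin n) =>
        o.elim (s : ℂ) (fun i => (nz s (j (i0.succAbove i)) : ℂ))) (c l) = 0 := by
      intro s hs
      apply IndKb_coeff d _ (fun k => (nz s (j i0 + k) : ℂ))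
      · intro a b hab
        have h1 : nz s (j i0 + a) = nz s (j i0 + b) := Complex.ofReal_injective hab
        have h2 := (nz_mono s hs.le).injective h1
        omega
      · intro k
        have h1 := tk_all P T hT j i0 hlt h (j i0 + k) (Nat.le_add_right _ _) s hs
        have h2 := rel_eval P _ _ h1
        rw [hev] at h2
        rw [← h2]
        refine Finset.sum_congr rfl fun l _ => ?_
        have h3 : (fun i : Fin n => (nz s (Function.update j i0 (j i0 + k) (i0.succAbove i)) : ℂ)) =
            fun i => (nz s (j (i0.succAbove i)) : ℂ) := by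
          funext i
          rw [Function.update_of_ne (Fin.succAbove_ne i0 i)]
        have h4 : (nz s (Function.update j i0 (j i0 + k) i0) : ℂ) = (nz s (j i0 + k) : ℂ) := by
          rw [Function.update_self]
        rw [h3, h4]
    apply ih (c l) (fun i => j (i0.succAbove i)) hj' T hT
    -- the germs
    have hz : ∀ i : Fin n, HH T (nz T (j (i0.succAbove i)) : ℂ) = 0 := fun i =>
      (nz_pos T hT.le _).2
    have hg : ∀ i : Fin n, ∃ g : ℂ → ℂ, AnalyticAt ℂ g T ∧ g T = nz T (j (i0.succAbove i)) ∧
        ∀ᶠ s in 𝓝 (T : ℂ), HH s (g s) = 0 := by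
      intro i
      obtain ⟨g, h1, h2, h3, _⟩ := germ_exists (T : ℂ) (nz T (j (i0.succAbove i)) : ℂ)
        ⟨hz i, simple_zeros T hT _ (hz i)⟩
      exact ⟨g, h1, h2, h3⟩
    choose g g1 g2 g3 using hg
    refine ⟨g, fun i => ⟨g1 i, g2 i, g3 i⟩, ?_⟩
    have hF := IndKb_analytic n (c l) (T : ℂ) g g1
    apply (AnalyticAt.frequently_zero_iff_eventually_zero hF).mp
    have hr : ∀ᶠ s : ℝ in 𝓝 T, MvPolynomial.eval (fun o : Option (Fin n) =>
        o.elim (s : ℂ) (fun i => g i s)) (c l) = 0 := by
      have e1 : ∀ᶠ s : ℝ in 𝓝 T, ∀ i, g i s = nz s (j (i0.succAbove i)) := by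
        rw [eventually_all]
        intro i
        exact nz_near T hT _ (g i) (g1 i).continuousAt (g2 i) (g3 i)
      filter_upwards [e1, lt_mem_nhds hT] with s hs1 hs2
      have h5 := hco s hs2 l hl
      have h6 : (fun i => g i (s : ℂ)) = fun i => (nz s (j (i0.succAbove i)) : ℂ) := funext hs1
      rw [h6]
      exact h5
    exact (IndKb_real T).frequently
      ((hr.filter_mono nhdsWithin_le_nhds).frequently)

end Pool.Agent.Lib.MP_ec260d_ntC
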