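import Mathlib
import Pool.Agent.Lib.MP_ec260d_ntC.DefsW
import Pool.Agent.Lib.MP_ec260d_ntC.IndK
import Pool.Agent.Lib.MP_ec260d_ntC.Fan

/-!
# JOB CoreH: analytic branches of the zeros are algebraically independent (about 150 lines)

`fan` gives real `T > 1/2` and real zeros `x i`, `|x i|` pairwise distinct, `Rel P T x`.  `x i ≠ 0` (`HH_zero_ne`), so `|x i|` is a positive zero (`HH_even`): `|x i| = nz T (j i)` (`nz_surj`), `j` injective.  Let `e i = 1` if `0 < x i`, else `-1`; `x i = e i |x i|`.
`P' = MvPolynomial.aeval (fun o => o.elim (X none) (fun i => C (e i) * X (some i))) P`.  `Rel P' T (|x i|)`: with the germs `g i` of `Rel P T x` take `e i * g i` (analytic, value `|x i|`, zeros of `HH s` by `HH_even`), and `eval (s, e g) P' = eval (s, e (e g)) P = eval (s, g) P = 0`.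
`indK`: `P' = 0`; the substitution is an involution, so `P = 0`.
-/

namespace Pool.Agent.Lib.MP_ec260d_ntC

open Complex Set Filter Topology Metric MeasureTheory

private theorem coreH_inv {n : ℕ} (e : Fin n → ℂ) (he : ∀ i, e i * e i = 1)
    (P : MvPolynomial (Option (Fin n)) ℂ) :
    MvPolynomial.aeval (R := ℂ) (fun o : Option (Fin n) => o.elim (MvPolynomial.X none)
      (fun i => MvPolynomial.C (e i) * MvPolynomial.X (some i)))
      (MvPolynomial.aeval (R := ℂ) (fun o : Option (Fin n) => o.elim (MvPolynomial.X none)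
      (fun i => MvPolynomial.C (e i) * MvPolynomial.X (some i))) P) = P := by
  have h : (MvPolynomial.aeval (R := ℂ) (fun o : Option (Fin n) =>
      o.elim (MvPolynomial.X none : MvPolynomial (Option (Fin n)) ℂ)
      (fun i => MvPolynomial.C (e i) * MvPolynomial.X (some i)))).comp
      (MvPolynomial.aeval (R := ℂ) (fun o : Option (Fin n) =>
      o.elim (MvPolynomial.X none : MvPolynomial (Option (Fin n)) ℂ)
      (fun i => MvPolynomial.C (e i) * MvPolynomial.X (some i)))) = AlgHom.id ℂ _ := by
    refine MvPolynomial.algHom_ext fun o => ?_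
    rw [AlgHom.comp_apply, MvPolynomial.aeval_X, AlgHom.id_apply]
    cases o with
    | none => exact MvPolynomial.aeval_X _ _
    | some i =>
      show MvPolynomial.aeval (R := ℂ) _ (MvPolynomial.C (e i) * MvPolynomial.X (some i)) = _
      rw [map_mul, MvPolynomial.aeval_C, MvPolynomial.aeval_X]
      show MvPolynomial.C (e i) * (MvPolynomial.C (e i) * MvPolynomial.X (some i)) = _
      rw [← mul_assoc, ← MvPolynomial.C_mul, he, MvPolynomial.C_1, one_mul]
  exact congrArg (fun f => f P) h

private theorem coreH_eval {n : ℕ} (e : Fin n → ℂ) (P : MvPolynomial (Option (Fin n)) ℂ) (s : ℂ)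
    (g : Fin n → ℂ) :
    MvPolynomial.eval (fun o : Option (Fin n) => o.elim s g)
      (MvPolynomial.aeval (R := ℂ) (fun o : Option (Fin n) => o.elim (MvPolynomial.X none)
      (fun i => MvPolynomial.C (e i) * MvPolynomial.X (some i))) P) =
      MvPolynomial.eval (fun o : Option (Fin n) => o.elim s (fun i => e i * g i)) P := by
  have h : (MvPolynomial.aeval (R := ℂ) (fun o : Option (Fin n) => o.elim s g)).comp
      (MvPolynomial.aeval (R := ℂ) (fun o : Option (Fin n) =>
      o.elim (MvPolynomial.X none : MvPolynomial (Option (Fin n)) ℂ)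
      (fun i => MvPolynomial.C (e i) * MvPolynomial.X (some i)))) =
      MvPolynomial.aeval (R := ℂ) (fun o : Option (Fin n) => o.elim s (fun i => e i * g i)) := by
    refine MvPolynomial.algHom_ext fun o => ?_
    rw [AlgHom.comp_apply, MvPolynomial.aeval_X, MvPolynomial.aeval_X]
    cases o with
    | none => exact MvPolynomial.aeval_X _ _
    | some i =>
      show MvPolynomial.aeval (R := ℂ) _ (MvPolynomial.C (e i) * MvPolynomial.X (some i)) = _
      rw [map_mul, MvPolynomial.aeval_C, MvPolynomial.aeval_X]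
      rfl
  exact congrArg (fun f => f P) h

theorem coreH {n : ℕ} (P : MvPolynomial (Option (Fin n)) ℂ) (t0 : ℂ) (z : Fin n → ℂ)
    (hz : ∀ i, Smp t0 (z i)) (hd : ∀ i j, i ≠ j → z i ≠ z j ∧ z i ≠ -z j) (hR : Rel P t0 z) : P = 0 := by
  obtain ⟨T, x, hT, hx, hne, hrel⟩ := fan P t0 z hz hd hR
  have hT' : (1 : ℝ) / 2 ≤ T := hT.le
  have hx0 : ∀ i, x i ≠ 0 := by
    intro i h
    have h1 := hx i
    rw [h, Complex.ofReal_zero] at h1
    exact HH_zero_ne T h1
  have habs : ∀ i, HH T ((|x i| : ℝ) : ℂ) = 0 := by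
    intro i
    rcases abs_choice (x i) with h | h
    · rw [h]
      exact hx i
    · rw [h, Complex.ofReal_neg, HH_even]
      exact hx i
  have hj : ∀ i, ∃ j, nz T j = |x i| := fun i =>
    nz_surj T hT' _ (abs_pos.2 (hx0 i)) (habs i)
  choose j hj using hj
  have hinj : Function.Injective j := by
    intro a b h
    by_contra hab
    apply hne a b hab
    rw [← hj a, ← hj b, h]
  obtain ⟨e, he, hex⟩ : ∃ e : Fin n → ℂ, (∀ i, e i = 1 ∨ e i = -1) ∧
      ∀ i, e i * (x i : ℂ) = ((|x i| : ℝ) : ℂ) := by
    have h1 : ∀ i, ∃ c : ℂ, (c = 1 ∨ c = -1) ∧ c * (x i : ℂ) = ((|x i| : ℝ) : ℂ) := by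
      intro i
      rcases abs_choice (x i) with h | h
      · exact ⟨1, Or.inl rfl, by rw [h, one_mul]⟩
      · exact ⟨-1, Or.inr rfl, by rw [h, Complex.ofReal_neg, neg_one_mul]⟩
    choose e he using h1
    exact ⟨e, fun i => (he i).1, fun i => (he i).2⟩
  have he2 : ∀ i, e i * e i = 1 := by
    intro i
    rcases he i with h | h <;> rw [h] <;> norm_num
  obtain ⟨g, hg, hP⟩ := hrel
  have hrel' : Rel (MvPolynomial.aeval (R := ℂ) (fun o : Option (Fin n) =>
      o.elim (MvPolynomial.X none) (fun i => MvPolynomial.C (e i) * MvPolynomial.X (some i))) P)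
      T (fun i => (nz T (j i) : ℂ)) := by
    refine ⟨fun i s => e i * g i s, fun i => ⟨?_, ?_, ?_⟩, ?_⟩
    · exact analyticAt_const.mul (hg i).1
    · show e i * g i T = (nz T (j i) : ℂ)
      rw [(hg i).2.1, hj i]
      exact hex i
    · filter_upwards [(hg i).2.2] with s hs
      rcases he i with h | h
      · rw [h, one_mul]
        exact hs
      · rw [h, neg_one_mul, HH_even]
        exact hs
    · filter_upwards [hP] with s hs
      rw [coreH_eval]
      have h1 : (fun i => e i * (e i * g i s)) = fun i => g i s := by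
        funext i
        rw [← mul_assoc, he2, one_mul]
      rw [h1]
      exact hs
  have h0 := indK n _ j hinj T hT hrel'
  rw [← coreH_inv e he2 P, h0, map_zero]

end Pool.Agent.Lib.MP_ec260d_ntC
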