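import Mathlib
import Pool.Agent.Lib.MP_ec260d_ntC.DefsW
import Pool.Agent.Lib.MP_ec260d_ntC.CoreH
import Pool.Agent.Lib.MP_ec260d_ntC.GermH

/-!
# JOB CntF: for each polynomial the exceptional parameters are countable (about 150 lines)

The complete Lean proof of the analogous statement for the values of zeta is `Pool/Agent/Lib/MP_ec260d_ntA/Count.lean`: adapt it.  `T = {(t, z) : (∀ i, Smp t (z i)), z i ≠ ± z j for i ≠ j, P(t, z) = 0}` has only isolated points: at `(t0, z0)` take the germs `g i` (`germ_exists`, with local uniqueness: a zero `w` of `HH s` with `(s, w)` near `(t0, z0 i)` is `g i s`); `s ↦ P(s, g s)` is analytic at `t0`;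
if it vanishes near `t0` then `Rel P t0 z0` and `coreH` gives `P = 0`; otherwise it is nonzero in a punctured neighbourhood, so `(t0, z0)` is isolated in `T`.  So `T` is countable (`TopologicalSpace.countable_cover_nhdsWithin`), and so is its projection.
`count_fin`: transfer from `Fin (Fintype.card ι)` by `rename` as in `Count.lean`.
-/

namespace Pool.Agent.Lib.MP_ec260d_ntC

open Complex Set Filter Topology Metric MeasureTheory

/-- the pairs of a parameter and zeros which satisfy the relation -/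
private def CntFT (N : ℕ) (P : MvPolynomial (Option (Fin N)) ℂ) : Set (ℂ × (Fin N → ℂ)) :=
  {p | (∀ i, Smp p.1 (p.2 i)) ∧ (∀ i j, i ≠ j → p.2 i ≠ p.2 j ∧ p.2 i ≠ -p.2 j) ∧
    MvPolynomial.eval (fun o : Option (Fin N) => o.elim p.1 p.2) P = 0}

private theorem CntF_analytic (N : ℕ) (P : MvPolynomial (Option (Fin N)) ℂ) (a : ℂ) (g : Fin N → ℂ → ℂ)
    (hg : ∀ i, AnalyticAt ℂ (g i) a) :
    AnalyticAt ℂ (fun b => MvPolynomial.eval (fun o : Option (Fin N) => o.elim b (fun i => g i b)) P) a := by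
  have h := AnalyticAt.aeval_mvPolynomial (𝕜 := ℂ) (f := fun b (o : Option (Fin N)) => o.elim b (fun i => g i b))
    (z := a) (A := ℂ) (B := ℂ) (fun o => by
      cases o with
      | none => exact analyticAt_id
      | some i => exact hg i) P
  simpa only [MvPolynomial.aeval_eq_eval] using h

private theorem CntF_discrete (N : ℕ) (P : MvPolynomial (Option (Fin N)) ℂ) (hP : P ≠ 0) :
    ∀ p ∈ CntFT N P, ({p} : Set (ℂ × (Fin N → ℂ))) ∈ 𝓝[CntFT N P] p := by
  rintro ⟨a, z⟩ ⟨hz, hd, hPz⟩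
  simp only at hz hd hPz
  have hex : ∀ i, ∃ g : ℂ → ℂ, AnalyticAt ℂ g a ∧ g a = z i ∧ (∀ᶠ s in 𝓝 a, HH s (g s) = 0) ∧
      ∀ᶠ p : ℂ × ℂ in 𝓝 (a, z i), HH p.1 p.2 = 0 → p.2 = g p.1 := fun i => germ_exists a (z i) (hz i)
  choose g h1 h2 h3 h4 using hex
  have hF := CntF_analytic N P a g h1
  rcases hF.eventually_eq_zero_or_eventually_ne_zero with h | h
  · exact absurd (coreH P a z hz hd ⟨g, fun i => ⟨h1 i, h2 i, h3 i⟩, h⟩) hP
  · rw [eventually_nhdsWithin_iff] at h
    have e1 : ∀ᶠ p : ℂ × (Fin N → ℂ) in 𝓝 (a, z), p.1 ∈ ({a} : Set ℂ)ᶜ →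
        MvPolynomial.eval (fun o : Option (Fin N) => o.elim p.1 (fun i => g i p.1)) P ≠ 0 :=
      (continuous_fst.tendsto (a, z)).eventually h
    have e2 : ∀ᶠ p : ℂ × (Fin N → ℂ) in 𝓝 (a, z), ∀ i, HH p.1 (p.2 i) = 0 → p.2 i = g i p.1 := by
      rw [eventually_all]
      intro i
      have hc : Continuous (fun p : ℂ × (Fin N → ℂ) => (p.1, p.2 i)) :=
        continuous_fst.prodMk ((continuous_apply i).comp continuous_snd)
      exact (hc.tendsto (a, z)).eventually (h4 i)
    have e3 : ∀ᶠ p : ℂ × (Fin N → ℂ) in 𝓝[CntFT N P] (a, z), p ∈ CntFT N P := eventually_mem_nhdsWithin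
    filter_upwards [e3, mem_nhdsWithin_of_mem_nhds e1, mem_nhdsWithin_of_mem_nhds e2]
    rintro ⟨b, w⟩ ⟨hw, _, hPw⟩ k1 k2
    simp only at hw hPw k1 k2
    have hgw : ∀ i, g i b = w i := fun i => (k2 i (hw i).1).symm
    have hb : b = a := by
      by_contra hne
      refine k1 hne ?_
      have : (fun i => g i b) = w := funext hgw
      rw [this]
      exact hPw
    have hwz : w = z := by
      funext i
      rw [← hgw i, hb, h2 i]
    rw [mem_singleton_iff, hb, hwz]

private theorem CntF_T (N : ℕ) (P : MvPolynomial (Option (Fin N)) ℂ) (hP : P ≠ 0) : (CntFT N P).Countable := by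
  obtain ⟨t, _, ht, hs⟩ := TopologicalSpace.countable_cover_nhdsWithin (CntF_discrete N P hP)
  refine ht.mono (fun x hx => ?_)
  have := hs hx
  simp only [mem_iUnion, mem_singleton_iff] at this
  obtain ⟨y, hy, hxy⟩ := this
  rw [hxy]
  exact hy

private theorem CntF_count (N : ℕ) (P : MvPolynomial (Option (Fin N)) ℂ) (hP : P ≠ 0) :
    {t : ℂ | ∃ z : Fin N → ℂ, (∀ i, Smp t (z i)) ∧ (∀ i j, i ≠ j → z i ≠ z j ∧ z i ≠ -z j) ∧
      MvPolynomial.eval (fun o : Option (Fin N) => o.elim t z) P = 0}.Countable := by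
  refine ((CntF_T N P hP).image Prod.fst).mono ?_
  rintro a ⟨z, hz, hd, hPz⟩
  exact ⟨(a, z), ⟨hz, hd, hPz⟩, rfl⟩

theorem count_fin {ι : Type} [Fintype ι] (P : MvPolynomial (Option ι) ℂ) (hP : P ≠ 0) :
    {t : ℂ | ∃ z : ι → ℂ, (∀ i, Smp t (z i)) ∧ (∀ i j, i ≠ j → z i ≠ z j ∧ z i ≠ -z j) ∧
      MvPolynomial.eval (fun o : Option ι => o.elim t z) P = 0}.Countable := by
  classical
  obtain ⟨e⟩ : Nonempty (ι ≃ Fin (Fintype.card ι)) := ⟨Fintype.equivFin ι⟩
  have hP' : MvPolynomial.rename (Option.map e) P ≠ 0 := by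
    intro h
    refine hP (MvPolynomial.rename_injective (Option.map e) (Option.map_injective e.injective) ?_)
    rw [h, map_zero]
  refine (CntF_count (Fintype.card ι) (MvPolynomial.rename (Option.map e) P) hP').mono ?_
  rintro a ⟨z, hz, hd, hPz⟩
  refine ⟨z ∘ e.symm, fun i => hz _, fun i j hij => hd _ _ (fun h => hij (e.symm.injective h)), ?_⟩
  rw [MvPolynomial.eval_rename]
  have : ((fun o : Option (Fin (Fintype.card ι)) => o.elim a (z ∘ e.symm)) ∘ Option.map e) =
      fun o : Option ι => o.elim a z := by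
    funext o
    cases o with
    | none => rfl
    | some i =>
      show (z ∘ e.symm) (e i) = z i
      rw [Function.comp_apply, Equiv.symm_apply_apply]
  rw [this]
  exact hPz

end Pool.Agent.Lib.MP_ec260d_ntC
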