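import Mathlib
import Pool.Agent.Lib.MP_ec260d_ntC.DefsW
import Pool.Agent.Lib.MP_ec260d_ntC.CntF

/-!
# JOB FinC: real and imaginary parts (about 350 lines)

The complete Lean proof of the analogous statement for the values of zeta is `Pool/Agent/Lib/MP_ec260d_ntA/Final.lean`: adapt it.  Differences: (1) there are three kinds of points: real zeros `x > 0` (only the real part is a variable), purely imaginary zeros `z = i y`, `y > 0` (only the imaginary part `y = -i z` is a variable), and zeros with `z.re > 0`, `z.im > 0` (both).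
Index type of the polynomial: `Option (Fin n1 ⊕ (Fin n3 ⊕ (Fin n2 ⊕ Fin n2)))`; substitution: `t ↦ t`, `x_i ↦ x_i`, `y_l ↦ -i z_l`, `s_k ↦ (z_k + z'_k)/2`, `t_k ↦ (z_k - z'_k)/(2i)` (invertible over `ℂ`).
(2) The points `x_i`, `i y_l`, `z_k`, `conj z_k` are zeros of `HH t` (`HH_conj`, `t` real), distinct and distinct up to sign (all have `re ≥ 0`; `z = -w` would force `re z = re w = 0` and then both are of the form `i y` with `y > 0`, impossible), and simple if `t` is not in the countable set `{t : HH t has a multiple zero}` (`double_countable`).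
(3) `X` = the real `t` which are in that set or in one of the exceptional sets of `count_fin` for the countably many nonzero polynomials over `K`.
-/

namespace Pool.Agent.Lib.MP_ec260d_ntC

open Complex Set Filter Topology Metric MeasureTheory

/-- the substitution of the real and imaginary parts -/
private noncomputable def FinC_h (n1 n3 n2 : ℕ) : Option (Fin n1 ⊕ (Fin n3 ⊕ (Fin n2 ⊕ Fin n2))) → MvPolynomial (Option (Fin n1 ⊕ (Fin n3 ⊕ (Fin n2 ⊕ Fin n2)))) ℂ
  | none => MvPolynomial.X none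
  | some (Sum.inl i) => MvPolynomial.X (some (Sum.inl i))
  | some (Sum.inr (Sum.inl l)) => MvPolynomial.C (-I) * MvPolynomial.X (some (Sum.inr (Sum.inl l)))
  | some (Sum.inr (Sum.inr (Sum.inl k))) => MvPolynomial.C (1 / 2) *
      (MvPolynomial.X (some (Sum.inr (Sum.inr (Sum.inl k)))) +
        MvPolynomial.X (some (Sum.inr (Sum.inr (Sum.inr k)))))
  | some (Sum.inr (Sum.inr (Sum.inr k))) => MvPolynomial.C (1 / (2 * I)) *
      (MvPolynomial.X (some (Sum.inr (Sum.inr (Sum.inl k)))) -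
        MvPolynomial.X (some (Sum.inr (Sum.inr (Sum.inr k)))))

/-- the inverse substitution -/
private noncomputable def FinC_k (n1 n3 n2 : ℕ) : Option (Fin n1 ⊕ (Fin n3 ⊕ (Fin n2 ⊕ Fin n2))) → MvPolynomial (Option (Fin n1 ⊕ (Fin n3 ⊕ (Fin n2 ⊕ Fin n2)))) ℂ
  | none => MvPolynomial.X none
  | some (Sum.inl i) => MvPolynomial.X (some (Sum.inl i))
  | some (Sum.inr (Sum.inl l)) => MvPolynomial.C I * MvPolynomial.X (some (Sum.inr (Sum.inl l)))
  | some (Sum.inr (Sum.inr (Sum.inl k))) =>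
      MvPolynomial.X (some (Sum.inr (Sum.inr (Sum.inl k)))) +
        MvPolynomial.C I * MvPolynomial.X (some (Sum.inr (Sum.inr (Sum.inr k))))
  | some (Sum.inr (Sum.inr (Sum.inr k))) =>
      MvPolynomial.X (some (Sum.inr (Sum.inr (Sum.inl k)))) -
        MvPolynomial.C I * MvPolynomial.X (some (Sum.inr (Sum.inr (Sum.inr k))))

private theorem FinC_inj (n1 n3 n2 : ℕ) :
    Function.Injective (MvPolynomial.aeval (R := ℂ) (FinC_h n1 n3 n2)) := by
  refine Function.LeftInverse.injective (g := MvPolynomial.aeval (R := ℂ) (FinC_k n1 n3 n2)) fun Q => ?_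
  have h : (MvPolynomial.aeval (R := ℂ) (FinC_k n1 n3 n2)).comp
      (MvPolynomial.aeval (R := ℂ) (FinC_h n1 n3 n2)) = AlgHom.id ℂ _ := by
    refine MvPolynomial.algHom_ext fun o => ?_
    rw [AlgHom.comp_apply, MvPolynomial.aeval_X, AlgHom.id_apply]
    match o with
    | none => exact MvPolynomial.aeval_X _ _
    | some (Sum.inl i) => exact MvPolynomial.aeval_X _ _
    | some (Sum.inr (Sum.inl l)) =>
      show MvPolynomial.aeval (R := ℂ) (FinC_k n1 n3 n2) (MvPolynomial.C (-I) *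
        MvPolynomial.X (some (Sum.inr (Sum.inl l)))) = _
      rw [map_mul, MvPolynomial.aeval_X, MvPolynomial.aeval_C]
      show MvPolynomial.C (-I) * (MvPolynomial.C I * MvPolynomial.X (some (Sum.inr (Sum.inl l)))) = _
      rw [← mul_assoc, ← MvPolynomial.C_mul, neg_mul, Complex.I_mul_I, neg_neg, MvPolynomial.C_1,
        one_mul]
    | some (Sum.inr (Sum.inr (Sum.inl k))) =>
      show MvPolynomial.aeval (R := ℂ) (FinC_k n1 n3 n2) (MvPolynomial.C (1 / 2) *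
        (MvPolynomial.X (some (Sum.inr (Sum.inr (Sum.inl k)))) +
          MvPolynomial.X (some (Sum.inr (Sum.inr (Sum.inr k)))))) = _
      rw [map_mul, map_add, MvPolynomial.aeval_X, MvPolynomial.aeval_X, MvPolynomial.aeval_C]
      show MvPolynomial.C (1 / 2) *
        ((MvPolynomial.X (some (Sum.inr (Sum.inr (Sum.inl k)))) +
          MvPolynomial.C I * MvPolynomial.X (some (Sum.inr (Sum.inr (Sum.inr k))))) +
        (MvPolynomial.X (some (Sum.inr (Sum.inr (Sum.inl k)))) -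
          MvPolynomial.C I * MvPolynomial.X (some (Sum.inr (Sum.inr (Sum.inr k)))))) = _
      have h2 : (MvPolynomial.C (1 / 2) : MvPolynomial (Option (Fin n1 ⊕ (Fin n3 ⊕ (Fin n2 ⊕ Fin n2)))) ℂ) * 2 = 1 := by
        rw [show (2 : MvPolynomial (Option (Fin n1 ⊕ (Fin n3 ⊕ (Fin n2 ⊕ Fin n2)))) ℂ) = MvPolynomial.C 2 from
          (map_ofNat MvPolynomial.C 2).symm, ← MvPolynomial.C_mul, ← MvPolynomial.C_1]
        norm_num
      linear_combination (MvPolynomial.X (some (Sum.inr (Sum.inr (Sum.inl k))))) * h2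
    | some (Sum.inr (Sum.inr (Sum.inr k))) =>
      show MvPolynomial.aeval (R := ℂ) (FinC_k n1 n3 n2) (MvPolynomial.C (1 / (2 * I)) *
        (MvPolynomial.X (some (Sum.inr (Sum.inr (Sum.inl k)))) -
          MvPolynomial.X (some (Sum.inr (Sum.inr (Sum.inr k)))))) = _
      rw [map_mul, map_sub, MvPolynomial.aeval_X, MvPolynomial.aeval_X, MvPolynomial.aeval_C]
      show MvPolynomial.C (1 / (2 * I)) *
        ((MvPolynomial.X (some (Sum.inr (Sum.inr (Sum.inl k)))) +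
          MvPolynomial.C I * MvPolynomial.X (some (Sum.inr (Sum.inr (Sum.inr k))))) -
        (MvPolynomial.X (some (Sum.inr (Sum.inr (Sum.inl k)))) -
          MvPolynomial.C I * MvPolynomial.X (some (Sum.inr (Sum.inr (Sum.inr k)))))) = _
      have h2 : (MvPolynomial.C (1 / (2 * I)) : MvPolynomial (Option (Fin n1 ⊕ (Fin n3 ⊕ (Fin n2 ⊕ Fin n2)))) ℂ) *
          (2 * MvPolynomial.C I) = 1 := by
        rw [show (2 : MvPolynomial (Option (Fin n1 ⊕ (Fin n3 ⊕ (Fin n2 ⊕ Fin n2)))) ℂ) = MvPolynomial.C 2 from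
          (map_ofNat MvPolynomial.C 2).symm, ← MvPolynomial.C_mul, ← MvPolynomial.C_mul,
          ← MvPolynomial.C_1]
        have h3 : (1 : ℂ) / (2 * I) * (2 * I) = 1 := by
          rw [div_mul_cancel₀]
          exact mul_ne_zero two_ne_zero I_ne_zero
        rw [h3]
      linear_combination (MvPolynomial.X (some (Sum.inr (Sum.inr (Sum.inr k))))) * h2
  exact congrArg (fun f => f Q) h

/-- the complex polynomial -/
private noncomputable def FinC_t (K : Subfield ℂ) (n1 n3 n2 : ℕ) (P : MvPolynomial (Option (Fin n1 ⊕ (Fin n3 ⊕ (Fin n2 ⊕ Fin n2)))) K) :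
    MvPolynomial (Option (Fin n1 ⊕ (Fin n3 ⊕ (Fin n2 ⊕ Fin n2)))) ℂ :=
  MvPolynomial.aeval (R := ℂ) (FinC_h n1 n3 n2) (MvPolynomial.map (algebraMap K ℂ) P)

private theorem FinC_t_ne (K : Subfield ℂ) (n1 n3 n2 : ℕ)
    {P : MvPolynomial (Option (Fin n1 ⊕ (Fin n3 ⊕ (Fin n2 ⊕ Fin n2)))) K} (hP : P ≠ 0) : FinC_t K n1 n3 n2 P ≠ 0 := by
  intro h
  unfold FinC_t at h
  have h1 := (map_eq_zero_iff _ (FinC_inj n1 n3 n2)).1 h
  have h2 : Function.Injective (MvPolynomial.map (σ := Option (Fin n1 ⊕ (Fin n3 ⊕ (Fin n2 ⊕ Fin n2)))) (algebraMap K ℂ)) :=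
    MvPolynomial.map_injective _ (algebraMap K ℂ).injective
  exact hP ((map_eq_zero_iff _ h2).1 h1)

private theorem FinC_t_eval (K : Subfield ℂ) (n1 n3 n2 : ℕ)
    (P : MvPolynomial (Option (Fin n1 ⊕ (Fin n3 ⊕ (Fin n2 ⊕ Fin n2)))) K) (g u : Option (Fin n1 ⊕ (Fin n3 ⊕ (Fin n2 ⊕ Fin n2))) → ℂ)
    (h : ∀ o, MvPolynomial.eval g (FinC_h n1 n3 n2 o) = u o) :
    MvPolynomial.eval g (FinC_t K n1 n3 n2 P) = MvPolynomial.aeval u P := by
  unfold FinC_t
  have h1 : (MvPolynomial.aeval (R := ℂ) g).comp (MvPolynomial.aeval (R := ℂ) (FinC_h n1 n3 n2)) =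
      MvPolynomial.aeval (R := ℂ) u := by
    refine MvPolynomial.algHom_ext fun o => ?_
    rw [AlgHom.comp_apply, MvPolynomial.aeval_X, MvPolynomial.aeval_X, ← h o]
    rfl
  have h2 := congrArg (fun f => f (MvPolynomial.map (algebraMap K ℂ) P)) h1
  have h3 : MvPolynomial.aeval (R := ℂ) u (MvPolynomial.map (algebraMap K ℂ) P) =
      MvPolynomial.aeval u P := by
    rw [MvPolynomial.aeval_map_algebraMap]
  exact h2.trans h3

private theorem FinC_count (K : Subfield ℂ) (hK : (K : Set ℂ).Countable) (n1 n3 n2 : ℕ) :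
    Countable (MvPolynomial (Option (Fin n1 ⊕ (Fin n3 ⊕ (Fin n2 ⊕ Fin n2)))) K) := by
  have h1 : Countable K := hK.to_subtype
  rw [← Cardinal.mk_le_aleph0_iff]
  refine MvPolynomial.cardinalMk_le_max.trans ?_
  refine max_le (max_le ?_ ?_) le_rfl
  · exact Cardinal.mk_le_aleph0_iff.2 h1
  · exact Cardinal.mk_le_aleph0_iff.2 inferInstance

theorem finC (K : Subfield ℂ) (hK : (K : Set ℂ).Countable) : ∃ X : Set ℝ, X.Countable ∧
    ∀ t : ℝ, t ∉ X → AlgebraicIndependent K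
      (fun o : Option ({z : ℂ // HH t z = 0 ∧ 0 < z.re ∧ 0 ≤ z.im} ⊕
          {z : ℂ // HH t z = 0 ∧ 0 ≤ z.re ∧ 0 < z.im}) =>
        o.elim (t : ℂ) (Sum.elim (fun z => ((z.1.re : ℝ) : ℂ)) (fun z => ((z.1.im : ℝ) : ℂ)))) := by
  classical
  have hcnt := fun n1 n3 n2 => FinC_count K hK n1 n3 n2
  let Bad : (n1 n3 n2 : ℕ) → MvPolynomial (Option (Fin n1 ⊕ (Fin n3 ⊕ (Fin n2 ⊕ Fin n2)))) K → Set ℂ := fun n1 n3 n2 P =>
    {t : ℂ | ∃ z : (Fin n1 ⊕ (Fin n3 ⊕ (Fin n2 ⊕ Fin n2))) → ℂ, (∀ i, Smp t (z i)) ∧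
      (∀ i j, i ≠ j → z i ≠ z j ∧ z i ≠ -z j) ∧
      MvPolynomial.eval (fun o : Option (Fin n1 ⊕ (Fin n3 ⊕ (Fin n2 ⊕ Fin n2))) => o.elim t z) (FinC_t K n1 n3 n2 P) = 0}
  let Y : Set ℂ := (Prod.fst '' {p : ℂ × ℂ | HH p.1 p.2 = 0 ∧ Hz p.1 p.2 = 0}) ∪
    ⋃ (n1 : ℕ) (n3 : ℕ) (n2 : ℕ) (P : MvPolynomial (Option (Fin n1 ⊕ (Fin n3 ⊕ (Fin n2 ⊕ Fin n2)))) K) (_ : P ≠ 0), Bad n1 n3 n2 P
  have hY : Y.Countable := by
    refine (double_countable.image _).union ?_
    refine Set.countable_iUnion fun n1 => Set.countable_iUnion fun n3 =>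
      Set.countable_iUnion fun n2 => Set.countable_iUnion fun P =>
      Set.countable_iUnion fun hP => ?_
    exact count_fin _ (FinC_t_ne K n1 n3 n2 hP)
  refine ⟨(fun a : ℝ => (a : ℂ)) ⁻¹' Y, hY.preimage Complex.ofReal_injective, fun t ht => ?_⟩
  have ht' : (t : ℂ) ∉ Y := ht
  have hsimp : ∀ z : ℂ, HH t z = 0 → Smp t z := by
    intro z hz
    refine ⟨hz, fun h => ht' (Or.inl ⟨((t : ℂ), z), ⟨hz, h⟩, rfl⟩)⟩
  rw [algebraicIndependent_iff]
  intro F hF
  by_contra hF0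
  -- the points
  let pt : Option ({z : ℂ // HH t z = 0 ∧ 0 < z.re ∧ 0 ≤ z.im} ⊕
      {z : ℂ // HH t z = 0 ∧ 0 ≤ z.re ∧ 0 < z.im}) → ℂ :=
    fun o => o.elim 0 (Sum.elim (fun z => z.1) (fun z => z.1))
  let T : Finset ℂ := F.vars.image pt
  let R : Finset ℂ := T.filter fun z => HH t z = 0 ∧ 0 < z.re ∧ z.im = 0
  let J : Finset ℂ := T.filter fun z => HH t z = 0 ∧ z.re = 0 ∧ 0 < z.im
  let Cc : Finset ℂ := T.filter fun z => HH t z = 0 ∧ 0 < z.re ∧ 0 < z.im
  have hR : ∀ z ∈ R, HH t z = 0 ∧ 0 < z.re ∧ z.im = 0 := fun z hz => (Finset.mem_filter.1 hz).2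
  have hJ : ∀ z ∈ J, HH t z = 0 ∧ z.re = 0 ∧ 0 < z.im := fun z hz => (Finset.mem_filter.1 hz).2
  have hC : ∀ z ∈ Cc, HH t z = 0 ∧ 0 < z.re ∧ 0 < z.im := fun z hz => (Finset.mem_filter.1 hz).2
  obtain ⟨n1, hn1⟩ : ∃ n1 : ℕ, R.card = n1 := ⟨_, rfl⟩
  obtain ⟨n3, hn3⟩ : ∃ n3 : ℕ, J.card = n3 := ⟨_, rfl⟩
  obtain ⟨n2, hn2⟩ : ∃ n2 : ℕ, Cc.card = n2 := ⟨_, rfl⟩
  let ex : Fin n1 ≃ R := (R.equivFinOfCardEq hn1).symm
  let ej : Fin n3 ≃ J := (J.equivFinOfCardEq hn3).symm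
  let ew : Fin n2 ≃ Cc := (Cc.equivFinOfCardEq hn2).symm
  have cR : ∀ i, HH t (ex i : ℂ) = 0 ∧ 0 < (ex i : ℂ).re ∧ (ex i : ℂ).im = 0 := fun i =>
    hR _ (ex i).2
  have cJ : ∀ l, HH t (ej l : ℂ) = 0 ∧ (ej l : ℂ).re = 0 ∧ 0 < (ej l : ℂ).im := fun l =>
    hJ _ (ej l).2
  have cC : ∀ k, HH t (ew k : ℂ) = 0 ∧ 0 < (ew k : ℂ).re ∧ 0 < (ew k : ℂ).im := fun k =>
    hC _ (ew k).2
  have cD : ∀ k, HH t ((starRingEnd ℂ) (ew k : ℂ)) = 0 ∧ 0 < ((starRingEnd ℂ) (ew k : ℂ)).re ∧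
      ((starRingEnd ℂ) (ew k : ℂ)).im < 0 := by
    intro k
    refine ⟨?_, ?_, ?_⟩
    · have h1 := HH_conj t (ew k : ℂ)
      rw [Complex.conj_ofReal, (cC k).1, map_zero] at h1
      exact h1
    · rw [Complex.conj_re]
      exact (cC k).2.1
    · rw [Complex.conj_im]
      linarith [(cC k).2.2]
  let f0 : Fin n1 ⊕ (Fin n3 ⊕ (Fin n2 ⊕ Fin n2)) →
      {z : ℂ // HH t z = 0 ∧ 0 < z.re ∧ 0 ≤ z.im} ⊕ {z : ℂ // HH t z = 0 ∧ 0 ≤ z.re ∧ 0 < z.im}
    | Sum.inl i => Sum.inl ⟨ex i, (cR i).1, (cR i).2.1, (cR i).2.2.ge⟩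
    | Sum.inr (Sum.inl l) => Sum.inr ⟨ej l, (cJ l).1, (cJ l).2.1.ge, (cJ l).2.2⟩
    | Sum.inr (Sum.inr (Sum.inl k)) => Sum.inl ⟨ew k, (cC k).1, (cC k).2.1, (cC k).2.2.le⟩
    | Sum.inr (Sum.inr (Sum.inr k)) => Sum.inr ⟨ew k, (cC k).1, (cC k).2.1.le, (cC k).2.2⟩
  have hxw : ∀ i k, (ex i : ℂ) ≠ (ew k : ℂ) := by
    intro i k h
    have h1 := (cR i).2.2
    have h2 := (cC k).2.2
    rw [h] at h1
    exact absurd h1 h2.ne'
  have hjw : ∀ l k, (ej l : ℂ) ≠ (ew k : ℂ) := by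
    intro l k h
    have h1 := (cJ l).2.1
    have h2 := (cC k).2.1
    rw [h] at h1
    exact absurd h1 h2.ne'
  have hex : ∀ i j, (ex i : ℂ) = (ex j : ℂ) → i = j := fun i j h => ex.injective (Subtype.ext h)
  have hej : ∀ i j, (ej i : ℂ) = (ej j : ℂ) → i = j := fun i j h => ej.injective (Subtype.ext h)
  have hew : ∀ i j, (ew i : ℂ) = (ew j : ℂ) → i = j := fun i j h => ew.injective (Subtype.ext h)
  have hf0 : Function.Injective f0 := by
    intro o o' h
    match o, o', h with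
    | Sum.inl i, Sum.inl j, h =>
      have h1 := Subtype.ext_iff.1 (Sum.inl.inj h)
      rw [hex i j h1]
    | Sum.inl i, Sum.inr (Sum.inl l), h => exact absurd h (by simp [f0])
    | Sum.inl i, Sum.inr (Sum.inr (Sum.inl k)), h =>
      exact absurd (congrArg Subtype.val (Sum.inl.inj h)) (hxw i k)
    | Sum.inl i, Sum.inr (Sum.inr (Sum.inr k)), h => exact absurd h (by simp [f0])
    | Sum.inr (Sum.inl l), Sum.inl i, h => exact absurd h (by simp [f0])
    | Sum.inr (Sum.inl l), Sum.inr (Sum.inl l'), h =>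
      have h1 := Subtype.ext_iff.1 (Sum.inr.inj h)
      rw [hej l l' h1]
    | Sum.inr (Sum.inl l), Sum.inr (Sum.inr (Sum.inl k)), h => exact absurd h (by simp [f0])
    | Sum.inr (Sum.inl l), Sum.inr (Sum.inr (Sum.inr k)), h =>
      exact absurd (congrArg Subtype.val (Sum.inr.inj h)) (hjw l k)
    | Sum.inr (Sum.inr (Sum.inl k)), Sum.inl i, h =>
      exact absurd (congrArg Subtype.val (Sum.inl.inj h)).symm (hxw i k)
    | Sum.inr (Sum.inr (Sum.inl k)), Sum.inr (Sum.inl l), h => exact absurd h (by simp [f0])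
    | Sum.inr (Sum.inr (Sum.inl k)), Sum.inr (Sum.inr (Sum.inl k')), h =>
      have h1 := Subtype.ext_iff.1 (Sum.inl.inj h)
      rw [hew k k' h1]
    | Sum.inr (Sum.inr (Sum.inl k)), Sum.inr (Sum.inr (Sum.inr k')), h =>
      exact absurd h (by simp [f0])
    | Sum.inr (Sum.inr (Sum.inr k)), Sum.inl i, h => exact absurd h (by simp [f0])
    | Sum.inr (Sum.inr (Sum.inr k)), Sum.inr (Sum.inl l), h =>
      exact absurd (congrArg Subtype.val (Sum.inr.inj h)).symm (hjw l k)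
    | Sum.inr (Sum.inr (Sum.inr k)), Sum.inr (Sum.inr (Sum.inl k')), h =>
      exact absurd h (by simp [f0])
    | Sum.inr (Sum.inr (Sum.inr k)), Sum.inr (Sum.inr (Sum.inr k')), h =>
      have h1 := Subtype.ext_iff.1 (Sum.inr.inj h)
      rw [hew k k' h1]
  have hf : Function.Injective (Option.map f0) := Option.map_injective hf0
  have hrange : (F.vars : Set _) ⊆ Set.range (Option.map f0) := by
    intro o ho
    have hpt : pt o ∈ T := Finset.mem_image_of_mem pt (Finset.mem_coe.1 ho)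
    match o, hpt with
    | none, _ => exact ⟨none, rfl⟩
    | some (Sum.inl z), hpt =>
      have hz : (z.1 : ℂ) ∈ T := hpt
      rcases z.2.2.2.eq_or_lt with h0 | h0
      · have hzR : z.1 ∈ R := Finset.mem_filter.2 ⟨hz, z.2.1, z.2.2.1, h0.symm⟩
        refine ⟨some (Sum.inl (ex.symm ⟨z.1, hzR⟩)), ?_⟩
        show some (Sum.inl _) = some (Sum.inl z)
        refine congrArg some (congrArg Sum.inl (Subtype.ext ?_))
        show ((ex (ex.symm ⟨z.1, hzR⟩) : R) : ℂ) = z.1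
        rw [Equiv.apply_symm_apply]
      · have hzC : z.1 ∈ Cc := Finset.mem_filter.2 ⟨hz, z.2.1, z.2.2.1, h0⟩
        refine ⟨some (Sum.inr (Sum.inr (Sum.inl (ew.symm ⟨z.1, hzC⟩)))), ?_⟩
        show some (Sum.inl _) = some (Sum.inl z)
        refine congrArg some (congrArg Sum.inl (Subtype.ext ?_))
        show ((ew (ew.symm ⟨z.1, hzC⟩) : Cc) : ℂ) = z.1
        rw [Equiv.apply_symm_apply]
    | some (Sum.inr z), hpt =>
      have hz : (z.1 : ℂ) ∈ T := hpt
      rcases z.2.2.1.eq_or_lt with h0 | h0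
      · have hzJ : z.1 ∈ J := Finset.mem_filter.2 ⟨hz, z.2.1, h0.symm, z.2.2.2⟩
        refine ⟨some (Sum.inr (Sum.inl (ej.symm ⟨z.1, hzJ⟩))), ?_⟩
        show some (Sum.inr _) = some (Sum.inr z)
        refine congrArg some (congrArg Sum.inr (Subtype.ext ?_))
        show ((ej (ej.symm ⟨z.1, hzJ⟩) : J) : ℂ) = z.1
        rw [Equiv.apply_symm_apply]
      · have hzC : z.1 ∈ Cc := Finset.mem_filter.2 ⟨hz, z.2.1, h0, z.2.2.2⟩
        refine ⟨some (Sum.inr (Sum.inr (Sum.inr (ew.symm ⟨z.1, hzC⟩)))), ?_⟩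
        show some (Sum.inr _) = some (Sum.inr z)
        refine congrArg some (congrArg Sum.inr (Subtype.ext ?_))
        show ((ew (ew.symm ⟨z.1, hzC⟩) : Cc) : ℂ) = z.1
        rw [Equiv.apply_symm_apply]
  obtain ⟨P, hPF⟩ := MvPolynomial.exists_rename_eq_of_vars_subset_range F (Option.map f0) hf hrange
  have hP0 : P ≠ 0 := by
    rintro rfl
    rw [map_zero] at hPF
    exact hF0 hPF.symm
  -- the complex points
  let z : (Fin n1 ⊕ (Fin n3 ⊕ (Fin n2 ⊕ Fin n2))) → ℂ :=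
    Sum.elim (fun i => (ex i : ℂ)) (Sum.elim (fun l => (ej l : ℂ))
      (Sum.elim (fun k => (ew k : ℂ)) (fun k => (starRingEnd ℂ) (ew k : ℂ))))
  have hzinj : Function.Injective z := by
    intro i j h
    match i, j, h with
    | Sum.inl i, Sum.inl j, h => rw [hex i j h]
    | Sum.inl i, Sum.inr (Sum.inl l), h =>
      have h1 : (ex i : ℂ).re = (ej l : ℂ).re := congrArg Complex.re h
      linarith [(cR i).2.1, (cJ l).2.1]
    | Sum.inl i, Sum.inr (Sum.inr (Sum.inl k)), h => exact absurd h (hxw i k)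
    | Sum.inl i, Sum.inr (Sum.inr (Sum.inr k)), h =>
      have h1 : (ex i : ℂ).im = ((starRingEnd ℂ) (ew k : ℂ)).im := congrArg Complex.im h
      linarith [(cR i).2.2, (cD k).2.2]
    | Sum.inr (Sum.inl l), Sum.inl i, h =>
      have h1 : (ej l : ℂ).re = (ex i : ℂ).re := congrArg Complex.re h
      linarith [(cR i).2.1, (cJ l).2.1]
    | Sum.inr (Sum.inl l), Sum.inr (Sum.inl l'), h => rw [hej l l' h]
    | Sum.inr (Sum.inl l), Sum.inr (Sum.inr (Sum.inl k)), h => exact absurd h (hjw l k)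
    | Sum.inr (Sum.inl l), Sum.inr (Sum.inr (Sum.inr k)), h =>
      have h1 : (ej l : ℂ).im = ((starRingEnd ℂ) (ew k : ℂ)).im := congrArg Complex.im h
      linarith [(cJ l).2.2, (cD k).2.2]
    | Sum.inr (Sum.inr (Sum.inl k)), Sum.inl i, h => exact absurd h.symm (hxw i k)
    | Sum.inr (Sum.inr (Sum.inl k)), Sum.inr (Sum.inl l), h => exact absurd h.symm (hjw l k)
    | Sum.inr (Sum.inr (Sum.inl k)), Sum.inr (Sum.inr (Sum.inl k')), h => rw [hew k k' h]
    | Sum.inr (Sum.inr (Sum.inl k)), Sum.inr (Sum.inr (Sum.inr k')), h =>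
      have h1 : (ew k : ℂ).im = ((starRingEnd ℂ) (ew k' : ℂ)).im := congrArg Complex.im h
      linarith [(cC k).2.2, (cD k').2.2]
    | Sum.inr (Sum.inr (Sum.inr k)), Sum.inl i, h =>
      have h1 : ((starRingEnd ℂ) (ew k : ℂ)).im = (ex i : ℂ).im := congrArg Complex.im h
      linarith [(cR i).2.2, (cD k).2.2]
    | Sum.inr (Sum.inr (Sum.inr k)), Sum.inr (Sum.inl l), h =>
      have h1 : ((starRingEnd ℂ) (ew k : ℂ)).im = (ej l : ℂ).im := congrArg Complex.im h
      linarith [(cJ l).2.2, (cD k).2.2]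
    | Sum.inr (Sum.inr (Sum.inr k)), Sum.inr (Sum.inr (Sum.inl k')), h =>
      have h1 : ((starRingEnd ℂ) (ew k : ℂ)).im = (ew k' : ℂ).im := congrArg Complex.im h
      linarith [(cC k').2.2, (cD k).2.2]
    | Sum.inr (Sum.inr (Sum.inr k)), Sum.inr (Sum.inr (Sum.inr k')), h =>
      have h1 : (ew k : ℂ) = (ew k' : ℂ) := (starRingEnd ℂ).injective h
      rw [hew k k' h1]
  have hzval : ∀ i, HH t (z i) = 0 := by
    intro i
    match i with
    | Sum.inl i => exact (cR i).1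
    | Sum.inr (Sum.inl l) => exact (cJ l).1
    | Sum.inr (Sum.inr (Sum.inl k)) => exact (cC k).1
    | Sum.inr (Sum.inr (Sum.inr k)) => exact (cD k).1
  have hzpos : ∀ i, 0 < (z i).re ∨ ((z i).re = 0 ∧ 0 < (z i).im) := by
    intro i
    match i with
    | Sum.inl i => exact Or.inl (cR i).2.1
    | Sum.inr (Sum.inl l) => exact Or.inr (cJ l).2
    | Sum.inr (Sum.inr (Sum.inl k)) => exact Or.inl (cC k).2.1
    | Sum.inr (Sum.inr (Sum.inr k)) => exact Or.inl (cD k).2.1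
  have hzneg : ∀ i j, z i ≠ -z j := by
    intro i j h
    have h1 : (z i).re = -(z j).re := by rw [h, Complex.neg_re]
    have h2 : (z i).im = -(z j).im := by rw [h, Complex.neg_im]
    rcases hzpos i with h3 | h3 <;> rcases hzpos j with h4 | h4
    · linarith
    · linarith [h4.1]
    · linarith [h3.1]
    · linarith [h3.2, h4.2]
  have hev : MvPolynomial.eval (fun o : Option (Fin n1 ⊕ (Fin n3 ⊕ (Fin n2 ⊕ Fin n2))) => o.elim (t : ℂ) z) (FinC_t K n1 n3 n2 P) = 0 := by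
    rw [← hPF, MvPolynomial.aeval_rename] at hF
    rw [← hF]
    refine FinC_t_eval K n1 n3 n2 P _ _ fun o => ?_
    match o with
    | none =>
      show MvPolynomial.eval _ (MvPolynomial.X none) = _
      rw [MvPolynomial.eval_X]
      rfl
    | some (Sum.inl i) =>
      show MvPolynomial.eval _ (MvPolynomial.X (some (Sum.inl i))) = _
      rw [MvPolynomial.eval_X]
      show (ex i : ℂ) = (((ex i : ℂ).re : ℝ) : ℂ)
      refine Complex.ext ?_ ?_
      · rw [Complex.ofReal_re]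
      · rw [Complex.ofReal_im]
        exact (cR i).2.2
    | some (Sum.inr (Sum.inl l)) =>
      show MvPolynomial.eval _ (MvPolynomial.C (-I) *
        MvPolynomial.X (some (Sum.inr (Sum.inl l)))) = _
      rw [map_mul, MvPolynomial.eval_X, MvPolynomial.eval_C]
      show -I * (ej l : ℂ) = (((ej l : ℂ).im : ℝ) : ℂ)
      refine Complex.ext ?_ ?_
      · rw [neg_mul, Complex.neg_re, Complex.I_mul_re, Complex.ofReal_re, neg_neg]
      · rw [neg_mul, Complex.neg_im, Complex.I_mul_im, Complex.ofReal_im, (cJ l).2.1, neg_zero]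
    | some (Sum.inr (Sum.inr (Sum.inl k))) =>
      show MvPolynomial.eval _ (MvPolynomial.C (1 / 2) *
        (MvPolynomial.X (some (Sum.inr (Sum.inr (Sum.inl k)))) +
          MvPolynomial.X (some (Sum.inr (Sum.inr (Sum.inr k)))))) = _
      rw [map_mul, map_add, MvPolynomial.eval_X, MvPolynomial.eval_X, MvPolynomial.eval_C]
      show 1 / 2 * ((ew k : ℂ) + (starRingEnd ℂ) (ew k : ℂ)) = (((ew k : ℂ).re : ℝ) : ℂ)
      rw [Complex.add_conj]
      push_cast
      ring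
    | some (Sum.inr (Sum.inr (Sum.inr k))) =>
      show MvPolynomial.eval _ (MvPolynomial.C (1 / (2 * I)) *
        (MvPolynomial.X (some (Sum.inr (Sum.inr (Sum.inl k)))) -
          MvPolynomial.X (some (Sum.inr (Sum.inr (Sum.inr k)))))) = _
      rw [map_mul, map_sub, MvPolynomial.eval_X, MvPolynomial.eval_X, MvPolynomial.eval_C]
      show 1 / (2 * I) * ((ew k : ℂ) - (starRingEnd ℂ) (ew k : ℂ)) = (((ew k : ℂ).im : ℝ) : ℂ)
      rw [Complex.sub_conj]
      push_cast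
      have hI : (2 : ℂ) * I ≠ 0 := mul_ne_zero two_ne_zero I_ne_zero
      field_simp
  refine ht' (Or.inr ?_)
  rw [Set.mem_iUnion]
  refine ⟨n1, ?_⟩
  rw [Set.mem_iUnion]
  refine ⟨n3, ?_⟩
  rw [Set.mem_iUnion]
  refine ⟨n2, ?_⟩
  rw [Set.mem_iUnion]
  refine ⟨P, ?_⟩
  rw [Set.mem_iUnion]
  exact ⟨hP0, z, fun i => hsimp _ (hzval i), fun i j hij => ⟨fun h => hij (hzinj h), hzneg i j⟩, hev⟩

end Pool.Agent.Lib.MP_ec260d_ntC
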